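import Pool.Agent.Lib.MP_e426f4_ag.N.Sg

/-! The constant which compares coordinates and absolute values. -/

set_option linter.unusedSectionVars false

namespace NFHP

open NumberField GenHP Finset Filter Topology

variable {K : Type} [Field K] [NumberField K] {n d : ℕ}

/-- the point of the mixed space belonging to a real family -/
private noncomputable def toMixed (v : InfinitePlace K → ℂ) : mixedEmbedding.mixedSpace K :=
  (fun w => (v w.1).re, fun w => v w.1)

private theorem toMixed_lam (r : IK K → ℝ) :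
    toMixed (lam r) = ∑ j, r j • mixedEmbedding.latticeBasis K j := by
  apply Prod.ext
  · funext w
    simp only [toMixed, Prod.fst_sum, Finset.sum_apply, Prod.smul_fst, Pi.smul_apply, lam,
      Complex.re_sum, Complex.re_ofReal_mul, smul_eq_mul]
    refine Finset.sum_congr rfl fun j _ => ?_
    congr 1
    rw [mixedEmbedding.latticeBasis_apply]
    have h := InfinitePlace.embedding_of_isReal_apply w.2 ((RingOfIntegers.basis K j : 𝓞 K) : K)
    have h2 : (mixedEmbedding K (integralBasis K j)).1 w =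
        InfinitePlace.embedding_of_isReal w.2 (integralBasis K j) :=
      mixedEmbedding.mixedEmbedding_apply_isReal K _ w
    rw [h2, integralBasis_apply]
    show (w.1.embedding ((RingOfIntegers.basis K j : 𝓞 K) : K)).re = _
    rw [← h]
    exact Complex.ofReal_re _
  · funext w
    simp only [toMixed, Prod.snd_sum, Finset.sum_apply, Prod.smul_snd, Pi.smul_apply, lam,
      Complex.real_smul]
    refine Finset.sum_congr rfl fun j _ => ?_
    congr 1
    rw [mixedEmbedding.latticeBasis_apply, integralBasis_apply]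
    exact (mixedEmbedding.mixedEmbedding_apply_isComplex K _ w).symm

open scoped Classical in
private theorem toMixed_norm_le (v : InfinitePlace K → ℂ) (R : ℝ) (hv : ∀ w, ‖v w‖ ≤ R) :
    ‖toMixed v‖ ≤ R := by
  have hR : 0 ≤ R := (norm_nonneg _).trans (hv (Classical.arbitrary _))
  refine norm_prod_le_iff.mpr ⟨?_, ?_⟩
  · rw [pi_norm_le_iff_of_nonneg hR]
    intro w
    exact (Real.norm_eq_abs _ ▸ Complex.abs_re_le_norm _).trans (hv w.1)
  · rw [pi_norm_le_iff_of_nonneg hR]
    intro w
    exact hv w.1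

theorem exists_cK (K : Type) [Field K] [NumberField K] : ∃ c : ℝ, CKprop K c := by
  classical
  obtain ⟨C1, hC1, h1⟩ : ∃ C1 : ℝ, 0 ≤ C1 ∧ ∀ (r : IK K → ℝ) (R : ℝ), (∀ j, |r j| ≤ R) →
      ∀ w, ‖lam r w‖ ≤ C1 * R := by
    refine ⟨∑ j : IK K, ∑ w : InfinitePlace K, ‖sg w (RingOfIntegers.basis K j)‖,
      by positivity, fun r R hr w => ?_⟩
    unfold lam
    calc ‖∑ j, (r j : ℂ) * sg w (RingOfIntegers.basis K j)‖
        ≤ ∑ j, ‖(r j : ℂ) * sg w (RingOfIntegers.basis K j)‖ := norm_sum_le _ _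
      _ ≤ ∑ j, R * ∑ w : InfinitePlace K, ‖sg w (RingOfIntegers.basis K j)‖ := by
          refine Finset.sum_le_sum fun j _ => ?_
          rw [norm_mul, Complex.norm_real, Real.norm_eq_abs]
          have hR : 0 ≤ R := (abs_nonneg _).trans (hr j)
          refine mul_le_mul (hr j) ?_ (norm_nonneg _) hR
          exact Finset.single_le_sum (f := fun w => ‖sg w (RingOfIntegers.basis K j)‖)
            (fun _ _ => norm_nonneg _) (Finset.mem_univ w)
      _ = _ := by rw [← Finset.mul_sum, mul_comm]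
  obtain ⟨C2, hC2, h2⟩ : ∃ C2 : ℝ, 0 ≤ C2 ∧ ∀ (r : IK K → ℝ) (R : ℝ), (∀ w, ‖lam r w‖ ≤ R) →
      ∀ j, |r j| ≤ C2 * R := by
    have hcont : ∀ j : IK K, ∃ C : ℝ, 0 ≤ C ∧ ∀ x : mixedEmbedding.mixedSpace K,
        |(mixedEmbedding.latticeBasis K).coord j x| ≤ C * ‖x‖ := by
      intro j
      have := LinearMap.toContinuousLinearMap ((mixedEmbedding.latticeBasis K).coord j)
      refine ⟨‖LinearMap.toContinuousLinearMap ((mixedEmbedding.latticeBasis K).coord j)‖,
        norm_nonneg _, fun x => ?_⟩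
      exact (LinearMap.toContinuousLinearMap
        ((mixedEmbedding.latticeBasis K).coord j)).le_opNorm x
    choose C hC hCx using hcont
    refine ⟨∑ j, C j, Finset.sum_nonneg fun j _ => hC j, fun r R hr j => ?_⟩
    have hR : 0 ≤ R := (norm_nonneg _).trans (hr (Classical.arbitrary _))
    have e1 : (mixedEmbedding.latticeBasis K).coord j (toMixed (lam r)) = r j := by
      rw [toMixed_lam, Module.Basis.coord_apply, Module.Basis.repr_sum_self]
    calc |r j| = |(mixedEmbedding.latticeBasis K).coord j (toMixed (lam r))| := by rw [e1]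
      _ ≤ C j * ‖toMixed (lam r)‖ := hCx j _
      _ ≤ C j * R := mul_le_mul_of_nonneg_left (toMixed_norm_le _ R hr) (hC j)
      _ ≤ (∑ j, C j) * R := by
          refine mul_le_mul_of_nonneg_right ?_ hR
          exact Finset.single_le_sum (f := C) (fun j _ => hC j) (Finset.mem_univ j)
  have h3 : ∀ v : InfinitePlace K → ℂ, RV v → ∃ r : IK K → ℝ, ∀ w, lam r w = v w := by
    intro v hv
    refine ⟨fun j => (mixedEmbedding.latticeBasis K).repr (toMixed v) j, fun w => ?_⟩
    have e1 := toMixed_lam (K := K) (fun j => (mixedEmbedding.latticeBasis K).repr (toMixed v) j)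
    rw [(mixedEmbedding.latticeBasis K).sum_repr] at e1
    rcases InfinitePlace.isReal_or_isComplex w with hw | hw
    · have e2 := congrFun (congrArg Prod.fst e1) ⟨w, hw⟩
      have e3 : (lam (fun j => (mixedEmbedding.latticeBasis K).repr (toMixed v) j) w).re =
          (v w).re := e2
      exact Complex.ext e3 (by rw [RV_lam _ w hw, hv w hw])
    · exact congrFun (congrArg Prod.snd e1) ⟨w, hw⟩
  refine ⟨1 + C1 + C2, by linarith, ?_, ?_, h3, ?_⟩
  · intro r R hr w
    have hR : 0 ≤ R := by
      have : Nonempty (IK K) := by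
        rw [← Fintype.card_pos_iff, card_IK]
        exact mK_pos
      exact (abs_nonneg _).trans (hr (Classical.arbitrary _))
    exact (h1 r R hr w).trans (mul_le_mul_of_nonneg_right (by linarith) hR)
  · intro r R hr j
    have hR : 0 ≤ R := (norm_nonneg _).trans (hr (Classical.arbitrary _))
    exact (h2 r R hr j).trans (mul_le_mul_of_nonneg_right (by linarith) hR)
  · intro v hv
    obtain ⟨r, hr⟩ := h3 v hv
    obtain ⟨a, ha⟩ := exists_crd (K := K) fun j => ⌊r j⌋
    refine ⟨a, fun w => ?_⟩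
    have e1 : sg w a - v w = lam (fun j => (crd a j : ℝ) - r j) w := by
      rw [lam_sub, lam_crd, hr]
    rw [e1]
    refine (h1 _ 1 (fun j => ?_) w).trans (by linarith)
    rw [ha, abs_le]
    have h4 := Int.floor_le (r j)
    have h5 := Int.lt_floor_add_one (r j)
    constructor <;> linarith

theorem cK_prop : CKprop K (cK K) := by
  unfold cK
  rw [dif_pos (exists_cK K)]
  exact (exists_cK K).choose_spec

theorem one_le_cK : 1 ≤ cK K := cK_prop.1

theorem cK_pos : 0 < cK K := by linarith [one_le_cK (K := K)]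

theorem norm_lam_le (r : IK K → ℝ) (R : ℝ) (h : ∀ j, |r j| ≤ R) (w : InfinitePlace K) :
    ‖lam r w‖ ≤ cK K * R := cK_prop.2.1 r R h w

theorem abs_le_of_lam (r : IK K → ℝ) (R : ℝ) (h : ∀ w, ‖lam r w‖ ≤ R) (j : IK K) :
    |r j| ≤ cK K * R := cK_prop.2.2.1 r R h j

theorem exists_lam {v : InfinitePlace K → ℂ} (hv : RV v) : ∃ r : IK K → ℝ, ∀ w, lam r w = v w :=
  cK_prop.2.2.2.1 v hv

theorem exists_round {v : InfinitePlace K → ℂ} (hv : RV v) :
    ∃ a : 𝓞 K, ∀ w, ‖sg w a - v w‖ ≤ cK K := cK_prop.2.2.2.2 v hv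

theorem lam_injective {r s : IK K → ℝ} (h : ∀ w, lam r w = lam s w) : r = s := by
  funext j
  have h1 := abs_le_of_lam (fun j => r j - s j) 0 (fun w => by
    rw [lam_sub, h w, sub_self, norm_zero]) j
  rw [mul_zero] at h1
  have h2 : r j - s j = 0 := abs_nonpos_iff.mp h1
  linarith

theorem norm_sg_le_of_crd {a : 𝓞 K} {R : ℝ} (h : ∀ j, |(crd a j : ℝ)| ≤ R) (w : InfinitePlace K) :
    ‖sg w a‖ ≤ cK K * R := by
  rw [← lam_crd]
  exact norm_lam_le _ R h w

theorem crd_le_of_norm_sg {a : 𝓞 K} {R : ℝ} (h : ∀ w, ‖sg w a‖ ≤ R) (j : IK K) :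
    |(crd a j : ℝ)| ≤ cK K * R :=
  abs_le_of_lam (fun j => (crd a j : ℝ)) R (fun w => by rw [lam_crd]; exact h w) j

end NFHP
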