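import Pool.Agent.Lib.MP_e426f4_ag.N.Const

/-! Integers with coordinates in a cube, in a class modulo an ideal. -/

set_option linter.unusedSectionVars false

namespace NFHP

open NumberField GenHP Finset Filter Topology

variable {K : Type} [Field K] [NumberField K] {n d : ℕ}

private theorem cc_radius (N : ℕ) (eps : ℝ) (he : 0 < eps) :
    ∃ e0 : ℝ, 0 < e0 ∧ e0 ≤ 1 / 2 ∧ (1 + e0) ^ N ≤ 1 + eps ∧ 1 - eps ≤ (1 - e0) ^ N := by
  have h1 : Tendsto (fun t : ℝ => (1 + t) ^ N) (𝓝 0) (𝓝 1) := by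
    have : Tendsto (fun t : ℝ => (1 + t) ^ N) (𝓝 0) (𝓝 ((1 + 0) ^ N)) :=
      (tendsto_const_nhds.add tendsto_id).pow N
    simpa using this
  have h2 : Tendsto (fun t : ℝ => (1 - t) ^ N) (𝓝 0) (𝓝 1) := by
    have : Tendsto (fun t : ℝ => (1 - t) ^ N) (𝓝 0) (𝓝 ((1 - 0) ^ N)) :=
      (tendsto_const_nhds.sub tendsto_id).pow N
    simpa using this
  have e1 := h1.eventually (gt_mem_nhds (by linarith : (1 : ℝ) < 1 + eps))
  have e2 := h2.eventually (lt_mem_nhds (by linarith : (1 : ℝ) - eps < 1))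
  obtain ⟨δ, hδ, h⟩ := Metric.eventually_nhds_iff.mp (e1.and e2)
  refine ⟨min (δ / 2) (1 / 2), by positivity, min_le_right _ _, ?_⟩
  have hm : 0 < min (δ / 2) (1 / 2) := by positivity
  have h3 := h (y := min (δ / 2) (1 / 2)) (by
    rw [dist_zero_right, Real.norm_eq_abs, abs_of_pos hm]
    exact (min_le_left _ _).trans_lt (by linarith))
  exact ⟨h3.1.le, h3.2.le⟩

/-- the integers with coordinates in a cube, as a finite set -/
noncomputable def cubeF (c : IK K → ℝ) (R : ℝ) : Finset (IK K → ℤ) :=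
  open scoped Classical in Fintype.piFinset fun j => Finset.Icc ⌈c j - R⌉ ⌊c j + R⌋

theorem mem_cubeF (c : IK K → ℝ) (R : ℝ) (z : IK K → ℤ) :
    z ∈ cubeF c R ↔ ∀ j, |(z j : ℝ) - c j| ≤ R := by
  classical
  unfold cubeF
  rw [Fintype.mem_piFinset]
  refine forall_congr' fun j => ?_
  rw [Finset.mem_Icc, Int.ceil_le, Int.le_floor, abs_le]
  constructor
  · rintro ⟨h1, h2⟩
    constructor <;> linarith
  · rintro ⟨h1, h2⟩
    constructor <;> linarith

theorem cube_finite (c : IK K → ℝ) (R : ℝ) : {a : 𝓞 K | ∀ j, |(crd a j : ℝ) - c j| ≤ R}.Finite := by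
  have he : Function.Injective (fun (a : 𝓞 K) (j : IK K) => crd a j) := fun a b h =>
    crd_ext fun j => congrFun h j
  refine Set.Finite.of_finite_image (f := fun (a : 𝓞 K) (j : IK K) => crd a j) ?_ he.injOn
  refine (cubeF c R).finite_toSet.subset ?_
  rintro _ ⟨a, ha, rfl⟩
  rw [Finset.mem_coe, mem_cubeF]
  exact ha

theorem ncard_cube (c : IK K → ℝ) (R : ℝ) :
    Set.ncard {a : 𝓞 K | ∀ j, |(crd a j : ℝ) - c j| ≤ R} = (cubeF c R).card := by
  rw [← Set.ncard_coe_finset]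
  have he : Function.Injective (fun (a : 𝓞 K) (j : IK K) => crd a j) := fun a b h =>
    crd_ext fun j => congrFun h j
  rw [← Set.ncard_image_of_injective _ he]
  congr 1
  ext z
  rw [Finset.mem_coe, mem_cubeF]
  constructor
  · rintro ⟨a, ha, rfl⟩
    exact ha
  · intro h
    obtain ⟨a, ha⟩ := exists_crd (K := K) z
    refine ⟨a, fun j => ?_, funext ha⟩
    rw [ha j]
    exact h j

private theorem cc_interval (c R : ℝ) (hR : 1 ≤ R) :
    2 * R - 1 ≤ ((Finset.Icc ⌈c - R⌉ ⌊c + R⌋).card : ℝ) ∧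
      ((Finset.Icc ⌈c - R⌉ ⌊c + R⌋).card : ℝ) ≤ 2 * R + 1 := by
  have h1 := Int.le_ceil (c - R)
  have h2 := Int.ceil_lt_add_one (c - R)
  have h3 := Int.floor_le (c + R)
  have h4 := Int.lt_floor_add_one (c + R)
  have h5 : ⌈c - R⌉ ≤ ⌊c + R⌋ + 1 := by
    have : ((⌈c - R⌉ : ℤ) : ℝ) < ((⌊c + R⌋ + 1 + 1 : ℤ) : ℝ) := by
      push_cast
      linarith
    have := Int.cast_lt.mp this
    omega
  rw [Int.card_Icc]
  have h6 : (((⌊c + R⌋ + 1 - ⌈c - R⌉).toNat : ℤ) : ℝ) = ((⌊c + R⌋ + 1 - ⌈c - R⌉ : ℤ) : ℝ) := by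
    rw [Int.toNat_of_nonneg (by omega)]
  rw [Int.cast_natCast] at h6
  rw [h6]
  push_cast
  constructor <;> linarith

theorem card_cubeF (c : IK K → ℝ) (R : ℝ) (hR : 1 ≤ R) :
    (2 * R - 1) ^ mK K ≤ ((cubeF c R).card : ℝ) ∧ ((cubeF c R).card : ℝ) ≤ (2 * R + 1) ^ mK K := by
  classical
  unfold cubeF
  rw [Fintype.card_piFinset, ← card_IK (K := K), ← Finset.card_univ]
  push_cast
  rw [← Finset.prod_const, ← Finset.prod_const]
  constructor
  · exact Finset.prod_le_prod (fun _ _ => by linarith) fun j _ => (cc_interval (c j) R hR).1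
  · exact Finset.prod_le_prod (fun _ _ => Nat.cast_nonneg _) fun j _ => (cc_interval (c j) R hR).2

/-- translation -/
private theorem cc_translate (b : Ideal (𝓞 K)) (c : IK K → ℝ) (R : ℝ) (r : 𝓞 K) :
    Set.ncard {a : 𝓞 K | a - r ∈ b ∧ ∀ j, |(crd a j : ℝ) - c j| ≤ R} =
      Set.ncard {a : 𝓞 K | a ∈ b ∧ ∀ j, |(crd a j : ℝ) - (c j - crd r j)| ≤ R} := by
  rw [← Set.ncard_image_of_injective {a : 𝓞 K | a - r ∈ b ∧ ∀ j, |(crd a j : ℝ) - c j| ≤ R}
    (sub_left_injective (b := r))]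
  congr 1
  ext a
  constructor
  · rintro ⟨a', ⟨h1, h2⟩, rfl⟩
    refine ⟨h1, fun j => ?_⟩
    show |(crd (a' - r) j : ℝ) - _| ≤ R
    rw [crd_sub]
    push_cast
    have : (crd a' j : ℝ) - crd r j - (c j - crd r j) = crd a' j - c j := by ring
    rw [this]
    exact h2 j
  · rintro ⟨h1, h2⟩
    refine ⟨a + r, ⟨?_, fun j => ?_⟩, ?_⟩
    · rw [add_sub_cancel_right]
      exact h1
    · rw [crd_add]
      push_cast
      have : (crd a j : ℝ) + crd r j - c j = crd a j - (c j - crd r j) := by ring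
      rw [this]
      exact h2 j
    · show a + r - r = a
      rw [add_sub_cancel_right]

private theorem cc_finite (b : Ideal (𝓞 K)) (c : IK K → ℝ) (R : ℝ) (r : 𝓞 K) :
    {a : 𝓞 K | a - r ∈ b ∧ ∀ j, |(crd a j : ℝ) - c j| ≤ R}.Finite :=
  (cube_finite c R).subset fun _ h => h.2

private theorem cc_finite0 (b : Ideal (𝓞 K)) (c : IK K → ℝ) (R : ℝ) :
    {a : 𝓞 K | a ∈ b ∧ ∀ j, |(crd a j : ℝ) - c j| ≤ R}.Finite :=
  (cube_finite c R).subset fun _ h => h.2

/-- sum over the classes -/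
private theorem cc_sum (b : Ideal (𝓞 K)) [Fintype (𝓞 K ⧸ b)] (c : IK K → ℝ) (R : ℝ) :
    ∑ q : 𝓞 K ⧸ b, Set.ncard {a : 𝓞 K | a - Quotient.out q ∈ b ∧ ∀ j, |(crd a j : ℝ) - c j| ≤ R} =
      (cubeF c R).card := by
  classical
  rw [← ncard_cube, Set.ncard_eq_toFinset_card _ (cube_finite c R),
    Finset.card_eq_sum_card_fiberwise (f := fun a : 𝓞 K => Ideal.Quotient.mk b a)
      (t := Finset.univ) (fun _ _ => Finset.mem_coe.mpr (Finset.mem_univ _))]
  refine Finset.sum_congr rfl fun q _ => ?_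
  rw [← Set.ncard_coe_finset]
  congr 1
  ext a
  rw [Finset.mem_coe, Finset.mem_filter, Set.Finite.mem_toFinset]
  constructor
  · rintro ⟨h1, h2⟩
    refine ⟨h2, ?_⟩
    conv_rhs => rw [← Ideal.Quotient.mk_out q]
    exact Ideal.Quotient.eq.mpr h1
  · rintro ⟨h1, h2⟩
    refine ⟨?_, h1⟩
    rw [← Ideal.Quotient.eq, h2, Ideal.Quotient.mk_out]

theorem card_quot (b : Ideal (𝓞 K)) [Fintype (𝓞 K ⧸ b)] :
    Fintype.card (𝓞 K ⧸ b) = Ideal.absNorm b := by
  rw [← Nat.card_eq_fintype_card, Ideal.absNorm_apply, Submodule.cardQuot_apply]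

/-- all cosets of `b` have about the same number of elements in a cube -/
private theorem cc_bounds (b : Ideal (𝓞 K)) (hb : b ≠ ⊥) : ∃ M : ℝ, 0 ≤ M ∧
    ∀ (R : ℝ), M + 1 ≤ R → ∀ c : IK K → ℝ,
      (2 * (R - M) - 1) ^ mK K ≤ Ideal.absNorm b *
        (Set.ncard {a : 𝓞 K | a ∈ b ∧ ∀ j, |(crd a j : ℝ) - c j| ≤ R} : ℝ) ∧
      Ideal.absNorm b *
        (Set.ncard {a : 𝓞 K | a ∈ b ∧ ∀ j, |(crd a j : ℝ) - c j| ≤ R} : ℝ) ≤
        (2 * (R + M) + 1) ^ mK K := by
  classical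
  have : Finite (𝓞 K ⧸ b) := Ideal.finiteQuotientOfFreeOfNeBot b hb
  have : Fintype (𝓞 K ⧸ b) := Fintype.ofFinite _
  refine ⟨∑ q : 𝓞 K ⧸ b, ∑ j : IK K, |(crd (Quotient.out q) j : ℝ)|, by positivity,
    fun R hR c => ?_⟩
  set M : ℝ := ∑ q : 𝓞 K ⧸ b, ∑ j : IK K, |(crd (Quotient.out q) j : ℝ)| with hM
  have hM0 : 0 ≤ M := by positivity
  have hMq : ∀ (q : 𝓞 K ⧸ b) (j : IK K), |(crd (Quotient.out q) j : ℝ)| ≤ M := by
    intro q j
    have h1 : |(crd (Quotient.out q) j : ℝ)| ≤ ∑ j : IK K, |(crd (Quotient.out q) j : ℝ)| :=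
      Finset.single_le_sum (f := fun j => |(crd (Quotient.out q) j : ℝ)|)
        (fun _ _ => abs_nonneg _) (Finset.mem_univ j)
    have h2 : ∑ j : IK K, |(crd (Quotient.out q) j : ℝ)| ≤ M :=
      Finset.single_le_sum (f := fun q : 𝓞 K ⧸ b => ∑ j : IK K, |(crd (Quotient.out q) j : ℝ)|)
        (fun _ _ => Finset.sum_nonneg fun _ _ => abs_nonneg _) (Finset.mem_univ q)
    exact h1.trans h2
  constructor
  · have h1 := (card_cubeF c (R - M) (by linarith)).1
    rw [← cc_sum b c (R - M)] at h1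
    refine h1.trans ?_
    push_cast
    calc ∑ q : 𝓞 K ⧸ b, (Set.ncard {a : 𝓞 K | a - Quotient.out q ∈ b ∧
          ∀ j, |(crd a j : ℝ) - c j| ≤ R - M} : ℝ)
        ≤ ∑ _q : 𝓞 K ⧸ b, (Set.ncard {a : 𝓞 K | a ∈ b ∧ ∀ j, |(crd a j : ℝ) - c j| ≤ R} : ℝ) := by
          refine Finset.sum_le_sum fun q _ => ?_
          rw [cc_translate]
          have : Set.ncard {a : 𝓞 K | a ∈ b ∧ ∀ j, |(crd a j : ℝ) -
              (c j - crd (Quotient.out q) j)| ≤ R - M} ≤
              Set.ncard {a : 𝓞 K | a ∈ b ∧ ∀ j, |(crd a j : ℝ) - c j| ≤ R} := by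
            refine Set.ncard_le_ncard ?_ (cc_finite0 b c R)
            rintro a ⟨h2, h3⟩
            refine ⟨h2, fun j => ?_⟩
            have e1 : (crd a j : ℝ) - c j = ((crd a j : ℝ) - (c j - crd (Quotient.out q) j)) -
                crd (Quotient.out q) j := by ring
            rw [e1]
            exact (abs_sub _ _).trans (by linarith [h3 j, hMq q j])
          exact_mod_cast this
      _ = _ := by rw [Finset.sum_const, Finset.card_univ, card_quot, nsmul_eq_mul]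
  · have h1 := (card_cubeF c (R + M) (by linarith)).2
    rw [← cc_sum b c (R + M)] at h1
    refine le_trans ?_ h1
    push_cast
    calc _ = ∑ _q : 𝓞 K ⧸ b, (Set.ncard {a : 𝓞 K | a ∈ b ∧ ∀ j, |(crd a j : ℝ) - c j| ≤ R} : ℝ) := by
          rw [Finset.sum_const, Finset.card_univ, card_quot, nsmul_eq_mul]
      _ ≤ ∑ q : 𝓞 K ⧸ b, (Set.ncard {a : 𝓞 K | a - Quotient.out q ∈ b ∧
          ∀ j, |(crd a j : ℝ) - c j| ≤ R + M} : ℝ) := by
          refine Finset.sum_le_sum fun q _ => ?_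
          rw [cc_translate]
          have : Set.ncard {a : 𝓞 K | a ∈ b ∧ ∀ j, |(crd a j : ℝ) - c j| ≤ R} ≤
              Set.ncard {a : 𝓞 K | a ∈ b ∧ ∀ j, |(crd a j : ℝ) -
              (c j - crd (Quotient.out q) j)| ≤ R + M} := by
            refine Set.ncard_le_ncard ?_ (cc_finite0 b _ _)
            rintro a ⟨h2, h3⟩
            refine ⟨h2, fun j => ?_⟩
            have e1 : (crd a j : ℝ) - (c j - crd (Quotient.out q) j) = ((crd a j : ℝ) - c j) +
                crd (Quotient.out q) j := by ring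
            rw [e1]
            exact (abs_add_le _ _).trans (by linarith [h3 j, hMq q j])
          exact_mod_cast this

theorem cube_count (b : Ideal (𝓞 K)) (hb : b ≠ ⊥) (eps : ℝ) (he : 0 < eps) :
    ∃ R0 : ℝ, 0 < R0 ∧ ∀ R : ℝ, R0 ≤ R → ∀ (c : IK K → ℝ) (r : 𝓞 K),
      {a : 𝓞 K | a - r ∈ b ∧ ∀ j, |(crd a j : ℝ) - c j| ≤ R}.Finite ∧
      (1 - eps) * ((2 * R) ^ mK K / Ideal.absNorm b) ≤
        (Set.ncard {a : 𝓞 K | a - r ∈ b ∧ ∀ j, |(crd a j : ℝ) - c j| ≤ R} : ℝ) ∧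
      (Set.ncard {a : 𝓞 K | a - r ∈ b ∧ ∀ j, |(crd a j : ℝ) - c j| ≤ R} : ℝ) ≤
        (1 + eps) * ((2 * R) ^ mK K / Ideal.absNorm b) := by
  obtain ⟨M, hM0, hM⟩ := cc_bounds b hb
  obtain ⟨e0, he0, he1, he2, he3⟩ := cc_radius (mK K) eps he
  have hNb : (0 : ℝ) < Ideal.absNorm b := by exact_mod_cast absNorm_pos hb
  refine ⟨M + 1 + (2 * M + 1) / (2 * e0), by positivity, fun R hR c r =>
    ⟨cc_finite b c R r, ?_⟩⟩
  rw [cc_translate]
  have h0 : 0 ≤ (2 * M + 1) / (2 * e0) := by positivity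
  have hR0 : 0 < R := by linarith
  have h1 : 2 * M + 1 ≤ e0 * (2 * R) := by
    have : (2 * M + 1) / (2 * e0) ≤ R := by linarith
    rw [div_le_iff₀ (by positivity)] at this
    linarith
  obtain ⟨h2, h3⟩ := hM R (by linarith) fun j => c j - crd r j
  constructor
  · have h4 : ((1 - e0) * (2 * R)) ^ mK K ≤ (2 * (R - M) - 1) ^ mK K := by
      refine pow_le_pow_left₀ (mul_nonneg (by linarith) (by linarith)) ?_ _
      linarith
    rw [mul_pow] at h4
    have h5 : (1 - eps) * (2 * R) ^ mK K ≤ (1 - e0) ^ mK K * (2 * R) ^ mK K :=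
      mul_le_mul_of_nonneg_right he3 (by positivity)
    rw [← mul_div_assoc, div_le_iff₀ hNb]
    linarith [h5.trans (h4.trans h2)]
  · have h4 : (2 * (R + M) + 1) ^ mK K ≤ ((1 + e0) * (2 * R)) ^ mK K := by
      refine pow_le_pow_left₀ (by linarith) ?_ _
      linarith
    rw [mul_pow] at h4
    have h5 : (1 + e0) ^ mK K * (2 * R) ^ mK K ≤ (1 + eps) * (2 * R) ^ mK K :=
      mul_le_mul_of_nonneg_right he2 (by positivity)
    rw [← mul_div_assoc, le_div_iff₀ hNb]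
    linarith [h3.trans (h4.trans h5)]

/-- coefficient vectors with coordinates in a box, as a finite set -/
private noncomputable def boxF (K : Type) [Field K] [NumberField K] (n d : ℕ) (H : ℤ) :
    Finset (Idx n d → IK K → ℤ) :=
  open scoped Classical in
  Fintype.piFinset fun _ => Fintype.piFinset fun _ => Finset.Icc (-H) H

private theorem cc_inj : Function.Injective (fun (A : Idx n d → 𝓞 K) (t : Idx n d) (j : IK K) =>
    crd (A t) j) := by
  intro A B h
  funext t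
  exact crd_ext fun j => congrFun (congrFun h t) j

theorem BoxK_finite (H : ℝ) : (BoxK K n d H).Finite := by
  classical
  refine Set.Finite.of_finite_image (f := fun (A : Idx n d → 𝓞 K) (t : Idx n d) (j : IK K) =>
    crd (A t) j) ?_ cc_inj.injOn
  refine (boxF K n d ⌊H⌋).finite_toSet.subset ?_
  rintro _ ⟨A, hA, rfl⟩
  unfold boxF
  rw [Finset.mem_coe, Fintype.mem_piFinset]
  intro t
  rw [Fintype.mem_piFinset]
  intro j
  have h1 := hA t j
  rw [abs_le] at h1
  rw [Finset.mem_Icc]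
  constructor
  · rw [neg_le, Int.le_floor]
    push_cast
    linarith
  · rw [Int.le_floor]
    exact h1.2

theorem card_BoxK (H : ℕ) : (BoxK K n d H).ncard = (2 * H + 1) ^ (mK K * NN n d) := by
  classical
  have h1 : (BoxK K n d H).ncard = (boxF K n d H).card := by
    rw [← Set.ncard_coe_finset, ← Set.ncard_image_of_injective _ cc_inj]
    congr 1
    ext z
    unfold boxF
    rw [Finset.mem_coe, Fintype.mem_piFinset]
    constructor
    · rintro ⟨A, hA, rfl⟩ t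
      rw [Fintype.mem_piFinset]
      intro j
      have h2 := hA t j
      rw [Finset.mem_Icc, ← abs_le]
      have h3 : ((|crd (A t) j| : ℤ) : ℝ) ≤ ((H : ℤ) : ℝ) := by
        push_cast
        exact h2
      exact Int.cast_le.mp h3
    · intro h
      have h2 : ∀ t, ∃ a : 𝓞 K, ∀ j, crd a j = z t j := fun t => exists_crd (z t)
      choose A hA using h2
      refine ⟨A, fun t j => ?_, funext fun t => funext fun j => hA t j⟩
      have h3 := h t
      rw [Fintype.mem_piFinset] at h3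
      have h4 := h3 j
      rw [Finset.mem_Icc, ← abs_le] at h4
      rw [hA t j]
      have h5 : ((|z t j| : ℤ) : ℝ) ≤ ((H : ℤ) : ℝ) := Int.cast_le.mpr h4
      push_cast at h5
      exact h5
  rw [h1]
  unfold boxF
  rw [Fintype.card_piFinset]
  simp only [Fintype.card_piFinset, Int.card_Icc, Finset.prod_const, Finset.card_univ, card_IK]
  rw [← pow_mul]
  have : ((H : ℤ) + 1 - -(H : ℤ)).toNat = 2 * H + 1 := by omega
  rw [this]
  rfl

theorem Bx_finite (X : ℝ) : (Bx n X : Set (Fin (n + 1) → 𝓞 K)).Finite := by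
  have h1 : (Set.pi Set.univ fun _ : Fin (n + 1) =>
      {a : 𝓞 K | ∀ j, |(crd a j : ℝ) - 0| ≤ cK K * X}).Finite :=
    Set.Finite.pi fun _ => cube_finite (fun _ => 0) _
  refine h1.subset ?_
  intro x hx i _ j
  rw [sub_zero]
  exact crd_le_of_norm_sg (hx i) j

end NFHP
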