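import Pool.Agent.Lib.MP_e426f4_ag.N.SumNorm
import Pool.Agent.Lib.MP_e426f4_ag.N.CubeCount

/-! Points orthogonal to a given short vector. -/

set_option linter.unusedSectionVars false

namespace NFHP

open NumberField GenHP Finset Filter Topology

variable {K : Type} [Field K] [NumberField K] {n d : ℕ}

/-- the elementary vectors orthogonal to `l` -/
private def oc_g {R : Type*} [CommRing R] (l : Fin (n + 1) → R) (p : Fin (n + 1) × Fin (n + 1))
    (k : Fin (n + 1)) : R :=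
  l p.1 * (if k = p.2 then 1 else 0) - l p.2 * (if k = p.1 then 1 else 0)

private theorem oc_g_ortho {R : Type*} [CommRing R] (l : Fin (n + 1) → R)
    (p : Fin (n + 1) × Fin (n + 1)) : ∑ k, l k * oc_g l p k = 0 := by
  unfold oc_g
  simp only [mul_sub, mul_ite, mul_one, mul_zero, Finset.sum_sub_distrib,
    Finset.sum_ite_eq', Finset.mem_univ, if_true]
  ring

private theorem oc_g_map (w : InfinitePlace K) (l : Fin (n + 1) → 𝓞 K)
    (p : Fin (n + 1) × Fin (n + 1)) (k : Fin (n + 1)) :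
    sg w (oc_g l p k) = oc_g (fun i => sg w (l i)) p k := by
  unfold oc_g
  simp only [map_sub, map_mul, apply_ite (sg w), map_one, map_zero]

private theorem oc_g_norm (l : Fin (n + 1) → ℂ) (B : ℝ) (hl : ∀ i, ‖l i‖ ≤ B)
    (p : Fin (n + 1) × Fin (n + 1)) (k : Fin (n + 1)) : ‖oc_g l p k‖ ≤ 2 * B := by
  have hB : 0 ≤ B := (norm_nonneg _).trans (hl 0)
  unfold oc_g
  refine (norm_sub_le _ _).trans ?_
  rw [norm_mul, norm_mul]
  have h1 : ‖(if k = p.2 then (1 : ℂ) else 0)‖ ≤ 1 := by split_ifs <;> simp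
  have h2 : ‖(if k = p.1 then (1 : ℂ) else 0)‖ ≤ 1 := by split_ifs <;> simp
  have h3 : ‖l p.1‖ * ‖(if k = p.2 then (1 : ℂ) else 0)‖ ≤ B * 1 :=
    mul_le_mul (hl _) h1 (norm_nonneg _) hB
  have h4 : ‖l p.2‖ * ‖(if k = p.1 then (1 : ℂ) else 0)‖ ≤ B * 1 :=
    mul_le_mul (hl _) h2 (norm_nonneg _) hB
  linarith

/-- a vector orthogonal to `l` in terms of the elementary vectors -/
private theorem oc_expand (l v : Fin (n + 1) → ℂ) (i0 : Fin (n + 1)) (h0 : l i0 ≠ 0)
    (hv : ∑ k, l k * v k = 0) (k : Fin (n + 1)) :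
    v k = ∑ p : Fin (n + 1) × Fin (n + 1), (if p.1 = i0 then v p.2 / l i0 else 0) * oc_g l p k := by
  rw [Fintype.sum_prod_type]
  have h1 : ∀ i : Fin (n + 1), ∑ j, (if i = i0 then v j / l i0 else 0) * oc_g l (i, j) k =
      if i = i0 then ∑ j, v j / l i0 * oc_g l (i0, j) k else 0 := by
    intro i
    by_cases h : i = i0
    · subst h
      simp
    · simp [h]
  simp only [h1, Finset.sum_ite_eq', Finset.mem_univ, if_true]
  unfold oc_g
  simp only [mul_sub, Finset.sum_sub_distrib, mul_ite, mul_one, mul_zero, Finset.sum_ite_eq,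
    Finset.mem_univ, if_true]
  have h2 : ∑ j, v j / l i0 * l j = 0 := by
    have : ∑ j, v j / l i0 * l j = (∑ j, l j * v j) / l i0 := by
      rw [Finset.sum_div]
      exact Finset.sum_congr rfl fun j _ => by ring
    rw [this, hv, zero_div]
  by_cases h : k = i0
  · simp only [h, if_true, h2, sub_zero]
    field_simp
  · simp only [h, if_false, Finset.sum_const_zero, sub_zero]
    field_simp

private theorem oc_real (w : InfinitePlace K) (hw : w.IsReal) (a : 𝓞 K) :
    sg w a = (((sg w a).re : ℝ) : ℂ) := by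
  have h : (sg w a).im = 0 := RV_sg a w hw
  exact Complex.ext (by simp) (by simp [h])

/-- short solutions of `l · t = s` -/
private theorem oc_short (B : ℕ) (hB : 1 ≤ B) (l : Fin (n + 1) → 𝓞 K) (hl : l ≠ 0)
    (hlB : ∀ i w, ‖sg w (l i)‖ ≤ B) (s : 𝓞 K) (hs : s ∈ Ideal.span (Set.range l))
    (hsB : ∀ w, ‖sg w s‖ ≤ B * vn w l) :
    ∃ t : Fin (n + 1) → 𝓞 K, ∑ k, l k * t k = s ∧
      ∀ k w, ‖sg w (t k)‖ ≤ (((n : ℝ) + 1) + 2 * cK K * ((n : ℝ) + 1) ^ 2) * B := by
  classical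
  obtain ⟨t0, ht0⟩ := (Ideal.mem_span_range_iff_exists_fun).mp hs
  have hB0 : (0 : ℝ) < B := by exact_mod_cast hB
  -- the large index
  have hex : ∀ w : InfinitePlace K, ∃ i, vn w l ≤ ((n : ℝ) + 1) * ‖sg w (l i)‖ := by
    intro w
    by_contra hc
    push Not at hc
    have h1 : ∑ _i : Fin (n + 1), vn w l > ∑ i : Fin (n + 1), ((n : ℝ) + 1) * ‖sg w (l i)‖ :=
      Finset.sum_lt_sum_of_nonempty ⟨0, Finset.mem_univ 0⟩ fun i _ => hc i
    rw [Finset.sum_const, Finset.card_univ, Fintype.card_fin, nsmul_eq_mul, ← Finset.mul_sum] at h1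
    push_cast at h1
    exact lt_irrefl _ h1
  choose i0 hi0 using hex
  have hvn : ∀ w, 0 < vn w l := fun w => vn_pos w l hl
  have hl0 : ∀ w, sg w (l (i0 w)) ≠ 0 := by
    intro w h
    have := hi0 w
    rw [h, norm_zero, mul_zero] at this
    linarith [hvn w]
  let u : InfinitePlace K → Fin (n + 1) → ℂ := fun w k =>
    if k = i0 w then sg w s / sg w (l (i0 w)) else 0
  have hu : ∀ w, ∑ k, sg w (l k) * u w k = sg w s := by
    intro w
    show ∑ k, sg w (l k) * (if k = i0 w then sg w s / sg w (l (i0 w)) else 0) = sg w s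
    simp only [mul_ite, mul_zero, Finset.sum_ite_eq', Finset.mem_univ, if_true]
    have := hl0 w
    field_simp
  have huB : ∀ w k, ‖u w k‖ ≤ ((n : ℝ) + 1) * B := by
    intro w k
    show ‖if k = i0 w then sg w s / sg w (l (i0 w)) else 0‖ ≤ _
    split_ifs
    · rw [norm_div, div_le_iff₀ (norm_pos_iff.mpr (hl0 w))]
      calc ‖sg w s‖ ≤ B * vn w l := hsB w
        _ ≤ B * (((n : ℝ) + 1) * ‖sg w (l (i0 w))‖) :=
          mul_le_mul_of_nonneg_left (hi0 w) hB0.le
        _ = _ := by ring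
    · rw [norm_zero]
      positivity
  let v : InfinitePlace K → Fin (n + 1) → ℂ := fun w k => sg w (t0 k) - u w k
  have hv : ∀ w, ∑ k, sg w (l k) * v w k = 0 := by
    intro w
    show ∑ k, sg w (l k) * (sg w (t0 k) - u w k) = 0
    simp only [mul_sub, Finset.sum_sub_distrib]
    rw [hu w]
    have : ∑ k, sg w (l k) * sg w (t0 k) = sg w s := by
      rw [← ht0, map_sum]
      exact Finset.sum_congr rfl fun k _ => by rw [map_mul, mul_comm]
    rw [this, sub_self]
  let r : Fin (n + 1) × Fin (n + 1) → InfinitePlace K → ℂ := fun p w =>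
    if p.1 = i0 w then v w p.2 / sg w (l (i0 w)) else 0
  have hr : ∀ p, RV (r p) := by
    intro p w hw
    show (if p.1 = i0 w then (sg w (t0 p.2) - (if p.2 = i0 w then sg w s / sg w (l (i0 w)) else 0)) /
      sg w (l (i0 w)) else 0).im = 0
    rw [oc_real w hw (t0 p.2), oc_real w hw s, oc_real w hw (l (i0 w))]
    split_ifs
    · rw [← Complex.ofReal_div, ← Complex.ofReal_sub, ← Complex.ofReal_div, Complex.ofReal_im]
    · rw [sub_zero, ← Complex.ofReal_div, Complex.ofReal_im]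
    · exact Complex.zero_im
  choose a ha using fun p => exists_round (hr p)
  refine ⟨fun k => t0 k - ∑ p, a p * oc_g l p k, ?_, fun k w => ?_⟩
  · simp only [mul_sub, Finset.sum_sub_distrib, Finset.mul_sum]
    rw [Finset.sum_comm]
    have h1 : ∀ p : Fin (n + 1) × Fin (n + 1), ∑ k, l k * (a p * oc_g l p k) = 0 := by
      intro p
      have : ∑ k, l k * (a p * oc_g l p k) = a p * ∑ k, l k * oc_g l p k := by
        rw [Finset.mul_sum]
        exact Finset.sum_congr rfl fun k _ => by ring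
      rw [this, oc_g_ortho, mul_zero]
    rw [Finset.sum_congr rfl fun p _ => h1 p, Finset.sum_const_zero, sub_zero, ← ht0]
    exact Finset.sum_congr rfl fun k _ => mul_comm _ _
  · have e1 : sg w (t0 k - ∑ p, a p * oc_g l p k) =
        u w k + ∑ p, (r p w - sg w (a p)) * oc_g (fun i => sg w (l i)) p k := by
      rw [map_sub, map_sum]
      have e2 : sg w (t0 k) = u w k + v w k := by
        show sg w (t0 k) = u w k + (sg w (t0 k) - u w k)
        ring
      have e3 := oc_expand (fun i => sg w (l i)) (v w) (i0 w) (hl0 w) (hv w) k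
      have e4 : v w k = ∑ p, r p w * oc_g (fun i => sg w (l i)) p k := e3
      rw [e2, e4, add_sub_assoc, ← Finset.sum_sub_distrib]
      congr 1
      refine Finset.sum_congr rfl fun p _ => ?_
      rw [map_mul, oc_g_map]
      ring
    rw [e1]
    have h1 : ∀ p, ‖(r p w - sg w (a p)) * oc_g (fun i => sg w (l i)) p k‖ ≤
        cK K * (2 * B) := by
      intro p
      rw [norm_mul, norm_sub_rev]
      exact mul_le_mul (ha p w) (oc_g_norm _ B (fun i => hlB i w) p k) (norm_nonneg _) cK_pos.le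
    calc ‖u w k + ∑ p, (r p w - sg w (a p)) * oc_g (fun i => sg w (l i)) p k‖
        ≤ ‖u w k‖ + ∑ p, ‖(r p w - sg w (a p)) * oc_g (fun i => sg w (l i)) p k‖ :=
          (norm_add_le _ _).trans (add_le_add_right (norm_sum_le _ _) _)
      _ ≤ ((n : ℝ) + 1) * B + ∑ _p : Fin (n + 1) × Fin (n + 1), cK K * (2 * B) :=
          add_le_add (huB w k) (Finset.sum_le_sum fun p _ => h1 p)
      _ = _ := by
          rw [Finset.sum_const, Finset.card_univ, Fintype.card_prod, Fintype.card_fin,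
            nsmul_eq_mul]
          push_cast
          ring

/-- NF-NG2b: points orthogonal to a given short vector -/
theorem ortho_count (K : Type) [Field K] [NumberField K] (n : ℕ) (hn : 1 ≤ n) :
    ∃ C : ℝ, 0 < C ∧ ∀ (B : ℕ), 1 ≤ B → ∀ l : Fin (n + 1) → 𝓞 K, l ≠ 0 →
    (∀ i w, ‖sg w (l i)‖ ≤ B) →
      (Set.ncard {x : Fin (n + 1) → 𝓞 K | x ∈ Bx n (2 * (B : ℝ)) ∧ ∑ i, l i * x i = 0} : ℝ) ≤
        C * Ideal.absNorm (Ideal.span (Set.range l)) * (B : ℝ) ^ (mK K * n) /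
          np (fun w => vn w l) := by
  classical
  obtain ⟨c, hc, hlow⟩ := lat_lower K
  obtain ⟨C0, hC0, hup⟩ := lat_upper_vec K
  have hcK := one_le_cK (K := K)
  set C1 : ℝ := ((n : ℝ) + 1) + 2 * cK K * ((n : ℝ) + 1) ^ 2 with hC1
  have hC1p : 0 < C1 := by positivity
  refine ⟨(C0 * ((2 + C1) ^ mK K + 1)) ^ (n + 1) / c, by positivity, fun B hB l hl hlB => ?_⟩
  have hB0 : (0 : ℝ) < B := by exact_mod_cast hB
  have hB1 : (1 : ℝ) ≤ B := by exact_mod_cast hB
  have hne : Ideal.span (Set.range l) ≠ ⊥ := by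
    intro h
    apply hl
    funext i
    have h1 : l i ∈ Ideal.span (Set.range l) := Ideal.subset_span ⟨i, rfl⟩
    rw [h, Ideal.mem_bot] at h1
    exact h1
  set N : ℝ := (Ideal.absNorm (Ideal.span (Set.range l)) : ℝ) with hN
  have hN0 : 0 < N := by
    rw [hN]
    exact_mod_cast absNorm_pos hne
  have hvn : ∀ w, 0 < vn w l := fun w => vn_pos w l hl
  have hnp : 0 < np (fun w => vn w l) := np_pos hvn
  set X : Set (Fin (n + 1) → 𝓞 K) :=
    {x : Fin (n + 1) → 𝓞 K | x ∈ Bx n (2 * (B : ℝ)) ∧ ∑ i, l i * x i = 0} with hX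
  set S : Set (𝓞 K) := {a : 𝓞 K | a ∈ Ideal.span (Set.range l) ∧ ∀ w, ‖sg w a‖ ≤ B * vn w l}
    with hS
  have hXfin : X.Finite := (Bx_finite (n := n) (2 * (B : ℝ))).subset fun x hx => hx.1
  have hSlow : c * ((B : ℝ) ^ mK K * np (fun w => vn w l) / N) ≤ S.ncard := by
    have := hlow _ hne (fun w => B * vn w l) fun w => mul_pos hB0 (hvn w)
    rwa [np_mul, np_const] at this
  have hex : ∀ s : 𝓞 K, s ∈ S → ∃ t : Fin (n + 1) → 𝓞 K, ∑ k, l k * t k = s ∧
      ∀ k w, ‖sg w (t k)‖ ≤ C1 * B := fun s hs => oc_short B hB l hl hlB s hs.1 hs.2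
  let t : 𝓞 K → Fin (n + 1) → 𝓞 K := fun s => if h : s ∈ S then (hex s h).choose else 0
  have ht : ∀ s ∈ S, ∑ k, l k * t s k = s ∧ ∀ k w, ‖sg w (t s k)‖ ≤ C1 * B := by
    intro s hs
    have e : t s = (hex s hs).choose := dif_pos hs
    rw [e]
    exact (hex s hs).choose_spec
  have hfinB : (Bx n ((2 + C1) * B) : Set (Fin (n + 1) → 𝓞 K)).Finite := Bx_finite _
  have h1 : (X ×ˢ S).ncard ≤ (Bx n ((2 + C1) * B) : Set (Fin (n + 1) → 𝓞 K)).ncard := by
    refine Set.ncard_le_ncard_of_injOn (fun q => q.1 + t q.2) ?_ ?_ hfinB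
    · rintro ⟨x, s⟩ ⟨hx, hs⟩ i w
      show ‖sg w (x i + t s i)‖ ≤ _
      rw [map_add]
      have h2 := hx.1 i w
      have h3 := (ht s hs).2 i w
      calc _ ≤ ‖sg w (x i)‖ + ‖sg w (t s i)‖ := norm_add_le _ _
        _ ≤ 2 * B + C1 * B := add_le_add h2 h3
        _ = _ := by ring
    · rintro ⟨x, s⟩ ⟨hx, hs⟩ ⟨x', s'⟩ ⟨hx', hs'⟩ h
      have h' : x + t s = x' + t s' := h
      have h2 : ∑ k, l k * (x + t s) k = s := by
        simp only [Pi.add_apply, mul_add, Finset.sum_add_distrib]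
        rw [hx.2, (ht s hs).1, zero_add]
      have h3 : ∑ k, l k * (x' + t s') k = s' := by
        simp only [Pi.add_apply, mul_add, Finset.sum_add_distrib]
        rw [hx'.2, (ht s' hs').1, zero_add]
      rw [h', h3] at h2
      subst h2
      have h4 : x = x' := add_right_cancel h'
      rw [h4]
  have h2 : ((Bx n ((2 + C1) * B) : Set (Fin (n + 1) → 𝓞 K)).ncard : ℝ) ≤
      (C0 * ((2 + C1) ^ mK K + 1)) ^ (n + 1) * ((B : ℝ) ^ mK K) ^ (n + 1) := by
    have h3 := (hup (Fin (n + 1)) ⊤ (by simp) (fun _ => (2 + C1) * B) (fun _ => by positivity)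
      (fun _ _ => 0)).2
    have e1 : (Bx n ((2 + C1) * B) : Set (Fin (n + 1) → 𝓞 K)) =
        {a : Fin (n + 1) → 𝓞 K | (∀ i, a i ∈ (⊤ : Ideal (𝓞 K))) ∧
          ∀ i w, ‖sg w (a i) - 0‖ ≤ (2 + C1) * B} := by
      ext a
      simp [Bx]
    rw [e1]
    refine h3.trans ?_
    rw [Ideal.absNorm_top, Nat.cast_one, div_one, np_const, Fintype.card_fin, ← mul_pow]
    refine pow_le_pow_left₀ (by positivity) ?_ _
    rw [mul_assoc]
    refine mul_le_mul_of_nonneg_left ?_ (by linarith)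
    rw [mul_pow, add_mul, one_mul]
    have : 1 ≤ (B : ℝ) ^ mK K := one_le_pow₀ hB1
    linarith
  rw [Set.ncard_prod] at h1
  have h3 : (X.ncard : ℝ) * (c * ((B : ℝ) ^ mK K * np (fun w => vn w l) / N)) ≤
      (C0 * ((2 + C1) ^ mK K + 1)) ^ (n + 1) * ((B : ℝ) ^ mK K) ^ (n + 1) := by
    refine le_trans ?_ h2
    refine (mul_le_mul_of_nonneg_left hSlow (Nat.cast_nonneg _)).trans ?_
    exact_mod_cast h1
  have h4 : 0 < c * ((B : ℝ) ^ mK K * np (fun w => vn w l) / N) := by positivity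
  rw [← le_div_iff₀ h4] at h3
  refine h3.trans (le_of_eq ?_)
  rw [pow_mul, pow_succ ((B : ℝ) ^ mK K) n]
  have hBm : ((B : ℝ) ^ mK K) ≠ 0 := by positivity
  field_simp

end NFHP
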