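import Pool.Agent.Lib.MP_e426f4_ag.N.Content
import Pool.Agent.Lib.MP_e426f4_ag.N.OrthoCount
import Pool.Agent.Lib.MP_e426f4_ag.N.SumNorm
import Pool.Agent.Lib.MP_e426f4_ag.N.CubeCount

/-! # Module NF-NG2: few points are orthogonal to a short vector -/

set_option linter.unusedSectionVars false

namespace NFHP

open NumberField GenHP Finset Filter Topology

variable {K : Type} [Field K] [NumberField K] {n d : ℕ}

/-- NF-NG2 (CardShort.lean) -/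
theorem card_short_le (K : Type) [Field K] [NumberField K] (n : ℕ) (hn : 1 ≤ n) :
    ∃ C : ℝ, 0 < C ∧ ∀ (B : ℕ) (Y : ℝ), 1 ≤ B → 0 ≤ Y → Y ≤ B →
    (Set.ncard {x : Fin (n + 1) → 𝓞 K | x ∈ Bx n (2 * (B : ℝ)) ∧
      ∃ l : Fin (n + 1) → 𝓞 K, l ≠ 0 ∧ (∀ i w, ‖sg w (l i)‖ ≤ Y) ∧ ∑ i, l i * x i = 0} : ℝ) ≤
      C * (B : ℝ) ^ (mK K * n) * Y ^ (mK K * n) := by
  classical
  obtain ⟨C0, hC0, h0⟩ := exists_small_content K
  obtain ⟨C1, hC1, h1⟩ := ortho_count K n hn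
  obtain ⟨C2, hC2, h2⟩ := sum_inv K (n + 1) (by omega)
  have hC0R : (0 : ℝ) < C0 := by exact_mod_cast (by omega : 0 < C0)
  refine ⟨C1 * C0 * C2, by positivity, ?_⟩
  intro B Y hB hY0 hYB
  rcases hY0.eq_or_lt with hY | hY
  · -- the case `Y = 0`
    have hempty : {x : Fin (n + 1) → 𝓞 K | x ∈ Bx n (2 * (B : ℝ)) ∧
      ∃ l : Fin (n + 1) → 𝓞 K, l ≠ 0 ∧ (∀ i w, ‖sg w (l i)‖ ≤ Y) ∧ ∑ i, l i * x i = 0} = ∅ := by
      ext x
      simp only [Set.mem_ofPred_eq, Set.mem_empty_iff_false, iff_false, not_and, not_exists]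
      intro _ l hl0 hlY _
      apply hl0
      funext i
      by_contra hi
      have h3 := norm_sg_pos (Classical.arbitrary (InfinitePlace K)) hi
      have h4 := hlY i (Classical.arbitrary (InfinitePlace K))
      rw [← hY] at h4
      linarith
    rw [hempty, Set.ncard_empty]
    push_cast
    positivity
  · have hfin : {l : Fin (n + 1) → 𝓞 K | l ≠ 0 ∧ (∀ i w, ‖sg w (l i)‖ ≤ Y) ∧
        Ideal.absNorm (Ideal.span (Set.range l)) ≤ C0}.Finite :=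
      (Bx_finite Y).subset fun l hl => hl.2.1
    set S := hfin.toFinset with hS
    have hmemS : ∀ l, l ∈ S ↔ l ≠ 0 ∧ (∀ i w, ‖sg w (l i)‖ ≤ Y) ∧
        Ideal.absNorm (Ideal.span (Set.range l)) ≤ C0 := by
      intro l
      rw [hS, Set.Finite.mem_toFinset]
      rfl
    have hXfin : ∀ l : Fin (n + 1) → 𝓞 K,
        {x : Fin (n + 1) → 𝓞 K | x ∈ Bx n (2 * (B : ℝ)) ∧ ∑ i, l i * x i = 0}.Finite := fun l =>
      (Bx_finite (2 * (B : ℝ))).subset fun x hx => hx.1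
    let T : (Fin (n + 1) → 𝓞 K) → Finset (Fin (n + 1) → 𝓞 K) := fun l => (hXfin l).toFinset
    have hsub : {x : Fin (n + 1) → 𝓞 K | x ∈ Bx n (2 * (B : ℝ)) ∧
        ∃ l : Fin (n + 1) → 𝓞 K, l ≠ 0 ∧ (∀ i w, ‖sg w (l i)‖ ≤ Y) ∧ ∑ i, l i * x i = 0} ⊆
        ((S.biUnion T : Finset (Fin (n + 1) → 𝓞 K)) : Set (Fin (n + 1) → 𝓞 K)) := by
      rintro x ⟨hx, hl⟩
      obtain ⟨l, hl0, hlY, hlx, hlC⟩ := h0 n x Y hl
      rw [Finset.coe_biUnion, Set.mem_iUnion₂]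
      refine ⟨l, (hmemS l).2 ⟨hl0, hlY, hlC⟩, ?_⟩
      simp only [T, Set.Finite.coe_toFinset, Set.mem_ofPred_eq]
      exact ⟨hx, hlx⟩
    have hcard : (Set.ncard {x : Fin (n + 1) → 𝓞 K | x ∈ Bx n (2 * (B : ℝ)) ∧
        ∃ l : Fin (n + 1) → 𝓞 K, l ≠ 0 ∧ (∀ i w, ‖sg w (l i)‖ ≤ Y) ∧ ∑ i, l i * x i = 0} : ℝ) ≤
        ∑ l ∈ S, ((T l).card : ℝ) := by
      have h3 := Set.ncard_le_ncard hsub (Finset.finite_toSet _)
      rw [Set.ncard_coe_finset] at h3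
      exact_mod_cast h3.trans card_biUnion_le
    have hT : ∀ l ∈ S, ((T l).card : ℝ) ≤
        C1 * C0 * (B : ℝ) ^ (mK K * n) * (1 / np (fun w => vn w l)) := by
      intro l hl
      obtain ⟨hl0, hlY, hlC⟩ := (hmemS l).1 hl
      have h3 := h1 B hB l hl0 (fun i w => (hlY i w).trans hYB)
      have h4 : ((T l).card : ℝ) = (Set.ncard {x : Fin (n + 1) → 𝓞 K |
          x ∈ Bx n (2 * (B : ℝ)) ∧ ∑ i, l i * x i = 0} : ℝ) := by
        rw [Set.ncard_eq_toFinset_card _ (hXfin l)]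
      rw [h4]
      refine h3.trans ?_
      rw [mul_one_div]
      have h5 : 0 ≤ np (fun w => vn w l) :=
        np_nonneg fun w => Finset.sum_nonneg fun i _ => norm_nonneg _
      refine div_le_div_of_nonneg_right ?_ h5
      have h6 : (Ideal.absNorm (Ideal.span (Set.range l)) : ℝ) ≤ C0 := by exact_mod_cast hlC
      have h7 : (0 : ℝ) ≤ (B : ℝ) ^ (mK K * n) := by positivity
      nlinarith [mul_le_mul_of_nonneg_left h6 hC1.le, mul_nonneg hC1.le h7]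
    have hsum := h2 ⊤ (by simp) (fun _ => Y) (fun _ => hY) S (fun z hz =>
      ⟨((hmemS z).1 hz).1, fun i => Submodule.mem_top, ((hmemS z).1 hz).2.1⟩)
    rw [np_const, Ideal.absNorm_top, Nat.cast_one, one_pow, div_one, Nat.add_sub_cancel,
      ← pow_mul] at hsum
    calc (Set.ncard {x : Fin (n + 1) → 𝓞 K | x ∈ Bx n (2 * (B : ℝ)) ∧
        ∃ l : Fin (n + 1) → 𝓞 K, l ≠ 0 ∧ (∀ i w, ‖sg w (l i)‖ ≤ Y) ∧ ∑ i, l i * x i = 0} : ℝ)
        ≤ ∑ l ∈ S, ((T l).card : ℝ) := hcard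
      _ ≤ ∑ l ∈ S, C1 * C0 * (B : ℝ) ^ (mK K * n) * (1 / np (fun w => vn w l)) :=
          Finset.sum_le_sum hT
      _ = C1 * C0 * (B : ℝ) ^ (mK K * n) * ∑ l ∈ S, (1 / np (fun w => vn w l)) := by
          rw [Finset.mul_sum]
      _ ≤ C1 * C0 * (B : ℝ) ^ (mK K * n) * (C2 * Y ^ (mK K * n)) :=
          mul_le_mul_of_nonneg_left hsum (by positivity)
      _ = C1 * C0 * C2 * (B : ℝ) ^ (mK K * n) * Y ^ (mK K * n) := by ring

end NFHP
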