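import Pool.Agent.Lib.MP_e426f4_ag.N.NotGood
import Pool.Agent.Lib.MP_e426f4_ag.N.CardShort
import Pool.Agent.Lib.MP_e426f4_ag.N.CubeCount

/-! Module NF-NG3: most points are well-rounded. -/

namespace NFHP

open NumberField GenHP Finset Filter Topology

variable {K : Type} [Field K] [NumberField K] {n d : ℕ}

theorem few_not_good (K : Type) [Field K] [NumberField K] (n : ℕ) (hn : 2 ≤ n) (eps : ℝ)
    (heps : 0 < eps) : ∃ R0 : ℝ, 1 ≤ R0 ∧ ∀ R, R0 ≤ R → ∀ B : ℕ, 1 ≤ B →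
      (Set.ncard {x : Fin (n + 1) → 𝓞 K | x ∈ Bx n (2 * (B : ℝ)) ∧ ¬ Good R B x} : ℝ) ≤
        eps * (B : ℝ) ^ (mK K * (n + 1)) := by
  obtain ⟨C, K1, hC, hK1, hshort⟩ := short_of_not_good K n hn
  obtain ⟨C', hC', hcard⟩ := card_short_le K n (by omega)
  have hm := mK_pos (K := K)
  have hn2 : (2 : ℝ) ≤ n := by exact_mod_cast hn
  have hnne : (n : ℝ) ≠ 0 := by positivity
  have hn1 : (0 : ℝ) < (n : ℝ) - 1 := by linarith
  -- the threshold for `s = R^(1/(n-1))`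
  obtain ⟨s0, hs01, hs0C, hs0e⟩ : ∃ s0 : ℝ, 1 ≤ s0 ∧ C ≤ s0 ∧ C' * C ^ (n * mK K) / eps ≤ s0 :=
    ⟨max 1 (max C (C' * C ^ (n * mK K) / eps)), le_max_left _ _,
      (le_max_left _ _).trans (le_max_right _ _), (le_max_right _ _).trans (le_max_right _ _)⟩
  refine ⟨max K1 (s0 ^ ((n : ℝ) - 1)), hK1.trans (le_max_left _ _), ?_⟩
  intro R hR B hB
  have hRK1 : K1 ≤ R := (le_max_left _ _).trans hR
  have hRs : s0 ^ ((n : ℝ) - 1) ≤ R := (le_max_right _ _).trans hR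
  have hR0 : (0 : ℝ) < R := by linarith
  have hs00 : 0 < s0 := by linarith
  obtain ⟨s, hs⟩ : ∃ s : ℝ, s = R ^ (1 / ((n : ℝ) - 1)) := ⟨_, rfl⟩
  have hss0 : s0 ≤ s := by
    rw [hs]
    have h1 : (s0 ^ ((n : ℝ) - 1)) ^ (1 / ((n : ℝ) - 1)) ≤ R ^ (1 / ((n : ℝ) - 1)) :=
      Real.rpow_le_rpow (by positivity) hRs (by positivity)
    rwa [← Real.rpow_mul hs00.le, mul_one_div_cancel hn1.ne', Real.rpow_one] at h1
  have hs1 : 1 ≤ s := hs01.trans hss0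
  have hs0 : 0 < s := by linarith
  have hBr : (1 : ℝ) ≤ (B : ℝ) := by exact_mod_cast hB
  obtain ⟨b, hb⟩ : ∃ b : ℝ, b = (B : ℝ) ^ (1 / (n : ℝ)) := ⟨_, rfl⟩
  have hbn : b ^ n = B := by
    rw [hb, ← Real.rpow_natCast, ← Real.rpow_mul (by linarith), one_div,
      inv_mul_cancel₀ hnne, Real.rpow_one]
  have hb1 : 1 ≤ b := by
    rw [hb]
    exact Real.one_le_rpow hBr (by positivity)
  have hbB : b ≤ B := by
    rw [← hbn]
    calc b = b ^ 1 := (pow_one b).symm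
      _ ≤ b ^ n := pow_le_pow_right₀ hb1 (by omega)
  obtain ⟨Y, hY⟩ : ∃ Y : ℝ, Y = C * b / s := ⟨_, rfl⟩
  have hY0 : 0 ≤ Y := by
    rw [hY]
    positivity
  have hY2 : Y ≤ B := by
    rw [hY, div_le_iff₀ hs0]
    have : C ≤ s := hs0C.trans hss0
    calc C * b ≤ s * B := mul_le_mul this hbB (by positivity) hs0.le
      _ = B * s := mul_comm _ _
  have hsub : {x : Fin (n + 1) → 𝓞 K | x ∈ Bx n (2 * (B : ℝ)) ∧ ¬ Good R B x} ⊆
      {x : Fin (n + 1) → 𝓞 K | x ∈ Bx n (2 * (B : ℝ)) ∧ ∃ l : Fin (n + 1) → 𝓞 K, l ≠ 0 ∧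
      (∀ i w, ‖sg w (l i)‖ ≤ Y) ∧ ∑ i, l i * x i = 0} := by
    rintro x ⟨hx, hg⟩
    refine ⟨hx, ?_⟩
    obtain ⟨l, hl, hlx, hls⟩ := hshort R hRK1 B hB x hx hg
    refine ⟨l, hl, fun i w => ?_, hlx⟩
    have h1 := hls i w
    rw [← hs, ← hb] at h1
    rw [hY, le_div_iff₀ hs0]
    exact h1
  have hfin : {x : Fin (n + 1) → 𝓞 K | x ∈ Bx n (2 * (B : ℝ)) ∧ ∃ l : Fin (n + 1) → 𝓞 K, l ≠ 0 ∧
      (∀ i w, ‖sg w (l i)‖ ≤ Y) ∧ ∑ i, l i * x i = 0}.Finite :=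
    (Bx_finite (2 * (B : ℝ))).subset fun _ h => h.1
  have h1 : (Set.ncard {x : Fin (n + 1) → 𝓞 K | x ∈ Bx n (2 * (B : ℝ)) ∧ ¬ Good R B x} : ℝ) ≤
      C' * (B : ℝ) ^ (mK K * n) * Y ^ (mK K * n) :=
    le_trans (by exact_mod_cast Set.ncard_le_ncard hsub hfin) (hcard B Y hB hY0 hY2)
  refine h1.trans ?_
  have h3 : Y ^ (mK K * n) = C ^ (n * mK K) * (B : ℝ) ^ mK K / s ^ (n * mK K) := by
    rw [mul_comm (mK K) n, pow_mul Y, hY, div_pow, mul_pow, hbn, div_pow, mul_pow, ← pow_mul,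
      ← pow_mul]
  rw [h3]
  have h5 : C' * (B : ℝ) ^ (mK K * n) * (C ^ (n * mK K) * (B : ℝ) ^ mK K / s ^ (n * mK K)) =
      (C' * C ^ (n * mK K) / s ^ (n * mK K)) * (B : ℝ) ^ (mK K * (n + 1)) := by
    rw [mul_add, mul_one, pow_add]
    ring
  rw [h5]
  refine mul_le_mul_of_nonneg_right ?_ (by positivity)
  rw [div_le_iff₀ (by positivity)]
  have hnm : 1 ≤ n * mK K := Nat.mul_pos (by omega) hm
  have h6 : s ≤ s ^ (n * mK K) := by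
    calc s = s ^ 1 := (pow_one s).symm
      _ ≤ s ^ (n * mK K) := pow_le_pow_right₀ hs1 hnm
  rw [div_le_iff₀ heps] at hs0e
  calc C' * C ^ (n * mK K) ≤ s0 * eps := hs0e
    _ ≤ s ^ (n * mK K) * eps := mul_le_mul_of_nonneg_right (hss0.trans h6) heps.le
    _ = eps * s ^ (n * mK K) := by ring

end NFHP
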