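import Pool.Agent.Lib.MP_e426f4_ag.N.Const

/-! Module NF-ID: sums over ideals. -/

set_option linter.unusedSectionVars false

namespace NFHP

open NumberField GenHP Finset Filter Topology

variable {K : Type} [Field K] [NumberField K] {n d : ℕ}

theorem finite_ideals (G : ℕ) : {I : Ideal (𝓞 K) | I ≠ ⊥ ∧ Ideal.absNorm I ≤ G}.Finite :=
  (Ideal.finite_setOfPred_absNorm_le (S := 𝓞 K) G).subset fun _ h => h.2

private theorem fin_le (x : ℝ) : {I : Ideal (𝓞 K) | (Ideal.absNorm I : ℝ) ≤ x}.Finite := by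
  refine (Ideal.finite_setOfPred_absNorm_le (S := 𝓞 K) ⌊x⌋₊).subset fun I h => ?_
  have h' : (Ideal.absNorm I : ℝ) ≤ x := h
  exact Nat.le_floor h'

private theorem count_le (K : Type) [Field K] [NumberField K] : ∃ C : ℝ, 0 < C ∧ ∀ x : ℝ, 1 ≤ x →
    (Set.ncard {I : Ideal (𝓞 K) | (Ideal.absNorm I : ℝ) ≤ x} : ℝ) ≤ C * x := by
  have hlim := NumberField.Ideal.tendsto_norm_le_div_atTop K
  set L := (2 ^ InfinitePlace.nrRealPlaces K * (2 * Real.pi) ^ InfinitePlace.nrComplexPlaces K *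
    Units.regulator K * classNumber K) / (Units.torsionOrder K * Real.sqrt |discr K|) with hL
  have h1 := hlim.eventually (gt_mem_nhds (lt_add_one L))
  obtain ⟨x0, hx0⟩ := (h1.and (eventually_ge_atTop 1)).exists_forall_of_atTop
  have hx1 : 1 ≤ x0 := (hx0 x0 le_rfl).2
  set M : ℝ := (Set.ncard {I : Ideal (𝓞 K) | (Ideal.absNorm I : ℝ) ≤ x0} : ℝ) with hM
  refine ⟨|L + 1| + M + 1, by positivity, fun x hx => ?_⟩
  rcases le_total x0 x with h | h
  · have h2 := (hx0 x h).1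
    rw [div_lt_iff₀ (by linarith)] at h2
    have h3 : (Nat.card {I : Ideal (𝓞 K) // (Ideal.absNorm I : ℝ) ≤ x} : ℝ) =
        (Set.ncard {I : Ideal (𝓞 K) | (Ideal.absNorm I : ℝ) ≤ x} : ℝ) := rfl
    rw [← h3]
    have hMn : 0 ≤ M := by positivity
    nlinarith [le_abs_self (L + 1)]
  · have h2 : (Set.ncard {I : Ideal (𝓞 K) | (Ideal.absNorm I : ℝ) ≤ x} : ℝ) ≤ M := by
      rw [hM]
      exact_mod_cast Set.ncard_le_ncard (fun I hI => le_trans (show (Ideal.absNorm I : ℝ) ≤ x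
        from hI) h) (fin_le x0)
    have hMn : 0 ≤ M := by positivity
    nlinarith [abs_nonneg (L + 1)]

theorem ideal_sum (K : Type) [Field K] [NumberField K] : ∃ Z : ℝ, 1 ≤ Z ∧
    ∀ S : Finset (Ideal (𝓞 K)), (∀ I ∈ S, I ≠ ⊥) →
      ∑ I ∈ S, 1 / (Ideal.absNorm I : ℝ) ^ 2 ≤ Z := by
  classical
  obtain ⟨C, hC, hcount⟩ := count_le K
  refine ⟨4 * C + 1, by linarith, fun S hS => ?_⟩
  set M := S.sup (fun I => Nat.log 2 (Ideal.absNorm I)) + 1 with hM
  have hmaps : ∀ I ∈ S, Nat.log 2 (Ideal.absNorm I) ∈ Finset.range M := by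
    intro I hI
    rw [Finset.mem_range, hM]
    exact Nat.lt_succ_of_le (Finset.le_sup (f := fun I => Nat.log 2 (Ideal.absNorm I)) hI)
  rw [← Finset.sum_fiberwise_of_maps_to hmaps]
  have hfib : ∀ k ∈ Finset.range M, ∑ I ∈ S with Nat.log 2 (Ideal.absNorm I) = k,
      1 / (Ideal.absNorm I : ℝ) ^ 2 ≤ 2 * C * (1 / 2) ^ k := by
    intro k _
    have h1 : ∀ I ∈ S.filter (fun I => Nat.log 2 (Ideal.absNorm I) = k),
        1 / (Ideal.absNorm I : ℝ) ^ 2 ≤ 1 / 4 ^ k := by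
      intro I hI
      rw [Finset.mem_filter] at hI
      have h0 : Ideal.absNorm I ≠ 0 := (absNorm_pos (hS I hI.1)).ne'
      have h2 : 2 ^ k ≤ Ideal.absNorm I := by
        rw [← hI.2]
        exact Nat.pow_log_le_self 2 h0
      have h3 : (2 : ℝ) ^ k ≤ Ideal.absNorm I := by exact_mod_cast h2
      have h4 : (4 : ℝ) ^ k ≤ (Ideal.absNorm I : ℝ) ^ 2 := by
        have : (4 : ℝ) ^ k = (2 ^ k) ^ 2 := by
          rw [← pow_mul, mul_comm, pow_mul]
          norm_num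
        rw [this]
        exact pow_le_pow_left₀ (by positivity) h3 2
      exact one_div_le_one_div_of_le (by positivity) h4
    have h2 : ((S.filter (fun I => Nat.log 2 (Ideal.absNorm I) = k)).card : ℝ) ≤
        C * 2 ^ (k + 1) := by
      refine le_trans ?_ (hcount (2 ^ (k + 1)) (one_le_pow₀ (by norm_num)))
      rw [← Set.ncard_coe_finset]
      refine Nat.cast_le.mpr (Set.ncard_le_ncard (fun I hI => ?_) (fin_le _))
      have hI' := Finset.mem_filter.mp (Finset.mem_coe.mp hI)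
      show (Ideal.absNorm I : ℝ) ≤ 2 ^ (k + 1)
      have h3 : Ideal.absNorm I < 2 ^ (k + 1) := by
        rw [← hI'.2]
        exact Nat.lt_pow_succ_log_self (by norm_num) _
      exact_mod_cast h3.le
    calc ∑ I ∈ S with Nat.log 2 (Ideal.absNorm I) = k, 1 / (Ideal.absNorm I : ℝ) ^ 2
        ≤ (S.filter (fun I => Nat.log 2 (Ideal.absNorm I) = k)).card • (1 / (4 : ℝ) ^ k) :=
          Finset.sum_le_card_nsmul _ _ _ h1
      _ = (S.filter (fun I => Nat.log 2 (Ideal.absNorm I) = k)).card * (1 / (4 : ℝ) ^ k) := by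
          rw [nsmul_eq_mul]
      _ ≤ C * 2 ^ (k + 1) * (1 / (4 : ℝ) ^ k) :=
          mul_le_mul_of_nonneg_right h2 (by positivity)
      _ = 2 * C * (1 / 2) ^ k := by
          have : (4 : ℝ) ^ k = 2 ^ k * 2 ^ k := by
            rw [← mul_pow]
            norm_num
          rw [this, pow_succ, one_div_pow]
          field_simp
  calc _ ≤ ∑ k ∈ Finset.range M, 2 * C * (1 / 2 : ℝ) ^ k := Finset.sum_le_sum hfib
    _ = 2 * C * ∑ k ∈ Finset.range M, (1 / 2 : ℝ) ^ k := by rw [Finset.mul_sum]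
    _ ≤ 2 * C * 2 := mul_le_mul_of_nonneg_left (sum_geometric_two_le M) (by positivity)
    _ ≤ 4 * C + 1 := by linarith

theorem ideal_tail (K : Type) [Field K] [NumberField K] (e : ℝ) (he : 0 < e) :
    ∃ G : ℕ, 1 ≤ G ∧ ∀ S : Finset (Ideal (𝓞 K)), (∀ I ∈ S, G < Ideal.absNorm I) →
      ∑ I ∈ S, 1 / (Ideal.absNorm I : ℝ) ^ 2 ≤ e := by
  classical
  obtain ⟨Z, -, hZ⟩ := ideal_sum K
  have hs : Summable fun I : Ideal (𝓞 K) => 1 / (Ideal.absNorm I : ℝ) ^ 2 := by
    refine summable_of_sum_le (c := Z) (fun I => by positivity) fun S => ?_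
    have h1 : ∑ I ∈ S, 1 / (Ideal.absNorm I : ℝ) ^ 2 =
        ∑ I ∈ S.filter (fun I => I ≠ ⊥), 1 / (Ideal.absNorm I : ℝ) ^ 2 := by
      rw [Finset.sum_filter_of_ne]
      intro I _ hne h0
      rw [h0, Ideal.absNorm_bot] at hne
      simp at hne
    rw [h1]
    exact hZ _ fun I hI => (Finset.mem_filter.mp hI).2
  obtain ⟨T, hT⟩ := summable_iff_vanishing_norm.mp hs e he
  refine ⟨T.sup Ideal.absNorm + 1, by omega, fun S hS => ?_⟩
  have h1 := hT S (Finset.disjoint_left.mpr fun I hI hIT => by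
    have h2 := hS I hI
    have h3 : Ideal.absNorm I ≤ T.sup Ideal.absNorm := Finset.le_sup hIT
    omega)
  exact (le_abs_self _).trans h1.le

end NFHP
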