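import Pool.Agent.Lib.MP_e426f4_ag.N.Const

/-! Lattice points in boxes at the infinite places. -/

set_option linter.unusedSectionVars false

namespace NFHP

open NumberField GenHP Finset Filter Topology

variable {K : Type} [Field K] [NumberField K] {n d : ℕ}

/-- the cell of an integer -/
private noncomputable def cell (v : InfinitePlace K → ℂ) (Y : InfinitePlace K → ℝ) (a : 𝓞 K)
    (w : InfinitePlace K) : ℤ × ℤ :=
  (⌊(sg w a - v w).re / Y w⌋, ⌊(sg w a - v w).im / Y w⌋)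

private theorem floor_div_sub (x y Y : ℝ) (hY : 0 < Y) (h : ⌊x / Y⌋ = ⌊y / Y⌋) :
    |x - y| ≤ Y := by
  have h1 := Int.floor_le (x / Y)
  have h2 := Int.lt_floor_add_one (x / Y)
  have h3 := Int.floor_le (y / Y)
  have h4 := Int.lt_floor_add_one (y / Y)
  rw [h] at h1 h2
  have h5 : |x / Y - y / Y| ≤ 1 := by
    rw [abs_le]
    constructor <;> linarith
  rw [← sub_div, abs_div, abs_of_pos hY, div_le_one hY] at h5
  exact h5

private theorem cell_diff (v : InfinitePlace K → ℂ) (Y : InfinitePlace K → ℝ)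
    (hY : ∀ w, 0 < Y w) (a a' : 𝓞 K) (h : cell v Y a = cell v Y a') (w : InfinitePlace K) :
    ‖sg w (a - a')‖ ≤ 2 * Y w := by
  have h1 := congrFun h w
  unfold cell at h1
  rw [Prod.mk.injEq] at h1
  have h2 := floor_div_sub _ _ _ (hY w) h1.1
  have h3 := floor_div_sub _ _ _ (hY w) h1.2
  have e : sg w (a - a') = (sg w a - v w) - (sg w a' - v w) := by
    rw [map_sub]
    ring
  rw [e]
  calc ‖(sg w a - v w) - (sg w a' - v w)‖
      ≤ |((sg w a - v w) - (sg w a' - v w)).re| + |((sg w a - v w) - (sg w a' - v w)).im| :=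
        Complex.norm_le_abs_re_add_abs_im _
    _ ≤ Y w + Y w := by
        rw [Complex.sub_re, Complex.sub_im]
        exact add_le_add h2 h3
    _ = 2 * Y w := by ring

/-- the cells which can occur -/
private noncomputable def cells (v : InfinitePlace K → ℂ) (Y : InfinitePlace K → ℝ)
    (g : InfinitePlace K → ℕ) : Finset (InfinitePlace K → ℤ × ℤ) :=
  open scoped Classical in
  Fintype.piFinset fun w => Finset.Icc (-(g w : ℤ)) (g w) ×ˢ
    (if w.IsReal then {⌊-(v w).im / Y w⌋} else Finset.Icc (-(g w : ℤ)) (g w))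

private theorem card_cells (v : InfinitePlace K → ℂ) (Y : InfinitePlace K → ℝ)
    (g : InfinitePlace K → ℕ) :
    ((cells v Y g).card : ℝ) = np (fun w => 2 * (g w : ℝ) + 1) := by
  classical
  unfold cells np
  rw [Fintype.card_piFinset]
  push_cast
  refine Finset.prod_congr rfl fun w _ => ?_
  rw [Finset.card_product]
  have e : ((Finset.Icc (-(g w : ℤ)) (g w)).card : ℝ) = 2 * (g w : ℝ) + 1 := by
    rw [Int.card_Icc]
    have : ((g w : ℤ) + 1 - -(g w : ℤ)).toNat = 2 * g w + 1 := by omega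
    rw [this]
    push_cast
    ring
  by_cases hw : w.IsReal
  · rw [if_pos hw, Finset.card_singleton, mul_one, e, InfinitePlace.mult, if_pos hw, pow_one]
  · rw [if_neg hw, Nat.cast_mul, e, InfinitePlace.mult, if_neg hw, pow_two]

private theorem floor_mem_Icc (x Y X : ℝ) (hY : 0 < Y) (hx : |x| ≤ X) (g : ℕ)
    (hg : X ≤ g * Y) : ⌊x / Y⌋ ∈ Finset.Icc (-(g : ℤ)) (g : ℤ) := by
  have h1 : |x / Y| ≤ g := by
    rw [abs_div, abs_of_pos hY, div_le_iff₀ hY]
    exact hx.trans hg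
  rw [abs_le] at h1
  rw [Finset.mem_Icc]
  constructor
  · rw [Int.le_floor]
    push_cast
    exact h1.1
  · have := (Int.floor_le (x / Y)).trans h1.2
    exact_mod_cast this

private theorem cell_mem (v : InfinitePlace K → ℂ) (Y : InfinitePlace K → ℝ)
    (X : InfinitePlace K → ℝ) (hY : ∀ w, 0 < Y w) (g : InfinitePlace K → ℕ)
    (hg : ∀ w, X w ≤ g w * Y w) (a : 𝓞 K) (ha : ∀ w, ‖sg w a - v w‖ ≤ X w) :
    cell v Y a ∈ cells v Y g := by
  classical
  unfold cells
  rw [Fintype.mem_piFinset]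
  intro w
  unfold cell
  rw [Finset.mem_product]
  refine ⟨floor_mem_Icc _ _ (X w) (hY w) ((Complex.abs_re_le_norm _).trans (ha w)) _ (hg w), ?_⟩
  by_cases hw : w.IsReal
  · rw [if_pos hw, Finset.mem_singleton]
    have h0 : (sg w a).im = 0 := RV_sg a w hw
    show ⌊(sg w a - v w).im / Y w⌋ = _
    rw [Complex.sub_im, h0, zero_sub]
  · rw [if_neg hw]
    exact floor_mem_Icc _ _ (X w) (hY w) ((Complex.abs_im_le_norm _).trans (ha w)) _ (hg w)

theorem lat_upper (K : Type) [Field K] [NumberField K] : ∃ C : ℝ, 1 ≤ C ∧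
    ∀ I : Ideal (𝓞 K), I ≠ ⊥ → ∀ X : InfinitePlace K → ℝ, (∀ w, 0 < X w) →
    ∀ v : InfinitePlace K → ℂ,
      {a : 𝓞 K | a ∈ I ∧ ∀ w, ‖sg w a - v w‖ ≤ X w}.Finite ∧
      (Set.ncard {a : 𝓞 K | a ∈ I ∧ ∀ w, ‖sg w a - v w‖ ≤ X w} : ℝ) ≤
        C * (np X / Ideal.absNorm I + 1) := by
  classical
  refine ⟨9 ^ mK K, one_le_pow₀ (by norm_num), fun I hI X hX v => ?_⟩
  have hNI : (0 : ℝ) < Ideal.absNorm I := by exact_mod_cast absNorm_pos hI
  have hnp : 0 < np X := np_pos hX
  have hm : (mK K : ℕ) ≠ 0 := mK_pos.ne'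
  set q : ℝ := np X / Ideal.absNorm I with hq
  have hq0 : 0 < q := div_pos hnp hNI
  set t : ℝ := q ^ (1 / (mK K : ℝ)) with ht
  have ht0 : 0 < t := Real.rpow_pos_of_pos hq0 _
  have htm : t ^ mK K = q := by
    rw [ht, one_div]
    exact Real.rpow_inv_natCast_pow hq0.le hm
  set g : ℕ := ⌊2 * t⌋₊ + 1 with hg
  have hg1 : 2 * t < g := by
    rw [hg]
    push_cast
    exact Nat.lt_floor_add_one _
  have hg2 : (g : ℝ) ≤ 2 * t + 1 := by
    rw [hg]
    push_cast
    linarith [Nat.floor_le (by positivity : (0 : ℝ) ≤ 2 * t)]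
  have hg0 : (0 : ℝ) < g := by linarith
  set Y : InfinitePlace K → ℝ := fun w => X w / g with hYd
  have hY : ∀ w, 0 < Y w := fun w => div_pos (hX w) hg0
  set S : Set (𝓞 K) := {a : 𝓞 K | a ∈ I ∧ ∀ w, ‖sg w a - v w‖ ≤ X w} with hS
  have hmaps : ∀ a ∈ S, cell v Y a ∈ (cells v Y fun _ => g) := by
    intro a ha
    refine cell_mem v Y X hY _ (fun w => ?_) a ha.2
    rw [hYd]
    show X w ≤ g * (X w / g)
    rw [mul_div_cancel₀ _ hg0.ne']
  have hinj : Set.InjOn (cell v Y) S := by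
    intro a ha a' ha' h
    by_contra hne
    have h0 : a - a' ≠ 0 := sub_ne_zero.mpr hne
    have h1 : a - a' ∈ I := I.sub_mem ha.1 ha'.1
    have h2 := absNorm_le_np h1 h0
    have h3 : np (fun w => ‖sg w (a - a')‖) ≤ np (fun w => 2 * Y w) :=
      np_mono (fun w => norm_nonneg _) fun w => cell_diff v Y hY a a' h w
    have h4 : np (fun w => 2 * Y w) = 2 ^ mK K * (np X / (g : ℝ) ^ mK K) := by
      rw [np_mul, np_const, hYd, np_div, np_const]
    rw [h4] at h3
    have h5 : (2 * t) ^ mK K < (g : ℝ) ^ mK K := pow_lt_pow_left₀ hg1 (by positivity) hm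
    rw [mul_pow, htm] at h5
    have h6 : (2 : ℝ) ^ mK K * (np X / (g : ℝ) ^ mK K) < Ideal.absNorm I := by
      rw [← mul_div_assoc, div_lt_iff₀ (by positivity)]
      have : (2 : ℝ) ^ mK K * np X = 2 ^ mK K * q * Ideal.absNorm I := by
        rw [hq]
        field_simp
      rw [this, mul_comm (Ideal.absNorm I : ℝ)]
      exact mul_lt_mul_of_pos_right h5 hNI
    linarith
  have hfin : S.Finite :=
    Set.Finite.of_finite_image ((cells v Y fun _ => g).finite_toSet.subset (by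
      rintro _ ⟨a, ha, rfl⟩
      exact hmaps a ha)) hinj
  refine ⟨hfin, ?_⟩
  have hcard : S.ncard ≤ (cells v Y fun _ => g).card := by
    rw [← Set.ncard_coe_finset]
    exact Set.ncard_le_ncard_of_injOn (cell v Y) hmaps hinj (Finset.finite_toSet _)
  calc (S.ncard : ℝ) ≤ ((cells v Y fun _ => g).card : ℝ) := by exact_mod_cast hcard
    _ = (2 * (g : ℝ) + 1) ^ mK K := by rw [card_cells, np_const]
    _ ≤ (3 * (2 * t + 1)) ^ mK K := by
        refine pow_le_pow_left₀ (by positivity) ?_ _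
        have : (1 : ℝ) ≤ g := by
          rw [hg]
          push_cast
          linarith [Nat.cast_nonneg (α := ℝ) ⌊2 * t⌋₊]
        linarith
    _ ≤ (9 * max t 1) ^ mK K := by
        refine pow_le_pow_left₀ (by positivity) ?_ _
        have h1 := le_max_left t 1
        have h2 := le_max_right t 1
        linarith
    _ = 9 ^ mK K * (max t 1) ^ mK K := mul_pow _ _ _
    _ ≤ 9 ^ mK K * (q + 1) := by
        refine mul_le_mul_of_nonneg_left ?_ (by positivity)
        rcases le_total t 1 with h | h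
        · rw [max_eq_right h, one_pow]
          linarith
        · rw [max_eq_left h, htm]
          linarith

theorem lat_lower (K : Type) [Field K] [NumberField K] : ∃ c : ℝ, 0 < c ∧
    ∀ I : Ideal (𝓞 K), I ≠ ⊥ → ∀ X : InfinitePlace K → ℝ, (∀ w, 0 < X w) →
      c * (np X / Ideal.absNorm I) ≤
        (Set.ncard {a : 𝓞 K | a ∈ I ∧ ∀ w, ‖sg w a‖ ≤ X w} : ℝ) := by
  classical
  refine ⟨1 / (9 * cK K) ^ mK K, by have := cK_pos (K := K); positivity, fun I hI X hX => ?_⟩
  have hcK := one_le_cK (K := K)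
  have hNI : (0 : ℝ) < Ideal.absNorm I := by exact_mod_cast absNorm_pos hI
  have hnp : 0 < np X := np_pos hX
  obtain ⟨L, hL1, hLX⟩ : ∃ L : ℕ, 1 ≤ L ∧ ∀ w : InfinitePlace K, X w ≤ L := by
    refine ⟨∑ w : InfinitePlace K, ⌈X w⌉₊ + 1, by omega, fun w => ?_⟩
    push_cast
    have h1 : ((⌈X w⌉₊ : ℕ) : ℝ) ≤ ∑ w : InfinitePlace K, ((⌈X w⌉₊ : ℕ) : ℝ) :=
      Finset.single_le_sum (f := fun w => ((⌈X w⌉₊ : ℕ) : ℝ)) (fun _ _ => Nat.cast_nonneg _)
        (Finset.mem_univ w)
    linarith [Nat.le_ceil (X w)]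
  have hL0 : (0 : ℝ) < L := by exact_mod_cast hL1
  -- the box
  let e : 𝓞 K → (IK K → ℤ) := fun a j => crd a j
  have he : Function.Injective e := fun a b h => crd_ext fun j => congrFun h j
  let g : InfinitePlace K → ℕ := fun w => ⌈2 * cK K * L / X w⌉₊
  let Y : InfinitePlace K → ℝ := fun w => X w / 2
  have hY : ∀ w, 0 < Y w := fun w => half_pos (hX w)
  obtain ⟨s, hs⟩ : ∃ s : Finset (𝓞 K), ∀ a, a ∈ s ↔ ∀ j, 0 ≤ crd a j ∧ crd a j < L := by
    have hfin : {a : 𝓞 K | ∀ j, 0 ≤ crd a j ∧ crd a j < L}.Finite := by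
      refine Set.Finite.of_finite_image (f := e) ?_ he.injOn
      refine (Fintype.piFinset fun _ : IK K => Finset.Ico (0 : ℤ) L).finite_toSet.subset ?_
      rintro _ ⟨a, ha, rfl⟩
      rw [Finset.mem_coe, Fintype.mem_piFinset]
      intro j
      rw [Finset.mem_Ico]
      exact ha j
    exact ⟨hfin.toFinset, fun a => by rw [Set.Finite.mem_toFinset]; rfl⟩
  have hscard : s.card = L ^ mK K := by
    have h1 : s.card = (Fintype.piFinset fun _ : IK K => Finset.Ico (0 : ℤ) L).card := by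
      refine Finset.card_bij (fun a _ => e a) ?_ ?_ ?_
      · intro a ha
        rw [Fintype.mem_piFinset]
        intro j
        rw [Finset.mem_Ico]
        exact (hs a).mp ha j
      · intro a _ b _ h
        exact he h
      · intro c hc
        obtain ⟨a, ha⟩ := exists_crd (K := K) c
        refine ⟨a, (hs a).mpr fun j => ?_, funext ha⟩
        rw [Fintype.mem_piFinset] at hc
        have := hc j
        rw [Finset.mem_Ico] at this
        rw [ha j]
        exact this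
    rw [h1, Fintype.card_piFinset]
    simp only [Int.card_Ico, sub_zero, Int.toNat_natCast, Finset.prod_const, Finset.card_univ,
      card_IK]
  have : Finite (𝓞 K ⧸ I) := Ideal.finiteQuotientOfFreeOfNeBot I hI
  have : Fintype (𝓞 K ⧸ I) := Fintype.ofFinite _
  have hquot : (Fintype.card (𝓞 K ⧸ I) : ℝ) = Ideal.absNorm I := by
    rw [← Nat.card_eq_fintype_card]
    rw [Ideal.absNorm_apply, Submodule.cardQuot_apply]
  let f : 𝓞 K → (𝓞 K ⧸ I) × (InfinitePlace K → ℤ × ℤ) := fun a =>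
    (Ideal.Quotient.mk I a, cell (fun _ => 0) Y a)
  let T : Finset ((𝓞 K ⧸ I) × (InfinitePlace K → ℤ × ℤ)) :=
    Finset.univ ×ˢ cells (fun _ => 0) Y g
  have hmaps : ∀ a ∈ s, f a ∈ T := by
    intro a ha
    rw [Finset.mem_product]
    refine ⟨Finset.mem_univ _, ?_⟩
    refine cell_mem _ Y (fun _ => cK K * L) hY g (fun w => ?_) a fun w => ?_
    · show cK K * L ≤ (⌈2 * cK K * L / X w⌉₊ : ℝ) * (X w / 2)
      have h1 := Nat.le_ceil (2 * cK K * L / X w)
      have h2 : cK K * L = 2 * cK K * L / X w * (X w / 2) := by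
        have := (hX w).ne'
        field_simp
      rw [h2]
      exact mul_le_mul_of_nonneg_right h1 (hY w).le
    · rw [sub_zero]
      refine norm_sg_le_of_crd (fun j => ?_) w
      have h1 := (hs a).mp ha j
      rw [abs_of_nonneg (by exact_mod_cast h1.1)]
      exact_mod_cast h1.2.le
  have hT : T.Nonempty := by
    refine ⟨f 0, hmaps 0 ((hs 0).mpr fun j => ?_)⟩
    rw [crd_zero]
    exact ⟨le_refl _, by exact_mod_cast hL1⟩
  have hTcard : (T.card : ℝ) ≤ Ideal.absNorm I * ((9 * cK K) ^ mK K * (L : ℝ) ^ mK K / np X) := by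
    rw [Finset.card_product, Finset.card_univ]
    push_cast
    rw [hquot, card_cells]
    refine mul_le_mul_of_nonneg_left ?_ hNI.le
    have e1 : (9 * cK K) ^ mK K * (L : ℝ) ^ mK K / np X = np (fun w => 9 * cK K * L / X w) := by
      rw [np_div, np_const, ← mul_pow]
    rw [e1]
    refine np_mono (fun w => by positivity) fun w => ?_
    have h1 : (⌈2 * cK K * L / X w⌉₊ : ℝ) ≤ 2 * cK K * L / X w + 1 :=
      (Nat.ceil_lt_add_one (by have := hX w; positivity)).le
    have h2 : 1 ≤ cK K * L / X w := by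
      rw [le_div_iff₀ (hX w), one_mul]
      nlinarith [hLX w]
    have h3 : 9 * cK K * L / X w = 9 * (cK K * L / X w) := by ring
    have h4 : 2 * cK K * L / X w = 2 * (cK K * L / X w) := by ring
    rw [h3]
    show 2 * (⌈2 * cK K * L / X w⌉₊ : ℝ) + 1 ≤ _
    rw [h4] at h1 ⊢
    linarith
  set b : ℝ := 1 / (9 * cK K) ^ mK K * (np X / Ideal.absNorm I) with hb
  have hb0 : 0 < b := by
    have := cK_pos (K := K)
    positivity
  obtain ⟨y, hy, hyc⟩ := Finset.exists_le_card_fiber_of_nsmul_le_card_of_maps_to hmaps hT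
    (b := b) (by
      rw [nsmul_eq_mul]
      calc (T.card : ℝ) * b ≤
          (Ideal.absNorm I * ((9 * cK K) ^ mK K * (L : ℝ) ^ mK K / np X)) * b :=
            mul_le_mul_of_nonneg_right hTcard hb0.le
        _ = (L : ℝ) ^ mK K := by
            rw [hb]
            have h1 : (9 * cK K) ^ mK K ≠ 0 := by
              have := cK_pos (K := K)
              positivity
            field_simp
        _ = (s.card : ℝ) := by rw [hscard]; push_cast; rfl)
  have hpos : 0 < (s.filter fun x => f x = y).card := by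
    by_contra hc
    have : (s.filter fun x => f x = y).card = 0 := by omega
    rw [this] at hyc
    push_cast at hyc
    linarith
  obtain ⟨a0, ha0⟩ := Finset.card_pos.mp hpos
  rw [Finset.mem_filter] at ha0
  refine hyc.trans ?_
  have hfin : {a : 𝓞 K | a ∈ I ∧ ∀ w, ‖sg w a‖ ≤ X w}.Finite := by
    obtain ⟨C, _, hC⟩ := lat_upper K
    have := (hC I hI X hX fun _ => 0).1
    simpa only [sub_zero] using this
  have h1 : (s.filter fun x => f x = y).card ≤
      Set.ncard {a : 𝓞 K | a ∈ I ∧ ∀ w, ‖sg w a‖ ≤ X w} := by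
    rw [← Set.ncard_coe_finset]
    refine Set.ncard_le_ncard_of_injOn (fun a => a - a0) ?_ (fun a _ b _ h => sub_left_injective h)
      hfin
    intro a ha
    rw [Finset.mem_coe, Finset.mem_filter] at ha
    have h2 : f a = f a0 := ha.2.trans ha0.2.symm
    rw [Prod.mk.injEq] at h2
    refine ⟨Ideal.Quotient.eq.mp h2.1, fun w => ?_⟩
    have h3 := cell_diff _ Y hY a a0 h2.2 w
    have h4 : 2 * Y w = X w := by
      show 2 * (X w / 2) = X w
      ring
    rw [h4] at h3
    exact h3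
  exact_mod_cast h1

/-- vectors -/
theorem lat_upper_vec (K : Type) [Field K] [NumberField K] : ∃ C : ℝ, 1 ≤ C ∧
    ∀ (ι : Type) [Fintype ι], ∀ I : Ideal (𝓞 K), I ≠ ⊥ → ∀ X : InfinitePlace K → ℝ,
    (∀ w, 0 < X w) → ∀ v : ι → InfinitePlace K → ℂ,
      {a : ι → 𝓞 K | (∀ i, a i ∈ I) ∧ ∀ i w, ‖sg w (a i) - v i w‖ ≤ X w}.Finite ∧
      (Set.ncard {a : ι → 𝓞 K | (∀ i, a i ∈ I) ∧ ∀ i w, ‖sg w (a i) - v i w‖ ≤ X w} : ℝ) ≤
        (C * (np X / Ideal.absNorm I + 1)) ^ Fintype.card ι := by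
  classical
  obtain ⟨C, hC1, hC⟩ := lat_upper K
  refine ⟨C, hC1, fun ι _ I hI X hX v => ?_⟩
  have hfin : ∀ i, {a : 𝓞 K | a ∈ I ∧ ∀ w, ‖sg w a - v i w‖ ≤ X w}.Finite := fun i =>
    (hC I hI X hX (v i)).1
  let s : ι → Finset (𝓞 K) := fun i => (hfin i).toFinset
  have hset : {a : ι → 𝓞 K | (∀ i, a i ∈ I) ∧ ∀ i w, ‖sg w (a i) - v i w‖ ≤ X w} =
      ((Fintype.piFinset s : Finset (ι → 𝓞 K)) : Set (ι → 𝓞 K)) := by
    ext a
    rw [Finset.mem_coe, Fintype.mem_piFinset]
    constructor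
    · intro ha i
      rw [Set.Finite.mem_toFinset]
      exact ⟨ha.1 i, ha.2 i⟩
    · intro ha
      refine ⟨fun i => ?_, fun i => ?_⟩
      · have := ha i
        rw [Set.Finite.mem_toFinset] at this
        exact this.1
      · have := ha i
        rw [Set.Finite.mem_toFinset] at this
        exact this.2
  rw [hset]
  refine ⟨Finset.finite_toSet _, ?_⟩
  rw [Set.ncard_coe_finset, Fintype.card_piFinset]
  push_cast
  calc ∏ i, ((s i).card : ℝ) ≤ ∏ _i : ι, C * (np X / Ideal.absNorm I + 1) := by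
        refine Finset.prod_le_prod (fun _ _ => Nat.cast_nonneg _) fun i _ => ?_
        have := (hC I hI X hX (v i)).2
        rwa [Set.ncard_eq_toFinset_card _ (hfin i)] at this
    _ = _ := by rw [Finset.prod_const, Finset.card_univ]

/-- nonzero vectors -/
theorem lat_upper_ne_zero (K : Type) [Field K] [NumberField K] : ∃ C : ℝ, 1 ≤ C ∧
    ∀ (ι : Type) [Fintype ι], ∀ I : Ideal (𝓞 K), I ≠ ⊥ → ∀ X : InfinitePlace K → ℝ,
    (∀ w, 0 < X w) →
      (Set.ncard {a : ι → 𝓞 K | a ≠ 0 ∧ (∀ i, a i ∈ I) ∧ ∀ i w, ‖sg w (a i)‖ ≤ X w} : ℝ) ≤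
        (C * (np X / Ideal.absNorm I)) ^ Fintype.card ι := by
  obtain ⟨C, hC1, hC⟩ := lat_upper_vec K
  refine ⟨2 * C, by linarith, fun ι _ I hI X hX => ?_⟩
  have hNI : (0 : ℝ) < Ideal.absNorm I := by exact_mod_cast absNorm_pos hI
  have hnp : 0 < np X := np_pos hX
  rcases Set.eq_empty_or_nonempty
    {a : ι → 𝓞 K | a ≠ 0 ∧ (∀ i, a i ∈ I) ∧ ∀ i w, ‖sg w (a i)‖ ≤ X w} with h | ⟨a, ha0, haI, haX⟩
  · rw [h, Set.ncard_empty, Nat.cast_zero]
    positivity
  · have h1 : 1 ≤ np X / Ideal.absNorm I := by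
      rw [le_div_iff₀ hNI, one_mul]
      obtain ⟨i, hi⟩ := Function.ne_iff.mp ha0
      exact (absNorm_le_np (haI i) hi).trans (np_mono (fun _ => norm_nonneg _) (haX i))
    have h2 := hC ι I hI X hX (fun _ _ => 0)
    simp only [sub_zero] at h2
    have h3 : Set.ncard {a : ι → 𝓞 K | a ≠ 0 ∧ (∀ i, a i ∈ I) ∧ ∀ i w, ‖sg w (a i)‖ ≤ X w} ≤
        Set.ncard {a : ι → 𝓞 K | (∀ i, a i ∈ I) ∧ ∀ i w, ‖sg w (a i)‖ ≤ X w} :=
      Set.ncard_le_ncard (fun a ha => ha.2) h2.1
    calc _ ≤ (Set.ncard {a : ι → 𝓞 K | (∀ i, a i ∈ I) ∧ ∀ i w, ‖sg w (a i)‖ ≤ X w} : ℝ) := by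
          exact_mod_cast h3
      _ ≤ _ := h2.2
      _ ≤ _ := by
          refine pow_le_pow_left₀ (by positivity) ?_ _
          nlinarith

end NFHP
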