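import Pool.Agent.Lib.MP_e426f4_ag.N.CubeCount

/-! Module NF-CU: number of forms in a class. -/

namespace NFHP

open NumberField GenHP Finset Filter Topology

variable {K : Type} [Field K] [NumberField K] {n d : ℕ}

/-- norm of a natural number -/
theorem cu_absNorm (K : Type) [Field K] [NumberField K] (N : ℕ) :
    Ideal.absNorm (Ideal.span {(N : 𝓞 K)}) = N ^ mK K := by
  rw [Ideal.absNorm_span_singleton]
  have h1 : (N : 𝓞 K) = algebraMap ℤ (𝓞 K) (N : ℤ) := by simp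
  rw [h1, Algebra.norm_algebraMap, RingOfIntegers.rank, Int.natAbs_pow, Int.natAbs_natCast]
  rfl

/-- the class as a product set -/
theorem cu_eq (p : Par K n d) (r H : ℝ) : p.Cl r H = Set.pi Set.univ fun t : Idx n d =>
    {a : 𝓞 K | a - p.A0 t ∈ Ideal.span {(p.Q : 𝓞 K)} ∧
      ∀ j, |(crd a j : ℝ) - (fun j => H * p.AC t j) j| ≤ r * H} := by
  ext A
  simp only [Par.Cl, Set.mem_pi, Set.mem_univ, true_implies, Set.mem_ofPred_eq,
    Ideal.mem_span_singleton]
  exact ⟨fun h t => ⟨h.2 t, h.1 t⟩, fun h => ⟨fun t => (h t).2, fun t => (h t).1⟩⟩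

theorem Cl_finite (p : Par K n d) (r H : ℝ) : (p.Cl r H).Finite := by
  rw [cu_eq]
  exact Set.Finite.pi fun t => (cube_finite (fun j => H * p.AC t j) (r * H)).subset
    fun _ h => h.2

theorem Cl_mono (p : Par K n d) {r r' H : ℝ} (hr : r ≤ r') (hH : 0 ≤ H) : p.Cl r H ⊆ p.Cl r' H :=
  fun _ h => ⟨fun t j => (h.1 t j).trans (mul_le_mul_of_nonneg_right hr hH), h.2⟩

theorem exists_radius (N : ℕ) (eps : ℝ) (he : 0 < eps) (he1 : eps ≤ 1) :
    ∃ e0 : ℝ, 0 < e0 ∧ e0 ≤ 1 / 2 ∧ (1 + e0) ^ N ≤ 1 + eps ∧ 1 - eps ≤ (1 - e0) ^ N := by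
  have h1 : Tendsto (fun t : ℝ => (1 + t) ^ N) (𝓝 0) (𝓝 1) := by
    have : Tendsto (fun t : ℝ => (1 + t) ^ N) (𝓝 0) (𝓝 ((1 + 0) ^ N)) :=
      (tendsto_const_nhds.add tendsto_id).pow N
    simpa using this
  have h2 : Tendsto (fun t : ℝ => (1 - t) ^ N) (𝓝 0) (𝓝 1) := by
    have : Tendsto (fun t : ℝ => (1 - t) ^ N) (𝓝 0) (𝓝 ((1 - 0) ^ N)) :=
      (tendsto_const_nhds.sub tendsto_id).pow N
    simpa using this
  have e1 := h1.eventually (gt_mem_nhds (by linarith : (1 : ℝ) < 1 + eps))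
  have e2 := h2.eventually (lt_mem_nhds (by linarith : (1 : ℝ) - eps < 1))
  obtain ⟨δ, hδ, h⟩ := Metric.eventually_nhds_iff.mp (e1.and e2)
  refine ⟨min (δ / 2) (1 / 2), by positivity, min_le_right _ _, ?_⟩
  have hm : 0 < min (δ / 2) (1 / 2) := by positivity
  have h3 := h (y := min (δ / 2) (1 / 2)) (by
    rw [dist_zero_right, Real.norm_eq_abs, abs_of_pos hm]
    exact (min_le_left _ _).trans_lt (by linarith))
  exact ⟨h3.1.le, h3.2.le⟩

theorem card_Cl (p : Par K n d) (hQ : 0 < p.Q) (r eps : ℝ) (hr : 0 < r) (he : 0 < eps) :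
    ∀ᶠ H : ℝ in atTop,
      (1 - eps) * p.XR r H ≤ ((p.Cl r H).ncard : ℝ) ∧
      ((p.Cl r H).ncard : ℝ) ≤ (1 + eps) * p.XR r H := by
  classical
  have hQ' : (0 : ℝ) < p.Q := by exact_mod_cast hQ
  obtain ⟨e0, he0, he1, he2, he3⟩ := exists_radius (NN n d) (min eps 1) (by positivity)
    (min_le_right _ _)
  have hb : Ideal.span {(p.Q : 𝓞 K)} ≠ ⊥ := by
    rw [Ne, Ideal.span_singleton_eq_bot]
    exact_mod_cast hQ.ne'
  obtain ⟨R0, hR0, hcc⟩ := cube_count (Ideal.span {(p.Q : 𝓞 K)}) hb e0 he0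
  filter_upwards [eventually_ge_atTop (R0 / r), eventually_gt_atTop 0] with H hH hH0
  have hrH : R0 ≤ r * H := by
    rw [div_le_iff₀ hr] at hH
    linarith
  set S : Idx n d → Set (𝓞 K) := fun t => {a : 𝓞 K | a - p.A0 t ∈ Ideal.span {(p.Q : 𝓞 K)} ∧
      ∀ j, |(crd a j : ℝ) - (fun j => H * p.AC t j) j| ≤ r * H} with hS
  have hfin : ∀ t, (S t).Finite := fun t => (hcc (r * H) hrH (fun j => H * p.AC t j) (p.A0 t)).1
  obtain ⟨V, hV⟩ : ∃ V : ℝ, V = (2 * (r * H)) ^ mK K /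
    Ideal.absNorm (Ideal.span {(p.Q : 𝓞 K)}) := ⟨_, rfl⟩
  have hlo : ∀ t, (1 - e0) * V ≤ ((S t).ncard : ℝ) := fun t => by
    rw [hV]; exact (hcc (r * H) hrH (fun j => H * p.AC t j) (p.A0 t)).2.1
  have hup : ∀ t, ((S t).ncard : ℝ) ≤ (1 + e0) * V := fun t => by
    rw [hV]; exact (hcc (r * H) hrH (fun j => H * p.AC t j) (p.A0 t)).2.2
  have hVQ : V = (2 * r * H / p.Q) ^ mK K := by
    rw [hV, cu_absNorm, div_pow]
    push_cast
    congr 1
    ring
  have hV0 : 0 < V := by rw [hVQ]; positivity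
  have hXR : p.XR r H = V ^ NN n d := by
    rw [hVQ, ← pow_mul]; rfl
  have hcl : p.Cl r H = ↑(Fintype.piFinset fun t => (hfin t).toFinset) := by
    rw [cu_eq]
    ext A
    simp only [Set.mem_pi, Set.mem_univ, true_implies, Finset.mem_coe, Fintype.mem_piFinset,
      Set.Finite.mem_toFinset]
    exact Iff.rfl
  have hcard : ((p.Cl r H).ncard : ℝ) = ∏ t, ((S t).ncard : ℝ) := by
    rw [hcl, Set.ncard_coe_finset, Fintype.card_piFinset]
    push_cast
    refine Finset.prod_congr rfl fun m _ => ?_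
    rw [Set.ncard_eq_toFinset_card _ (hfin m)]
  have h20 : (univ : Finset (Idx n d)).card = NN n d := rfl
  have hXR0 : 0 ≤ V ^ NN n d := by positivity
  rw [hcard, hXR]
  constructor
  · calc (1 - eps) * V ^ NN n d ≤ (1 - e0) ^ NN n d * V ^ NN n d := by
          refine mul_le_mul_of_nonneg_right ?_ hXR0
          have := min_le_left eps 1
          linarith
      _ = ∏ _t : Idx n d, ((1 - e0) * V) := by rw [Finset.prod_const, h20, mul_pow]
      _ ≤ ∏ t, ((S t).ncard : ℝ) :=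
        Finset.prod_le_prod (fun _ _ => mul_nonneg (by linarith) hV0.le) fun t _ => hlo t
  · calc ∏ t, ((S t).ncard : ℝ) ≤ ∏ _t : Idx n d, ((1 + e0) * V) :=
          Finset.prod_le_prod (fun _ _ => by positivity) fun t _ => hup t
      _ = (1 + e0) ^ NN n d * V ^ NN n d := by rw [Finset.prod_const, h20, mul_pow]
      _ ≤ (1 + eps) * V ^ NN n d := by
          refine mul_le_mul_of_nonneg_right ?_ hXR0
          have := min_le_left eps 1
          linarith

end NFHP
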