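import Pool.Agent.Lib.MP_e426f4_ag.N.Const

/-! Module NF-MG: elementary facts on minors. -/

set_option linter.unusedSectionVars false
set_option linter.unusedVariables false

namespace NFHP

open NumberField GenHP Finset Filter Topology

variable {K : Type} [Field K] [NumberField K] {n d : ℕ}

theorem minor_mem (x y : Fin (n + 1) → 𝓞 K) (a b : Fin (n + 1)) : minor x y a b ∈ mgI x y :=
  Ideal.subset_span ⟨(a, b), rfl⟩

theorem exists_mod (x y : Fin (n + 1) → 𝓞 K) (hx : Prim x) (q : Ideal (𝓞 K)) (h : mgI x y ≤ q) :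
    ∃ l : 𝓞 K, ∀ i, y i - l * x i ∈ q := by
  obtain ⟨c, hc⟩ := hx
  refine ⟨∑ i, c i * y i, fun j => ?_⟩
  have h1 : y j - (∑ i, c i * y i) * x j = ∑ i, c i * minor x y i j := by
    calc y j - (∑ i, c i * y i) * x j = (∑ i, c i * x i) * y j - (∑ i, c i * y i) * x j := by
          rw [hc]; ring
      _ = _ := by
        rw [Finset.sum_mul, Finset.sum_mul, ← Finset.sum_sub_distrib]
        refine Finset.sum_congr rfl fun i _ => ?_
        unfold minor
        ring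
  rw [h1]
  exact Ideal.sum_mem _ fun i _ => Ideal.mul_mem_left _ _ (h (minor_mem x y i j))

theorem eq_mul_of_mgI_bot (x y : Fin (n + 1) → 𝓞 K) (hx : Prim x) (h : mgI x y = ⊥) :
    ∃ u : 𝓞 K, ∀ i, y i = u * x i := by
  obtain ⟨l, hl⟩ := exists_mod x y hx ⊥ h.le
  exact ⟨l, fun i => sub_eq_zero.mp ((Submodule.mem_bot _).mp (hl i))⟩

theorem exists_minor_ne_zero (x y : Fin (n + 1) → 𝓞 K) (h : mgI x y ≠ ⊥) :
    ∃ a b, minor x y a b ≠ 0 := by
  by_contra hcon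
  push Not at hcon
  apply h
  unfold mgI
  rw [Ideal.span_eq_bot]
  rintro _ ⟨p, rfl⟩
  exact hcon p.1 p.2

theorem norm_minor_le_dl (x y : Fin (n + 1) → 𝓞 K) (a b : Fin (n + 1)) (w : InfinitePlace K) :
    ‖sg w (minor x y a b)‖ ≤ dl w x y :=
  Finset.single_le_sum (f := fun p : Fin (n + 1) × Fin (n + 1) => ‖sg w (minor x y p.1 p.2)‖)
    (fun _ _ => norm_nonneg _) (Finset.mem_univ ((a, b) : Fin (n + 1) × Fin (n + 1)))

theorem dl_pos (x y : Fin (n + 1) → 𝓞 K) (h : mgI x y ≠ ⊥) (w : InfinitePlace K) :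
    0 < dl w x y := by
  obtain ⟨a, b, hab⟩ := exists_minor_ne_zero x y h
  exact (norm_sg_pos w hab).trans_le (norm_minor_le_dl x y a b w)

theorem exists_minor_ge (x y : Fin (n + 1) → 𝓞 K) (w : InfinitePlace K) :
    ∃ a b, dl w x y ≤ ((n : ℝ) + 1) ^ 2 * ‖sg w (minor x y a b)‖ := by
  obtain ⟨p, _, hp⟩ := Finset.exists_max_image (univ : Finset (Fin (n + 1) × Fin (n + 1)))
    (fun p => ‖sg w (minor x y p.1 p.2)‖) Finset.univ_nonempty
  refine ⟨p.1, p.2, ?_⟩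
  unfold dl
  refine (Finset.sum_le_card_nsmul _ _ _ hp).trans (le_of_eq ?_)
  rw [Finset.card_univ, Fintype.card_prod, Fintype.card_fin, nsmul_eq_mul]
  push_cast
  ring

theorem mgN_pos (x y : Fin (n + 1) → 𝓞 K) (h : mgI x y ≠ ⊥) : 0 < mgN x y := absNorm_pos h

theorem mgN_le_np_dl (x y : Fin (n + 1) → 𝓞 K) (h : mgI x y ≠ ⊥) :
    (mgN x y : ℝ) ≤ np (fun w => dl w x y) := by
  obtain ⟨a, b, hab⟩ := exists_minor_ne_zero x y h
  refine (absNorm_le_np (minor_mem x y a b) hab).trans ?_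
  exact np_mono (fun _ => norm_nonneg _) fun w => norm_minor_le_dl x y a b w

theorem exists_vec_mg (hd : 1 ≤ d) (x y : Fin (n + 1) → 𝓞 K) (hy : Prim y) (s : 𝓞 K)
    (hs : s ∈ mgI x y) : ∃ t : Idx n d → 𝓞 K, F t x = 0 ∧ F t y = s := by
  -- the ideal of values
  let I : Ideal (𝓞 K) :=
    { carrier := {z | ∃ t : Idx n d → 𝓞 K, F t x = 0 ∧ F t y = z}
      add_mem' := by
        rintro a b ⟨t, ht, ht'⟩ ⟨s, hs, hs'⟩
        exact ⟨fun m => t m + s m, by rw [F_add, ht, hs, add_zero], by rw [F_add, ht', hs']⟩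
      zero_mem' := ⟨fun _ => 0, by simp [F], by simp [F]⟩
      smul_mem' := by
        rintro c a ⟨t, ht, ht'⟩
        exact ⟨fun m => c * t m, by rw [F_smul, ht, mul_zero], by rw [F_smul, ht', smul_eq_mul]⟩ }
  have hI : mgI x y ≤ I := by
    unfold mgI
    rw [Ideal.span_le]
    rintro _ ⟨⟨a, b⟩, rfl⟩
    obtain ⟨c, hc⟩ := hy
    obtain ⟨e, rfl⟩ : ∃ e, d = e + 1 := ⟨d - 1, by omega⟩
    have hsum : ∀ z : Fin (n + 1) → 𝓞 K, ∑ i, (x a * (Pi.single b 1 : Fin (n + 1) → 𝓞 K) i -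
        x b * (Pi.single a 1 : Fin (n + 1) → 𝓞 K) i) * z i = x a * z b - x b * z a := by
      intro z
      have h1 : ∀ (j : Fin (n + 1)), ∑ i, (Pi.single j 1 : Fin (n + 1) → 𝓞 K) i * z i = z j := by
        intro j
        rw [Finset.sum_eq_single j]
        · simp
        · intro i _ hi
          rw [Pi.single_eq_of_ne hi, zero_mul]
        · simp
      have h2 : ∀ i, (x a * (Pi.single b 1 : Fin (n + 1) → 𝓞 K) i -
          x b * (Pi.single a 1 : Fin (n + 1) → 𝓞 K) i) * z i =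
          x a * ((Pi.single b 1 : Fin (n + 1) → 𝓞 K) i * z i) -
          x b * ((Pi.single a 1 : Fin (n + 1) → 𝓞 K) i * z i) := fun i => by ring
      rw [Finset.sum_congr rfl fun i _ => h2 i, Finset.sum_sub_distrib, ← Finset.mul_sum,
        ← Finset.mul_sum, h1, h1]
    refine ⟨T (Fin.cons (fun i => x a * (Pi.single b 1 : Fin (n + 1) → 𝓞 K) i -
        x b * (Pi.single a 1 : Fin (n + 1) → 𝓞 K) i) (fun _ : Fin e => c)), ?_, ?_⟩
    · rw [F_T, Fin.prod_univ_succ]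
      simp only [Fin.cons_zero, hsum]
      ring
    · rw [F_T, Fin.prod_univ_succ]
      simp only [Fin.cons_zero, Fin.cons_succ, hsum, hc]
      unfold minor
      simp
  exact hI hs

theorem exists_vec_one (hd : 1 ≤ d) (x : Fin (n + 1) → 𝓞 K) (hx : Prim x) (s : 𝓞 K) :
    ∃ t : Idx n d → 𝓞 K, F t x = s := by
  obtain ⟨c, hc⟩ := hx
  refine ⟨fun m => s * T (fun _ : Fin d => c) m, ?_⟩
  rw [F_smul, F_T, hc]
  simp

theorem exists_prime_of_not_prim (x : Fin (n + 1) → 𝓞 K) (hx : ¬ Prim x) :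
    ∃ P : Ideal (𝓞 K), P.IsMaximal ∧ ∀ i, x i ∈ P := by
  have h1 : Ideal.span (Set.range x) ≠ ⊤ := by
    intro h
    have : (1 : 𝓞 K) ∈ Ideal.span (Set.range x) := by rw [h]; trivial
    rw [Ideal.mem_span_range_iff_exists_fun] at this
    exact hx this
  obtain ⟨M, hM, hle⟩ := Ideal.exists_le_maximal _ h1
  exact ⟨M, hM, fun i => hle (Ideal.subset_span ⟨i, rfl⟩)⟩

end NFHP
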