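import Pool.Agent.Lib.MP_e426f4_ag.N.Defs

/-! Module NF-DIR: integral directions. -/

namespace NFHP

open NumberField GenHP Finset Filter Topology

/-- The Vandermonde matrix of the nodes `e k`. -/
noncomputable def VdM {n T : ℕ} (e : Fin (n + 1) → Fin (T + 1)) : Matrix (Fin (n + 1)) (Fin (n + 1)) ℂ :=
  Matrix.vandermonde fun k => ((e k : ℕ) : ℂ)

/-- The constant of one Vandermonde matrix. -/
noncomputable def VC {n T : ℕ} (e : Fin (n + 1) → Fin (T + 1)) : ℝ :=
  ∑ i, ∑ k, ‖(VdM e)⁻¹ i k‖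

theorem VC_nonneg {n T : ℕ} (e : Fin (n + 1) → Fin (T + 1)) : 0 ≤ VC e := by
  unfold VC
  positivity

/-- the coefficients are bounded by the values at the nodes -/
theorem coeff_le_of_values {n T : ℕ} {e : Fin (n + 1) → Fin (T + 1)} (he : Function.Injective e)
    (g : Fin (n + 1) → ℂ) (b : ℝ) (hb : ∀ k, ‖∑ i, g i * ((e k : ℕ) : ℂ) ^ (i : ℕ)‖ ≤ b)
    (i : Fin (n + 1)) : ‖g i‖ ≤ VC e * b := by
  have hdet : (VdM e).det ≠ 0 := by
    rw [VdM, Matrix.det_vandermonde_ne_zero_iff]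
    intro k k' h
    apply he
    apply Fin.ext
    have h' : ((e k : ℕ) : ℂ) = ((e k' : ℕ) : ℂ) := h
    exact_mod_cast h'
  have hinv : (VdM e)⁻¹ * VdM e = 1 := Matrix.nonsing_inv_mul _ (isUnit_iff_ne_zero.mpr hdet)
  have hv : g = Matrix.mulVec (VdM e)⁻¹ (Matrix.mulVec (VdM e) g) := by
    rw [Matrix.mulVec_mulVec, hinv, Matrix.one_mulVec]
  have hval : ∀ k, ‖Matrix.mulVec (VdM e) g k‖ ≤ b := by
    intro k
    have h1 : Matrix.mulVec (VdM e) g k = ∑ i, g i * ((e k : ℕ) : ℂ) ^ (i : ℕ) := by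
      rw [Matrix.mulVec, dotProduct]
      refine Finset.sum_congr rfl fun i _ => ?_
      rw [VdM, Matrix.vandermonde_apply, mul_comm]
    rw [h1]
    exact hb k
  have hb0 : 0 ≤ b := (norm_nonneg _).trans (hval 0)
  have h2 : g i = ∑ k, (VdM e)⁻¹ i k * Matrix.mulVec (VdM e) g k := by
    conv_lhs => rw [hv]
    rfl
  rw [h2]
  calc ‖∑ k, (VdM e)⁻¹ i k * Matrix.mulVec (VdM e) g k‖
      ≤ ∑ k, ‖(VdM e)⁻¹ i k‖ * b := by
        refine (norm_sum_le _ _).trans (Finset.sum_le_sum fun k _ => ?_)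
        rw [norm_mul]
        exact mul_le_mul_of_nonneg_left (hval k) (norm_nonneg _)
    _ = (∑ k, ‖(VdM e)⁻¹ i k‖) * b := by rw [Finset.sum_mul]
    _ ≤ VC e * b := by
        apply mul_le_mul_of_nonneg_right _ hb0
        unfold VC
        exact Finset.single_le_sum (f := fun i => ∑ k, ‖(VdM e)⁻¹ i k‖)
          (fun i _ => by positivity) (Finset.mem_univ i)

theorem exists_dir (n M : ℕ) (hM : 1 ≤ M) : ∃ v0 : ℝ, 0 < v0 ∧ v0 ≤ 1 ∧
    ∀ (ι : Type) [Fintype ι], Fintype.card ι ≤ M → ∀ (g : ι → Fin (n + 1) → ℂ) (β : ℝ), 0 ≤ β →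
      (∀ w, ∃ i, β ≤ ‖g w i‖) → ∃ h : Fin (n + 1) → ℤ, h 0 = 1 ∧ (∀ i, |h i| ≤ hb n M) ∧
        ∀ w, β * v0 ≤ ‖∑ i, g w i * (h i : ℂ)‖ := by
  classical
  set C : ℝ := 1 + ∑ e : Fin (n + 1) → Fin (M * n + 1), VC e with hC
  have hsum : 0 ≤ ∑ e : Fin (n + 1) → Fin (M * n + 1), VC e :=
    Finset.sum_nonneg fun e _ => VC_nonneg e
  have hC1 : 1 ≤ C := by linarith
  have hCe : ∀ e : Fin (n + 1) → Fin (M * n + 1), VC e ≤ C := by
    intro e
    have := Finset.single_le_sum (f := fun e : Fin (n + 1) → Fin (M * n + 1) => VC e)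
      (fun e _ => VC_nonneg e) (Finset.mem_univ e)
    linarith
  refine ⟨1 / (2 * C), by positivity, ?_, ?_⟩
  · rw [div_le_one (by positivity)]
    linarith
  intro ι _ hι g β hβ hg
  -- bad parameters
  let Bad : ι → Finset (Fin (M * n + 1)) := fun w =>
    univ.filter fun t => ‖∑ i, g w i * ((t : ℕ) : ℂ) ^ (i : ℕ)‖ < β * (1 / (2 * C))
  have hBad : ∀ w, (Bad w).card ≤ n := by
    intro w
    by_contra hlt
    push Not at hlt
    obtain ⟨S, hS, hcard⟩ := Finset.exists_subset_card_eq (show n + 1 ≤ (Bad w).card from hlt)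
    let e := S.orderEmbOfFin hcard
    have he : ∀ k, e k ∈ Bad w := fun k => hS (Finset.orderEmbOfFin_mem S hcard k)
    have he' : ∀ k, ‖∑ i, g w i * ((e k : ℕ) : ℂ) ^ (i : ℕ)‖ < β * (1 / (2 * C)) := fun k =>
      (Finset.mem_filter.mp (he k)).2
    have hβ0 : 0 < β := by
      by_contra h0
      have h1 : β = 0 := le_antisymm (not_lt.mp h0) hβ
      have h2 := he' 0
      rw [h1, zero_mul] at h2
      exact absurd h2 (not_lt.mpr (norm_nonneg _))
    obtain ⟨i, hi⟩ := hg w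
    have h3 := coeff_le_of_values (e := fun k => e k) e.injective (g w) (β * (1 / (2 * C)))
      (fun k => (he' k).le) i
    have h4 : VC (fun k => e k) * (β * (1 / (2 * C))) ≤ β / 2 := by
      have h5 := hCe fun k => e k
      calc VC (fun k => e k) * (β * (1 / (2 * C))) ≤ C * (β * (1 / (2 * C))) := by
            apply mul_le_mul_of_nonneg_right h5 (by positivity)
        _ = β / 2 := by field_simp
    linarith
  obtain ⟨t, ht⟩ : ∃ t : Fin (M * n + 1), ∀ w, t ∉ Bad w := by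
    by_contra hcon
    push Not at hcon
    have h1 : (univ : Finset (Fin (M * n + 1))) ⊆ univ.biUnion Bad := by
      intro t _
      obtain ⟨w, hw⟩ := hcon t
      exact Finset.mem_biUnion.mpr ⟨w, Finset.mem_univ _, hw⟩
    have h2 := Finset.card_le_card h1
    have h3 : (univ.biUnion Bad).card ≤ M * n := by
      calc (univ.biUnion Bad).card ≤ ∑ w, (Bad w).card := Finset.card_biUnion_le
        _ ≤ ∑ _w : ι, n := Finset.sum_le_sum fun w _ => hBad w
        _ = Fintype.card ι * n := by rw [Finset.sum_const, Finset.card_univ, smul_eq_mul]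
        _ ≤ M * n := Nat.mul_le_mul_right n hι
    rw [Finset.card_univ, Fintype.card_fin] at h2
    omega
  refine ⟨fun i => ((t : ℕ) : ℤ) ^ (i : ℕ), by simp, ?_, ?_⟩
  · intro i
    have h1 : (t : ℕ) ≤ M * n + 1 := by
      have := t.2
      omega
    have h2 : (t : ℕ) ^ (i : ℕ) ≤ (M * n + 1) ^ n := by
      calc (t : ℕ) ^ (i : ℕ) ≤ (M * n + 1) ^ (i : ℕ) := Nat.pow_le_pow_left h1 _
        _ ≤ (M * n + 1) ^ n := Nat.pow_le_pow_right (by omega) (by have := i.2; omega)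
    rw [abs_of_nonneg (by positivity), hb]
    change ((t : ℕ) : ℤ) ^ (i : ℕ) ≤ _
    exact_mod_cast h2
  · intro w
    have h1 := ht w
    rw [Finset.mem_filter, not_and, not_lt] at h1
    have h2 := h1 (Finset.mem_univ _)
    refine h2.trans (le_of_eq ?_)
    congr 1
    refine Finset.sum_congr rfl fun i _ => ?_
    push_cast
    rfl

end NFHP
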