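import Pool.Agent.Lib.MP_e426f4_ag.N.Defs
import Pool.Agent.Lib.MP_e426f4_ag.G.Alg

/-! Basic facts on integers of a number field, their coordinates and complex embeddings. -/

set_option linter.unusedSectionVars false

namespace NFHP

open NumberField GenHP Finset Filter Topology

variable {K : Type} [Field K] [NumberField K] {n d : ℕ}

/-! ### the embeddings -/

theorem norm_sg (w : InfinitePlace K) (a : 𝓞 K) : ‖sg w a‖ = w (a : K) := by
  unfold sg
  rw [RingHom.comp_apply]
  exact InfinitePlace.norm_embedding_eq w _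

theorem sg_injective (w : InfinitePlace K) : Function.Injective (sg w) := by
  unfold sg
  exact w.embedding.injective.comp RingOfIntegers.coe_injective

theorem sg_ne_zero (w : InfinitePlace K) {a : 𝓞 K} (ha : a ≠ 0) : sg w a ≠ 0 := by
  intro h
  exact ha (sg_injective w (by rw [h, map_zero]))

theorem norm_sg_pos (w : InfinitePlace K) {a : 𝓞 K} (ha : a ≠ 0) : 0 < ‖sg w a‖ :=
  norm_pos_iff.mpr (sg_ne_zero w ha)

theorem sg_intCast (w : InfinitePlace K) (c : ℤ) : sg w (c : 𝓞 K) = (c : ℂ) := map_intCast _ _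

theorem sg_natCast (w : InfinitePlace K) (c : ℕ) : sg w (c : 𝓞 K) = (c : ℂ) := map_natCast _ _

/-! ### coordinates -/

theorem crd_add (a b : 𝓞 K) (j : IK K) : crd (a + b) j = crd a j + crd b j := by
  unfold crd
  rw [map_add]
  rfl

theorem crd_sub (a b : 𝓞 K) (j : IK K) : crd (a - b) j = crd a j - crd b j := by
  unfold crd
  rw [map_sub]
  rfl

theorem crd_neg (a : 𝓞 K) (j : IK K) : crd (-a) j = -crd a j := by
  unfold crd
  rw [map_neg]
  rfl

theorem crd_zero (j : IK K) : crd (0 : 𝓞 K) j = 0 := by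
  unfold crd
  rw [map_zero]
  rfl

theorem crd_sum {ι : Type*} (s : Finset ι) (f : ι → 𝓞 K) (j : IK K) :
    crd (∑ i ∈ s, f i) j = ∑ i ∈ s, crd (f i) j := by
  unfold crd
  rw [map_sum, Finsupp.finsetSum_apply]

theorem crd_intCast_mul (c : ℤ) (a : 𝓞 K) (j : IK K) : crd ((c : 𝓞 K) * a) j = c * crd a j := by
  unfold crd
  rw [← zsmul_eq_mul, map_zsmul]
  rfl

theorem crd_natCast_mul (c : ℕ) (a : 𝓞 K) (j : IK K) : crd ((c : 𝓞 K) * a) j = c * crd a j := by
  have := crd_intCast_mul (c : ℤ) a j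
  rwa [Int.cast_natCast] at this

theorem crd_ext {a b : 𝓞 K} (h : ∀ j, crd a j = crd b j) : a = b := by
  apply (RingOfIntegers.basis K).repr.injective
  ext j
  exact h j

theorem exists_crd (c : IK K → ℤ) : ∃ a : 𝓞 K, ∀ j, crd a j = c j := by
  refine ⟨∑ j, c j • RingOfIntegers.basis K j, fun j => ?_⟩
  unfold crd
  rw [Module.Basis.repr_sum_self]

theorem sum_crd (a : 𝓞 K) : ∑ j, (crd a j : 𝓞 K) * RingOfIntegers.basis K j = a := by
  have h := (RingOfIntegers.basis K).sum_repr a
  conv_rhs => rw [← h]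
  refine Finset.sum_congr rfl fun j _ => ?_
  rw [zsmul_eq_mul]
  rfl

theorem natCast_dvd_iff (N : ℕ) (a : 𝓞 K) : (N : 𝓞 K) ∣ a ↔ ∀ j, (N : ℤ) ∣ crd a j := by
  constructor
  · rintro ⟨b, rfl⟩ j
    rw [crd_natCast_mul]
    exact dvd_mul_right _ _
  · intro h
    choose c hc using h
    obtain ⟨b, hb⟩ := exists_crd c
    refine ⟨b, crd_ext fun j => ?_⟩
    rw [crd_natCast_mul, hb, hc]

/-! ### `lam` -/

theorem lam_crd (a : 𝓞 K) (w : InfinitePlace K) : lam (fun j => (crd a j : ℝ)) w = sg w a := by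
  unfold lam
  conv_rhs => rw [← sum_crd a, map_sum]
  refine Finset.sum_congr rfl fun j _ => ?_
  rw [map_mul, sg_intCast]
  push_cast
  rfl

theorem lam_add (r s : IK K → ℝ) (w : InfinitePlace K) :
    lam (fun j => r j + s j) w = lam r w + lam s w := by
  unfold lam
  rw [← Finset.sum_add_distrib]
  refine Finset.sum_congr rfl fun j _ => ?_
  push_cast
  ring

theorem lam_sub (r s : IK K → ℝ) (w : InfinitePlace K) :
    lam (fun j => r j - s j) w = lam r w - lam s w := by
  unfold lam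
  rw [← Finset.sum_sub_distrib]
  refine Finset.sum_congr rfl fun j _ => ?_
  push_cast
  ring

theorem lam_smul (c : ℝ) (r : IK K → ℝ) (w : InfinitePlace K) :
    lam (fun j => c * r j) w = c * lam r w := by
  unfold lam
  rw [Finset.mul_sum]
  refine Finset.sum_congr rfl fun j _ => ?_
  push_cast
  ring

theorem lam_zero (w : InfinitePlace K) : lam (fun _ => (0 : ℝ)) w = 0 := by
  unfold lam
  simp

/-! ### real families -/

theorem RV_sg (a : 𝓞 K) : RV fun w => sg w a := by
  intro w hw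
  show (w.embedding (a : K)).im = 0
  rw [← InfinitePlace.embedding_of_isReal_apply hw]
  exact Complex.ofReal_im _

theorem RV_ofReal (f : InfinitePlace K → ℝ) : RV fun w => (f w : ℂ) := fun _ _ =>
  Complex.ofReal_im _

theorem RV_iff (v : InfinitePlace K → ℂ) : RV v ↔ ∀ w : InfinitePlace K, w.IsReal →
    ((v w).re : ℂ) = v w := by
  constructor
  · intro h w hw
    exact Complex.ext (by simp) (by simp [h w hw])
  · intro h w hw
    rw [← h w hw]
    exact Complex.ofReal_im _

theorem RV_add {u v : InfinitePlace K → ℂ} (hu : RV u) (hv : RV v) : RV fun w => u w + v w :=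
  fun w hw => by rw [Complex.add_im, hu w hw, hv w hw, add_zero]

theorem RV_sub {u v : InfinitePlace K → ℂ} (hu : RV u) (hv : RV v) : RV fun w => u w - v w :=
  fun w hw => by rw [Complex.sub_im, hu w hw, hv w hw, sub_zero]

theorem RV_neg {u : InfinitePlace K → ℂ} (hu : RV u) : RV fun w => -u w :=
  fun w hw => by rw [Complex.neg_im, hu w hw, neg_zero]

theorem RV_mul {u v : InfinitePlace K → ℂ} (hu : RV u) (hv : RV v) : RV fun w => u w * v w :=
  fun w hw => by rw [Complex.mul_im, hu w hw, hv w hw, mul_zero, zero_mul, add_zero]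

theorem RV_div {u v : InfinitePlace K → ℂ} (hu : RV u) (hv : RV v) : RV fun w => u w / v w := by
  rw [RV_iff] at *
  intro w hw
  rw [← hu w hw, ← hv w hw, ← Complex.ofReal_div, Complex.ofReal_re]

theorem RV_sum {ι : Type*} (s : Finset ι) {f : ι → InfinitePlace K → ℂ}
    (hf : ∀ i ∈ s, RV (f i)) : RV fun w => ∑ i ∈ s, f i w := fun w hw => by
  rw [Complex.im_sum]
  exact Finset.sum_eq_zero fun i hi => hf i hi w hw

theorem RV_pow {u : InfinitePlace K → ℂ} (hu : RV u) (k : ℕ) : RV fun w => u w ^ k := by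
  induction k with
  | zero =>
    simp only [pow_zero]
    intro w _
    exact Complex.one_im
  | succ k ih =>
    simp only [pow_succ]
    exact RV_mul ih hu

theorem RV_prod {ι : Type*} (s : Finset ι) {f : ι → InfinitePlace K → ℂ}
    (hf : ∀ i ∈ s, RV (f i)) : RV fun w => ∏ i ∈ s, f i w := by
  classical
  induction s using Finset.induction_on with
  | empty =>
    simp only [Finset.prod_empty]
    intro w _
    exact Complex.one_im
  | insert a s ha ih =>
    simp only [Finset.prod_insert ha]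
    exact RV_mul (hf a (Finset.mem_insert_self a s))
      (ih fun i hi => hf i (Finset.mem_insert_of_mem hi))

theorem RV_lam (r : IK K → ℝ) : RV (lam r) := by
  unfold lam
  exact RV_sum _ fun j _ => RV_mul (RV_ofReal fun _ => r j) (RV_sg _)

theorem RV_F {A : Idx n d → InfinitePlace K → ℂ} {x : Fin (n + 1) → InfinitePlace K → ℂ}
    (hA : ∀ t, RV (A t)) (hx : ∀ i, RV (x i)) :
    RV fun w => F (fun t => A t w) (fun i => x i w) := by
  unfold F mon
  exact RV_sum _ fun t _ => RV_mul (hA t) (RV_prod _ fun i _ => RV_pow (hx i) _)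

theorem RV_D {A : Idx n d → InfinitePlace K → ℂ} {x : Fin (n + 1) → InfinitePlace K → ℂ}
    (hA : ∀ t, RV (A t)) (hx : ∀ i, RV (x i)) (j : Fin (n + 1)) :
    RV fun w => D (fun t => A t w) (fun i => x i w) j := by
  unfold D dmon
  refine RV_sum _ fun t _ => RV_mul (hA t) (RV_mul ?_ (RV_prod _ fun i _ => RV_pow (hx i) _))
  exact RV_ofReal fun _ => (t.1 j : ℝ)

theorem RV_Dh {A : Idx n d → InfinitePlace K → ℂ} {x : Fin (n + 1) → InfinitePlace K → ℂ}
    (hA : ∀ t, RV (A t)) (hx : ∀ i, RV (x i)) (h : Fin (n + 1) → ℤ) :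
    RV fun w => Dh (fun t => A t w) (fun i => x i w) h := by
  unfold Dh
  refine RV_sum _ fun i _ => RV_mul (RV_D hA hx i) ?_
  have := RV_ofReal (K := K) fun _ => (h i : ℝ)
  simpa using this

theorem RV_gam (p : Par K n d) : RV p.gam :=
  RV_Dh (A := fun t w => lam (p.Ainf t) w) (x := fun i w => lam (p.xi i) w)
    (fun _ => RV_lam _) (fun _ => RV_lam _) p.h

/-- evaluation commutes with the embeddings -/
theorem F_sg (A : Idx n d → 𝓞 K) (x : Fin (n + 1) → 𝓞 K) (w : InfinitePlace K) :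
    F (fun t => sg w (A t)) (fun i => sg w (x i)) = sg w (F A x) := F_map (sg w) A x

theorem D_sg (A : Idx n d → 𝓞 K) (x : Fin (n + 1) → 𝓞 K) (j : Fin (n + 1)) (w : InfinitePlace K) :
    D (fun t => sg w (A t)) (fun i => sg w (x i)) j = sg w (D A x j) := D_map (sg w) A x j

/-! ### the product `np` -/

theorem np_pos {X : InfinitePlace K → ℝ} (h : ∀ w, 0 < X w) : 0 < np X :=
  Finset.prod_pos fun w _ => pow_pos (h w) _

theorem np_nonneg {X : InfinitePlace K → ℝ} (h : ∀ w, 0 ≤ X w) : 0 ≤ np X :=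
  Finset.prod_nonneg fun w _ => pow_nonneg (h w) _

theorem np_mono {X Y : InfinitePlace K → ℝ} (h : ∀ w, 0 ≤ X w) (hXY : ∀ w, X w ≤ Y w) :
    np X ≤ np Y :=
  Finset.prod_le_prod (fun w _ => pow_nonneg (h w) _) fun w _ => pow_le_pow_left₀ (h w) (hXY w) _

theorem np_mul (X Y : InfinitePlace K → ℝ) : np (fun w => X w * Y w) = np X * np Y := by
  unfold np
  rw [← Finset.prod_mul_distrib]
  exact Finset.prod_congr rfl fun w _ => mul_pow _ _ _

theorem np_div (X Y : InfinitePlace K → ℝ) : np (fun w => X w / Y w) = np X / np Y := by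
  unfold np
  rw [← Finset.prod_div_distrib]
  exact Finset.prod_congr rfl fun w _ => div_pow _ _ _

theorem np_pow (X : InfinitePlace K → ℝ) (k : ℕ) : np (fun w => X w ^ k) = np X ^ k := by
  unfold np
  rw [← Finset.prod_pow]
  exact Finset.prod_congr rfl fun w _ => by rw [← pow_mul, ← pow_mul, mul_comm]

theorem sum_mult : ∑ w : InfinitePlace K, w.mult = mK K := InfinitePlace.sum_mult_eq

theorem np_const (c : ℝ) : np (fun _ : InfinitePlace K => c) = c ^ mK K := by
  unfold np
  rw [Finset.prod_pow_eq_pow_sum, sum_mult]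

theorem mK_pos : 0 < mK K := Module.finrank_pos

theorem card_IK : Fintype.card (IK K) = mK K := by
  unfold mK
  rw [← RingOfIntegers.rank K, Module.finrank_eq_card_basis (RingOfIntegers.basis K)]

theorem card_places_le : Fintype.card (InfinitePlace K) ≤ mK K := by
  rw [← sum_mult, Fintype.card_eq_sum_ones]
  exact Finset.sum_le_sum fun w _ => InfinitePlace.mult_pos

theorem np_sg (a : 𝓞 K) : np (fun w => ‖sg w a‖) = |((Algebra.norm ℤ a : ℤ) : ℝ)| := by
  have h := InfinitePlace.prod_eq_abs_norm (a : K)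
  unfold np
  simp only [norm_sg]
  rw [h, ← Algebra.coe_norm_int]
  push_cast
  rfl

theorem one_le_np_sg {a : 𝓞 K} (ha : a ≠ 0) : 1 ≤ np (fun w => ‖sg w a‖) := by
  rw [np_sg]
  have h1 : Algebra.norm ℤ a ≠ 0 := Algebra.norm_ne_zero_iff.mpr ha
  exact_mod_cast Int.one_le_abs h1

theorem absNorm_le_np {I : Ideal (𝓞 K)} {a : 𝓞 K} (ha : a ∈ I) (h0 : a ≠ 0) :
    (Ideal.absNorm I : ℝ) ≤ np (fun w => ‖sg w a‖) := by
  rw [np_sg]
  have h1 : Ideal.absNorm I ∣ Ideal.absNorm (Ideal.span {a}) :=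
    Ideal.absNorm_dvd_absNorm_of_le ((Ideal.span_singleton_le_iff_mem I).mpr ha)
  rw [Ideal.absNorm_span_singleton] at h1
  have h2 : (Algebra.norm ℤ a).natAbs ≠ 0 :=
    Int.natAbs_ne_zero.mpr (Algebra.norm_ne_zero_iff.mpr h0)
  have h3 := Nat.le_of_dvd (Nat.pos_of_ne_zero h2) h1
  calc (Ideal.absNorm I : ℝ) ≤ ((Algebra.norm ℤ a).natAbs : ℝ) := by exact_mod_cast h3
    _ = |((Algebra.norm ℤ a : ℤ) : ℝ)| := by rw [Nat.cast_natAbs, Int.cast_abs]

theorem absNorm_pos {I : Ideal (𝓞 K)} (h : I ≠ ⊥) : 0 < Ideal.absNorm I :=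
  Nat.pos_of_ne_zero fun h0 => h (Ideal.absNorm_eq_zero_iff.mp h0)

end NFHP
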