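import Pool.Agent.Lib.MP_e426f4_ag.G.Alg
import Pool.Agent.Lib.MP_e426f4_ag.N.Sg

/-! Module NF-HD: Hensel data from local data. -/

namespace NFHP

open NumberField GenHP Finset Filter Topology

variable {n d : ℕ}

section ring
variable {R : Type*} [CommRing R]

private theorem hd_mon {ι : Type*} [DecidableEq ι] (s : Finset ι) (x y : ι → R)
    (hy : ∀ i j, y i * y j = 0) (t : ι → ℕ) :
    ∏ i ∈ s, (x i + y i) ^ t i = ∏ i ∈ s, x i ^ t i +
      ∑ j ∈ s, (t j : R) * (∏ i ∈ s, x i ^ (if i = j then t i - 1 else t i)) * y j := by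
  induction s using Finset.induction_on with
  | empty => simp
  | insert a s ha ih =>
    obtain ⟨q, hq⟩ := pow_add_mul (x a) 1 (y a) (t a)
    have hq' : (x a + y a) ^ t a = x a ^ t a + (t a : R) * x a ^ (t a - 1) * y a := by
      rw [mul_one] at hq
      rw [hq]
      have : y a ^ 2 = 0 := by rw [pow_two]; exact hy a a
      rw [this]
      ring
    rw [Finset.prod_insert ha, Finset.prod_insert ha, Finset.sum_insert ha, ih, hq',
      Finset.prod_insert ha, if_pos rfl]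
    have h1 : ∏ i ∈ s, x i ^ (if i = a then t i - 1 else t i) = ∏ i ∈ s, x i ^ t i := by
      refine Finset.prod_congr rfl fun i hi => ?_
      rw [if_neg]
      rintro rfl
      exact ha hi
    have h2 : ∑ j ∈ s, (t j : R) *
        (∏ i ∈ insert a s, x i ^ (if i = j then t i - 1 else t i)) * y j =
        x a ^ t a * ∑ j ∈ s, (t j : R) *
        (∏ i ∈ s, x i ^ (if i = j then t i - 1 else t i)) * y j := by
      rw [Finset.mul_sum]
      refine Finset.sum_congr rfl fun j hj => ?_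
      rw [Finset.prod_insert ha, if_neg (by rintro rfl; exact ha hj)]
      ring
    have h3 : y a * ∑ j ∈ s, (t j : R) *
        (∏ i ∈ s, x i ^ (if i = j then t i - 1 else t i)) * y j = 0 := by
      rw [Finset.mul_sum]
      refine Finset.sum_eq_zero fun j _ => ?_
      calc y a * ((t j : R) * (∏ i ∈ s, x i ^ (if i = j then t i - 1 else t i)) * y j)
          = ((t j : R) * (∏ i ∈ s, x i ^ (if i = j then t i - 1 else t i))) * (y a * y j) := by ring
        _ = 0 := by rw [hy, mul_zero]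
    rw [h1, h2]
    linear_combination ((t a : R) * x a ^ (t a - 1)) * h3

private theorem hd_F_sq_zero (A : Idx n d → R) (x y : Fin (n + 1) → R)
    (hy : ∀ i j, y i * y j = 0) :
    F A (fun i => x i + y i) = F A x + ∑ j, D A x j * y j := by
  have h2 : ∑ j, D A x j * y j = ∑ t : Idx n d, A t * ∑ j, dmon x j t.1 * y j := by
    simp only [D, Finset.sum_mul, Finset.mul_sum]
    rw [Finset.sum_comm]
    refine Finset.sum_congr rfl fun t _ => Finset.sum_congr rfl fun j _ => by ring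
  rw [h2]
  unfold F
  rw [← Finset.sum_add_distrib]
  refine Finset.sum_congr rfl fun t _ => ?_
  have h1 := hd_mon univ x y hy t.1
  unfold mon dmon
  rw [h1]
  ring

private theorem hd_taylor (I : Ideal R) (A : Idx n d → R) (x y : Fin (n + 1) → R)
    (hy : ∀ i, y i ∈ I) :
    F A (fun i => x i + y i) - F A x - ∑ j, D A x j * y j ∈ I ^ 2 := by
  rw [← Ideal.Quotient.eq_zero_iff_mem]
  have h := hd_F_sq_zero (fun t => Ideal.Quotient.mk (I ^ 2) (A t))
    (fun i => Ideal.Quotient.mk (I ^ 2) (x i)) (fun i => Ideal.Quotient.mk (I ^ 2) (y i)) (by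
      intro i j
      rw [← map_mul, Ideal.Quotient.eq_zero_iff_mem, pow_two]
      exact Ideal.mul_mem_mul (hy i) (hy j))
  have h1 := F_map (Ideal.Quotient.mk (I ^ 2)) A (fun i => x i + y i)
  simp only [map_add] at h1
  rw [map_sub, map_sub, map_sum, ← h1, h, F_map]
  simp only [map_mul, D_map]
  ring

private theorem hd_F_congr (I : Ideal R) (A A' : Idx n d → R) (x x' : Fin (n + 1) → R)
    (hA : ∀ m, A m - A' m ∈ I) (hx : ∀ i, x i - x' i ∈ I) : F A x - F A' x' ∈ I := by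
  rw [← Ideal.Quotient.eq, ← F_map, ← F_map]
  congr 1
  · funext m
    exact Ideal.Quotient.eq.2 (hA m)
  · funext i
    exact Ideal.Quotient.eq.2 (hx i)

private theorem hd_D_congr (I : Ideal R) (A A' : Idx n d → R) (x x' : Fin (n + 1) → R)
    (j : Fin (n + 1)) (hA : ∀ m, A m - A' m ∈ I) (hx : ∀ i, x i - x' i ∈ I) :
    D A x j - D A' x' j ∈ I := by
  rw [← Ideal.Quotient.eq, ← D_map, ← D_map]
  congr 1
  · funext m
    exact Ideal.Quotient.eq.2 (hA m)
  · funext i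
    exact Ideal.Quotient.eq.2 (hx i)

private theorem hd_local_F (P : Ideal R) (a c : ℕ) (hc : c < a) (A A0 : Idx n d → R)
    (xp X : Fin (n + 1) → R) (hA : ∀ m, A m - A0 m ∈ P ^ (2 * a)) (hF : F A0 xp ∈ P ^ (2 * a))
    (hD : ∀ j, D A0 xp j ∈ P ^ c) (hX : ∀ i, X i - xp i ∈ P ^ (2 * a - c)) :
    F A X ∈ P ^ (2 * a) := by
  have h1 := hd_taylor (P ^ (2 * a - c)) A xp (fun i => X i - xp i) hX
  have hXe : (fun i => xp i + (X i - xp i)) = X := by
    funext i
    ring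
  rw [hXe, ← pow_mul] at h1
  have h1' : F A X - F A xp - ∑ j, D A xp j * (X j - xp j) ∈ P ^ (2 * a) :=
    Ideal.pow_le_pow_right (by omega) h1
  have h2 : F A xp ∈ P ^ (2 * a) := by
    have := hd_F_congr (P ^ (2 * a)) A A0 xp xp hA (fun i => by simp)
    have h3 := Ideal.add_mem _ this hF
    simpa using h3
  have h3 : ∀ j, D A xp j ∈ P ^ c := by
    intro j
    have := hd_D_congr (P ^ c) A A0 xp xp j (fun m => Ideal.pow_le_pow_right (by omega) (hA m))
      (fun i => by simp)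
    have h3 := Ideal.add_mem _ this (hD j)
    simpa using h3
  have h4 : ∑ j, D A xp j * (X j - xp j) ∈ P ^ (2 * a) := by
    refine Ideal.sum_mem _ fun j _ => ?_
    have h5 := Ideal.mul_mem_mul (h3 j) (hX j)
    rw [← pow_add] at h5
    have h6 : c + (2 * a - c) = 2 * a := by omega
    rwa [h6] at h5
  have h5 := Ideal.add_mem _ (Ideal.add_mem _ h1' h2) h4
  have h6 : F A X - F A xp - ∑ j, D A xp j * (X j - xp j) + F A xp +
      ∑ j, D A xp j * (X j - xp j) = F A X := by ring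
  rwa [h6] at h5

private theorem hd_local_D (P : Ideal R) (a c : ℕ) (hc : c < a) (A A0 : Idx n d → R)
    (xp X : Fin (n + 1) → R) (hA : ∀ m, A m - A0 m ∈ P ^ (2 * a))
    (hD : ∀ j, D A0 xp j ∈ P ^ c) (hX : ∀ i, X i - xp i ∈ P ^ (2 * a - c))
    (jp : Fin (n + 1)) (hj : D A0 xp jp ∉ P ^ (c + 1)) (h : Fin (n + 1) → R)
    (hh : ∀ i, h i - (if i = jp then 1 else 0) ∈ P) :
    ∑ j, D A X j * h j ∈ P ^ c ∧ ∑ j, D A X j * h j ∉ P ^ (c + 1) := by
  have h1 : ∀ j, D A X j - D A0 xp j ∈ P ^ (c + 1) := fun j =>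
    hd_D_congr _ A A0 X xp j (fun m => Ideal.pow_le_pow_right (by omega) (hA m))
      (fun i => Ideal.pow_le_pow_right (by omega) (hX i))
  have h2 : ∀ j, D A X j ∈ P ^ c := by
    intro j
    have h3 := Ideal.add_mem _ (Ideal.pow_le_pow_right (Nat.le_succ c) (h1 j)) (hD j)
    simpa using h3
  have h3 : ∑ j, D A X j * h j - D A X jp ∈ P ^ (c + 1) := by
    have h4 : ∑ j, D A X j * h j - D A X jp
        = ∑ j, D A X j * (h j - if j = jp then 1 else 0) := by
      simp only [mul_sub, Finset.sum_sub_distrib]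
      simp
    rw [h4]
    refine Ideal.sum_mem _ fun j _ => ?_
    rw [pow_succ]
    exact Ideal.mul_mem_mul (h2 j) (hh j)
  refine ⟨Ideal.sum_mem _ fun j _ => Ideal.mul_mem_right _ _ (h2 j), fun h4 => hj ?_⟩
  have h5 : D A0 xp jp = ∑ j, D A X j * h j - (∑ j, D A X j * h j - D A X jp)
      - (D A X jp - D A0 xp jp) := by ring
  rw [h5]
  exact Ideal.sub_mem _ (Ideal.sub_mem _ h4 h3) (h1 jp)

end ring

section dedekind
variable {R : Type*} [CommRing R] [IsDedekindDomain R]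

private theorem hd_emult (P : Ideal R) (x : R) (a : ℕ) (hx : x ∈ P ^ a) (hx' : x ∉ P ^ (a + 1)) :
    emultiplicity P (Ideal.span {x}) = a := by
  rw [emultiplicity_eq_coe]
  exact ⟨Ideal.dvd_span_singleton.2 hx, fun h => hx' (Ideal.dvd_span_singleton.1 h)⟩

private theorem hd_mul_notMem (P : Ideal R) (hP : Prime P) (x y : R) (a b : ℕ) (hx : x ∈ P ^ a)
    (hx' : x ∉ P ^ (a + 1)) (hy : y ∈ P ^ b) (hy' : y ∉ P ^ (b + 1)) :
    x * y ∉ P ^ (a + b + 1) := by
  intro h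
  have h1 : emultiplicity P (Ideal.span {x * y}) = a + b := by
    rw [← Ideal.span_singleton_mul_span_singleton, emultiplicity_mul hP, hd_emult P x a hx hx',
      hd_emult P y b hy hy']
  have h2 := le_emultiplicity_of_pow_dvd (Ideal.dvd_span_singleton.2 h)
  rw [h1] at h2
  have h3 : ((a + b + 1 : ℕ) : ℕ∞) ≤ ((a + b : ℕ) : ℕ∞) := by
    rw [Nat.cast_add a b]
    exact h2
  rw [Nat.cast_le] at h3
  omega

private theorem hd_local_E (P : Ideal R) (hP : Prime P) (a c : ℕ) (hc : c < a) (p0 : R)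
    (hp0 : p0 ∈ P ^ (2 * a - c)) (hp0' : p0 ∉ P ^ (2 * a - c + 1)) (S t r : R)
    (hS : S ∈ P ^ c) (hS' : S ∉ P ^ (c + 1)) :
    p0 * S + t * p0 ^ 2 * r ∈ P ^ (2 * a) ∧ p0 * S + t * p0 ^ 2 * r ∉ P ^ (2 * a + 1) := by
  have h1 : p0 * S ∈ P ^ (2 * a) := by
    have h5 := Ideal.mul_mem_mul hp0 hS
    rw [← pow_add] at h5
    have h6 : 2 * a - c + c = 2 * a := by omega
    rwa [h6] at h5
  have h2 : t * p0 ^ 2 * r ∈ P ^ (2 * a + 1) := by
    refine Ideal.mul_mem_right _ _ (Ideal.mul_mem_left _ _ ?_)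
    have h5 := Ideal.mul_mem_mul hp0 hp0
    rw [← pow_add] at h5
    rw [pow_two]
    exact Ideal.pow_le_pow_right (by omega) h5
  refine ⟨Ideal.add_mem _ h1 (Ideal.pow_le_pow_right (Nat.le_succ _) h2), fun h3 => ?_⟩
  have h4 : p0 * S ∈ P ^ (2 * a + 1) := by
    have := Ideal.sub_mem _ h3 h2
    simpa using this
  have h5 := hd_mul_notMem P hP p0 S (2 * a - c) c hp0 hp0' hS hS'
  have h6 : 2 * a - c + c + 1 = 2 * a + 1 := by omega
  rw [h6] at h5
  exact h5 h4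

end dedekind

variable {K : Type} [Field K] [NumberField K]

theorem hens_of_local (hd : 1 ≤ d) (w k : ℕ) (hw : 2 ≤ w) (hk : 1 ≤ k) (A0 : Idx n d → 𝓞 K)
    (hloc : ∀ P : Ideal (𝓞 K), P.IsMaximal → (primorial w : 𝓞 K) ∈ P →
      GoodP P (k * vW (primorial w) P) A0) :
    ∃ (P : Ideal (𝓞 K)) (x0 : Fin (n + 1) → 𝓞 K), P ≠ ⊥ ∧
      Hens ((primorial w) ^ (2 * k)) (primorial w) P A0 x0 := by
  classical
  obtain ⟨W, hW⟩ : ∃ W : ℕ, W = primorial w := ⟨_, rfl⟩
  rw [← hW] at hloc ⊢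
  have hW0 : 0 < W := by rw [hW]; exact primorial_pos w
  have hWne : (W : 𝓞 K) ≠ 0 := by exact_mod_cast hW0.ne'
  obtain ⟨Wi, hWi⟩ : ∃ Wi : Ideal (𝓞 K), Wi = Ideal.span {(W : 𝓞 K)} := ⟨_, rfl⟩
  have hWi0 : Wi ≠ ⊥ := by
    rw [hWi, Ne, Ideal.span_singleton_eq_bot]
    exact hWne
  obtain ⟨S, hS⟩ : ∃ S : Finset (Ideal (𝓞 K)),
    S = (UniqueFactorizationMonoid.normalizedFactors Wi).toFinset := ⟨_, rfl⟩
  have hSmem : ∀ P, P ∈ S ↔ P.IsPrime ∧ Wi ≤ P := fun P => by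
    rw [hS, Multiset.mem_toFinset, Ideal.mem_normalizedFactors_iff hWi0]
  have hSbot : ∀ P ∈ S, P ≠ ⊥ := by
    intro P hP h0
    have := ((hSmem P).1 hP).2
    rw [h0] at this
    exact hWi0 (le_bot_iff.1 this)
  have hSprime : ∀ P ∈ S, Prime P := fun P hP =>
    Ideal.prime_of_isPrime (hSbot P hP) ((hSmem P).1 hP).1
  have hSmax : ∀ P ∈ S, P.IsMaximal := fun P hP =>
    Ideal.IsPrime.isMaximal ((hSmem P).1 hP).1 (hSbot P hP)
  have hSW : ∀ P ∈ S, (W : 𝓞 K) ∈ P := fun P hP => by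
    have := ((hSmem P).1 hP).2
    rw [hWi, Ideal.span_singleton_le_iff_mem] at this
    exact this
  have hSof : ∀ P : Ideal (𝓞 K), P.IsMaximal → (W : 𝓞 K) ∈ P → P ∈ S := fun P hP h => by
    rw [hSmem]
    refine ⟨hP.isPrime, ?_⟩
    rw [hWi, Ideal.span_singleton_le_iff_mem]
    exact h
  -- the multiplicity
  have hmul : ∀ P ∈ S, emultiplicity P Wi = (vW W P : ℕ) := by
    intro P hP
    have hfin : FiniteMultiplicity P Wi :=
      FiniteMultiplicity.of_prime_left (hSprime P hP) hWi0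
    rw [hfin.emultiplicity_eq_multiplicity]
    unfold vW
    rw [hWi]
  obtain ⟨a, ha⟩ : ∃ a : Ideal (𝓞 K) → ℕ, a = fun P => k * vW W P := ⟨_, rfl⟩
  -- the modulus `Q`
  obtain ⟨Q, hQ⟩ : ∃ Q : ℕ, Q = W ^ (2 * k) := ⟨_, rfl⟩
  have hQi : Ideal.span {(Q : 𝓞 K)} = Wi ^ (2 * k) := by
    rw [hQ, hWi, Ideal.span_singleton_pow]
    push_cast
    rfl
  have hQmul : ∀ P ∈ S, emultiplicity P (Ideal.span {(Q : 𝓞 K)}) = ((2 * a P : ℕ) : ℕ∞) := by
    intro P hP
    rw [hQi, emultiplicity_pow (hSprime P hP), hmul P hP, ha]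
    push_cast
    ring
  have hdvdQ : ∀ P ∈ S, (Q : 𝓞 K) ∈ P ^ (2 * a P) := by
    intro P hP
    rw [← Ideal.dvd_span_singleton]
    exact pow_dvd_of_le_emultiplicity (hQmul P hP).ge
  have hQdvd : ∀ z : 𝓞 K, (∀ P ∈ S, z ∈ P ^ (2 * a P)) → (Q : 𝓞 K) ∣ z := by
    intro z hz
    rw [← Ideal.span_singleton_le_span_singleton, ← Ideal.dvd_iff_le]
    have hQ0 : Ideal.span {(Q : 𝓞 K)} ≠ 0 := by
      rw [hQi]
      exact pow_ne_zero _ hWi0
    rw [UniqueFactorizationMonoid.dvd_iff_emultiplicity_le hQ0]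
    intro p hp
    by_cases hpS : p ∈ S
    · rw [hQmul p hpS]
      exact le_emultiplicity_of_pow_dvd (Ideal.dvd_span_singleton.2 (hz p hpS))
    · have h0 : emultiplicity p (Ideal.span {(Q : 𝓞 K)}) = 0 := by
        rw [emultiplicity_eq_zero, hQi]
        intro h
        have h1 := hp.dvd_of_dvd_pow h
        apply hpS
        rw [hSmem]
        exact ⟨Ideal.isPrime_of_prime hp, Ideal.dvd_iff_le.1 h1⟩
      rw [h0]
      exact zero_le
  have hcopW : ∀ z : 𝓞 K, (∀ P ∈ S, z ∉ P) → IsCoprime z (W : 𝓞 K) := by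
    intro z hz
    rw [← Ideal.isCoprime_span_singleton_iff, Ideal.isCoprime_iff_sup_eq]
    by_contra hne
    obtain ⟨M, hM, hle⟩ := Ideal.exists_le_maximal _ hne
    have h1 : z ∈ M := hle (Ideal.mem_sup_left (Ideal.mem_span_singleton_self z))
    have h2 : (W : 𝓞 K) ∈ M := hle (Ideal.mem_sup_right (Ideal.mem_span_singleton_self _))
    exact hz M (hSof M hM h2) h1
  -- local data
  have hdat : ∀ P : Ideal (𝓞 K), ∃ (x : Fin (n + 1) → 𝓞 K) (i0 : Fin (n + 1)) (c : ℕ)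
      (jp : Fin (n + 1)), P ∈ S →
      (x i0 ∉ P ∧ F A0 x ∈ P ^ (2 * a P) ∧ c < a P ∧
        (∀ j, D A0 x j ∈ P ^ c) ∧ D A0 x jp ∉ P ^ (c + 1)) := by
    intro P
    by_cases hp : P ∈ S
    · obtain ⟨x, ⟨i0, hi0⟩, hF, ⟨j, hj⟩⟩ := hloc P (hSmax P hp) (hSW P hp)
      have hex : ∃ b : ℕ, ∃ j, D A0 x j ∉ P ^ b := ⟨k * vW W P, j, hj⟩
      obtain ⟨jp, hjp⟩ := Nat.find_spec hex
      have hle : Nat.find hex ≤ k * vW W P := Nat.find_min' hex ⟨j, hj⟩
      have hpos : 0 < Nat.find hex := by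
        rcases Nat.eq_zero_or_pos (Nat.find hex) with h0 | h0
        · rw [h0, pow_zero] at hjp
          exact absurd (by rw [Ideal.one_eq_top]; exact Submodule.mem_top) hjp
        · exact h0
      refine ⟨x, i0, Nat.find hex - 1, jp, fun _ => ⟨hi0, ?_, ?_, fun j' => ?_, ?_⟩⟩
      · rw [ha]; exact hF
      · rw [ha]
        show Nat.find hex - 1 < k * vW W P
        omega
      · by_contra hcon
        exact Nat.find_min hex (m := Nat.find hex - 1) (by omega) ⟨j', hcon⟩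
      · have : Nat.find hex - 1 + 1 = Nat.find hex := by omega
        rw [this]; exact hjp
    · exact ⟨0, 0, 0, 0, fun h => absurd h hp⟩
  choose xp ip c jp hprop using hdat
  -- uniformizing elements
  have hpi : ∀ P : Ideal (𝓞 K), ∃ y : 𝓞 K, P ∈ S →
      y ∈ P ^ (2 * a P - c P) ∧ y ∉ P ^ (2 * a P - c P + 1) := by
    intro P
    by_cases hp : P ∈ S
    · obtain ⟨y, h1, h2⟩ := Ideal.exists_mem_pow_notMem_pow_succ P (hSbot P hp)
        (hSmax P hp).ne_top (2 * a P - c P)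
      exact ⟨y, fun _ => ⟨h1, h2⟩⟩
    · exact ⟨0, fun h => absurd h hp⟩
  choose pi hpi using hpi
  have hcrt : ∀ (e : Ideal (𝓞 K) → ℕ) (f : Ideal (𝓞 K) → 𝓞 K), ∃ y : 𝓞 K, ∀ P ∈ S,
      y - f P ∈ P ^ e P := by
    intro e f
    obtain ⟨y, hy⟩ := IsDedekindDomain.exists_forall_sub_mem_ideal (s := S)
      (fun P : Ideal (𝓞 K) => P) e hSprime (fun i _ j _ h => h) (fun P => f P)
    exact ⟨y, fun P hP => hy P hP⟩
  choose x0 hx0 using fun i => hcrt (fun P => 2 * a P) (fun P => xp P i)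
  choose h hh using fun i : Fin (n + 1) => hcrt (fun _ => 1) (fun P => if i = jp P then 1 else 0)
  choose c0 hc0 using fun i : Fin (n + 1) => hcrt (fun _ => 1) (fun P => if i = ip P then 1 else 0)
  obtain ⟨p0, hp0⟩ := hcrt (fun P => 2 * a P - c P + 1) pi
  simp only [pow_one] at hh hc0
  have hp0a : ∀ P ∈ S, p0 ∈ P ^ (2 * a P - c P) := by
    intro P hP
    have := Ideal.add_mem _ (Ideal.pow_le_pow_right (Nat.le_succ _) (hp0 P hP)) (hpi P hP).1
    simpa using this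
  have hp0b : ∀ P ∈ S, p0 ∉ P ^ (2 * a P - c P + 1) := by
    intro P hP hcon
    have := Ideal.sub_mem _ hcon (hp0 P hP)
    apply (hpi P hP).2
    simpa using this
  -- the modulus for the points
  obtain ⟨I, hI⟩ : ∃ I : Ideal (𝓞 K), I = S.inf fun P => P ^ (2 * a P - c P) := ⟨_, rfl⟩
  have hImem : ∀ z, z ∈ I ↔ ∀ P ∈ S, z ∈ P ^ (2 * a P - c P) := fun z => by
    rw [hI, Submodule.mem_finsetInf]
  have hQI : (Q : 𝓞 K) ∈ I := by
    rw [hImem]
    intro P hP
    exact Ideal.pow_le_pow_right (Nat.sub_le _ _) (hdvdQ P hP)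
  have hX : ∀ P ∈ S, ∀ x : Fin (n + 1) → 𝓞 K, (∀ i, x i - x0 i ∈ I) → ∀ i,
      x i - xp P i ∈ P ^ (2 * a P - c P) := by
    intro P hP x hx i
    have h1 : x i - xp P i = (x i - x0 i) + (x0 i - xp P i) := by ring
    rw [h1]
    exact Ideal.add_mem _ ((hImem _).1 (hx i) P hP)
      (Ideal.pow_le_pow_right (Nat.sub_le _ _) (hx0 i P hP))
  have hAP : ∀ A : Idx n d → 𝓞 K, (∀ t, (Q : 𝓞 K) ∣ A t - A0 t) → ∀ P ∈ S, ∀ t,
      A t - A0 t ∈ P ^ (2 * a P) := by
    intro A hA P hP t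
    obtain ⟨v, hv⟩ := hA t
    rw [hv]
    exact Ideal.mul_mem_right _ _ (hdvdQ P hP)
  rw [← hQ]
  refine ⟨I, x0, ?_, hQI, ⟨2 * k, hQ⟩, ?_, ?_, fun i => p0 * h i, ?_, ?_⟩
  · intro h0
    rw [h0, Ideal.mem_bot] at hQI
    have : (Q : 𝓞 K) ≠ 0 := by
      rw [hQ]
      push_cast
      exact pow_ne_zero _ hWne
    exact this hQI
  · intro A hA x hx
    refine hQdvd _ fun P hP => ?_
    obtain ⟨-, hF, hc, hD, -⟩ := hprop P hP
    exact hd_local_F P (a P) (c P) hc A A0 (xp P) x (hAP A hA P hP) hF hD (hX P hP x hx)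
  · intro x hx
    refine ⟨c0, hcopW _ fun P hP hdiv => ?_⟩
    obtain ⟨hi, -, hc, -, -⟩ := hprop P hP
    apply hi
    have hXp : ∀ i, x i - xp P i ∈ P := fun i =>
      Ideal.pow_le_self (by omega) (hX P hP x hx i)
    have h1 : ∑ i, c0 i * x i - xp P (ip P) ∈ P := by
      have h2 : ∑ i, c0 i * x i - xp P (ip P) =
          ∑ i, (c0 i * (x i - xp P i)
            + (c0 i - if i = ip P then 1 else 0) * xp P i) := by
        have h3 : xp P (ip P) = ∑ i, (if i = ip P then 1 else 0) * xp P i := by simp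
        rw [h3, ← Finset.sum_sub_distrib]
        exact Finset.sum_congr rfl fun i _ => by ring
      rw [h2]
      exact Ideal.sum_mem _ fun i _ => Ideal.add_mem _ (Ideal.mul_mem_left _ _ (hXp i))
        (Ideal.mul_mem_right _ _ (hc0 i P hP))
    have := Ideal.sub_mem _ hdiv h1
    simpa using this
  · intro i
    rw [hImem]
    intro P hP
    exact Ideal.mul_mem_right _ _ (hp0a P hP)
  · intro A hA x hx t
    obtain ⟨r, hr⟩ := F_add_smul A x h (t * p0)
    obtain ⟨Sg, hSg⟩ : ∃ Sg : 𝓞 K, Sg = ∑ j, D A x j * h j := ⟨_, rfl⟩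
    have hloc2 : ∀ P ∈ S, p0 * Sg + t * p0 ^ 2 * r ∈ P ^ (2 * a P) ∧
        p0 * Sg + t * p0 ^ 2 * r ∉ P ^ (2 * a P + 1) := by
      intro P hP
      obtain ⟨-, hF, hc, hD, hj⟩ := hprop P hP
      have h2 := hd_local_D P (a P) (c P) hc A A0 (xp P) x (hAP A hA P hP) hD (hX P hP x hx)
        (jp P) hj h (fun i => hh i P hP)
      rw [← hSg] at h2
      exact hd_local_E P (hSprime P hP) (a P) (c P) hc p0 (hp0a P hP) (hp0b P hP) Sg t r
        h2.1 h2.2
    obtain ⟨e, he⟩ := hQdvd _ fun P hP => (hloc2 P hP).1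
    refine ⟨e, hcopW e fun P hP hdiv => (hloc2 P hP).2 ?_, ?_⟩
    · rw [he, pow_succ]
      exact Ideal.mul_mem_mul (hdvdQ P hP) hdiv
    · have h3 : (fun i => x i + t * (p0 * h i)) = fun i => x i + (t * p0) * h i := by
        funext i; ring
      rw [h3, hr, ← hSg]
      have h4 : F A x + t * p0 * Sg + (t * p0) ^ 2 * r - F A x =
          t * (p0 * Sg + t * p0 ^ 2 * r) := by ring
      rw [h4, he]
      ring

end NFHP
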