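import Pool.Agent.Lib.MP_e426f4_ag.N.ShortTwo
import Pool.Agent.Lib.MP_e426f4_ag.N.Lat

/-! Module NF-CP: crude count of the forms vanishing at a pair of points. -/

namespace NFHP

open NumberField GenHP Finset Filter Topology

variable {K : Type} [Field K] [NumberField K] {n d : ℕ}

/-- counting by translation along the levels `s ∈ I`, `‖s‖_w ≤ X w` -/
theorem levels_countK {c : ℝ} (hc : ∀ I : Ideal (𝓞 K), I ≠ ⊥ → ∀ X : InfinitePlace K → ℝ,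
      (∀ w, 0 < X w) → c * (np X / Ideal.absNorm I) ≤
        (Set.ncard {a : 𝓞 K | a ∈ I ∧ ∀ w, ‖sg w a‖ ≤ X w} : ℝ))
    (S U : Set (Idx n d → 𝓞 K)) (hT : U.Finite) (z : Fin (n + 1) → 𝓞 K) (I : Ideal (𝓞 K))
    (hI : I ≠ ⊥) (X : InfinitePlace K → ℝ) (hX : ∀ w, 0 < X w) (hS : ∀ A ∈ S, F A z = 0)
    (h : ∀ s ∈ I, (∀ w, ‖sg w s‖ ≤ X w) →
      ∃ t : Idx n d → 𝓞 K, F t z = s ∧ ∀ A ∈ S, (fun i => A i + t i) ∈ U) :
    (S.ncard : ℝ) * (c * (np X / Ideal.absNorm I)) ≤ U.ncard := by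
  set L : Set (𝓞 K) := {a : 𝓞 K | a ∈ I ∧ ∀ w, ‖sg w a‖ ≤ X w} with hL
  have hlev : ∀ s : 𝓞 K, ∃ t : Idx n d → 𝓞 K, s ∈ L →
      (F t z = s ∧ ∀ A ∈ S, (fun i => A i + t i) ∈ U) := by
    intro s
    by_cases hs : s ∈ L
    · obtain ⟨t, h1, h2⟩ := h s hs.1 hs.2
      exact ⟨t, fun _ => ⟨h1, h2⟩⟩
    · exact ⟨0, fun h => absurd h hs⟩
  choose t ht using hlev
  have hle : (S ×ˢ L).ncard ≤ U.ncard := by
    refine Set.ncard_le_ncard_of_injOn (fun p i => p.1 i + t p.2 i) ?_ ?_ hT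
    · rintro ⟨A, s⟩ ⟨hA, hs⟩
      exact (ht s hs).2 A hA
    · rintro ⟨A, s⟩ ⟨hA, hs⟩ ⟨A', s'⟩ ⟨hA', hs'⟩ heq
      simp only at heq hA hs hA' hs'
      have e1 : F (fun i => A i + t s i) z = s := by
        rw [F_add, hS A hA, (ht s hs).1, zero_add]
      have e2 : F (fun i => A' i + t s' i) z = s' := by
        rw [F_add, hS A' hA', (ht s' hs').1, zero_add]
      have e4 : s = s' := by rw [← e1, ← e2, heq]
      subst e4
      congr 1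
      funext i
      have := congrFun heq i
      simpa using this
  rw [Set.ncard_prod] at hle
  have hle' : (S.ncard : ℝ) * (L.ncard : ℝ) ≤ U.ncard := by exact_mod_cast hle
  refine le_trans ?_ hle'
  exact mul_le_mul_of_nonneg_left (hc I hI X hX) (Nat.cast_nonneg _)

theorem c3_pos (n d : ℕ) : 0 < c3 n d := by
  unfold c3
  positivity

theorem crude_pair (K : Type) [Field K] [NumberField K] (n d : ℕ) (hd : 2 ≤ d) :
    ∃ C : ℝ, 0 < C ∧ ∀ (B : ℕ), 1 ≤ B → ∀ x y : Fin (n + 1) → 𝓞 K, Prim x → Prim y →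
    ∀ mu : ℝ, 1 ≤ mu → Ortho mu x → Ortho mu y →
    (∀ w, ∃ i, (B : ℝ) / 2 ≤ ‖sg w (x i)‖ ∧ (B : ℝ) / 2 ≤ ‖sg w (y i)‖) →
    x ∈ Bx n (2 * (B : ℝ)) → y ∈ Bx n (2 * (B : ℝ)) → mgI x y ≠ ⊥ →
    ∀ H : ℝ, 1 ≤ H → 2 * c2 K n d * mu ^ 2 ≤ H → 2 * c1 K n d * mu ≤ H →
      {A : Idx n d → 𝓞 K | (∀ m w, ‖sg w (A m)‖ ≤ H) ∧ F A x = 0 ∧ F A y = 0}.Finite ∧
      (Set.ncard {A : Idx n d → 𝓞 K | (∀ m w, ‖sg w (A m)‖ ≤ H) ∧ F A x = 0 ∧ F A y = 0} : ℝ) ≤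
        C * H ^ (mK K * NN n d) * mgN x y /
          np (fun w => H ^ 2 * (B : ℝ) ^ (2 * d - 2) * dl w x y) := by
  obtain ⟨c, hc0, hc⟩ := lat_lower K
  obtain ⟨C', hC', hlat⟩ := lat_upper_vec K
  have hc3 := c3_pos n d
  refine ⟨(2 * C' * 3 ^ mK K) ^ NN n d * (2 * c3 n d * 2 ^ (d + 1)) ^ mK K / c ^ 2,
    by positivity, ?_⟩
  intro B hB x y hx hy mu hmu hgx hgy hi hx2 hy2 h H hH h1 h2
  have hBpos : (0 : ℝ) < B := by exact_mod_cast hB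
  have hdpos : ∀ w, 0 < dl w x y := fun w => dl_pos x y h w
  have hmpos : (0 : ℝ) < mgN x y := by exact_mod_cast mgN_pos x y h
  have hHpos : 0 < H := by linarith
  -- boxes
  have hbox : ∀ X : ℝ, 0 < X → {A : Idx n d → 𝓞 K | ∀ m w, ‖sg w (A m)‖ ≤ X}.Finite ∧
      (Set.ncard {A : Idx n d → 𝓞 K | ∀ m w, ‖sg w (A m)‖ ≤ X} : ℝ) ≤
        (C' * (X ^ mK K + 1)) ^ NN n d := by
    intro X hX
    obtain ⟨h3, h4⟩ := hlat (Idx n d) ⊤ (by simp) (fun _ => X) (fun _ => hX) (fun _ _ => 0)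
    have e1 : {a : Idx n d → 𝓞 K | (∀ i, a i ∈ (⊤ : Ideal (𝓞 K))) ∧ ∀ i w,
        ‖sg w (a i) - 0‖ ≤ X} = {A : Idx n d → 𝓞 K | ∀ m w, ‖sg w (A m)‖ ≤ X} := by
      ext a
      simp
    rw [e1] at h3 h4
    rw [np_const, Ideal.absNorm_top, Nat.cast_one, div_one] at h4
    exact ⟨h3, h4⟩
  let L1 : InfinitePlace K → ℝ := fun w => H * (B : ℝ) ^ (d - 2) * dl w x y / (2 * c3 n d)
  let L2 : InfinitePlace K → ℝ := fun _ => H * (B : ℝ) ^ d / 2 ^ (d + 1)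
  have hL1 : ∀ w, 0 < L1 w := by
    intro w
    have := hdpos w
    change 0 < H * (B : ℝ) ^ (d - 2) * dl w x y / (2 * c3 n d)
    positivity
  have hL2 : ∀ w, 0 < L2 w := by
    intro w
    change 0 < H * (B : ℝ) ^ d / 2 ^ (d + 1)
    positivity
  have hstep1 := levels_countK hc
    {A : Idx n d → 𝓞 K | (∀ m w, ‖sg w (A m)‖ ≤ H) ∧ F A x = 0 ∧ F A y = 0}
    {A : Idx n d → 𝓞 K | (∀ m w, ‖sg w (A m)‖ ≤ 2 * H) ∧ F A x = 0}
    ((hbox (2 * H) (by linarith)).1.subset fun A hA => hA.1) y (mgI x y) h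
    L1 hL1 (fun A hA => hA.2.2) (by
      intro s hs hsL
      obtain ⟨t, htx, hty, htm⟩ := short_pair hd B hB x y hx hy mu hmu hgx hgy hi hx2 hy2
        h s hs
      refine ⟨t, hty, fun A hA => ⟨fun m w => ?_, ?_⟩⟩
      · have hdw := hdpos w
        have h3 : c3 n d * ‖sg w s‖ / ((B : ℝ) ^ (d - 2) * dl w x y) ≤ H / 2 := by
          rw [div_le_div_iff₀ (by positivity) (by norm_num)]
          have hsw : ‖sg w s‖ ≤ H * (B : ℝ) ^ (d - 2) * dl w x y / (2 * c3 n d) := hsL w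
          rw [le_div_iff₀ (by positivity)] at hsw
          calc c3 n d * ‖sg w s‖ * 2 = ‖sg w s‖ * (2 * c3 n d) := by ring
            _ ≤ H * (B : ℝ) ^ (d - 2) * dl w x y := hsw
            _ = H * ((B : ℝ) ^ (d - 2) * dl w x y) := by ring
        have h4 := htm m w
        have h5 := hA.1 m w
        rw [map_add]
        refine (norm_add_le _ _).trans ?_
        linarith
      · rw [F_add, hA.2.1, htx, add_zero])
  have hstep2 := levels_countK hc {A : Idx n d → 𝓞 K | (∀ m w, ‖sg w (A m)‖ ≤ 2 * H) ∧ F A x = 0}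
    {A : Idx n d → 𝓞 K | ∀ m w, ‖sg w (A m)‖ ≤ 3 * H}
    (hbox (3 * H) (by linarith)).1 x ⊤ (by simp)
    L2 hL2 (fun A hA => hA.2) (by
      intro s _ hsL
      obtain ⟨t, htx, htm⟩ := short_single (by omega : 1 ≤ d) B hB x hx mu hmu hgx
        (fun w => ⟨(hi w).choose, (hi w).choose_spec.1⟩) s
      refine ⟨t, htx, fun A hA m w => ?_⟩
      have h3 : 2 ^ d * ‖sg w s‖ / (B : ℝ) ^ d ≤ H / 2 := by
        rw [div_le_div_iff₀ (by positivity) (by norm_num)]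
        have hsw : ‖sg w s‖ ≤ H * (B : ℝ) ^ d / 2 ^ (d + 1) := hsL w
        rw [le_div_iff₀ (by positivity)] at hsw
        calc 2 ^ d * ‖sg w s‖ * 2 = ‖sg w s‖ * 2 ^ (d + 1) := by ring
          _ ≤ H * (B : ℝ) ^ d := hsw
      have h4 := htm m w
      have h5 := hA.1 m w
      rw [map_add]
      refine (norm_add_le _ _).trans ?_
      linarith)
  refine ⟨(hbox H hHpos).1.subset fun A hA => hA.1, ?_⟩
  have hN2 := (hbox (3 * H) (by linarith)).2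
  set N0 : ℝ := (Set.ncard {A : Idx n d → 𝓞 K | (∀ m w, ‖sg w (A m)‖ ≤ H) ∧ F A x = 0 ∧
    F A y = 0} : ℝ)
  set N1 : ℝ := (Set.ncard {A : Idx n d → 𝓞 K | (∀ m w, ‖sg w (A m)‖ ≤ 2 * H) ∧ F A x = 0} : ℝ)
  set N2 : ℝ := (Set.ncard {A : Idx n d → 𝓞 K | ∀ m w, ‖sg w (A m)‖ ≤ 3 * H} : ℝ)
  rw [Ideal.absNorm_top, Nat.cast_one, div_one] at hstep2
  have hnp1 := np_pos hL1
  have hnp2 := np_pos hL2
  have hN0 : 0 ≤ N0 := Nat.cast_nonneg _
  have h3 : N0 * (c * (np L1 / mgN x y)) * (c * np L2) ≤ (2 * C' * 3 ^ mK K) ^ NN n d *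
      H ^ (mK K * NN n d) := by
    calc N0 * (c * (np L1 / mgN x y)) * (c * np L2)
        ≤ N1 * (c * np L2) := mul_le_mul_of_nonneg_right hstep1 (by positivity)
      _ ≤ N2 := hstep2
      _ ≤ (C' * ((3 * H) ^ mK K + 1)) ^ NN n d := hN2
      _ ≤ (2 * C' * 3 ^ mK K * H ^ mK K) ^ NN n d := by
          apply pow_le_pow_left₀ (by positivity)
          have h5 : (1 : ℝ) ≤ (3 * H) ^ mK K := one_le_pow₀ (by linarith)
          calc C' * ((3 * H) ^ mK K + 1) ≤ C' * ((3 * H) ^ mK K + (3 * H) ^ mK K) := by gcongr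
            _ = 2 * C' * 3 ^ mK K * H ^ mK K := by rw [mul_pow]; ring
      _ = _ := by rw [mul_pow _ (H ^ mK K), ← pow_mul]
  have h4 : np L1 * np L2 = np (fun w => H ^ 2 * (B : ℝ) ^ (2 * d - 2) * dl w x y) /
      (2 * c3 n d * 2 ^ (d + 1)) ^ mK K := by
    rw [← np_mul, ← np_const (K := K) (2 * c3 n d * 2 ^ (d + 1)), ← np_div]
    congr 1
    funext w
    obtain ⟨e, rfl⟩ : ∃ e, d = e + 2 := ⟨d - 2, by omega⟩
    change H * (B : ℝ) ^ (e + 2 - 2) * dl w x y / (2 * c3 n (e + 2)) *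
      (H * (B : ℝ) ^ (e + 2) / 2 ^ (e + 2 + 1)) = _
    rw [show e + 2 - 2 = e by omega, show 2 * (e + 2) - 2 = e + (e + 2) by omega,
      div_mul_div_comm]
    congr 1
    ring
  have hnp3 : 0 < np (fun w => H ^ 2 * (B : ℝ) ^ (2 * d - 2) * dl w x y) :=
    np_pos fun w => by
      have := hdpos w
      positivity
  rw [le_div_iff₀ hnp3]
  have h5 : N0 * np (fun w => H ^ 2 * (B : ℝ) ^ (2 * d - 2) * dl w x y) =
      N0 * (c * (np L1 / mgN x y)) * (c * np L2) * ((2 * c3 n d * 2 ^ (d + 1)) ^ mK K / c ^ 2 *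
        mgN x y) := by
    have h6 : np (fun w => H ^ 2 * (B : ℝ) ^ (2 * d - 2) * dl w x y) =
        np L1 * np L2 * (2 * c3 n d * 2 ^ (d + 1)) ^ mK K := by
      rw [h4]
      field_simp
    rw [h6]
    field_simp
  rw [h5]
  calc N0 * (c * (np L1 / mgN x y)) * (c * np L2) * ((2 * c3 n d * 2 ^ (d + 1)) ^ mK K / c ^ 2 *
        mgN x y)
      ≤ (2 * C' * 3 ^ mK K) ^ NN n d * H ^ (mK K * NN n d) *
        ((2 * c3 n d * 2 ^ (d + 1)) ^ mK K / c ^ 2 * mgN x y) :=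
        mul_le_mul_of_nonneg_right h3 (by positivity)
    _ = _ := by ring

end NFHP
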