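import Pool.Agent.Lib.MP_e426f4_ag.N.ShortOne
import Pool.Agent.Lib.MP_e426f4_ag.N.Span2
import Pool.Agent.Lib.MP_e426f4_ag.G.ShortTwo

/-! Module NF-B2: short vectors for two points. -/

namespace NFHP

open NumberField GenHP Finset Filter Topology

variable {K : Type} [Field K] [NumberField K] {n d : ℕ}

/-- the size of the minors is bounded by a minor in the row of a large coordinate -/
theorem exists_large_minorK (B : ℕ) (hB : 1 ≤ B) (x y : Fin (n + 1) → 𝓞 K) (w : InfinitePlace K)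
    (i0 : Fin (n + 1)) (hi0 : (B : ℝ) / 2 ≤ ‖sg w (x i0)‖) (hx2 : ∀ i, ‖sg w (x i)‖ ≤ 2 * B) :
    ∃ l : Fin (n + 1), dl w x y ≤ 8 * ((n : ℝ) + 1) ^ 2 * ‖sg w (minor x y i0 l)‖ := by
  have hBpos : (0 : ℝ) < B := by exact_mod_cast hB
  obtain ⟨l, -, hl⟩ := Finset.exists_max_image (univ : Finset (Fin (n + 1)))
    (fun l => ‖sg w (minor x y i0 l)‖) ⟨0, mem_univ _⟩
  obtain ⟨a, b, hab⟩ := exists_minor_ge x y w
  refine ⟨l, ?_⟩
  have h2 : sg w (x i0) * sg w (minor x y a b) =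
      sg w (x a) * sg w (minor x y i0 b) - sg w (x b) * sg w (minor x y i0 a) := by
    simp only [minor, map_sub, map_mul]
    ring
  have h3 : ‖sg w (x i0)‖ * ‖sg w (minor x y a b)‖ ≤
      2 * B * ‖sg w (minor x y i0 l)‖ + 2 * B * ‖sg w (minor x y i0 l)‖ := by
    rw [← norm_mul, h2]
    refine (norm_sub_le _ _).trans ?_
    rw [norm_mul, norm_mul]
    have ha := hl a (mem_univ _)
    have hb := hl b (mem_univ _)
    exact add_le_add (mul_le_mul (hx2 a) hb (norm_nonneg _) (by positivity))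
      (mul_le_mul (hx2 b) ha (norm_nonneg _) (by positivity))
  have h4 : (B : ℝ) / 2 * ‖sg w (minor x y a b)‖ ≤
      ‖sg w (x i0)‖ * ‖sg w (minor x y a b)‖ := by gcongr
  have h5 : (B : ℝ) * ‖sg w (minor x y a b)‖ ≤
      B * (8 * ‖sg w (minor x y i0 l)‖) := by linarith
  have h6 := le_of_mul_le_mul_left h5 hBpos
  calc dl w x y ≤ ((n : ℝ) + 1) ^ 2 * ‖sg w (minor x y a b)‖ := hab
    _ ≤ ((n : ℝ) + 1) ^ 2 * (8 * ‖sg w (minor x y i0 l)‖) := by gcongr
    _ = _ := by ring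

theorem short_pair (hd : 2 ≤ d) (B : ℕ) (hB : 1 ≤ B) (x y : Fin (n + 1) → 𝓞 K)
    (hx : Prim x) (hy : Prim y) (mu : ℝ) (hmu : 1 ≤ mu) (hgx : Ortho mu x) (hgy : Ortho mu y)
    (hi : ∀ w, ∃ i, (B : ℝ) / 2 ≤ ‖sg w (x i)‖ ∧ (B : ℝ) / 2 ≤ ‖sg w (y i)‖)
    (hx2 : x ∈ Bx n (2 * (B : ℝ))) (hy2 : y ∈ Bx n (2 * (B : ℝ)))
    (h : mgI x y ≠ ⊥) (s : 𝓞 K) (hs : s ∈ mgI x y) :
    ∃ t : Idx n d → 𝓞 K, F t x = 0 ∧ F t y = s ∧
      ∀ m w, ‖sg w (t m)‖ ≤ c3 n d * ‖sg w s‖ / ((B : ℝ) ^ (d - 2) * dl w x y) +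
        c2 K n d * mu ^ 2 := by
  have hBpos : (0 : ℝ) < B := by exact_mod_cast hB
  have hdpos : ∀ w, 0 < dl w x y := fun w => dl_pos x y h w
  choose i0 hi0 hi0' using hi
  have hy0 : ∀ w, sg w (y (i0 w)) ≠ 0 := by
    intro w h
    have := hi0' w
    rw [h, norm_zero] at this
    linarith
  choose j hj using fun w => exists_large_minorK B hB x y w (i0 w) (hi0 w) (fun i => hx2 i w)
  obtain ⟨t1, ht1x, ht1y⟩ := exists_vec_mg (d := d) (by omega) x y hy s hs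
  obtain ⟨g, hg0, hgm, hgs⟩ := span_pair hd x y h mu hmu hgx hgy
  obtain ⟨e, rfl⟩ : ∃ e, d = e + 2 := ⟨d - 2, by omega⟩
  -- the real solution
  set δ : InfinitePlace K → ℂ := fun w => sg w (minor x y (i0 w) (j w)) with hδ
  have hδ0 : ∀ w, δ w ≠ 0 := by
    intro w h
    have h1 := hj w
    have h2 : ‖sg w (minor x y (i0 w) (j w))‖ = 0 := by
      have : sg w (minor x y (i0 w) (j w)) = 0 := h
      rw [this, norm_zero]
    rw [h2, mul_zero] at h1
    linarith [hdpos w]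
  have hji : ∀ w, j w ≠ i0 w := by
    intro w h
    apply hδ0 w
    simp only [hδ, h, minor, sub_self, map_zero]
  have hδe : ∀ w, δ w = sg w (x (i0 w)) * sg w (y (j w)) - sg w (x (j w)) * sg w (y (i0 w)) := by
    intro w
    simp only [hδ, minor, map_sub, map_mul]
  let m1 : InfinitePlace K → Idx n (e + 2) := fun w => mk fun _ => i0 w
  let m2 : InfinitePlace K → Idx n (e + 2) := fun w =>
    mk (Fin.cons (j w) fun _ => i0 w : Fin (e + 1 + 1) → Fin (n + 1))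
  have hm12 : ∀ w, m2 w ≠ m1 w := fun w => mk_cons_ne (i0 w) (j w) (hji w)
  let tR : Idx n (e + 2) → InfinitePlace K → ℂ := fun m w =>
    sg w s / ((sg w (y (i0 w))) ^ (e + 1) * δ w) *
    ((Pi.single (m2 w) (sg w (x (i0 w))) : Idx n (e + 2) → ℂ) m
      - (Pi.single (m1 w) (sg w (x (j w))) : Idx n (e + 2) → ℂ) m)
  have htRV : ∀ m, RV (tR m) := by
    intro m w hw
    have h1 : RV fun w' => sg w' s / ((sg w' (y (i0 w))) ^ (e + 1) *
        sg w' (minor x y (i0 w) (j w))) *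
      ((Pi.single (m2 w) (sg w' (x (i0 w))) : Idx n (e + 2) → ℂ) m
      - (Pi.single (m1 w) (sg w' (x (j w))) : Idx n (e + 2) → ℂ) m) :=
      RV_mul (RV_div (RV_sg s) (RV_mul (RV_pow (RV_sg _) _) (RV_sg _)))
        (RV_sub (RV_single _ (RV_sg _) m) (RV_single _ (RV_sg _) m))
    exact h1 w hw
  have hFR : ∀ w, ∀ z : Fin (n + 1) → ℂ, F (fun m => tR m w) z =
      sg w s / ((sg w (y (i0 w))) ^ (e + 1) * δ w) *
      (sg w (x (i0 w)) * (z (j w) * z (i0 w) ^ (e + 1)) - sg w (x (j w)) * (z (i0 w) ^ (e + 2))) := by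
    intro w z
    have h0 : (fun m => tR m w) = fun m => sg w s / ((sg w (y (i0 w))) ^ (e + 1) * δ w) *
      ((Pi.single (m2 w) (sg w (x (i0 w))) : Idx n (e + 2) → ℂ) m
      - (Pi.single (m1 w) (sg w (x (j w))) : Idx n (e + 2) → ℂ) m) := rfl
    rw [h0, F_smul]
    congr 1
    have h3 : F (fun m => (Pi.single (m2 w) (sg w (x (i0 w))) : Idx n (e + 2) → ℂ) m
      - (Pi.single (m1 w) (sg w (x (j w))) : Idx n (e + 2) → ℂ) m) z =
      F (Pi.single (m2 w) (sg w (x (i0 w))) : Idx n (e + 2) → ℂ) z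
        - F (Pi.single (m1 w) (sg w (x (j w))) : Idx n (e + 2) → ℂ) z := by
      simp only [F, sub_mul, Finset.sum_sub_distrib]
    rw [h3, F_single, F_single, mon_mk, mon_mk, Fin.prod_univ_succ]
    simp
  have hRx : ∀ w, F (fun m => tR m w) (fun i => sg w (x i)) = 0 := by
    intro w
    rw [hFR]
    ring
  have hRy : ∀ w, F (fun m => tR m w) (fun i => sg w (y i)) = sg w s := by
    intro w
    rw [hFR]
    have h1 : sg w (x (i0 w)) * (sg w (y (j w)) * sg w (y (i0 w)) ^ (e + 1)) -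
        sg w (x (j w)) * (sg w (y (i0 w)) ^ (e + 2)) =
        sg w (y (i0 w)) ^ (e + 1) * δ w := by
      rw [hδe]
      ring
    rw [h1]
    have := hy0 w
    have := hδ0 w
    field_simp
  obtain ⟨t, ht1, ht2⟩ := round_familyK g (((n : ℝ) + 1) ^ 2 * mu ^ 2) hgm t1 tR htRV
    (fun w => by
      refine hgs w _ ?_ ?_
      · rw [F_sg_sub, hRx, ht1x, map_zero, sub_zero]
      · rw [F_sg_sub, hRy, ht1y, sub_self])
  refine ⟨t, ?_, ?_, fun m w => (ht2 m w).trans ?_⟩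
  · rw [ht1 x (fun q => (hg0 q).1), ht1x]
  · rw [ht1 y (fun q => (hg0 q).2), ht1y]
  · have h1 : ‖tR m w‖ ≤ c3 n (e + 2) * ‖sg w s‖ / ((B : ℝ) ^ (e + 2 - 2) * dl w x y) := by
      change ‖sg w s / ((sg w (y (i0 w))) ^ (e + 1) * δ w) *
        ((Pi.single (m2 w) (sg w (x (i0 w))) : Idx n (e + 2) → ℂ) m
        - (Pi.single (m1 w) (sg w (x (j w))) : Idx n (e + 2) → ℂ) m)‖ ≤ _
      rw [norm_mul, norm_div, norm_mul, norm_pow]
      have h2 : ‖(Pi.single (m2 w) (sg w (x (i0 w))) : Idx n (e + 2) → ℂ) m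
          - (Pi.single (m1 w) (sg w (x (j w))) : Idx n (e + 2) → ℂ) m‖ ≤ 2 * B := by
        by_cases h3 : m = m1 w
        · subst h3
          rw [Pi.single_eq_of_ne (hm12 w).symm, Pi.single_eq_same, zero_sub, norm_neg]
          exact hx2 _ w
        · rw [Pi.single_eq_of_ne h3, sub_zero]
          by_cases h4 : m = m2 w
          · subst h4
            rw [Pi.single_eq_same]
            exact hx2 _ w
          · rw [Pi.single_eq_of_ne h4, norm_zero]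
            positivity
      have h3 : (B : ℝ) ^ (e + 1) ≤ 2 ^ (e + 1) * ‖sg w (y (i0 w))‖ ^ (e + 1) := by
        rw [← mul_pow]
        have := hi0' w
        gcongr
        linarith
      have hy0' : 0 < ‖sg w (y (i0 w))‖ := norm_pos_iff.mpr (hy0 w)
      have hδ' : 0 < ‖δ w‖ := norm_pos_iff.mpr (hδ0 w)
      have hdp := hdpos w
      have hjw : dl w x y ≤ 8 * ((n : ℝ) + 1) ^ 2 * ‖δ w‖ := hj w
      rw [show e + 2 - 2 = e by omega, c3]
      calc ‖sg w s‖ / (‖sg w (y (i0 w))‖ ^ (e + 1) * ‖δ w‖) *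
            ‖(Pi.single (m2 w) (sg w (x (i0 w))) : Idx n (e + 2) → ℂ) m
              - (Pi.single (m1 w) (sg w (x (j w))) : Idx n (e + 2) → ℂ) m‖
          ≤ ‖sg w s‖ / (‖sg w (y (i0 w))‖ ^ (e + 1) * ‖δ w‖) * (2 * B) := by gcongr
        _ = ‖sg w s‖ * (2 * B) / (‖sg w (y (i0 w))‖ ^ (e + 1) * ‖δ w‖) := by ring
        _ ≤ 2 ^ (e + 2 + 3) * ((n : ℝ) + 1) ^ 2 * ‖sg w s‖ / ((B : ℝ) ^ e * dl w x y) := by
            rw [div_le_div_iff₀ (by positivity) (by positivity)]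
            have h5 : (B : ℝ) ^ (e + 1) * dl w x y ≤
                2 ^ (e + 1) * ‖sg w (y (i0 w))‖ ^ (e + 1) * (8 * ((n : ℝ) + 1) ^ 2 * ‖δ w‖) :=
              mul_le_mul h3 hjw hdp.le (by positivity)
            calc ‖sg w s‖ * (2 * B) * ((B : ℝ) ^ e * dl w x y)
                = 2 * ‖sg w s‖ * ((B : ℝ) ^ (e + 1) * dl w x y) := by ring
              _ ≤ 2 * ‖sg w s‖ * (2 ^ (e + 1) * ‖sg w (y (i0 w))‖ ^ (e + 1) *
                  (8 * ((n : ℝ) + 1) ^ 2 * ‖δ w‖)) := by gcongr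
              _ = 2 ^ (e + 2 + 3) * ((n : ℝ) + 1) ^ 2 * ‖sg w s‖ *
                  (‖sg w (y (i0 w))‖ ^ (e + 1) * ‖δ w‖) := by ring
    have h2 : (Fintype.card (Fin n × Fin n × (Fin (e + 2 - 2) → Fin (n + 1))) : ℝ) =
        n * (n * ((n : ℝ) + 1) ^ (e + 2 - 2)) := by
      rw [Fintype.card_prod, Fintype.card_prod, card_fin_fun]
      simp
    rw [h2, c2]
    linarith

end NFHP
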