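import Pool.Agent.Lib.MP_e426f4_ag.N.SpanC
import Pool.Agent.Lib.MP_e426f4_ag.G.Span1

/-! Module NF-SP1: forms vanishing at a point are spanned by products with a factor orthogonal to the point. -/

set_option linter.unusedSectionVars false
set_option linter.unusedVariables false

namespace NFHP

open NumberField GenHP Finset Filter Topology

variable {K : Type} [Field K] [NumberField K] {n d : ℕ}

theorem eq_sum_smul_singleC (m : Fin (n + 1) → ℂ) :
    m = ∑ b, m b • (Pi.single b (1 : ℂ) : Fin (n + 1) → ℂ) := by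
  funext i
  simp [Finset.sum_apply, Pi.single_apply]

/-- a multilinear map with values in a submodule on the standard basis has values in the submodule -/
theorem mem_of_basisC {m : ℕ} (f : MultilinearMap ℂ (fun _ : Fin m => Fin (n + 1) → ℂ) (Idx n d → ℂ))
    (S : Submodule ℂ (Idx n d → ℂ))
    (h : ∀ c : Fin m → Fin (n + 1), f (fun i => Pi.single (c i) 1) ∈ S)
    (N : Fin m → Fin (n + 1) → ℂ) : f N ∈ S := by
  have e : f N = f (fun i => ∑ b, N i b • (Pi.single b (1 : ℂ) : Fin (n + 1) → ℂ)) := by
    congr 1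
    funext i
    exact eq_sum_smul_singleC (N i)
  rw [e, MultilinearMap.map_sum]
  refine Submodule.sum_mem _ fun r _ => ?_
  rw [MultilinearMap.map_smul_univ]
  exact Submodule.smul_mem _ _ (h r)

theorem dot_singleC (z : Fin (n + 1) → ℂ) (a : Fin (n + 1)) :
    ∑ i, (Pi.single a (1 : ℂ) : Fin (n + 1) → ℂ) i * z i = z a := by
  rw [Finset.sum_eq_single a]
  · simp
  · intro i _ hi
    simp [hi]
  · simp

theorem T_sg (w : InfinitePlace K) (l : Fin d → Fin (n + 1) → 𝓞 K) (t : Idx n d) :
    T (fun i a => sg w (l i a)) t = sg w (T l t) := by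
  unfold T
  rw [map_sum]
  refine Finset.sum_congr rfl fun c _ => ?_
  split_ifs
  · rw [map_prod]
  · rw [map_zero]

theorem T_norm_le (l : Fin d → Fin (n + 1) → ℂ) (t : Idx n d) :
    ‖T l t‖ ≤ ∏ i, ∑ a, ‖l i a‖ := by
  unfold T
  rw [Finset.prod_univ_sum, Fintype.piFinset_univ]
  refine (norm_sum_le _ _).trans (Finset.sum_le_sum fun c _ => ?_)
  split_ifs
  · rw [norm_prod]
  · rw [norm_zero]
    exact Finset.prod_nonneg fun i _ => norm_nonneg _

/-- NF-SP1 -/
theorem span_single (hd : 1 ≤ d) (x : Fin (n + 1) → 𝓞 K) (hx : x ≠ 0) (mu : ℝ) (hmu : 1 ≤ mu)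
    (hg : Ortho mu x) :
    ∃ g : Fin n × (Fin (d - 1) → Fin (n + 1)) → Idx n d → 𝓞 K, (∀ q, F (g q) x = 0) ∧
      (∀ q m w, ‖sg w (g q m)‖ ≤ ((n : ℝ) + 1) * mu) ∧
      ∀ (w : InfinitePlace K) (A : Idx n d → ℂ), F A (fun i => sg w (x i)) = 0 →
        ∃ r : Fin n × (Fin (d - 1) → Fin (n + 1)) → ℂ, ∀ m, A m = ∑ q, r q * sg w (g q m) := by
  obtain ⟨m, rfl⟩ : ∃ m, d = m + 1 := ⟨d - 1, by omega⟩
  obtain ⟨l, hl, hlx, hlmu⟩ := hg
  set g : Fin n × (Fin m → Fin (n + 1)) → Idx n (m + 1) → 𝓞 K := fun q =>
    T (Fin.cons (l q.1) (fun i => Pi.single (q.2 i) 1) : Fin (m + 1) → Fin (n + 1) → 𝓞 K) with hg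
  have hcast : ∀ (w : InfinitePlace K) q, (fun t => sg w (g q t)) =
      T (Fin.cons (fun i => sg w (l q.1 i)) (fun i => Pi.single (q.2 i) 1) :
        Fin (m + 1) → Fin (n + 1) → ℂ) := by
    intro w q
    funext t
    rw [hg]
    simp only
    rw [← T_sg]
    congr 1
    funext i
    refine Fin.cases ?_ (fun j => ?_) i
    · simp
    · funext a
      simp only [Fin.cons_succ]
      by_cases ha : a = q.2 j
      · subst ha; simp
      · rw [Pi.single_eq_of_ne ha, Pi.single_eq_of_ne ha]; simp
  refine ⟨g, ?_, ?_, ?_⟩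
  · intro q
    refine F_T_eq_zero _ x 0 ?_
    rw [Fin.cons_zero]
    exact hlx q.1
  · intro q t w
    have h1 := congrFun (hcast w q) t
    rw [h1]
    refine (T_norm_le _ t).trans ?_
    rw [Fin.prod_univ_succ]
    simp only [Fin.cons_zero, Fin.cons_succ]
    have h2 : ∀ j : Fin m, ∑ a, ‖(Pi.single (q.2 j) (1 : ℂ) : Fin (n + 1) → ℂ) a‖ = 1 := by
      intro j
      rw [Finset.sum_eq_single (q.2 j)]
      · simp
      · intro a _ ha
        rw [Pi.single_eq_of_ne ha, norm_zero]
      · simp
    rw [Finset.prod_congr rfl fun j _ => h2 j, Finset.prod_const_one, mul_one]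
    calc ∑ a, ‖sg w (l q.1 a)‖ ≤ ∑ _a : Fin (n + 1), mu :=
          Finset.sum_le_sum fun a _ => hlmu q.1 a w
      _ = ((n : ℝ) + 1) * mu := by simp
  · intro w A hA
    set xr : Fin (n + 1) → ℂ := fun i => sg w (x i) with hxr
    set lr : Fin n → Fin (n + 1) → ℂ := fun k i => sg w (l k i) with hlr
    have hlrx : ∀ k, ∑ i, lr k i * xr i = 0 := by
      intro k
      have h2 : sg w (∑ i, l k i * x i) = 0 := by rw [hlx k, map_zero]
      rw [map_sum] at h2
      simp only [map_mul] at h2
      exact h2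
    have hxr0 : xr ≠ 0 := by
      intro h0
      apply hx
      funext i
      have h1 : sg w (x i) = 0 := congrFun h0 i
      by_contra hi
      exact sg_ne_zero w hi h1
    have hlC : LinearIndependent ℂ lr := linearIndependent_sg l hl w
    set S : Submodule ℂ (Idx n (m + 1) → ℂ) :=
      Submodule.span ℂ (Set.range fun q => fun t => sg w (g q t)) with hS
    have h1 : ∀ (k : Fin n) (N : Fin m → Fin (n + 1) → ℂ),
        (TM n (m + 1) ℂ).curryLeft (lr k) N ∈ S := by
      intro k N
      refine mem_of_basisC _ S (fun c => ?_) N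
      refine Submodule.subset_span ⟨(k, c), ?_⟩
      simp only
      rw [hcast w (k, c)]
      rfl
    have h2 : ∀ u : Fin (n + 1) → ℂ, ∑ i, u i * xr i = 0 → ∀ N : Fin m → Fin (n + 1) → ℂ,
        (TM n (m + 1) ℂ).curryLeft u N ∈ S := by
      intro u hu N
      have hu' := mem_span_of_orthoC xr hxr0 lr hlC hlrx u hu
      clear hu
      induction hu' using Submodule.span_induction with
      | mem v hv =>
        obtain ⟨k, rfl⟩ := hv
        exact h1 k N
      | zero => simp
      | add v v' _ _ hv hv' =>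
        rw [map_add, add_apply]
        exact Submodule.add_mem _ hv hv'
      | smul c v _ hv =>
        rw [map_smul, smul_apply]
        exact Submodule.smul_mem _ _ hv
    have h3 : ∀ (M : Fin (m + 1) → Fin (n + 1) → ℂ) (i : Fin (m + 1)), ∑ a, M i a * xr a = 0 →
        T M ∈ S := by
      intro M i hi
      have e : T M = T (fun j => M (Equiv.swap 0 i j)) := (T_perm M (Equiv.swap 0 i)).symm
      rw [e]
      have h4 := h2 (M i) hi (fun j => M (Equiv.swap 0 i j.succ))
      rw [MultilinearMap.curryLeft_apply, TM_apply] at h4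
      have e2 : (Fin.cons (M i) (fun j => M (Equiv.swap 0 i j.succ)) : Fin (m + 1) → Fin (n + 1) → ℂ) =
          fun j => M (Equiv.swap 0 i j) := by
        funext j
        refine Fin.cases ?_ (fun j => ?_) j
        · simp
        · simp
      rw [e2] at h4
      exact h4
    obtain ⟨i0, hi0⟩ := Function.ne_iff.mp hxr0
    rw [Pi.zero_apply] at hi0
    set L : Fin (n + 1) → ℂ := (xr i0)⁻¹ • Pi.single i0 1 with hL
    have hdotL : ∑ i, L i * xr i = 1 := by
      have : ∑ i, L i * xr i = (xr i0)⁻¹ * ∑ i, (Pi.single i0 (1 : ℂ) : Fin (n + 1) → ℂ) i * xr i := by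
        rw [Finset.mul_sum]
        exact Finset.sum_congr rfl fun i _ => by rw [hL, Pi.smul_apply, smul_eq_mul]; ring
      rw [this, dot_singleC]
      exact inv_mul_cancel₀ hi0
    have hkey : ∀ M : Fin (m + 1) → Fin (n + 1) → ℂ,
        T M - (∏ i, ∑ a, M i a * xr a) • T (fun _ => L) ∈ S := by
      intro M
      set v : Fin (m + 1) → Fin 2 → (Fin (n + 1) → ℂ) := fun i =>
        ![(∑ a, M i a * xr a) • L, M i - (∑ a, M i a * xr a) • L] with hv
      have hsum : ∀ i, M i = ∑ r, v i r := by
        intro i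
        rw [Fin.sum_univ_two, hv]
        simp
      have e : T M = ∑ r : Fin (m + 1) → Fin 2, T (fun i => v i (r i)) := by
        have := MultilinearMap.map_sum (TM n (m + 1) ℂ) v
        simp only [TM_apply] at this
        rw [← this]
        congr 1
        funext i
        exact hsum i
      have e0 : T (fun i => v i 0) = (∏ i, ∑ a, M i a * xr a) • T (fun _ => L) := by
        have := MultilinearMap.map_smul_univ (TM n (m + 1) ℂ) (fun i => ∑ a, M i a * xr a) (fun _ => L)
        simp only [TM_apply] at this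
        rw [← this]
        rfl
      rw [e, ← Finset.add_sum_erase _ _ (Finset.mem_univ (fun _ => (0 : Fin 2)))]
      rw [e0, add_sub_cancel_left]
      refine Submodule.sum_mem _ fun r hr => ?_
      obtain ⟨i, hi⟩ := Function.ne_iff.mp (Finset.ne_of_mem_erase hr)
      have hi1 : r i = 1 := by omega
      refine h3 _ i ?_
      rw [hi1, hv]
      simp only [Matrix.cons_val_one, Matrix.cons_val_fin_one]
      have : ∑ a, (M i - (∑ a, M i a * xr a) • L) a * xr a =
          ∑ a, M i a * xr a - (∑ a, M i a * xr a) * ∑ a, L a * xr a := by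
        rw [Finset.mul_sum, ← Finset.sum_sub_distrib]
        exact Finset.sum_congr rfl fun a _ => by rw [Pi.sub_apply, Pi.smul_apply, smul_eq_mul]; ring
      rw [this, hdotL, mul_one, sub_self]
    have hAS : A ∈ S := by
      have e : A = ∑ t : Idx n (m + 1), A t • (T (fun i => Pi.single ((exists_mk t).choose i) (1 : ℂ)) -
          mon xr t.1 • T (fun _ => L)) := by
        have h5 : ∑ t : Idx n (m + 1), A t • (T (fun i => Pi.single ((exists_mk t).choose i) (1 : ℂ)) -
            mon xr t.1 • T (fun _ => L)) =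
            ∑ t : Idx n (m + 1), A t • T (fun i => Pi.single ((exists_mk t).choose i) (1 : ℂ)) -
              (F A xr) • T (fun _ => L) := by
          unfold F
          rw [Finset.sum_smul, ← Finset.sum_sub_distrib]
          refine Finset.sum_congr rfl fun t _ => ?_
          rw [smul_sub, smul_smul]
        rw [h5, hA, zero_smul, sub_zero]
        exact eq_sum_T A
      rw [e]
      refine Submodule.sum_mem _ fun t _ => Submodule.smul_mem _ _ ?_
      have h6 := hkey (fun i => Pi.single ((exists_mk t).choose i) (1 : ℂ))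
      simp only [dot_singleC] at h6
      rw [mon_eq_prod_choose]
      exact h6
    obtain ⟨r, hr⟩ := (Submodule.mem_span_range_iff_exists_fun ℂ).mp hAS
    refine ⟨r, fun t => ?_⟩
    rw [← hr, Finset.sum_apply]
    exact Finset.sum_congr rfl fun q _ => by rw [Pi.smul_apply, smul_eq_mul]

end NFHP
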