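import Pool.Agent.Lib.MP_e426f4_ag.N.Minors
import Pool.Agent.Lib.MP_e426f4_ag.N.Span1
import Pool.Agent.Lib.MP_e426f4_ag.G.ShortOne

/-! Module NF-B1: short vectors for one point. -/

namespace NFHP

open NumberField GenHP Finset Filter Topology

variable {K : Type} [Field K] [NumberField K] {n d : ℕ}

/-- at the real places the coefficients can be taken to be real -/
theorem exists_RV_coeff {ι : Type*} [Fintype ι] (V : ι → Idx n d → 𝓞 K)
    (tR : Idx n d → InfinitePlace K → ℂ) (htR : ∀ m, RV (tR m))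
    (h : ∀ w, ∃ r : ι → ℂ, ∀ m, tR m w = ∑ i, r i * sg w (V i m)) :
    ∃ r : ι → InfinitePlace K → ℂ, (∀ i, RV (r i)) ∧
      ∀ w m, tR m w = ∑ i, r i w * sg w (V i m) := by
  classical
  choose r hr using h
  refine ⟨fun i w => if w.IsReal then ((r w i).re : ℂ) else r w i, ?_, ?_⟩
  · intro i w hw
    simp only [hw, if_true, Complex.ofReal_im]
  · intro w m
    by_cases hw : w.IsReal
    · simp only [hw, if_true]
      have h1 := (RV_iff _).mp (htR m) w hw
      have h2 : ∀ i, ((sg w (V i m)).re : ℂ) = sg w (V i m) := fun i =>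
        (RV_iff _).mp (RV_sg (V i m)) w hw
      rw [← h1, hr w m, Complex.re_sum, Complex.ofReal_sum]
      refine Finset.sum_congr rfl fun i _ => ?_
      rw [Complex.mul_re, ← h2 i, Complex.ofReal_im, Complex.ofReal_re, mul_zero, sub_zero,
        Complex.ofReal_mul]
    · simp only [hw, if_false]
      exact hr w m

/-- rounding along a finite family of integer vectors -/
theorem round_familyK {ι : Type*} [Fintype ι] (V : ι → Idx n d → 𝓞 K) (b : ℝ)
    (hV : ∀ i m w, ‖sg w (V i m)‖ ≤ b) (t0 : Idx n d → 𝓞 K) (tR : Idx n d → InfinitePlace K → ℂ)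
    (htR : ∀ m, RV (tR m))
    (h : ∀ w, ∃ r : ι → ℂ, ∀ m, sg w (t0 m) - tR m w = ∑ i, r i * sg w (V i m)) :
    ∃ t : Idx n d → 𝓞 K, (∀ y : Fin (n + 1) → 𝓞 K, (∀ i, F (V i) y = 0) → F t y = F t0 y) ∧
      ∀ m w, ‖sg w (t m)‖ ≤ ‖tR m w‖ + Fintype.card ι * (cK K * b) := by
  obtain ⟨r, hrR, hr⟩ := exists_RV_coeff V (fun m w => sg w (t0 m) - tR m w)
    (fun m => RV_sub (RV_sg _) (htR m)) h
  choose a ha using fun i => exists_round (hrR i)
  refine ⟨fun m => t0 m - ∑ i, a i * V i m, ?_, ?_⟩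
  · intro y hy
    rw [F_sub_sum, Finset.sum_eq_zero, sub_zero]
    intro i _
    rw [hy i, mul_zero]
  · intro m w
    have h1 : sg w (t0 m - ∑ i, a i * V i m) =
        tR m w - ∑ i, (sg w (a i) - r i w) * sg w (V i m) := by
      have h2 := hr w m
      rw [map_sub, map_sum]
      simp only [map_mul, sub_mul, Finset.sum_sub_distrib]
      linear_combination h2
    rw [h1]
    refine (norm_sub_le _ _).trans ?_
    gcongr
    refine (norm_sum_le _ _).trans ?_
    calc ∑ i, ‖(sg w (a i) - r i w) * sg w (V i m)‖ ≤ ∑ _i : ι, cK K * b := by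
          refine Finset.sum_le_sum fun i _ => ?_
          rw [norm_mul]
          exact mul_le_mul (ha i w) (hV i m w) (norm_nonneg _) (cK_pos (K := K)).le
      _ = Fintype.card ι * (cK K * b) := by
          rw [Finset.sum_const, Finset.card_univ, nsmul_eq_mul]

/-- the difference of an integer and a complex coefficient vector -/
theorem F_sg_sub (t : Idx n d → 𝓞 K) (u : Idx n d → ℂ) (z : Fin (n + 1) → 𝓞 K)
    (w : InfinitePlace K) :
    F (fun m => sg w (t m) - u m) (fun i => sg w (z i)) =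
      sg w (F t z) - F u (fun i => sg w (z i)) := by
  rw [← F_sg]
  simp only [F, sub_mul, Finset.sum_sub_distrib]

omit [NumberField K] in
theorem RV_single (m0 : Idx n d) {v : InfinitePlace K → ℂ} (hv : RV v) (m : Idx n d) :
    RV fun w => (Pi.single m0 (v w) : Idx n d → ℂ) m := by
  intro w hw
  by_cases h : m = m0
  · subst h
    simp only [Pi.single_eq_same]
    exact hv w hw
  · simp only [Pi.single_eq_of_ne h, Complex.zero_im]

theorem short_single (hd : 1 ≤ d) (B : ℕ) (hB : 1 ≤ B) (x : Fin (n + 1) → 𝓞 K)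
    (hx : Prim x) (mu : ℝ) (hmu : 1 ≤ mu) (hg : Ortho mu x)
    (hi : ∀ w, ∃ i, (B : ℝ) / 2 ≤ ‖sg w (x i)‖) (s : 𝓞 K) :
    ∃ t : Idx n d → 𝓞 K, F t x = s ∧
      ∀ m w, ‖sg w (t m)‖ ≤ 2 ^ d * ‖sg w s‖ / (B : ℝ) ^ d + c1 K n d * mu := by
  obtain ⟨c, hc⟩ := hx
  choose i0 hi0 using hi
  have hBpos : (0 : ℝ) < B := by exact_mod_cast hB
  have hx0 : ∀ w, sg w (x (i0 w)) ≠ 0 := by
    intro w h
    have := hi0 w
    rw [h, norm_zero] at this
    linarith
  have hxne : x ≠ 0 := by
    intro h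
    apply hx0 (Classical.arbitrary _)
    rw [h]
    simp
  obtain ⟨g, hg0, hgm, hgs⟩ := span_single hd x hxne mu hmu hg
  set tR : Idx n d → InfinitePlace K → ℂ := fun m w =>
    (Pi.single (mk fun _ => i0 w) (sg w s / (sg w (x (i0 w))) ^ d) : Idx n d → ℂ) m with htR
  have htRV : ∀ m, RV (tR m) := by
    intro m w hw
    have h1 := RV_single (mk fun _ : Fin d => i0 w) (v := fun w' => sg w' s / (sg w' (x (i0 w))) ^ d)
      (RV_div (RV_sg s) (RV_pow (RV_sg _) d)) m w hw
    exact h1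
  have hRx : ∀ w, F (fun m => tR m w) (fun i => sg w (x i)) = sg w s := by
    intro w
    have h1 : (fun m => tR m w) =
        (Pi.single (mk fun _ => i0 w) (sg w s / (sg w (x (i0 w))) ^ d) : Idx n d → ℂ) := rfl
    rw [h1, F_single, mon_mk]
    simp only [Finset.prod_const, Finset.card_univ, Fintype.card_fin]
    have := hx0 w
    field_simp
  have hTx : F (fun m => s * T (fun _ : Fin d => c) m) x = s := by
    rw [F_smul, F_T, hc]
    simp
  obtain ⟨t, ht1, ht2⟩ := round_familyK g (((n : ℝ) + 1) * mu) hgm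
    (fun m => s * T (fun _ : Fin d => c) m) tR htRV (fun w => by
      refine hgs w _ ?_
      rw [F_sg_sub, hRx, hTx, sub_self])
  refine ⟨t, ?_, fun m w => (ht2 m w).trans ?_⟩
  · rw [ht1 x hg0, hTx]
  · have h1 : ‖tR m w‖ ≤ 2 ^ d * ‖sg w s‖ / (B : ℝ) ^ d := by
      rw [htR]
      by_cases hm : m = mk fun _ => i0 w
      · subst hm
        simp only [Pi.single_eq_same]
        have h0 : 0 < ‖sg w (x (i0 w))‖ := norm_pos_iff.mpr (hx0 w)
        rw [norm_div, norm_pow, div_le_div_iff₀ (by positivity) (by positivity)]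
        have h2 : (B : ℝ) ^ d ≤ 2 ^ d * ‖sg w (x (i0 w))‖ ^ d := by
          rw [← mul_pow]
          have := hi0 w
          gcongr
          linarith
        calc ‖sg w s‖ * (B : ℝ) ^ d ≤ ‖sg w s‖ * (2 ^ d * ‖sg w (x (i0 w))‖ ^ d) := by gcongr
          _ = _ := by ring
      · simp only [Pi.single_eq_of_ne hm, norm_zero]
        positivity
    have h2 : (Fintype.card (Fin n × (Fin (d - 1) → Fin (n + 1))) : ℝ) =
        n * ((n : ℝ) + 1) ^ (d - 1) := by
      rw [Fintype.card_prod, card_fin_fun]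
      simp
    rw [h2, c1]
    linarith

end NFHP
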