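import Pool.Agent.Lib.MP_e426f4_ag.AP
import Pool.Agent.Lib.MP_e426f4_ag.G.Basic
import Pool.Agent.Lib.MP_e426f4_ag.G.TLin
import Pool.Agent.Lib.MP_e426f4_ag.N.Lat
import Pool.Agent.Lib.MP_e426f4_ag.N.CardCl

/-! Module NF-OL: upper bound for the local count of forms through a point. -/

namespace NFHP

open NumberField GenHP Finset Filter Topology

variable {K : Type} [Field K] [NumberField K] {n d : ℕ}

/-- integers in a residue class and in a cube -/
theorem ol_coord (c : IK K → ℝ) (r : ℝ) (hr : 0 ≤ r) (M : ℕ) (hM : 1 ≤ M) (s : 𝓞 K) :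
    {a : 𝓞 K | (M : 𝓞 K) ∣ a - s ∧ ∀ j, |(crd a j : ℝ) - c j| ≤ r}.Finite ∧
    (Set.ncard {a : 𝓞 K | (M : 𝓞 K) ∣ a - s ∧ ∀ j, |(crd a j : ℝ) - c j| ≤ r} : ℝ) ≤
      (2 * r / M + 1) ^ mK K := by
  classical
  have hfin : {a : 𝓞 K | (M : 𝓞 K) ∣ a - s ∧ ∀ j, |(crd a j : ℝ) - c j| ≤ r}.Finite :=
    (cube_finite c r).subset fun _ h => h.2
  refine ⟨hfin, ?_⟩
  have hAP := fun j : IK K => CubicHP.ncard_AP (c j - r) (c j + r) (by linarith) M hM (crd s j)
  have h1 : Set.ncard {a : 𝓞 K | (M : 𝓞 K) ∣ a - s ∧ ∀ j, |(crd a j : ℝ) - c j| ≤ r} ≤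
      (Fintype.piFinset fun j => (hAP j).1.toFinset).card := by
    rw [← Set.ncard_coe_finset]
    refine Set.ncard_le_ncard_of_injOn (fun a j => crd a j) ?_ ?_ (Finset.finite_toSet _)
    · intro a ha
      rw [Finset.mem_coe, Fintype.mem_piFinset]
      intro j
      rw [Set.Finite.mem_toFinset]
      have h2 := ha.2 j
      rw [abs_le] at h2
      have h3 := (natCast_dvd_iff M (a - s)).mp ha.1 j
      rw [crd_sub] at h3
      exact ⟨by linarith, by linarith, h3⟩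
    · intro a _ b _ hab
      exact crd_ext fun j => congrFun hab j
  have h2 : ((Fintype.piFinset fun j => (hAP j).1.toFinset).card : ℝ) ≤
      (2 * r / M + 1) ^ mK K := by
    rw [Fintype.card_piFinset, ← card_IK (K := K), ← Finset.card_univ]
    push_cast
    rw [← Finset.prod_const]
    refine Finset.prod_le_prod (fun _ _ => by positivity) fun j _ => ?_
    have h3 := (hAP j).2.2
    rw [Set.ncard_eq_toFinset_card _ (hAP j).1] at h3
    refine h3.trans (le_of_eq ?_)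
    ring
  exact le_trans (by exact_mod_cast h1) h2

/-- the coefficient of the first monomial -/
theorem ol_first (u : Fin (n + 1) → ℤ) (hu : u 0 = 1) :
    T (fun _ : Fin d => u) (mk fun _ => 0) = 1 := by
  unfold T
  rw [Finset.sum_eq_single (fun _ => 0)]
  · rw [if_pos rfl]
    simp [hu]
  · intro c _ hc
    rw [if_neg]
    intro h
    apply hc
    have h1 := congrFun (congrArg Subtype.val h) 0
    simp only [GenHP.mk, Finset.filter_true] at h1
    have h3 : ((univ : Finset (Fin d)).filter fun i => c i = 0) = univ :=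
      Finset.eq_univ_of_card _ (by rw [h1, Finset.card_univ])
    funext i
    have h4 : i ∈ ((univ : Finset (Fin d)).filter fun i => c i = 0) := by
      rw [h3]; exact mem_univ _
    exact (mem_filter.mp h4).2
  · intro h
    exact absurd (mem_univ _) h

theorem ol_T_le (u : Fin (n + 1) → ℤ) (M : ℕ) (hu : ∀ i, |u i| ≤ M) (t : Idx n d) :
    |((T (fun _ : Fin d => u) t : ℤ) : ℝ)| ≤ (((n : ℝ) + 1) * M) ^ d := by
  rw [← T_cast]
  refine (T_abs_le _ t).trans ?_
  rw [Finset.prod_const, Finset.card_univ, Fintype.card_fin]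
  refine pow_le_pow_left₀ (Finset.sum_nonneg fun _ _ => abs_nonneg _) ?_ d
  have h1 : ∀ a ∈ (univ : Finset (Fin (n + 1))), |((u a : ℤ) : ℝ)| ≤ (M : ℝ) := by
    intro a _
    have := hu a
    rw [← Int.cast_abs]
    exact_mod_cast this
  refine (Finset.sum_le_card_nsmul _ _ _ h1).trans (le_of_eq ?_)
  rw [Finset.card_univ, Fintype.card_fin, nsmul_eq_mul]
  push_cast
  ring

theorem ol_F_T (u : Fin (n + 1) → ℤ) (x : Fin (n + 1) → 𝓞 K) :
    F (fun t : Idx n d => ((T (fun _ : Fin d => u) t : ℤ) : 𝓞 K)) x =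
      (∑ i, (u i : 𝓞 K) * x i) ^ d := by
  have h1 : (fun t : Idx n d => ((T (fun _ : Fin d => u) t : ℤ) : 𝓞 K)) =
      T (fun _ : Fin d => fun i => ((u i : ℤ) : 𝓞 K)) := by
    funext t
    unfold T
    push_cast
    refine Finset.sum_congr rfl fun c _ => ?_
    split_ifs <;> simp
  rw [h1, F_T]
  simp

/-- forms in one residue class modulo `M` -/
theorem ol_fiber (Cl : ℝ) (hCl : 1 ≤ Cl)
    (hlat : ∀ I : Ideal (𝓞 K), I ≠ ⊥ → ∀ X : InfinitePlace K → ℝ, (∀ w, 0 < X w) →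
    ∀ v : InfinitePlace K → ℂ,
      {a : 𝓞 K | a ∈ I ∧ ∀ w, ‖sg w a - v w‖ ≤ X w}.Finite ∧
      (Set.ncard {a : 𝓞 K | a ∈ I ∧ ∀ w, ‖sg w a - v w‖ ≤ X w} : ℝ) ≤
        Cl * (np X / Ideal.absNorm I + 1))
    (B : ℕ) (hB : 1 ≤ B) (M : ℕ) (hM : 1 ≤ M) (x : Fin (n + 1) → 𝓞 K)
    (u : Fin (n + 1) → ℤ) (hu0 : u 0 = 1) (hu : ∀ i, |u i| ≤ hb n (mK K)) (k1 : ℝ) (hk1 : 0 < k1)
    (hux : ∀ w, k1 * B ≤ ‖sg w (∑ i, (u i : 𝓞 K) * x i)‖)
    (c : Idx n d → IK K → ℝ) (r eta : ℝ) (hr : 0 ≤ r)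
    (heta : 0 ≤ eta) (R : Idx n d → 𝓞 K) (s : Finset (Idx n d → 𝓞 K))
    (hs : ∀ A ∈ s, (∀ m j, |(crd (A m) j : ℝ) - c m j| ≤ r) ∧ (∀ m, (M : 𝓞 K) ∣ A m - R m) ∧
      ∀ w, ‖sg w (F A x)‖ ≤ eta) :
    (s.card : ℝ) ≤ (((2 * (1 + (((n : ℝ) + 1) * hb n (mK K)) ^ d)) * (r / (M : ℝ) + 1)) ^
        (NN n d - 1)) ^ mK K *
      (2 * Cl * (2 * (eta / ((k1 * B) ^ d * M) + 1)) ^ mK K) := by
  classical
  have hMR : (0 : ℝ) < M := by exact_mod_cast hM
  have hBR : (0 : ℝ) < B := by exact_mod_cast hB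
  obtain ⟨τ, hτ⟩ : ∃ τ : ℝ, τ = (((n : ℝ) + 1) * hb n (mK K)) ^ d := ⟨_, rfl⟩
  have hτ0 : 0 ≤ τ := by rw [hτ]; positivity
  rw [← hτ]
  obtain ⟨tu, htu⟩ : ∃ tu : Idx n d → ℤ, tu = T (fun _ : Fin d => u) := ⟨_, rfl⟩
  have htau : ∀ t, |(tu t : ℝ)| ≤ τ := by
    intro t
    rw [htu, hτ]
    exact ol_T_le u _ hu t
  obtain ⟨m0, hm0⟩ : ∃ m0 : Idx n d, m0 = mk fun _ => 0 := ⟨_, rfl⟩
  have htm0 : tu m0 = 1 := by rw [htu, hm0]; exact ol_first u hu0
  obtain ⟨U, hU⟩ : ∃ U : 𝓞 K, U = ∑ i, (u i : 𝓞 K) * x i := ⟨_, rfl⟩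
  have hFT : F (fun t => (tu t : 𝓞 K)) x = U ^ d := by rw [htu, hU]; exact ol_F_T u x
  have hFsub : ∀ (A A' : Idx n d → 𝓞 K) (a : 𝓞 K), (∀ m, A m - A' m = a * tu m) →
      F A x - F A' x = a * U ^ d := by
    intro A A' a h
    rw [← hFT, ← F_smul]
    unfold F
    rw [← Finset.sum_sub_distrib]
    refine Finset.sum_congr rfl fun m _ => ?_
    rw [← sub_mul, h m]
  set a1 : ℝ := (2 * ((1 + τ) * r) / M + 1) ^ mK K with ha1
  set X0 : ℝ := 2 * eta / (k1 * B) ^ d + M with hX0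
  have hX0p : 0 < X0 := by rw [hX0]; positivity
  let g : (Idx n d → 𝓞 K) → (Idx n d → 𝓞 K) := fun A m => A m - tu m * A m0
  have hg0 : ∀ A, g A m0 = 0 := by
    intro A
    simp only [g]
    rw [htm0]
    simp
  let c' : Idx n d → IK K → ℝ := fun m j => c m j - tu m * c m0 j
  have hcoord : ∀ m, {a : 𝓞 K | (M : 𝓞 K) ∣ a - (R m - tu m * R m0) ∧
      ∀ j, |(crd a j : ℝ) - c' m j| ≤ (1 + τ) * r}.Finite ∧
      (Set.ncard {a : 𝓞 K | (M : 𝓞 K) ∣ a - (R m - tu m * R m0) ∧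
      ∀ j, |(crd a j : ℝ) - c' m j| ≤ (1 + τ) * r} : ℝ) ≤ (2 * ((1 + τ) * r) / M + 1) ^ mK K :=
    fun m => ol_coord (c' m) ((1 + τ) * r) (by positivity) M hM (R m - tu m * R m0)
  let X : Idx n d → Finset (𝓞 K) := fun m => (hcoord m).1.toFinset
  have hX : ∀ m, ((X m).card : ℝ) ≤ a1 := by
    intro m
    have := (hcoord m).2
    rw [Set.ncard_eq_toFinset_card _ (hcoord m).1] at this
    exact this
  have himg : s.image g ⊆ Fintype.piFinset (fun m => if m = m0 then {0} else X m) := by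
    intro A' hA'
    rw [Finset.mem_image] at hA'
    obtain ⟨A, hA, rfl⟩ := hA'
    rw [Fintype.mem_piFinset]
    intro m
    by_cases hm : m = m0
    · rw [if_pos hm, hm, hg0]
      exact Finset.mem_singleton_self _
    · rw [if_neg hm]
      change g A m ∈ (hcoord m).1.toFinset
      rw [Set.Finite.mem_toFinset]
      refine ⟨?_, fun j => ?_⟩
      · have e : g A m - (R m - tu m * R m0) = (A m - R m) - tu m * (A m0 - R m0) := by
          simp only [g]; ring
        rw [e]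
        exact dvd_sub ((hs A hA).2.1 m) (Dvd.dvd.mul_left ((hs A hA).2.1 m0) _)
      · have e : (crd (g A m) j : ℝ) - c' m j = ((crd (A m) j : ℝ) - c m j) -
            tu m * ((crd (A m0) j : ℝ) - c m0 j) := by
          simp only [g, c']
          rw [crd_sub, crd_intCast_mul]
          push_cast
          ring
        rw [e]
        refine (abs_sub _ _).trans ?_
        rw [abs_mul]
        have h1 := (hs A hA).1 m j
        have h2 := mul_le_mul (htau m) ((hs A hA).1 m0 j) (abs_nonneg _) hτ0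
        nlinarith
  have ha10 : 0 ≤ a1 := by rw [ha1]; positivity
  have himgc : ((s.image g).card : ℝ) ≤ a1 ^ (NN n d - 1) := by
    have h1 : ((s.image g).card : ℝ) ≤
        ((Fintype.piFinset (fun m => if m = m0 then {0} else X m)).card : ℝ) := by
      exact_mod_cast Finset.card_le_card himg
    refine h1.trans ?_
    rw [Fintype.card_piFinset]
    rw [← Finset.mul_prod_erase univ _ (Finset.mem_univ m0)]
    simp only [if_true, Finset.card_singleton, one_mul]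
    push_cast
    have h2 : a1 ^ (NN n d - 1) = ∏ _m ∈ univ.erase m0, a1 := by
      rw [Finset.prod_const, Finset.card_erase_of_mem (Finset.mem_univ m0), Finset.card_univ]
      rfl
    rw [h2]
    refine Finset.prod_le_prod (fun _ _ => by positivity) fun m hm => ?_
    rw [Finset.mem_erase] at hm
    rw [if_neg hm.1]
    exact hX m
  -- the fibres
  have hspan : Ideal.span {(M : 𝓞 K)} ≠ ⊥ := by
    rw [Ne, Ideal.span_singleton_eq_bot]
    exact_mod_cast (show M ≠ 0 by omega)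
  set a2 : ℝ := Cl * ((X0 / M) ^ mK K + 1) with ha2
  have ha20 : 0 ≤ a2 := by rw [ha2]; positivity
  have hfib : ∀ a ∈ s.image g, (((s.filter fun A => g A = a).card : ℕ) : ℝ) ≤ a2 := by
    intro a _
    rcases (s.filter fun A => g A = a).eq_empty_or_nonempty with he | ⟨A1, hA1⟩
    · rw [he]; simpa using ha20
    · obtain ⟨hfin, hcard⟩ := hlat (Ideal.span {(M : 𝓞 K)}) hspan (fun _ => X0) (fun _ => hX0p)
        (fun _ => 0)
      rw [np_const, cu_absNorm] at hcard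
      push_cast at hcard
      rw [← div_pow] at hcard
      refine le_trans ?_ hcard
      rw [Set.ncard_eq_toFinset_card _ hfin]
      norm_cast
      refine Finset.card_le_card_of_injOn (fun A => A m0 - A1 m0) ?_ ?_
      · intro A hA
        have hA2 := Finset.mem_filter.mp (show A ∈ s.filter (fun A => g A = a) from hA)
        have hA3 := Finset.mem_filter.mp hA1
        rw [Finset.mem_coe, Set.Finite.mem_toFinset]
        have h1 := hs A hA2.1
        have h2 := hs A1 hA3.1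
        refine ⟨?_, fun w => ?_⟩
        · rw [Ideal.mem_span_singleton]
          change (M : 𝓞 K) ∣ A m0 - A1 m0
          have e : A m0 - A1 m0 = (A m0 - R m0) - (A1 m0 - R m0) := by ring
          rw [e]
          exact dvd_sub (h1.2.1 m0) (h2.2.1 m0)
        · have hgg : g A = g A1 := hA2.2.trans hA3.2.symm
          have h3 : F A x - F A1 x = (A m0 - A1 m0) * U ^ d := by
            refine hFsub A A1 _ fun m => ?_
            have := congrFun hgg m
            simp only [g] at this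
            linear_combination this
          have h4 : ‖sg w (A m0 - A1 m0)‖ * ‖sg w U‖ ^ d ≤ 2 * eta := by
            rw [← norm_pow, ← map_pow, ← norm_mul, ← map_mul, ← h3, map_sub]
            refine (norm_sub_le _ _).trans ?_
            linarith [h1.2.2 w, h2.2.2 w]
          have h5 : (k1 * B) ^ d ≤ ‖sg w U‖ ^ d := by
            rw [hU]
            exact pow_le_pow_left₀ (by positivity) (hux w) d
          have h6 : 0 < (k1 * B) ^ d := by positivity
          have h7 : ‖sg w (A m0 - A1 m0)‖ ≤ 2 * eta / (k1 * B) ^ d := by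
            rw [le_div_iff₀ h6]
            exact (mul_le_mul_of_nonneg_left h5 (norm_nonneg _)).trans h4
          rw [sub_zero]
          linarith
      · intro A hA A' hA' hAA
        have hA2 := Finset.mem_filter.mp (show A ∈ s.filter (fun A => g A = a) from hA)
        have hA3 := Finset.mem_filter.mp (show A' ∈ s.filter (fun A => g A = a) from hA')
        have hgg : g A = g A' := hA2.2.trans hA3.2.symm
        have h0 : A m0 = A' m0 := sub_left_injective hAA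
        funext t
        have := congrFun hgg t
        simp only [g, h0] at this
        exact sub_left_injective this
  have hmain : (s.card : ℝ) ≤ a2 * (s.image g).card := by
    have h1 : s.card = ∑ b ∈ s.image g, (s.filter fun A => g A = b).card :=
      Finset.card_eq_sum_card_image g s
    rw [h1]
    push_cast
    refine (Finset.sum_le_card_nsmul _ _ _ hfib).trans (le_of_eq ?_)
    rw [nsmul_eq_mul, mul_comm]
  refine hmain.trans ?_
  rw [mul_comm]
  refine mul_le_mul (himgc.trans ?_) ?_ ha20 (by positivity)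
  · rw [ha1, ← pow_mul, ← pow_mul, mul_comm (NN n d - 1)]
    refine pow_le_pow_left₀ (by positivity) ?_ _
    have h1 : 2 * ((1 + τ) * r) / (M : ℝ) = 2 * (1 + τ) * (r / M) := by ring
    rw [h1]
    nlinarith
  · rw [ha2]
    have h1 : X0 / M = 2 * (eta / ((k1 * B) ^ d * M)) + 1 := by
      rw [hX0]
      field_simp
    have h0 : 0 ≤ eta / ((k1 * B) ^ d * M) := by positivity
    have h2 : X0 / M ≤ 2 * (eta / ((k1 * B) ^ d * M) + 1) := by rw [h1]; linarith
    have h3 : (X0 / M) ^ mK K ≤ (2 * (eta / ((k1 * B) ^ d * M) + 1)) ^ mK K :=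
      pow_le_pow_left₀ (by positivity) h2 _
    have h4 : 1 ≤ (2 * (eta / ((k1 * B) ^ d * M) + 1)) ^ mK K := one_le_pow₀ (by linarith)
    calc Cl * ((X0 / M) ^ mK K + 1) ≤ Cl * ((2 * (eta / ((k1 * B) ^ d * M) + 1)) ^ mK K +
          (2 * (eta / ((k1 * B) ^ d * M) + 1)) ^ mK K) :=
          mul_le_mul_of_nonneg_left (add_le_add h3 h4) (by linarith)
      _ = _ := by ring

/-- solutions of a unimodular linear congruence -/
theorem ol_lin {ι : Type} [Fintype ι] {q : Type} [CommRing q] [Finite q] (v c' : ι → q)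
    (hv : ∑ i, c' i * v i = 1) (b : q) (N : ℕ) (hN : Fintype.card ι = N + 1) :
    Set.ncard {R : ι → q | ∑ i, R i * v i = b} ≤ Nat.card q ^ N := by
  classical
  haveI := Fintype.ofFinite q
  haveI : Nonempty q := ⟨0⟩
  have h1 : Set.ncard {R : ι → q | ∑ i, R i * v i = b} * Nat.card q ≤ Nat.card (ι → q) := by
    rw [← Nat.card_coe_set_eq, ← Nat.card_prod]
    refine Nat.card_le_card_of_injective
      (fun p : {R : ι → q | ∑ i, R i * v i = b} × q => fun i => p.1.1 i + p.2 * c' i) ?_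
    rintro ⟨⟨R, hR⟩, t⟩ ⟨⟨R', hR'⟩, t'⟩ h
    have h2 : ∀ i, R i + t * c' i = R' i + t' * c' i := fun i => congrFun h i
    have h3 : t = t' := by
      have e1 : ∑ i, (R i + t * c' i) * v i = b + t := by
        have : ∑ i, (R i + t * c' i) * v i = ∑ i, R i * v i + t * ∑ i, c' i * v i := by
          rw [Finset.mul_sum, ← Finset.sum_add_distrib]
          refine Finset.sum_congr rfl fun i _ => ?_
          ring
        rw [this, hv, mul_one]
        rw [show ∑ i, R i * v i = b from hR]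
      have e2 : ∑ i, (R' i + t' * c' i) * v i = b + t' := by
        have : ∑ i, (R' i + t' * c' i) * v i = ∑ i, R' i * v i + t' * ∑ i, c' i * v i := by
          rw [Finset.mul_sum, ← Finset.sum_add_distrib]
          refine Finset.sum_congr rfl fun i _ => ?_
          ring
        rw [this, hv, mul_one]
        rw [show ∑ i, R' i * v i = b from hR']
      have e3 : ∑ i, (R i + t * c' i) * v i = ∑ i, (R' i + t' * c' i) * v i :=
        Finset.sum_congr rfl fun i _ => by rw [h2 i]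
      rw [e1, e2] at e3
      exact add_left_cancel e3
    subst h3
    have h4 : R = R' := by
      funext i
      exact add_right_cancel (h2 i)
    subst h4
    rfl
  rw [Nat.card_fun, Nat.card_eq_fintype_card (α := ι), hN, pow_succ] at h1
  exact Nat.le_of_mul_le_mul_right h1 Nat.card_pos

theorem omega_loc_le (K : Type) [Field K] [NumberField K] (n d : ℕ) (hd : 1 ≤ d) :
    ∃ C : ℝ, 0 < C ∧ ∀ (B : ℕ), 1 ≤ B → ∀ (W Q s : ℕ), 0 < W → Q ∣ W ^ s →
    ∀ (A0 : Idx n d → 𝓞 K) (x : Fin (n + 1) → 𝓞 K),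
    (∃ c : Fin (n + 1) → 𝓞 K, IsCoprime (∑ i, c i * x i) (W : 𝓞 K)) →
    ∀ (u : Fin (n + 1) → ℤ), u 0 = 1 → (∀ i, |u i| ≤ hb n (mK K)) → ∀ k1 : ℝ, 0 < k1 →
    (∀ w, k1 * B ≤ ‖sg w (∑ i, (u i : 𝓞 K) * x i)‖) →
    ∀ (c : Idx n d → IK K → ℝ) (r eta : ℝ), 0 ≤ r → 0 ≤ eta →
    (Set.ncard {A : Idx n d → 𝓞 K | (∀ m j, |(crd (A m) j : ℝ) - c m j| ≤ r) ∧
      (∀ m, (Q : 𝓞 K) ∣ A m - A0 m) ∧ (W : 𝓞 K) ^ s ∣ F A x ∧ ∀ w, ‖sg w (F A x)‖ ≤ eta} : ℝ) ≤
      C * (((W ^ s / Q : ℕ) : ℝ) ^ (NN n d - 1) * (r / (W : ℝ) ^ s + 1) ^ (NN n d - 1) *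
        (eta / ((k1 * B) ^ d * (W : ℝ) ^ s) + 1)) ^ mK K := by
  classical
  obtain ⟨Cl, hCl, hlat⟩ := lat_upper K
  obtain ⟨τ, hτ⟩ : ∃ τ : ℝ, τ = (((n : ℝ) + 1) * hb n (mK K)) ^ d := ⟨_, rfl⟩
  have hτ0 : 0 ≤ τ := by rw [hτ]; positivity
  refine ⟨((2 * (1 + τ)) ^ (NN n d - 1)) ^ mK K * (2 * Cl * 2 ^ mK K), by positivity, ?_⟩
  intro B hB W Q s hW hQ A0 x hx u hu0 hu k1 hk1 hux c r eta hr heta
  obtain ⟨S, hS⟩ : ∃ S : Set (Idx n d → 𝓞 K), S = {A : Idx n d → 𝓞 K |
      (∀ m j, |(crd (A m) j : ℝ) - c m j| ≤ r) ∧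
      (∀ m, (Q : 𝓞 K) ∣ A m - A0 m) ∧ (W : 𝓞 K) ^ s ∣ F A x ∧ ∀ w, ‖sg w (F A x)‖ ≤ eta} :=
    ⟨_, rfl⟩
  rw [← hS]
  have hM0 : 0 < W ^ s := pow_pos hW s
  obtain ⟨N, hN⟩ := hQ
  have hQ0 : 0 < Q := Nat.pos_of_ne_zero (by rintro rfl; rw [zero_mul] at hN; omega)
  have hN0 : 0 < N := Nat.pos_of_ne_zero (by rintro rfl; rw [mul_zero] at hN; omega)
  have hdiv : W ^ s / Q = N := by rw [hN]; exact Nat.mul_div_cancel_left _ hQ0
  rw [hdiv]
  have hWn : (W : 𝓞 K) ^ s = (Q : 𝓞 K) * N := by exact_mod_cast congrArg (Nat.cast (R := 𝓞 K)) hN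
  have hWnR : (W : ℝ) ^ s = ((W ^ s : ℕ) : ℝ) := by push_cast; rfl
  have hfin : S.Finite := by
    rw [hS]
    refine (Set.Finite.pi fun t => cube_finite (c t) r).subset ?_
    intro A hA
    rw [Set.mem_pi]
    exact fun t _ => hA.1 t
  rcases S.eq_empty_or_nonempty with he | ⟨A1, hA1⟩
  · rw [he]
    simp only [Set.ncard_empty, Nat.cast_zero]
    positivity
  set sF : Finset (Idx n d → 𝓞 K) := hfin.toFinset with hs
  have hmem : ∀ A, A ∈ sF ↔ A ∈ S := fun A => by rw [hs, Set.Finite.mem_toFinset]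
  rw [Set.ncard_eq_toFinset_card _ hfin, ← hs]
  -- division by Q
  have hdv : ∃ dv : 𝓞 K → 𝓞 K, ∀ z, (Q : 𝓞 K) ∣ z → z = Q * dv z := by
    refine ⟨fun z => if h : (Q : 𝓞 K) ∣ z then h.choose else 0, fun z hz => ?_⟩
    simp only [dif_pos hz]
    exact hz.choose_spec
  obtain ⟨dv, hdv⟩ := hdv
  have hNs : Ideal.span {(N : 𝓞 K)} ≠ ⊥ := by
    rw [Ne, Ideal.span_singleton_eq_bot]
    exact_mod_cast hN0.ne'
  have hcardq : Nat.card (𝓞 K ⧸ Ideal.span {(N : 𝓞 K)}) = N ^ mK K := by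
    rw [← cu_absNorm, Ideal.absNorm_apply, Submodule.cardQuot_apply]
  haveI hfq : Finite (𝓞 K ⧸ Ideal.span {(N : 𝓞 K)}) := by
    refine Nat.finite_of_card_ne_zero ?_
    rw [hcardq]
    positivity
  obtain ⟨π, hπ⟩ : ∃ π : 𝓞 K →+* 𝓞 K ⧸ Ideal.span {(N : 𝓞 K)},
    π = Ideal.Quotient.mk (Ideal.span {(N : 𝓞 K)}) := ⟨_, rfl⟩
  have hπ0 : ∀ a b, π a = π b ↔ (N : 𝓞 K) ∣ a - b := by
    intro a b
    rw [hπ, Ideal.Quotient.eq, Ideal.mem_span_singleton]
  let ρ : (Idx n d → 𝓞 K) → (Idx n d → 𝓞 K ⧸ Ideal.span {(N : 𝓞 K)}) :=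
    fun A m => π (dv (A m - A0 m))
  obtain ⟨b, hb⟩ : ∃ b, b = ∑ m : Idx n d, ρ A1 m * π (mon x m.1) := ⟨_, rfl⟩
  obtain ⟨TS, hT⟩ : ∃ TS : Set (Idx n d → 𝓞 K ⧸ Ideal.span {(N : 𝓞 K)}),
    TS = {R | ∑ i : Idx n d, R i * π (mon x i.1) = b} := ⟨_, rfl⟩
  have hTfin : TS.Finite := Set.toFinite _
  have hTcard : TS.ncard ≤ (N ^ mK K) ^ (NN n d - 1) := by
    obtain ⟨c', hc'⟩ := hx
    have h2 : IsCoprime ((∑ i, c' i * x i) ^ d) ((W : 𝓞 K) ^ s) := (hc'.pow_left).pow_right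
    rw [hWn] at h2
    have h3 := h2.of_mul_right_right
    obtain ⟨α, β, hαβ⟩ := h3
    have h1 : ∑ i : Idx n d, T (fun _ : Fin d => c') i * mon x i.1 = (∑ i, c' i * x i) ^ d := by
      have := F_T (fun _ : Fin d => c') x
      unfold F at this
      rw [this]; simp
    have h4 : ∑ i : Idx n d, π (α * T (fun _ : Fin d => c') i) * π (mon x i.1) = 1 := by
      have : ∑ i : Idx n d, π (α * T (fun _ : Fin d => c') i) * π (mon x i.1) =
          π (α * (∑ i, c' i * x i) ^ d) := by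
        rw [← h1, Finset.mul_sum, map_sum]
        refine Finset.sum_congr rfl fun i _ => ?_
        rw [← map_mul, mul_assoc]
      rw [this, ← map_one π, hπ0]
      refine ⟨-β, ?_⟩
      linear_combination hαβ
    have hc : Fintype.card (Idx n d) = (NN n d - 1) + 1 := by
      have := NN_pos n d
      unfold NN at *
      omega
    have h5 := ol_lin (fun i : Idx n d => π (mon x i.1))
      (fun i => π (α * T (fun _ : Fin d => c') i)) h4 b (NN n d - 1) hc
    rw [hcardq] at h5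
    rw [hT]
    exact h5
  have himg : sF.image ρ ⊆ hTfin.toFinset := by
    intro R hR
    rw [Finset.mem_image] at hR
    obtain ⟨A, hA, rfl⟩ := hR
    rw [Set.Finite.mem_toFinset, hT]
    rw [hmem, hS] at hA
    rw [hS] at hA1
    change ∑ i : Idx n d, ρ A i * π (mon x i.1) = b
    rw [hb]
    have e : ∀ A', ∑ i : Idx n d, ρ A' i * π (mon x i.1) =
        π (∑ i : Idx n d, dv (A' i - A0 i) * mon x i.1) := by
      intro A'
      rw [map_sum]
      refine Finset.sum_congr rfl fun i _ => ?_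
      rw [map_mul]
    rw [e, e, hπ0]
    have hQZ : (Q : 𝓞 K) ≠ 0 := by exact_mod_cast hQ0.ne'
    have hsub : F A x - F A1 x = Q * (∑ i : Idx n d, dv (A i - A0 i) * mon x i.1 -
        ∑ i : Idx n d, dv (A1 i - A0 i) * mon x i.1) := by
      rw [← Finset.sum_sub_distrib, Finset.mul_sum]
      unfold F
      rw [← Finset.sum_sub_distrib]
      refine Finset.sum_congr rfl fun m _ => ?_
      have e1 := hdv _ (hA.2.1 m)
      have e2 := hdv _ (hA1.2.1 m)
      calc A m * mon x m.1 - A1 m * mon x m.1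
          = ((A m - A0 m) - (A1 m - A0 m)) * mon x m.1 := by ring
        _ = (Q * dv (A m - A0 m) - Q * dv (A1 m - A0 m)) * mon x m.1 := by rw [← e1, ← e2]
        _ = _ := by ring
    have hdvd : (Q : 𝓞 K) * N ∣ Q * (∑ i : Idx n d, dv (A i - A0 i) * mon x i.1 -
        ∑ i : Idx n d, dv (A1 i - A0 i) * mon x i.1) := by
      rw [← hsub, ← hWn]
      exact dvd_sub hA.2.2.1 hA1.2.2.1
    exact (mul_dvd_mul_iff_left hQZ).mp hdvd
  have himgc : (sF.image ρ).card ≤ (N ^ mK K) ^ (NN n d - 1) := by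
    refine (Finset.card_le_card himg).trans ?_
    rw [← Set.ncard_eq_toFinset_card _ hTfin]
    exact hTcard
  obtain ⟨a3, ha3⟩ : ∃ a3 : ℝ, a3 = (((2 * (1 + τ)) * (r / ((W ^ s : ℕ) : ℝ) + 1)) ^
        (NN n d - 1)) ^ mK K *
      (2 * Cl * (2 * (eta / ((k1 * B) ^ d * ((W ^ s : ℕ) : ℝ)) + 1)) ^ mK K) := ⟨_, rfl⟩
  have ha30 : 0 ≤ a3 := by rw [ha3]; positivity
  have hfib : ∀ R ∈ sF.image ρ, (((sF.filter fun A => ρ A = R).card : ℕ) : ℝ) ≤ a3 := by
    intro R _
    rcases (sF.filter fun A => ρ A = R).eq_empty_or_nonempty with he | ⟨A2, hA2⟩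
    · rw [he]; simpa using ha30
    · rw [ha3, hτ]
      refine ol_fiber Cl hCl hlat B hB (W ^ s) hM0 x u hu0 hu k1 hk1 hux c r eta hr heta A2
        (sF.filter fun A => ρ A = R) ?_
      intro A hA
      rw [Finset.mem_filter, hmem] at hA hA2
      have hA' := hA.1
      have hA2' := hA2.1
      rw [hS] at hA' hA2'
      refine ⟨hA'.1, fun m => ?_, hA'.2.2.2⟩
      have e1 := hdv _ (hA'.2.1 m)
      have e2 := hdv _ (hA2'.2.1 m)
      have e3 : ρ A m = ρ A2 m := congrFun (hA.2.trans hA2.2.symm) m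
      have e4 : (N : 𝓞 K) ∣ dv (A m - A0 m) - dv (A2 m - A0 m) := (hπ0 _ _).mp e3
      obtain ⟨t, ht⟩ := e4
      have e5 : ((W ^ s : ℕ) : 𝓞 K) = Q * N := by rw [← hWn]; push_cast; rfl
      rw [e5]
      refine ⟨t, ?_⟩
      linear_combination e1 - e2 + Q * ht
  have hmain : (sF.card : ℝ) ≤ (sF.image ρ).card * a3 := by
    have h1 : sF.card = ∑ b ∈ sF.image ρ, (sF.filter fun A => ρ A = b).card :=
      Finset.card_eq_sum_card_image ρ sF
    rw [h1]
    push_cast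
    refine (Finset.sum_le_card_nsmul _ _ _ hfib).trans (le_of_eq ?_)
    rw [nsmul_eq_mul]
  refine hmain.trans ?_
  have himgc' : ((sF.image ρ).card : ℝ) ≤ ((N : ℝ) ^ mK K) ^ (NN n d - 1) := by
    exact_mod_cast himgc
  refine (mul_le_mul_of_nonneg_right himgc' ha30).trans (le_of_eq ?_)
  rw [ha3, hWnR]
  simp only [mul_pow, ← pow_mul]
  rw [mul_comm (mK K) (NN n d - 1)]
  ring

end NFHP
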