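import Pool.Agent.Lib.MP_e426f4_ag.N.Const
import Pool.Agent.Lib.MP_e426f4_ag.N.SumNorm
import Pool.Agent.Lib.MP_e426f4_ag.N.Ideals

/-! The sum over the second point of a bad pair. -/

set_option linter.unusedSectionVars false

namespace NFHP

open NumberField GenHP Finset Filter Topology

variable {K : Type} [Field K] [NumberField K] {n d : ℕ}

/-- Two vectors orthogonal to `n` independent vectors of an `n + 1`-dimensional space are
proportional. -/
theorem sumBad_orth {k : Type*} [Field k] (l : Fin n → Fin (n + 1) → k)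
    (hl : LinearIndependent k l) (x y : Fin (n + 1) → k)
    (hx : x ≠ 0) (hlx : ∀ k, ∑ i, l k i * x i = 0) (hly : ∀ k, ∑ i, l k i * y i = 0) :
    ∃ c : k, ∀ i, y i = c * x i := by
  classical
  set M : Matrix (Fin n) (Fin (n + 1)) k := Matrix.of l with hM
  have hrank : M.rank = n := by
    have h := LinearIndependent.rank_matrix (M := M) hl
    simpa using h
  have h1 : Module.finrank k (LinearMap.range M.mulVecLin) = n := hrank
  have h2 := LinearMap.finrank_range_add_finrank_ker M.mulVecLin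
  rw [h1] at h2
  have h3 : Module.finrank k (Fin (n + 1) → k) = n + 1 := by simp
  rw [h3] at h2
  have h4 : Module.finrank k (LinearMap.ker M.mulVecLin) = 1 := by omega
  have hxk : x ∈ LinearMap.ker M.mulVecLin := by
    rw [LinearMap.mem_ker]
    ext k
    simpa [Matrix.mulVec, dotProduct, hM] using hlx k
  have hyk : y ∈ LinearMap.ker M.mulVecLin := by
    rw [LinearMap.mem_ker]
    ext k
    simpa [Matrix.mulVec, dotProduct, hM] using hly k
  have hx0 : (⟨x, hxk⟩ : LinearMap.ker M.mulVecLin) ≠ 0 := by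
    intro h
    exact hx (congrArg Subtype.val h)
  obtain ⟨c, hc⟩ := (finrank_eq_one_iff_of_nonzero' _ hx0).1 h4 ⟨y, hyk⟩
  refine ⟨c, fun i => ?_⟩
  have := congrArg (fun v : LinearMap.ker M.mulVecLin => (v : Fin (n + 1) → k) i) hc
  simpa using this.symm

theorem sumBad_fibre {α β : Type*} [DecidableEq β] (S : Finset α) (g : α → β) (f : β → ℝ)
    (hf : ∀ b ∈ S.image g, 0 ≤ f b) (N : ℕ)
    (hN : ∀ b ∈ S.image g, (S.filter fun a => g a = b).card ≤ N) :
    ∑ a ∈ S, f (g a) ≤ N * ∑ b ∈ S.image g, f b := by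
  rw [Finset.sum_comp, Finset.mul_sum]
  refine Finset.sum_le_sum fun b hb => ?_
  rw [nsmul_eq_mul]
  exact mul_le_mul_of_nonneg_right (by exact_mod_cast hN b hb) (hf b hb)

/-- the integers of bounded size -/
theorem sumBad_finite (R : ℝ) : {a : 𝓞 K | ∀ w, ‖sg w a‖ ≤ R}.Finite := by
  classical
  have h1 : Set.Finite {c : IK K → ℤ | ∀ j, |((c j : ℤ) : ℝ)| ≤ cK K * R} := by
    have h2 : {c : IK K → ℤ | ∀ j, |((c j : ℤ) : ℝ)| ≤ cK K * R} ⊆
        Set.pi Set.univ (fun _ : IK K => Set.Icc (-⌊cK K * R⌋) ⌊cK K * R⌋) := by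
      intro c hc j _
      have h3 := hc j
      rw [abs_le] at h3
      refine ⟨?_, Int.le_floor.2 h3.2⟩
      have h4 : (-(c j) : ℤ) ≤ ⌊cK K * R⌋ := by
        apply Int.le_floor.2
        push_cast
        linarith [h3.1]
      linarith
    exact (Set.Finite.pi' fun _ => Set.finite_Icc _ _).subset (by
      intro c hc j
      exact h2 hc j (Set.mem_univ j))
  refine Set.Finite.of_finite_image (f := fun a : 𝓞 K => fun j => crd a j) (h1.subset ?_) ?_
  · rintro _ ⟨a, ha, rfl⟩ j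
    exact crd_le_of_norm_sg ha j
  · intro a _ b _ h
    exact crd_ext fun j => congrFun h j

/-- a short form at `y` lies in the ideal of minors -/
theorem sumBad_mem (x y l : Fin (n + 1) → 𝓞 K) (hx : Prim x) (hl : ∑ i, l i * x i = 0) :
    ∑ i, l i * y i ∈ mgI x y := by
  obtain ⟨c, hc⟩ := hx
  have h1 : ∑ i, l i * y i = ∑ i, ∑ j, (c i * l j) * minor x y i j := by
    have h2 : ∑ i, ∑ j, (c i * l j) * minor x y i j =
        (∑ i, c i * x i) * (∑ j, l j * y j) - (∑ i, c i * y i) * (∑ j, l j * x j) := by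
      rw [Finset.sum_mul_sum, Finset.sum_mul_sum, ← Finset.sum_sub_distrib]
      refine Finset.sum_congr rfl fun i _ => ?_
      rw [← Finset.sum_sub_distrib]
      refine Finset.sum_congr rfl fun j _ => ?_
      unfold minor
      ring
    rw [h2, hc, hl]
    ring
  rw [h1]
  refine Ideal.sum_mem _ fun i _ => Ideal.sum_mem _ fun j _ => Ideal.mul_mem_left _ _ ?_
  exact Ideal.subset_span ⟨(i, j), rfl⟩

theorem sumBad_minor_le (x y : Fin (n + 1) → 𝓞 K) (a b : Fin (n + 1)) (w : InfinitePlace K) :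
    ‖sg w (minor x y a b)‖ ≤ dl w x y := by
  unfold dl
  exact Finset.single_le_sum (f := fun p : Fin (n + 1) × Fin (n + 1) =>
    ‖sg w (minor x y p.1 p.2)‖) (fun p _ => norm_nonneg _) (Finset.mem_univ (a, b))

theorem sumBad_dl_nonneg (x y : Fin (n + 1) → 𝓞 K) (w : InfinitePlace K) : 0 ≤ dl w x y :=
  Finset.sum_nonneg fun _ _ => norm_nonneg _

/-- proportional vectors have no minors -/
theorem sumBad_bot (x y : Fin (n + 1) → 𝓞 K) (c : K)
    (h : ∀ i, ((y i : 𝓞 K) : K) = c * ((x i : 𝓞 K) : K)) : mgI x y = ⊥ := by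
  unfold mgI
  rw [Ideal.span_eq_bot]
  rintro _ ⟨p, rfl⟩
  apply RingOfIntegers.coe_injective
  have h1 : algebraMap (𝓞 K) K (y p.1) = c * algebraMap (𝓞 K) K (x p.1) := h p.1
  have h2 : algebraMap (𝓞 K) K (y p.2) = c * algebraMap (𝓞 K) K (x p.2) := h p.2
  show algebraMap (𝓞 K) K (minor x y p.1 p.2) = algebraMap (𝓞 K) K 0
  unfold minor
  rw [map_sub, map_mul, map_mul, map_zero, h1, h2]
  ring

section point

variable {x y : Fin (n + 1) → 𝓞 K} {l : Fin n → Fin (n + 1) → 𝓞 K}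

theorem sumBad_ne_zero
    (hl : LinearIndependent K (fun k : Fin n => fun i : Fin (n + 1) => ((l k i : 𝓞 K) : K)))
    (hlx : ∀ k, ∑ i, l k i * x i = 0) (hx0 : x ≠ 0) (hxy : mgI x y ≠ ⊥) :
    (fun k => ∑ i, l k i * y i) ≠ 0 := by
  intro h
  apply hxy
  have hx0' : (fun i => ((x i : 𝓞 K) : K)) ≠ 0 := by
    intro h1
    apply hx0
    funext i
    apply RingOfIntegers.coe_injective
    exact congrFun h1 i
  obtain ⟨c, hc⟩ := sumBad_orth _ hl _ (fun i => ((y i : 𝓞 K) : K)) hx0'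
    (fun k => by
      have h2 := congrArg (fun a : 𝓞 K => (a : K)) (hlx k)
      simpa using h2)
    (fun k => by
      have h2 := congrArg (fun a : 𝓞 K => (a : K)) (congrFun h k)
      simpa using h2)
  exact sumBad_bot x y c hc

/-- the fibres of `y ↦ (l_k · y)_k` -/
theorem sumBad_diff (hx : Prim x)
    (hl : LinearIndependent K (fun k : Fin n => fun i : Fin (n + 1) => ((l k i : 𝓞 K) : K)))
    (hlx : ∀ k, ∑ i, l k i * x i = 0) (hx0 : x ≠ 0) (y' : Fin (n + 1) → 𝓞 K)
    (h : ∀ k, ∑ i, l k i * y i = ∑ i, l k i * y' i) :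
    ∃ a : 𝓞 K, ∀ i, y i = y' i + a * x i := by
  have hx0' : (fun i => ((x i : 𝓞 K) : K)) ≠ 0 := by
    intro h1
    apply hx0
    funext i
    apply RingOfIntegers.coe_injective
    exact congrFun h1 i
  obtain ⟨c, hc⟩ := sumBad_orth _ hl _ (fun i => ((y i - y' i : 𝓞 K) : K)) hx0'
    (fun k => by
      have h2 := congrArg (fun a : 𝓞 K => (a : K)) (hlx k)
      simpa using h2)
    (fun k => by
      have h3 : ∑ i, l k i * (y i - y' i) = 0 := by
        simp only [mul_sub, Finset.sum_sub_distrib]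
        rw [h k, sub_self]
      have h2 := congrArg (fun a : 𝓞 K => (a : K)) h3
      simpa using h2)
  obtain ⟨u, hu⟩ := hx
  refine ⟨∑ i, u i * (y i - y' i), fun i => ?_⟩
  have hcK : c = ((∑ i, u i * (y i - y' i) : 𝓞 K) : K) := by
    have h4 : ((∑ i, u i * (y i - y' i) : 𝓞 K) : K) = c * ((∑ i, u i * x i : 𝓞 K) : K) := by
      push_cast
      rw [Finset.mul_sum]
      refine Finset.sum_congr rfl fun i _ => ?_
      have := hc i
      push_cast at this
      rw [this]
      ring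
    rw [h4, hu]
    simp
  have h5 := hc i
  rw [hcK] at h5
  have h6 : y i - y' i = (∑ i, u i * (y i - y' i)) * x i := by
    apply RingOfIntegers.coe_injective
    simpa using h5
  rw [← h6]
  ring

theorem sumBad_mul (i₀ : Fin (n + 1)) (l : Fin (n + 1) → 𝓞 K) (hlx : ∑ i, l i * x i = 0) :
    x i₀ * ∑ i, l i * y i = ∑ j, l j * minor x y i₀ j := by
  have h1 : ∑ j, l j * minor x y i₀ j = x i₀ * ∑ i, l i * y i - y i₀ * ∑ i, l i * x i := by
    rw [Finset.mul_sum, Finset.mul_sum, ← Finset.sum_sub_distrib]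
    refine Finset.sum_congr rfl fun j _ => ?_
    unfold minor
    ring
  rw [h1, hlx, mul_zero, sub_zero]

theorem sumBad_form_le (l : Fin (n + 1) → 𝓞 K) (hlx : ∑ i, l i * x i = 0) (mu B : ℝ) (hB : 0 < B)
    (hmu : 0 ≤ mu) (w : InfinitePlace K) (hl : ∀ i, ‖sg w (l i)‖ ≤ mu)
    (hx : ∃ i, B / 2 ≤ ‖sg w (x i)‖) :
    ‖sg w (∑ i, l i * y i)‖ ≤ 2 * ((n : ℝ) + 1) * mu / B * dl w x y := by
  obtain ⟨i₀, hi₀⟩ := hx
  have h1 : ‖sg w (x i₀ * ∑ i, l i * y i)‖ ≤ ((n : ℝ) + 1) * mu * dl w x y := by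
    rw [sumBad_mul i₀ l hlx, map_sum]
    calc ‖∑ j, sg w (l j * minor x y i₀ j)‖ ≤ ∑ j, ‖sg w (l j * minor x y i₀ j)‖ :=
          norm_sum_le _ _
      _ ≤ ∑ _j : Fin (n + 1), mu * dl w x y := by
          refine Finset.sum_le_sum fun j _ => ?_
          rw [map_mul, norm_mul]
          exact mul_le_mul (hl j) (sumBad_minor_le x y i₀ j w) (norm_nonneg _) hmu
      _ = ((n : ℝ) + 1) * mu * dl w x y := by simp; ring
  rw [map_mul, norm_mul] at h1
  have h2 : B / 2 * ‖sg w (∑ i, l i * y i)‖ ≤ ((n : ℝ) + 1) * mu * dl w x y :=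
    (mul_le_mul_of_nonneg_right hi₀ (norm_nonneg _)).trans h1
  have h3 : 2 * ((n : ℝ) + 1) * mu / B * dl w x y = 2 * (((n : ℝ) + 1) * mu * dl w x y) / B := by
    ring
  rw [h3, le_div_iff₀ hB]
  linarith

theorem sumBad_form_le' (l : Fin (n + 1) → 𝓞 K) (mu B : ℝ)
    (hmu : 0 ≤ mu) (w : InfinitePlace K) (hl : ∀ i, ‖sg w (l i)‖ ≤ mu)
    (hy : ∀ i, ‖sg w (y i)‖ ≤ 2 * B) :
    ‖sg w (∑ i, l i * y i)‖ ≤ 2 * ((n : ℝ) + 1) * mu * B := by
  rw [map_sum]
  calc ‖∑ j, sg w (l j * y j)‖ ≤ ∑ j, ‖sg w (l j * y j)‖ := norm_sum_le _ _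
    _ ≤ ∑ _j : Fin (n + 1), mu * (2 * B) := by
        refine Finset.sum_le_sum fun j _ => ?_
        rw [map_mul, norm_mul]
        exact mul_le_mul (hl j) (hy j) (norm_nonneg _) hmu
    _ = 2 * ((n : ℝ) + 1) * mu * B := by simp; ring

end point

/-- the general estimate -/
theorem sumBad_key (K : Type) [Field K] [NumberField K] (n : ℕ) (hn : 3 ≤ n) :
    ∃ C : ℝ, 0 < C ∧ ∀ (mu B : ℝ), 0 < mu → 0 < B → ∀ x : Fin (n + 1) → 𝓞 K, Prim x →
    (∀ w, ∃ i, B / 2 ≤ ‖sg w (x i)‖) → ∀ l : Fin n → Fin (n + 1) → 𝓞 K,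
    LinearIndependent K (fun k : Fin n => fun i : Fin (n + 1) => ((l k i : 𝓞 K) : K)) →
    (∀ k, ∑ i, l k i * x i = 0) → (∀ k i w, ‖sg w (l k i)‖ ≤ mu) →
    ∀ S : Finset (Fin (n + 1) → 𝓞 K), (∀ y ∈ S, y ∈ Bx n (2 * B) ∧ mgI x y ≠ ⊥) →
    ∀ Y : InfinitePlace K → ℝ, (∀ w, 0 < Y w) →
    (∀ y ∈ S, ∀ k w, ‖sg w (∑ i, l k i * y i)‖ ≤ Y w) → ∀ E : ℝ,
    (∀ J : Finset (Ideal (𝓞 K)), (∀ I ∈ J, ∃ y ∈ S, I = mgI x y) →
      ∑ I ∈ J, 1 / (Ideal.absNorm I : ℝ) ^ 2 ≤ E) →
    ∑ y ∈ S, (mgN x y : ℝ) / np (fun w => dl w x y) ≤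
      C * (mu / B) ^ mK K * np Y ^ (n - 1) * E := by
  classical
  obtain ⟨C, hC, hsum⟩ := sum_inv K n (by omega)
  set N8 : ℕ := (sumBad_finite (K := K) 8).toFinset.card with hN8
  set A : ℝ := 2 * ((n : ℝ) + 1) * n with hA
  have hn0 : (0 : ℝ) < n := by
    have : 0 < n := by omega
    exact_mod_cast this
  have hA0 : 0 < A := by rw [hA]; positivity
  refine ⟨A ^ mK K * (N8 + 1) * C, by positivity, ?_⟩
  intro mu B hmu hB x hx hxB l hl hlx hlmu S hS Y hY hSY E hE
  have hx0 : x ≠ 0 := by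
    rintro rfl
    obtain ⟨c, hc⟩ := hx
    simp at hc
  set z : (Fin (n + 1) → 𝓞 K) → (Fin n → 𝓞 K) := fun y => fun k => ∑ i, l k i * y i with hz
  have hzne : ∀ y ∈ S, z y ≠ 0 := fun y hy => sumBad_ne_zero hl hlx hx0 (hS y hy).2
  have hvn : ∀ y, ∀ w, vn w (z y) ≤ A * (mu / B) * dl w x y := by
    intro y w
    unfold vn
    calc ∑ k, ‖sg w (z y k)‖ ≤ ∑ _k : Fin n, 2 * ((n : ℝ) + 1) * mu / B * dl w x y :=
          Finset.sum_le_sum fun k _ => sumBad_form_le (l k) (hlx k) mu B hB hmu.le w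
            (fun i => hlmu k i w) (hxB w)
      _ = A * (mu / B) * dl w x y := by
          rw [Finset.sum_const, Finset.card_univ, Fintype.card_fin, nsmul_eq_mul, hA]
          ring
  have hvn0 : ∀ y ∈ S, ∀ w, 0 < vn w (z y) := by
    intro y hy w
    obtain ⟨k, hk⟩ : ∃ k, z y k ≠ 0 := by
      by_contra hcon
      push Not at hcon
      exact hzne y hy (funext hcon)
    have h1 : ‖sg w (z y k)‖ ≤ vn w (z y) := by
      unfold vn
      exact Finset.single_le_sum (f := fun k => ‖sg w (z y k)‖) (fun p _ => norm_nonneg _)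
        (Finset.mem_univ k)
    exact (norm_sg_pos w hk).trans_le h1
  have hdl0 : ∀ y ∈ S, ∀ w, 0 < dl w x y := by
    intro y hy w
    have h1 := (hvn0 y hy w).trans_le (hvn y w)
    by_contra h
    have h2 : dl w x y = 0 := le_antisymm (not_lt.1 h) (sumBad_dl_nonneg x y w)
    rw [h2, mul_zero] at h1
    exact lt_irrefl _ h1
  have hc0 : 0 < A * (mu / B) := by positivity
  -- one term
  have hterm : ∀ y ∈ S, (mgN x y : ℝ) / np (fun w => dl w x y) ≤
      (A * (mu / B)) ^ mK K * ((Ideal.absNorm (mgI x y) : ℝ) * (1 / np (fun w => vn w (z y)))) := by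
    intro y hy
    have h1 : np (fun w => vn w (z y)) ≤ (A * (mu / B)) ^ mK K * np (fun w => dl w x y) := by
      rw [← np_const, ← np_mul]
      exact np_mono (fun w => (hvn0 y hy w).le) (hvn y)
    have h2 : 0 < np (fun w => vn w (z y)) := np_pos (hvn0 y hy)
    have h3 : 0 < np (fun w => dl w x y) := np_pos (hdl0 y hy)
    have h4 : (A * (mu / B)) ^ mK K * ((Ideal.absNorm (mgI x y) : ℝ) *
        (1 / np (fun w => vn w (z y)))) = ((A * (mu / B)) ^ mK K * (mgN x y : ℝ)) /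
        np (fun w => vn w (z y)) := by
      unfold mgN
      ring
    rw [h4, div_le_div_iff₀ h3 h2]
    calc (mgN x y : ℝ) * np (fun w => vn w (z y)) ≤
        (mgN x y : ℝ) * ((A * (mu / B)) ^ mK K * np (fun w => dl w x y)) :=
          mul_le_mul_of_nonneg_left h1 (Nat.cast_nonneg _)
      _ = _ := by ring
  -- fibres of `z`
  have hfib : ∀ (S' : Finset (Fin (n + 1) → 𝓞 K)), S' ⊆ S →
      ∀ b ∈ S'.image z, (S'.filter fun y => z y = b).card ≤ N8 := by
    intro S' hS' b hb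
    obtain ⟨y0, hy0, hyb⟩ := Finset.mem_image.1 hb
    have hsub : (S'.filter fun y => z y = b) ⊆
        ((sumBad_finite (K := K) 8).toFinset).image (fun a => fun i => y0 i + a * x i) := by
      intro y hy
      rw [Finset.mem_filter] at hy
      have h1 : ∀ k, ∑ i, l k i * y i = ∑ i, l k i * y0 i := fun k =>
        congrFun (hy.2.trans hyb.symm) k
      obtain ⟨a, ha⟩ := sumBad_diff hx hl hlx hx0 y0 h1
      rw [Finset.mem_image]
      refine ⟨a, ?_, by ext i; rw [ha i]⟩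
      rw [Set.Finite.mem_toFinset]
      intro w
      obtain ⟨i, hi⟩ := hxB w
      have h2 : ‖sg w (a * x i)‖ ≤ 4 * B := by
        have h3 : a * x i = y i - y0 i := by rw [ha i]; ring
        rw [h3, map_sub]
        calc ‖sg w (y i) - sg w (y0 i)‖ ≤ ‖sg w (y i)‖ + ‖sg w (y0 i)‖ := norm_sub_le _ _
          _ ≤ 2 * B + 2 * B := add_le_add ((hS y (hS' hy.1)).1 i w) ((hS y0 (hS' hy0)).1 i w)
          _ = 4 * B := by ring
      rw [map_mul, norm_mul] at h2
      have h4 : ‖sg w a‖ * (B / 2) ≤ 4 * B :=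
        (mul_le_mul_of_nonneg_left hi (norm_nonneg _)).trans h2
      by_contra hcon
      push Not at hcon
      nlinarith
    calc (S'.filter fun y => z y = b).card ≤ _ := Finset.card_le_card hsub
      _ ≤ N8 := Finset.card_image_le
  -- one ideal
  have hnpY : 0 < np Y := np_pos hY
  have hideal : ∀ I ∈ S.image (mgI x), ∑ y ∈ S.filter (fun y => mgI x y = I),
      ((Ideal.absNorm (mgI x y) : ℝ) * (1 / np (fun w => vn w (z y)))) ≤
        (N8 + 1) * C * np Y ^ (n - 1) * (1 / (Ideal.absNorm I : ℝ) ^ 2) := by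
    intro I hI
    obtain ⟨y1, hy1, hI1⟩ := Finset.mem_image.1 hI
    have hI0 : I ≠ ⊥ := by rw [← hI1]; exact (hS y1 hy1).2
    have hNI : (1 : ℝ) ≤ (Ideal.absNorm I : ℝ) := by
      exact_mod_cast absNorm_pos hI0
    set SI := S.filter (fun y => mgI x y = I) with hSI
    have h1 : ∑ y ∈ SI, ((Ideal.absNorm (mgI x y) : ℝ) * (1 / np (fun w => vn w (z y)))) =
        (Ideal.absNorm I : ℝ) * ∑ y ∈ SI, (1 / np (fun w => vn w (z y))) := by
      rw [Finset.mul_sum]
      refine Finset.sum_congr rfl fun y hy => ?_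
      rw [(Finset.mem_filter.1 hy).2]
    have h2 : ∑ y ∈ SI, (1 / np (fun w => vn w (z y))) ≤
        N8 * ∑ b ∈ SI.image z, 1 / np (fun w => vn w b) := by
      refine sumBad_fibre SI z (fun b => 1 / np (fun w => vn w b)) ?_ N8
        (hfib SI (Finset.filter_subset _ _))
      intro b _
      exact div_nonneg zero_le_one (np_nonneg fun w => Finset.sum_nonneg fun _ _ => norm_nonneg _)
    have h3 : ∑ b ∈ SI.image z, 1 / np (fun w => vn w b) ≤
        C * np Y ^ (n - 1) / (Ideal.absNorm I : ℝ) ^ n := by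
      apply hsum I hI0 Y hY
      intro b hb
      obtain ⟨y, hy, rfl⟩ := Finset.mem_image.1 hb
      rw [hSI, Finset.mem_filter] at hy
      refine ⟨hzne y hy.1, ?_, fun k w => hSY y hy.1 k w⟩
      intro k
      rw [← hy.2]
      exact sumBad_mem x y (l k) hx (hlx k)
    rw [h1]
    have h4 : 0 ≤ C * np Y ^ (n - 1) / (Ideal.absNorm I : ℝ) ^ n := by positivity
    calc (Ideal.absNorm I : ℝ) * ∑ y ∈ SI, (1 / np (fun w => vn w (z y))) ≤
        (Ideal.absNorm I : ℝ) * (N8 * (C * np Y ^ (n - 1) / (Ideal.absNorm I : ℝ) ^ n)) := by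
          apply mul_le_mul_of_nonneg_left _ (by positivity)
          exact h2.trans (mul_le_mul_of_nonneg_left h3 (Nat.cast_nonneg _))
      _ ≤ (Ideal.absNorm I : ℝ) * ((N8 + 1) * (C * np Y ^ (n - 1) / (Ideal.absNorm I : ℝ) ^ n)) := by
          apply mul_le_mul_of_nonneg_left _ (by positivity)
          exact mul_le_mul_of_nonneg_right (by linarith) h4
      _ = (N8 + 1) * C * np Y ^ (n - 1) * ((Ideal.absNorm I : ℝ) / (Ideal.absNorm I : ℝ) ^ n) := by
          ring
      _ ≤ (N8 + 1) * C * np Y ^ (n - 1) * (1 / (Ideal.absNorm I : ℝ) ^ 2) := by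
          apply mul_le_mul_of_nonneg_left _ (by positivity)
          rw [div_le_div_iff₀ (by positivity) (by positivity)]
          calc (Ideal.absNorm I : ℝ) * (Ideal.absNorm I : ℝ) ^ 2 = (Ideal.absNorm I : ℝ) ^ 3 := by
                ring
            _ ≤ (Ideal.absNorm I : ℝ) ^ n := pow_le_pow_right₀ hNI hn
            _ = 1 * (Ideal.absNorm I : ℝ) ^ n := by ring
  calc ∑ y ∈ S, (mgN x y : ℝ) / np (fun w => dl w x y) ≤
      ∑ y ∈ S, (A * (mu / B)) ^ mK K * ((Ideal.absNorm (mgI x y) : ℝ) *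
        (1 / np (fun w => vn w (z y)))) := Finset.sum_le_sum hterm
    _ = (A * (mu / B)) ^ mK K * ∑ I ∈ S.image (mgI x), ∑ y ∈ S.filter (fun y => mgI x y = I),
        ((Ideal.absNorm (mgI x y) : ℝ) * (1 / np (fun w => vn w (z y)))) := by
        rw [← Finset.mul_sum, Finset.sum_fiberwise_of_maps_to fun y hy =>
          Finset.mem_image_of_mem _ hy]
    _ ≤ (A * (mu / B)) ^ mK K * ∑ I ∈ S.image (mgI x),
        (N8 + 1) * C * np Y ^ (n - 1) * (1 / (Ideal.absNorm I : ℝ) ^ 2) :=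
        mul_le_mul_of_nonneg_left (Finset.sum_le_sum hideal) (by positivity)
    _ = (A * (mu / B)) ^ mK K * ((N8 + 1) * C * np Y ^ (n - 1)) *
        ∑ I ∈ S.image (mgI x), 1 / (Ideal.absNorm I : ℝ) ^ 2 := by
        rw [← Finset.mul_sum]
        ring
    _ ≤ (A * (mu / B)) ^ mK K * ((N8 + 1) * C * np Y ^ (n - 1)) * E := by
        apply mul_le_mul_of_nonneg_left _ (by positivity)
        apply hE
        intro I hI
        obtain ⟨y, hy, h⟩ := Finset.mem_image.1 hI
        exact ⟨y, hy, h.symm⟩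
    _ = A ^ mK K * (N8 + 1) * C * (mu / B) ^ mK K * np Y ^ (n - 1) * E := by
        rw [mul_pow]
        ring

/-- the sum over the ideals of large norm -/
noncomputable def sumBad_E (K : Type) [Field K] [NumberField K] (G : ℕ) : ℝ :=
  sSup {t : ℝ | ∃ S : Finset (Ideal (𝓞 K)), (∀ I ∈ S, G < Ideal.absNorm I) ∧
    t = ∑ I ∈ S, 1 / (Ideal.absNorm I : ℝ) ^ 2}

theorem sumBad_E_bdd (G : ℕ) : BddAbove {t : ℝ | ∃ S : Finset (Ideal (𝓞 K)),
    (∀ I ∈ S, G < Ideal.absNorm I) ∧ t = ∑ I ∈ S, 1 / (Ideal.absNorm I : ℝ) ^ 2} := by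
  obtain ⟨Z, hZ, h⟩ := ideal_sum K
  refine ⟨Z, ?_⟩
  rintro t ⟨S, hS, rfl⟩
  apply h
  intro I hI h0
  have := hS I hI
  rw [h0, Ideal.absNorm_bot] at this
  omega

theorem sumBad_le_E (G : ℕ) (S : Finset (Ideal (𝓞 K))) (hS : ∀ I ∈ S, G < Ideal.absNorm I) :
    ∑ I ∈ S, 1 / (Ideal.absNorm I : ℝ) ^ 2 ≤ sumBad_E K G :=
  le_csSup (sumBad_E_bdd G) ⟨S, hS, rfl⟩

theorem sumBad_E_nonneg (G : ℕ) : 0 ≤ sumBad_E K G := by
  have h := sumBad_le_E (K := K) G ∅ (by simp)
  simpa using h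

theorem sumBad_E_tendsto : Tendsto (sumBad_E K) atTop (𝓝 0) := by
  rw [Metric.tendsto_atTop]
  intro e he
  obtain ⟨G0, hG0, h⟩ := ideal_tail K (e / 2) (by positivity)
  refine ⟨G0, fun G hG => ?_⟩
  rw [Real.dist_eq, sub_zero, abs_of_nonneg (sumBad_E_nonneg G)]
  have h1 : sumBad_E K G ≤ e / 2 := by
    apply csSup_le
    · exact ⟨_, ∅, by simp, rfl⟩
    · rintro t ⟨S, hS, rfl⟩
      exact h S fun I hI => lt_of_le_of_lt hG (hS I hI)
  linarith

theorem sum_bad (K : Type) [Field K] [NumberField K] (n : ℕ) (hn : 3 ≤ n) :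
    ∃ (C : ℝ) (E : ℕ → ℝ), 0 < C ∧ Tendsto E atTop (𝓝 0) ∧ (∀ G, 0 ≤ E G) ∧
    ∀ (R : ℝ), 1 ≤ R → ∀ B : ℕ, 1 ≤ B → ∀ x : Fin (n + 1) → 𝓞 K, Prim x →
    x ∈ Bx n (2 * (B : ℝ)) → (∀ w, ∃ i, (B : ℝ) / 2 ≤ ‖sg w (x i)‖) → Good R B x →
    ∀ G : ℕ, 1 ≤ G → ∀ tau : ℝ, 0 < tau → tau ≤ 1 →
    ∀ S : Finset (Fin (n + 1) → 𝓞 K),
    (∀ y ∈ S, y ∈ Bx n (2 * (B : ℝ)) ∧ mgI x y ≠ ⊥ ∧ BadPr G tau B x y) →
      ∑ y ∈ S, (mgN x y : ℝ) / np (fun w => dl w x y) ≤
        C * R ^ (mK K * n) * (E G + tau) * (B : ℝ) ^ (mK K * (n - 1)) := by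
  classical
  obtain ⟨C, hC, key⟩ := sumBad_key K n hn
  obtain ⟨Z, hZ, hideal⟩ := ideal_sum K
  set A : ℝ := 2 * ((n : ℝ) + 1) with hA
  have hA1 : 1 ≤ A := by
    have : (0 : ℝ) ≤ n := Nat.cast_nonneg _
    rw [hA]
    linarith
  have hA0 : 0 < A := by linarith
  set M : ℝ := (Fintype.card (InfinitePlace K) : ℝ) with hM
  have hM0 : 0 ≤ M := Nat.cast_nonneg _
  refine ⟨C * A ^ (mK K * n) * (1 + M * Z), sumBad_E K, by positivity, sumBad_E_tendsto,
    sumBad_E_nonneg, ?_⟩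
  intro R hR B hB x hx hx2 hxB hg G hG tau ht ht1 S hS
  obtain ⟨l, hl, hlx, hlmu⟩ := hg
  set mu : ℝ := R * (B : ℝ) ^ (1 / (n : ℝ)) with hmu
  have hB0 : (0 : ℝ) < B := by exact_mod_cast hB
  have hmu0 : 0 < mu := by positivity
  have hn0 : (n : ℝ) ≠ 0 := by
    have : n ≠ 0 := by omega
    exact_mod_cast this
  have hmun : mu ^ n = R ^ n * B := by
    rw [hmu, mul_pow, ← Real.rpow_natCast ((B : ℝ) ^ (1 / (n : ℝ))) n, ← Real.rpow_mul hB0.le,
      one_div_mul_cancel hn0, Real.rpow_one]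
  have hX0 : 0 < A * mu * B := by positivity
  -- the power of `mu`
  have hpow : (mu / B) ^ mK K * ((A * mu * B) ^ mK K) ^ (n - 1) ≤
      A ^ (mK K * n) * R ^ (mK K * n) * (B : ℝ) ^ (mK K * (n - 1)) := by
    obtain ⟨k, hk⟩ : ∃ k, n = k + 1 := ⟨n - 1, by omega⟩
    have hk1 : n - 1 = k := by omega
    have h1 : (mu / B) * (A * mu * B) ^ (n - 1) = A ^ (n - 1) * R ^ n * (B : ℝ) ^ (n - 1) := by
      have h2 : (mu / B) * (A * mu * B) ^ (n - 1) = A ^ (n - 1) * mu ^ n * (B : ℝ) ^ (n - 1) / B := by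
        rw [hk1, mul_pow, mul_pow, hk, pow_succ mu k]
        ring
      rw [h2, hmun]
      field_simp
    have h2 : (mu / B) ^ mK K * ((A * mu * B) ^ mK K) ^ (n - 1) =
        ((mu / B) * (A * mu * B) ^ (n - 1)) ^ mK K := by
      rw [mul_pow (mu / B) _ (mK K), ← pow_mul, ← pow_mul, mul_comm (mK K) (n - 1)]
    rw [h2, h1, mul_pow, mul_pow, ← pow_mul, ← pow_mul, ← pow_mul]
    have h3 : A ^ ((n - 1) * mK K) ≤ A ^ (mK K * n) := by
      apply pow_le_pow_right₀ hA1
      rw [mul_comm]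
      exact Nat.mul_le_mul_left _ (Nat.sub_le _ _)
    rw [mul_comm n (mK K), mul_comm (n - 1) (mK K)] at *
    have h4 : 0 ≤ R ^ (mK K * n) * (B : ℝ) ^ (mK K * (n - 1)) := by positivity
    calc A ^ (mK K * (n - 1)) * R ^ (mK K * n) * (B : ℝ) ^ (mK K * (n - 1)) =
        A ^ (mK K * (n - 1)) * (R ^ (mK K * n) * (B : ℝ) ^ (mK K * (n - 1))) := by ring
      _ ≤ A ^ (mK K * n) * (R ^ (mK K * n) * (B : ℝ) ^ (mK K * (n - 1))) :=
          mul_le_mul_of_nonneg_right h3 h4
      _ = _ := by ring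
  set P : ℝ := A ^ (mK K * n) * R ^ (mK K * n) * (B : ℝ) ^ (mK K * (n - 1)) with hP
  have hP0 : 0 ≤ P := by positivity
  have hterm0 : ∀ y, 0 ≤ (mgN x y : ℝ) / np (fun w => dl w x y) := fun y =>
    div_nonneg (Nat.cast_nonneg _) (np_nonneg fun w => sumBad_dl_nonneg x y w)
  -- first part
  have hb1 : ∑ y ∈ S.filter (fun y => G < mgN x y), (mgN x y : ℝ) / np (fun w => dl w x y) ≤
      C * P * sumBad_E K G := by
    have h1 := key mu B hmu0 hB0 x hx hxB l hl hlx hlmu (S.filter (fun y => G < mgN x y))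
      (fun y hy => ⟨(hS y (Finset.mem_filter.1 hy).1).1, (hS y (Finset.mem_filter.1 hy).1).2.1⟩)
      (fun _ => A * mu * B) (fun _ => hX0)
      (fun y hy k w => sumBad_form_le' (l k) mu B hmu0.le w (fun i => hlmu k i w)
        (fun i => (hS y (Finset.mem_filter.1 hy).1).1 i w)) (sumBad_E K G) (by
        intro J hJ
        apply sumBad_le_E
        intro I hI
        obtain ⟨y, hy, rfl⟩ := hJ I hI
        exact (Finset.mem_filter.1 hy).2)
    refine h1.trans ?_
    apply mul_le_mul_of_nonneg_right _ (sumBad_E_nonneg G)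
    rw [np_const, mul_assoc]
    exact mul_le_mul_of_nonneg_left hpow hC.le
  -- second part
  have hb2 : ∀ w : InfinitePlace K, ∑ y ∈ S.filter (fun y => dl w x y < tau * (B : ℝ) ^ 2),
      (mgN x y : ℝ) / np (fun w => dl w x y) ≤ C * P * tau * Z := by
    intro w
    set Y : InfinitePlace K → ℝ := fun v => (A * mu * B) * (if v = w then tau else 1) with hY
    have h1 := key mu B hmu0 hB0 x hx hxB l hl hlx hlmu
      (S.filter (fun y => dl w x y < tau * (B : ℝ) ^ 2))
      (fun y hy => ⟨(hS y (Finset.mem_filter.1 hy).1).1, (hS y (Finset.mem_filter.1 hy).1).2.1⟩)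
      Y (by
        intro v
        rw [hY]
        dsimp only
        split_ifs <;> positivity)
      (by
        intro y hy k v
        rw [Finset.mem_filter] at hy
        rw [hY]
        dsimp only
        split_ifs with hv
        · subst hv
          refine (sumBad_form_le (l k) (hlx k) mu B hB0 hmu0.le v (fun i => hlmu k i v)
            (hxB v)).trans ?_
          calc 2 * ((n : ℝ) + 1) * mu / B * dl v x y ≤
              2 * ((n : ℝ) + 1) * mu / B * (tau * (B : ℝ) ^ 2) :=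
                mul_le_mul_of_nonneg_left hy.2.le (by positivity)
            _ = A * mu * B * tau := by
                rw [hA]
                field_simp
        · rw [mul_one]
          exact sumBad_form_le' (l k) mu B hmu0.le v (fun i => hlmu k i v)
            (fun i => (hS y hy.1).1 i v)) Z (by
        intro J hJ
        apply hideal
        intro I hI
        obtain ⟨y, hy, rfl⟩ := hJ I hI
        exact (hS y (Finset.mem_filter.1 hy).1).2.1)
    refine h1.trans ?_
    apply mul_le_mul_of_nonneg_right _ (by linarith)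
    have h2 : np Y = (A * mu * B) ^ mK K * tau ^ w.mult := by
      rw [hY, np_mul (fun _ => A * mu * B), np_const]
      congr 1
      unfold np
      rw [Finset.prod_eq_single w]
      · dsimp only
        rw [if_pos rfl]
      · intro v _ hv
        dsimp only
        rw [if_neg hv, one_pow]
      · intro h
        exact absurd (Finset.mem_univ w) h
    have h3 : np Y ^ (n - 1) ≤ ((A * mu * B) ^ mK K) ^ (n - 1) * tau := by
      rw [h2, mul_pow]
      apply mul_le_mul_of_nonneg_left _ (by positivity)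
      rw [← pow_mul]
      calc tau ^ (w.mult * (n - 1)) ≤ tau ^ 1 := by
            apply pow_le_pow_of_le_one ht.le ht1
            have h4 := InfinitePlace.mult_pos (w := w)
            exact Nat.mul_pos h4 (by omega)
        _ = tau := pow_one _
    calc C * (mu / B) ^ mK K * np Y ^ (n - 1) ≤
        C * (mu / B) ^ mK K * (((A * mu * B) ^ mK K) ^ (n - 1) * tau) :=
          mul_le_mul_of_nonneg_left h3 (by positivity)
      _ = C * ((mu / B) ^ mK K * ((A * mu * B) ^ mK K) ^ (n - 1)) * tau := by ring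
      _ ≤ C * P * tau := by
          apply mul_le_mul_of_nonneg_right _ ht.le
          exact mul_le_mul_of_nonneg_left hpow hC.le
  -- assembling
  have hcover : ∑ y ∈ S, (mgN x y : ℝ) / np (fun w => dl w x y) ≤
      ∑ y ∈ S.filter (fun y => G < mgN x y), (mgN x y : ℝ) / np (fun w => dl w x y) +
      ∑ w : InfinitePlace K, ∑ y ∈ S.filter (fun y => dl w x y < tau * (B : ℝ) ^ 2),
        (mgN x y : ℝ) / np (fun w => dl w x y) := by
    simp only [Finset.sum_filter]
    rw [Finset.sum_comm, ← Finset.sum_add_distrib]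
    refine Finset.sum_le_sum fun y hy => ?_
    rcases (hS y hy).2.2 with h | ⟨w, hw⟩
    · rw [if_pos h]
      have : 0 ≤ ∑ w : InfinitePlace K, if dl w x y < tau * (B : ℝ) ^ 2 then
          (mgN x y : ℝ) / np (fun w => dl w x y) else 0 := by
        apply Finset.sum_nonneg
        intro w _
        split_ifs
        · exact hterm0 y
        · exact le_rfl
      linarith
    · have h1 : (mgN x y : ℝ) / np (fun w => dl w x y) ≤
          ∑ w : InfinitePlace K, if dl w x y < tau * (B : ℝ) ^ 2 then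
          (mgN x y : ℝ) / np (fun w => dl w x y) else 0 := by
        have h2 := Finset.single_le_sum (s := (univ : Finset (InfinitePlace K)))
          (f := fun w => if dl w x y < tau * (B : ℝ) ^ 2 then
          (mgN x y : ℝ) / np (fun w => dl w x y) else 0) (fun v _ => by
            split_ifs
            · exact hterm0 y
            · exact le_rfl) (Finset.mem_univ w)
        rw [if_pos hw] at h2
        exact h2
      have h3 : 0 ≤ (if G < mgN x y then (mgN x y : ℝ) / np (fun w => dl w x y) else 0) := by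
        split_ifs
        · exact hterm0 y
        · exact le_rfl
      linarith
  have hsumw : ∑ w : InfinitePlace K, ∑ y ∈ S.filter (fun y => dl w x y < tau * (B : ℝ) ^ 2),
        (mgN x y : ℝ) / np (fun w => dl w x y) ≤ M * (C * P * tau * Z) := by
    calc _ ≤ ∑ _w : InfinitePlace K, C * P * tau * Z := Finset.sum_le_sum fun w _ => hb2 w
      _ = M * (C * P * tau * Z) := by
          rw [Finset.sum_const, Finset.card_univ, nsmul_eq_mul]
  have hE0 := sumBad_E_nonneg (K := K) G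
  calc _ ≤ C * P * sumBad_E K G + M * (C * P * tau * Z) :=
        hcover.trans (add_le_add hb1 hsumw)
    _ ≤ (C * P * sumBad_E K G + M * (C * P * tau * Z)) +
        (C * P * tau + C * P * (M * Z) * sumBad_E K G) := by
        have h1 : 0 ≤ C * P * tau := by positivity
        have h2 : 0 ≤ C * P * (M * Z) * sumBad_E K G := by positivity
        linarith
    _ = C * A ^ (mK K * n) * (1 + M * Z) * R ^ (mK K * n) * (sumBad_E K G + tau) *
        (B : ℝ) ^ (mK K * (n - 1)) := by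
        rw [hP]
        ring

end NFHP
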