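import Pool.Agent.Lib.MP_e426f4_ag.N.Const
import Pool.Agent.Lib.MP_e426f4_ag.G.AlgReal

/-!
# Complex estimates for forms (module NF-ALC)
-/

namespace NFHP

open NumberField GenHP Finset Filter Topology

section monomials
variable {ι : Type*} [Fintype ι] [DecidableEq ι]

private theorem alc_mon_norm_le (x : ι → ℂ) (X : ℝ) (hX : 1 ≤ X) (hx : ∀ i, ‖x i‖ ≤ X)
    (t : ι → ℕ) : ‖mon x t‖ ≤ X ^ (∑ i, t i) := by
  refine ALR.induct (P := fun k t => ‖mon x t‖ ≤ X ^ k) ?_ ?_ t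
  · rw [ALR.mon_zero]; simp
  · intro k t j h
    rw [ALR.mon_succ, norm_mul, pow_succ, mul_comm (X ^ k)]
    exact mul_le_mul (hx j) h (norm_nonneg _) (by linarith)

private theorem alc_dmon_norm_le (x : ι → ℂ) (i : ι) (X : ℝ) (hX : 1 ≤ X) (hx : ∀ i, ‖x i‖ ≤ X)
    (t : ι → ℕ) : ‖dmon x i t‖ ≤ ((∑ l, t l : ℕ) : ℝ) * X ^ (∑ l, t l) := by
  have := ALR.induct (ι := ι) (P := fun k t => ‖mon x t‖ ≤ X ^ k ∧ ‖dmon x i t‖ ≤ (k : ℝ) * X ^ k)
    ?_ ?_ t
  · exact this.2
  · rw [ALR.mon_zero, ALR.dmon_zero]; simp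
  · rintro k t j ⟨h1, h2⟩
    refine ⟨?_, ?_⟩
    · rw [ALR.mon_succ, norm_mul, pow_succ, mul_comm (X ^ k)]
      exact mul_le_mul (hx j) h1 (norm_nonneg _) (by linarith)
    · rw [ALR.dmon_succ]
      have hX0 : 0 < X := by linarith
      have hk : X ^ k ≤ X ^ (k + 1) := pow_le_pow_right₀ hX (by omega)
      have e1 : ‖(if i = j then mon x t else 0)‖ ≤ X ^ (k + 1) := by
        split_ifs
        · exact h1.trans hk
        · simp; positivity
      have e2 : ‖x j * dmon x i t‖ ≤ X * ((k : ℝ) * X ^ k) := by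
        rw [norm_mul]
        exact mul_le_mul (hx j) h2 (norm_nonneg _) hX0.le
      refine (norm_add_le _ _).trans ?_
      push_cast
      have e3 : X * ((k : ℝ) * X ^ k) = (k : ℝ) * X ^ (k + 1) := by ring
      rw [e3] at e2
      linarith

private theorem alc_diffs (x y : ι → ℂ) (i : ι) (X Y : ℝ) (hX : 1 ≤ X) (hY : 0 ≤ Y) (hYX : Y ≤ X)
    (hx : ∀ i, ‖x i‖ ≤ X) (hy : ∀ i, ‖y i‖ ≤ Y) (t : ι → ℕ) :
    ‖mon (fun l => x l + y l) t - mon x t - ∑ j, dmon x j t * y j‖
        ≤ 4 ^ (∑ l, t l) * X ^ (∑ l, t l) * Y ^ 2 ∧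
    ‖dmon (fun l => x l + y l) i t - dmon x i t‖
        ≤ ((∑ l, t l : ℕ) : ℝ) * 4 ^ (∑ l, t l) * X ^ (∑ l, t l) * Y := by
  have := ALR.induct (ι := ι) (P := fun k t =>
    ‖mon x t‖ ≤ X ^ k ∧ ‖dmon x i t‖ ≤ (k : ℝ) * X ^ k ∧
    ‖mon (fun l => x l + y l) t - mon x t‖ ≤ (2 ^ k - 1) * X ^ k * Y ∧
    ‖mon (fun l => x l + y l) t - mon x t - ∑ j, dmon x j t * y j‖ ≤ 4 ^ k * X ^ k * Y ^ 2 ∧
    ‖dmon (fun l => x l + y l) i t - dmon x i t‖ ≤ (k : ℝ) * 4 ^ k * X ^ k * Y) ?_ ?_ t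
  · exact ⟨this.2.2.2.1, this.2.2.2.2⟩
  · refine ⟨?_, ?_, ?_, ?_, ?_⟩
    · rw [ALR.mon_zero]; simp
    · rw [ALR.dmon_zero]; simp
    · rw [ALR.mon_zero, ALR.mon_zero]; simp
    · rw [ALR.mon_zero, ALR.mon_zero]
      simp only [ALR.dmon_zero]
      simp
      positivity
    · rw [ALR.dmon_zero, ALR.dmon_zero]; simp
  · rintro k t j ⟨h1, h2, h3, h4, h5⟩
    have hX0 : 0 < X := by linarith
    have hk : X ^ k ≤ X ^ (k + 1) := pow_le_pow_right₀ hX (by omega)
    have hxj : ‖x j + y j‖ ≤ 2 * X := (norm_add_le _ _).trans (by linarith [hx j, hy j])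
    have hXk : 0 < X ^ k := by positivity
    have h24 : (2 : ℝ) ^ k ≤ 4 ^ k := pow_le_pow_left₀ (by norm_num) (by norm_num) k
    have h2k : (1 : ℝ) ≤ 2 ^ k := one_le_pow₀ (by norm_num)
    have hk2 : (k : ℝ) ≤ 2 ^ k := by
      have := (Nat.lt_two_pow_self (n := k)).le
      calc (k : ℝ) ≤ ((2 ^ k : ℕ) : ℝ) := by exact_mod_cast this
        _ = 2 ^ k := by push_cast; rfl
    refine ⟨?_, ?_, ?_, ?_, ?_⟩
    · rw [ALR.mon_succ, norm_mul, pow_succ, mul_comm (X ^ k)]
      exact mul_le_mul (hx j) h1 (norm_nonneg _) hX0.le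
    · rw [ALR.dmon_succ]
      have e1 : ‖(if i = j then mon x t else 0)‖ ≤ X ^ (k + 1) := by
        split_ifs
        · exact h1.trans hk
        · simp; positivity
      have e2 : ‖x j * dmon x i t‖ ≤ X * ((k : ℝ) * X ^ k) := by
        rw [norm_mul]
        exact mul_le_mul (hx j) h2 (norm_nonneg _) hX0.le
      refine (norm_add_le _ _).trans ?_
      push_cast
      have e3 : X * ((k : ℝ) * X ^ k) = (k : ℝ) * X ^ (k + 1) := by ring
      rw [e3] at e2
      linarith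
    · -- first difference
      rw [ALR.mon_succ, ALR.mon_succ]
      have e : (x j + y j) * mon (fun l => x l + y l) t - x j * mon x t
          = (x j + y j) * (mon (fun l => x l + y l) t - mon x t)
            + y j * mon x t := by ring
      rw [e]
      refine (norm_add_le _ _).trans ?_
      rw [norm_mul, norm_mul]
      have a1 : ‖x j + y j‖ * ‖mon (fun l => x l + y l) t - mon x t‖
          ≤ (2 * X) * ((2 ^ k - 1) * X ^ k * Y) :=
        mul_le_mul hxj h3 (norm_nonneg _) (by linarith)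
      have a2 : ‖y j‖ * ‖mon x t‖ ≤ Y * X ^ (k + 1) :=
        mul_le_mul (hy j) (h1.trans hk) (norm_nonneg _) hY
      have a3 : (2 * X) * ((2 ^ k - 1) * X ^ k * Y) + Y * X ^ (k + 1)
          = (2 ^ (k + 1) - 1) * X ^ (k + 1) * Y := by ring
      linarith
    · -- second order remainder
      have e : mon (fun l => x l + y l) (t + Pi.single j 1) - mon x (t + Pi.single j 1)
          - ∑ l, dmon x l (t + Pi.single j 1) * y l
          = x j * (mon (fun l => x l + y l) t - mon x t - ∑ l, dmon x l t * y l)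
            + y j * (mon (fun l => x l + y l) t - mon x t) := by
        rw [ALR.mon_succ, ALR.mon_succ]
        have e1 : ∑ l, dmon x l (t + Pi.single j 1) * y l
            = mon x t * y j + x j * ∑ l, dmon x l t * y l := by
          rw [Finset.mul_sum]
          have : ∀ l, dmon x l (t + Pi.single j 1) * y l
              = (if l = j then mon x t * y l else 0) + x j * (dmon x l t * y l) := by
            intro l
            rw [ALR.dmon_succ]
            split_ifs <;> ring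
          rw [Finset.sum_congr rfl fun l _ => this l, Finset.sum_add_distrib]
          simp
        rw [e1]; ring
      rw [e]
      refine (norm_add_le _ _).trans ?_
      rw [norm_mul, norm_mul]
      have a1 := mul_le_mul (hx j) h4 (norm_nonneg _) hX0.le
      have a2 := mul_le_mul (hy j) h3 (norm_nonneg _) hY
      have a3 : Y * ((2 ^ k - 1) * X ^ k * Y) ≤ 4 ^ k * X ^ (k + 1) * Y ^ 2 := by
        have b1 : (2 ^ k - 1 : ℝ) * X ^ k ≤ 4 ^ k * X ^ (k + 1) :=
          mul_le_mul (by linarith) hk hXk.le (by positivity)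
        calc Y * ((2 ^ k - 1) * X ^ k * Y) = ((2 ^ k - 1) * X ^ k) * Y ^ 2 := by ring
          _ ≤ 4 ^ k * X ^ (k + 1) * Y ^ 2 := mul_le_mul_of_nonneg_right b1 (by positivity)
      have a4 : 4 ^ (k + 1) * X ^ (k + 1) * Y ^ 2
          = X * (4 ^ k * X ^ k * Y ^ 2) + 3 * (4 ^ k * X ^ (k + 1) * Y ^ 2) := by ring
      have a5 : 0 ≤ 4 ^ k * X ^ (k + 1) * Y ^ 2 := by positivity
      linarith
    · -- difference of the derivatives
      have e : dmon (fun l => x l + y l) i (t + Pi.single j 1) - dmon x i (t + Pi.single j 1)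
          = (if i = j then mon (fun l => x l + y l) t - mon x t else 0)
            + (x j + y j) * (dmon (fun l => x l + y l) i t - dmon x i t)
            + y j * dmon x i t := by
        rw [ALR.dmon_succ, ALR.dmon_succ]
        split_ifs <;> ring
      rw [e]
      refine (norm_add_le _ _).trans ?_
      have a0 := norm_add_le (if i = j then mon (fun l => x l + y l) t - mon x t else 0)
        ((x j + y j) * (dmon (fun l => x l + y l) i t - dmon x i t))
      have a1 : ‖(if i = j then mon (fun l => x l + y l) t - mon x t else 0)‖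
          ≤ (2 ^ k - 1) * X ^ k * Y := by
        split_ifs
        · exact h3
        · rw [norm_zero]
          have : (0 : ℝ) ≤ 2 ^ k - 1 := by linarith
          positivity
      have a2 : ‖(x j + y j) * (dmon (fun l => x l + y l) i t - dmon x i t)‖
          ≤ (2 * X) * ((k : ℝ) * 4 ^ k * X ^ k * Y) := by
        rw [norm_mul]
        exact mul_le_mul hxj h5 (norm_nonneg _) (by linarith)
      have a3 : ‖y j * dmon x i t‖ ≤ Y * ((k : ℝ) * X ^ k) := by
        rw [norm_mul]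
        exact mul_le_mul (hy j) h2 (norm_nonneg _) hY
      have b1 : (2 ^ k - 1) * X ^ k * Y ≤ 4 ^ k * X ^ (k + 1) * Y :=
        mul_le_mul_of_nonneg_right
          (mul_le_mul (by linarith) hk hXk.le (by positivity)) hY
      have b2 : Y * ((k : ℝ) * X ^ k) ≤ 4 ^ k * X ^ (k + 1) * Y := by
        calc Y * ((k : ℝ) * X ^ k) = ((k : ℝ) * X ^ k) * Y := by ring
          _ ≤ 4 ^ k * X ^ (k + 1) * Y := mul_le_mul_of_nonneg_right
              (mul_le_mul (hk2.trans h24) hk hXk.le (by positivity)) hY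
      push_cast
      have b3 : ((k : ℝ) + 1) * 4 ^ (k + 1) * X ^ (k + 1) * Y
          = 2 * ((2 * X) * ((k : ℝ) * 4 ^ k * X ^ k * Y)) + 4 * (4 ^ k * X ^ (k + 1) * Y) := by ring
      have b4 : 0 ≤ (2 * X) * ((k : ℝ) * 4 ^ k * X ^ k * Y) := by positivity
      have b5 : 0 ≤ 4 ^ k * X ^ (k + 1) * Y := by positivity
      linarith

end monomials

private theorem alc_sum_bound {I : Type*} [Fintype I] (A B : I → ℂ) (a b : ℝ) (hA : ∀ m, ‖A m‖ ≤ a)
    (hB : ∀ m, ‖B m‖ ≤ b) : ‖∑ m, A m * B m‖ ≤ Fintype.card I * (a * b) := by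
  calc ‖∑ m, A m * B m‖ ≤ ∑ m, ‖A m * B m‖ := norm_sum_le _ _
    _ ≤ ∑ _m : I, a * b := by
        refine Finset.sum_le_sum fun m _ => ?_
        rw [norm_mul]
        exact mul_le_mul (hA m) (hB m) (norm_nonneg _) ((norm_nonneg _).trans (hA m))
    _ = Fintype.card I * (a * b) := by
        rw [Finset.sum_const, nsmul_eq_mul, Finset.card_univ]

variable {K : Type} [Field K] [NumberField K] {n d : ℕ}

theorem F_norm_le (A : Idx n d → ℂ) (x : Fin (n + 1) → ℂ) (a X : ℝ) (hX : 1 ≤ X)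
    (hA : ∀ m, ‖A m‖ ≤ a) (hx : ∀ i, ‖x i‖ ≤ X) : ‖F A x‖ ≤ NN n d * a * X ^ d := by
  rw [mul_assoc]
  exact alc_sum_bound A _ a _ hA fun m =>
    (alc_mon_norm_le x X hX hx m.1).trans (le_of_eq (by rw [m.2]))

theorem D_norm_le (A : Idx n d → ℂ) (x : Fin (n + 1) → ℂ) (j : Fin (n + 1)) (a X : ℝ) (hX : 1 ≤ X)
    (hA : ∀ m, ‖A m‖ ≤ a) (hx : ∀ i, ‖x i‖ ≤ X) : ‖D A x j‖ ≤ NN n d * d * a * X ^ d := by
  have h := alc_sum_bound A (fun m : Idx n d => dmon x j m.1) a ((d : ℝ) * X ^ d) hA fun m =>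
    (alc_dmon_norm_le x j X hX hx m.1).trans (le_of_eq (by rw [m.2]))
  calc ‖D A x j‖ ≤ Fintype.card (Idx n d) * (a * ((d : ℝ) * X ^ d)) := h
    _ = NN n d * d * a * X ^ d := by unfold NN; ring

theorem F_taylor (A : Idx n d → ℂ) (x y : Fin (n + 1) → ℂ) (a X Y : ℝ) (hX : 1 ≤ X)
    (hY : 0 ≤ Y) (hYX : Y ≤ X) (hA : ∀ m, ‖A m‖ ≤ a) (hx : ∀ i, ‖x i‖ ≤ X) (hy : ∀ i, ‖y i‖ ≤ Y) :
    ‖F A (fun i => x i + y i) - F A x - ∑ j, D A x j * y j‖ ≤
      NN n d * 4 ^ d * a * X ^ d * Y ^ 2 := by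
  have h := alc_sum_bound A
    (fun m : Idx n d => mon (fun l => x l + y l) m.1 - mon x m.1 - ∑ j, dmon x j m.1 * y j) a
    (4 ^ d * X ^ d * Y ^ 2) hA fun m =>
      (alc_diffs x y 0 X Y hX hY hYX hx hy m.1).1.trans (le_of_eq (by rw [m.2]))
  have e1 : F A (fun i => x i + y i) - F A x - ∑ j, D A x j * y j
      = ∑ m : Idx n d, A m * (mon (fun l => x l + y l) m.1 - mon x m.1
        - ∑ j, dmon x j m.1 * y j) := by
    unfold F D
    have e2 : ∑ j, (∑ t : Idx n d, A t * dmon x j t.1) * y j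
        = ∑ t : Idx n d, A t * ∑ j, dmon x j t.1 * y j := by
      simp_rw [Finset.sum_mul, Finset.mul_sum]
      rw [Finset.sum_comm]
      refine Finset.sum_congr rfl fun t _ => Finset.sum_congr rfl fun j _ => by ring
    rw [e2, ← Finset.sum_sub_distrib, ← Finset.sum_sub_distrib]
    refine Finset.sum_congr rfl fun t _ => by ring
  rw [e1]
  refine h.trans (le_of_eq ?_)
  unfold NN
  ring

theorem D_taylor (A : Idx n d → ℂ) (x y : Fin (n + 1) → ℂ) (j : Fin (n + 1)) (a X Y : ℝ)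
    (hX : 1 ≤ X) (hY : 0 ≤ Y) (hYX : Y ≤ X) (hA : ∀ m, ‖A m‖ ≤ a) (hx : ∀ i, ‖x i‖ ≤ X)
    (hy : ∀ i, ‖y i‖ ≤ Y) :
    ‖D A (fun i => x i + y i) j - D A x j‖ ≤ NN n d * d * 4 ^ d * a * X ^ d * Y := by
  have h := alc_sum_bound A
    (fun m : Idx n d => dmon (fun l => x l + y l) j m.1 - dmon x j m.1) a
    ((d : ℝ) * 4 ^ d * X ^ d * Y) hA fun m =>
      (alc_diffs x y j X Y hX hY hYX hx hy m.1).2.trans (le_of_eq (by rw [m.2]))
  have e1 : D A (fun i => x i + y i) j - D A x j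
      = ∑ m : Idx n d, A m * (dmon (fun l => x l + y l) j m.1 - dmon x j m.1) := by
    unfold D
    rw [← Finset.sum_sub_distrib]
    refine Finset.sum_congr rfl fun t _ => by ring
  rw [e1]
  refine h.trans (le_of_eq ?_)
  unfold NN
  ring

/-- the bound for the derivative of a class -/
noncomputable def cG (K : Type) [Field K] [NumberField K] (n d : ℕ) : ℝ :=
  ((n : ℝ) + 1) * hb n (mK K) * (NN n d * d * cK K)

theorem gam_le (p : Par K n d) {eps bet k0 : ℝ} {w : ℕ} (hp : p.Valid eps bet k0 w)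
    (w' : InfinitePlace K) : ‖p.gam w'‖ ≤ cG K n d := by
  have hA : ∀ m, ‖lam (p.Ainf m) w'‖ ≤ cK K := fun m => by
    have := norm_lam_le (p.Ainf m) 1 (fun j => hp.Ainf_le m j) w'
    linarith
  have hx : ∀ i, ‖lam (p.xi i) w'‖ ≤ 1 := fun i => hp.xi_le i w'
  have h1 := fun i => D_norm_le (fun t => lam (p.Ainf t) w') (fun i => lam (p.xi i) w') i (cK K) 1
    le_rfl hA hx
  have h2 : (0 : ℝ) ≤ NN n d * d * cK K := by
    have := cK_pos (K := K)
    positivity
  unfold Par.gam Dh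
  calc ‖∑ i, D (fun t => lam (p.Ainf t) w') (fun i => lam (p.xi i) w') i * ((p.h i : ℤ) : ℂ)‖
      ≤ ∑ i, ‖D (fun t => lam (p.Ainf t) w') (fun i => lam (p.xi i) w') i * ((p.h i : ℤ) : ℂ)‖ :=
        norm_sum_le _ _
    _ ≤ ∑ _i : Fin (n + 1), (NN n d * d * cK K) * (hb n (mK K) : ℝ) := by
        refine Finset.sum_le_sum fun i _ => ?_
        rw [norm_mul]
        have h3 : ‖((p.h i : ℤ) : ℂ)‖ ≤ (hb n (mK K) : ℝ) := by
          rw [Complex.norm_intCast]
          exact_mod_cast hp.h_le i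
        refine mul_le_mul ?_ h3 (norm_nonneg _) h2
        have := h1 i
        rwa [one_pow, mul_one] at this
    _ = cG K n d := by
        rw [Finset.sum_const, Finset.card_univ, Fintype.card_fin, nsmul_eq_mul]
        unfold cG
        push_cast
        ring

end NFHP
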