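import Pool.Agent.Lib.MP_e426f4_ag.N.Sg

/-! # A zero over the completion at an infinite place gives a normalised complex zero -/

set_option linter.unusedSectionVars false

namespace NFHP

open NumberField GenHP Finset Filter Topology

variable {K : Type} [Field K] [NumberField K] {n d : ℕ}

theorem ext_algebraMap (w : InfinitePlace K) (a : 𝓞 K) :
    InfinitePlace.Completion.extensionEmbedding w (algebraMap (𝓞 K) w.Completion a) = sg w a := by
  have h : algebraMap (𝓞 K) w.Completion a =
      ((WithAbs.equiv w.1).symm (algebraMap (𝓞 K) K a) : w.Completion) := by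
    rw [IsScalarTower.algebraMap_apply (𝓞 K) K w.Completion]
    rfl
  rw [h, InfinitePlace.Completion.extensionEmbedding_coe]
  rfl

/-- NF-AI (ApproxInf.lean) -/
theorem locI_of_completion (w : InfinitePlace K) (A : Idx n d → 𝓞 K)
    (h : ∃ z : Fin (n + 1) → w.Completion, z ≠ 0 ∧
      F (fun t => algebraMap (𝓞 K) w.Completion (A t)) z = 0) :
    LocI w fun t => sg w (A t) := by
  obtain ⟨z, hz, hF⟩ := h
  set φ := InfinitePlace.Completion.extensionEmbedding w with hφ
  have hF' : F (fun t => sg w (A t)) (fun i => φ (z i)) = 0 := by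
    have h1 := F_map φ (fun t => algebraMap (𝓞 K) w.Completion (A t)) z
    rw [hF, map_zero] at h1
    rw [← h1]
    congr 1
    funext t
    exact (ext_algebraMap w (A t)).symm
  obtain ⟨a, -, ha⟩ := Finset.exists_max_image (univ : Finset (Fin (n + 1)))
    (fun a => ‖φ (z a)‖) ⟨0, mem_univ 0⟩
  have hmax : ∀ b, ‖φ (z b)‖ ≤ ‖φ (z a)‖ := fun b => ha b (mem_univ b)
  have hza : φ (z a) ≠ 0 := by
    intro h0
    apply hz
    funext b
    have h1 := hmax b
    rw [h0, norm_zero] at h1
    exact (map_eq_zero φ).mp (norm_le_zero_iff.mp h1)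
  have hpos : 0 < ‖φ (z a)‖ := norm_pos_iff.mpr hza
  refine ⟨fun i => (φ (z a))⁻¹ * φ (z i), ⟨fun hw i => ?_, fun i => ?_, a, ?_⟩, ?_⟩
  · have h1 : ∀ x : w.Completion, ((InfinitePlace.Completion.extensionEmbeddingOfIsReal hw x : ℝ) : ℂ)
        = φ x := fun x => InfinitePlace.Completion.extensionEmbeddingOfIsReal_apply hw x
    show ((φ (z a))⁻¹ * φ (z i)).im = 0
    rw [← h1, ← h1, ← Complex.ofReal_inv, ← Complex.ofReal_mul]
    exact Complex.ofReal_im _
  · show ‖(φ (z a))⁻¹ * φ (z i)‖ ≤ 1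
    rw [norm_mul, norm_inv, inv_mul_le_iff₀ hpos, mul_one]
    exact hmax i
  · show ‖(φ (z a))⁻¹ * φ (z a)‖ = 1
    rw [inv_mul_cancel₀ hza, norm_one]
  · rw [F_scale, hF', mul_zero]

end NFHP
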