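import Pool.Agent.Lib.MP_e426f4_ag.N.Sg

/-! # A zero over a completion at a prime gives approximate integral zeros -/

set_option linter.unusedSectionVars false

namespace NFHP

open NumberField GenHP Finset Filter Topology
open IsDedekindDomain

variable {K : Type} [Field K] [NumberField K] {n d : ℕ}

private theorem az_approx (v : HeightOneSpectrum (𝓞 K)) (L : ℕ) (y : v.adicCompletion K)
    (hy : Valued.v y ≤ 1) : ∃ c : 𝓞 K,
      Valued.v (algebraMap (𝓞 K) (v.adicCompletion K) c - y) ≤ WithZero.exp (-(L : ℤ)) := by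
  have hexp : WithZero.exp (-(L : ℤ)) ≠ 0 := WithZero.exp_ne_zero
  have hexp1 : WithZero.exp (-(L : ℤ)) ≤ 1 := by
    rw [← WithZero.exp_zero, WithZero.exp_le_exp]
    omega
  obtain ⟨π, hπ⟩ := HeightOneSpectrum.valuedAdicCompletion_surjective K v (WithZero.exp (-(L : ℤ)))
  have hopen : IsOpen {x : v.adicCompletion K | Valued.v (x - y) < WithZero.exp (-(L : ℤ))} := by
    have h1 := (Valued.isOpen_ball (v.adicCompletion K) (Valued.v.restrict π)).preimage
      (f := fun x => x - y) (continuous_id.sub continuous_const)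
    have h2 : {x : v.adicCompletion K | Valued.v (x - y) < WithZero.exp (-(L : ℤ))} =
        (fun x : v.adicCompletion K => x - y) ⁻¹' {x | Valued.v.restrict x < Valued.v.restrict π} := by
      ext x
      show Valued.v (x - y) < WithZero.exp (-(L : ℤ)) ↔
        Valued.v.restrict (x - y) < Valued.v.restrict π
      rw [Valuation.restrict_lt_iff, hπ]
    rw [h2]
    exact h1
  have hne : {x : v.adicCompletion K | Valued.v (x - y) < WithZero.exp (-(L : ℤ))}.Nonempty := by
    refine ⟨y, ?_⟩
    show Valued.v (y - y) < _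
    rw [sub_self, map_zero]
    exact zero_lt_iff.mpr hexp
  obtain ⟨x, hx⟩ := (HeightOneSpectrum.denseRange_algebraMap K v).exists_mem_open hopen hne
  have hx' : Valued.v ((algebraMap K (v.adicCompletion K)) x - y) < WithZero.exp (-(L : ℤ)) := hx
  have hxv : v.valuation K x ≤ 1 := by
    have h1 : Valued.v ((algebraMap K (v.adicCompletion K)) x) = v.valuation K x :=
      HeightOneSpectrum.valuedAdicCompletion_eq_valuation' v x
    rw [← h1]
    have h2 : (algebraMap K (v.adicCompletion K)) x =
        ((algebraMap K (v.adicCompletion K)) x - y) + y := by ring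
    rw [h2]
    refine (Valuation.map_add _ _ _).trans (max_le (hx'.le.trans hexp1) hy)
  obtain ⟨c, hc⟩ := v.exists_valuation_sub_lt_of_integer hxv (Units.mk0 _ hexp)
  refine ⟨c, ?_⟩
  have h3 : algebraMap (𝓞 K) (v.adicCompletion K) c - y =
      (algebraMap K (v.adicCompletion K)) (algebraMap (𝓞 K) K c - x) +
        ((algebraMap K (v.adicCompletion K)) x - y) := by
    rw [map_sub, ← IsScalarTower.algebraMap_apply (𝓞 K) K (v.adicCompletion K)]
    ring
  rw [h3]
  refine (Valuation.map_add _ _ _).trans (max_le ?_ hx'.le)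
  have h4 : Valued.v ((algebraMap K (v.adicCompletion K)) (algebraMap (𝓞 K) K c - x)) =
      v.valuation K (algebraMap (𝓞 K) K c - x) :=
    HeightOneSpectrum.valuedAdicCompletion_eq_valuation' v _
  rw [h4]
  exact hc.le

/-- the ideal of the elements of valuation at most `γ` -/
private def azJ (v : HeightOneSpectrum (𝓞 K)) (γ : WithZero (Multiplicative ℤ)) :
    Ideal (v.adicCompletionIntegers K) where
  carrier := {x | Valued.v (x : v.adicCompletion K) ≤ γ}
  add_mem' := fun {a b} ha hb => by
    show Valued.v ((a + b : v.adicCompletionIntegers K) : v.adicCompletion K) ≤ γ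
    rw [AddMemClass.coe_add]
    exact (Valuation.map_add _ _ _).trans (max_le ha hb)
  zero_mem' := by
    show Valued.v ((0 : v.adicCompletionIntegers K) : v.adicCompletion K) ≤ γ
    rw [ZeroMemClass.coe_zero, map_zero]
    exact zero_le
  smul_mem' := fun c x hx => by
    show Valued.v ((c • x : v.adicCompletionIntegers K) : v.adicCompletion K) ≤ γ
    rw [smul_eq_mul, MulMemClass.coe_mul, map_mul]
    exact (mul_le_of_le_one_left' c.2).trans hx

theorem locP_of_completion (v : HeightOneSpectrum (𝓞 K)) (A : Idx n d → 𝓞 K)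
    (h : ∃ z : Fin (n + 1) → v.adicCompletion K, z ≠ 0 ∧
      F (fun t => algebraMap (𝓞 K) (v.adicCompletion K) (A t)) z = 0) : LocP v.asIdeal A := by
  classical
  obtain ⟨z, hz, hF⟩ := h
  obtain ⟨a, -, ha⟩ := Finset.exists_max_image (univ : Finset (Fin (n + 1)))
    (fun a => (Valued.v (z a) : WithZero (Multiplicative ℤ))) ⟨0, mem_univ 0⟩
  have hmax : ∀ b, (Valued.v (z b) : WithZero (Multiplicative ℤ)) ≤ Valued.v (z a) :=
    fun b => ha b (mem_univ b)
  have hza : z a ≠ 0 := by
    intro h0
    apply hz
    funext b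
    have h1 := hmax b
    rw [h0, map_zero] at h1
    exact (Valuation.zero_iff _).mp (le_zero_iff.mp h1)
  have hva : (Valued.v (z a) : WithZero (Multiplicative ℤ)) ≠ 0 := (Valuation.ne_zero_iff _).mpr hza
  -- the normalised zero
  have hle : ∀ l, Valued.v ((z a)⁻¹ * z l) ≤ (1 : WithZero (Multiplicative ℤ)) := by
    intro l
    rw [map_mul, map_inv₀]
    exact inv_mul_le_one_of_le₀ (hmax l) zero_le
  intro L
  choose c hc using fun l => az_approx v (L + 1) ((z a)⁻¹ * z l) (hle l)
  have hmem : ∀ r : 𝓞 K, ∀ k : ℕ, Valued.v (algebraMap (𝓞 K) (v.adicCompletion K) r) ≤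
      WithZero.exp (-(k : ℤ)) → r ∈ v.asIdeal ^ k := by
    intro r k hr
    rw [← v.intValuation_le_pow_iff_mem]
    have h1 : Valued.v (algebraMap (𝓞 K) (v.adicCompletion K) r) =
        v.valuation K (algebraMap (𝓞 K) K r) := HeightOneSpectrum.valuedAdicCompletion_eq_valuation v r
    rw [h1, v.valuation_of_algebraMap] at hr
    exact hr
  refine ⟨c, ⟨a, ?_⟩, ?_⟩
  · intro hca
    have h1 := hc a
    rw [inv_mul_cancel₀ hza, ← map_one (algebraMap (𝓞 K) (v.adicCompletion K)), ← map_sub] at h1
    have h2 := hmem _ _ h1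
    have h3 : c a - 1 ∈ v.asIdeal := Ideal.pow_le_self (by omega) h2
    have h4 : (1 : 𝓞 K) ∈ v.asIdeal := by
      have := sub_mem hca h3
      simpa using this
    exact v.isPrime.ne_top ((Ideal.eq_top_iff_one _).mpr h4)
  · have hint : ∀ r : 𝓞 K, algebraMap (𝓞 K) (v.adicCompletion K) r ∈ v.adicCompletionIntegers K := by
      intro r
      rw [HeightOneSpectrum.mem_adicCompletionIntegers]
      have h1 : Valued.v (algebraMap (𝓞 K) (v.adicCompletion K) r) =
        v.valuation K (algebraMap (𝓞 K) K r) := HeightOneSpectrum.valuedAdicCompletion_eq_valuation v r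
      rw [h1]
      exact v.valuation_le_one r
    let φ : 𝓞 K →+* v.adicCompletionIntegers K :=
      (algebraMap (𝓞 K) (v.adicCompletion K)).codRestrict (v.adicCompletionIntegers K) hint
    let y : Fin (n + 1) → v.adicCompletionIntegers K := fun l => ⟨(z a)⁻¹ * z l, hle l⟩
    have hy : F (fun t => φ (A t)) y = 0 := by
      have h1 : (v.adicCompletionIntegers K).subtype (F (fun t => φ (A t)) y) = 0 := by
        rw [← F_map]
        have h2 : (fun l => (v.adicCompletionIntegers K).subtype (y l)) =
            fun l => (z a)⁻¹ * z l := rfl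
        have h3 : (fun t => (v.adicCompletionIntegers K).subtype (φ (A t))) =
            fun t => algebraMap (𝓞 K) (v.adicCompletion K) (A t) := rfl
        rw [h2, h3, F_scale, hF, mul_zero]
      exact Subtype.ext h1
    set J := azJ v (WithZero.exp (-((L + 1 : ℕ) : ℤ))) with hJ
    have hcy : ∀ l, φ (c l) - y l ∈ J := fun l => by
      show Valued.v ((φ (c l) - y l : v.adicCompletionIntegers K) : v.adicCompletion K) ≤ _
      rw [AddSubgroupClass.coe_sub]
      exact hc l
    have h1 : Ideal.Quotient.mk J (F (fun t => φ (A t)) (fun l => φ (c l))) = 0 := by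
      rw [← F_map]
      have h2 : (fun l => Ideal.Quotient.mk J (φ (c l))) = fun l => Ideal.Quotient.mk J (y l) := by
        funext l
        exact (Ideal.Quotient.eq).mpr (hcy l)
      rw [h2, F_map, hy, map_zero]
    rw [F_map, Ideal.Quotient.eq_zero_iff_mem] at h1
    have h2 : F A c ∈ v.asIdeal ^ (L + 1) := hmem _ _ h1
    exact Ideal.pow_le_pow_right (by omega) h2

end NFHP
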