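import Pool.Agent.Lib.MP_e426f4_ag.N.Minors
import Pool.Agent.Lib.MP_e426f4_ag.N.CubeCount

/-! Module NF-PT: facts on the points of a class. -/

namespace NFHP

open NumberField GenHP Finset Filter Topology

variable {K : Type} [Field K] [NumberField K] {n d : ℕ}

theorem XX_finite (p : Par K n d) (B : ℕ) : (p.XX B).Finite := by
  obtain ⟨C, hC⟩ : ∃ C : ℝ, C = |p.kap| * B * (1 + ∑ i, |(p.h i : ℝ)|) + p.kap ^ 2 * B +
    ∑ i, ∑ j, |(B : ℝ) * p.xi i j| := ⟨_, rfl⟩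
  have hB : (0 : ℝ) ≤ B := by positivity
  have hsum : ∀ i j, |(B : ℝ) * p.xi i j| ≤ ∑ i, ∑ j, |(B : ℝ) * p.xi i j| := by
    intro i j
    refine le_trans ?_ (Finset.single_le_sum (f := fun i => ∑ j, |(B : ℝ) * p.xi i j|)
      (fun _ _ => Finset.sum_nonneg fun _ _ => abs_nonneg _) (Finset.mem_univ i))
    exact Finset.single_le_sum (f := fun j => |(B : ℝ) * p.xi i j|)
      (fun _ _ => abs_nonneg _) (Finset.mem_univ j)
  have hh : ∀ i, |(p.h i : ℝ)| ≤ ∑ i, |(p.h i : ℝ)| := fun i =>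
    Finset.single_le_sum (f := fun i => |(p.h i : ℝ)|) (fun _ _ => abs_nonneg _)
      (Finset.mem_univ i)
  refine (Bx_finite (n := n) (K := K) (cK K * C)).subset ?_
  intro x hx i w
  refine norm_sg_le_of_crd (fun j => ?_) w
  have h0 := hx.1.1 j
  have h1 : p.kap * B ≤ |p.kap| * B := mul_le_mul_of_nonneg_right (le_abs_self _) hB
  have h2 : |(crd (x i) j : ℝ) - B * p.xi i j| ≤
      |p.kap| * B * (1 + ∑ i, |(p.h i : ℝ)|) + p.kap ^ 2 * B := by
    have hs0 : 0 ≤ ∑ i, |(p.h i : ℝ)| := Finset.sum_nonneg fun _ _ => abs_nonneg _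
    by_cases hi : i = 0
    · subst hi
      have h3 : 0 ≤ |p.kap| * B * ∑ i, |(p.h i : ℝ)| := by positivity
      have h4 : 0 ≤ p.kap ^ 2 * B := by positivity
      nlinarith
    · have h3 := hx.1.2 i hi j
      have h4 : |(crd (x i) j : ℝ) - B * p.xi i j| ≤
          |((crd (x i) j : ℝ) - B * p.xi i j) - p.h i * ((crd (x 0) j : ℝ) - B * p.xi 0 j)| +
          |(p.h i : ℝ) * ((crd (x 0) j : ℝ) - B * p.xi 0 j)| := by
        have := abs_add_le (((crd (x i) j : ℝ) - B * p.xi i j) -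
          p.h i * ((crd (x 0) j : ℝ) - B * p.xi 0 j))
          ((p.h i : ℝ) * ((crd (x 0) j : ℝ) - B * p.xi 0 j))
        rwa [sub_add_cancel] at this
      have h5 : |(p.h i : ℝ) * ((crd (x 0) j : ℝ) - B * p.xi 0 j)| ≤
          (∑ i, |(p.h i : ℝ)|) * (|p.kap| * B) := by
        rw [abs_mul]
        exact mul_le_mul (hh i) (h0.trans h1) (abs_nonneg _) hs0
      have h6 : 0 ≤ |p.kap| * B := by positivity
      nlinarith
  have h3 : |(crd (x i) j : ℝ)| ≤ |(crd (x i) j : ℝ) - B * p.xi i j| + |(B : ℝ) * p.xi i j| := by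
    have := abs_add_le ((crd (x i) j : ℝ) - B * p.xi i j) (B * p.xi i j)
    rwa [sub_add_cancel] at this
  rw [hC]
  have := hsum i j
  linarith

theorem GG_finite (p : Par K n d) (R : ℝ) (B : ℕ) : (p.GG R B).Finite :=
  (XX_finite p B).subset fun _ h => h.1

/-- the basic estimate -/
theorem pt_near (p : Par K n d) {eps bet k0 : ℝ} {w : ℕ} (hp : p.Valid eps bet k0 w)
    (B : ℕ) (x : Fin (n + 1) → 𝓞 K) (hx : x ∈ p.XX B) (i : Fin (n + 1)) (w' : InfinitePlace K) :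
    ‖sg w' (x i) - B * lam (p.xi i) w'‖ * (10 * ((hb n (mK K) : ℝ) + 1) * ((n : ℝ) + 1)) ≤
      k0 * B := by
  have hB : (0 : ℝ) ≤ B := by positivity
  have hc := cK_pos (K := K)
  obtain ⟨M, hM⟩ : ∃ M : ℝ, M = (hb n (mK K) : ℝ) := ⟨_, rfl⟩
  have hM0 : 0 ≤ M := by rw [hM]; positivity
  have hkap : p.kap * (10 * cK K * (M + 1) ^ 2 * ((n : ℝ) + 1)) ≤ k0 := by
    have h1 := hp.kap_le
    unfold kmax at h1
    rw [← hM, le_div_iff₀ (by positivity)] at h1
    exact h1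
  have hkap1 : p.kap ≤ 1 := by
    have h1 := one_le_cK (K := K)
    have h2 : 1 ≤ 10 * cK K * (M + 1) ^ 2 * ((n : ℝ) + 1) := by
      have h3 : 1 ≤ (M + 1) ^ 2 := by nlinarith
      have h4 : (1 : ℝ) ≤ (n : ℝ) + 1 := by
        have : (0 : ℝ) ≤ n := by positivity
        linarith
      have h5 : 1 ≤ 10 * cK K := by linarith
      exact one_le_mul_of_one_le_of_one_le (one_le_mul_of_one_le_of_one_le h5 h3) h4
    have h3 := hp.kap_pos
    have h4 := hp.k0_le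
    nlinarith
  have hkap0 := hp.kap_pos
  have h2 : ∀ j, |(crd (x i) j : ℝ) - B * p.xi i j| ≤ (M + 1) * p.kap * B := by
    intro j
    have h0 := hx.1.1 j
    by_cases hi : i = 0
    · subst hi
      have h3 : 0 ≤ M * p.kap * B := by positivity
      nlinarith
    · have h3 := hx.1.2 i hi j
      have h4 : |(crd (x i) j : ℝ) - B * p.xi i j| ≤
          |((crd (x i) j : ℝ) - B * p.xi i j) - p.h i * ((crd (x 0) j : ℝ) - B * p.xi 0 j)| +
          |(p.h i : ℝ) * ((crd (x 0) j : ℝ) - B * p.xi 0 j)| := by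
        have := abs_add_le (((crd (x i) j : ℝ) - B * p.xi i j) -
          p.h i * ((crd (x 0) j : ℝ) - B * p.xi 0 j))
          ((p.h i : ℝ) * ((crd (x 0) j : ℝ) - B * p.xi 0 j))
        rwa [sub_add_cancel] at this
      have h6 : |(p.h i : ℝ)| ≤ M := by
        rw [hM]
        have := hp.h_le i
        rw [← Int.cast_abs]
        exact_mod_cast this
      have h5 : |(p.h i : ℝ) * ((crd (x 0) j : ℝ) - B * p.xi 0 j)| ≤ M * (p.kap * B) := by
        rw [abs_mul]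
        exact mul_le_mul h6 h0 (abs_nonneg _) hM0
      have h7 : p.kap ^ 2 * B ≤ p.kap * B := by
        refine mul_le_mul_of_nonneg_right ?_ hB
        nlinarith
      nlinarith
  have h3 : ‖sg w' (x i) - B * lam (p.xi i) w'‖ ≤ cK K * ((M + 1) * p.kap * B) := by
    have h4 := norm_lam_le (fun j => (crd (x i) j : ℝ) - B * p.xi i j) _ h2 w'
    rw [lam_sub (fun j => (crd (x i) j : ℝ)) (fun j => (B : ℝ) * p.xi i j) w', lam_crd,
      lam_smul] at h4
    simpa using h4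
  rw [← hM]
  calc ‖sg w' (x i) - B * lam (p.xi i) w'‖ * (10 * (M + 1) * ((n : ℝ) + 1))
      ≤ cK K * ((M + 1) * p.kap * B) * (10 * (M + 1) * ((n : ℝ) + 1)) :=
        mul_le_mul_of_nonneg_right h3 (by positivity)
    _ = p.kap * (10 * cK K * (M + 1) ^ 2 * ((n : ℝ) + 1)) * B := by ring
    _ ≤ k0 * B := mul_le_mul_of_nonneg_right hkap hB

theorem mem_XX_near (p : Par K n d) {eps bet k0 : ℝ} {w : ℕ} (hp : p.Valid eps bet k0 w)
    (B : ℕ) (x : Fin (n + 1) → 𝓞 K) (hx : x ∈ p.XX B) (i : Fin (n + 1)) (w' : InfinitePlace K) :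
    ‖sg w' (x i) - B * lam (p.xi i) w'‖ ≤ B / 10 := by
  have h1 := pt_near p hp B x hx i w'
  have h2 := hp.k0_le
  have hB : (0 : ℝ) ≤ B := by positivity
  have h3 : (1 : ℝ) ≤ ((hb n (mK K) : ℝ) + 1) * ((n : ℝ) + 1) := by
    have h4 : (0 : ℝ) ≤ (hb n (mK K) : ℝ) := by positivity
    have h5 : (0 : ℝ) ≤ n := by positivity
    nlinarith
  have h4 := norm_nonneg (sg w' (x i) - B * lam (p.xi i) w')
  nlinarith

theorem mem_XX_bounds (p : Par K n d) {eps bet k0 : ℝ} {w : ℕ} (hp : p.Valid eps bet k0 w)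
    (B : ℕ) : (∀ x ∈ p.XX B, x ∈ Bx n (2 * (B : ℝ))) ∧
      ∀ w', ∃ i, ∀ x ∈ p.XX B, (B : ℝ) / 2 ≤ ‖sg w' (x i)‖ := by
  have hB : (0 : ℝ) ≤ B := by positivity
  constructor
  · intro x hx i w'
    have h1 := mem_XX_near p hp B x hx i w'
    have h2 : ‖sg w' (x i)‖ ≤ ‖sg w' (x i) - B * lam (p.xi i) w'‖ + ‖(B : ℂ) * lam (p.xi i) w'‖ := by
      have := norm_add_le (sg w' (x i) - B * lam (p.xi i) w') (B * lam (p.xi i) w')
      rwa [sub_add_cancel] at this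
    rw [norm_mul, Complex.norm_natCast] at h2
    have h3 := mul_le_mul_of_nonneg_left (hp.xi_le i w') hB
    linarith
  · intro w'
    obtain ⟨i, hi⟩ := hp.xi_eq w'
    refine ⟨i, fun x hx => ?_⟩
    have h1 := mem_XX_near p hp B x hx i w'
    have h2 : ‖(B : ℂ) * lam (p.xi i) w'‖ ≤ ‖sg w' (x i) - B * lam (p.xi i) w'‖ +
        ‖sg w' (x i)‖ := by
      have := norm_sub_le (sg w' (x i)) (sg w' (x i) - B * lam (p.xi i) w')
      rw [sub_sub_cancel] at this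
      linarith
    rw [norm_mul, Complex.norm_natCast, hi] at h2
    linarith

theorem u_large (p : Par K n d) {eps bet k0 : ℝ} {w : ℕ} (hp : p.Valid eps bet k0 w)
    (B : ℕ) (x : Fin (n + 1) → 𝓞 K) (hx : x ∈ p.XX B) (w' : InfinitePlace K) :
    k0 / 2 * B ≤ ‖sg w' (∑ i, (p.u i : 𝓞 K) * x i)‖ := by
  have hB : (0 : ℝ) ≤ B := by positivity
  have hk0 := hp.k0_pos
  have hM0 : (0 : ℝ) ≤ (hb n (mK K) : ℝ) := by positivity
  have e1 : sg w' (∑ i, (p.u i : 𝓞 K) * x i) = ∑ i, (p.u i : ℂ) * sg w' (x i) := by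
    rw [map_sum]
    refine Finset.sum_congr rfl fun i _ => ?_
    rw [map_mul, sg_intCast]
  have e2 : ∑ i, (p.u i : ℂ) * ((B : ℂ) * lam (p.xi i) w') =
      B * ∑ i, (p.u i : ℂ) * lam (p.xi i) w' := by
    rw [Finset.mul_sum]
    refine Finset.sum_congr rfl fun i _ => ?_
    ring
  have h1 : k0 * B ≤ ‖∑ i, (p.u i : ℂ) * ((B : ℂ) * lam (p.xi i) w')‖ := by
    rw [e2, norm_mul, Complex.norm_natCast, mul_comm]
    exact mul_le_mul_of_nonneg_left (hp.u_ge w') hB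
  have h2 : ‖∑ i, (p.u i : ℂ) * (sg w' (x i) - B * lam (p.xi i) w')‖ ≤ k0 / 10 * B := by
    refine (norm_sum_le _ _).trans ?_
    have h3 : ∀ i ∈ (univ : Finset (Fin (n + 1))),
        ‖(p.u i : ℂ) * (sg w' (x i) - B * lam (p.xi i) w')‖ ≤ k0 * B / (10 * ((n : ℝ) + 1)) := by
      intro i _
      have h4 := pt_near p hp B x hx i w'
      have h6 : ‖(p.u i : ℂ)‖ ≤ (hb n (mK K) : ℝ) := by
        rw [Complex.norm_intCast]
        have := hp.u_le i
        rw [← Int.cast_abs]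
        exact_mod_cast this
      rw [norm_mul, le_div_iff₀ (by positivity)]
      have h7 := norm_nonneg (sg w' (x i) - B * lam (p.xi i) w')
      calc ‖(p.u i : ℂ)‖ * ‖sg w' (x i) - B * lam (p.xi i) w'‖ * (10 * ((n : ℝ) + 1))
          ≤ ((hb n (mK K) : ℝ) + 1) * ‖sg w' (x i) - B * lam (p.xi i) w'‖ *
            (10 * ((n : ℝ) + 1)) := by
            refine mul_le_mul_of_nonneg_right ?_ (by positivity)
            exact mul_le_mul_of_nonneg_right (by linarith) h7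
        _ = ‖sg w' (x i) - B * lam (p.xi i) w'‖ *
            (10 * ((hb n (mK K) : ℝ) + 1) * ((n : ℝ) + 1)) := by ring
        _ ≤ k0 * B := h4
    refine (Finset.sum_le_card_nsmul _ _ _ h3).trans (le_of_eq ?_)
    rw [Finset.card_univ, Fintype.card_fin, nsmul_eq_mul]
    push_cast
    field_simp
  have h3 : ∑ i, (p.u i : ℂ) * ((B : ℂ) * lam (p.xi i) w') = ∑ i, (p.u i : ℂ) * sg w' (x i) -
      ∑ i, (p.u i : ℂ) * (sg w' (x i) - B * lam (p.xi i) w') := by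
    rw [← Finset.sum_sub_distrib]
    refine Finset.sum_congr rfl fun i _ => ?_
    ring
  rw [h3] at h1
  have h4 := norm_sub_le (∑ i, (p.u i : ℂ) * sg w' (x i))
    (∑ i, (p.u i : ℂ) * (sg w' (x i) - B * lam (p.xi i) w'))
  rw [e1]
  nlinarith

theorem mgI_ne_bot_of_mem_GG (p : Par K n d) {eps bet k0 : ℝ} {w : ℕ}
    (hp : p.Valid eps bet k0 w) (R : ℝ) (B : ℕ) (hB : 1 ≤ B) (x y : Fin (n + 1) → 𝓞 K)
    (hx : x ∈ p.GG R B) (hy : y ∈ p.GG R B) (h : x ≠ y) : mgI x y ≠ ⊥ := by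
  intro hbot
  obtain ⟨u, hu⟩ := eq_mul_of_mgI_bot x y hx.2.1 hbot
  have hB' : (1 : ℝ) ≤ B := by exact_mod_cast hB
  have hu1 : u - 1 ≠ 0 := by
    intro h0
    apply h
    funext i
    rw [hu i, sub_eq_zero.mp h0, one_mul]
  have h1 : ∀ w', ‖sg w' (u - 1)‖ ≤ 1 / 2 := by
    intro w'
    obtain ⟨i, hi⟩ := hp.xi_eq w'
    have h2 := mem_XX_near p hp B x hx.1 i w'
    have h3 := mem_XX_near p hp B y hy.1 i w'
    have h4 : ‖(B : ℂ) * lam (p.xi i) w'‖ ≤ ‖sg w' (x i) - B * lam (p.xi i) w'‖ +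
        ‖sg w' (x i)‖ := by
      have := norm_sub_le (sg w' (x i)) (sg w' (x i) - B * lam (p.xi i) w')
      rw [sub_sub_cancel] at this
      linarith
    rw [norm_mul, Complex.norm_natCast, hi] at h4
    have h5 : sg w' (u - 1) * sg w' (x i) = (sg w' (y i) - B * lam (p.xi i) w') -
        (sg w' (x i) - B * lam (p.xi i) w') := by
      rw [hu i, map_sub, map_one, map_mul]
      ring
    have h6 : ‖sg w' (u - 1)‖ * ‖sg w' (x i)‖ ≤ B / 10 + B / 10 := by
      rw [← norm_mul, h5]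
      refine (norm_sub_le _ _).trans (add_le_add h3 h2)
    have h7 := norm_nonneg (sg w' (u - 1))
    by_contra hcon
    push Not at hcon
    nlinarith
  have h2 := one_le_np_sg hu1
  have h3 : np (fun w => ‖sg w (u - 1)‖) ≤ np (fun _ : InfinitePlace K => (1 / 2 : ℝ)) :=
    np_mono (fun _ => norm_nonneg _) h1
  rw [np_const] at h3
  have h4 : (1 / 2 : ℝ) ^ mK K < 1 := pow_lt_one₀ (by norm_num) (by norm_num) mK_pos.ne'
  linarith

theorem dl_le (x y : Fin (n + 1) → 𝓞 K) (B : ℕ) (hx : x ∈ Bx n (2 * (B : ℝ)))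
    (hy : y ∈ Bx n (2 * (B : ℝ))) (w : InfinitePlace K) :
    dl w x y ≤ 8 * ((n : ℝ) + 1) ^ 2 * (B : ℝ) ^ 2 := by
  unfold dl
  have hB : (0 : ℝ) ≤ 2 * B := by positivity
  have h1 : ∀ q ∈ (univ : Finset (Fin (n + 1) × Fin (n + 1))),
      ‖sg w (minor x y q.1 q.2)‖ ≤ 8 * (B : ℝ) ^ 2 := by
    intro q _
    unfold minor
    rw [map_sub, map_mul, map_mul]
    refine (norm_sub_le _ _).trans ?_
    rw [norm_mul, norm_mul]
    have h2 := mul_le_mul (hx q.1 w) (hy q.2 w) (norm_nonneg _) hB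
    have h3 := mul_le_mul (hx q.2 w) (hy q.1 w) (norm_nonneg _) hB
    nlinarith
  refine (Finset.sum_le_card_nsmul _ _ _ h1).trans (le_of_eq ?_)
  rw [Finset.card_univ, Fintype.card_prod, Fintype.card_fin, nsmul_eq_mul]
  push_cast
  ring

theorem x_unimod (p : Par K n d) {eps bet k0 : ℝ} {w : ℕ} (hp : p.Valid eps bet k0 w) (B : ℕ)
    (x : Fin (n + 1) → 𝓞 K) (hx : x ∈ p.XX B) :
    ∃ c : Fin (n + 1) → 𝓞 K, IsCoprime (∑ i, c i * x i) (p.W : 𝓞 K) :=
  hp.hens.2.2.2.1 x hx.2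

end NFHP
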