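import Pool.Agent.Lib.MP_e426f4_ag.N.LevelW
import Pool.Agent.Lib.MP_e426f4_ag.N.OmegaLoc
import Pool.Agent.Lib.MP_e426f4_ag.N.CardCl
import Pool.Agent.Lib.MP_e426f4_ag.N.Points

/-! Module NF-LS: local pairs over few points are few. -/

set_option linter.unusedSectionVars false
set_option linter.unusedVariables false

namespace NFHP

open NumberField GenHP Finset Filter Topology

variable {K : Type} [Field K] [NumberField K] {n d : ℕ}

/-- the local count over one point -/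
theorem LS_one_le (p : Par K n d) {eps bet k0 : ℝ} {w : ℕ} (hp : p.Valid eps bet k0 w) :
    ∃ C : ℝ, 0 < C ∧ ∀ (th : ℝ), 0 < th → ∀ s : ℕ, p.Q ∣ p.W ^ s →
    ∀ᶠ H : ℝ in atTop, ∀ x ∈ p.XX (Bf n d H),
      (Set.ncard {A : Idx n d → 𝓞 K | A ∈ p.Cl p.rho H ∧ ((p.W : 𝓞 K) ^ s) ∣ F A x ∧
          VIn p.gam (th * H * (Bf n d H : ℝ) ^ d) (F A x)} : ℝ) ≤
        (C * (th / (p.W : ℝ) ^ s) ^ mK K) * p.XR p.rho H := by
  classical
  have hd1 : 1 ≤ d := by have := hp.d_ge; omega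
  obtain ⟨C, hC0, hC⟩ := omega_loc_le K n d hd1
  have hrho : 0 < p.rho := hp.rho_pos
  have hQ : (0 : ℝ) < p.Q := by exact_mod_cast hp.Q_pos
  have hcK := cK_pos (K := K)
  have hk0 := hp.k0_pos
  have hcG : 0 ≤ cG K n d := by
    obtain ⟨w'⟩ : Nonempty (InfinitePlace K) := inferInstance
    exact (norm_nonneg _).trans (gam_le p hp w')
  obtain ⟨c', hc'⟩ : ∃ c' : ℝ, c' = cG K n d * cK K / (k0 / 2) ^ d + 1 := ⟨_, rfl⟩
  have hc'0 : 0 < c' := by rw [hc']; positivity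
  refine ⟨C * (c' * p.Q / (2 * p.rho)) ^ mK K, by positivity, ?_⟩
  intro th hth s hs
  obtain ⟨M, hM⟩ : ∃ M : ℝ, M = (p.W : ℝ) ^ s := ⟨_, rfl⟩
  have hW : 0 < p.W := hp.W_pos
  have hWR : (0 : ℝ) < p.W := by exact_mod_cast hW
  have hMpos : 0 < M := by rw [hM]; positivity
  obtain ⟨N1, hN1⟩ : ∃ N1, NN n d = N1 + 1 := ⟨NN n d - 1, by have := NN_pos n d; omega⟩
  have hB : ∀ᶠ H : ℝ in atTop, 1 ≤ Bf n d H :=
    (Bf_atTop n d hp.n_ge hp.d_ge hp.d_le).eventually_ge_atTop 1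
  filter_upwards [hB, eventually_ge_atTop (max (M / p.rho) (M / th)),
    eventually_gt_atTop (0 : ℝ)] with H hB1 hH hHpos
  intro x hx
  have hBpos : (0 : ℝ) < Bf n d H := by exact_mod_cast hB1
  have hbig := u_large p hp (Bf n d H) x hx
  have h1 := hC (Bf n d H) hB1 p.W p.Q s hW hs p.A0 x (x_unimod p hp _ x hx) p.u hp.u0 hp.u_le
    (k0 / 2) (by positivity) hbig (fun t j => H * p.AC t j) (p.rho * H)
    (cG K n d * cK K * (th * H * (Bf n d H : ℝ) ^ d)) (by positivity) (by positivity)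
  have hsub : {A : Idx n d → 𝓞 K | A ∈ p.Cl p.rho H ∧ ((p.W : 𝓞 K) ^ s) ∣ F A x ∧
          VIn p.gam (th * H * (Bf n d H : ℝ) ^ d) (F A x)} ⊆
      {A : Idx n d → 𝓞 K | (∀ m j, |(crd (A m) j : ℝ) - H * p.AC m j| ≤ p.rho * H) ∧
      (∀ m, (p.Q : 𝓞 K) ∣ A m - p.A0 m) ∧ (p.W : 𝓞 K) ^ s ∣ F A x ∧
        ∀ w, ‖sg w (F A x)‖ ≤ cG K n d * cK K * (th * H * (Bf n d H : ℝ) ^ d)} := by
    rintro A ⟨hA1, hA2, hA3⟩
    exact ⟨hA1.1, hA1.2, hA2, fun w' => norm_le_of_VIn p hp _ _ hA3 w'⟩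
  have hfin : {A : Idx n d → 𝓞 K | (∀ m j, |(crd (A m) j : ℝ) - H * p.AC m j| ≤ p.rho * H) ∧
      (∀ m, (p.Q : 𝓞 K) ∣ A m - p.A0 m) ∧ (p.W : 𝓞 K) ^ s ∣ F A x ∧
        ∀ w, ‖sg w (F A x)‖ ≤ cG K n d * cK K * (th * H * (Bf n d H : ℝ) ^ d)}.Finite :=
    (Cl_finite p p.rho H).subset fun A hA => ⟨hA.1, hA.2.1⟩
  have h2 : (Set.ncard {A : Idx n d → 𝓞 K | A ∈ p.Cl p.rho H ∧ ((p.W : 𝓞 K) ^ s) ∣ F A x ∧
          VIn p.gam (th * H * (Bf n d H : ℝ) ^ d) (F A x)} : ℝ) ≤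
      (Set.ncard {A : Idx n d → 𝓞 K | (∀ m j, |(crd (A m) j : ℝ) - H * p.AC m j| ≤ p.rho * H) ∧
      (∀ m, (p.Q : 𝓞 K) ∣ A m - p.A0 m) ∧ (p.W : 𝓞 K) ^ s ∣ F A x ∧
        ∀ w, ‖sg w (F A x)‖ ≤ cG K n d * cK K * (th * H * (Bf n d H : ℝ) ^ d)} : ℝ) :=
    Nat.cast_le.mpr (Set.ncard_le_ncard hsub hfin)
  refine (h2.trans h1).trans ?_
  have hdiv : (((p.W ^ s / p.Q : ℕ) : ℝ)) = M / p.Q := by
    rw [Nat.cast_div hs hQ.ne', hM]
    push_cast
    rfl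
  rw [hdiv, ← hM]
  have hH1 : M / p.rho ≤ H := (le_max_left _ _).trans hH
  have hH2 : M / th ≤ H := (le_max_right _ _).trans hH
  rw [div_le_iff₀ (by positivity)] at hH1 hH2
  have e1 : p.rho * H / M + 1 ≤ 2 * p.rho * H / M := by
    have : 1 ≤ p.rho * H / M := by
      rw [le_div_iff₀ hMpos]
      linarith
    have h3 : 2 * p.rho * H / M = p.rho * H / M + p.rho * H / M := by ring
    rw [h3]
    linarith
  have e2 : cG K n d * cK K * (th * H * (Bf n d H : ℝ) ^ d) /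
      ((k0 / 2 * (Bf n d H : ℝ)) ^ d * M) + 1 ≤ c' * (th * H / M) := by
    have h3 : 1 ≤ th * H / M := by
      rw [le_div_iff₀ hMpos]
      linarith
    have h4 : cG K n d * cK K * (th * H * (Bf n d H : ℝ) ^ d) /
        ((k0 / 2 * (Bf n d H : ℝ)) ^ d * M) =
        cG K n d * cK K / (k0 / 2) ^ d * (th * H / M) := by
      rw [mul_pow]
      field_simp
    rw [h4, hc', add_mul, one_mul]
    linarith
  have hN2 : NN n d - 1 = N1 := by omega
  rw [hN2]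
  have h5 : (M / p.Q) ^ N1 * (p.rho * H / M + 1) ^ N1 *
      (cG K n d * cK K * (th * H * (Bf n d H : ℝ) ^ d) /
        ((k0 / 2 * (Bf n d H : ℝ)) ^ d * M) + 1) ≤
      (c' * p.Q / (2 * p.rho)) * (th / M) * (2 * p.rho * H / p.Q) ^ NN n d := by
    calc _ ≤ (M / p.Q) ^ N1 * (2 * p.rho * H / M) ^ N1 * (c' * (th * H / M)) := by
          gcongr
      _ = _ := by
          rw [hN1, pow_succ, ← mul_pow]
          have h6 : M / p.Q * (2 * p.rho * H / M) = 2 * p.rho * H / p.Q := by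
            field_simp
          rw [h6]
          field_simp
  calc C * ((M / p.Q) ^ N1 * (p.rho * H / M + 1) ^ N1 *
      (cG K n d * cK K * (th * H * (Bf n d H : ℝ) ^ d) /
        ((k0 / 2 * (Bf n d H : ℝ)) ^ d * M) + 1)) ^ mK K ≤
      C * ((c' * p.Q / (2 * p.rho)) * (th / M) * (2 * p.rho * H / p.Q) ^ NN n d) ^ mK K := by
        gcongr
    _ = (C * (c' * p.Q / (2 * p.rho)) ^ mK K * (th / M) ^ mK K) * p.XR p.rho H := by
        unfold Par.XR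
        rw [mul_pow, mul_pow, ← pow_mul, mul_comm (NN n d) (mK K)]
        ring

theorem loc_pairs_le (p : Par K n d) {eps bet k0 : ℝ} {w : ℕ} (hp : p.Valid eps bet k0 w) :
    ∃ C : ℝ, 0 < C ∧ ∀ (th : ℝ), 0 < th → ∀ s : ℕ, p.Q ∣ p.W ^ s →
    ∀ᶠ H : ℝ in atTop, ∀ S : Set (Fin (n + 1) → 𝓞 K), S ⊆ p.XX (Bf n d H) →
      ((p.LP p.rho th s S H).ncard : ℝ) ≤
        (S.ncard : ℝ) * (C * (th / (p.W : ℝ) ^ s) ^ mK K) * p.XR p.rho H := by
  classical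
  obtain ⟨C, hC0, hC⟩ := LS_one_le p hp
  refine ⟨C, hC0, ?_⟩
  intro th hth s hs
  filter_upwards [hC th hth s hs] with H hone
  intro S hS
  have hSfin : S.Finite := (XX_finite p (Bf n d H)).subset hS
  have hLfin : (p.LP p.rho th s S H).Finite :=
    ((Cl_finite p p.rho H).prod hSfin).subset fun q hq => ⟨hq.1, hq.2.1⟩
  rw [Set.ncard_eq_toFinset_card _ hLfin, Set.ncard_eq_toFinset_card _ hSfin]
  have hmap : ∀ q ∈ hLfin.toFinset, q.2 ∈ hSfin.toFinset := by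
    intro q hq
    rw [Set.Finite.mem_toFinset] at hq ⊢
    exact hq.2.1
  rw [Finset.card_eq_sum_card_fiberwise hmap]
  push_cast
  have hfib : ∀ x ∈ hSfin.toFinset, ((hLfin.toFinset.filter (fun q => q.2 = x)).card : ℝ) ≤
      (C * (th / (p.W : ℝ) ^ s) ^ mK K) * p.XR p.rho H := by
    intro x hx
    rw [Set.Finite.mem_toFinset] at hx
    refine le_trans ?_ (hone x (hS hx))
    have hfin : {A : Idx n d → 𝓞 K | A ∈ p.Cl p.rho H ∧ ((p.W : 𝓞 K) ^ s) ∣ F A x ∧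
          VIn p.gam (th * H * (Bf n d H : ℝ) ^ d) (F A x)}.Finite :=
      (Cl_finite p p.rho H).subset fun A hA => hA.1
    rw [Set.ncard_eq_toFinset_card _ hfin]
    refine Nat.cast_le.2 ?_
    refine Finset.card_le_card_of_injOn (fun q => q.1) ?_ ?_
    · intro q hq
      rw [Finset.mem_coe, Finset.mem_filter, Set.Finite.mem_toFinset] at hq
      rw [Finset.mem_coe, Set.Finite.mem_toFinset]
      obtain ⟨⟨h1, h2, h3, h4⟩, h5⟩ := hq
      rw [← h5]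
      exact ⟨h1, h3, h4⟩
    · intro q hq q' hq' h
      rw [Finset.mem_coe, Finset.mem_filter] at hq hq'
      exact Prod.ext h (hq.2.trans hq'.2.symm)
  refine (Finset.sum_le_sum hfib).trans ?_
  rw [Finset.sum_const, nsmul_eq_mul]
  exact le_of_eq (by ring)

end NFHP
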