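import Pool.Agent.Lib.MP_e426f4_ag.N.Const
import Pool.Agent.Lib.MP_e426f4_ag.N.CubeCount
import Pool.Agent.Lib.MP_e426f4_ag.N.FewNotGood
import Pool.Agent.Lib.MP_e426f4_ag.N.Points
import Pool.Agent.Lib.MP_e426f4_ag.N.LocPairs
import Pool.Agent.Lib.MP_e426f4_ag.G.Heights

/-! NF-BPa: points that are not well-rounded contribute little. -/

set_option linter.unusedSectionVars false

namespace NFHP

open NumberField GenHP Finset Filter Topology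

variable {K : Type} [Field K] [NumberField K] {n d : ℕ}

theorem bp_one_le_Bf (hn : 3 ≤ n) (hd : 2 ≤ d) (hdn : d ≤ n) {H : ℝ} (hH : 1 ≤ H) :
    1 ≤ Bf n d H := by
  rw [Bf]
  apply Nat.le_floor
  push_cast
  exact Real.one_le_rpow hH (cc_pos n d hn hd hdn).le

theorem bp_XR_nonneg (p : Par K n d) {r H : ℝ} (hr : 0 ≤ r) (hH : 0 ≤ H) : 0 ≤ p.XR r H := by
  rw [Par.XR]
  positivity

/-- the comparison of the error term with the main term -/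
theorem bp_few_points_le (p : Par K n d) {eps bet k0 : ℝ} {w : ℕ}
    (hp : p.Valid eps bet k0 w) :
    ∃ e : ℝ, 0 < e ∧ ∀ th : ℝ, 0 < th → ∀ s : ℕ, p.Q ∣ p.W ^ s →
      ∀ᶠ H : ℝ in atTop, ∀ S : Set (Fin (n + 1) → 𝓞 K), S ⊆ p.XX (Bf n d H) →
        (S.ncard : ℝ) ≤ e * (Bf n d H : ℝ) ^ (mK K * (n + 1)) →
        ((p.LP p.rho th s S H).ncard : ℝ) ≤ eps / 2 * p.MT th s H * p.XR p.rho H := by
  obtain ⟨C, hC, hloc⟩ := loc_pairs_le p hp
  have hP : (0 : ℝ) < (Ideal.absNorm p.P : ℝ) := by exact_mod_cast absNorm_pos hp.P_ne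
  have hQ : (0 : ℝ) < p.Q := by exact_mod_cast hp.Q_pos
  have hW : (0 : ℝ) < p.W := by exact_mod_cast hp.W_pos
  have hk := hp.kap_pos
  have hr := hp.rho_pos
  have he := hp.eps_pos
  refine ⟨eps / 2 * ((2 * p.kap ^ 2) ^ (mK K * n) * 2 ^ mK K * (p.Q : ℝ) ^ mK K) /
    ((Ideal.absNorm p.P : ℝ) ^ (n + 1) * C), by positivity, ?_⟩
  intro th hth s hs
  filter_upwards [hloc th hth s hs, eventually_ge_atTop 0] with H hH hH0 S hS hcard
  refine (hH S hS).trans ?_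
  have hX : 0 ≤ p.XR p.rho H := bp_XR_nonneg p hr.le hH0
  apply mul_le_mul_of_nonneg_right _ hX
  have h1 : eps / 2 * p.MT th s H =
      (eps / 2 * ((2 * p.kap ^ 2) ^ (mK K * n) * 2 ^ mK K * (p.Q : ℝ) ^ mK K) /
        ((Ideal.absNorm p.P : ℝ) ^ (n + 1) * C) * (Bf n d H : ℝ) ^ (mK K * (n + 1))) *
        (C * (th / (p.W : ℝ) ^ s) ^ mK K) := by
    rw [Par.MT, Vol, mul_pow _ (Bf n d H : ℝ) (mK K * n), mul_pow _ (Bf n d H : ℝ) (mK K),
      mul_pow 2 th (mK K), div_pow, mul_add (mK K) n 1, mul_one, pow_add (Bf n d H : ℝ)]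
    field_simp
  rw [h1]
  exact mul_le_mul_of_nonneg_right hcard (by positivity)

/-- NF-BPa (BadA.lean) -/
theorem bad_not_good (p : Par K n d) {eps bet k0 : ℝ} {w : ℕ} (hp : p.Valid eps bet k0 w) :
    ∃ R0 : ℝ, 1 ≤ R0 ∧ ∀ R, R0 ≤ R → ∀ th : ℝ, 0 < th → ∀ s : ℕ, p.Q ∣ p.W ^ s →
      ∀ᶠ H : ℝ in atTop,
        ((p.LP p.rho th s {x | x ∈ p.XX (Bf n d H) ∧ ¬ Good R (Bf n d H) x} H).ncard : ℝ) ≤
          eps / 2 * p.MT th s H * p.XR p.rho H := by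
  obtain ⟨e, he, hfew⟩ := bp_few_points_le p hp
  obtain ⟨R0, hR0, hR⟩ := few_not_good K n (by have := hp.n_ge; omega) e he
  refine ⟨R0, hR0, ?_⟩
  intro R hRR th hth s hs
  filter_upwards [hfew th hth s hs, eventually_ge_atTop 1] with H hH hH1
  refine hH _ (fun x hx => hx.1) ?_
  refine le_trans ?_ (hR R hRR (Bf n d H) (bp_one_le_Bf hp.n_ge hp.d_ge hp.d_le hH1))
  have hfin : {x : Fin (n + 1) → 𝓞 K | x ∈ Bx n (2 * (Bf n d H : ℝ)) ∧
      ¬ Good R (Bf n d H) x}.Finite := (Bx_finite _).subset fun x hx => hx.1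
  have hsub : {x | x ∈ p.XX (Bf n d H) ∧ ¬ Good R (Bf n d H) x} ⊆
      {x : Fin (n + 1) → 𝓞 K | x ∈ Bx n (2 * (Bf n d H : ℝ)) ∧ ¬ Good R (Bf n d H) x} :=
    fun x hx => ⟨(mem_XX_bounds p hp _).1 x hx.1, hx.2⟩
  exact_mod_cast Set.ncard_le_ncard hsub hfin

end NFHP
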