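import Pool.Agent.Lib.MP_e426f4_ag.N.BadA
import Pool.Agent.Lib.MP_e426f4_ag.N.Lat
import Pool.Agent.Lib.MP_e426f4_ag.N.Ideals

/-! NF-BPb: points divisible by a large prime contribute little. -/

set_option linter.unusedSectionVars false

namespace NFHP

open NumberField GenHP Finset Filter Topology

variable {K : Type} [Field K] [NumberField K] {n d : ℕ}

theorem bp_max_ne_bot (P : Ideal (𝓞 K)) (hP : P.IsMaximal) : P ≠ ⊥ :=
  Ring.ne_bot_of_isMaximal_of_not_isField hP (RingOfIntegers.not_isField K)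

/-- NF-BPb (BadB.lean) -/
theorem bad_large_prime (p : Par K n d) {eps bet k0 : ℝ} {w : ℕ} (hp : p.Valid eps bet k0 w) :
    ∃ z : ℕ, ∀ th : ℝ, 0 < th → ∀ s : ℕ, p.Q ∣ p.W ^ s →
      ∀ᶠ H : ℝ in atTop,
        ((p.LP p.rho th s {x | x ∈ p.XX (Bf n d H) ∧ ∃ P : Ideal (𝓞 K), P.IsMaximal ∧
          z < Ideal.absNorm P ∧ ∀ i, x i ∈ P} H).ncard : ℝ) ≤
          eps / 2 * p.MT th s H * p.XR p.rho H := by
  classical
  obtain ⟨e, he, hfew⟩ := bp_few_points_le p hp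
  obtain ⟨C, hC, hlat⟩ := lat_upper_ne_zero K
  have hC0 : 0 < C := by linarith
  obtain ⟨z, hz1, hz⟩ := ideal_tail K (e / (C * 2 ^ mK K) ^ (n + 1)) (by positivity)
  refine ⟨z, ?_⟩
  intro th hth s hs
  filter_upwards [hfew th hth s hs, eventually_ge_atTop 1] with H hH hH1
  refine hH _ (fun x hx => hx.1) ?_
  have hB1 := bp_one_le_Bf hp.n_ge hp.d_ge hp.d_le hH1
  obtain ⟨B, hB⟩ : ∃ B, B = Bf n d H := ⟨_, rfl⟩
  rw [← hB] at hB1 ⊢
  have hB' : (1 : ℝ) ≤ B := by exact_mod_cast hB1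
  have hn2 : 2 ≤ n + 1 := by have := hp.n_ge; omega
  -- the relevant primes
  let PP : Finset (Ideal (𝓞 K)) := (finite_ideals (K := K) ((2 * B) ^ mK K)).toFinset.filter
    fun P => P.IsMaximal ∧ z < Ideal.absNorm P
  let T : Ideal (𝓞 K) → Set (Fin (n + 1) → 𝓞 K) := fun P =>
    {a | a ≠ 0 ∧ (∀ i, a i ∈ P) ∧ ∀ i w, ‖sg w (a i)‖ ≤ 2 * (B : ℝ)}
  have hTfin : ∀ P, (T P).Finite := fun P =>
    (Bx_finite (K := K) (n := n) (2 * (B : ℝ))).subset fun a ha => ha.2.2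
  have hTcard : ∀ P ∈ PP, ((T P).ncard : ℝ) ≤
      (C * 2 ^ mK K) ^ (n + 1) * (B : ℝ) ^ (mK K * (n + 1)) *
        (1 / (Ideal.absNorm P : ℝ) ^ 2) := by
    intro P hP
    simp only [PP, Finset.mem_filter] at hP
    have hPne := bp_max_ne_bot P hP.2.1
    have hN1 : (1 : ℝ) ≤ (Ideal.absNorm P : ℝ) := by exact_mod_cast absNorm_pos hPne
    have h1 := hlat (Fin (n + 1)) P hPne (fun _ => 2 * (B : ℝ)) (fun _ => by positivity)
    rw [np_const, Fintype.card_fin] at h1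
    refine h1.trans ?_
    have h2 : (C * ((2 * (B : ℝ)) ^ mK K / (Ideal.absNorm P : ℝ))) ^ (n + 1) =
        (C * 2 ^ mK K) ^ (n + 1) * (B : ℝ) ^ (mK K * (n + 1)) *
          (1 / (Ideal.absNorm P : ℝ) ^ (n + 1)) := by
      rw [mul_pow 2 (B : ℝ), pow_mul, mul_pow, div_pow, mul_pow, mul_pow]
      ring
    rw [h2]
    apply mul_le_mul_of_nonneg_left _ (by positivity)
    apply one_div_le_one_div_of_le (by positivity)
    exact pow_le_pow_right₀ hN1 hn2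
  have hsub : {x | x ∈ p.XX B ∧ ∃ P : Ideal (𝓞 K), P.IsMaximal ∧
      z < Ideal.absNorm P ∧ ∀ i, x i ∈ P} ⊆
      ((PP.biUnion fun P => (hTfin P).toFinset : Finset (Fin (n + 1) → 𝓞 K)) :
        Set (Fin (n + 1) → 𝓞 K)) := by
    rintro x ⟨hx, P, hP, hzP, hxP⟩
    have hxB := (mem_XX_bounds p hp B).1 x hx
    obtain ⟨w0⟩ : Nonempty (InfinitePlace K) := inferInstance
    obtain ⟨i, hi⟩ := (mem_XX_bounds p hp B).2 w0
    have hxi : x i ≠ 0 := by
      intro h0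
      have h1 := hi x hx
      rw [h0, map_zero, norm_zero] at h1
      linarith
    have hx0 : x ≠ 0 := fun h => hxi (by rw [h]; rfl)
    rw [Finset.mem_coe, Finset.mem_biUnion]
    refine ⟨P, ?_, ?_⟩
    · simp only [PP, Finset.mem_filter, Set.Finite.mem_toFinset]
      refine ⟨⟨bp_max_ne_bot P hP, ?_⟩, hP, hzP⟩
      have h2 := absNorm_le_np (hxP i) hxi
      have h3 : np (fun w => ‖sg w (x i)‖) ≤ np (fun _ : InfinitePlace K => 2 * (B : ℝ)) :=
        np_mono (fun w => norm_nonneg _) (fun w => hxB i w)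
      rw [np_const] at h3
      have h4 := h2.trans h3
      exact_mod_cast h4
    · rw [Set.Finite.mem_toFinset]
      exact ⟨hx0, hxP, hxB⟩
  have h1 := Set.ncard_le_ncard hsub (Finset.finite_toSet _)
  rw [Set.ncard_coe_finset] at h1
  have h2 : ((PP.biUnion fun P => (hTfin P).toFinset).card : ℝ) ≤
      ∑ P ∈ PP, ((T P).ncard : ℝ) := by
    have h3 : ((PP.biUnion fun P => (hTfin P).toFinset).card : ℝ) ≤
        ∑ P ∈ PP, (((hTfin P).toFinset).card : ℝ) := by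
      exact_mod_cast Finset.card_biUnion_le
    refine h3.trans (le_of_eq ?_)
    refine Finset.sum_congr rfl fun P _ => ?_
    rw [Set.ncard_eq_toFinset_card _ (hTfin P)]
  have h5 : ∑ P ∈ PP, 1 / (Ideal.absNorm P : ℝ) ^ 2 ≤ e / (C * 2 ^ mK K) ^ (n + 1) := by
    apply hz
    intro P hP
    simp only [PP, Finset.mem_filter] at hP
    exact hP.2.2
  have hCpos : (0 : ℝ) < (C * 2 ^ mK K) ^ (n + 1) := by positivity
  calc ((Set.ncard {x | x ∈ p.XX B ∧ ∃ P : Ideal (𝓞 K), P.IsMaximal ∧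
      z < Ideal.absNorm P ∧ ∀ i, x i ∈ P} : ℕ) : ℝ)
      ≤ ((PP.biUnion fun P => (hTfin P).toFinset).card : ℝ) := by exact_mod_cast h1
    _ ≤ ∑ P ∈ PP, ((T P).ncard : ℝ) := h2
    _ ≤ ∑ P ∈ PP, (C * 2 ^ mK K) ^ (n + 1) * (B : ℝ) ^ (mK K * (n + 1)) *
        (1 / (Ideal.absNorm P : ℝ) ^ 2) := Finset.sum_le_sum hTcard
    _ = (C * 2 ^ mK K) ^ (n + 1) * (B : ℝ) ^ (mK K * (n + 1)) *
        ∑ P ∈ PP, (1 / (Ideal.absNorm P : ℝ) ^ 2) := by rw [Finset.mul_sum]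
    _ ≤ (C * 2 ^ mK K) ^ (n + 1) * (B : ℝ) ^ (mK K * (n + 1)) *
        (e / (C * 2 ^ mK K) ^ (n + 1)) := mul_le_mul_of_nonneg_left h5 (by positivity)
    _ = e * (B : ℝ) ^ (mK K * (n + 1)) := by field_simp

end NFHP
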