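import Pool.Agent.Lib.MP_e426f4_ag.N.Const

/-! Module NF-PC: p-adic counting for a fixed form of the class. -/

set_option linter.unusedSectionVars false

namespace NFHP

open NumberField GenHP Finset Filter Topology

variable {K : Type} [Field K] [NumberField K] {n d : ℕ}

private theorem card_quot (I : Ideal (𝓞 K)) : Nat.card (𝓞 K ⧸ I) = Ideal.absNorm I := by
  rw [Ideal.absNorm_apply, Submodule.cardQuot_apply]

private theorem finite_quot {I : Ideal (𝓞 K)} (hI : I ≠ ⊥) : Finite (𝓞 K ⧸ I) := by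
  refine Nat.finite_of_card_ne_zero ?_
  rw [card_quot]
  exact (absNorm_pos hI).ne'

private theorem absNorm_nat (M : ℕ) : Ideal.absNorm (Ideal.span {(M : 𝓞 K)}) = M ^ mK K := by
  rw [Ideal.absNorm_span_singleton]
  have h1 : (M : 𝓞 K) = algebraMap ℤ (𝓞 K) (M : ℤ) := by simp
  rw [h1, Algebra.norm_algebraMap, RingOfIntegers.rank, Int.natAbs_pow, Int.natAbs_natCast]
  rfl

private theorem span_nat_ne_bot {M : ℕ} (hM : 0 < M) : Ideal.span {(M : 𝓞 K)} ≠ ⊥ := by
  rw [Ne, Ideal.span_singleton_eq_bot]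
  exact_mod_cast hM.ne'

/-- all fibres of a surjective homomorphism have the same size -/
private theorem card_fiber {A B : Type} [CommRing A] [CommRing B] [Finite A] [Finite B]
    (f : A →+* B) (hf : Function.Surjective f) (b : B) :
    Set.ncard {a : A | f a = b} * Nat.card B = Nat.card A := by
  classical
  have := Fintype.ofFinite A
  have := Fintype.ofFinite B
  have h1 : ∀ b' : B, Set.ncard {a : A | f a = b'} = Set.ncard {a : A | f a = b} := by
    intro b'
    obtain ⟨c, hc⟩ := hf (b - b')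
    refine Set.ncard_congr (fun a _ => a + c) ?_ ?_ ?_
    · intro a ha
      have ha' : f a = b' := ha
      show f (a + c) = b
      rw [map_add, ha', hc]
      ring
    · intro a a' _ _ h
      exact add_right_cancel h
    · intro a ha
      have ha' : f a = b := ha
      refine ⟨a - c, ?_, by ring⟩
      show f (a - c) = b'
      rw [map_sub, ha', hc]
      ring
  have h2 : (Finset.univ : Finset A).card =
      ∑ b' : B, ((Finset.univ : Finset A).filter fun a => f a = b').card :=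
    Finset.card_eq_sum_card_fiberwise (fun a _ => Finset.mem_univ _)
  rw [Nat.card_eq_fintype_card, Nat.card_eq_fintype_card, ← Finset.card_univ (α := A), h2]
  rw [Finset.sum_congr rfl (g := fun _ => Set.ncard {a : A | f a = b}), Finset.sum_const,
    smul_eq_mul, Finset.card_univ, mul_comm]
  intro b' _
  rw [← h1 b', ← Set.ncard_coe_finset]
  congr 1
  ext a
  simp

theorem padic_count (Q W : ℕ) (hW : 0 < W) (P : Ideal (𝓞 K)) (hP : P ≠ ⊥) (A0 : Idx n d → 𝓞 K)
    (x0 : Fin (n + 1) → 𝓞 K) (hH : Hens Q W P A0 x0) (s : ℕ) (hQ : Q ∣ W ^ s)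
    (A : Idx n d → 𝓞 K) (hA : ∀ m, (Q : 𝓞 K) ∣ A m - A0 m) :
    Set.ncard {r : Fin (n + 1) → 𝓞 K | (∀ i j, 0 ≤ crd (r i) j ∧ crd (r i) j < (W : ℤ) ^ s) ∧
      (∀ i, r i - x0 i ∈ P) ∧ (W : 𝓞 K) ^ s ∣ F A r} *
        (Ideal.absNorm P ^ (n + 1) * (W ^ s) ^ mK K) =
      (W ^ s) ^ (mK K * (n + 1)) * Q ^ mK K := by
  classical
  obtain ⟨hQP, -, hdiv, -, g, hgP, hspeed⟩ := hH
  have hM : 0 < W ^ s := pow_pos hW s
  have hMc : ((W : 𝓞 K) ^ s) = ((W ^ s : ℕ) : 𝓞 K) := by push_cast; rfl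
  have hMz : ((W : ℤ) ^ s) = ((W ^ s : ℕ) : ℤ) := by push_cast; rfl
  have hcopM : ∀ e : 𝓞 K, IsCoprime e (W : 𝓞 K) → IsCoprime e ((W ^ s : ℕ) : 𝓞 K) := by
    intro e he
    rw [← hMc]
    exact he.pow_right
  rw [hMc, hMz]
  generalize W ^ s = M at hQ hM hcopM ⊢
  obtain ⟨L, hL⟩ := hQ
  have hQ0 : 0 < Q := Nat.pos_of_ne_zero (by rintro rfl; simp at hL; omega)
  have hL0 : 0 < L := Nat.pos_of_ne_zero (by rintro rfl; simp at hL; omega)
  have hMQ : (M : 𝓞 K) = Q * L := by rw [hL]; push_cast; rfl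
  have hMP : (M : 𝓞 K) ∈ P := by
    rw [hMQ]
    exact P.mul_mem_right _ hQP
  set IM : Ideal (𝓞 K) := Ideal.span {(M : 𝓞 K)} with hIM
  set IL : Ideal (𝓞 K) := Ideal.span {(L : 𝓞 K)} with hIL
  have hfM : Finite (𝓞 K ⧸ IM) := finite_quot (span_nat_ne_bot hM)
  have hfL : Finite (𝓞 K ⧸ IL) := finite_quot (span_nat_ne_bot hL0)
  have hfP : Finite (𝓞 K ⧸ P) := finite_quot hP
  have hcM : Nat.card (𝓞 K ⧸ IM) = M ^ mK K := by rw [card_quot, hIM, absNorm_nat]
  have hcL : Nat.card (𝓞 K ⧸ IL) = L ^ mK K := by rw [card_quot, hIL, absNorm_nat]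
  have hcP : Nat.card (𝓞 K ⧸ P) = Ideal.absNorm P := card_quot P
  have := Fintype.ofFinite (𝓞 K ⧸ IM)
  have := Fintype.ofFinite (𝓞 K ⧸ IL)
  have hMleP : IM ≤ P := (Ideal.span_singleton_le_iff_mem P).mpr hMP
  set pr : (𝓞 K ⧸ IM) →+* (𝓞 K ⧸ P) := Ideal.Quotient.factor hMleP with hpr
  have hprs : Function.Surjective pr := Ideal.Quotient.factor_surjective hMleP
  have hprmk : ∀ a : 𝓞 K, pr (Ideal.Quotient.mk IM a) = Ideal.Quotient.mk P a := fun a =>
    Ideal.Quotient.factor_mk hMleP a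
  have hmkM : ∀ a : 𝓞 K, Ideal.Quotient.mk IM a = 0 ↔ (M : 𝓞 K) ∣ a := fun a => by
    rw [Ideal.Quotient.eq_zero_iff_mem, hIM, Ideal.mem_span_singleton]
  have hmkM2 : ∀ a b : 𝓞 K, Ideal.Quotient.mk IM a = Ideal.Quotient.mk IM b ↔
      (M : 𝓞 K) ∣ a - b := fun a b => by
    rw [Ideal.Quotient.eq, hIM, Ideal.mem_span_singleton]
  have hmkL2 : ∀ a b : 𝓞 K, Ideal.Quotient.mk IL a = Ideal.Quotient.mk IL b ↔
      (L : 𝓞 K) ∣ a - b := fun a b => by
    rw [Ideal.Quotient.eq, hIL, Ideal.mem_span_singleton]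
  set Ab : Idx n d → 𝓞 K ⧸ IM := fun t => Ideal.Quotient.mk IM (A t) with hAb
  set gb : Fin (n + 1) → 𝓞 K ⧸ IM := fun i => Ideal.Quotient.mk IM (g i) with hgb
  have hFmk : ∀ v : Fin (n + 1) → 𝓞 K, F Ab (fun i => Ideal.Quotient.mk IM (v i)) =
      Ideal.Quotient.mk IM (F A v) := fun v => F_map (Ideal.Quotient.mk IM) A v
  -- the sets
  set S : Finset (Fin (n + 1) → 𝓞 K ⧸ IM) :=
    Finset.univ.filter fun u => ∀ i, pr (u i) = Ideal.Quotient.mk P (x0 i) with hS
  set Gd : Finset (Fin (n + 1) → 𝓞 K ⧸ IM) := S.filter fun u => F Ab u = 0 with hGd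
  -- the size of `S`
  have hScard : S.card * Ideal.absNorm P ^ (n + 1) = M ^ (mK K * (n + 1)) := by
    have h1 : S = Fintype.piFinset fun i : Fin (n + 1) =>
        (Finset.univ.filter fun a : 𝓞 K ⧸ IM => pr a = Ideal.Quotient.mk P (x0 i)) := by
      ext u
      rw [Fintype.mem_piFinset]
      simp [hS]
    rw [h1, Fintype.card_piFinset, pow_mul, ← hcM, ← hcP]
    have h2 : ∀ i : Fin (n + 1),
        (Finset.univ.filter fun a : 𝓞 K ⧸ IM => pr a = Ideal.Quotient.mk P (x0 i)).card *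
          Nat.card (𝓞 K ⧸ P) = Nat.card (𝓞 K ⧸ IM) := by
      intro i
      rw [← card_fiber pr hprs (Ideal.Quotient.mk P (x0 i)), ← Set.ncard_coe_finset]
      congr 2
      ext a
      simp
    calc (∏ i : Fin (n + 1), (Finset.univ.filter fun a : 𝓞 K ⧸ IM =>
          pr a = Ideal.Quotient.mk P (x0 i)).card) * Nat.card (𝓞 K ⧸ P) ^ (n + 1)
        = ∏ i : Fin (n + 1), ((Finset.univ.filter fun a : 𝓞 K ⧸ IM =>
          pr a = Ideal.Quotient.mk P (x0 i)).card * Nat.card (𝓞 K ⧸ P)) := by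
          rw [Finset.prod_mul_distrib, Finset.prod_const, Finset.card_univ, Fintype.card_fin]
      _ = Nat.card (𝓞 K ⧸ IM) ^ (n + 1) := by
          rw [Finset.prod_congr rfl fun i _ => h2 i, Finset.prod_const, Finset.card_univ,
            Fintype.card_fin]
  -- the shifts
  set sh : (𝓞 K ⧸ IL) → (Fin (n + 1) → 𝓞 K ⧸ IM) → (Fin (n + 1) → 𝓞 K ⧸ IM) :=
    fun c u i => u i + Ideal.Quotient.mk IM c.out * gb i with hsh
  have hgb0 : ∀ i, pr (gb i) = 0 := fun i => by
    rw [hgb]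
    show pr (Ideal.Quotient.mk IM (g i)) = 0
    rw [hprmk, Ideal.Quotient.eq_zero_iff_mem]
    exact hgP i
  have hshS : ∀ c u, sh c u ∈ S ↔ u ∈ S := by
    intro c u
    simp only [hS, hsh, Finset.mem_filter, Finset.mem_univ, true_and, map_add, map_mul, hgb0,
      mul_zero, add_zero]
  -- exactly one shift is good
  have hone : ∀ u ∈ S, (Finset.univ.filter fun c : 𝓞 K ⧸ IL => F Ab (sh c u) = 0).card = 1 := by
    intro u hu
    choose v hv using fun i => Ideal.Quotient.mk_surjective (u i)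
    have hvP : ∀ i, v i - x0 i ∈ P := by
      intro i
      have h1 := (Finset.mem_filter.mp hu).2 i
      rw [← hv i, hprmk] at h1
      exact Ideal.Quotient.eq.mp h1
    have hshv : ∀ c : 𝓞 K ⧸ IL, sh c u = fun i => Ideal.Quotient.mk IM (v i + c.out * g i) := by
      intro c
      funext i
      rw [map_add, map_mul, hv i]
    have hcP : ∀ (c : 𝓞 K) i, (v i + c * g i) - x0 i ∈ P := by
      intro c i
      have h1 : (v i + c * g i) - x0 i = (v i - x0 i) + c * g i := by ring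
      rw [h1]
      exact P.add_mem (hvP i) (P.mul_mem_left _ (hgP i))
    have hdv : ∀ c : 𝓞 K ⧸ IL, (Q : 𝓞 K) ∣ F A (fun i => v i + c.out * g i) :=
      fun c => hdiv A hA _ (hcP c.out)
    choose G hG using hdv
    have hQ1 : (Q : 𝓞 K) ≠ 0 := by exact_mod_cast hQ0.ne'
    have key : ∀ c c' : 𝓞 K ⧸ IL, (L : 𝓞 K) ∣ G c - G c' → c = c' := by
      intro c c' hcc
      obtain ⟨e, he, hee⟩ := hspeed A hA (fun i => v i + c'.out * g i) (hcP c'.out)
        (c.out - c'.out)
      have h1 : (fun i => (v i + c'.out * g i) + (c.out - c'.out) * g i) =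
          fun i => v i + c.out * g i := by
        funext i
        ring
      rw [h1, hG c, hG c'] at hee
      have h3 : G c - G c' = (c.out - c'.out) * e := by
        apply mul_left_cancel₀ hQ1
        linear_combination hee
      have h4 : IsCoprime (L : 𝓞 K) e := by
        refine ((hcopM e he).symm).of_isCoprime_of_dvd_left ?_
        rw [hMQ]
        exact dvd_mul_left _ _
      rw [h3] at hcc
      have h5 : (L : 𝓞 K) ∣ c.out - c'.out := h4.dvd_of_dvd_mul_right hcc
      have h6 := (hmkL2 _ _).mpr h5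
      rw [Ideal.Quotient.mk_out, Ideal.Quotient.mk_out] at h6
      exact h6
    have hinj : Function.Injective (fun c : 𝓞 K ⧸ IL => Ideal.Quotient.mk IL (G c)) :=
      fun c c' hcc => key c c' ((hmkL2 _ _).mp hcc)
    have hiff : ∀ c : 𝓞 K ⧸ IL, F Ab (sh c u) = 0 ↔ (L : 𝓞 K) ∣ G c := by
      intro c
      rw [hshv, hFmk, hmkM, hG c, hMQ]
      exact mul_dvd_mul_iff_left hQ1
    obtain ⟨c, hc⟩ := (Finite.surjective_of_injective hinj) 0
    have hc1 : (L : 𝓞 K) ∣ G c := by
      have := (hmkL2 (G c) 0).mp (by rw [map_zero]; exact hc)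
      rwa [sub_zero] at this
    rw [Finset.card_eq_one]
    refine ⟨c, ?_⟩
    ext c'
    rw [Finset.mem_filter, Finset.mem_singleton, hiff]
    constructor
    · rintro ⟨-, h⟩
      exact key c' c (dvd_sub h hc1)
    · rintro rfl
      exact ⟨Finset.mem_univ _, hc1⟩
  -- double counting
  have hdc : Gd.card * L ^ mK K = S.card := by
    have h1 : ∀ c : 𝓞 K ⧸ IL, (S.filter fun u => F Ab (sh c u) = 0).card = Gd.card := by
      intro c
      refine Finset.card_bij (fun u _ => sh c u) ?_ ?_ ?_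
      · intro u hu
        rw [Finset.mem_filter] at hu
        rw [hGd, Finset.mem_filter]
        exact ⟨(hshS c u).mpr hu.1, hu.2⟩
      · intro u _ u' _ h
        funext i
        exact add_right_cancel (congrFun h i)
      · intro u hu
        rw [hGd, Finset.mem_filter] at hu
        have h2 : sh c (fun i => u i - Ideal.Quotient.mk IM c.out * gb i) = u := by
          funext i
          simp only [hsh]
          ring
        refine ⟨fun i => u i - Ideal.Quotient.mk IM c.out * gb i, ?_, h2⟩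
        rw [Finset.mem_filter, h2]
        refine ⟨(hshS c _).mp ?_, hu.2⟩
        rw [h2]
        exact hu.1
    have h2 : ∑ c : 𝓞 K ⧸ IL, (S.filter fun u => F Ab (sh c u) = 0).card =
        ∑ u ∈ S, (Finset.univ.filter fun c : 𝓞 K ⧸ IL => F Ab (sh c u) = 0).card := by
      simp only [Finset.card_filter]
      exact Finset.sum_comm
    rw [Finset.sum_congr rfl fun c _ => h1 c, Finset.sum_congr rfl hone] at h2
    rw [Finset.sum_const, Finset.sum_const, smul_eq_mul, smul_eq_mul, mul_one, Finset.card_univ,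
      ← Nat.card_eq_fintype_card, hcL] at h2
    rw [← h2, mul_comm]
  -- the box
  have hbox : Set.ncard {r : Fin (n + 1) → 𝓞 K | (∀ i j, 0 ≤ crd (r i) j ∧
      crd (r i) j < ((M : ℕ) : ℤ)) ∧ (∀ i, r i - x0 i ∈ P) ∧ ((M : ℕ) : 𝓞 K) ∣ F A r} =
      Gd.card := by
    rw [← Set.ncard_coe_finset]
    refine Set.ncard_congr (fun r _ => fun i => Ideal.Quotient.mk IM (r i)) ?_ ?_ ?_
    · rintro r ⟨-, hr2, hr3⟩
      rw [Finset.mem_coe, hGd, Finset.mem_filter, hS, Finset.mem_filter]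
      refine ⟨⟨Finset.mem_univ _, fun i => ?_⟩, ?_⟩
      · rw [hprmk]
        exact Ideal.Quotient.eq.mpr (hr2 i)
      · rw [hFmk, hmkM]
        exact hr3
    · rintro r r' ⟨hr1, -⟩ ⟨hr1', -⟩ hrr
      funext i
      have h1 := (hmkM2 _ _).mp (congrFun hrr i)
      have h2 := (natCast_dvd_iff M _).mp h1
      refine crd_ext fun j => ?_
      have h3 := h2 j
      rw [crd_sub] at h3
      have h5 : crd (r i) j % (M : ℤ) = crd (r' i) j % (M : ℤ) :=
        Int.emod_eq_emod_iff_emod_sub_eq_zero.mpr (Int.emod_eq_zero_of_dvd h3)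
      rwa [Int.emod_eq_of_lt (hr1 i j).1 (hr1 i j).2,
        Int.emod_eq_of_lt (hr1' i j).1 (hr1' i j).2] at h5
    · intro u hu
      rw [Finset.mem_coe, hGd, Finset.mem_filter, hS, Finset.mem_filter] at hu
      obtain ⟨⟨-, hu1⟩, hu2⟩ := hu
      choose v hv using fun i => Ideal.Quotient.mk_surjective (u i)
      choose r hr using fun i => exists_crd (K := K) fun j => crd (v i) j % (M : ℤ)
      have hrv : ∀ i, (M : 𝓞 K) ∣ r i - v i := by
        intro i
        rw [natCast_dvd_iff]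
        intro j
        rw [crd_sub, hr]
        exact ((Int.mod_modEq _ _).symm).dvd
      have hmk : ∀ i, Ideal.Quotient.mk IM (r i) = u i := fun i => by
        rw [← hv i, hmkM2]
        exact hrv i
      have hM1 : (0 : ℤ) < (M : ℤ) := by exact_mod_cast hM
      refine ⟨r, ⟨fun i j => ?_, fun i => ?_, ?_⟩, funext hmk⟩
      · rw [hr]
        exact ⟨Int.emod_nonneg _ hM1.ne', Int.emod_lt_of_pos _ hM1⟩
      · have h1 := hu1 i
        rw [← hmk i, hprmk] at h1
        exact Ideal.Quotient.eq.mp h1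
      · rw [← hmkM, ← hFmk, funext hmk]
        exact hu2
  rw [hbox]
  have hfin : Gd.card * (Ideal.absNorm P ^ (n + 1) * M ^ mK K) =
      (Gd.card * L ^ mK K) * Ideal.absNorm P ^ (n + 1) * Q ^ mK K := by
    have h1 : M ^ mK K = Q ^ mK K * L ^ mK K := by rw [hL, mul_pow]
    rw [h1]
    ring
  rw [hfin, hdc, hScard]

end NFHP
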