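import Pool.Agent.Lib.MP_e426f4_ag.N.CardCl
import Pool.Agent.Lib.MP_e426f4_ag.N.Points
import Pool.Agent.Lib.MP_e426f4_ag.N.PadicCount

/-! Module NF-NL: local count of points for a fixed form. -/

namespace NFHP

open NumberField GenHP Finset Filter Topology

variable {K : Type} [Field K] [NumberField K] {n d : ℕ}

/-- congruences modulo an ideal -/
theorem nl_congr (I : Ideal (𝓞 K)) (A A' : Idx n d → 𝓞 K) (x x' : Fin (n + 1) → 𝓞 K)
    (hA : ∀ t, A t - A' t ∈ I) (hx : ∀ i, x i - x' i ∈ I) : F A x - F A' x' ∈ I := by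
  rw [← Ideal.Quotient.eq]
  have h1 := F_map (Ideal.Quotient.mk I) A x
  have h2 := F_map (Ideal.Quotient.mk I) A' x'
  rw [← h1, ← h2]
  congr 1
  · funext t
    exact Ideal.Quotient.eq.mpr (hA t)
  · funext i
    exact Ideal.Quotient.eq.mpr (hx i)

/-- reduction of the coordinates modulo `M` -/
theorem nl_red (M : ℕ) : ∃ f : 𝓞 K → 𝓞 K, ∀ a, ∀ j, crd (f a) j = crd a j % (M : ℤ) := by
  have h : ∀ a : 𝓞 K, ∃ b : 𝓞 K, ∀ j, crd b j = crd a j % (M : ℤ) := fun a => exists_crd _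
  choose f hf using h
  exact ⟨f, hf⟩

theorem nloc (p : Par K n d) {eps bet k0 : ℝ} {w : ℕ} (hp : p.Valid eps bet k0 w) (th : ℝ)
    (hth : 0 < th) (hth2 : th ≤ p.kap / 4) (s : ℕ) (hs : p.Q ∣ p.W ^ s) (q : Ideal (𝓞 K))
    (hq : q ≠ ⊥) (hqW : IsCoprime q (Ideal.span {(p.W : 𝓞 K)})) :
    ∃ B0 : ℕ, ∀ B : ℕ, B0 ≤ B → ∀ H : ℝ, 0 < H → ∀ A : Idx n d → 𝓞 K,
      (∀ t j, |(crd (A t) j : ℝ) - H * p.Ainf t j| ≤ 3 * p.rho * H) →
      (∀ t, (p.Q : 𝓞 K) ∣ A t - p.A0 t) → ∀ r : Fin (n + 1) → 𝓞 K,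
      (1 - eps) * (Vol K n p.kap th B * (p.Q : ℝ) ^ mK K /
          ((Ideal.absNorm p.P : ℝ) ^ (n + 1) * ((p.W : ℝ) ^ s) ^ mK K)) /
          (Ideal.absNorm q : ℝ) ^ (n + 1) ≤
        (Set.ncard {x : Fin (n + 1) → 𝓞 K | x ∈ p.XX B ∧ (p.W : 𝓞 K) ^ s ∣ F A x ∧
          VIn p.gam (th * H * (B : ℝ) ^ d) (F A x) ∧ ∀ i, x i - r i ∈ q} : ℝ) ∧
      (Set.ncard {x : Fin (n + 1) → 𝓞 K | x ∈ p.XX B ∧ (p.W : 𝓞 K) ^ s ∣ F A x ∧
          VIn p.gam (th * H * (B : ℝ) ^ d) (F A x) ∧ ∀ i, x i - r i ∈ q} : ℝ) ≤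
        (1 + eps) * (Vol K n p.kap th B * (p.Q : ℝ) ^ mK K /
          ((Ideal.absNorm p.P : ℝ) ^ (n + 1) * ((p.W : ℝ) ^ s) ^ mK K)) /
          (Ideal.absNorm q : ℝ) ^ (n + 1) := by
  classical
  obtain ⟨M, hM⟩ : ∃ M : ℕ, M = p.W ^ s := ⟨_, rfl⟩
  have hMpos : 0 < M := by rw [hM]; exact pow_pos hp.W_pos s
  have hMO : ((p.W : 𝓞 K) ^ s) = (M : 𝓞 K) := by rw [hM]; push_cast; rfl
  have hMr : ((p.W : ℝ) ^ s) = (M : ℝ) := by rw [hM]; push_cast; rfl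
  obtain ⟨J, hJ⟩ : ∃ J : Ideal (𝓞 K), J = Ideal.span {(M : 𝓞 K)} := ⟨_, rfl⟩
  have hJmem : ∀ a : 𝓞 K, a ∈ J ↔ (M : 𝓞 K) ∣ a := by
    intro a
    rw [hJ, Ideal.mem_span_singleton]
  have hJP : J ≤ p.P := by
    rw [hJ, Ideal.span_singleton_le_iff_mem]
    have h1 : (p.Q : 𝓞 K) ∣ (M : 𝓞 K) := by
      rw [hM]
      exact_mod_cast (Nat.cast_dvd_cast hs : ((p.Q : ℕ) : 𝓞 K) ∣ ((p.W ^ s : ℕ) : 𝓞 K))
    exact Ideal.mem_of_dvd _ h1 hp.hens.1
  have hJne : J ≠ ⊥ := by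
    rw [hJ, Ne, Ideal.span_singleton_eq_bot]
    exact_mod_cast hMpos.ne'
  have hJN : Ideal.absNorm J = M ^ mK K := by rw [hJ, cu_absNorm]
  have hcop : IsCoprime J q := by
    have h1 : IsCoprime q (Ideal.span {(p.W : 𝓞 K)} ^ s) := hqW.pow_right
    rw [Ideal.span_singleton_pow, hMO, ← hJ] at h1
    exact h1.symm
  have hJq : J * q ≠ ⊥ := mul_ne_zero hJne hq
  obtain ⟨B0, hB0⟩ := hp.rc th hth hth2 (J * q) hJq
  refine ⟨B0, fun B hB H hH A hA hAQ r => ?_⟩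
  have hpc := padic_count p.Q p.W hp.W_pos p.P hp.P_ne p.A0 p.x0 hp.hens s hs A hAQ
  rw [← hM, hMO] at hpc
  rw [hMO, hMr]
  have hMz : ((p.W : ℤ) ^ s) = (M : ℤ) := by rw [hM]; push_cast; rfl
  obtain ⟨RR, hRR⟩ : ∃ RR : Set (Fin (n + 1) → 𝓞 K), RR = {r : Fin (n + 1) → 𝓞 K |
      (∀ i j, 0 ≤ crd (r i) j ∧ crd (r i) j < (p.W : ℤ) ^ s) ∧
      (∀ i, r i - p.x0 i ∈ p.P) ∧ (M : 𝓞 K) ∣ F A r} := ⟨_, rfl⟩
  rw [← hRR] at hpc
  have hRRfin : RR.Finite := by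
    refine (Bx_finite (n := n) (K := K) (cK K * M)).subset ?_
    intro x hx i w'
    rw [hRR] at hx
    refine norm_sg_le_of_crd (fun j => ?_) w'
    have h1 := hx.1 i j
    rw [hMz] at h1
    rw [abs_le]
    constructor
    · have : (0 : ℝ) ≤ (crd (x i) j : ℝ) := by exact_mod_cast h1.1
      have h2 : (0 : ℝ) ≤ M := by positivity
      linarith
    · exact_mod_cast h1.2.le
  obtain ⟨α, hα, β, hβ, hab⟩ := Submodule.mem_sup.mp
    ((Ideal.eq_top_iff_one _).mp (Ideal.isCoprime_iff_sup_eq.mp hcop))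
  -- CRT
  let ρ : (Fin (n + 1) → 𝓞 K) → (Fin (n + 1) → 𝓞 K) := fun u i => u i + α * (r i - u i)
  have hρ : ∀ u x : Fin (n + 1) → 𝓞 K, (∀ i, x i - ρ u i ∈ J * q) ↔
      (∀ i, (M : 𝓞 K) ∣ x i - u i) ∧ (∀ i, x i - r i ∈ q) := by
    intro u x
    have h0 : ∀ i, x i - ρ u i ∈ J * q ↔ x i - ρ u i ∈ J ∧ x i - ρ u i ∈ q := by
      intro i
      rw [Ideal.mul_eq_inf_of_coprime (Ideal.isCoprime_iff_sup_eq.mp hcop)]
      exact Iff.rfl
    have h1 : ∀ i, x i - ρ u i ∈ J ↔ (M : 𝓞 K) ∣ x i - u i := by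
      intro i
      rw [← hJmem]
      have h2 : x i - ρ u i = (x i - u i) - α * (r i - u i) := by
        simp only [ρ]; ring
      rw [h2]
      exact J.sub_mem_iff_left (J.mul_mem_right _ hα)
    have h3 : ∀ i, x i - ρ u i ∈ q ↔ x i - r i ∈ q := by
      intro i
      have h2 : x i - ρ u i = (x i - r i) - β * (u i - r i) := by
        simp only [ρ]
        linear_combination -(r i - u i) * hab
      rw [h2]
      exact q.sub_mem_iff_left (q.mul_mem_right _ hβ)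
    constructor
    · intro h
      exact ⟨fun i => (h1 i).mp ((h0 i).mp (h i)).1, fun i => (h3 i).mp ((h0 i).mp (h i)).2⟩
    · rintro ⟨h4, h5⟩ i
      exact (h0 i).mpr ⟨(h1 i).mpr (h4 i), (h3 i).mpr (h5 i)⟩
  obtain ⟨Z, hZ⟩ : ∃ Z : Set (Fin (n + 1) → 𝓞 K), Z = {x : Fin (n + 1) → 𝓞 K |
      x ∈ p.XX B ∧ (M : 𝓞 K) ∣ F A x ∧
          VIn p.gam (th * H * (B : ℝ) ^ d) (F A x) ∧ ∀ i, x i - r i ∈ q} := ⟨_, rfl⟩
  rw [← hZ]
  have hZfin : Z.Finite := (XX_finite p B).subset fun x hx => by rw [hZ] at hx; exact hx.1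
  obtain ⟨red, hred⟩ := nl_red (K := K) M
  have hreddvd : ∀ a : 𝓞 K, (M : 𝓞 K) ∣ red a - a := by
    intro a
    rw [natCast_dvd_iff]
    intro j
    rw [crd_sub, hred]
    have h1 := Int.mul_ediv_add_emod (crd a j) M
    refine ⟨-(crd a j / M), ?_⟩
    linear_combination h1
  let f : (Fin (n + 1) → 𝓞 K) → (Fin (n + 1) → 𝓞 K) := fun x i => red (x i)
  have hMz0 : (M : ℤ) ≠ 0 := by exact_mod_cast hMpos.ne'
  have hMzpos : (0 : ℤ) < M := by exact_mod_cast hMpos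
  have hf : ∀ x ∈ hZfin.toFinset, f x ∈ hRRfin.toFinset := by
    intro x hx
    rw [Set.Finite.mem_toFinset] at hx ⊢
    rw [hZ] at hx
    rw [hRR]
    refine ⟨fun i j => ?_, ?_, ?_⟩
    · rw [hMz]
      change 0 ≤ crd (red (x i)) j ∧ crd (red (x i)) j < (M : ℤ)
      rw [hred]
      exact ⟨Int.emod_nonneg _ hMz0, Int.emod_lt_of_pos _ hMzpos⟩
    · intro i
      have h1 : f x i - p.x0 i = (f x i - x i) + (x i - p.x0 i) := by ring
      rw [h1]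
      exact p.P.add_mem (hJP ((hJmem _).mpr (hreddvd _))) (hx.1.2 i)
    · have h1 := nl_congr J A A (f x) x (fun m => by simp) (fun i => (hJmem _).mpr (hreddvd _))
      have h2 : F A (f x) = (F A (f x) - F A x) + F A x := by ring
      rw [h2]
      exact dvd_add ((hJmem _).mp h1) hx.2.1
  have hcard : Z.ncard = ∑ u ∈ hRRfin.toFinset, (hZfin.toFinset.filter (fun x => f x = u)).card := by
    rw [Set.ncard_eq_toFinset_card Z hZfin]
    exact Finset.card_eq_sum_card_fiberwise hf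
  have hfib : ∀ u ∈ hRRfin.toFinset, (((hZfin.toFinset.filter (fun x => f x = u)).card : ℕ) : ℝ) =
      (Set.ncard {x : Fin (n + 1) → 𝓞 K | x ∈ Reg p.xi p.h p.kap B ∧ (∀ i, x i - ρ u i ∈ J * q) ∧
          VIn p.gam (th * H * (B : ℝ) ^ d) (F A x)} : ℝ) := by
    intro u hs
    rw [Set.Finite.mem_toFinset, hRR] at hs
    congr 1
    rw [← Set.ncard_coe_finset]
    congr 1
    ext x
    rw [Finset.mem_coe, Finset.mem_filter, Set.Finite.mem_toFinset, hZ]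
    simp only [Set.mem_ofPred_eq]
    rw [hρ u x]
    have hfx : f x = u ↔ ∀ i, (M : 𝓞 K) ∣ x i - u i := by
      constructor
      · rintro h i
        rw [← h]
        have := hreddvd (x i)
        rw [← dvd_neg, neg_sub] at this
        exact this
      · intro h
        funext i
        apply crd_ext
        intro j
        change crd (red (x i)) j = crd (u i) j
        rw [hred]
        have h1 := (natCast_dvd_iff M (x i - u i)).mp (h i) j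
        rw [crd_sub] at h1
        have h2 := hs.1 i j
        rw [hMz] at h2
        obtain ⟨k, hk⟩ := h1
        have h3 : crd (x i) j = crd (u i) j + M * k := by linarith
        rw [h3, Int.add_mul_emod_self_left]
        exact Int.emod_eq_of_lt h2.1 h2.2
    constructor
    · rintro ⟨⟨h1, h2, h3, h4⟩, h5⟩
      exact ⟨h1.1, ⟨hfx.1 h5, h4⟩, h3⟩
    · rintro ⟨h1, ⟨h2, h3⟩, h4⟩
      refine ⟨⟨⟨h1, ?_⟩, ?_, h4, h3⟩, hfx.2 h2⟩
      · intro i
        have h5 : x i - p.x0 i = (x i - u i) + (u i - p.x0 i) := by ring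
        rw [h5]
        exact p.P.add_mem (hJP ((hJmem _).mpr (h2 i))) (hs.2.1 i)
      · have h5 := nl_congr J A A x u (fun m => by simp) (fun i => (hJmem _).mpr (h2 i))
        have h6 : F A x = (F A x - F A u) + F A u := by ring
        rw [h6]
        exact dvd_add ((hJmem _).mp h5) hs.2.2
  have hRc : (RR.ncard : ℝ) * ((Ideal.absNorm p.P : ℝ) ^ (n + 1) * (M : ℝ) ^ mK K) =
      (M : ℝ) ^ (mK K * (n + 1)) * (p.Q : ℝ) ^ mK K := by exact_mod_cast hpc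
  have hRcard : (hRRfin.toFinset.card : ℝ) = (RR.ncard : ℝ) := by
    rw [Set.ncard_eq_toFinset_card RR hRRfin]
  have hP0 : (0 : ℝ) < Ideal.absNorm p.P := by exact_mod_cast absNorm_pos hp.P_ne
  have hM0 : (0 : ℝ) < M := by exact_mod_cast hMpos
  have hq0 : (0 : ℝ) < Ideal.absNorm q := by exact_mod_cast absNorm_pos hq
  have hRc' : (RR.ncard : ℝ) = (M : ℝ) ^ (mK K * (n + 1)) * (p.Q : ℝ) ^ mK K /
      ((Ideal.absNorm p.P : ℝ) ^ (n + 1) * (M : ℝ) ^ mK K) := by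
    rw [eq_div_iff (by positivity)]
    exact hRc
  have hNb : (Ideal.absNorm (J * q) : ℝ) ^ (n + 1) =
      (M : ℝ) ^ (mK K * (n + 1)) * (Ideal.absNorm q : ℝ) ^ (n + 1) := by
    rw [map_mul, hJN]
    push_cast
    rw [mul_pow, ← pow_mul]
  have hZc : (Z.ncard : ℝ) = ∑ u ∈ hRRfin.toFinset,
      (((hZfin.toFinset.filter (fun x => f x = u)).card : ℕ) : ℝ) := by
    rw [hcard]
    push_cast
    rfl
  rw [hZc]
  constructor
  · have h1 : ∀ u ∈ hRRfin.toFinset, (1 - eps) * Vol K n p.kap th B /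
        (Ideal.absNorm (J * q) : ℝ) ^ (n + 1) ≤
        (((hZfin.toFinset.filter (fun x => f x = u)).card : ℕ) : ℝ) := by
      intro u hs
      rw [hfib u hs]
      exact (hB0 B hB H hH A hA (ρ u)).1
    have h2 := Finset.card_nsmul_le_sum _ _ _ h1
    refine le_trans (le_of_eq ?_) h2
    rw [nsmul_eq_mul, hRcard, hRc', hNb]
    field_simp
  · have h1 : ∀ u ∈ hRRfin.toFinset, (((hZfin.toFinset.filter (fun x => f x = u)).card : ℕ) : ℝ) ≤
        (1 + eps) * Vol K n p.kap th B / (Ideal.absNorm (J * q) : ℝ) ^ (n + 1) := by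
      intro u hs
      rw [hfib u hs]
      exact (hB0 B hB H hH A hA (ρ u)).2
    have h2 := Finset.sum_le_card_nsmul _ _ _ h1
    refine h2.trans (le_of_eq ?_)
    rw [nsmul_eq_mul, hRcard, hRc', hNb]
    field_simp

end NFHP
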