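import Pool.Agent.Lib.MP_e426f4_ag.N.BadC
import Pool.Agent.Lib.MP_e426f4_ag.N.Minors

/-! NF-BP: all bad points. -/

set_option linter.unusedSectionVars false

namespace NFHP

open NumberField GenHP Finset Filter Topology

variable {K : Type} [Field K] [NumberField K] {n d : ℕ}

theorem bp_LP_finite (p : Par K n d) (r th : ℝ) (s : ℕ) (S : Set (Fin (n + 1) → 𝓞 K))
    (hS : S.Finite) (H : ℝ) : (p.LP r th s S H).Finite :=
  ((Cl_finite p r H).prod hS).subset fun _ hq => ⟨hq.1, hq.2.1⟩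

/-- a maximal ideal which contains a point of the class does not contain `W` -/
theorem bp_W_notMem (p : Par K n d) {eps bet k0 : ℝ} {w : ℕ} (hp : p.Valid eps bet k0 w)
    (B : ℕ) (x : Fin (n + 1) → 𝓞 K) (hx : x ∈ p.XX B) (P : Ideal (𝓞 K)) (hP : P.IsMaximal)
    (hxP : ∀ i, x i ∈ P) : (p.W : 𝓞 K) ∉ P := by
  intro hW
  obtain ⟨c, a, b, hab⟩ := x_unimod p hp B x hx
  apply hP.ne_top
  rw [Ideal.eq_top_iff_one, ← hab]
  refine P.add_mem (P.mul_mem_left _ (P.sum_mem fun i _ => P.mul_mem_left _ (hxP i)))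
    (P.mul_mem_left _ hW)

/-- NF-BP (BadPoints.lean) -/
theorem bad_points (p : Par K n d) {eps bet k0 : ℝ} {w : ℕ} (hp : p.Valid eps bet k0 w)
    (E : ℝ) (hE : ∀ S : Finset (Ideal (𝓞 K)), (∀ I ∈ S, w < Ideal.absNorm I) →
      ∑ I ∈ S, 1 / (Ideal.absNorm I : ℝ) ^ 2 ≤ E) :
    ∃ R0 : ℝ, 1 ≤ R0 ∧ ∀ R, R0 ≤ R → ∀ th : ℝ, 0 < th → th ≤ p.kap / 4 →
      ∀ s : ℕ, p.Q ∣ p.W ^ s → ∀ᶠ H : ℝ in atTop,
        ((p.LP p.rho th s (p.XX (Bf n d H) \ p.GG R (Bf n d H)) H).ncard : ℝ) ≤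
          (eps + 2 * E) * p.MT th s H * p.XR p.rho H := by
  obtain ⟨R0, hR0, hR⟩ := bad_not_good p hp
  obtain ⟨z, hz⟩ := bad_large_prime p hp
  refine ⟨R0, hR0, ?_⟩
  intro R hRR th hth hth2 s hs
  filter_upwards [hR R hRR th hth s hs, hz th hth s hs,
    bad_medium_prime p hp E hE z th hth hth2 s hs] with H h1 h2 h3
  have hXX := XX_finite p (Bf n d H)
  have hsub : p.LP p.rho th s (p.XX (Bf n d H) \ p.GG R (Bf n d H)) H ⊆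
      (p.LP p.rho th s {x | x ∈ p.XX (Bf n d H) ∧ ¬ Good R (Bf n d H) x} H ∪
      p.LP p.rho th s {x | x ∈ p.XX (Bf n d H) ∧ ∃ P : Ideal (𝓞 K), P.IsMaximal ∧
          z < Ideal.absNorm P ∧ ∀ i, x i ∈ P} H) ∪
      p.LP p.rho th s {x | x ∈ p.XX (Bf n d H) ∧ ∃ P : Ideal (𝓞 K), P.IsMaximal ∧
        (p.W : 𝓞 K) ∉ P ∧ Ideal.absNorm P ≤ z ∧ ∀ i, x i ∈ P} H := by
    rintro q ⟨hq1, ⟨hq2, hq3⟩, hq4, hq5⟩
    by_cases hgood : Good R (Bf n d H) q.2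
    · have hprim : ¬ Prim q.2 := fun h => hq3 ⟨hq2, h, hgood⟩
      obtain ⟨P, hP, hxP⟩ := exists_prime_of_not_prim q.2 hprim
      have hWP := bp_W_notMem p hp (Bf n d H) q.2 hq2 P hP hxP
      rcases le_or_gt (Ideal.absNorm P) z with hlz | hlz
      · exact Or.inr ⟨hq1, ⟨hq2, P, hP, hWP, hlz, hxP⟩, hq4, hq5⟩
      · exact Or.inl (Or.inr ⟨hq1, ⟨hq2, P, hP, hlz, hxP⟩, hq4, hq5⟩)
    · exact Or.inl (Or.inl ⟨hq1, ⟨hq2, hgood⟩, hq4, hq5⟩)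
  have hf1 := bp_LP_finite p p.rho th s {x | x ∈ p.XX (Bf n d H) ∧ ¬ Good R (Bf n d H) x}
    (hXX.subset fun x hx => hx.1) H
  have hf2 := bp_LP_finite p p.rho th s {x | x ∈ p.XX (Bf n d H) ∧ ∃ P : Ideal (𝓞 K),
    P.IsMaximal ∧ z < Ideal.absNorm P ∧ ∀ i, x i ∈ P} (hXX.subset fun x hx => hx.1) H
  have hf3 := bp_LP_finite p p.rho th s {x | x ∈ p.XX (Bf n d H) ∧ ∃ P : Ideal (𝓞 K),
    P.IsMaximal ∧ (p.W : 𝓞 K) ∉ P ∧ Ideal.absNorm P ≤ z ∧ ∀ i, x i ∈ P}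
    (hXX.subset fun x hx => hx.1) H
  have h4 := Set.ncard_le_ncard hsub ((hf1.union hf2).union hf3)
  have h5 := h4.trans (Set.ncard_union_le _ _)
  have h6 := h5.trans (Nat.add_le_add_right (Set.ncard_union_le _ _) _)
  have h7 : ((p.LP p.rho th s (p.XX (Bf n d H) \ p.GG R (Bf n d H)) H).ncard : ℝ) ≤
      ((p.LP p.rho th s {x | x ∈ p.XX (Bf n d H) ∧ ¬ Good R (Bf n d H) x} H).ncard : ℝ) +
      ((p.LP p.rho th s {x | x ∈ p.XX (Bf n d H) ∧ ∃ P : Ideal (𝓞 K), P.IsMaximal ∧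
          z < Ideal.absNorm P ∧ ∀ i, x i ∈ P} H).ncard : ℝ) +
      ((p.LP p.rho th s {x | x ∈ p.XX (Bf n d H) ∧ ∃ P : Ideal (𝓞 K), P.IsMaximal ∧
        (p.W : 𝓞 K) ∉ P ∧ Ideal.absNorm P ≤ z ∧ ∀ i, x i ∈ P} H).ncard : ℝ) := by
    exact_mod_cast h6
  refine h7.trans ?_
  have h8 : (eps + 2 * E) * p.MT th s H * p.XR p.rho H =
      eps / 2 * p.MT th s H * p.XR p.rho H + eps / 2 * p.MT th s H * p.XR p.rho H +
      2 * E * p.MT th s H * p.XR p.rho H := by ring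
  rw [h8]
  linarith

end NFHP
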