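import Pool.Agent.Lib.MP_e426f4_ag.N.Const

/-! Module NF-LV: the number of levels. -/

set_option linter.unusedSectionVars false

namespace NFHP

open NumberField GenHP Finset Filter Topology MeasureTheory
open scoped Pointwise

variable {K : Type} [Field K] [NumberField K] {n d : ℕ}

theorem VIn_finite (g : InfinitePlace K → ℂ) (R : ℝ) : {s : 𝓞 K | VIn g R s}.Finite := by
  classical
  set M : ℝ := cK K * ∑ w, ‖g w‖ * (cK K * |R|) with hM
  have hinj : Function.Injective fun (a : 𝓞 K) => fun j => crd a j :=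
    fun a b h => crd_ext fun j => congrFun h j
  refine Set.Finite.subset (Set.Finite.preimage hinj.injOn
    (Set.finite_Icc (fun _ : IK K => -⌈M⌉) (fun _ => ⌈M⌉))) ?_
  rintro s ⟨r, hr, hs⟩
  have h1 : ∀ w, ‖sg w s‖ ≤ ∑ w, ‖g w‖ * (cK K * |R|) := by
    intro w
    rw [hs w, norm_mul]
    have h2 : ‖lam r w‖ ≤ cK K * |R| := norm_lam_le r |R| (fun j => (hr j).trans (le_abs_self R)) w
    have h3 : ‖g w‖ * ‖lam r w‖ ≤ ‖g w‖ * (cK K * |R|) := by gcongr
    refine h3.trans ?_
    refine Finset.single_le_sum (f := fun w => ‖g w‖ * (cK K * |R|)) (fun i _ => ?_)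
      (Finset.mem_univ w)
    have := cK_pos (K := K)
    positivity
  have h2 : ∀ j, |(crd s j : ℝ)| ≤ M := fun j => crd_le_of_norm_sg h1 j
  have h3 : ∀ j, |crd s j| ≤ ⌈M⌉ := by
    intro j
    have h4 := h2 j
    have h5 : ((|crd s j| : ℤ) : ℝ) ≤ M := by
      rw [Int.cast_abs]
      exact h4
    exact_mod_cast h5.trans (Int.le_ceil M)
  show (fun j => crd s j) ∈ Set.Icc _ _
  rw [Set.mem_Icc]
  constructor
  · intro j
    exact (abs_le.mp (h3 j)).1
  · intro j
    exact (abs_le.mp (h3 j)).2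

/-- multiplication by `g` in real coordinates -/
private theorem exists_mulG {g : InfinitePlace K → ℂ} (hg : RV g) :
    ∃ G : (IK K → ℝ) →ₗ[ℝ] (IK K → ℝ), ∀ r w, lam (G r) w = g w * lam r w := by
  choose f hf using fun r : IK K → ℝ => exists_lam (RV_mul hg (RV_lam r))
  refine ⟨{ toFun := f, map_add' := fun r s => ?_, map_smul' := fun c r => ?_ }, hf⟩
  · refine lam_injective fun w => ?_
    rw [hf]
    have h1 : lam (f r + f s) w = lam (f r) w + lam (f s) w := lam_add _ _ w
    have h2 : lam (r + s) w = lam r w + lam s w := lam_add _ _ w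
    rw [h1, h2, hf, hf]
    ring
  · refine lam_injective fun w => ?_
    rw [hf]
    have h1 : lam ((RingHom.id ℝ) c • f r) w = c * lam (f r) w := lam_smul _ _ w
    have h2 : lam (c • r) w = c * lam r w := lam_smul _ _ w
    rw [h1, h2, hf]
    ring

private theorem exists_mulG' {g : InfinitePlace K → ℂ} (hg : RV g) (hg0 : ∀ w, g w ≠ 0) :
    ∃ G : (IK K → ℝ) ≃ₗ[ℝ] (IK K → ℝ), ∀ r w, lam (G r) w = g w * lam r w := by
  obtain ⟨G, hG⟩ := exists_mulG hg
  have hinj : Function.Injective G := by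
    rw [injective_iff_map_eq_zero]
    intro r hr
    refine lam_injective (s := 0) fun w => ?_
    have h1 := hG r w
    rw [hr] at h1
    have h2 : lam (0 : IK K → ℝ) w = 0 := lam_zero w
    rw [h2] at h1 ⊢
    exact (mul_eq_zero.mp h1.symm).resolve_left (hg0 w)
  exact ⟨LinearEquiv.ofInjectiveEndo G hinj, fun r w => hG r w⟩

private theorem cube_eq : {r : IK K → ℝ | ∀ j, |r j| ≤ 1} = Metric.closedBall 0 1 := by
  ext r
  rw [Set.mem_ofPred_eq, mem_closedBall_zero_iff, pi_norm_le_iff_of_nonneg zero_le_one]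
  rfl

/-- change of basis -/
private theorem exists_basis (q : Ideal (𝓞 K)) (hq : q ≠ ⊥) :
    ∃ P : (IK K → ℝ) ≃ₗ[ℝ] (IK K → ℝ), |LinearMap.det (P : (IK K → ℝ) →ₗ[ℝ] (IK K → ℝ))| =
      Ideal.absNorm q ∧ (∀ a : 𝓞 K, a ∈ q → ∃ c : IK K → ℤ,
        P (fun j => (c j : ℝ)) = fun j => (crd a j : ℝ)) ∧ ∀ c : IK K → ℤ, ∃ a ∈ q,
        P (fun j => (c j : ℝ)) = fun j => (crd a j : ℝ) := by
  classical
  set bq := Ideal.selfBasis (RingOfIntegers.basis K) q hq with hbq
  set M : Matrix (IK K) (IK K) ℤ :=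
    (RingOfIntegers.basis K).toMatrix (fun k => (bq k : 𝓞 K)) with hM
  have hdet : M.det.natAbs = Ideal.absNorm q :=
    Ideal.natAbs_det_basis_change (RingOfIntegers.basis K) q bq
  set MR : Matrix (IK K) (IK K) ℝ := M.map (Int.castRingHom ℝ) with hMR
  have hdetR : MR.det = (M.det : ℝ) := by
    have := (RingHom.map_det (Int.castRingHom ℝ) M).symm
    rw [RingHom.mapMatrix_apply] at this
    exact this
  have hpos := absNorm_pos hq
  have hne : MR.det ≠ 0 := by
    rw [hdetR]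
    have : M.det ≠ 0 := by
      intro h0
      rw [h0] at hdet
      simp at hdet
      omega
    exact_mod_cast this
  refine ⟨Matrix.toLinearEquiv' MR (Matrix.invertibleOfIsUnitDet MR (isUnit_iff_ne_zero.mpr hne)),
    ?_, ?_⟩
  · have h1 : ((Matrix.toLinearEquiv' MR (Matrix.invertibleOfIsUnitDet MR
        (isUnit_iff_ne_zero.mpr hne)) : (IK K → ℝ) ≃ₗ[ℝ] (IK K → ℝ)) :
        (IK K → ℝ) →ₗ[ℝ] (IK K → ℝ)) = Matrix.toLin' MR := rfl
    rw [h1, LinearMap.det_toLin', hdetR, ← hdet, Nat.cast_natAbs, Int.cast_abs]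
  · have key : ∀ c : IK K → ℤ, Matrix.toLin' MR (fun j => (c j : ℝ)) =
        fun j => (crd ((∑ k, c k • bq k : q) : 𝓞 K) j : ℝ) := by
      intro c
      funext j
      rw [Matrix.toLin'_apply, Matrix.mulVec, dotProduct]
      have e1 : ((∑ k, c k • bq k : q) : 𝓞 K) = ∑ k, (c k : 𝓞 K) * (bq k : 𝓞 K) := by
        rw [Submodule.coe_sum]
        refine Finset.sum_congr rfl fun k _ => ?_
        rw [← zsmul_eq_mul]
        rfl
      rw [e1, crd_sum]
      push_cast
      refine Finset.sum_congr rfl fun k _ => ?_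
      rw [crd_intCast_mul]
      push_cast
      rw [mul_comm]
      rfl
    constructor
    · intro a ha
      refine ⟨fun k => bq.repr ⟨a, ha⟩ k, ?_⟩
      show Matrix.toLin' MR _ = _
      rw [key]
      have : (∑ k, bq.repr ⟨a, ha⟩ k • bq k : q) = ⟨a, ha⟩ := bq.sum_repr _
      rw [this]
    · intro c
      exact ⟨((∑ k, c k • bq k : q) : 𝓞 K), Submodule.coe_mem _, key c⟩

theorem exists_vg (g : InfinitePlace K → ℂ) (hg : RV g) (hg0 : ∀ w, g w ≠ 0) :
    ∃ v : ℝ, 0 < v ∧ ∀ q : Ideal (𝓞 K), q ≠ ⊥ →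
      Tendsto (fun R : ℝ => (Set.ncard {s : 𝓞 K | s ∈ q ∧ VIn g R s} : ℝ) / R ^ mK K) atTop
        (𝓝 (v / Ideal.absNorm q)) := by
  classical
  obtain ⟨G, hG⟩ := exists_mulG' hg hg0
  set cube : Set (IK K → ℝ) := {r | ∀ j, |r j| ≤ 1} with hcube
  have hcc : cube = Metric.closedBall 0 1 := cube_eq
  have hconv : Convex ℝ cube := by
    rw [hcc]
    exact convex_closedBall _ _
  have hcomp : IsCompact cube := by
    rw [hcc]
    exact isCompact_closedBall _ _
  have h0c : (0 : IK K → ℝ) ∈ cube := by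
    rw [hcc]
    exact Metric.mem_closedBall_self zero_le_one
  have hvc : 0 < volume.real cube := by
    rw [hcc, measureReal_def]
    refine ENNReal.toReal_pos (Metric.measure_closedBall_pos volume 0 zero_lt_one).ne' ?_
    exact (isCompact_closedBall _ _).measure_lt_top.ne
  set T : Set (IK K → ℝ) := (G : (IK K → ℝ) →ₗ[ℝ] (IK K → ℝ)) '' cube with hT
  have hdG : LinearMap.det (G : (IK K → ℝ) →ₗ[ℝ] (IK K → ℝ)) ≠ 0 :=
    (LinearEquiv.isUnit_det' G).ne_zero
  have hvT : volume.real T = |LinearMap.det (G : (IK K → ℝ) →ₗ[ℝ] (IK K → ℝ))| *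
      volume.real cube := by
    rw [measureReal_def, measureReal_def, hT, Measure.addHaar_image_linearMap,
      ENNReal.toReal_mul, ENNReal.toReal_ofReal (abs_nonneg _)]
  refine ⟨volume.real T, ?_, fun q hq => ?_⟩
  · rw [hvT]
    exact mul_pos (abs_pos.mpr hdG) hvc
  obtain ⟨P, hP1, hP2, hP3⟩ := exists_basis q hq
  have hdP : LinearMap.det (P : (IK K → ℝ) →ₗ[ℝ] (IK K → ℝ)) ≠ 0 :=
    (LinearEquiv.isUnit_det' P).ne_zero
  set s : Set (IK K → ℝ) := (P : (IK K → ℝ) →ₗ[ℝ] (IK K → ℝ)) ⁻¹' T with hs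
  have hTconv : Convex ℝ T := hconv.linear_image _
  have hsconv : Convex ℝ s := hTconv.linear_preimage _
  have hTcomp : IsCompact T := hcomp.image (LinearMap.continuous_of_finiteDimensional _)
  have hPc : Continuous (P : (IK K → ℝ) →ₗ[ℝ] (IK K → ℝ)) :=
    LinearMap.continuous_of_finiteDimensional _
  have hPc' : Continuous (P.symm : (IK K → ℝ) →ₗ[ℝ] (IK K → ℝ)) :=
    LinearMap.continuous_of_finiteDimensional _
  have hs' : s = (P.symm : (IK K → ℝ) →ₗ[ℝ] (IK K → ℝ)) '' T := by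
    ext z
    constructor
    · intro hz
      exact ⟨P z, hz, P.symm_apply_apply z⟩
    · rintro ⟨y, hy, rfl⟩
      show P (P.symm y) ∈ T
      rw [P.apply_symm_apply]
      exact hy
  have hscomp : IsCompact s := by
    rw [hs']
    exact hTcomp.image hPc'
  have h0s : (0 : IK K → ℝ) ∈ s := by
    show (P : (IK K → ℝ) →ₗ[ℝ] (IK K → ℝ)) 0 ∈ T
    rw [map_zero]
    exact ⟨0, h0c, map_zero _⟩
  have hvs : volume.real s = volume.real T / Ideal.absNorm q := by
    rw [measureReal_def, hs, Measure.addHaar_preimage_linearMap _ hdP, ENNReal.toReal_mul,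
      ENNReal.toReal_ofReal (abs_nonneg _), abs_inv, hP1, measureReal_def]
    rw [div_eq_inv_mul]
  have hlim := tendsto_card_div_pow_atTop_volume' s hscomp.isBounded hscomp.measurableSet
    (hsconv.addHaar_frontier volume) (fun x y hx hxy => by
      rintro _ ⟨z, hz, rfl⟩
      have hy : 0 < y := hx.trans_le hxy
      refine ⟨(x / y) • z, hsconv.smul_mem_of_zero_mem h0s hz
        ⟨by positivity, (div_le_one hy).mpr hxy⟩, ?_⟩
      show y • (x / y) • z = x • z
      rw [smul_smul, mul_div_cancel₀ _ hy.ne'])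
  rw [hvs] at hlim
  refine Tendsto.congr' ?_ hlim
  filter_upwards [eventually_gt_atTop 0] with x hx
  rw [card_IK]
  congr 2
  rw [Nat.card_coe_set_eq]
  have hinj : Function.Injective fun a : 𝓞 K => x⁻¹ • P.symm (fun j => (crd a j : ℝ)) := by
    intro a b hab
    have h1 : P.symm (fun j => (crd a j : ℝ)) = P.symm (fun j => (crd b j : ℝ)) :=
      smul_right_injective _ (inv_ne_zero hx.ne') hab
    refine crd_ext fun j => ?_
    have h2 := congrFun (P.symm.injective h1) j
    exact_mod_cast h2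
  rw [← Set.ncard_image_of_injective _ hinj]
  congr 1
  ext z
  rw [Set.mem_inter_iff, Set.mem_inv_smul_set_iff₀ hx.ne', SetLike.mem_coe,
    Module.Basis.mem_span_iff_repr_mem]
  constructor
  · rintro ⟨hz1, hz2⟩
    obtain ⟨r, hr, hrz⟩ : P z ∈ T := hz1
    choose c hc using hz2
    have hc' : (fun j => (c j : ℝ)) = x • z := by
      funext j
      have := hc j
      simpa using this
    obtain ⟨a, haq, ha⟩ := hP3 c
    rw [hc'] at ha
    refine ⟨a, ⟨haq, x • r, fun j => ?_, fun w => ?_⟩, ?_⟩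
    · rw [Pi.smul_apply, smul_eq_mul, abs_mul, abs_of_pos hx]
      calc x * |r j| ≤ x * 1 := mul_le_mul_of_nonneg_left (hr j) hx.le
        _ = x := mul_one x
    · rw [← hG, ← lam_crd, ← ha, map_smul, map_smul]
      congr 1
      rw [← hrz]
      rfl
    · show x⁻¹ • P.symm (fun j => (crd a j : ℝ)) = z
      rw [← ha, P.symm_apply_apply, smul_smul, inv_mul_cancel₀ hx.ne', one_smul]
  · rintro ⟨a, ⟨haq, r, hr, har⟩, rfl⟩
    obtain ⟨c, hc⟩ := hP2 a haq
    have e1 : P.symm (fun j => (crd a j : ℝ)) = fun j => (c j : ℝ) := by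
      rw [← hc, P.symm_apply_apply]
    have e2 : G r = fun j => (crd a j : ℝ) := by
      refine lam_injective fun w => ?_
      rw [hG, lam_crd, har]
    constructor
    · show P (x⁻¹ • P.symm (fun j => (crd a j : ℝ))) ∈ T
      rw [map_smul, P.apply_symm_apply, ← e2]
      refine ⟨x⁻¹ • r, fun j => ?_, ?_⟩
      · rw [Pi.smul_apply, smul_eq_mul, abs_mul, abs_inv, abs_of_pos hx, inv_mul_le_iff₀ hx,
          mul_one]
        exact hr j
      · rw [map_smul]
        rfl
    · intro j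
      show (Pi.basisFun ℝ (IK K)).repr (x • x⁻¹ • P.symm (fun j => (crd a j : ℝ))) j ∈ _
      rw [smul_smul, mul_inv_cancel₀ hx.ne', one_smul, e1]
      exact ⟨c j, by simp⟩

end NFHP
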