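import Pool.Agent.Lib.MP_e426f4_ag.N.AlgCplx

/-!
# The value of a form along a line is nearly linear (module NF-RC1)
-/

namespace NFHP

open NumberField GenHP Finset Filter Topology

variable {K : Type} [Field K] [NumberField K] {n d : ℕ}

private theorem nl_F_sub (A A' : Idx n d → ℂ) (x : Fin (n + 1) → ℂ) :
    F A x - F A' x = F (fun t => A t - A' t) x := by
  unfold F
  rw [← Finset.sum_sub_distrib]
  exact Finset.sum_congr rfl fun t _ => by ring

private theorem nl_D_sub (A A' : Idx n d → ℂ) (x : Fin (n + 1) → ℂ) (j : Fin (n + 1)) :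
    D A x j - D A' x j = D (fun t => A t - A' t) x j := by
  unfold D
  rw [← Finset.sum_sub_distrib]
  exact Finset.sum_congr rfl fun t _ => by ring

private theorem nl_sum_le (u v : Fin (n + 1) → ℂ) (a b : ℝ) (ha : 0 ≤ a) (hu : ∀ i, ‖u i‖ ≤ a)
    (hv : ∀ i, ‖v i‖ ≤ b) : ‖∑ i, u i * v i‖ ≤ ((n : ℝ) + 1) * (a * b) := by
  calc ‖∑ i, u i * v i‖ ≤ ∑ i, ‖u i * v i‖ := norm_sum_le _ _
    _ ≤ ∑ _i : Fin (n + 1), a * b := by
        refine Finset.sum_le_sum fun i _ => ?_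
        rw [norm_mul]
        exact mul_le_mul (hu i) (hv i) (norm_nonneg _) ha
    _ = ((n : ℝ) + 1) * (a * b) := by
        rw [Finset.sum_const, Finset.card_univ, Fintype.card_fin, nsmul_eq_mul]
        push_cast
        ring

theorem near_linear (K : Type) [Field K] [NumberField K] (n d : ℕ)
    (del bet k0 : ℝ) (hdel : 0 < del) (hb0 : 0 < bet) (hk0 : 0 < k0) :
    ∃ kap1 : ℝ, 0 < kap1 ∧ ∀ kap : ℝ, 0 < kap → kap ≤ kap1 →
    ∃ rho0 : ℝ, 0 < rho0 ∧ rho0 ≤ 1 ∧ ∀ rho : ℝ, 0 < rho → rho ≤ rho0 →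
      ∀ (Ainf : Idx n d → IK K → ℝ) (xi : Fin (n + 1) → IK K → ℝ) (h : Fin (n + 1) → ℤ),
      (∀ t j, |Ainf t j| ≤ 1) → (∀ i w, ‖lam (xi i) w‖ ≤ 1) → (∀ i, |h i| ≤ hb n (mK K)) →
      (∀ w, ‖F (fun t => lam (Ainf t) w) (fun i => lam (xi i) w)‖ ≤ rho0) →
      (∀ w, bet * k0 ≤ ‖Dh (fun t => lam (Ainf t) w) (fun i => lam (xi i) w) h‖) →
      ∀ (w : InfinitePlace K) (A : Idx n d → ℂ),
      (∀ t, ‖A t - lam (Ainf t) w‖ ≤ 3 * cK K * rho) →
      ∀ ζ : Fin (n + 1) → ℂ, (∀ i, ‖ζ i‖ ≤ cK K * kap ^ 2) →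
      (∀ z z' : ℂ, ‖z‖ ≤ 2 * cK K * kap → ‖z'‖ ≤ 2 * cK K * kap →
        ‖F A (fun i => lam (xi i) w + z * h i + ζ i) - F A (fun i => lam (xi i) w + z' * h i + ζ i) -
          Dh (fun t => lam (Ainf t) w) (fun i => lam (xi i) w) h * (z - z')‖ ≤
          del * ‖Dh (fun t => lam (Ainf t) w) (fun i => lam (xi i) w) h‖ * ‖z - z'‖) ∧
      ‖F A (fun i => lam (xi i) w + ζ i)‖ ≤
        ‖Dh (fun t => lam (Ainf t) w) (fun i => lam (xi i) w) h‖ * kap / (4 * cK K) := by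
  have hc1 : 1 ≤ cK K := one_le_cK
  have hc0 : 0 < cK K := cK_pos
  obtain ⟨c, hc⟩ : ∃ c : ℝ, c = cK K := ⟨_, rfl⟩
  obtain ⟨m, hm⟩ : ∃ m : ℝ, m = (hb n (mK K) : ℝ) := ⟨_, rfl⟩
  obtain ⟨N, hN⟩ : ∃ N : ℝ, N = (NN n d : ℝ) := ⟨_, rfl⟩
  rw [← hc] at hc1 hc0 ⊢
  have hm0 : 0 ≤ m := by rw [hm]; positivity
  have hN0 : 0 ≤ N := by rw [hN]; positivity
  obtain ⟨C1, hC1⟩ : ∃ C1 : ℝ, C1 = 3 * c * (m + 1) := ⟨_, rfl⟩
  have hC1p : 0 < C1 := by rw [hC1]; positivity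
  obtain ⟨C2, hC2⟩ : ∃ C2 : ℝ, C2 = N * 4 ^ d * (4 * c) * 2 ^ d * m ^ 2 * (4 * c) +
    ((n : ℝ) + 1) * (N * d * 4 ^ d * (4 * c) * 2 ^ d * C1 * m) := ⟨_, rfl⟩
  have hC2p : 0 ≤ C2 := by rw [hC2]; positivity
  obtain ⟨C3, hC3⟩ : ∃ C3 : ℝ, C3 = N * 4 ^ d * (4 * c) * 2 ^ d * c ^ 2 +
    ((n : ℝ) + 1) * (N * d * (4 * c) * 2 ^ d * c) := ⟨_, rfl⟩
  have hC3p : 0 ≤ C3 := by rw [hC3]; positivity
  obtain ⟨C4, hC4⟩ : ∃ C4 : ℝ, C4 = ((n : ℝ) + 1) * (N * d * (3 * c) * m) := ⟨_, rfl⟩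
  have hC4p : 0 ≤ C4 := by rw [hC4]; positivity
  have hdbk : 0 < del * (bet * k0) := by positivity
  have hbk : 0 < bet * k0 := by positivity
  refine ⟨min 1 (min (1 / C1) (min (del * (bet * k0) / (2 * (C2 + 1)))
    (bet * k0 / (8 * c * (C3 + 1))))), by positivity, fun kap hk hkle => ?_⟩
  have hk1 : kap ≤ 1 := hkle.trans (min_le_left _ _)
  have hk2 : kap * C1 ≤ 1 := by
    have : kap ≤ 1 / C1 := hkle.trans ((min_le_right _ _).trans (min_le_left _ _))
    rwa [le_div_iff₀ hC1p] at this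
  have hk3 : C2 * kap ≤ del * (bet * k0) / 2 := by
    have h1 : kap ≤ del * (bet * k0) / (2 * (C2 + 1)) :=
      hkle.trans ((min_le_right _ _).trans ((min_le_right _ _).trans (min_le_left _ _)))
    rw [le_div_iff₀ (by positivity)] at h1
    nlinarith
  have hk4 : C3 * kap ≤ bet * k0 / (8 * c) := by
    have h1 : kap ≤ bet * k0 / (8 * c * (C3 + 1)) :=
      hkle.trans ((min_le_right _ _).trans ((min_le_right _ _).trans (min_le_right _ _)))
    rw [le_div_iff₀ (by positivity)] at h1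
    rw [le_div_iff₀ (by positivity)]
    nlinarith [mul_pos hk hc0]
  refine ⟨min 1 (min (del * (bet * k0) / (2 * (C4 + 1))) (bet * k0 * kap / (8 * c * (3 * N * c + 1)))),
    by positivity, min_le_left _ _, fun rho hr hrle => ?_⟩
  obtain ⟨rho0, hrho0⟩ : ∃ rho0 : ℝ, rho0 = min 1 (min (del * (bet * k0) / (2 * (C4 + 1)))
    (bet * k0 * kap / (8 * c * (3 * N * c + 1)))) := ⟨_, rfl⟩
  rw [← hrho0] at hrle ⊢
  have hr01 : rho0 ≤ 1 := by rw [hrho0]; exact min_le_left _ _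
  have hr1 : rho ≤ 1 := hrle.trans hr01
  have hr2 : C4 * rho ≤ del * (bet * k0) / 2 := by
    have h1 : rho ≤ del * (bet * k0) / (2 * (C4 + 1)) := by
      refine hrle.trans ?_
      rw [hrho0]
      exact (min_le_right _ _).trans (min_le_left _ _)
    rw [le_div_iff₀ (by positivity)] at h1
    nlinarith
  have hr3 : (3 * N * c + 1) * rho0 ≤ bet * k0 * kap / (8 * c) := by
    have h1 : rho0 ≤ bet * k0 * kap / (8 * c * (3 * N * c + 1)) := by
      rw [hrho0]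
      exact (min_le_right _ _).trans (min_le_right _ _)
    rw [le_div_iff₀ (by positivity)] at h1
    rw [le_div_iff₀ (by positivity)]
    linarith
  intro Ainf xi h hAinf hxi hh hF hDh w A hA ζ hζ
  obtain ⟨g, hg⟩ : ∃ g : ℂ, g = Dh (fun t => lam (Ainf t) w) (fun i => lam (xi i) w) h := ⟨_, rfl⟩
  have hgw : bet * k0 ≤ ‖g‖ := by rw [hg]; exact hDh w
  rw [← hg]
  have hhi : ∀ i, ‖((h i : ℤ) : ℂ)‖ ≤ m := fun i => by
    rw [Complex.norm_intCast, hm]
    exact_mod_cast hh i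
  have hlA : ∀ t, ‖lam (Ainf t) w‖ ≤ c := fun t => by
    have := norm_lam_le (Ainf t) 1 (fun j => hAinf t j) w
    rw [← hc] at this
    linarith
  have hA4 : ∀ t, ‖A t‖ ≤ 4 * c := fun t => by
    have e1 : A t = (A t - lam (Ainf t) w) + lam (Ainf t) w := by ring
    rw [e1]
    refine (norm_add_le _ _).trans ?_
    have h1 := hA t
    have h2 := hlA t
    have h3 : 3 * c * rho ≤ 3 * c := by nlinarith
    linarith
  have hx2 : ∀ i, ‖lam (xi i) w‖ ≤ 2 := fun i => (hxi i w).trans (by norm_num)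
  have hkk : kap ^ 2 ≤ kap := by nlinarith
  have hm1 : kap * m ≤ kap * (m + 1) := by nlinarith
  -- size of the perturbation
  have hpert : ∀ z' : ℂ, ‖z'‖ ≤ 2 * c * kap → ∀ i, ‖z' * h i + ζ i‖ ≤ C1 * kap := by
    intro z' hz' i
    refine (norm_add_le _ _).trans ?_
    rw [norm_mul]
    have h1 : ‖z'‖ * ‖((h i : ℤ) : ℂ)‖ ≤ (2 * c * kap) * m :=
      mul_le_mul hz' (hhi i) (norm_nonneg _) (by positivity)
    have h2 := hζ i
    have h3 : c * kap ^ 2 ≤ c * kap := mul_le_mul_of_nonneg_left hkk hc0.le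
    have h4 : C1 * kap = 3 * (c * kap * m) + 3 * (c * kap) := by rw [hC1]; ring
    have h5 : 0 ≤ c * kap * m := by positivity
    have h6 : 0 ≤ c * kap := by positivity
    rw [h4]
    have h7 : 2 * c * kap * m = 2 * (c * kap * m) := by ring
    linarith
  -- variation of the derivative
  have hder : ∀ z' : ℂ, ‖z'‖ ≤ 2 * c * kap →
      ‖∑ j, D A (fun i => lam (xi i) w + (z' * h i + ζ i)) j * ((h j : ℤ) : ℂ) - g‖ ≤
        ((n : ℝ) + 1) * (N * d * 4 ^ d * (4 * c) * 2 ^ d * (C1 * kap) * m) + C4 * rho := by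
    intro z' hz'
    have e1 : ∑ j, D A (fun i => lam (xi i) w + (z' * h i + ζ i)) j * ((h j : ℤ) : ℂ) - g =
        ∑ j, (D A (fun i => lam (xi i) w + (z' * h i + ζ i)) j - D A (fun i => lam (xi i) w) j) *
          ((h j : ℤ) : ℂ) +
        ∑ j, D (fun t => A t - lam (Ainf t) w) (fun i => lam (xi i) w) j * ((h j : ℤ) : ℂ) := by
      rw [hg]
      unfold Dh
      rw [← Finset.sum_sub_distrib, ← Finset.sum_add_distrib]
      refine Finset.sum_congr rfl fun j _ => ?_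
      rw [← nl_D_sub]
      ring
    rw [e1]
    refine (norm_add_le _ _).trans (add_le_add ?_ ?_)
    · refine nl_sum_le _ _ _ m (by positivity) (fun j => ?_) hhi
      have h1 := D_taylor A (fun i => lam (xi i) w) (fun i => z' * h i + ζ i) j (4 * c) 2
        (C1 * kap) (by norm_num) (by positivity) (by linarith) hA4 hx2 (hpert z' hz')
      rw [← hN] at h1
      exact h1
    · have h1 := nl_sum_le (fun j => D (fun t => A t - lam (Ainf t) w) (fun i => lam (xi i) w) j)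
        (fun j => ((h j : ℤ) : ℂ)) (N * d * (3 * c * rho)) m (by positivity) (fun j => by
          have h2 := D_norm_le (fun t => A t - lam (Ainf t) w) (fun i => lam (xi i) w) j
            (3 * c * rho) 1 le_rfl hA (fun i => hxi i w)
          rw [← hN, one_pow, mul_one] at h2
          exact h2) hhi
      refine h1.trans (le_of_eq ?_)
      rw [hC4]
      ring
  refine ⟨fun z z' hz hz' => ?_, ?_⟩
  · have hzz : ‖z - z'‖ ≤ 4 * c * kap := by
      refine (norm_sub_le _ _).trans ?_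
      linarith
    have e0 : (fun i => lam (xi i) w + z * h i + ζ i) =
        fun i => (lam (xi i) w + (z' * h i + ζ i)) + (z - z') * h i := by
      funext i; ring
    have e0' : (fun i => lam (xi i) w + z' * h i + ζ i) =
        fun i => lam (xi i) w + (z' * h i + ζ i) := by
      funext i; ring
    rw [e0, e0']
    have hp2 : ∀ i, ‖lam (xi i) w + (z' * h i + ζ i)‖ ≤ 2 := fun i => by
      refine (norm_add_le _ _).trans ?_
      have h1 := hxi i w
      have h2 := hpert z' hz' i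
      linarith
    have hy : ∀ i, ‖(z - z') * ((h i : ℤ) : ℂ)‖ ≤ ‖z - z'‖ * m := fun i => by
      rw [norm_mul]
      exact mul_le_mul_of_nonneg_left (hhi i) (norm_nonneg _)
    have hy2 : ‖z - z'‖ * m ≤ 2 := by
      have h1 : ‖z - z'‖ * m ≤ 4 * c * kap * m := mul_le_mul_of_nonneg_right hzz hm0
      have h4 : kap * C1 = 3 * (c * kap * m) + 3 * (c * kap) := by rw [hC1]; ring
      have h5 : 0 ≤ c * kap * m := by positivity
      have h6 : 0 ≤ c * kap := by positivity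
      have h7 : 4 * c * kap * m = 4 * (c * kap * m) := by ring
      linarith
    have hT := F_taylor A (fun i => lam (xi i) w + (z' * h i + ζ i)) (fun i => (z - z') * h i)
      (4 * c) 2 (‖z - z'‖ * m) (by norm_num) (by positivity) hy2 hA4 hp2 hy
    rw [← hN] at hT
    have e2 : ∑ j, D A (fun i => lam (xi i) w + (z' * h i + ζ i)) j * ((z - z') * ((h j : ℤ) : ℂ)) =
        (∑ j, D A (fun i => lam (xi i) w + (z' * h i + ζ i)) j * ((h j : ℤ) : ℂ)) * (z - z') := by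
      rw [Finset.sum_mul]
      exact Finset.sum_congr rfl fun j _ => by ring
    rw [e2] at hT
    obtain ⟨G, hG⟩ : ∃ G : ℂ, G = ∑ j, D A (fun i => lam (xi i) w + (z' * h i + ζ i)) j *
      ((h j : ℤ) : ℂ) := ⟨_, rfl⟩
    have hGd := hder z' hz'
    rw [← hG] at hT hGd
    obtain ⟨P1, hP1⟩ : ∃ P1 : ℂ, P1 = F A (fun i => (lam (xi i) w + (z' * h i + ζ i)) +
      (z - z') * h i) := ⟨_, rfl⟩
    obtain ⟨P2, hP2⟩ : ∃ P2 : ℂ, P2 = F A (fun i => lam (xi i) w + (z' * h i + ζ i)) := ⟨_, rfl⟩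
    rw [← hP1, ← hP2] at hT ⊢
    have e3 : P1 - P2 - g * (z - z') = (P1 - P2 - G * (z - z')) + (G - g) * (z - z') := by ring
    rw [e3]
    refine (norm_add_le _ _).trans ?_
    rw [norm_mul]
    have h1 : N * 4 ^ d * (4 * c) * 2 ^ d * (‖z - z'‖ * m) ^ 2 ≤
        N * 4 ^ d * (4 * c) * 2 ^ d * m ^ 2 * (4 * c) * kap * ‖z - z'‖ := by
      have h2 : ‖z - z'‖ * ‖z - z'‖ ≤ 4 * c * kap * ‖z - z'‖ :=
        mul_le_mul_of_nonneg_right hzz (norm_nonneg _)
      have h3 : 0 ≤ N * 4 ^ d * (4 * c) * 2 ^ d * m ^ 2 := by positivity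
      have h4 := mul_le_mul_of_nonneg_left h2 h3
      have h5 : N * 4 ^ d * (4 * c) * 2 ^ d * (‖z - z'‖ * m) ^ 2 =
        N * 4 ^ d * (4 * c) * 2 ^ d * m ^ 2 * (‖z - z'‖ * ‖z - z'‖) := by ring
      rw [h5]
      refine h4.trans (le_of_eq ?_)
      ring
    have h2 := mul_le_mul_of_nonneg_right hGd (norm_nonneg (z - z'))
    have h3 : N * 4 ^ d * (4 * c) * 2 ^ d * m ^ 2 * (4 * c) * kap * ‖z - z'‖ +
        (((n : ℝ) + 1) * (N * d * 4 ^ d * (4 * c) * 2 ^ d * (C1 * kap) * m) + C4 * rho) *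
          ‖z - z'‖ = (C2 * kap + C4 * rho) * ‖z - z'‖ := by
      rw [hC2]
      ring
    have h4 : C2 * kap + C4 * rho ≤ del * ‖g‖ := by
      have h5 : del * (bet * k0) ≤ del * ‖g‖ := mul_le_mul_of_nonneg_left hgw hdel.le
      linarith
    have h5 := mul_le_mul_of_nonneg_right h4 (norm_nonneg (z - z'))
    linarith
  · have hζ2 : c * kap ^ 2 ≤ 2 := by
      have h4 : kap * C1 = 3 * (c * kap * m) + 3 * (c * kap) := by rw [hC1]; ring
      have h5 : 0 ≤ c * kap * m := by positivity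
      have h6 : c * kap ^ 2 ≤ c * kap := mul_le_mul_of_nonneg_left hkk hc0.le
      linarith
    have hT := F_taylor A (fun i => lam (xi i) w) ζ (4 * c) 2 (c * kap ^ 2) (by norm_num)
      (by positivity) hζ2 hA4 hx2 hζ
    rw [← hN] at hT
    have hD := nl_sum_le (fun j => D A (fun i => lam (xi i) w) j) ζ (N * d * (4 * c) * 2 ^ d)
      (c * kap ^ 2) (by positivity) (fun j => by
        have h2 := D_norm_le A (fun i => lam (xi i) w) j (4 * c) 2 (by norm_num) hA4 hx2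
        rw [← hN] at h2
        exact h2) hζ
    have hS := F_norm_le (fun t => A t - lam (Ainf t) w) (fun i => lam (xi i) w) (3 * c * rho) 1
      le_rfl hA (fun i => hxi i w)
    rw [← nl_F_sub, ← hN, one_pow, mul_one] at hS
    have hF0 := hF w
    obtain ⟨P1, hP1⟩ : ∃ P1 : ℂ, P1 = F A (fun i => lam (xi i) w + ζ i) := ⟨_, rfl⟩
    obtain ⟨P2, hP2⟩ : ∃ P2 : ℂ, P2 = F A (fun i => lam (xi i) w) := ⟨_, rfl⟩
    obtain ⟨P3, hP3⟩ : ∃ P3 : ℂ, P3 = F (fun t => lam (Ainf t) w) (fun i => lam (xi i) w) :=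
      ⟨_, rfl⟩
    obtain ⟨P4, hP4⟩ : ∃ P4 : ℂ, P4 = ∑ j, D A (fun i => lam (xi i) w) j * ζ j := ⟨_, rfl⟩
    rw [← hP1, ← hP2, ← hP4] at hT
    rw [← hP2, ← hP3] at hS
    rw [← hP4] at hD
    rw [← hP3] at hF0
    rw [← hP1]
    have e1 : P1 = (P1 - P2 - P4) + P4 + (P2 - P3) + P3 := by ring
    rw [e1]
    have h1 := norm_add_le ((P1 - P2 - P4) + P4 + (P2 - P3)) P3
    have h2 := norm_add_le ((P1 - P2 - P4) + P4) (P2 - P3)
    have h3 := norm_add_le (P1 - P2 - P4) P4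
    have h4 : N * 4 ^ d * (4 * c) * 2 ^ d * (c * kap ^ 2) ^ 2 ≤
        N * 4 ^ d * (4 * c) * 2 ^ d * c ^ 2 * kap ^ 2 := by
      have h5 : (c * kap ^ 2) ^ 2 ≤ c ^ 2 * kap ^ 2 := by
        have h6 : (kap ^ 2) ^ 2 ≤ kap ^ 2 := by nlinarith [sq_nonneg kap]
        calc (c * kap ^ 2) ^ 2 = c ^ 2 * (kap ^ 2) ^ 2 := by ring
          _ ≤ c ^ 2 * kap ^ 2 := mul_le_mul_of_nonneg_left h6 (by positivity)
      have h6 : 0 ≤ N * 4 ^ d * (4 * c) * 2 ^ d := by positivity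
      have h7 := mul_le_mul_of_nonneg_left h5 h6
      linarith
    have h5 : N * 4 ^ d * (4 * c) * 2 ^ d * c ^ 2 * kap ^ 2 +
        ((n : ℝ) + 1) * (N * d * (4 * c) * 2 ^ d * (c * kap ^ 2)) = C3 * kap * kap := by
      rw [hC3]
      ring
    have h6 : C3 * kap * kap ≤ bet * k0 / (8 * c) * kap := mul_le_mul_of_nonneg_right hk4 hk.le
    have h7 : N * (3 * c * rho) ≤ 3 * N * c * rho0 := by
      have := mul_le_mul_of_nonneg_left hrle (show 0 ≤ 3 * N * c by positivity)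
      linarith
    have h8 : bet * k0 / (8 * c) * kap + bet * k0 * kap / (8 * c) = (bet * k0) * kap / (4 * c) := by
      field_simp
      ring
    have h9 : (bet * k0) * kap / (4 * c) ≤ ‖g‖ * kap / (4 * c) := by
      refine div_le_div_of_nonneg_right ?_ (by positivity)
      exact mul_le_mul_of_nonneg_right hgw hk.le
    linarith

end NFHP
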