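import Pool.Agent.Lib.MP_e426f4_ag.N.LineCount
import Pool.Agent.Lib.MP_e426f4_ag.N.NearLin
import Pool.Agent.Lib.MP_e426f4_ag.G.RealCount

/-! Module NF-RC3: the real counting property. -/

set_option linter.unusedSectionVars false

namespace NFHP

open NumberField GenHP Finset Filter Topology

variable {K : Type} [Field K] [NumberField K] {n d : ℕ}

private theorem rc_pi_bounds {α : Type*} (n : ℕ) (s : Fin n → Set α) (hs : ∀ k, (s k).Finite)
    (a b : ℝ) (ha : 0 ≤ a) (h : ∀ k, a ≤ ((s k).ncard : ℝ) ∧ ((s k).ncard : ℝ) ≤ b) :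
    {y : Fin n → α | ∀ k, y k ∈ s k}.Finite ∧
    a ^ n ≤ (Set.ncard {y : Fin n → α | ∀ k, y k ∈ s k} : ℝ) ∧
      (Set.ncard {y : Fin n → α | ∀ k, y k ∈ s k} : ℝ) ≤ b ^ n := by
  classical
  have h1 : {y : Fin n → α | ∀ k, y k ∈ s k} =
      ((Fintype.piFinset fun k => (hs k).toFinset : Finset (Fin n → α)) : Set (Fin n → α)) := by
    ext y
    simp
  have h2 : (Set.ncard {y : Fin n → α | ∀ k, y k ∈ s k} : ℝ) = ∏ k, ((s k).ncard : ℝ) := by
    rw [h1, Set.ncard_coe_finset, Fintype.card_piFinset]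
    push_cast
    refine Finset.prod_congr rfl fun k _ => ?_
    rw [Set.ncard_eq_toFinset_card (s k) (hs k)]
  refine ⟨by rw [h1]; exact Finset.finite_toSet _, ?_, ?_⟩
  · rw [h2]
    calc a ^ n = ∏ _k : Fin n, a := by rw [Finset.prod_const, Finset.card_univ, Fintype.card_fin]
      _ ≤ _ := Finset.prod_le_prod (fun _ _ => ha) (fun k _ => (h k).1)
  · rw [h2]
    calc (∏ k, ((s k).ncard : ℝ)) ≤ ∏ _k : Fin n, b :=
          Finset.prod_le_prod (fun _ _ => Nat.cast_nonneg _) (fun k _ => (h k).2)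
      _ = _ := by rw [Finset.prod_const, Finset.card_univ, Fintype.card_fin]

/-- the point with first coordinate `a` and shifts `t` -/
private def pt (h : Fin (n + 1) → ℤ) (a : 𝓞 K) (t : Fin n → 𝓞 K) : Fin (n + 1) → 𝓞 K :=
  Fin.cons a fun k => (h k.succ : 𝓞 K) * a + t k

/-- the shifts of a point -/
private def sh (h : Fin (n + 1) → ℤ) (x : Fin (n + 1) → 𝓞 K) : Fin n → 𝓞 K :=
  fun k => x k.succ - (h k.succ : 𝓞 K) * x 0

private theorem pt_zero (h : Fin (n + 1) → ℤ) (a : 𝓞 K) (t : Fin n → 𝓞 K) : pt h a t 0 = a := rfl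

private theorem pt_succ (h : Fin (n + 1) → ℤ) (a : 𝓞 K) (t : Fin n → 𝓞 K) (k : Fin n) :
    pt h a t k.succ = (h k.succ : 𝓞 K) * a + t k := rfl

private theorem sh_pt (h : Fin (n + 1) → ℤ) (a : 𝓞 K) (t : Fin n → 𝓞 K) :
    sh h (pt h a t) = t := by
  funext k
  unfold sh
  rw [pt_zero, pt_succ]
  ring

private theorem pt_sh (h : Fin (n + 1) → ℤ) (x : Fin (n + 1) → 𝓞 K) :
    pt h (x 0) (sh h x) = x := by
  funext i
  refine Fin.cases rfl (fun k => ?_) i
  rw [pt_succ]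
  unfold sh
  ring

private theorem pt_injective (h : Fin (n + 1) → ℤ) (t : Fin n → 𝓞 K) :
    Function.Injective fun a : 𝓞 K => pt h a t := by
  intro a a' haa
  have h1 := congrFun haa 0
  exact h1

/-- the set of admissible shifts -/
private def TS (xi : Fin (n + 1) → IK K → ℝ) (h : Fin (n + 1) → ℤ) (kap : ℝ) (B : ℕ)
    (b : Ideal (𝓞 K)) (r : Fin (n + 1) → 𝓞 K) (k : Fin n) : Set (𝓞 K) :=
  {a : 𝓞 K | a - (r k.succ - (h k.succ : 𝓞 K) * r 0) ∈ b ∧
    ∀ j, |(crd a j : ℝ) - B * (xi k.succ j - h k.succ * xi 0 j)| ≤ kap ^ 2 * B}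

/-- membership in `Reg` and in the class, in the coordinates `(a, t)` -/
private theorem mem_iff (xi : Fin (n + 1) → IK K → ℝ) (h : Fin (n + 1) → ℤ) (kap : ℝ)
    (B : ℕ) (b : Ideal (𝓞 K)) (r : Fin (n + 1) → 𝓞 K) (a : 𝓞 K) (t : Fin n → 𝓞 K) :
    (pt h a t ∈ Reg xi h kap B ∧ ∀ i, pt h a t i - r i ∈ b) ↔
      (a - r 0 ∈ b ∧ ∀ j, |(crd a j : ℝ) - B * xi 0 j| ≤ kap * B) ∧
      ∀ k, t k ∈ TS xi h kap B b r k := by
  have hsub : a - r 0 ∈ b → ∀ k : Fin n, (pt h a t k.succ - r k.succ ∈ b ↔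
      t k - (r k.succ - (h k.succ : 𝓞 K) * r 0) ∈ b) := by
    intro ha k
    have h1 : pt h a t k.succ - r k.succ = (h k.succ : 𝓞 K) * (a - r 0) +
        (t k - (r k.succ - (h k.succ : 𝓞 K) * r 0)) := by
      rw [pt_succ]
      ring
    rw [h1]
    exact Ideal.add_mem_iff_right b (b.mul_mem_left _ ha)
  have hcrd : ∀ (k : Fin n) (j : IK K), ((crd (pt h a t k.succ) j : ℝ) - B * xi k.succ j) -
      h k.succ * ((crd (pt h a t 0) j : ℝ) - B * xi 0 j) =
      (crd (t k) j : ℝ) - B * (xi k.succ j - h k.succ * xi 0 j) := by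
    intro k j
    rw [pt_succ, pt_zero, crd_add, crd_intCast_mul]
    push_cast
    ring
  constructor
  · rintro ⟨⟨h1, h2⟩, h3⟩
    have h0 : a - r 0 ∈ b := h3 0
    refine ⟨⟨h0, h1⟩, fun k => ⟨(hsub h0 k).mp (h3 k.succ), fun j => ?_⟩⟩
    rw [← hcrd]
    exact h2 k.succ (Fin.succ_ne_zero k) j
  · rintro ⟨⟨h0, h1⟩, h2⟩
    refine ⟨⟨h1, fun i hi j => ?_⟩, fun i => ?_⟩
    · obtain ⟨k, rfl⟩ := Fin.exists_succ_eq.mpr hi
      rw [hcrd]
      exact (h2 k).2 j
    · refine Fin.cases h0 (fun k => ?_) i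
      exact (hsub h0 k).mpr (h2 k).1

/-- the error vector of a shift -/
private noncomputable def ze (xi : Fin (n + 1) → IK K → ℝ) (h : Fin (n + 1) → ℤ) (B : ℕ)
    (t : Fin n → 𝓞 K) (w : InfinitePlace K) : Fin (n + 1) → ℂ :=
  Fin.cons 0 fun k => lam (fun j => (crd (t k) j : ℝ) / B - (xi k.succ j - h k.succ * xi 0 j)) w

/-- the function on the line -/
private noncomputable def ph (A : Idx n d → 𝓞 K) (H : ℝ) (xi : Fin (n + 1) → IK K → ℝ)
    (h : Fin (n + 1) → ℤ) (B : ℕ) (t : Fin n → 𝓞 K) (w : InfinitePlace K) (z : ℂ) : ℂ :=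
  F (fun m => sg w (A m) / H) (fun i => lam (xi i) w + z * h i + ze xi h B t w i)

private theorem lam_div (r : IK K → ℝ) (B : ℝ) (w : InfinitePlace K) :
    lam (fun j => r j / B) w = lam r w / B := by
  have h1 := lam_smul (B⁻¹) r w
  have h2 : (fun j => r j / B) = fun j => B⁻¹ * r j := by
    funext j
    ring
  rw [h2, h1]
  push_cast
  ring

private theorem ph_value (A : Idx n d → 𝓞 K) (H : ℝ) (hH : 0 < H)
    (xi : Fin (n + 1) → IK K → ℝ)
    (h : Fin (n + 1) → ℤ) (h0 : h 0 = 1) (B : ℕ) (hB : 0 < B) (t : Fin n → 𝓞 K)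
    (w : InfinitePlace K) (a : 𝓞 K) :
    sg w (F A (pt h a t)) =
      (H * (B : ℝ) ^ d : ℝ) * ph A H xi h B t w (sg w a / B - lam (xi 0) w) := by
  have hHc : (H : ℂ) ≠ 0 := by exact_mod_cast hH.ne'
  have hBc : (B : ℂ) ≠ 0 := by exact_mod_cast hB.ne'
  rw [← F_sg]
  unfold ph
  have h1 : (fun m => sg w (A m)) = fun m => (H : ℂ) * (sg w (A m) / H) := by
    funext m
    field_simp
  have h2 : (fun i => sg w (pt h a t i)) = fun i => (B : ℂ) *
      (lam (xi i) w + (sg w a / B - lam (xi 0) w) * h i + ze xi h B t w i) := by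
    funext i
    refine Fin.cases ?_ (fun k => ?_) i
    · rw [pt_zero, h0]
      unfold ze
      rw [Fin.cons_zero]
      push_cast
      field_simp
      ring
    · rw [pt_succ, map_add, map_mul, sg_intCast]
      unfold ze
      rw [Fin.cons_succ, lam_sub (fun j => (crd (t k) j : ℝ) / B)
        (fun j => xi k.succ j - h k.succ * xi 0 j), lam_sub (xi k.succ)
        (fun j => h k.succ * xi 0 j), lam_smul, lam_div, lam_crd]
      push_cast
      field_simp
      ring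
  rw [h1, h2, F_smul, F_scale]
  push_cast
  ring

private theorem ph_conj (A : Idx n d → 𝓞 K) (H : ℝ)
    (xi : Fin (n + 1) → IK K → ℝ)
    (h : Fin (n + 1) → ℤ) (B : ℕ) (t : Fin n → 𝓞 K)
    (w : InfinitePlace K) (hw : w.IsReal) (z : ℂ) :
    ph A H xi h B t w ((starRingEnd ℂ) z) = (starRingEnd ℂ) (ph A H xi h B t w z) := by
  unfold ph
  rw [← F_map (starRingEnd ℂ)]
  congr 1
  · funext m
    rw [map_div₀, Complex.conj_ofReal, Complex.conj_eq_iff_im.mpr (RV_sg (A m) w hw)]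
  · funext i
    have h1 : (starRingEnd ℂ) (ze xi h B t w i) = ze xi h B t w i := by
      unfold ze
      refine Fin.cases ?_ (fun k => ?_) i
      · rw [Fin.cons_zero, map_zero]
      · rw [Fin.cons_succ]
        exact Complex.conj_eq_iff_im.mpr (RV_lam _ w hw)
    rw [map_add, map_add, map_mul, h1, Complex.conj_eq_iff_im.mpr (RV_lam (xi i) w hw)]
    congr 2
    rw [map_intCast]

/-- the condition on the level in terms of the function on the line -/
private theorem vin_iff (g : InfinitePlace K → ℂ) (A : Idx n d → 𝓞 K) (H : ℝ) (hH : 0 < H)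
    (xi : Fin (n + 1) → IK K → ℝ)
    (h : Fin (n + 1) → ℤ) (h0 : h 0 = 1) (B : ℕ) (hB : 0 < B) (t : Fin n → 𝓞 K)
    (a : 𝓞 K) (th : ℝ) :
    VIn g (th * H * (B : ℝ) ^ d) (F A (pt h a t)) ↔
      ∃ v : IK K → ℝ, (∀ j, |v j| ≤ th) ∧
        ∀ w, ph A H xi h B t w (sg w a / B - lam (xi 0) w) = g w * lam v w := by
  have hB' : (0 : ℝ) < B := by exact_mod_cast hB
  set C : ℝ := H * (B : ℝ) ^ d with hC
  have hCpos : 0 < C := by positivity
  have hCc : (C : ℂ) ≠ 0 := by exact_mod_cast hCpos.ne'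
  constructor
  · rintro ⟨v, hv1, hv2⟩
    refine ⟨fun j => v j / C, fun j => ?_, fun w => ?_⟩
    · rw [abs_div, abs_of_pos hCpos, div_le_iff₀ hCpos, hC, ← mul_assoc]
      exact hv1 j
    · have h1 := hv2 w
      rw [ph_value A H hH xi h h0 B hB t w a] at h1
      rw [lam_div]
      have h2 : ph A H xi h B t w (sg w a / B - lam (xi 0) w) = g w * lam v w / C := by
        rw [eq_div_iff hCc, mul_comm]
        exact h1
      rw [h2]
      ring
  · rintro ⟨v, hv1, hv2⟩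
    refine ⟨fun j => C * v j, fun j => ?_, fun w => ?_⟩
    · have h3 : th * H * (B : ℝ) ^ d = C * th := by
        rw [hC]
        ring
      rw [abs_mul, abs_of_pos hCpos, h3]
      exact mul_le_mul_of_nonneg_left (hv1 j) hCpos.le
    · rw [ph_value A H hH xi h h0 B hB t w a, hv2 w, lam_smul]
      ring

private theorem num_lower' (n : ℕ) (eps e : ℝ) (he : 0 < eps) (he1 : eps ≤ 1 / 10)
    (hedef : e = eps / (4 * ((n : ℝ) + 1))) : 1 - eps ≤ (1 - e) ^ (n + 1) := by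
  have hn : (0 : ℝ) < (n : ℝ) + 1 := by positivity
  have h1 : ((n : ℝ) + 1) * e = eps / 4 := by
    rw [hedef]
    field_simp
  have he2 : e ≤ 1 := by
    rw [hedef, div_le_one (by positivity)]
    have : (0 : ℝ) ≤ n := Nat.cast_nonneg n
    nlinarith
  have h0 := one_add_mul_le_pow (a := -e) (by linarith) (n + 1)
  have h2 : (1 + -e) ^ (n + 1) = (1 - e) ^ (n + 1) := by rw [sub_eq_add_neg]
  rw [h2] at h0
  push_cast at h0
  linarith

private theorem num_upper' (n : ℕ) (eps e : ℝ) (he : 0 < eps) (he1 : eps ≤ 1 / 10)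
    (hedef : e = eps / (4 * ((n : ℝ) + 1))) : (1 + e) ^ (n + 1) ≤ 1 + eps := by
  have h1 := num_lower' n (eps / 2) (eps / 2 / (4 * ((n : ℝ) + 1))) (by linarith) (by linarith)
    rfl
  have hn : (0 : ℝ) < (n : ℝ) + 1 := by positivity
  have h2 : ((n : ℝ) + 1) * e = eps / 4 := by
    rw [hedef]
    field_simp
  have hepos : 0 < e := by rw [hedef]; positivity
  have he2 : e ≤ 1 := by
    rw [hedef, div_le_one (by positivity)]
    have : (0 : ℝ) ≤ n := Nat.cast_nonneg n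
    nlinarith
  have h3 : 1 - eps / 4 ≤ (1 - e) ^ (n + 1) := by
    have h0 := one_add_mul_le_pow (a := -e) (by linarith) (n + 1)
    have h2 : (1 + -e) ^ (n + 1) = (1 - e) ^ (n + 1) := by rw [sub_eq_add_neg]
    rw [h2] at h0
    push_cast at h0
    linarith
  have h4 : (1 + e) ^ (n + 1) * (1 - e) ^ (n + 1) ≤ 1 := by
    rw [← mul_pow]
    apply pow_le_one₀
    · nlinarith
    · nlinarith
  have h6 : (1 + e) ^ (n + 1) * (1 - eps / 4) ≤ 1 :=
    (mul_le_mul_of_nonneg_left h3 (by positivity)).trans h4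
  have h7 : 1 ≤ (1 + eps) * (1 - eps / 4) := by nlinarith
  exact le_of_mul_le_mul_right (h6.trans h7) (by linarith)

/-- NF-RC3 (RealCount.lean) -/
theorem real_count (K : Type) [Field K] [NumberField K] (n d : ℕ) (hn : 1 ≤ n) (hd : 1 ≤ d)
    (eps bet k0 : ℝ) (he : 0 < eps) (he1 : eps ≤ 1 / 10) (hb0 : 0 < bet) (hb1 : bet ≤ 1)
    (hk0 : 0 < k0) (hk1 : k0 ≤ 1) :
    ∃ kap : ℝ, 0 < kap ∧ kap ≤ kmax K n k0 ∧ ∃ rho0 : ℝ, 0 < rho0 ∧ rho0 ≤ 1 ∧
      ∀ rho : ℝ, 0 < rho → rho ≤ rho0 →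
      ∀ (Ainf : Idx n d → IK K → ℝ) (xi : Fin (n + 1) → IK K → ℝ) (h : Fin (n + 1) → ℤ),
      (∀ t j, |Ainf t j| ≤ 1) → (∀ i w, ‖lam (xi i) w‖ ≤ 1) → (∀ w, ∃ i, ‖lam (xi i) w‖ = 1) →
      h 0 = 1 → (∀ i, |h i| ≤ hb n (mK K)) →
      (∀ w, ‖F (fun t => lam (Ainf t) w) (fun i => lam (xi i) w)‖ ≤ rho0) →
      (∀ w, bet * k0 ≤ ‖Dh (fun t => lam (Ainf t) w) (fun i => lam (xi i) w) h‖) →
      RC Ainf xi h kap rho eps := by
  obtain ⟨e, hedef⟩ : ∃ e : ℝ, e = eps / (4 * ((n : ℝ) + 1)) := ⟨_, rfl⟩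
  have hnum1 := num_lower' n eps e he he1 hedef
  have hnum2 := num_upper' n eps e he he1 hedef
  have hepos : 0 < e := by rw [hedef]; positivity
  have hele : e ≤ 1 := by
    rw [hedef, div_le_one (by positivity)]
    have : (0 : ℝ) ≤ n := Nat.cast_nonneg n
    nlinarith
  obtain ⟨del, hdel, hdel4, hline⟩ := line_count K e hepos hele
  obtain ⟨kap1, hkap1, hnear⟩ := near_linear K n d del bet k0 hdel hb0 hk0
  have hcK : 0 < cK K := cK_pos
  have hkm : 0 < kmax K n k0 := by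
    unfold kmax
    positivity
  obtain ⟨kap, hkapdef⟩ : ∃ kap : ℝ, kap = min kap1 (kmax K n k0) := ⟨_, rfl⟩
  have hkap : 0 < kap := by rw [hkapdef]; positivity
  obtain ⟨rho0, hrho0, hrho1, hnear2⟩ := hnear kap hkap (by rw [hkapdef]; exact min_le_left _ _)
  refine ⟨kap, hkap, by rw [hkapdef]; exact min_le_right _ _, rho0, hrho0, hrho1, ?_⟩
  intro rho hrho hrhole Ainf xi h hA hxi hxi1 hh0 hhle hF hD th hth hth4 b hb
  set g : InfinitePlace K → ℂ := fun w => Dh (fun t => lam (Ainf t) w) (fun i => lam (xi i) w) h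
    with hg
  have hgR : RV g := RV_Dh (A := fun t w => lam (Ainf t) w) (x := fun i w => lam (xi i) w)
    (fun _ => RV_lam _) (fun _ => RV_lam _) h
  have hg0 : ∀ w, g w ≠ 0 := by
    intro w hw
    have h1 := hD w
    have h2 : ‖g w‖ = 0 := by rw [hw, norm_zero]
    have h3 : 0 < bet * k0 := mul_pos hb0 hk0
    have h4 : bet * k0 ≤ ‖g w‖ := h1
    linarith
  obtain ⟨B1, hB1⟩ := hline kap hkap th hth hth4 b hb
  obtain ⟨R0, hR0, hcube⟩ := cube_count (K := K) b hb e hepos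
  refine ⟨B1 + ⌈R0 / kap ^ 2⌉₊ + 1, ?_⟩
  intro B hB H hH A hAnear r
  have hBpos : 0 < B := by omega
  have hB' : (0 : ℝ) < B := by exact_mod_cast hBpos
  have hBR : R0 ≤ kap ^ 2 * B := by
    have h1 : R0 / kap ^ 2 ≤ (B : ℝ) := by
      refine (Nat.le_ceil _).trans ?_
      have : ⌈R0 / kap ^ 2⌉₊ ≤ B := by omega
      exact_mod_cast this
    rw [div_le_iff₀ (by positivity)] at h1
    linarith
  have hNb : (0 : ℝ) < Ideal.absNorm b := by exact_mod_cast absNorm_pos hb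
  -- the shifts
  obtain ⟨X, hX⟩ : ∃ X : ℝ, X = (2 * (kap ^ 2 * B)) ^ mK K / (Ideal.absNorm b : ℝ) := ⟨_, rfl⟩
  have hXpos : 0 ≤ X := by rw [hX]; positivity
  obtain ⟨hTf, hTl, hTu⟩ := rc_pi_bounds n (TS xi h kap B b r)
    (fun k => (hcube (kap ^ 2 * B) hBR (fun j => B * (xi k.succ j - h k.succ * xi 0 j))
      (r k.succ - (h k.succ : 𝓞 K) * r 0)).1) ((1 - e) * X) ((1 + e) * X)
    (mul_nonneg (by linarith) hXpos) (fun k => by
      rw [hX]
      exact (hcube (kap ^ 2 * B) hBR (fun j => B * (xi k.succ j - h k.succ * xi 0 j))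
        (r k.succ - (h k.succ : 𝓞 K) * r 0)).2)
  -- the fibres
  obtain ⟨Y, hY⟩ : ∃ Y : ℝ, Y = (2 * th * B) ^ mK K / (Ideal.absNorm b : ℝ) := ⟨_, rfl⟩
  have hYpos : 0 ≤ Y := by rw [hY]; positivity
  set S := {x : Fin (n + 1) → 𝓞 K | x ∈ Reg xi h kap B ∧ (∀ i, x i - r i ∈ b) ∧
          VIn g (th * H * (B : ℝ) ^ d) (F A x)} with hS
  have hfib : ∀ t : Fin n → 𝓞 K, (∀ k, t k ∈ TS xi h kap B b r k) →
      {x | x ∈ S ∧ sh h x = t} = (fun a : 𝓞 K => pt h a t) ''
        {a : 𝓞 K | a - r 0 ∈ b ∧ (∀ j, |(crd a j : ℝ) - B * xi 0 j| ≤ kap * B) ∧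
          ∃ v : IK K → ℝ, (∀ j, |v j| ≤ th) ∧
            ∀ w, ph A H xi h B t w (sg w a / B - lam (xi 0) w) = g w * lam v w} := by
    intro t ht
    ext x
    constructor
    · rintro ⟨⟨hx1, hx2, hx3⟩, rfl⟩
      have hx := pt_sh h x
      rw [← hx] at hx3
      have h1 : pt h (x 0) (sh h x) ∈ Reg xi h kap B ∧
          ∀ i, pt h (x 0) (sh h x) i - r i ∈ b := by
        rw [hx]
        exact ⟨hx1, hx2⟩
      have h2 := (mem_iff xi h kap B b r (x 0) (sh h x)).mp h1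
      refine ⟨x 0, ⟨h2.1.1, h2.1.2, ?_⟩, hx⟩
      exact (vin_iff g A H hH xi h hh0 B hBpos (sh h x) (x 0) th).mp hx3
    · rintro ⟨a, ⟨ha1, ha2, ha3⟩, rfl⟩
      have h1 := (mem_iff xi h kap B b r a t).mpr ⟨⟨ha1, ha2⟩, ht⟩
      refine ⟨⟨h1.1, h1.2, ?_⟩, sh_pt h a t⟩
      exact (vin_iff g A H hH xi h hh0 B hBpos t a th).mpr ha3
  have hAw : ∀ (w : InfinitePlace K) (m : Idx n d), ‖sg w (A m) / H - lam (Ainf m) w‖ ≤
      3 * cK K * rho := by
    intro w m
    have h1 : sg w (A m) / H - lam (Ainf m) w =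
        lam (fun j => (crd (A m) j : ℝ) / H - Ainf m j) w := by
      rw [lam_sub (fun j => (crd (A m) j : ℝ) / H) (Ainf m), lam_div, lam_crd]
    rw [h1]
    refine (norm_lam_le _ (3 * rho) (fun j => ?_) w).trans (le_of_eq (by ring))
    have h2 : (crd (A m) j : ℝ) / H - Ainf m j = ((crd (A m) j : ℝ) - H * Ainf m j) / H := by
      field_simp
    rw [h2, abs_div, abs_of_pos hH, div_le_iff₀ hH]
    exact hAnear m j
  have hcount : ∀ t : Fin n → 𝓞 K, t ∈ {y : Fin n → 𝓞 K | ∀ k, y k ∈ TS xi h kap B b r k} →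
      (1 - e) * Y ≤ (Set.ncard {x | x ∈ S ∧ sh h x = t} : ℝ) ∧
      (Set.ncard {x | x ∈ S ∧ sh h x = t} : ℝ) ≤ (1 + e) * Y := by
    intro t ht
    rw [hfib t ht, Set.ncard_image_of_injective _ (pt_injective h t), hY]
    have hze : ∀ (w : InfinitePlace K) (i : Fin (n + 1)), ‖ze xi h B t w i‖ ≤
        cK K * kap ^ 2 := by
      intro w i
      unfold ze
      refine Fin.cases ?_ (fun k => ?_) i
      · rw [Fin.cons_zero, norm_zero]
        positivity
      · rw [Fin.cons_succ]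
        refine norm_lam_le _ (kap ^ 2) (fun j => ?_) w
        have h1 := (ht k).2 j
        have h2 : (crd (t k) j : ℝ) / B - (xi k.succ j - h k.succ * xi 0 j) =
            ((crd (t k) j : ℝ) - B * (xi k.succ j - h k.succ * xi 0 j)) / B := by
          field_simp
        rw [h2, abs_div, abs_of_pos hB', div_le_iff₀ hB']
        exact h1
    refine hB1 B (by omega) g (ph A H xi h B t) hgR hg0 (fun w hw z =>
      ph_conj A H xi h B t w hw z) ?_ ?_ (xi 0) (r 0)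
    · intro w z z' hz hz'
      exact (hnear2 rho hrho hrhole Ainf xi h hA hxi hhle hF hD w (fun m => sg w (A m) / H)
        (hAw w) (ze xi h B t w) (hze w)).1 z z' hz hz'
    · intro w
      have h1 := (hnear2 rho hrho hrhole Ainf xi h hA hxi hhle hF hD w (fun m => sg w (A m) / H)
        (hAw w) (ze xi h B t w) (hze w)).2
      unfold ph
      have h2 : (fun i => lam (xi i) w + 0 * (h i : ℂ) + ze xi h B t w i) =
          fun i => lam (xi i) w + ze xi h B t w i := by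
        funext i
        ring
      rw [h2]
      exact h1
  -- finiteness
  have hmap : ∀ x ∈ S, sh h x ∈ {y : Fin n → 𝓞 K | ∀ k, y k ∈ TS xi h kap B b r k} := by
    rintro x ⟨hx1, hx2, hx3⟩
    have h1 : pt h (x 0) (sh h x) ∈ Reg xi h kap B ∧
        ∀ i, pt h (x 0) (sh h x) i - r i ∈ b := by
      rw [pt_sh]
      exact ⟨hx1, hx2⟩
    exact ((mem_iff xi h kap B b r (x 0) (sh h x)).mp h1).2
  have hSf : S.Finite := by
    have h1 := (cube_finite (K := K) (fun j => B * xi 0 j) (kap * B)).prod hTf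
    refine Set.Finite.of_finite_image (f := fun x : Fin (n + 1) → 𝓞 K => (x 0, sh h x))
      (h1.subset ?_) ?_
    · rintro _ ⟨x, hx, rfl⟩
      exact ⟨hx.1.1, hmap x hx⟩
    · intro x _ y _ hxy
      have h2 := congrArg Prod.fst hxy
      have h3 := congrArg Prod.snd hxy
      have h2' : x 0 = y 0 := h2
      have h3' : sh h x = sh h y := h3
      rw [← pt_sh h x, ← pt_sh h y, h2', h3']
  have hfinal := ncard_fiber_bounds S hSf (sh h) _ hTf hmap _ _ hcount
  have hVol : Vol K n kap th B / (Ideal.absNorm b : ℝ) ^ (n + 1) = X ^ n * Y := by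
    rw [hX, hY]
    unfold Vol
    have h1 : 2 * (kap ^ 2 * (B : ℝ)) = 2 * kap ^ 2 * B := by ring
    rw [h1, div_pow, pow_succ (Ideal.absNorm b : ℝ) n, pow_mul, div_mul_div_comm]
  rw [mul_div_assoc, mul_div_assoc, hVol]
  have hXY : 0 ≤ X ^ n * Y := by positivity
  constructor
  · refine le_trans ?_ hfinal.1
    have h1 : (1 - e) * Y * ((1 - e) * X) ^ n ≤
        (1 - e) * Y * (Set.ncard {y : Fin n → 𝓞 K | ∀ k, y k ∈ TS xi h kap B b r k} : ℝ) :=
      mul_le_mul_of_nonneg_left hTl (mul_nonneg (by linarith) hYpos)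
    refine le_trans ?_ h1
    have h2 : (1 - e) * Y * ((1 - e) * X) ^ n = (1 - e) ^ (n + 1) * (X ^ n * Y) := by
      rw [mul_pow, pow_succ]
      ring
    rw [h2]
    exact mul_le_mul_of_nonneg_right hnum1 hXY
  · refine hfinal.2.trans ?_
    have h1 : (1 + e) * Y * (Set.ncard {y : Fin n → 𝓞 K | ∀ k, y k ∈ TS xi h kap B b r k} : ℝ) ≤
        (1 + e) * Y * ((1 + e) * X) ^ n :=
      mul_le_mul_of_nonneg_left hTu (mul_nonneg (by linarith) hYpos)
    refine h1.trans ?_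
    have h2 : (1 + e) * Y * ((1 + e) * X) ^ n = (1 + e) ^ (n + 1) * (X ^ n * Y) := by
      rw [mul_pow, pow_succ]
      ring
    rw [h2]
    exact mul_le_mul_of_nonneg_right hnum2 hXY

end NFHP
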