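import Pool.Agent.Lib.MP_e426f4_ag.N.SecondMoment
import Pool.Agent.Lib.MP_e426f4_ag.N.Dir
import Pool.Agent.Lib.MP_e426f4_ag.N.RealCount
import Pool.Agent.Lib.MP_e426f4_ag.N.Level
import Pool.Agent.Lib.MP_e426f4_ag.N.HensLocal
import Pool.Agent.Lib.MP_e426f4_ag.N.Ideals

/-! Module NF-CT2: the class theorem. -/

set_option linter.unusedSectionVars false
set_option linter.unusedVariables false

namespace NFHP

open NumberField GenHP Finset Filter Topology

variable {K : Type} [Field K] [NumberField K] {n d : ℕ}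

theorem class_thm (K : Type) [Field K] [NumberField K] (n d : ℕ) (hn : 3 ≤ n) (hd : 2 ≤ d)
    (hdn : d ≤ n) (eps : ℝ) (he : 0 < eps) :
    ∃ w1 : ℕ, ∀ w : ℕ, w1 ≤ w → 2 ≤ w → ∀ bet : ℝ, 0 < bet → bet ≤ 1 →
    ∃ rho0 : ℝ, 0 < rho0 ∧ rho0 ≤ 1 ∧ ∀ rho : ℝ, 0 < rho → rho ≤ rho0 → ∀ k : ℕ, 1 ≤ k →
      ∀ A0 : Idx n d → 𝓞 K,
      (∀ P : Ideal (𝓞 K), P.IsMaximal → (primorial w : 𝓞 K) ∈ P →
        GoodP P (k * vW (primorial w) P) A0) →
      ∀ (AC Ainf : Idx n d → IK K → ℝ), (∀ t j, |Ainf t j| ≤ 1) →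
      (∀ t j, |AC t j - Ainf t j| ≤ rho) →
      (∀ w', GoodI w' rho0 bet (fun t => lam (Ainf t) w')) →
      ∀ᶠ H : ℝ in atTop,
        (Set.ncard {A : Idx n d → 𝓞 K | (∀ t j, |(crd (A t) j : ℝ) - H * AC t j| ≤ rho * H) ∧
          (∀ t, (((primorial w) ^ (2 * k) : ℕ) : 𝓞 K) ∣ A t - A0 t) ∧ ¬ Soluble A} : ℝ) ≤
          eps * (2 * rho * H / ((primorial w : ℝ)) ^ (2 * k)) ^ (mK K * NN n d) := by
  obtain ⟨G, hG, hGS⟩ := ideal_tail K (eps / 20) (by positivity)
  refine ⟨G, fun w hGw hw bet hb hb1 => ?_⟩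
  have hE : ∀ S : Finset (Ideal (𝓞 K)), (∀ I ∈ S, w < Ideal.absNorm I) →
      ∑ I ∈ S, 1 / (Ideal.absNorm I : ℝ) ^ 2 ≤ eps / 20 := fun S hS =>
    hGS S fun I hI => lt_of_le_of_lt hGw (hS I hI)
  set e1 : ℝ := min (1 / 10) (eps / 200) with he1
  have he10 : 0 < e1 := lt_min (by norm_num) (by positivity)
  have he11 : e1 ≤ 1 / 10 := min_le_left _ _
  have he12 : e1 ≤ eps / 200 := min_le_right _ _
  obtain ⟨v0, hv0, hv1, hdir⟩ := exists_dir n (mK K) mK_pos
  obtain ⟨kap, hkap, hkap1, rho0, hrho0, hrho01, hRC⟩ :=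
    real_count K n d (by omega) (by omega) e1 bet v0 he10 he11 hb hb1 hv0 hv1
  refine ⟨rho0, hrho0, hrho01, fun rho hrho hrho' k hk A0 hloc AC Ainf hA hAC hI => ?_⟩
  obtain ⟨P, x0, hP, hH⟩ := hens_of_local (by omega) w k hw hk A0 hloc
  -- the points at the infinite places
  choose z hz hzF hzD using hI
  have hRVz : ∀ i, RV fun w' => z w' i := fun i w' hw' => (hz w').1 hw' i
  choose xi hxi using fun i => exists_lam (hRVz i)
  have hxi' : ∀ w', (fun i => lam (xi i) w') = z w' := fun w' => funext fun i => hxi i w'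
  obtain ⟨h, hh0, hhle, hhge⟩ := hdir (InfinitePlace K) card_places_le
    (fun w' i => D (fun t => lam (Ainf t) w') (fun i => lam (xi i) w') i) bet hb.le (fun w' => by
      obtain ⟨j, hj⟩ := hzD w'
      exact ⟨j, by simpa only [hxi'] using hj⟩)
  obtain ⟨u, hu0, hule, huge⟩ := hdir (InfinitePlace K) card_places_le
    (fun w' i => lam (xi i) w') 1 zero_le_one (fun w' => by
      obtain ⟨j, hj⟩ := (hz w').2.2
      exact ⟨j, by rw [hxi, hj]⟩)
  have hxile : ∀ i w', ‖lam (xi i) w'‖ ≤ 1 := fun i w' => by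
    rw [hxi]
    exact (hz w').2.1 i
  have hxieq : ∀ w', ∃ i, ‖lam (xi i) w'‖ = 1 := fun w' => by
    obtain ⟨j, hj⟩ := (hz w').2.2
    exact ⟨j, by rw [hxi, hj]⟩
  have hFle : ∀ w', ‖F (fun t => lam (Ainf t) w') (fun i => lam (xi i) w')‖ ≤ rho0 := fun w' => by
    rw [hxi']
    exact hzF w'
  have hDge : ∀ w', bet * v0 ≤ ‖Dh (fun t => lam (Ainf t) w') (fun i => lam (xi i) w') h‖ :=
    fun w' => hhge w'
  have hRVg : RV fun w' => Dh (fun t => lam (Ainf t) w') (fun i => lam (xi i) w') h :=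
    RV_Dh (A := fun t w' => lam (Ainf t) w') (x := fun i w' => lam (xi i) w')
      (fun _ => RV_lam _) (fun _ => RV_lam _) h
  have hg0 : ∀ w', Dh (fun t => lam (Ainf t) w') (fun i => lam (xi i) w') h ≠ 0 := fun w' h0 => by
    have h1 := hDge w'
    rw [h0, norm_zero] at h1
    have h2 : 0 < bet * v0 := mul_pos hb hv0
    linarith
  obtain ⟨vg, hvg, hvglim⟩ := exists_vg _ hRVg hg0
  set p : Par K n d := ⟨Ainf, AC, xi, h, u, kap, rho, vg, primorial w, primorial w ^ (2 * k), P,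
    A0, x0⟩ with hpdef
  have hWp : 0 < primorial w := primorial_pos w
  have hvalid : p.Valid e1 bet v0 w := by
    refine ⟨hn, hd, hdn, he10, he11, hb, hb1, hv0, hv1, hw, hkap, hkap1, hrho,
      hrho'.trans hrho01, hA, hAC, hxile, hxieq, hh0, hhle, hu0, hule, ?_, hDge,
      hRC rho hrho hrho' Ainf xi h hA hxile hxieq hh0 hhle hFle hDge, hvg, hvglim, hWp, ?_,
      pow_pos hWp _, hP, hH⟩
    · intro w'
      have h1 := huge w'
      rw [one_mul] at h1
      refine h1.trans (le_of_eq ?_)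
      congr 1
      exact Finset.sum_congr rfl fun i _ => mul_comm _ _
    · intro l hl
      show l ∣ primorial w ↔ l ≤ w
      unfold primorial
      rw [Prime.dvd_finsetProd_iff hl.prime]
      constructor
      · rintro ⟨q, hq, hlq⟩
        rw [Finset.mem_filter, Finset.mem_range] at hq
        rw [Nat.prime_dvd_prime_iff_eq hl hq.2] at hlq
        omega
      · intro hlw
        exact ⟨l, Finset.mem_filter.mpr ⟨Finset.mem_range.mpr (by omega), hl⟩, dvd_rfl⟩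
  have hsm := second_moment p hvalid (eps / 20) hE
  filter_upwards [hsm, Filter.eventually_ge_atTop 0] with H hH hH0
  have e1 : {A : Idx n d → 𝓞 K | (∀ t j, |(crd (A t) j : ℝ) - H * AC t j| ≤ rho * H) ∧
          (∀ t, (((primorial w) ^ (2 * k) : ℕ) : 𝓞 K) ∣ A t - A0 t) ∧ ¬ Soluble A} =
      {A | A ∈ p.Cl p.rho H ∧ ¬ Soluble A} := by
    ext A
    simp only [Par.Cl, hpdef, ← and_assoc]
    rfl
  rw [e1]
  refine hH.trans ?_
  have e2 : p.XR p.rho H =
      (2 * rho * H / ((primorial w : ℝ)) ^ (2 * k)) ^ (mK K * NN n d) := by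
    unfold Par.XR
    rw [hpdef]
    push_cast
    rfl
  rw [e2]
  refine mul_le_mul_of_nonneg_right ?_ (by positivity)
  linarith

end NFHP
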