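import Pool.Agent.Lib.MP_e426f4_ag.N.Lat

/-! A shortest orthogonal vector has small content. -/

set_option linter.unusedSectionVars false

namespace NFHP

open NumberField GenHP Finset Filter Topology

variable {K : Type} [Field K] [NumberField K] {n d : ℕ}

private theorem ct_span_mul {ι : Type*} (a : 𝓞 K) (l : ι → 𝓞 K) :
    Ideal.span {a} * Ideal.span (Set.range l) = Ideal.span (Set.range fun i => a * l i) := by
  rw [Ideal.span_mul_span', Set.singleton_mul, ← Set.range_comp]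
  rfl

private theorem ct_norm_nat (N : ℕ) : Ideal.absNorm (Ideal.span {(N : 𝓞 K)}) = N ^ mK K := by
  rw [Ideal.absNorm_span_singleton]
  have h : (Algebra.norm ℤ (N : 𝓞 K)) = (N : ℤ) ^ mK K := by
    have h1 := Algebra.norm_algebraMap_of_basis (RingOfIntegers.basis K) (N : ℤ)
    rw [card_IK] at h1
    have h2 : (algebraMap ℤ (𝓞 K)) (N : ℤ) = (N : 𝓞 K) := by simp
    rw [h2] at h1
    exact h1
  rw [h, Int.natAbs_pow, Int.natAbs_natCast]

/-- if the content is large then the vector can be made shorter -/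
private theorem ct_step (c : ℝ) (hc : 0 < c)
    (hlow : ∀ I : Ideal (𝓞 K), I ≠ ⊥ → ∀ X : InfinitePlace K → ℝ, (∀ w, 0 < X w) →
      c * (np X / Ideal.absNorm I) ≤
        (Set.ncard {a : 𝓞 K | a ∈ I ∧ ∀ w, ‖sg w a‖ ≤ X w} : ℝ))
    (x : Fin (n + 1) → 𝓞 K) (Y : ℝ) (l : Fin (n + 1) → 𝓞 K) (hl : l ≠ 0)
    (hY : ∀ i w, ‖sg w (l i)‖ ≤ Y) (hx : ∑ i, l i * x i = 0)
    (hN : 2 ^ mK K / c < (Ideal.absNorm (Ideal.span (Set.range l)) : ℝ)) :
    ∃ l' : Fin (n + 1) → 𝓞 K, l' ≠ 0 ∧ (∀ i w, ‖sg w (l' i)‖ ≤ Y) ∧ ∑ i, l' i * x i = 0 ∧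
      Ideal.absNorm (Ideal.span (Set.range l')) < Ideal.absNorm (Ideal.span (Set.range l)) := by
  set cc : Ideal (𝓞 K) := Ideal.span (Set.range l) with hcc
  set N : ℕ := Ideal.absNorm cc with hNd
  have hN0 : (0 : ℝ) < N := lt_trans (by positivity) hN
  have hN0' : 0 < N := by exact_mod_cast hN0
  have hNne : (N : 𝓞 K) ≠ 0 := by exact_mod_cast hN0'.ne'
  have hmem : (N : 𝓞 K) ∈ cc := Ideal.absNorm_mem cc
  obtain ⟨b, hb⟩ : cc ∣ Ideal.span {(N : 𝓞 K)} := by
    rw [Ideal.dvd_span_singleton]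
    exact hmem
  have hbN : N * Ideal.absNorm b = N ^ mK K := by
    rw [← ct_norm_nat (K := K) N, hb, map_mul]
  have hb0 : Ideal.absNorm b ≠ 0 := by
    intro h
    rw [h, mul_zero] at hbN
    exact (pow_pos hN0' _).ne hbN
  have hbne : b ≠ ⊥ := fun h => hb0 (by rw [h, Ideal.absNorm_bot])
  have hbpos : (0 : ℝ) < Ideal.absNorm b := by exact_mod_cast Nat.pos_of_ne_zero hb0
  have h1 := hlow b hbne (fun _ => (N : ℝ) / 2) fun _ => by positivity
  have h2 : np (fun _ : InfinitePlace K => (N : ℝ) / 2) / Ideal.absNorm b = N / 2 ^ mK K := by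
    rw [np_const, div_pow]
    have : (N : ℝ) ^ mK K = N * Ideal.absNorm b := by exact_mod_cast hbN.symm
    rw [this]
    field_simp
  rw [h2] at h1
  have h3 : 1 < Set.ncard {a : 𝓞 K | a ∈ b ∧ ∀ w, ‖sg w a‖ ≤ (N : ℝ) / 2} := by
    have h4 : 1 < c * ((N : ℝ) / 2 ^ mK K) := by
      rw [div_lt_iff₀ hc] at hN
      rw [← mul_div_assoc, lt_div_iff₀ (by positivity)]
      linarith
    have h5 := h4.trans_le h1
    exact_mod_cast h5
  obtain ⟨β, hβ, hβ0⟩ := Set.exists_ne_of_one_lt_ncard h3 0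
  have h6 : ∀ i, ∃ t : 𝓞 K, β * l i = N * t := by
    intro i
    have h7 : l i * β ∈ cc * b := Ideal.mul_mem_mul (Ideal.subset_span ⟨i, rfl⟩) hβ.1
    rw [← hb, Ideal.mem_span_singleton] at h7
    obtain ⟨t, ht⟩ := h7
    exact ⟨t, by rw [mul_comm, ht]⟩
  choose l' hl' using h6
  refine ⟨l', ?_, ?_, ?_, ?_⟩
  · intro h0
    apply hl
    funext i
    have h7 := hl' i
    rw [h0] at h7
    simp only [Pi.zero_apply, mul_zero, mul_eq_zero] at h7
    rcases h7 with h8 | h8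
    · exact absurd h8 hβ0
    · exact h8
  · intro i w
    have h7 : ‖sg w β‖ * ‖sg w (l i)‖ = N * ‖sg w (l' i)‖ := by
      rw [← norm_mul, ← map_mul, hl' i, map_mul, norm_mul, sg_natCast, Complex.norm_natCast]
    have h8 := hβ.2 w
    have h9 := hY i w
    have h10 := norm_nonneg (sg w (l i))
    have h11 : N * ‖sg w (l' i)‖ ≤ N * Y := by
      rw [← h7]
      nlinarith [norm_nonneg (sg w β)]
    exact le_of_mul_le_mul_left h11 hN0
  · have h7 : (N : 𝓞 K) * ∑ i, l' i * x i = β * ∑ i, l i * x i := by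
      rw [Finset.mul_sum, Finset.mul_sum]
      refine Finset.sum_congr rfl fun i _ => ?_
      rw [← mul_assoc, ← hl' i, mul_assoc]
    rw [hx, mul_zero, mul_eq_zero] at h7
    exact h7.resolve_left hNne
  · have h7 : Ideal.span {(N : 𝓞 K)} * Ideal.span (Set.range l') = Ideal.span {β} * cc := by
      rw [ct_span_mul, hcc, ct_span_mul]
      congr 2
      funext i
      exact (hl' i).symm
    have h8 : N ^ mK K * Ideal.absNorm (Ideal.span (Set.range l')) =
        Ideal.absNorm (Ideal.span {β}) * N := by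
      rw [← ct_norm_nat (K := K) N, ← map_mul, h7, map_mul]
    have h9 : (Ideal.absNorm (Ideal.span {β}) : ℝ) ≤ ((N : ℝ) / 2) ^ mK K := by
      rw [Ideal.absNorm_span_singleton, Nat.cast_natAbs, Int.cast_abs, ← np_sg, ← np_const]
      exact np_mono (fun _ => norm_nonneg _) hβ.2
    have h10 : ((N : ℝ) / 2) ^ mK K < (N : ℝ) ^ mK K :=
      pow_lt_pow_left₀ (by linarith) (by positivity) mK_pos.ne'
    have h11 : Ideal.absNorm (Ideal.span {β}) < N ^ mK K := by
      have := h9.trans_lt h10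
      exact_mod_cast this
    have h12 : N ^ mK K * Ideal.absNorm (Ideal.span (Set.range l')) < N ^ mK K * N := by
      rw [h8]
      exact Nat.mul_lt_mul_of_pos_right h11 hN0'
    exact Nat.lt_of_mul_lt_mul_left h12

/-- NF-NG2a: a shortest orthogonal vector has small content -/
theorem exists_small_content (K : Type) [Field K] [NumberField K] : ∃ C0 : ℕ, 1 ≤ C0 ∧
    ∀ (n : ℕ) (x : Fin (n + 1) → 𝓞 K) (Y : ℝ),
    (∃ l : Fin (n + 1) → 𝓞 K, l ≠ 0 ∧ (∀ i w, ‖sg w (l i)‖ ≤ Y) ∧ ∑ i, l i * x i = 0) →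
    ∃ l : Fin (n + 1) → 𝓞 K, l ≠ 0 ∧ (∀ i w, ‖sg w (l i)‖ ≤ Y) ∧ ∑ i, l i * x i = 0 ∧
      Ideal.absNorm (Ideal.span (Set.range l)) ≤ C0 := by
  obtain ⟨c, hc, hlow⟩ := lat_lower K
  refine ⟨⌈2 ^ mK K / c⌉₊ + 1, by omega, fun n x Y => ?_⟩
  rintro ⟨l, hl, hY, hx⟩
  induction hN : Ideal.absNorm (Ideal.span (Set.range l)) using Nat.strong_induction_on
    generalizing l with
  | _ N ih =>
    by_cases h : Ideal.absNorm (Ideal.span (Set.range l)) ≤ ⌈2 ^ mK K / c⌉₊ + 1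
    · exact ⟨l, hl, hY, hx, h⟩
    · have h1 : 2 ^ mK K / c < (Ideal.absNorm (Ideal.span (Set.range l)) : ℝ) := by
        have h2 := Nat.le_ceil (2 ^ mK K / c)
        have h3 : (⌈2 ^ mK K / c⌉₊ : ℝ) < (Ideal.absNorm (Ideal.span (Set.range l)) : ℝ) := by
          have : ⌈2 ^ mK K / c⌉₊ < Ideal.absNorm (Ideal.span (Set.range l)) := by omega
          exact_mod_cast this
        linarith
      obtain ⟨l', hl', hY', hx', hlt⟩ := ct_step c hc hlow x Y l hl hY hx h1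
      rw [hN] at hlt
      exact ih _ hlt l' hl' hY' hx' rfl

end NFHP
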