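import Pool.Agent.Lib.MP_e426f4_ag.N.Defs

/-! Control of a subspace by few coordinates (module NF-NG0). -/

namespace NFHP

open Finset Filter Topology

private theorem ccC_step {ι : Type*} [Fintype ι] [DecidableEq ι] (U : Submodule ℂ (ι → ℂ))
    (J : Finset ι) (hJ : Module.finrank ℂ U < J.card) :
    ∃ i ∈ J, ∀ u ∈ U, ∀ M : ℝ, 0 ≤ M → (∀ j ∈ J.erase i, ‖u j‖ ≤ M) →
      ‖u i‖ ≤ (Fintype.card ι : ℝ) * M := by
  classical
  set v : J → Module.Dual ℂ U := fun j => (LinearMap.proj (j : ι)).comp U.subtype with hv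
  have hdep : ¬ LinearIndependent ℂ v := by
    intro h
    have h1 := h.fintype_card_le_finrank
    rw [Subspace.dual_finrank_eq, Fintype.card_coe] at h1
    omega
  rw [Fintype.not_linearIndependent_iff] at hdep
  obtain ⟨g, hg, j0, hj0⟩ := hdep
  obtain ⟨i, -, hi⟩ := Finset.exists_max_image (univ : Finset J) (fun j => ‖g j‖)
    ⟨j0, mem_univ _⟩
  have hgi : 0 < ‖g i‖ := (norm_pos_iff.2 hj0).trans_le (hi j0 (mem_univ _))
  refine ⟨i, i.2, ?_⟩
  intro u hu M hM hb
  have h1 : ∑ j : J, g j * u j = 0 := by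
    have h2 := congrArg (fun f : Module.Dual ℂ U => f ⟨u, hu⟩) hg
    simpa [hv] using h2
  have h3 : g i * u i = -∑ j ∈ (univ : Finset J).erase i, g j * u j := by
    rw [← Finset.add_sum_erase univ (fun j : J => g j * u j) (mem_univ i)] at h1
    linear_combination h1
  have h4 : ‖g i‖ * ‖u i‖ ≤ ‖g i‖ * ((Fintype.card ι : ℝ) * M) := by
    calc ‖g i‖ * ‖u i‖ = ‖g i * u i‖ := (norm_mul _ _).symm
      _ = ‖∑ j ∈ (univ : Finset J).erase i, g j * u j‖ := by rw [h3, norm_neg]
      _ ≤ ∑ j ∈ (univ : Finset J).erase i, ‖g j * u j‖ := norm_sum_le _ _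
      _ ≤ ∑ j ∈ (univ : Finset J).erase i, ‖g i‖ * M := by
          refine Finset.sum_le_sum fun j hj => ?_
          rw [norm_mul]
          refine mul_le_mul (hi j (mem_univ _)) (hb j ?_) (norm_nonneg _) (norm_nonneg _)
          rw [Finset.mem_erase]
          refine ⟨fun h => (Finset.mem_erase.1 hj).1 (Subtype.ext h), j.2⟩
      _ = (((univ : Finset J).erase i).card : ℝ) * (‖g i‖ * M) := by
          rw [Finset.sum_const, nsmul_eq_mul]
      _ ≤ (Fintype.card ι : ℝ) * (‖g i‖ * M) := by
          refine mul_le_mul_of_nonneg_right ?_ (by positivity)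
          have h5 : ((univ : Finset J).erase i).card ≤ Fintype.card ι := by
            calc ((univ : Finset J).erase i).card ≤ (univ : Finset J).card :=
                  Finset.card_le_card (Finset.erase_subset _ _)
              _ = J.card := by rw [Finset.card_univ, Fintype.card_coe]
              _ ≤ Fintype.card ι := Finset.card_le_univ J
          exact_mod_cast h5
      _ = ‖g i‖ * ((Fintype.card ι : ℝ) * M) := by ring
  exact le_of_mul_le_mul_left h4 hgi

/-- NF-NG0 (CoordControlC.lean) -/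
theorem coord_controlC {ι : Type*} [Fintype ι] [DecidableEq ι] (U : Submodule ℂ (ι → ℂ)) :
    ∃ J : Finset ι, J.card ≤ Module.finrank ℂ U ∧
      ∀ u ∈ U, ∀ M : ℝ, 0 ≤ M → (∀ j ∈ J, ‖u j‖ ≤ M) →
        ∀ i, ‖u i‖ ≤ (Fintype.card ι : ℝ) ^ (Fintype.card ι) * M := by
  classical
  rcases isEmpty_or_nonempty ι with hι | hι
  · exact ⟨∅, by simp, fun u _ M _ _ i => (hι.false i).elim⟩
  have hN : 1 ≤ Fintype.card ι := Fintype.card_pos
  have hN1 : (1 : ℝ) ≤ Fintype.card ι := by exact_mod_cast hN
  set N : ℕ := Fintype.card ι with hNdef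
  set r : ℕ := Module.finrank ℂ U with hr
  have hrN : r ≤ N := by
    have h1 := Submodule.finrank_le U
    rwa [Module.finrank_fintype_fun_eq_card] at h1
  have key : ∀ m : ℕ, m ≤ N - r → ∃ J : Finset ι, J.card ≤ N - m ∧
      ∀ u ∈ U, ∀ M : ℝ, 0 ≤ M → (∀ j ∈ J, ‖u j‖ ≤ M) → ∀ i, ‖u i‖ ≤ (N : ℝ) ^ m * M := by
    intro m
    induction m with
    | zero =>
      intro _
      refine ⟨univ, by rw [Finset.card_univ]; omega, ?_⟩
      intro u _ M _ h i
      rw [pow_zero, one_mul]
      exact h i (mem_univ i)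
    | succ m ih =>
      intro hm
      obtain ⟨J, hJ, hb⟩ := ih (by omega)
      by_cases hJ2 : J.card ≤ N - (m + 1)
      · refine ⟨J, hJ2, ?_⟩
        intro u hu M hM h i
        refine (hb u hu M hM h i).trans ?_
        refine mul_le_mul_of_nonneg_right ?_ hM
        exact pow_le_pow_right₀ hN1 (Nat.le_succ m)
      · obtain ⟨i0, hi0, hi0b⟩ := ccC_step U J (by omega)
        refine ⟨J.erase i0, ?_, ?_⟩
        · rw [Finset.card_erase_of_mem hi0]
          omega
        · intro u hu M hM h i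
          have h1 := hi0b u hu M hM h
          have h2 : ∀ j ∈ J, ‖u j‖ ≤ (N : ℝ) * M := by
            intro j hj
            by_cases hji : j = i0
            · rw [hji]
              exact h1
            · refine (h j (Finset.mem_erase.2 ⟨hji, hj⟩)).trans ?_
              nlinarith
          refine (hb u hu (N * M) (by positivity) h2 i).trans (le_of_eq ?_)
          rw [pow_succ]
          ring
  obtain ⟨J, hJ, hb⟩ := key (N - r) le_rfl
  refine ⟨J, by omega, ?_⟩
  intro u hu M hM h i
  refine (hb u hu M hM h i).trans ?_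
  refine mul_le_mul_of_nonneg_right ?_ hM
  exact pow_le_pow_right₀ hN1 (Nat.sub_le _ _)

end NFHP
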