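import Mathlib
import Pool.Agent.Lib.MP_e426f4_ag.G.Defs

/-!
# Forms of degree `d` in `n + 1` variables over the integers of a number field: definitions

`K` is a number field, `𝓞 K` its ring of integers with the integral basis `RingOfIntegers.basis K`.
A form is given by its coefficient vector `A : Idx n d → 𝓞 K`, see `GenHP.F`.
-/

namespace NFHP

open NumberField GenHP Finset Filter Topology

section basic
variable (K : Type) [Field K] [NumberField K]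

/-- Index set of the integral basis. -/
abbrev IK : Type := Module.Free.ChooseBasisIndex ℤ (𝓞 K)

/-- Degree of the number field. -/
noncomputable def mK : ℕ := Module.finrank ℚ K

variable {K}

/-- Coordinates of an integer with respect to the integral basis. -/
noncomputable def crd (a : 𝓞 K) (j : IK K) : ℤ := (RingOfIntegers.basis K).repr a j

/-- The complex embedding belonging to an infinite place. -/
noncomputable def sg (w : InfinitePlace K) : 𝓞 K →+* ℂ := w.embedding.comp (algebraMap (𝓞 K) K)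

/-- The component at the place `w` of the element of `K ⊗ ℝ` with real coordinates `r`. -/
noncomputable def lam (r : IK K → ℝ) (w : InfinitePlace K) : ℂ :=
  ∑ j, (r j : ℂ) * sg w (RingOfIntegers.basis K j)

/-- A family of complex numbers, real at the real places: an element of `K ⊗ ℝ`. -/
def RV (v : InfinitePlace K → ℂ) : Prop := ∀ w : InfinitePlace K, w.IsReal → (v w).im = 0

/-- The normalised product over the infinite places. -/
noncomputable def np (X : InfinitePlace K → ℝ) : ℝ := ∏ w, X w ^ w.mult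

variable {n d : ℕ}

/-- Unimodular vectors of integers. -/
def Prim (x : Fin (n + 1) → 𝓞 K) : Prop := ∃ c : Fin (n + 1) → 𝓞 K, ∑ i, c i * x i = 1

/-- `2 × 2` minors of the pair `x, y`. -/
def minor (x y : Fin (n + 1) → 𝓞 K) (a b : Fin (n + 1)) : 𝓞 K := x a * y b - x b * y a

/-- The ideal generated by the `2 × 2` minors. -/
def mgI (x y : Fin (n + 1) → 𝓞 K) : Ideal (𝓞 K) :=
  Ideal.span (Set.range fun p : Fin (n + 1) × Fin (n + 1) => minor x y p.1 p.2)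

/-- The norm of the ideal generated by the minors. -/
noncomputable def mgN (x y : Fin (n + 1) → 𝓞 K) : ℕ := Ideal.absNorm (mgI x y)

/-- The size of the minors at the place `w`. -/
noncomputable def dl (w : InfinitePlace K) (x y : Fin (n + 1) → 𝓞 K) : ℝ :=
  ∑ p : Fin (n + 1) × Fin (n + 1), ‖sg w (minor x y p.1 p.2)‖

/-- The size of a vector at the place `w`. -/
noncomputable def vn {ι : Type*} [Fintype ι] (w : InfinitePlace K) (z : ι → 𝓞 K) : ℝ :=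
  ∑ i, ‖sg w (z i)‖

/-- `x` is orthogonal to `n` linearly independent integer vectors of size `≤ μ`. -/
def Ortho (μ : ℝ) (x : Fin (n + 1) → 𝓞 K) : Prop :=
  ∃ l : Fin n → Fin (n + 1) → 𝓞 K,
    LinearIndependent K (fun k : Fin n => fun i : Fin (n + 1) => ((l k i : 𝓞 K) : K)) ∧
    (∀ k, ∑ i, l k i * x i = 0) ∧ ∀ k i w, ‖sg w (l k i)‖ ≤ μ

/-- Well-rounded points of size `B`. -/
def Good (R : ℝ) (B : ℕ) (x : Fin (n + 1) → 𝓞 K) : Prop :=
  Ortho (R * (B : ℝ) ^ (1 / (n : ℝ))) x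

/-- Vectors of size at most `X` at all places. -/
def Bx (n : ℕ) (X : ℝ) : Set (Fin (n + 1) → 𝓞 K) := {x | ∀ i w, ‖sg w (x i)‖ ≤ X}

/-- The form has a zero over `K`. -/
def Soluble (A : Idx n d → 𝓞 K) : Prop :=
  ∃ x : Fin (n + 1) → K, x ≠ 0 ∧ F (fun t => ((A t : 𝓞 K) : K)) x = 0

/-- The box of coefficient vectors: all coordinates with respect to the basis are in `[-H, H]`. -/
def BoxK (K : Type) [Field K] [NumberField K] (n d : ℕ) (H : ℝ) : Set (Idx n d → 𝓞 K) :=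
  {A | ∀ t j, |(crd (A t) j : ℝ)| ≤ H}

end basic

/-! ### Constants -/

section const
variable (K : Type) [Field K] [NumberField K]

/-- Properties of the constant which compares the norms. -/
def CKprop (c : ℝ) : Prop :=
  1 ≤ c ∧
  (∀ (r : IK K → ℝ) (R : ℝ), (∀ j, |r j| ≤ R) → ∀ w, ‖lam r w‖ ≤ c * R) ∧
  (∀ (r : IK K → ℝ) (R : ℝ), (∀ w, ‖lam r w‖ ≤ R) → ∀ j, |r j| ≤ c * R) ∧
  (∀ v : InfinitePlace K → ℂ, RV v → ∃ r : IK K → ℝ, ∀ w, lam r w = v w) ∧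
  (∀ v : InfinitePlace K → ℂ, RV v → ∃ a : 𝓞 K, ∀ w, ‖sg w a - v w‖ ≤ c)

open Classical in
/-- The constant which compares the norms. -/
noncomputable def cK : ℝ := if h : ∃ c : ℝ, CKprop K c then h.choose else 1

/-- Constant of the translation by one vector. -/
noncomputable def c1 (n d : ℕ) : ℝ := cK K * ((n : ℝ) * ((n : ℝ) + 1) ^ (d - 1) * ((n : ℝ) + 1))

/-- Constant of the translation by a vector for two points. -/
noncomputable def c2 (n d : ℕ) : ℝ :=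
  cK K * ((n : ℝ) * (n : ℝ) * ((n : ℝ) + 1) ^ (d - 2) * ((n : ℝ) + 1) ^ 2)

/-- Constant of the real part of the translation for two points. -/
noncomputable def c3 (n d : ℕ) : ℝ := 2 ^ (d + 3) * ((n : ℝ) + 1) ^ 2

/-- Bound for the coordinates of the integral directions. -/
def hb (n M : ℕ) : ℕ := (M * n + 1) ^ n

end const

/-! ### Parameters of a local class -/

/-- Data of a local class: real approximations at the infinite places and congruence conditions. -/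
structure Par (K : Type) [Field K] [NumberField K] (n d : ℕ) where
  /-- real coordinates of a form with an approximate nonsingular zero `xi` at all infinite places -/
  Ainf : Idx n d → IK K → ℝ
  /-- centre of the cube of forms -/
  AC : Idx n d → IK K → ℝ
  /-- real coordinates of the zero -/
  xi : Fin (n + 1) → IK K → ℝ
  /-- direction of large derivative at all places -/
  h : Fin (n + 1) → ℤ
  /-- linear form which is large at `xi` at all places -/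
  u : Fin (n + 1) → ℤ
  /-- half side of the box of points -/
  kap : ℝ
  /-- half side of the cube of forms -/
  rho : ℝ
  /-- the constant of the number of levels -/
  vg : ℝ
  /-- product of the small primes -/
  W : ℕ
  /-- modulus for the forms -/
  Q : ℕ
  /-- modulus for the points -/
  P : Ideal (𝓞 K)
  /-- residue class of the forms -/
  A0 : Idx n d → 𝓞 K
  /-- residue class of the points -/
  x0 : Fin (n + 1) → 𝓞 K

section par
variable {K : Type} [Field K] [NumberField K] {n d : ℕ}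

/-- the derivative of `F A` at `x` in the direction `h` -/
def Dh {R : Type*} [CommRing R] (A : Idx n d → R) (x : Fin (n + 1) → R) (h : Fin (n + 1) → ℤ) : R :=
  ∑ i, D A x i * (h i : R)

/-- the derivative of the real form at the real zero in the direction `h` -/
noncomputable def Par.gam (p : Par K n d) (w : InfinitePlace K) : ℂ :=
  Dh (fun t => lam (p.Ainf t) w) (fun i => lam (p.xi i) w) p.h

/-- `s` has the form `g * v` with `v ∈ K ⊗ ℝ` with coordinates at most `R`. -/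
def VIn (g : InfinitePlace K → ℂ) (R : ℝ) (s : 𝓞 K) : Prop :=
  ∃ r : IK K → ℝ, (∀ j, |r j| ≤ R) ∧ ∀ w, sg w s = g w * lam r w

/-- Forms of the class in the cube with centre `H * AC` and half side `r * H`. -/
def Par.Cl (p : Par K n d) (r H : ℝ) : Set (Idx n d → 𝓞 K) :=
  {A | (∀ t j, |(crd (A t) j : ℝ) - H * p.AC t j| ≤ r * H) ∧ ∀ t, (p.Q : 𝓞 K) ∣ A t - p.A0 t}

/-- The real box of integer points around `B * xi`. -/
def Reg (xi : Fin (n + 1) → IK K → ℝ) (h : Fin (n + 1) → ℤ) (kap : ℝ) (B : ℕ) :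
    Set (Fin (n + 1) → 𝓞 K) :=
  {x | (∀ j, |(crd (x 0) j : ℝ) - B * xi 0 j| ≤ kap * B) ∧
    ∀ i, i ≠ 0 → ∀ j, |((crd (x i) j : ℝ) - B * xi i j) - h i * ((crd (x 0) j : ℝ) - B * xi 0 j)| ≤
      kap ^ 2 * B}

/-- Points of the class. -/
def Par.XX (p : Par K n d) (B : ℕ) : Set (Fin (n + 1) → 𝓞 K) :=
  {x | x ∈ Reg p.xi p.h p.kap B ∧ ∀ i, x i - p.x0 i ∈ p.P}

/-- Primitive well-rounded points of the class. -/
def Par.GG (p : Par K n d) (R : ℝ) (B : ℕ) : Set (Fin (n + 1) → 𝓞 K) :=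
  {x | x ∈ p.XX B ∧ Prim x ∧ Good R B x}

/-- Real part of the main term. -/
noncomputable def Vol (K : Type) [Field K] [NumberField K] (n : ℕ) (kap th : ℝ) (B : ℕ) : ℝ :=
  (2 * kap ^ 2 * B) ^ (mK K * n) * (2 * th * B) ^ mK K

/-- Real counting property. -/
def RC (Ainf : Idx n d → IK K → ℝ) (xi : Fin (n + 1) → IK K → ℝ) (h : Fin (n + 1) → ℤ)
    (kap rho eps : ℝ) : Prop :=
  ∀ th : ℝ, 0 < th → th ≤ kap / 4 → ∀ b : Ideal (𝓞 K), b ≠ ⊥ → ∃ B0 : ℕ, ∀ B : ℕ, B0 ≤ B →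
    ∀ H : ℝ, 0 < H → ∀ A : Idx n d → 𝓞 K,
    (∀ t j, |(crd (A t) j : ℝ) - H * Ainf t j| ≤ 3 * rho * H) →
    ∀ r : Fin (n + 1) → 𝓞 K,
    (1 - eps) * Vol K n kap th B / (Ideal.absNorm b : ℝ) ^ (n + 1) ≤
        (Set.ncard {x : Fin (n + 1) → 𝓞 K | x ∈ Reg xi h kap B ∧ (∀ i, x i - r i ∈ b) ∧
          VIn (fun w => Dh (fun t => lam (Ainf t) w) (fun i => lam (xi i) w) h)
            (th * H * (B : ℝ) ^ d) (F A x)} : ℝ) ∧
      (Set.ncard {x : Fin (n + 1) → 𝓞 K | x ∈ Reg xi h kap B ∧ (∀ i, x i - r i ∈ b) ∧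
          VIn (fun w => Dh (fun t => lam (Ainf t) w) (fun i => lam (xi i) w) h)
            (th * H * (B : ℝ) ^ d) (F A x)} : ℝ) ≤
        (1 + eps) * Vol K n kap th B / (Ideal.absNorm b : ℝ) ^ (n + 1)

/-- Hensel data: on the class `A ≡ A0 (Q)`, `x ≡ x0 (P)` the values `F A x` are divisible by `Q`,
and along the direction `g` the quotient moves with unit speed at all primes dividing `W`. -/
def Hens (Q W : ℕ) (P : Ideal (𝓞 K)) (A0 : Idx n d → 𝓞 K) (x0 : Fin (n + 1) → 𝓞 K) : Prop :=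
  (Q : 𝓞 K) ∈ P ∧ (∃ m : ℕ, Q = W ^ m) ∧
  (∀ A : Idx n d → 𝓞 K, (∀ t, (Q : 𝓞 K) ∣ A t - A0 t) → ∀ x : Fin (n + 1) → 𝓞 K,
    (∀ i, x i - x0 i ∈ P) → (Q : 𝓞 K) ∣ F A x) ∧
  (∀ x : Fin (n + 1) → 𝓞 K, (∀ i, x i - x0 i ∈ P) →
    ∃ c : Fin (n + 1) → 𝓞 K, IsCoprime (∑ i, c i * x i) (W : 𝓞 K)) ∧
  ∃ g : Fin (n + 1) → 𝓞 K, (∀ i, g i ∈ P) ∧
    ∀ A : Idx n d → 𝓞 K, (∀ t, (Q : 𝓞 K) ∣ A t - A0 t) → ∀ x : Fin (n + 1) → 𝓞 K,
      (∀ i, x i - x0 i ∈ P) → ∀ c : 𝓞 K, ∃ e : 𝓞 K, IsCoprime e (W : 𝓞 K) ∧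
        F A (fun i => x i + c * g i) - F A x = Q * c * e

/-- The largest admissible half side of the box of points. -/
noncomputable def kmax (K : Type) [Field K] [NumberField K] (n : ℕ) (k0 : ℝ) : ℝ :=
  k0 / (10 * cK K * ((hb n (mK K) : ℝ) + 1) ^ 2 * ((n : ℝ) + 1))

/-- Validity of the data of a class. -/
structure Par.Valid (p : Par K n d) (eps bet k0 : ℝ) (w : ℕ) : Prop where
  n_ge : 3 ≤ n
  d_ge : 2 ≤ d
  d_le : d ≤ n
  eps_pos : 0 < eps
  eps_le : eps ≤ 1 / 10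
  bet_pos : 0 < bet
  bet_le : bet ≤ 1
  k0_pos : 0 < k0
  k0_le : k0 ≤ 1
  w_two : 2 ≤ w
  kap_pos : 0 < p.kap
  kap_le : p.kap ≤ kmax K n k0
  rho_pos : 0 < p.rho
  rho_le : p.rho ≤ 1
  Ainf_le : ∀ t j, |p.Ainf t j| ≤ 1
  AC_near : ∀ t j, |p.AC t j - p.Ainf t j| ≤ p.rho
  xi_le : ∀ i w', ‖lam (p.xi i) w'‖ ≤ 1
  xi_eq : ∀ w', ∃ i, ‖lam (p.xi i) w'‖ = 1
  h0 : p.h 0 = 1
  h_le : ∀ i, |p.h i| ≤ hb n (mK K)
  u0 : p.u 0 = 1
  u_le : ∀ i, |p.u i| ≤ hb n (mK K)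
  u_ge : ∀ w', k0 ≤ ‖∑ i, (p.u i : ℂ) * lam (p.xi i) w'‖
  gam_ge : ∀ w', bet * k0 ≤ ‖p.gam w'‖
  rc : RC p.Ainf p.xi p.h p.kap p.rho eps
  vg_pos : 0 < p.vg
  vg_lim : ∀ q : Ideal (𝓞 K), q ≠ ⊥ →
    Tendsto (fun R : ℝ => (Set.ncard {s : 𝓞 K | s ∈ q ∧ VIn p.gam R s} : ℝ) / R ^ mK K) atTop
      (𝓝 (p.vg / Ideal.absNorm q))
  W_pos : 0 < p.W
  W_primes : ∀ q : ℕ, q.Prime → (q ∣ p.W ↔ q ≤ w)
  Q_pos : 0 < p.Q
  P_ne : p.P ≠ ⊥
  hens : Hens p.Q p.W p.P p.A0 p.x0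

/-- Expected number of points. -/
noncomputable def Par.TT (p : Par K n d) (H : ℝ) : ℝ :=
  (2 * p.kap ^ 2 * (Bf n d H : ℝ)) ^ (mK K * n) * (2 * (Bf n d H : ℝ)) ^ mK K * (p.Q : ℝ) ^ mK K /
    ((Ideal.absNorm p.P : ℝ) ^ (n + 1) * p.vg * (H * (Bf n d H : ℝ) ^ d) ^ mK K)

/-- Expected number of forms with radius `r`. -/
noncomputable def Par.XR (p : Par K n d) (r H : ℝ) : ℝ := (2 * r * H / p.Q) ^ (mK K * NN n d)

/-- pairs (form, point) -/
def Par.Pairs (p : Par K n d) (r R H : ℝ) : Set ((Idx n d → 𝓞 K) × (Fin (n + 1) → 𝓞 K)) :=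
  {q | q.1 ∈ p.Cl r H ∧ q.2 ∈ p.GG R (Bf n d H) ∧ F q.1 q.2 = 0}

/-- Bad pairs of points. -/
def BadPr (G : ℕ) (tau : ℝ) (B : ℕ) (x y : Fin (n + 1) → 𝓞 K) : Prop :=
  G < mgN x y ∨ ∃ w, dl w x y < tau * (B : ℝ) ^ 2

/-- triples (form, two distinct points) with bad pair of points -/
def Par.TBad (p : Par K n d) (R : ℝ) (G : ℕ) (tau H : ℝ) :
    Set ((Idx n d → 𝓞 K) × (Fin (n + 1) → 𝓞 K) × (Fin (n + 1) → 𝓞 K)) :=
  {q | q.1 ∈ p.Cl p.rho H ∧ q.2.1 ∈ p.GG R (Bf n d H) ∧ q.2.2 ∈ p.GG R (Bf n d H) ∧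
    F q.1 q.2.1 = 0 ∧ F q.1 q.2.2 = 0 ∧ q.2.1 ≠ q.2.2 ∧ BadPr G tau (Bf n d H) q.2.1 q.2.2}

/-- triples (form, two points) with good pair of points -/
def Par.TMain (p : Par K n d) (R : ℝ) (G : ℕ) (tau H : ℝ) :
    Set ((Idx n d → 𝓞 K) × (Fin (n + 1) → 𝓞 K) × (Fin (n + 1) → 𝓞 K)) :=
  {q | q.1 ∈ p.Cl p.rho H ∧ q.2.1 ∈ p.GG R (Bf n d H) ∧ q.2.2 ∈ p.GG R (Bf n d H) ∧
    F q.1 q.2.1 = 0 ∧ F q.1 q.2.2 = 0 ∧ q.2.1 ≠ q.2.2 ∧ ¬ BadPr G tau (Bf n d H) q.2.1 q.2.2}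

/-- local pairs: forms and points with `W^s ∣ F A x` and small value -/
def Par.LP (p : Par K n d) (r th : ℝ) (s : ℕ) (S : Set (Fin (n + 1) → 𝓞 K)) (H : ℝ) :
    Set ((Idx n d → 𝓞 K) × (Fin (n + 1) → 𝓞 K)) :=
  {q | q.1 ∈ p.Cl r H ∧ q.2 ∈ S ∧ (p.W : 𝓞 K) ^ s ∣ F q.1 q.2 ∧
    VIn p.gam (th * H * (Bf n d H : ℝ) ^ d) (F q.1 q.2)}

/-- number of levels in the ideal `q` -/
noncomputable def Par.Lev (p : Par K n d) (th : ℝ) (q : Ideal (𝓞 K)) (H : ℝ) : ℕ :=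
  Set.ncard {s : 𝓞 K | s ∈ q ∧ VIn p.gam (th * H * (Bf n d H : ℝ) ^ d) s}

/-- the local main term (without the number of forms) -/
noncomputable def Par.MT (p : Par K n d) (th : ℝ) (s : ℕ) (H : ℝ) : ℝ :=
  Vol K n p.kap th (Bf n d H) * (p.Q : ℝ) ^ mK K /
    ((Ideal.absNorm p.P : ℝ) ^ (n + 1) * ((p.W : ℝ) ^ s) ^ mK K)

end par

/-! ### Local solubility -/

section local_
variable {K : Type} [Field K] [NumberField K] {n d : ℕ}

/-- Every level of solubility at the prime `P`. -/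
def LocP (P : Ideal (𝓞 K)) (A : Idx n d → 𝓞 K) : Prop :=
  ∀ L : ℕ, ∃ z : Fin (n + 1) → 𝓞 K, (∃ i, z i ∉ P) ∧ F A z ∈ P ^ L

/-- A good local point modulo `P ^ (2 a)`. -/
def GoodP (P : Ideal (𝓞 K)) (a : ℕ) (A : Idx n d → 𝓞 K) : Prop :=
  ∃ z : Fin (n + 1) → 𝓞 K, (∃ i, z i ∉ P) ∧ F A z ∈ P ^ (2 * a) ∧ ∃ j, D A z j ∉ P ^ a

/-- A point at the infinite place `w`, normalised. -/
def PtI (w : InfinitePlace K) (z : Fin (n + 1) → ℂ) : Prop :=
  (w.IsReal → ∀ i, (z i).im = 0) ∧ (∀ i, ‖z i‖ ≤ 1) ∧ ∃ i, ‖z i‖ = 1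

/-- Solubility at the infinite place `w`. -/
def LocI (w : InfinitePlace K) (A : Idx n d → ℂ) : Prop :=
  ∃ z : Fin (n + 1) → ℂ, PtI w z ∧ F A z = 0

/-- A good local point at the infinite place `w`. -/
def GoodI (w : InfinitePlace K) (f g : ℝ) (A : Idx n d → ℂ) : Prop :=
  ∃ z : Fin (n + 1) → ℂ, PtI w z ∧ ‖F A z‖ ≤ f ∧ ∃ j, g ≤ ‖D A z j‖

/-- The form is everywhere locally soluble, elementary version. -/
def ELSe (A : Idx n d → 𝓞 K) : Prop :=
  (∀ P : Ideal (𝓞 K), P.IsMaximal → LocP P A) ∧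
    ∀ w : InfinitePlace K, LocI w fun t => sg w (A t)

/-- The multiplicity of the prime ideal `P` in `W`. -/
noncomputable def vW (W : ℕ) (P : Ideal (𝓞 K)) : ℕ := multiplicity P (Ideal.span {(W : 𝓞 K)})

end local_

end NFHP
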