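import Pool.Agent.Lib.MP_e426f4_ag.N.ApproxZero
import Pool.Agent.Lib.MP_e426f4_ag.N.ApproxInf

/-! # Everywhere locally soluble forms -/

set_option linter.unusedSectionVars false

namespace NFHP

open NumberField GenHP Finset Filter Topology

variable {K : Type} [Field K] [NumberField K] {n d : ℕ}

/-- Everywhere locally soluble. -/
def ELS (A : Idx n d → 𝓞 K) : Prop :=
  (∀ v : IsDedekindDomain.HeightOneSpectrum (𝓞 K), ∃ z : Fin (n + 1) → v.adicCompletion K, z ≠ 0 ∧
      F (fun t => algebraMap (𝓞 K) (v.adicCompletion K) (A t)) z = 0) ∧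
    ∀ w : InfinitePlace K, ∃ z : Fin (n + 1) → w.Completion, z ≠ 0 ∧
      F (fun t => algebraMap (𝓞 K) w.Completion (A t)) z = 0

private theorem els_transfer {L : Type*} [Field L] [Algebra K L] [Algebra (𝓞 K) L]
    [IsScalarTower (𝓞 K) K L] (A : Idx n d → 𝓞 K) (h : Soluble A) :
    ∃ z : Fin (n + 1) → L, z ≠ 0 ∧ F (fun t => algebraMap (𝓞 K) L (A t)) z = 0 := by
  obtain ⟨x, hx, hF⟩ := h
  refine ⟨fun i => algebraMap K L (x i), ?_, ?_⟩
  · intro h0
    apply hx
    funext i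
    exact (map_eq_zero (algebraMap K L)).mp (congrFun h0 i)
  · have h1 := F_map (algebraMap K L) (fun t => ((A t : 𝓞 K) : K)) x
    rw [hF, map_zero] at h1
    rw [← h1]
    congr 1
    funext t
    exact IsScalarTower.algebraMap_apply (𝓞 K) K L (A t)

/-- NF-ES (Els.lean) -/
theorem els_of_soluble (A : Idx n d → 𝓞 K) (h : Soluble A) : ELS A :=
  ⟨fun _ => els_transfer A h, fun _ => els_transfer A h⟩

theorem ELSe_of_ELS (A : Idx n d → 𝓞 K) (h : ELS A) : ELSe A := by
  refine ⟨fun P hP => ?_, fun w => locI_of_completion w A (h.2 w)⟩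
  have hP0 : P ≠ ⊥ := Ring.ne_bot_of_isMaximal_of_not_isField hP (RingOfIntegers.not_isField K)
  exact locP_of_completion ⟨P, hP.isPrime, hP0⟩ A (h.1 ⟨P, hP.isPrime, hP0⟩)

end NFHP
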