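import Pool.Agent.Lib.MP_e426f4_ag.N.CubeCount

/-! # Equidistribution of the box modulo an ideal: upper bound -/

set_option linter.unusedSectionVars false

namespace NFHP

open NumberField GenHP Finset Filter Topology

variable {K : Type} [Field K] [NumberField K] {n d : ℕ}

/-- one class -/
private theorem equi_one (b : Ideal (𝓞 K)) (C H : ℝ)
    (hfin : ∀ r : 𝓞 K, {a : 𝓞 K | a - r ∈ b ∧ ∀ j, |(crd a j : ℝ) - 0| ≤ H}.Finite)
    (hcard : ∀ r : 𝓞 K,
      (Set.ncard {a : 𝓞 K | a - r ∈ b ∧ ∀ j, |(crd a j : ℝ) - 0| ≤ H} : ℝ) ≤ C)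
    (s : Idx n d → 𝓞 K ⧸ b) :
    {A : Idx n d → 𝓞 K | A ∈ BoxK K n d H ∧ (fun t => Ideal.Quotient.mk b (A t)) = s}.Finite ∧
    (Set.ncard {A : Idx n d → 𝓞 K | A ∈ BoxK K n d H ∧
      (fun t => Ideal.Quotient.mk b (A t)) = s} : ℝ) ≤ C ^ NN n d := by
  classical
  have hr : ∀ t, ∃ r : 𝓞 K, Ideal.Quotient.mk b r = s t := fun t =>
    Ideal.Quotient.mk_surjective (s t)
  choose r hr using hr
  have e : {A : Idx n d → 𝓞 K | A ∈ BoxK K n d H ∧ (fun t => Ideal.Quotient.mk b (A t)) = s} =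
      ((Fintype.piFinset fun t => (hfin (r t)).toFinset : Finset (Idx n d → 𝓞 K)) :
        Set (Idx n d → 𝓞 K)) := by
    ext A
    simp only [Set.mem_setOf_eq, Finset.mem_coe, Fintype.mem_piFinset, Set.Finite.mem_toFinset,
      BoxK, sub_zero]
    constructor
    · rintro ⟨h1, h2⟩ t
      refine ⟨?_, h1 t⟩
      rw [← Ideal.Quotient.eq, hr t]
      exact congrFun h2 t
    · intro h
      refine ⟨fun t => (h t).2, ?_⟩
      funext t
      have := (h t).1
      rw [← Ideal.Quotient.eq, hr t] at this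
      exact this
  rw [e]
  refine ⟨Finset.finite_toSet _, ?_⟩
  rw [Set.ncard_coe_finset, Fintype.card_piFinset]
  push_cast
  have h1 : ∀ t : Idx n d, ((hfin (r t)).toFinset.card : ℝ) ≤ C := by
    intro t
    have := hcard (r t)
    rwa [Set.ncard_eq_toFinset_card _ (hfin (r t))] at this
  calc ∏ t, ((hfin (r t)).toFinset.card : ℝ) ≤ ∏ _t : Idx n d, C :=
        Finset.prod_le_prod (fun t _ => Nat.cast_nonneg _) fun t _ => h1 t
    _ = C ^ NN n d := by rw [Finset.prod_const, Finset.card_univ]; rfl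

/-- at most the expected proportion of the box lies in a union of classes -/
theorem box_classes_le (b : Ideal (𝓞 K)) (hb : b ≠ ⊥) (S : Set (Idx n d → 𝓞 K ⧸ b)) :
    ∀ᶠ H : ℕ in atTop,
      (Set.ncard {A : Idx n d → 𝓞 K | A ∈ BoxK K n d H ∧
        (fun t => Ideal.Quotient.mk b (A t)) ∈ S} : ℝ) ≤
        2 * (S.ncard : ℝ) / (Ideal.absNorm b : ℝ) ^ NN n d * (2 * H + 1) ^ (mK K * NN n d) := by
  classical
  have hfinq : Finite (𝓞 K ⧸ b) := Ideal.finiteQuotientOfFreeOfNeBot b hb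
  have hS : S.Finite := Set.toFinite S
  have hlog : 0 < Real.log 2 := Real.log_pos (by norm_num)
  set e : ℝ := Real.log 2 / ((NN n d : ℝ) + 1) with he
  have he0 : 0 < e := by positivity
  have he1 : (1 + e) ^ NN n d ≤ 2 := by
    have h1 : 1 + e ≤ Real.exp e := by
      have := Real.add_one_le_exp e
      linarith
    calc (1 + e) ^ NN n d ≤ Real.exp e ^ NN n d := pow_le_pow_left₀ (by positivity) h1 _
      _ = Real.exp (NN n d * e) := by rw [← Real.exp_nat_mul]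
      _ ≤ Real.exp (Real.log 2) := by
          apply Real.exp_le_exp.mpr
          rw [he, ← mul_div_assoc, div_le_iff₀ (by positivity)]
          nlinarith
      _ = 2 := Real.exp_log (by norm_num)
  obtain ⟨R0, hR0, hR⟩ := cube_count b hb e he0
  have hN : (0 : ℝ) < Ideal.absNorm b := by exact_mod_cast absNorm_pos hb
  filter_upwards [eventually_ge_atTop ⌈R0⌉₊] with H hH
  have hH' : R0 ≤ (H : ℝ) := (Nat.le_ceil R0).trans (by exact_mod_cast hH)
  set C : ℝ := (1 + e) * ((2 * (H : ℝ)) ^ mK K / Ideal.absNorm b) with hC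
  have hone := fun s : Idx n d → 𝓞 K ⧸ b => equi_one b C H
    (fun r => (hR H hH' (fun _ => 0) r).1) (fun r => (hR H hH' (fun _ => 0) r).2.2) s
  have hsub : {A : Idx n d → 𝓞 K | A ∈ BoxK K n d H ∧
      (fun t => Ideal.Quotient.mk b (A t)) ∈ S} ⊆
      ⋃ s ∈ hS.toFinset, {A : Idx n d → 𝓞 K | A ∈ BoxK K n d H ∧
        (fun t => Ideal.Quotient.mk b (A t)) = s} := by
    rintro A ⟨h1, h2⟩
    rw [Set.mem_iUnion₂]
    exact ⟨_, hS.mem_toFinset.mpr h2, h1, rfl⟩
  have h1 : (Set.ncard {A : Idx n d → 𝓞 K | A ∈ BoxK K n d H ∧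
      (fun t => Ideal.Quotient.mk b (A t)) ∈ S} : ℝ) ≤ ∑ s ∈ hS.toFinset,
        (Set.ncard {A : Idx n d → 𝓞 K | A ∈ BoxK K n d H ∧
          (fun t => Ideal.Quotient.mk b (A t)) = s} : ℝ) := by
    have h2 := Set.ncard_le_ncard hsub
      (Set.Finite.biUnion hS.toFinset.finite_toSet fun s _ => (hone s).1)
    have h3 := Finset.set_ncard_biUnion_le hS.toFinset
      (fun s => {A : Idx n d → 𝓞 K | A ∈ BoxK K n d H ∧
        (fun t => Ideal.Quotient.mk b (A t)) = s})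
    exact_mod_cast h2.trans h3
  refine h1.trans ((Finset.sum_le_sum fun s _ => (hone s).2).trans ?_)
  rw [Finset.sum_const, ← Set.ncard_eq_toFinset_card S hS, nsmul_eq_mul]
  have h4 : C ^ NN n d ≤ 2 * ((2 * (H : ℝ) + 1) ^ (mK K * NN n d) /
      (Ideal.absNorm b : ℝ) ^ NN n d) := by
    rw [hC, mul_pow, div_pow, ← pow_mul]
    have h5 : (2 * (H : ℝ)) ^ (mK K * NN n d) ≤ (2 * (H : ℝ) + 1) ^ (mK K * NN n d) :=
      pow_le_pow_left₀ (by positivity) (by linarith) _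
    gcongr
  calc (S.ncard : ℝ) * C ^ NN n d ≤ (S.ncard : ℝ) * (2 * ((2 * (H : ℝ) + 1) ^ (mK K * NN n d) /
        (Ideal.absNorm b : ℝ) ^ NN n d)) := mul_le_mul_of_nonneg_left h4 (Nat.cast_nonneg _)
    _ = _ := by ring

end NFHP
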