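import Pool.Agent.Lib.MP_e426f4_ag.N.LevelW
import Pool.Agent.Lib.MP_e426f4_ag.G.FirstAux

/-! Module NF-S1 (auxiliary facts for the first moment). -/

set_option linter.unusedSectionVars false
set_option linter.unusedVariables false

namespace NFHP

open NumberField GenHP Finset Filter Topology

variable {K : Type} [Field K] [NumberField K] {n d : ℕ}

theorem S1_absNorm_natCast_pow (K : Type) [Field K] [NumberField K] (W s : ℕ) :
    (Ideal.absNorm (Ideal.span {(W : 𝓞 K) ^ s}) : ℝ) = ((W : ℝ) ^ s) ^ mK K := by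
  have h1 : ((W : 𝓞 K) ^ s) = algebraMap ℤ (𝓞 K) ((W : ℤ) ^ s) := by
    rw [map_pow]
    simp
  rw [Ideal.absNorm_span_singleton, h1, Algebra.norm_algebraMap, RingOfIntegers.rank]
  unfold mK
  rw [Int.natAbs_pow, Int.natAbs_pow, Int.natAbs_natCast]
  push_cast
  rfl

theorem S1_cG_nonneg (p : Par K n d) {eps bet k0 : ℝ} {w : ℕ} (hp : p.Valid eps bet k0 w) :
    0 ≤ cG K n d := by
  obtain ⟨w'⟩ : Nonempty (InfinitePlace K) := inferInstance
  exact (norm_nonneg _).trans (gam_le p hp w')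

theorem S1_one_le_c4 (p : Par K n d) {eps bet k0 : ℝ} {w : ℕ} (hp : p.Valid eps bet k0 w) :
    1 ≤ c4 K n d := by
  have h1 := S1_cG_nonneg p hp
  have h2 := cK_pos (K := K)
  unfold c4
  have : 0 ≤ 2 ^ d * cK K ^ 2 * cG K n d := by positivity
  linarith

theorem S1_TT_nonneg (p : Par K n d) {eps bet k0 : ℝ} {w : ℕ} (hp : p.Valid eps bet k0 w) (H : ℝ)
    (hH : 0 ≤ H) : 0 ≤ p.TT H := by
  have h1 := hp.vg_pos
  have h2 := hp.kap_pos
  unfold Par.TT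
  positivity

theorem S1_MT_nonneg (p : Par K n d) {eps bet k0 : ℝ} {w : ℕ} (hp : p.Valid eps bet k0 w)
    (th : ℝ) (hth : 0 ≤ th) (s : ℕ) (H : ℝ) : 0 ≤ p.MT th s H := by
  unfold Par.MT Vol
  positivity

theorem S1_XR_nonneg (p : Par K n d) (r H : ℝ) (hr : 0 ≤ r) (hH : 0 ≤ H) : 0 ≤ p.XR r H := by
  unfold Par.XR
  positivity

/-- the main term: levels times expected number of points -/
theorem S1_main_term_eq (p : Par K n d) {eps bet k0 : ℝ} {w : ℕ} (hp : p.Valid eps bet k0 w)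
    (th : ℝ) (s : ℕ) (H : ℝ) (hH : 0 < H) (hB : 1 ≤ Bf n d H) :
    p.MT th s H = (p.vg * (th * H * (Bf n d H : ℝ) ^ d) ^ mK K /
      Ideal.absNorm (Ideal.span {(p.W : 𝓞 K) ^ s})) * p.TT H := by
  have hW : (0 : ℝ) < p.W := by exact_mod_cast hp.W_pos
  have hP : (0 : ℝ) < Ideal.absNorm p.P := by exact_mod_cast absNorm_pos hp.P_ne
  have hvg := hp.vg_pos
  have hB0 : (0 : ℝ) < Bf n d H := by exact_mod_cast hB
  rw [S1_absNorm_natCast_pow]
  unfold Par.MT Vol Par.TT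
  have e1 : (2 * th * (Bf n d H : ℝ)) ^ mK K = th ^ mK K * (2 * (Bf n d H : ℝ)) ^ mK K := by
    rw [← mul_pow]
    congr 1
    ring
  have e2 : (th * H * (Bf n d H : ℝ) ^ d) ^ mK K =
      th ^ mK K * (H * (Bf n d H : ℝ) ^ d) ^ mK K := by
    rw [← mul_pow]
    congr 1
    ring
  rw [e1, e2]
  have h3 : (H * (Bf n d H : ℝ) ^ d) ^ mK K ≠ 0 := by positivity
  have h4 : ((p.W : ℝ) ^ s) ^ mK K ≠ 0 := by positivity
  field_simp

theorem S1_near_Ainf (p : Par K n d) {eps bet k0 : ℝ} {w : ℕ} (hp : p.Valid eps bet k0 w)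
    (r H : ℝ) (hH0 : 0 ≤ H) (hr : r ≤ 2 * p.rho) (A : Idx n d → 𝓞 K) (hA : A ∈ p.Cl r H) :
    ∀ t j, |(crd (A t) j : ℝ) - H * p.Ainf t j| ≤ 3 * p.rho * H := by
  intro t j
  have h1 := hA.1 t j
  have h2 := hp.AC_near t j
  calc |(crd (A t) j : ℝ) - H * p.Ainf t j| =
      |((crd (A t) j : ℝ) - H * p.AC t j) + H * (p.AC t j - p.Ainf t j)| := by
        ring_nf
    _ ≤ |(crd (A t) j : ℝ) - H * p.AC t j| + |(H : ℝ) * (p.AC t j - p.Ainf t j)| := abs_add_le _ _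
    _ = |(crd (A t) j : ℝ) - H * p.AC t j| + H * |p.AC t j - p.Ainf t j| := by
        rw [abs_mul, abs_of_nonneg hH0]
    _ ≤ r * H + H * p.rho := add_le_add h1 (mul_le_mul_of_nonneg_left h2 hH0)
    _ ≤ 3 * p.rho * H := by nlinarith

theorem S1_span_W_ne_bot (p : Par K n d) {eps bet k0 : ℝ} {w : ℕ} (hp : p.Valid eps bet k0 w)
    (s : ℕ) : Ideal.span {(p.W : 𝓞 K) ^ s} ≠ ⊥ := by
  rw [Ne, Ideal.span_singleton_eq_bot]
  exact pow_ne_zero s (Nat.cast_ne_zero.mpr hp.W_pos.ne')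

end NFHP
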