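import Pool.Agent.Lib.MP_e426f4_ag.N.LevelW
import Pool.Agent.Lib.MP_e426f4_ag.N.Level
import Pool.Agent.Lib.MP_e426f4_ag.N.ShortOne
import Pool.Agent.Lib.MP_e426f4_ag.N.CardCl
import Pool.Agent.Lib.MP_e426f4_ag.N.Points

/-! Module NF-TR: translation inequalities for pairs (form, point). -/

set_option linter.unusedSectionVars false
set_option linter.unusedVariables false

namespace NFHP

open NumberField GenHP Finset Filter Topology

variable {K : Type} [Field K] [NumberField K] {n d : ℕ}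

theorem TR_LP_finite (p : Par K n d) (r th : ℝ) (s : ℕ) (S : Set (Fin (n + 1) → 𝓞 K))
    (hS : S.Finite) (H : ℝ) : (p.LP r th s S H).Finite :=
  ((Cl_finite p r H).prod hS).subset fun q hq => ⟨hq.1, hq.2.1⟩

theorem TR_Pairs_finite (p : Par K n d) (r R H : ℝ) : (p.Pairs r R H).Finite :=
  ((Cl_finite p r H).prod (GG_finite p R (Bf n d H))).subset fun q hq => ⟨hq.1, hq.2.1⟩

/-- A short form of the class `0 (mod Q)` with a prescribed value at a well-rounded point. -/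
theorem TR_short_level (p : Par K n d) {eps bet k0 : ℝ} {w : ℕ} (hp : p.Valid eps bet k0 w)
    (R : ℝ) (hR : 1 ≤ R) (th : ℝ) (hth : 0 < th) :
    ∀ᶠ H : ℝ in atTop, ∀ x ∈ p.GG R (Bf n d H), ∀ s : 𝓞 K, (p.Q : 𝓞 K) ∣ s →
      VIn p.gam (th * H * (Bf n d H : ℝ) ^ d) s →
      ∃ t : Idx n d → 𝓞 K, F t x = s ∧ (∀ m, (p.Q : 𝓞 K) ∣ t m) ∧
        ∀ m j, |(crd (t m) j : ℝ)| ≤ c4 K n d * th * H := by
  have hn := hp.n_ge
  have hd := hp.d_ge
  have hdn := hp.d_le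
  have h1 := Bf_small n d hn hd hdn (cK K * c1 K n d * p.Q * R / th)
  have h2 := (Bf_atTop n d hn hd hdn).eventually_ge_atTop 1
  filter_upwards [h1, h2, eventually_gt_atTop 0] with H h1 hB1 hH0 x hx s hs hsb
  have hB1r : (1 : ℝ) ≤ Bf n d H := by exact_mod_cast hB1
  have hsb' := norm_le_of_VIn p hp _ s hsb
  obtain ⟨s', rfl⟩ := hs
  have hxb : ∀ w' : InfinitePlace K, ∃ i, ((Bf n d H : ℕ) : ℝ) / 2 ≤ ‖sg w' (x i)‖ := by
    intro w'
    obtain ⟨i, hi⟩ := (mem_XX_bounds p hp (Bf n d H)).2 w'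
    exact ⟨i, hi x hx.1⟩
  have hn0 : (0 : ℝ) < n := by exact_mod_cast (by omega : 0 < n)
  have hmu : 1 ≤ R * (Bf n d H : ℝ) ^ (1 / (n : ℝ)) := by
    have : 1 ≤ (Bf n d H : ℝ) ^ (1 / (n : ℝ)) := Real.one_le_rpow hB1r (by positivity)
    nlinarith
  obtain ⟨t, ht, htb⟩ := short_single (by omega : 1 ≤ d) (Bf n d H) hB1 x hx.2.1
    (R * (Bf n d H : ℝ) ^ (1 / (n : ℝ))) hmu hx.2.2 hxb s'
  have hQ0 : (0 : ℝ) < p.Q := by exact_mod_cast hp.Q_pos
  have hcK := cK_pos (K := K)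
  have hc1 : 0 ≤ c1 K n d := by unfold c1; positivity
  have hcG : 0 ≤ cG K n d := by
    obtain ⟨w'⟩ : Nonempty (InfinitePlace K) := inferInstance
    exact (norm_nonneg _).trans (gam_le p hp w')
  refine ⟨fun m => p.Q * t m, ?_, fun m => Dvd.intro _ rfl, fun m j => ?_⟩
  · rw [F_smul, ht]
  · have hB0 : (0 : ℝ) < (Bf n d H : ℝ) ^ d := by positivity
    have h7 : (Bf n d H : ℝ) ^ (1 / (n : ℝ)) ≤ (Bf n d H : ℝ) ^ (2 / (n : ℝ)) :=
      Real.rpow_le_rpow_of_exponent_le hB1r (by gcongr; norm_num)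
    have h8 : cK K * ((p.Q : ℝ) * (c1 K n d * (R * (Bf n d H : ℝ) ^ (1 / (n : ℝ))))) ≤ th * H := by
      have h9 : cK K * c1 K n d * p.Q * R / th * (Bf n d H : ℝ) ^ (2 / (n : ℝ)) * th ≤ H * th :=
        mul_le_mul_of_nonneg_right h1 hth.le
      have h10 : cK K * c1 K n d * p.Q * R / th * (Bf n d H : ℝ) ^ (2 / (n : ℝ)) * th =
          cK K * c1 K n d * p.Q * R * (Bf n d H : ℝ) ^ (2 / (n : ℝ)) := by
        field_simp
      rw [h10] at h9
      have h11 : cK K * c1 K n d * (p.Q : ℝ) * R * (Bf n d H : ℝ) ^ (1 / (n : ℝ)) ≤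
          cK K * c1 K n d * p.Q * R * (Bf n d H : ℝ) ^ (2 / (n : ℝ)) :=
        mul_le_mul_of_nonneg_left h7 (by positivity)
      linarith
    have hbound : ∀ w' : InfinitePlace K, ‖sg w' (p.Q * t m)‖ ≤
        2 ^ d * cG K n d * cK K * th * H +
          (p.Q : ℝ) * (c1 K n d * (R * (Bf n d H : ℝ) ^ (1 / (n : ℝ)))) := by
      intro w'
      have h5 : (p.Q : ℝ) * ‖sg w' s'‖ ≤ cG K n d * cK K * (th * H * (Bf n d H : ℝ) ^ d) := by
        have h := hsb' w'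
        rw [map_mul, sg_natCast, norm_mul, Complex.norm_natCast] at h
        exact h
      have h6 : (p.Q : ℝ) * (2 ^ d * ‖sg w' s'‖ / (Bf n d H : ℝ) ^ d) ≤
          2 ^ d * cG K n d * cK K * th * H := by
        have : (p.Q : ℝ) * (2 ^ d * ‖sg w' s'‖ / (Bf n d H : ℝ) ^ d) =
            2 ^ d * ((p.Q : ℝ) * ‖sg w' s'‖) / (Bf n d H : ℝ) ^ d := by ring
        rw [this, div_le_iff₀ hB0]
        have := mul_le_mul_of_nonneg_left h5 (by positivity : (0 : ℝ) ≤ 2 ^ d)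
        linarith
      rw [map_mul, sg_natCast, norm_mul, Complex.norm_natCast]
      calc (p.Q : ℝ) * ‖sg w' (t m)‖ ≤
          p.Q * (2 ^ d * ‖sg w' s'‖ / (Bf n d H : ℝ) ^ d +
            c1 K n d * (R * (Bf n d H : ℝ) ^ (1 / (n : ℝ)))) :=
            mul_le_mul_of_nonneg_left (htb m w') hQ0.le
        _ = p.Q * (2 ^ d * ‖sg w' s'‖ / (Bf n d H : ℝ) ^ d) +
            p.Q * (c1 K n d * (R * (Bf n d H : ℝ) ^ (1 / (n : ℝ)))) := mul_add _ _ _
        _ ≤ _ := by linarith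
    refine (crd_le_of_norm_sg hbound j).trans ?_
    rw [mul_add]
    unfold c4
    have e1 : cK K * (2 ^ d * cG K n d * cK K * th * H) = 2 ^ d * cK K ^ 2 * cG K n d * th * H := by
      ring
    rw [e1]
    have e2 : (2 ^ d * cK K ^ 2 * cG K n d + 1) * th * H =
        2 ^ d * cK K ^ 2 * cG K n d * th * H + th * H := by ring
    rw [e2]
    linarith

theorem trans_lower (p : Par K n d) {eps bet k0 : ℝ} {w : ℕ} (hp : p.Valid eps bet k0 w)
    (R : ℝ) (hR : 1 ≤ R) (r th : ℝ) (hth : 0 < th) (s : ℕ) (hs : p.Q ∣ p.W ^ s) :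
    ∀ᶠ H : ℝ in atTop,
      ((p.LP (r - c4 K n d * th) th s (p.GG R (Bf n d H)) H).ncard : ℝ) ≤
        (p.Lev th (Ideal.span {(p.W : 𝓞 K) ^ s}) H : ℝ) * ((p.Pairs r R H).ncard : ℝ) := by
  classical
  filter_upwards [TR_short_level p hp R hR th hth, eventually_gt_atTop 0] with H hH hH0
  have hQM : (p.Q : 𝓞 K) ∣ (p.W : 𝓞 K) ^ s := by
    obtain ⟨c, hc⟩ := hs
    refine ⟨(c : 𝓞 K), ?_⟩
    rw [← Nat.cast_pow, hc, Nat.cast_mul]
  choose! t ht using hH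
  let f : ((Idx n d → 𝓞 K) × (Fin (n + 1) → 𝓞 K)) →
      𝓞 K × ((Idx n d → 𝓞 K) × (Fin (n + 1) → 𝓞 K)) :=
    fun q => (F q.1 q.2, (fun m => q.1 m + (-1) * t q.2 (F q.1 q.2) m, q.2))
  have hmaps : ∀ q ∈ p.LP (r - c4 K n d * th) th s (p.GG R (Bf n d H)) H,
      f q ∈ {z : 𝓞 K | z ∈ Ideal.span {(p.W : 𝓞 K) ^ s} ∧
        VIn p.gam (th * H * (Bf n d H : ℝ) ^ d) z} ×ˢ p.Pairs r R H := by
    intro q hq
    obtain ⟨h1, h2, h3, h4⟩ := hq
    have h5 := ht q.2 h2 (F q.1 q.2) (hQM.trans h3) h4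
    refine ⟨⟨Ideal.mem_span_singleton.mpr h3, h4⟩, ⟨fun m j => ?_, fun m => ?_⟩, h2, ?_⟩
    · have h6 := h1.1 m j
      have h7 := h5.2.2 m j
      have h8 : (crd (q.1 m + (-1) * t q.2 (F q.1 q.2) m) j : ℝ) - H * p.AC m j =
          ((crd (q.1 m) j : ℝ) - H * p.AC m j) - (crd (t q.2 (F q.1 q.2) m) j : ℝ) := by
        have e : q.1 m + (-1) * t q.2 (F q.1 q.2) m = q.1 m - t q.2 (F q.1 q.2) m := by ring
        rw [e, crd_sub]
        push_cast
        ring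
      simp only [f]
      rw [h8]
      refine (abs_sub _ _).trans ?_
      have h9 : (r - c4 K n d * th) * H + c4 K n d * th * H = r * H := by ring
      linarith
    · have h8 : q.1 m + (-1) * t q.2 (F q.1 q.2) m - p.A0 m =
          (q.1 m - p.A0 m) - t q.2 (F q.1 q.2) m := by ring
      simp only [f]
      rw [h8]
      exact dvd_sub (h1.2 m) (h5.2.1 m)
    · simp only [f]
      rw [F_add q.1 (fun m => (-1) * t q.2 (F q.1 q.2) m), F_smul, h5.1]
      ring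
  have hinj : Set.InjOn f (p.LP (r - c4 K n d * th) th s (p.GG R (Bf n d H)) H) := by
    intro q hq q' hq' hqq
    simp only [f, Prod.mk.injEq] at hqq
    obtain ⟨e4, e1, e2⟩ := hqq
    have e5 : q.1 = q'.1 := by
      funext m
      have h5 : q.1 m + (-1) * t q.2 (F q.1 q.2) m = q'.1 m + (-1) * t q'.2 (F q'.1 q'.2) m :=
        congrFun e1 m
      rw [e4, e2] at h5
      exact add_right_cancel h5
    exact Prod.ext e5 e2
  have hfin : ({z : 𝓞 K | z ∈ Ideal.span {(p.W : 𝓞 K) ^ s} ∧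
        VIn p.gam (th * H * (Bf n d H : ℝ) ^ d) z} ×ˢ p.Pairs r R H).Finite :=
    ((VIn_finite p.gam (th * H * (Bf n d H : ℝ) ^ d)).subset fun z hz => hz.2).prod
      (TR_Pairs_finite p r R H)
  have hcard := Set.ncard_le_ncard_of_injOn f hmaps hinj hfin
  rw [Set.ncard_prod] at hcard
  unfold Par.Lev
  exact_mod_cast hcard

theorem trans_upper (p : Par K n d) {eps bet k0 : ℝ} {w : ℕ} (hp : p.Valid eps bet k0 w)
    (R : ℝ) (hR : 1 ≤ R) (r th : ℝ) (hth : 0 < th) (s : ℕ) (hs : p.Q ∣ p.W ^ s) :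
    ∀ᶠ H : ℝ in atTop,
      (p.Lev th (Ideal.span {(p.W : 𝓞 K) ^ s}) H : ℝ) * ((p.Pairs r R H).ncard : ℝ) ≤
        ((p.LP (r + c4 K n d * th) th s (p.GG R (Bf n d H)) H).ncard : ℝ) := by
  classical
  filter_upwards [TR_short_level p hp R hR th hth, eventually_gt_atTop 0] with H hH hH0
  have hQM : (p.Q : 𝓞 K) ∣ (p.W : 𝓞 K) ^ s := by
    obtain ⟨c, hc⟩ := hs
    refine ⟨(c : 𝓞 K), ?_⟩
    rw [← Nat.cast_pow, hc, Nat.cast_mul]
  choose! t ht using hH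
  let f : 𝓞 K × ((Idx n d → 𝓞 K) × (Fin (n + 1) → 𝓞 K)) →
      ((Idx n d → 𝓞 K) × (Fin (n + 1) → 𝓞 K)) :=
    fun q => (fun m => q.2.1 m + t q.2.2 q.1 m, q.2.2)
  have hF : ∀ q ∈ {z : 𝓞 K | z ∈ Ideal.span {(p.W : 𝓞 K) ^ s} ∧
        VIn p.gam (th * H * (Bf n d H : ℝ) ^ d) z} ×ˢ p.Pairs r R H,
      F (f q).1 (f q).2 = q.1 := by
    intro q hq
    obtain ⟨⟨h0, h4⟩, h1, h2, h3⟩ := hq
    have h5 := ht q.2.2 h2 q.1 (hQM.trans (Ideal.mem_span_singleton.mp h0)) h4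
    simp only [f]
    rw [F_add q.2.1 (fun m => t q.2.2 q.1 m), h3, h5.1, zero_add]
  have hmaps : ∀ q ∈ {z : 𝓞 K | z ∈ Ideal.span {(p.W : 𝓞 K) ^ s} ∧
        VIn p.gam (th * H * (Bf n d H : ℝ) ^ d) z} ×ˢ p.Pairs r R H,
      f q ∈ p.LP (r + c4 K n d * th) th s (p.GG R (Bf n d H)) H := by
    intro q hq
    have hFq := hF q hq
    obtain ⟨⟨h0, h4⟩, h1, h2, h3⟩ := hq
    have h5 := ht q.2.2 h2 q.1 (hQM.trans (Ideal.mem_span_singleton.mp h0)) h4
    refine ⟨⟨fun m j => ?_, fun m => ?_⟩, h2, ?_, ?_⟩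
    · have h6 := h1.1 m j
      have h7 := h5.2.2 m j
      have h8 : (crd (q.2.1 m + t q.2.2 q.1 m) j : ℝ) - H * p.AC m j =
          ((crd (q.2.1 m) j : ℝ) - H * p.AC m j) + (crd (t q.2.2 q.1 m) j : ℝ) := by
        rw [crd_add]
        push_cast
        ring
      simp only [f]
      rw [h8]
      refine (abs_add_le _ _).trans ?_
      have h9 : (r + c4 K n d * th) * H = r * H + c4 K n d * th * H := by ring
      linarith
    · have h8 : q.2.1 m + t q.2.2 q.1 m - p.A0 m =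
          (q.2.1 m - p.A0 m) + t q.2.2 q.1 m := by ring
      simp only [f]
      rw [h8]
      exact dvd_add (h1.2 m) (h5.2.1 m)
    · rw [hFq]
      exact Ideal.mem_span_singleton.mp h0
    · rw [hFq]
      exact h4
  have hinj : Set.InjOn f ({z : 𝓞 K | z ∈ Ideal.span {(p.W : 𝓞 K) ^ s} ∧
        VIn p.gam (th * H * (Bf n d H : ℝ) ^ d) z} ×ˢ p.Pairs r R H) := by
    intro q hq q' hq' hqq
    have e1 := hF q hq
    have e2 := hF q' hq'
    rw [hqq, e2] at e1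
    have e3 : q.1 = q'.1 := e1.symm
    simp only [f, Prod.mk.injEq] at hqq
    have e4 : q.2.1 = q'.2.1 := by
      funext m
      have h5 : q.2.1 m + t q.2.2 q.1 m = q'.2.1 m + t q'.2.2 q'.1 m := congrFun hqq.1 m
      rw [e3, hqq.2] at h5
      exact add_right_cancel h5
    exact Prod.ext e3 (Prod.ext e4 hqq.2)
  have hfin := TR_LP_finite p (r + c4 K n d * th) th s (p.GG R (Bf n d H))
    (GG_finite p R (Bf n d H)) H
  have hcard := Set.ncard_le_ncard_of_injOn f hmaps hinj hfin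
  rw [Set.ncard_prod] at hcard
  unfold Par.Lev
  exact_mod_cast hcard

end NFHP
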