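import Pool.Agent.Lib.MP_e426f4_ag.N.FirstAux
import Pool.Agent.Lib.MP_e426f4_ag.N.NLoc
import Pool.Agent.Lib.MP_e426f4_ag.N.CardCl
import Pool.Agent.Lib.MP_e426f4_ag.N.Points
import Pool.Agent.Lib.MP_e426f4_ag.N.Trans
import Pool.Agent.Lib.MP_e426f4_ag.N.BadPoints

/-! Module NF-S1a: lower bound for the first moment. -/

set_option linter.unusedSectionVars false
set_option linter.unusedVariables false

namespace NFHP

open NumberField GenHP Finset Filter Topology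

variable {K : Type} [Field K] [NumberField K] {n d : ℕ}

/-- NF-S1a (FirstLower.lean) -/
theorem S1_lower (p : Par K n d) {eps bet k0 : ℝ} {w : ℕ} (hp : p.Valid eps bet k0 w)
    (E : ℝ) (hE : ∀ S : Finset (Ideal (𝓞 K)), (∀ I ∈ S, w < Ideal.absNorm I) →
      ∑ I ∈ S, 1 / (Ideal.absNorm I : ℝ) ^ 2 ≤ E) :
    ∃ R0 : ℝ, 1 ≤ R0 ∧ ∀ R, R0 ≤ R → ∀ᶠ H : ℝ in atTop,
      (1 - 8 * eps - 2 * E) * p.TT H * p.XR p.rho H ≤ ((p.Pairs p.rho R H).ncard : ℝ) := by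
  have he := hp.eps_pos
  have he1 := hp.eps_le
  have hkap := hp.kap_pos
  have hrho := hp.rho_pos
  have hQ := hp.Q_pos
  have hQr : (0 : ℝ) < p.Q := by exact_mod_cast hQ
  have hE0 : 0 ≤ E := by
    have := hE ∅ (by simp)
    simpa using this
  obtain ⟨s, hs⟩ := hp.hens.2.1
  have hnQ : p.Q ∣ p.W ^ s := by rw [hs]
  obtain ⟨N, hNdef⟩ : ∃ N : ℕ, N = mK K * NN n d := ⟨_, rfl⟩
  have hN : 0 < N := by rw [hNdef]; exact Nat.mul_pos mK_pos (NN_pos n d)
  have hNr : (1 : ℝ) ≤ N := by exact_mod_cast hN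
  have hN0 : (0 : ℝ) < N := by linarith
  have hc4 := S1_one_le_c4 p hp
  have hc2 : (0 : ℝ) < c4 K n d := by linarith
  obtain ⟨th, hth, hth2, hth3⟩ : ∃ th : ℝ, 0 < th ∧ th ≤ p.kap / 4 ∧
      th ≤ eps * p.rho / (c4 K n d * N) :=
    ⟨min (p.kap / 4) (eps * p.rho / (c4 K n d * N)),
      lt_min (by positivity) (by positivity), min_le_left _ _, min_le_right _ _⟩
  have hct : c4 K n d * th ≤ p.rho * (eps / N) := by
    rw [le_div_iff₀ (by positivity)] at hth3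
    rw [mul_div_assoc', le_div_iff₀ hN0]
    linarith
  have heN : eps / N ≤ eps := div_le_self he.le hNr
  have heN0 : 0 < eps / N := by positivity
  obtain ⟨r9, hr9⟩ : ∃ r9 : ℝ, r9 = p.rho - c4 K n d * th := ⟨_, rfl⟩
  have hr9a : p.rho * (1 - eps / N) ≤ r9 := by
    rw [hr9]
    linarith
  have hr9p : 0 < r9 := lt_of_lt_of_le (mul_pos hrho (by linarith)) hr9a
  have hr9b : r9 ≤ p.rho := by
    have : 0 < c4 K n d * th := mul_pos hc2 hth
    linarith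
  obtain ⟨B0, hB0⟩ := nloc p hp th hth hth2 s hnQ ⊤ top_ne_bot
    (by rw [← Ideal.one_eq_top]; exact isCoprime_one_left)
  obtain ⟨R0, hR0, hbad⟩ := bad_points p hp E hE
  refine ⟨R0, hR0, fun R hR => ?_⟩
  have hR1 : 1 ≤ R := hR0.trans hR
  have hBt := Bf_atTop n d hp.n_ge hp.d_ge hp.d_le
  have hev1 : ∀ᶠ H : ℝ in atTop, 1 ≤ Bf n d H := hBt.eventually_ge_atTop 1
  have hev3 : ∀ᶠ H : ℝ in atTop, B0 ≤ Bf n d H := hBt.eventually_ge_atTop B0
  filter_upwards [hbad R hR th hth hth2 s hnQ,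
    trans_lower p hp R hR1 p.rho th hth s hnQ,
    card_Cl p hQ r9 eps hr9p he, hev1, hev3,
    Lev_asymp p hp th hth _ (S1_span_W_ne_bot p hp s) eps he,
    eventually_ge_atTop (1 : ℝ)] with H hBP hTR hCl hB1 hB0' hLev hH1
  have hH0 : (0 : ℝ) < H := by linarith
  have hB1' : (1 : ℝ) ≤ Bf n d H := by exact_mod_cast hB1
  have hBpos : (0 : ℝ) < Bf n d H := by linarith
  have hlev := hLev.2
  have hmt := S1_main_term_eq p hp th s H hH0 hB1
  obtain ⟨T', hT'⟩ : ∃ T' : ℝ, T' = p.MT th s H := ⟨_, rfl⟩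
  have hT'nn : 0 ≤ T' := by rw [hT']; exact S1_MT_nonneg p hp th hth.le s H
  have hTT0 : 0 ≤ p.TT H := S1_TT_nonneg p hp H hH0.le
  obtain ⟨y, hydef⟩ : ∃ y : ℝ, y = p.vg * (th * H * (Bf n d H : ℝ) ^ d) ^ mK K /
      Ideal.absNorm (Ideal.span {(p.W : 𝓞 K) ^ s}) := ⟨_, rfl⟩
  have hy0 : 0 < y := by
    have h1 : (0 : ℝ) < Ideal.absNorm (Ideal.span {(p.W : 𝓞 K) ^ s}) := by
      exact_mod_cast absNorm_pos (S1_span_W_ne_bot p hp s)
    have h2 := hp.vg_pos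
    rw [hydef]
    positivity
  rw [← hydef] at hlev hmt
  rw [← hT'] at hmt hBP
  rw [← hr9] at hTR
  have hlev0 : (0 : ℝ) < (p.Lev th (Ideal.span {(p.W : 𝓞 K) ^ s}) H : ℝ) := by
    have h1 := hLev.1
    rw [← hydef] at h1
    have : 0 < (1 - eps) * y := mul_pos (by linarith) hy0
    linarith
  have hX0 : 0 ≤ p.XR p.rho H := S1_XR_nonneg p p.rho H hrho.le hH0.le
  have hP0 : (0 : ℝ) ≤ ((p.Pairs p.rho R H).ncard : ℝ) := Nat.cast_nonneg _
  -- all local pairs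
  have hLP : ((p.Cl r9 H).ncard : ℝ) * ((1 - eps) * T') ≤
      ((p.LP r9 th s (p.XX (Bf n d H)) H).ncard : ℝ) := by
    refine le_ncard_pairs (p.Cl r9 H) (Cl_finite p _ H) (p.XX (Bf n d H))
      (XX_finite p (Bf n d H)) (fun A x => ((p.W : 𝓞 K) ^ s) ∣ F A x ∧
        VIn p.gam (th * H * (Bf n d H : ℝ) ^ d) (F A x)) _ ?_
    intro A hA
    have h1 := (hB0 (Bf n d H) hB0' H hH0 A
      (S1_near_Ainf p hp r9 H hH0.le (by linarith) A hA) hA.2 (fun _ => 0)).1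
    rw [Ideal.absNorm_top, Nat.cast_one, one_pow, div_one] at h1
    have h1' : (1 - eps) * T' ≤ (Set.ncard {x : Fin (n + 1) → 𝓞 K | x ∈ p.XX (Bf n d H) ∧
        (p.W : 𝓞 K) ^ s ∣ F A x ∧ VIn p.gam (th * H * (Bf n d H : ℝ) ^ d) (F A x) ∧
        ∀ i, x i - 0 ∈ (⊤ : Ideal (𝓞 K))} : ℝ) := by
      rw [hT']
      exact h1
    refine le_trans h1' ?_
    have h3 : {x : Fin (n + 1) → 𝓞 K | x ∈ p.XX (Bf n d H) ∧ ((p.W : 𝓞 K) ^ s) ∣ F A x ∧
          VIn p.gam (th * H * (Bf n d H : ℝ) ^ d) (F A x) ∧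
          ∀ i, x i - 0 ∈ (⊤ : Ideal (𝓞 K))} ⊆
        {x | x ∈ p.XX (Bf n d H) ∧ ((p.W : 𝓞 K) ^ s) ∣ F A x ∧
        VIn p.gam (th * H * (Bf n d H : ℝ) ^ d) (F A x)} := by
      intro x hx
      exact ⟨hx.1, hx.2.1, hx.2.2.1⟩
    exact Nat.cast_le.mpr
      (Set.ncard_le_ncard h3 ((XX_finite p (Bf n d H)).subset fun _ hx => hx.1))
  have hfinLP : ∀ (r' : ℝ) (S : Set (Fin (n + 1) → 𝓞 K)), S.Finite →
      (p.LP r' th s S H).Finite := fun r' S hS => TR_LP_finite p r' th s S hS H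
  have hsplit : ((p.LP r9 th s (p.XX (Bf n d H)) H).ncard : ℝ) ≤
      ((p.LP r9 th s (p.GG R (Bf n d H)) H).ncard : ℝ) +
      ((p.LP p.rho th s (p.XX (Bf n d H) \ p.GG R (Bf n d H)) H).ncard : ℝ) := by
    have h1 : p.LP r9 th s (p.XX (Bf n d H)) H ⊆ p.LP r9 th s (p.GG R (Bf n d H)) H ∪
        p.LP p.rho th s (p.XX (Bf n d H) \ p.GG R (Bf n d H)) H := by
      intro q hq
      by_cases hg : q.2 ∈ p.GG R (Bf n d H)
      · exact Or.inl ⟨hq.1, hg, hq.2.2⟩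
      · refine Or.inr ⟨⟨fun m j => (hq.1.1 m j).trans ?_, hq.1.2⟩, ⟨hq.2.1, hg⟩, hq.2.2⟩
        exact mul_le_mul_of_nonneg_right hr9b hH0.le
    have h2 := Set.ncard_le_ncard h1 ((hfinLP r9 _ (GG_finite p R (Bf n d H))).union
      (hfinLP p.rho _ ((XX_finite p (Bf n d H)).subset fun _ h => h.1)))
    have h3 := Set.ncard_union_le (p.LP r9 th s (p.GG R (Bf n d H)) H)
      (p.LP p.rho th s (p.XX (Bf n d H) \ p.GG R (Bf n d H)) H)
    exact_mod_cast h2.trans h3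
  have hX : (1 - eps) * p.XR p.rho H ≤ p.XR r9 H := by
    have h1 : (1 - eps / N) ^ N * p.XR p.rho H ≤ p.XR r9 H := by
      unfold Par.XR
      rw [← hNdef, ← mul_pow]
      refine pow_le_pow_left₀ (mul_nonneg (by linarith) (by positivity)) ?_ _
      rw [mul_div_assoc', div_le_div_iff_of_pos_right hQr]
      nlinarith [mul_le_mul_of_nonneg_right hr9a hH0.le]
    exact (mul_le_mul_of_nonneg_right (one_sub_le_pow _ hN eps (by linarith)) hX0).trans h1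
  obtain ⟨v, hv⟩ : ∃ v : ℝ, v = 2 * E := ⟨_, rfl⟩
  rw [← hv] at hBP ⊢
  have hv0 : 0 ≤ v := by rw [hv]; positivity
  -- lower bound for the local pairs over good points
  have h5 : (1 - 4 * eps - v) * (T' * p.XR p.rho H) ≤
      ((p.LP r9 th s (p.GG R (Bf n d H)) H).ncard : ℝ) := by
    have h6 : (1 - eps) * ((1 - eps) * p.XR p.rho H) * ((1 - eps) * T') ≤
        ((p.Cl r9 H).ncard : ℝ) * ((1 - eps) * T') := by
      refine mul_le_mul_of_nonneg_right ?_ (mul_nonneg (by linarith) hT'nn)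
      exact (mul_le_mul_of_nonneg_left hX (by linarith)).trans hCl.1
    have h7 : (1 - 4 * eps - v) * (T' * p.XR p.rho H) ≤
        (1 - eps) * ((1 - eps) * p.XR p.rho H) * ((1 - eps) * T') -
          (eps + v) * (T' * p.XR p.rho H) := by
      have h8 : 0 ≤ T' * p.XR p.rho H := mul_nonneg hT'nn hX0
      have h9 : 1 - 4 * eps - v ≤ (1 - eps) * (1 - eps) * (1 - eps) - (eps + v) := by
        nlinarith [mul_pos he he, mul_nonneg (mul_nonneg he.le he.le) (by linarith : (0 : ℝ) ≤ 1 - eps)]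
      calc (1 - 4 * eps - v) * (T' * p.XR p.rho H) ≤
          ((1 - eps) * (1 - eps) * (1 - eps) - (eps + v)) * (T' * p.XR p.rho H) :=
            mul_le_mul_of_nonneg_right h9 h8
        _ = _ := by ring
    linarith
  by_cases hneg : 1 - 8 * eps - v ≤ 0
  · calc (1 - 8 * eps - v) * p.TT H * p.XR p.rho H =
        (1 - 8 * eps - v) * (p.TT H * p.XR p.rho H) := by ring
      _ ≤ 0 := mul_nonpos_of_nonpos_of_nonneg hneg (mul_nonneg hTT0 hX0)
      _ ≤ _ := hP0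
  · have hpos : 0 < 1 - 8 * eps - v := not_le.1 hneg
    refine le_of_mul_le_mul_left ?_ hlev0
    calc (p.Lev th (Ideal.span {(p.W : 𝓞 K) ^ s}) H : ℝ) *
          ((1 - 8 * eps - v) * p.TT H * p.XR p.rho H) ≤
        ((1 + eps) * y) * ((1 - 8 * eps - v) * p.TT H * p.XR p.rho H) :=
          mul_le_mul_of_nonneg_right hlev
            (mul_nonneg (mul_nonneg hpos.le hTT0) hX0)
      _ = ((1 + eps) * (1 - 8 * eps - v)) * (y * p.TT H * p.XR p.rho H) := by ring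
      _ ≤ (1 - 4 * eps - v) * (y * p.TT H * p.XR p.rho H) := by
          refine mul_le_mul_of_nonneg_right ?_ (by positivity)
          nlinarith [mul_nonneg he.le hv0, mul_pos he he]
      _ = (1 - 4 * eps - v) * (T' * p.XR p.rho H) := by rw [hmt]
      _ ≤ _ := h5
      _ ≤ _ := hTR

end NFHP
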