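import Pool.Agent.Lib.MP_e426f4_ag.N.FirstAux
import Pool.Agent.Lib.MP_e426f4_ag.N.NLoc
import Pool.Agent.Lib.MP_e426f4_ag.N.CardCl
import Pool.Agent.Lib.MP_e426f4_ag.N.Points
import Pool.Agent.Lib.MP_e426f4_ag.N.Trans

/-! Module NF-S1b: upper bound for the first moment. -/

set_option linter.unusedSectionVars false
set_option linter.unusedVariables false

namespace NFHP

open NumberField GenHP Finset Filter Topology

variable {K : Type} [Field K] [NumberField K] {n d : ℕ}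

private theorem s1b_num (N : ℕ) (hN : 0 < N) (e : ℝ) (he : 0 < e) (he1 : e ≤ 1 / 10) :
    (1 + e) * (1 + e / N) ^ N * (1 + e) ≤ (1 - e) * (1 + 8 * e) := by
  have h1 := pow_le_quad N hN e he (by linarith)
  have h2 : (1 + e) * (1 + e) ≤ 1 + 21 / 10 * e := by nlinarith
  have h3 : 1 + e + e ^ 2 ≤ 1 + 11 / 10 * e := by nlinarith
  calc (1 + e) * (1 + e / N) ^ N * (1 + e) = (1 + e) * (1 + e) * (1 + e / N) ^ N := by ring
    _ ≤ (1 + 21 / 10 * e) * (1 + 11 / 10 * e) :=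
        mul_le_mul h2 (h1.trans h3) (by positivity) (by positivity)
    _ ≤ (1 - e) * (1 + 8 * e) := by nlinarith

/-- NF-S1b (FirstUpper.lean) -/
theorem S1_upper (p : Par K n d) {eps bet k0 : ℝ} {w : ℕ} (hp : p.Valid eps bet k0 w) (R : ℝ)
    (hR : 1 ≤ R) (r : ℝ) (hr : p.rho ≤ r) (hr2 : r ≤ 3 / 2 * p.rho) :
    ∀ᶠ H : ℝ in atTop,
      ((p.Pairs r R H).ncard : ℝ) ≤ (1 + 8 * eps) * p.TT H * p.XR r H := by
  have he := hp.eps_pos
  have he1 := hp.eps_le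
  have hkap := hp.kap_pos
  have hrho := hp.rho_pos
  have hQ := hp.Q_pos
  have hQr : (0 : ℝ) < p.Q := by exact_mod_cast hQ
  have hr0 : 0 < r := hrho.trans_le hr
  obtain ⟨s, hs⟩ := hp.hens.2.1
  have hnQ : p.Q ∣ p.W ^ s := by rw [hs]
  obtain ⟨N, hNdef⟩ : ∃ N : ℕ, N = mK K * NN n d := ⟨_, rfl⟩
  have hN : 0 < N := by rw [hNdef]; exact Nat.mul_pos mK_pos (NN_pos n d)
  have hNr : (1 : ℝ) ≤ N := by exact_mod_cast hN
  have hN0 : (0 : ℝ) < N := by linarith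
  have hc4 := S1_one_le_c4 p hp
  have hc2 : (0 : ℝ) < c4 K n d := by linarith
  obtain ⟨th, hth, hth2, hth3⟩ : ∃ th : ℝ, 0 < th ∧ th ≤ p.kap / 4 ∧
      th ≤ eps * p.rho / (c4 K n d * N) :=
    ⟨min (p.kap / 4) (eps * p.rho / (c4 K n d * N)),
      lt_min (by positivity) (by positivity), min_le_left _ _, min_le_right _ _⟩
  have hct : c4 K n d * th ≤ p.rho * (eps / N) := by
    rw [le_div_iff₀ (by positivity)] at hth3
    rw [mul_div_assoc', le_div_iff₀ hN0]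
    linarith
  have heN : eps / N ≤ eps := div_le_self he.le hNr
  have heN0 : 0 < eps / N := by positivity
  have hr9 : r + c4 K n d * th ≤ r * (1 + eps / N) := by
    have := mul_le_mul_of_nonneg_right hr heN0.le
    linarith
  have hr9b : r + c4 K n d * th ≤ 2 * p.rho := by
    have h1 : p.rho * (eps / N) ≤ p.rho * (1 / 10) :=
      mul_le_mul_of_nonneg_left (heN.trans he1) hrho.le
    linarith
  obtain ⟨B0, hB0⟩ := nloc p hp th hth hth2 s hnQ ⊤ top_ne_bot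
    (by rw [← Ideal.one_eq_top]; exact isCoprime_one_left)
  have hBt := Bf_atTop n d hp.n_ge hp.d_ge hp.d_le
  have hev1 : ∀ᶠ H : ℝ in atTop, 1 ≤ Bf n d H := hBt.eventually_ge_atTop 1
  have hev3 : ∀ᶠ H : ℝ in atTop, B0 ≤ Bf n d H := hBt.eventually_ge_atTop B0
  filter_upwards [trans_upper p hp R hR r th hth s hnQ,
    card_Cl p hQ (r + c4 K n d * th) eps (by positivity) he, hev1, hev3,
    Lev_asymp p hp th hth _ (S1_span_W_ne_bot p hp s) eps he,
    eventually_ge_atTop (1 : ℝ)] with H hTR hCl hB1 hB0' hLev hH1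
  have hH0 : (0 : ℝ) < H := by linarith
  have hB1' : (1 : ℝ) ≤ Bf n d H := by exact_mod_cast hB1
  have hBpos : (0 : ℝ) < Bf n d H := by linarith
  have hlev := hLev.1
  have hmt := S1_main_term_eq p hp th s H hH0 hB1
  obtain ⟨T', hT'⟩ : ∃ T' : ℝ, T' = p.MT th s H := ⟨_, rfl⟩
  have hT'nn : 0 ≤ T' := by rw [hT']; exact S1_MT_nonneg p hp th hth.le s H
  have hTT0 : 0 ≤ p.TT H := S1_TT_nonneg p hp H hH0.le
  obtain ⟨y, hydef⟩ : ∃ y : ℝ, y = p.vg * (th * H * (Bf n d H : ℝ) ^ d) ^ mK K /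
      Ideal.absNorm (Ideal.span {(p.W : 𝓞 K) ^ s}) := ⟨_, rfl⟩
  have hy0 : 0 < y := by
    have h1 : (0 : ℝ) < Ideal.absNorm (Ideal.span {(p.W : 𝓞 K) ^ s}) := by
      exact_mod_cast absNorm_pos (S1_span_W_ne_bot p hp s)
    have h2 := hp.vg_pos
    rw [hydef]
    positivity
  rw [← hydef] at hlev hmt
  rw [← hT'] at hmt
  -- number of local pairs
  have hLP : ((p.LP (r + c4 K n d * th) th s (p.GG R (Bf n d H)) H).ncard : ℝ) ≤
      ((p.Cl (r + c4 K n d * th) H).ncard : ℝ) * ((1 + eps) * T') := by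
    refine ncard_pairs_le (p.Cl (r + c4 K n d * th) H) (Cl_finite p _ H) (p.GG R (Bf n d H))
      (GG_finite p R (Bf n d H)) (fun A x => ((p.W : 𝓞 K) ^ s) ∣ F A x ∧
        VIn p.gam (th * H * (Bf n d H : ℝ) ^ d) (F A x)) _ ?_
    intro A hA
    have h1 := (hB0 (Bf n d H) hB0' H hH0 A
      (S1_near_Ainf p hp (r + c4 K n d * th) H hH0.le hr9b A hA) hA.2 (fun _ => 0)).2
    rw [Ideal.absNorm_top, Nat.cast_one, one_pow, div_one] at h1
    have h1' : (Set.ncard {x : Fin (n + 1) → 𝓞 K | x ∈ p.XX (Bf n d H) ∧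
        (p.W : 𝓞 K) ^ s ∣ F A x ∧ VIn p.gam (th * H * (Bf n d H : ℝ) ^ d) (F A x) ∧
        ∀ i, x i - 0 ∈ (⊤ : Ideal (𝓞 K))} : ℝ) ≤ (1 + eps) * T' := by
      rw [hT']
      exact h1
    refine le_trans ?_ h1'
    have h3 : {x | x ∈ p.GG R (Bf n d H) ∧ ((p.W : 𝓞 K) ^ s) ∣ F A x ∧
        VIn p.gam (th * H * (Bf n d H : ℝ) ^ d) (F A x)} ⊆
        {x : Fin (n + 1) → 𝓞 K | x ∈ p.XX (Bf n d H) ∧ ((p.W : 𝓞 K) ^ s) ∣ F A x ∧
          VIn p.gam (th * H * (Bf n d H : ℝ) ^ d) (F A x) ∧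
          ∀ i, x i - 0 ∈ (⊤ : Ideal (𝓞 K))} := by
      intro x hx
      exact ⟨hx.1.1, hx.2.1, hx.2.2, fun i => Submodule.mem_top⟩
    exact Nat.cast_le.mpr
      (Set.ncard_le_ncard h3 ((XX_finite p (Bf n d H)).subset fun _ hx => hx.1))
  have hX : p.XR (r + c4 K n d * th) H ≤ (1 + eps / N) ^ N * p.XR r H := by
    unfold Par.XR
    rw [← hNdef, ← mul_pow]
    refine pow_le_pow_left₀ (by positivity) ?_ _
    rw [mul_div_assoc', div_le_div_iff_of_pos_right hQr]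
    nlinarith [mul_le_mul_of_nonneg_right hr9 hH0.le]
  have hX0 : 0 ≤ p.XR r H := S1_XR_nonneg p r H hr0.le hH0.le
  obtain ⟨X, hXdef⟩ : ∃ X : ℝ, X = p.XR r H := ⟨_, rfl⟩
  rw [← hXdef] at hX hX0 ⊢
  have hP0 : (0 : ℝ) ≤ ((p.Pairs r R H).ncard : ℝ) := Nat.cast_nonneg _
  have h5 : (1 - eps) * y * ((p.Pairs r R H).ncard : ℝ) ≤
      (1 - eps) * y * ((1 + 8 * eps) * p.TT H * X) := by
    calc (1 - eps) * y * ((p.Pairs r R H).ncard : ℝ) ≤
        (p.Lev th (Ideal.span {(p.W : 𝓞 K) ^ s}) H : ℝ) * ((p.Pairs r R H).ncard : ℝ) :=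
          mul_le_mul_of_nonneg_right hlev hP0
      _ ≤ _ := hTR
      _ ≤ _ := hLP
      _ ≤ ((1 + eps) * p.XR (r + c4 K n d * th) H) * ((1 + eps) * T') :=
          mul_le_mul_of_nonneg_right hCl.2 (by positivity)
      _ ≤ ((1 + eps) * ((1 + eps / N) ^ N * X)) * ((1 + eps) * T') := by gcongr
      _ = (1 + eps) * (1 + eps / N) ^ N * (1 + eps) * (y * p.TT H * X) := by
          rw [hmt]
          ring
      _ ≤ (1 - eps) * (1 + 8 * eps) * (y * p.TT H * X) :=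
          mul_le_mul_of_nonneg_right (s1b_num _ hN eps he he1) (by positivity)
      _ = _ := by ring
  have h6 : 0 < (1 - eps) * y := mul_pos (by linarith) hy0
  exact le_of_mul_le_mul_left h5 h6

end NFHP
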