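import Pool.Agent.Lib.MP_e426f4_ag.N.AlgCplx
import Pool.Agent.Lib.MP_e426f4_ag.N.Lat

/-!
# Exceptional forms at an infinite place (module NF-ER)
-/

set_option linter.unusedSectionVars false

namespace NFHP

open NumberField GenHP Finset Filter Topology

/-! ### Counting with triangular conditions -/

section tri

private theorem ix_prod_ite {I : Type*} [Fintype I] [DecidableEq I] (K : Finset I) (c : ℕ) :
    ∏ t : I, (if t ∈ K then c else 1) = c ^ K.card := by
  rw [Finset.prod_ite_mem, Finset.univ_inter, Finset.prod_const]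

private theorem ix_fibre {I M : Type*} [Fintype I] [DecidableEq I] [DecidableEq M]
    (T : Finset I) (S : Finset (I → M))
    (N : ℕ) (hag : ∀ A ∈ S, ∀ A' ∈ S, ∀ t, t ∉ T → A t = A' t)
    (h : ∀ t ∈ T, (S.image fun A => A t).card ≤ N) : S.card ≤ N ^ T.card := by
  classical
  rcases S.eq_empty_or_nonempty with rfl | ⟨A0, hA0⟩
  · simp
  have hsub : S ⊆ Fintype.piFinset fun t => if t ∈ T then S.image (fun A => A t) else {A0 t} := by
    intro A hA
    rw [Fintype.mem_piFinset]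
    intro t
    split_ifs with ht
    · exact Finset.mem_image.mpr ⟨A, hA, rfl⟩
    · rw [Finset.mem_singleton]
      exact hag A hA A0 hA0 t ht
  refine (Finset.card_le_card hsub).trans ?_
  rw [Fintype.card_piFinset, ← ix_prod_ite T N]
  refine Finset.prod_le_prod' fun t _ => ?_
  split_ifs with ht
  · exact h t ht
  · simp

private theorem ix_tri_count {I M : Type*} [Fintype I] [DecidableEq I] [DecidableEq M] [Zero M]
    (J T : Finset I)
    (hJT : Disjoint J T) (Bf : Finset M) (S : Finset (I → M)) (hS : ∀ A ∈ S, ∀ t, A t ∈ Bf) (N : ℕ)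
    (h1 : ∀ a ∈ J, ∀ S' ⊆ S, (∀ A ∈ S', ∀ A' ∈ S', ∀ t, t ∉ J → t ∉ T → A t = A' t) →
      (S'.image fun A => A a).card ≤ N)
    (h0 : ∀ a ∈ T, ∀ S' ⊆ S, (∀ A ∈ S', ∀ A' ∈ S', ∀ t, t ∉ T → A t = A' t) →
      (S'.image fun A => A a).card ≤ N) :
    S.card ≤ Bf.card ^ (Fintype.card I - (J.card + T.card)) * N ^ (J.card + T.card) := by
  classical
  set K : Finset I := (J ∪ T)ᶜ with hK
  have hKcard : K.card = Fintype.card I - (J.card + T.card) := by
    rw [hK, Finset.card_compl, Finset.card_union_of_disjoint hJT]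
  have memK : ∀ t, t ∈ K ↔ t ∉ J ∧ t ∉ T := by
    intro t
    simp [hK]
  have hJT' : ∀ t, t ∈ J → t ∉ T := fun t ht ht' => (Finset.disjoint_left.mp hJT) ht ht'
  -- fibres over the values off `T`
  have step0 : ∀ S' ⊆ S, (∀ A ∈ S', ∀ A' ∈ S', ∀ t, t ∉ T → A t = A' t) →
      S'.card ≤ N ^ T.card := fun S' hS' hag => ix_fibre T S' N hag fun t ht => h0 t ht S' hS' hag
  -- fibres over the values off `J` and `T`
  have step1 : ∀ S' ⊆ S, (∀ A ∈ S', ∀ A' ∈ S', ∀ t, t ∉ J → t ∉ T → A t = A' t) →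
      S'.card ≤ N ^ (J.card + T.card) := by
    intro S' hS' hagree
    let σ : (I → M) → I → M := fun A t => if t ∈ T then 0 else A t
    have e1 := Finset.card_le_mul_card_image (f := σ) S' (N ^ T.card) (by
      intro r _
      apply step0
      · exact (Finset.filter_subset _ _).trans hS'
      · intro A hA A' hA' t ht
        rw [Finset.mem_filter] at hA hA'
        have := congrFun (hA.2.trans hA'.2.symm) t
        simpa [σ, ht] using this)
    have e2 : (S'.image σ).card ≤ N ^ J.card := by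
      apply ix_fibre J
      · intro B hB B' hB' t ht
        obtain ⟨A, hA, rfl⟩ := Finset.mem_image.mp hB
        obtain ⟨A', hA', rfl⟩ := Finset.mem_image.mp hB'
        by_cases htT : t ∈ T
        · simp [σ, htT]
        · simp only [σ, if_neg htT]
          exact hagree A hA A' hA' t ht htT
      · intro t ht
        have hs : ((S'.image σ).image fun A => A t) ⊆ S'.image fun A => A t := by
          intro v hv
          obtain ⟨B, hB, rfl⟩ := Finset.mem_image.mp hv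
          obtain ⟨A, hA, rfl⟩ := Finset.mem_image.mp hB
          refine Finset.mem_image.mpr ⟨A, hA, ?_⟩
          simp [σ, hJT' t ht]
        exact (Finset.card_le_card hs).trans (h1 t ht S' hS' hagree)
    calc S'.card ≤ N ^ T.card * (S'.image σ).card := e1
      _ ≤ N ^ T.card * N ^ J.card := Nat.mul_le_mul_left _ e2
      _ = N ^ (J.card + T.card) := by rw [← pow_add, add_comm]
  let ρ : (I → M) → I → M := fun A t => if t ∈ K then A t else 0
  have e1 := Finset.card_le_mul_card_image (f := ρ) S (N ^ (J.card + T.card)) (by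
    intro r _
    apply step1
    · exact Finset.filter_subset _ _
    · intro A hA A' hA' t ht ht'
      rw [Finset.mem_filter] at hA hA'
      have := congrFun (hA.2.trans hA'.2.symm) t
      have htK : t ∈ K := (memK t).mpr ⟨ht, ht'⟩
      simpa [ρ, htK] using this)
  have e2 : (S.image ρ).card ≤ Bf.card ^ K.card := by
    have hsub : S.image ρ ⊆ Fintype.piFinset fun t => if t ∈ K then Bf else {0} := by
      intro B hB
      rw [Finset.mem_image] at hB
      obtain ⟨A, hA, rfl⟩ := hB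
      rw [Fintype.mem_piFinset]
      intro t
      by_cases ht : t ∈ K
      · simp only [ρ, ht, if_true]
        exact hS A hA t
      · simp [ρ, ht]
    refine (Finset.card_le_card hsub).trans ?_
    rw [Fintype.card_piFinset, ← ix_prod_ite K Bf.card]
    refine Finset.prod_le_prod' fun t _ => ?_
    split_ifs with ht
    · exact le_rfl
    · simp
  calc S.card ≤ N ^ (J.card + T.card) * (S.image ρ).card := e1
    _ ≤ N ^ (J.card + T.card) * Bf.card ^ K.card := Nat.mul_le_mul_left _ e2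
    _ = Bf.card ^ (Fintype.card I - (J.card + T.card)) * N ^ (J.card + T.card) := by
        rw [hKcard]; ring

end tri

/-! ### Two families of monomials -/

section mono

variable {n : ℕ}

/-- the exponent vector of `x_{j0}^d` -/
private def ix_pw (j0 : Fin (n + 1)) (d : ℕ) : Idx n d := ⟨Pi.single j0 d, by simp⟩

/-- the exponent vector of `x_{j0}^(d-1) x_j` (for `d ≥ 1`) -/
private def ix_pm (j0 j : Fin (n + 1)) (d : ℕ) (hd : 1 ≤ d) : Idx n d :=
  ⟨Pi.single j0 (d - 1) + Pi.single j 1, by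
    simp only [Pi.add_apply, Finset.sum_add_distrib]
    simp
    omega⟩

private theorem ix_mon_pw (x : Fin (n + 1) → ℂ) (j0 : Fin (n + 1)) (d : ℕ) :
    mon x (ix_pw j0 d).1 = x j0 ^ d := by
  unfold mon ix_pw
  rw [Finset.prod_eq_single j0]
  · simp
  · intro i _ hi
    simp [hi]
  · intro h; exact absurd (mem_univ _) h

private theorem ix_mon_single (x : Fin (n + 1) → ℂ) (j0 : Fin (n + 1)) (d : ℕ) :
    mon x (Pi.single j0 d : Fin (n + 1) → ℕ) = x j0 ^ d := ix_mon_pw x j0 d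

private theorem ix_dmon_single (x : Fin (n + 1) → ℂ) (j0 j : Fin (n + 1)) (hj : j ≠ j0) (d : ℕ) :
    dmon x j (Pi.single j0 d : Fin (n + 1) → ℕ) = 0 := by
  unfold dmon
  simp [hj]

private theorem ix_dmon_pm (x : Fin (n + 1) → ℂ) (j0 j j' : Fin (n + 1)) (hj : j ≠ j0) (d : ℕ)
    (hd : 1 ≤ d) :
    dmon x j (ix_pm j0 j' d hd).1 = if j = j' then x j0 ^ (d - 1) else 0 := by
  show dmon x j (Pi.single j0 (d - 1) + Pi.single j' 1 : Fin (n + 1) → ℕ) = _
  rw [ALR.dmon_succ, ix_mon_single, ix_dmon_single x j0 j hj, mul_zero, add_zero]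

private theorem ix_pm_inj (j0 j j' : Fin (n + 1)) (d : ℕ) (hd : 1 ≤ d)
    (h : ix_pm j0 j d hd = ix_pm j0 j' d hd) : j = j' := by
  have h1 : (Pi.single j0 (d - 1) + Pi.single j 1 : Fin (n + 1) → ℕ) =
      Pi.single j0 (d - 1) + Pi.single j' 1 := congrArg Subtype.val h
  have h2 : (Pi.single j 1 : Fin (n + 1) → ℕ) = Pi.single j' 1 := add_left_cancel h1
  by_contra hne
  have h3 := congrFun h2 j
  simp [hne] at h3

private theorem ix_pm_ne_pw (j0 j : Fin (n + 1)) (hj : j ≠ j0) (d : ℕ) (hd : 1 ≤ d) :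
    ix_pm j0 j d hd ≠ ix_pw j0 d := by
  intro h
  have h1 : (Pi.single j0 (d - 1) + Pi.single j 1 : Fin (n + 1) → ℕ) = Pi.single j0 d :=
    congrArg Subtype.val h
  have h2 := congrFun h1 j
  simp [hj] at h2

end mono

/-! ### Forms with small value and small derivatives at a fixed point -/

section fixed

variable {K : Type} [Field K] [NumberField K] {n d : ℕ}

private theorem ix_F_diff (a a' : Idx n d → ℂ) (x : Fin (n + 1) → ℂ) (t0 : Idx n d)
    (h : ∀ t, t ≠ t0 → a t = a' t) :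
    F a x - F a' x = (a t0 - a' t0) * mon x t0.1 := by
  unfold F
  rw [← Finset.sum_sub_distrib, Finset.sum_eq_single t0]
  · ring
  · intro t _ ht
    rw [h t ht, sub_self]
  · intro h; exact absurd (mem_univ _) h

private theorem ix_D_diff1 (a a' : Idx n d → ℂ) (x : Fin (n + 1) → ℂ) (j : Fin (n + 1))
    (t0 : Idx n d) (h : ∀ t, t ≠ t0 → dmon x j t.1 ≠ 0 → a t = a' t) :
    D a x j - D a' x j = (a t0 - a' t0) * dmon x j t0.1 := by
  unfold D
  rw [← Finset.sum_sub_distrib, Finset.sum_eq_single t0]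
  · ring
  · intro t _ ht
    by_cases h0 : dmon x j t.1 = 0
    · rw [h0, mul_zero, mul_zero, sub_self]
    · rw [h t ht h0, sub_self]
  · intro h; exact absurd (mem_univ _) h

open Classical in
/-- the sizes at the places -/
private noncomputable def ix_X (w : InfinitePlace K) (r s : ℝ) : InfinitePlace K → ℝ :=
  fun w' => if w' = w then r else s

private theorem ix_np (w : InfinitePlace K) (r s : ℝ) :
    np (ix_X w r s) = r ^ w.mult * s ^ (mK K - w.mult) := by
  classical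
  unfold np
  rw [← Finset.mul_prod_erase univ _ (mem_univ w)]
  have h1 : ix_X w r s w = r := by unfold ix_X; rw [if_pos rfl]
  have h2 : ∏ w' ∈ univ.erase w, ix_X w r s w' ^ w'.mult =
      ∏ w' ∈ univ.erase w, s ^ w'.mult := by
    refine Finset.prod_congr rfl fun w' hw' => ?_
    unfold ix_X
    rw [if_neg (Finset.ne_of_mem_erase hw')]
  rw [h1, h2, Finset.prod_pow_eq_pow_sum]
  have h3 : w.mult + ∑ w' ∈ univ.erase w, w'.mult = mK K := by
    rw [Finset.add_sum_erase univ (fun w' : InfinitePlace K => w'.mult) (mem_univ w)]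
    exact sum_mult
  congr 2
  omega

open Classical in
private theorem ix_card_image (w : InfinitePlace K) (C : ℝ)
    (hC : ∀ I : Ideal (𝓞 K), I ≠ ⊥ → ∀ X : InfinitePlace K → ℝ, (∀ w, 0 < X w) →
      ∀ v : InfinitePlace K → ℂ,
      {a : 𝓞 K | a ∈ I ∧ ∀ w, ‖sg w a - v w‖ ≤ X w}.Finite ∧
      (Set.ncard {a : 𝓞 K | a ∈ I ∧ ∀ w, ‖sg w a - v w‖ ≤ X w} : ℝ) ≤
        C * (np X / Ideal.absNorm I + 1)) (H : ℝ) (hH : 0 < H) (wd : ℝ) (hwd : 0 < wd)
    (Z : Finset (𝓞 K)) (hZ : ∀ a ∈ Z, ∀ j, |(crd a j : ℝ)| ≤ H)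
    (hZ2 : ∀ a ∈ Z, ∀ a' ∈ Z, ‖sg w a - sg w a'‖ ≤ wd) :
    Z.card ≤ ⌊C * (wd ^ w.mult * (cK K * H) ^ (mK K - w.mult) + 1)⌋₊ := by
  have hcK := cK_pos (K := K)
  rcases Z.eq_empty_or_nonempty with rfl | ⟨a0, ha0⟩
  · simp
  let v : InfinitePlace K → ℂ := fun w' => if w' = w then sg w a0 else 0
  have hX : ∀ w', 0 < ix_X w wd (cK K * H) w' := by
    intro w'
    unfold ix_X
    split_ifs
    · exact hwd
    · positivity
  obtain ⟨hfin, hcard⟩ := hC ⊤ (by simp) (ix_X w wd (cK K * H)) hX v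
  rw [ix_np, Ideal.absNorm_top, Nat.cast_one, div_one] at hcard
  have hsub : (Z : Set (𝓞 K)) ⊆
      {a : 𝓞 K | a ∈ (⊤ : Ideal (𝓞 K)) ∧ ∀ w', ‖sg w' a - v w'‖ ≤ ix_X w wd (cK K * H) w'} := by
    intro a ha
    refine ⟨Submodule.mem_top, fun w' => ?_⟩
    by_cases hw : w' = w
    · subst hw
      simp only [v, ix_X, if_true]
      exact hZ2 a ha a0 ha0
    · simp only [v, ix_X, if_neg hw, sub_zero]
      exact norm_sg_le_of_crd (hZ a ha) w'
  have h1 := Set.ncard_le_ncard hsub hfin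
  rw [Set.ncard_coe_finset] at h1
  refine Nat.le_floor ?_
  refine le_trans ?_ hcard
  exact_mod_cast h1

/-- the box in one coefficient -/
private theorem ix_box (K : Type) [Field K] [NumberField K] (H : ℕ) :
    ∃ Bf : Finset (𝓞 K), Bf.card = (2 * H + 1) ^ mK K ∧
      ∀ a : 𝓞 K, (∀ j, |(crd a j : ℝ)| ≤ H) → a ∈ Bf := by
  classical
  choose g hg using exists_crd (K := K)
  have hginj : Function.Injective g := by
    intro c c' h
    funext j
    rw [← hg c j, ← hg c' j, h]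
  refine ⟨(Fintype.piFinset fun _ : IK K => Icc (-(H : ℤ)) H).image g, ?_, fun a ha => ?_⟩
  · rw [Finset.card_image_of_injective _ hginj, Fintype.card_piFinset]
    rw [Finset.prod_const, Finset.card_univ, card_IK, Int.card_Icc]
    congr 1
    omega
  · refine Finset.mem_image.mpr ⟨fun j => crd a j, ?_, ?_⟩
    · rw [Fintype.mem_piFinset]
      intro j
      rw [Finset.mem_Icc]
      have := ha j
      rw [abs_le] at this
      constructor
      · exact_mod_cast this.1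
      · exact_mod_cast this.2
    · exact crd_ext fun j => hg _ j

private theorem ix_card_point (hd : 1 ≤ d) (w : InfinitePlace K) (C : ℝ)
    (hC : ∀ I : Ideal (𝓞 K), I ≠ ⊥ → ∀ X : InfinitePlace K → ℝ, (∀ w, 0 < X w) →
      ∀ v : InfinitePlace K → ℂ,
      {a : 𝓞 K | a ∈ I ∧ ∀ w, ‖sg w a - v w‖ ≤ X w}.Finite ∧
      (Set.ncard {a : 𝓞 K | a ∈ I ∧ ∀ w, ‖sg w a - v w‖ ≤ X w} : ℝ) ≤
        C * (np X / Ideal.absNorm I + 1)) (H : ℕ) (hH : 1 ≤ H) (wd : ℝ) (hwd : 0 < wd)
    (x : Fin (n + 1) → ℂ) (j0 : Fin (n + 1)) (hx : x j0 = 1)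
    (S : Finset (Idx n d → 𝓞 K)) (hS : ∀ A ∈ S, A ∈ BoxK K n d H)
    (hF : ∀ A ∈ S, ‖F (fun t => sg w (A t)) x‖ ≤ wd)
    (hD : ∀ A ∈ S, ∀ j, ‖D (fun t => sg w (A t)) x j‖ ≤ wd) :
    S.card ≤ ((2 * H + 1) ^ mK K) ^ (NN n d - (n + 1)) *
      ⌊C * ((2 * wd) ^ w.mult * (cK K * H) ^ (mK K - w.mult) + 1)⌋₊ ^ (n + 1) ∧
      n + 1 ≤ NN n d := by
  classical
  obtain ⟨Bf, hBf, hBfm⟩ := ix_box K H
  have hH0 : (0 : ℝ) < H := by exact_mod_cast hH
  let J : Finset (Idx n d) := (univ.erase j0).image fun j => ix_pm j0 j d hd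
  let T : Finset (Idx n d) := {ix_pw j0 d}
  have hJcard : J.card = n := by
    rw [Finset.card_image_of_injective, Finset.card_erase_of_mem (mem_univ _), Finset.card_univ,
      Fintype.card_fin, Nat.add_sub_cancel]
    intro j j' h
    exact ix_pm_inj j0 j j' _ _ h
  have hTcard : T.card = 1 := Finset.card_singleton _
  have hmemJ : ∀ t : Idx n d, t ∈ J → ∃ j, j ≠ j0 ∧ t = ix_pm j0 j d hd := by
    intro t h
    obtain ⟨j, hj, h1⟩ := Finset.mem_image.mp h
    exact ⟨j, Finset.ne_of_mem_erase hj, h1.symm⟩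
  have hJT : Disjoint J T := by
    rw [Finset.disjoint_left]
    intro t h h'
    obtain ⟨j, hj, h1⟩ := hmemJ t h
    rw [Finset.mem_singleton, h1] at h'
    exact ix_pm_ne_pw j0 j hj _ _ h'
  have hle : n + 1 ≤ NN n d := by
    have h1 : (J ∪ T).card ≤ Fintype.card (Idx n d) := Finset.card_le_univ _
    rw [Finset.card_union_of_disjoint hJT, hJcard, hTcard] at h1
    exact h1
  refine ⟨?_, hle⟩
  have hmain := ix_tri_count J T hJT Bf S (fun A hA t => hBfm _ fun j => hS A hA t j)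
    ⌊C * ((2 * wd) ^ w.mult * (cK K * H) ^ (mK K - w.mult) + 1)⌋₊ (by
    intro a ha S' hS' hag
    obtain ⟨j, hj, rfl⟩ := hmemJ a ha
    apply ix_card_image w C hC H hH0 (2 * wd) (by positivity)
    · intro v hv
      obtain ⟨A, hA, rfl⟩ := Finset.mem_image.mp hv
      exact hS A (hS' hA) _
    · intro v hv v' hv'
      obtain ⟨A, hA, rfl⟩ := Finset.mem_image.mp hv
      obtain ⟨A', hA', rfl⟩ := Finset.mem_image.mp hv'
      have h1 := hD A (hS' hA) j
      have h2 := hD A' (hS' hA') j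
      have h3 := ix_D_diff1 (fun t => sg w (A t)) (fun t => sg w (A' t)) x j (ix_pm j0 j d hd) (by
        intro t ht hdt
        show sg w (A t) = sg w (A' t)
        rw [hag A hA A' hA' t ?_ ?_]
        · intro h
          obtain ⟨j', hj', h3⟩ := hmemJ t h
          rw [h3, ix_dmon_pm x j0 j j' hj] at hdt
          by_cases hjj : j = j'
          · exact ht (by rw [h3, hjj])
          · rw [if_neg hjj] at hdt
            exact hdt rfl
        · intro h
          rw [Finset.mem_singleton] at h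
          rw [h] at hdt
          exact hdt (ix_dmon_single x j0 j hj d))
      rw [ix_dmon_pm x j0 j j hj, if_pos rfl, hx, one_pow, mul_one] at h3
      show ‖sg w (A (ix_pm j0 j d hd)) - sg w (A' (ix_pm j0 j d hd))‖ ≤ 2 * wd
      rw [← h3]
      refine (norm_sub_le _ _).trans ?_
      linarith) (by
    intro a ha S' hS' hag
    rw [Finset.mem_singleton] at ha
    subst ha
    apply ix_card_image w C hC H hH0 (2 * wd) (by positivity)
    · intro v hv
      obtain ⟨A, hA, rfl⟩ := Finset.mem_image.mp hv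
      exact hS A (hS' hA) _
    · intro v hv v' hv'
      obtain ⟨A, hA, rfl⟩ := Finset.mem_image.mp hv
      obtain ⟨A', hA', rfl⟩ := Finset.mem_image.mp hv'
      have h1 := hF A (hS' hA)
      have h2 := hF A' (hS' hA')
      have h3 := ix_F_diff (fun t => sg w (A t)) (fun t => sg w (A' t)) x (ix_pw j0 d) (by
        intro t ht
        show sg w (A t) = sg w (A' t)
        rw [hag A hA A' hA' t ?_]
        rwa [Finset.mem_singleton])
      rw [ix_mon_pw, hx, one_pow, mul_one] at h3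
      show ‖sg w (A (ix_pw j0 d)) - sg w (A' (ix_pw j0 d))‖ ≤ 2 * wd
      rw [← h3]
      refine (norm_sub_le _ _).trans ?_
      linarith)
  rw [hJcard, hTcard, hBf] at hmain
  exact hmain

end fixed

/-! ### Nets -/

section nets

private theorem ix_trunc (y : ℝ) : ∃ m : ℤ, |(m : ℝ)| ≤ |y| ∧ |y - m| ≤ 1 := by
  rcases le_or_gt 0 y with hy | hy
  · refine ⟨⌊y⌋, ?_, ?_⟩
    · rw [abs_of_nonneg hy, abs_of_nonneg (by exact_mod_cast Int.floor_nonneg.2 hy)]
      exact Int.floor_le y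
    · rw [abs_le]
      constructor <;> linarith [Int.floor_le y, Int.lt_floor_add_one y]
  · refine ⟨⌈y⌉, ?_, ?_⟩
    · rw [abs_of_neg hy]
      have h1 : ⌈y⌉ ≤ 0 := Int.ceil_le.2 (by simpa using hy.le)
      have h2 : (⌈y⌉ : ℝ) ≤ 0 := by exact_mod_cast h1
      rw [abs_of_nonpos h2]
      linarith [Int.le_ceil y]
    · rw [abs_le]
      constructor <;> linarith [Int.le_ceil y, Int.ceil_lt_add_one y]

private theorem ix_near (bet : ℝ) (hb : 0 < bet) (y : ℝ) (hy : |y| ≤ 1) :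
    ∃ m : ℤ, m ∈ Icc (-⌊1 / bet⌋) ⌊1 / bet⌋ ∧ |bet * m - y| ≤ bet := by
  obtain ⟨m, h1, h2⟩ := ix_trunc (y / bet)
  refine ⟨m, ?_, ?_⟩
  · have h3 : |y / bet| ≤ 1 / bet := by
      rw [abs_div, abs_of_pos hb]
      exact div_le_div_of_nonneg_right hy hb.le
    have h4 := abs_le.1 (h1.trans h3)
    rw [Finset.mem_Icc]
    constructor
    · have : -m ≤ ⌊1 / bet⌋ := Int.le_floor.2 (by push_cast; linarith [h4.1])
      linarith
    · exact Int.le_floor.2 h4.2
  · have h3 : bet * (m : ℝ) - y = -(bet * (y / bet - m)) := by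
      field_simp
      ring
    rw [h3, abs_neg, abs_mul, abs_of_pos hb]
    calc bet * |y / bet - m| ≤ bet * 1 := mul_le_mul_of_nonneg_left h2 hb.le
      _ = bet := mul_one _

private theorem ix_Icc_card (bet : ℝ) (hb : 0 < bet) (hb1 : bet ≤ 1) :
    ((Icc (-⌊1 / bet⌋) ⌊1 / bet⌋).card : ℝ) ≤ 3 / bet := by
  set R : ℤ := ⌊1 / bet⌋ with hR
  have hRnn : 0 ≤ R := Int.floor_nonneg.2 (by positivity)
  have h0 : (Icc (-R) R).card = (2 * R + 1).toNat := by
    rw [Int.card_Icc]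
    congr 1
    ring
  have h3 : (((2 * R + 1).toNat : ℕ) : ℤ) = 2 * R + 1 := Int.toNat_of_nonneg (by omega)
  have h4 : (((2 * R + 1).toNat : ℕ) : ℝ) = 2 * (R : ℝ) + 1 := by
    exact_mod_cast congrArg (fun n : ℤ => (n : ℝ)) h3
  rw [h0, h4]
  have h5 : (R : ℝ) ≤ 1 / bet := Int.floor_le _
  have h6 : 1 ≤ 1 / bet := by rw [le_div_iff₀ hb]; linarith
  have h7 : 3 / bet = 3 * (1 / bet) := by ring
  rw [h7]
  linarith

/-- a net of the unit ball of the completion -/
private theorem ix_net1 {K : Type} [Field K] (w : InfinitePlace K) (bet : ℝ) (hb : 0 < bet)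
    (hb1 : bet ≤ 1) :
    ∃ N : Finset ℂ, (N.card : ℝ) ≤ (3 / bet) ^ w.mult ∧
      ∀ z : ℂ, (w.IsReal → z.im = 0) → ‖z‖ ≤ 1 → ∃ y ∈ N, ‖y - z‖ ≤ 2 * bet := by
  classical
  by_cases hw : w.IsReal
  · refine ⟨(Icc (-⌊1 / bet⌋) ⌊1 / bet⌋).image fun m : ℤ => ((bet * m : ℝ) : ℂ), ?_, ?_⟩
    · have hm : w.mult = 1 := InfinitePlace.mult_isReal ⟨w, hw⟩
      rw [hm, pow_one]
      refine le_trans ?_ (ix_Icc_card bet hb hb1)
      exact_mod_cast Finset.card_image_le
    · intro z hz hz1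
      have hz0 := hz hw
      have h1 : |z.re| ≤ 1 := (Complex.abs_re_le_norm z).trans hz1
      obtain ⟨m, hm1, hm2⟩ := ix_near bet hb z.re h1
      refine ⟨_, Finset.mem_image.mpr ⟨m, hm1, rfl⟩, ?_⟩
      have h2 : z = ((z.re : ℝ) : ℂ) := Complex.ext (by simp) (by simp [hz0])
      rw [h2, ← Complex.ofReal_sub, Complex.norm_real, Real.norm_eq_abs]
      linarith
  · refine ⟨((Icc (-⌊1 / bet⌋) ⌊1 / bet⌋) ×ˢ (Icc (-⌊1 / bet⌋) ⌊1 / bet⌋)).image
      fun m : ℤ × ℤ => (⟨bet * m.1, bet * m.2⟩ : ℂ), ?_, ?_⟩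
    · have hm : w.mult = 2 := by
        rw [InfinitePlace.mult, if_neg hw]
      rw [hm]
      have h1 : ((((Icc (-⌊1 / bet⌋) ⌊1 / bet⌋) ×ˢ (Icc (-⌊1 / bet⌋) ⌊1 / bet⌋)).image
          fun m : ℤ × ℤ => (⟨bet * m.1, bet * m.2⟩ : ℂ)).card : ℝ) ≤
          (((Icc (-⌊1 / bet⌋) ⌊1 / bet⌋) ×ˢ (Icc (-⌊1 / bet⌋) ⌊1 / bet⌋)).card : ℝ) := by
        exact_mod_cast Finset.card_image_le
      refine h1.trans ?_
      rw [Finset.card_product]
      push_cast
      rw [sq]
      have h2 := ix_Icc_card bet hb hb1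
      exact mul_le_mul h2 h2 (by positivity) (by positivity)
    · intro z _ hz1
      obtain ⟨m, hm1, hm2⟩ := ix_near bet hb z.re ((Complex.abs_re_le_norm z).trans hz1)
      obtain ⟨m', hm1', hm2'⟩ := ix_near bet hb z.im ((Complex.abs_im_le_norm z).trans hz1)
      refine ⟨_, Finset.mem_image.mpr ⟨(m, m'), Finset.mem_product.mpr ⟨hm1, hm1'⟩, rfl⟩, ?_⟩
      refine (Complex.norm_le_abs_re_add_abs_im _).trans ?_
      simp only [Complex.sub_re, Complex.sub_im]
      linarith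

/-- a net of the face `z_i = 1` of the unit cube -/
private theorem ix_net {K : Type} [Field K] (w : InfinitePlace K) (n : ℕ) (bet : ℝ) (hb : 0 < bet)
    (hb1 : bet ≤ 1) (i : Fin (n + 1)) :
    ∃ N : Finset (Fin (n + 1) → ℂ), (N.card : ℝ) ≤ ((3 / bet) ^ w.mult) ^ n ∧
      (∀ y ∈ N, y i = 1) ∧
      ∀ z : Fin (n + 1) → ℂ, (w.IsReal → ∀ k, (z k).im = 0) → (∀ k, ‖z k‖ ≤ 1) → z i = 1 →
        ∃ y ∈ N, ∀ k, ‖y k - z k‖ ≤ 2 * bet := by
  classical
  obtain ⟨N1, hN1, hN1'⟩ := ix_net1 w bet hb hb1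
  refine ⟨Fintype.piFinset fun k => if k = i then {1} else N1, ?_, ?_, ?_⟩
  · rw [Fintype.card_piFinset, ← Finset.mul_prod_erase univ _ (mem_univ i), if_pos rfl,
      Finset.card_singleton, one_mul]
    have h4 : (univ.erase i).card = n := by
      rw [card_erase_of_mem (mem_univ i), card_univ, Fintype.card_fin, Nat.add_sub_cancel]
    have h5 : ∀ j ∈ univ.erase i, (if j = i then ({1} : Finset ℂ) else N1).card = N1.card := by
      intro j hj
      rw [if_neg (Finset.ne_of_mem_erase hj)]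
    rw [Finset.prod_congr rfl h5, Finset.prod_const, h4]
    push_cast
    exact pow_le_pow_left₀ (by positivity) hN1 n
  · intro y hy
    rw [Fintype.mem_piFinset] at hy
    have := hy i
    rwa [if_pos rfl, Finset.mem_singleton] at this
  · intro z hz hz1 hzi
    have h1 : ∀ k, ∃ y : ℂ, y ∈ (if k = i then ({1} : Finset ℂ) else N1) ∧
        ‖y - z k‖ ≤ 2 * bet := by
      intro k
      by_cases hk : k = i
      · subst hk
        refine ⟨1, by simp, ?_⟩
        rw [hzi, sub_self, norm_zero]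
        positivity
      · rw [if_neg hk]
        exact hN1' (z k) (fun hw => hz hw k) (hz1 k)
    choose y hy1 hy2 using h1
    exact ⟨y, Fintype.mem_piFinset.mpr hy1, hy2⟩

end nets

variable {K : Type} [Field K] [NumberField K] {n d : ℕ}

theorem inf_exc (hn : 1 ≤ n) (hd : 1 ≤ d) (w : InfinitePlace K) (eps : ℝ) (he : 0 < eps) :
    ∃ bet : ℝ, 0 < bet ∧ bet ≤ 1 ∧ ∀ᶠ H : ℕ in atTop,
      (Set.ncard {A : Idx n d → 𝓞 K | A ∈ BoxK K n d H ∧ LocI w (fun t => sg w (A t)) ∧
        ¬ GoodI w 0 (bet * H) (fun t => sg w (A t))} : ℝ) ≤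
        eps * (2 * H + 1) ^ (mK K * NN n d) := by
  classical
  obtain ⟨C, hC1, hC⟩ := lat_upper K
  have hcK := cK_pos (K := K)
  have hcK1 := one_le_cK (K := K)
  -- constants
  obtain ⟨C5, hC5⟩ : ∃ C5 : ℝ, C5 = 4 * NN n d * 4 ^ d * 2 ^ d * cK K +
    2 * NN n d * d * 4 ^ d * 2 ^ d * cK K + 2 * ((n : ℝ) + 1) + 1 := ⟨_, rfl⟩
  have hC51 : 1 ≤ C5 := by
    rw [hC5]
    have : 0 ≤ 4 * (NN n d : ℝ) * 4 ^ d * 2 ^ d * cK K +
      2 * NN n d * d * 4 ^ d * 2 ^ d * cK K + 2 * ((n : ℝ) + 1) := by positivity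
    linarith
  obtain ⟨C6, hC6⟩ : ∃ C6 : ℝ, C6 = 2 * C * (2 * C5 * cK K) ^ mK K := ⟨_, rfl⟩
  have hC61 : 0 < C6 := by rw [hC6]; positivity
  obtain ⟨C7, hC7⟩ : ∃ C7 : ℝ, C7 = ((n : ℝ) + 1) * ((3 ^ w.mult) ^ n * C6 ^ (n + 1)) := ⟨_, rfl⟩
  have hC70 : 0 < C7 := by rw [hC7]; positivity
  refine ⟨min 1 (eps / C7), by positivity, min_le_left _ _, ?_⟩
  obtain ⟨bet, hbet⟩ : ∃ bet : ℝ, bet = min 1 (eps / C7) := ⟨_, rfl⟩
  have hb : 0 < bet := by rw [hbet]; positivity
  have hb1 : bet ≤ 1 := by rw [hbet]; exact min_le_left _ _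
  have hbe : C7 * bet ≤ eps := by
    have : bet ≤ eps / C7 := by rw [hbet]; exact min_le_right _ _
    rw [le_div_iff₀ hC70] at this
    linarith
  rw [← hbet]
  choose N hNcard hN1 hNnet using fun i : Fin (n + 1) => ix_net w n bet hb hb1 i
  filter_upwards [eventually_ge_atTop (⌈1 / bet ^ w.mult⌉₊ + 1)] with H hH
  have hH1 : 1 ≤ H := by omega
  have hHr : (1 : ℝ) ≤ H := by exact_mod_cast hH1
  have hHb : 1 ≤ bet ^ w.mult * H := by
    have h1 : (1 / bet ^ w.mult : ℝ) ≤ H := by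
      refine (Nat.le_ceil _).trans ?_
      exact_mod_cast (Nat.le_succ _).trans hH
    rw [div_le_iff₀ (by positivity)] at h1
    linarith
  obtain ⟨Bf, hBf, hBfm⟩ := ix_box K H
  obtain ⟨wd, hwd⟩ : ∃ wd : ℝ, wd = C5 * (bet * H) := ⟨_, rfl⟩
  have hwd0 : 0 < wd := by rw [hwd]; positivity
  let SS : (Fin (n + 1) → ℂ) → Finset (Idx n d → 𝓞 K) := fun y =>
    (Fintype.piFinset fun _ : Idx n d => Bf).filter fun A =>
      A ∈ BoxK K n d H ∧ ‖F (fun t => sg w (A t)) y‖ ≤ wd ∧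
        ∀ j, ‖D (fun t => sg w (A t)) y j‖ ≤ wd
  -- the number of forms for one point of the net
  have hfl : (⌊C * ((2 * wd) ^ w.mult * (cK K * H) ^ (mK K - w.mult) + 1)⌋₊ : ℝ) ≤
      C6 * bet ^ w.mult * (H : ℝ) ^ mK K := by
    refine (Nat.floor_le (by positivity)).trans ?_
    have hmult : w.mult ≤ mK K := by
      rw [← sum_mult (K := K)]
      exact Finset.single_le_sum (f := fun w' : InfinitePlace K => w'.mult)
        (fun _ _ => Nat.zero_le _) (mem_univ w)
    have h1 : (2 * wd) ^ w.mult * (cK K * H) ^ (mK K - w.mult) ≤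
        bet ^ w.mult * (2 * C5 * cK K) ^ mK K * (H : ℝ) ^ mK K := by
      have h2 : (2 * wd) ^ w.mult * (cK K * H) ^ (mK K - w.mult) =
          bet ^ w.mult * ((2 * C5) ^ w.mult * (cK K) ^ (mK K - w.mult)) *
            ((H : ℝ) ^ w.mult * (H : ℝ) ^ (mK K - w.mult)) := by
        rw [hwd]
        have : 2 * (C5 * (bet * (H : ℝ))) = bet * (2 * C5) * H := by ring
        rw [this, mul_pow, mul_pow, mul_pow]
        ring
      have h3 : (H : ℝ) ^ w.mult * (H : ℝ) ^ (mK K - w.mult) = (H : ℝ) ^ mK K := by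
        rw [← pow_add, Nat.add_sub_cancel' hmult]
      rw [h2, h3]
      refine mul_le_mul_of_nonneg_right (mul_le_mul_of_nonneg_left ?_ (by positivity))
        (by positivity)
      have h4 : (2 * C5) ^ w.mult ≤ (2 * C5 * cK K) ^ w.mult := by
        refine pow_le_pow_left₀ (by positivity) ?_ _
        nlinarith
      have h5 : (cK K) ^ (mK K - w.mult) ≤ (2 * C5 * cK K) ^ (mK K - w.mult) := by
        refine pow_le_pow_left₀ (by positivity) ?_ _
        nlinarith
      calc (2 * C5) ^ w.mult * (cK K) ^ (mK K - w.mult)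
          ≤ (2 * C5 * cK K) ^ w.mult * (2 * C5 * cK K) ^ (mK K - w.mult) :=
            mul_le_mul h4 h5 (by positivity) (by positivity)
        _ = (2 * C5 * cK K) ^ mK K := by rw [← pow_add, Nat.add_sub_cancel' hmult]
    have h6 : 1 ≤ bet ^ w.mult * (2 * C5 * cK K) ^ mK K * (H : ℝ) ^ mK K := by
      have h7 : (1 : ℝ) ≤ (2 * C5 * cK K) ^ mK K := one_le_pow₀ (by nlinarith)
      have h8 : (H : ℝ) ≤ (H : ℝ) ^ mK K := le_self_pow₀ hHr (mK_pos (K := K)).ne'
      have h9 : 1 ≤ bet ^ w.mult * (H : ℝ) ^ mK K :=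
        hHb.trans (mul_le_mul_of_nonneg_left h8 (by positivity))
      calc (1 : ℝ) ≤ (2 * C5 * cK K) ^ mK K * (bet ^ w.mult * (H : ℝ) ^ mK K) :=
            one_le_mul_of_one_le_of_one_le h7 h9
        _ = _ := by ring
    calc C * ((2 * wd) ^ w.mult * (cK K * H) ^ (mK K - w.mult) + 1)
        ≤ C * (bet ^ w.mult * (2 * C5 * cK K) ^ mK K * (H : ℝ) ^ mK K +
            bet ^ w.mult * (2 * C5 * cK K) ^ mK K * (H : ℝ) ^ mK K) :=
          mul_le_mul_of_nonneg_left (add_le_add h1 h6) (by linarith)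
      _ = C6 * bet ^ w.mult * (H : ℝ) ^ mK K := by rw [hC6]; ring
  have hSS : ∀ i, ∀ y ∈ N i, ((SS y).card : ℝ) ≤
      C6 ^ (n + 1) * (bet ^ w.mult) ^ (n + 1) * (2 * H + 1) ^ (mK K * NN n d) := by
    intro i y hy
    obtain ⟨h1, h2⟩ := ix_card_point (n := n) hd w C hC H hH1 wd hwd0 y i (hN1 i y hy) (SS y)
      (fun A hA => (mem_filter.1 hA).2.1) (fun A hA => (mem_filter.1 hA).2.2.1)
      (fun A hA => (mem_filter.1 hA).2.2.2)
    have h3 : ((SS y).card : ℝ) ≤ (((2 * H + 1) ^ mK K) ^ (NN n d - (n + 1)) : ℝ) *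
        (⌊C * ((2 * wd) ^ w.mult * (cK K * H) ^ (mK K - w.mult) + 1)⌋₊ : ℝ) ^ (n + 1) := by
      exact_mod_cast h1
    refine h3.trans ?_
    have h4 : (⌊C * ((2 * wd) ^ w.mult * (cK K * H) ^ (mK K - w.mult) + 1)⌋₊ : ℝ) ≤
        C6 * bet ^ w.mult * (2 * (H : ℝ) + 1) ^ mK K := by
      refine hfl.trans (mul_le_mul_of_nonneg_left ?_ (by positivity))
      exact pow_le_pow_left₀ (by positivity) (by linarith) _
    have h5 := pow_le_pow_left₀ (by positivity) h4 (n + 1)
    refine (mul_le_mul_of_nonneg_left h5 (by positivity)).trans (le_of_eq ?_)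
    have h6 : ((2 * (H : ℝ) + 1) ^ mK K) ^ (NN n d - (n + 1)) *
        ((2 * (H : ℝ) + 1) ^ mK K) ^ (n + 1) = (2 * (H : ℝ) + 1) ^ (mK K * NN n d) := by
      rw [← pow_add, Nat.sub_add_cancel h2, ← pow_mul]
    rw [← h6, mul_pow, mul_pow]
    ring
  let U : Finset (Idx n d → 𝓞 K) := univ.biUnion fun i : Fin (n + 1) => (N i).biUnion SS
  have hsub : {A : Idx n d → 𝓞 K | A ∈ BoxK K n d H ∧ LocI w (fun t => sg w (A t)) ∧
        ¬ GoodI w 0 (bet * H) (fun t => sg w (A t))} ⊆ (U : Set (Idx n d → 𝓞 K)) := by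
    rintro A ⟨hA, ⟨z, ⟨hzr, hz1, i, hzi⟩, hz0⟩, hng⟩
    have hzi0 : z i ≠ 0 := by
      intro h
      rw [h, norm_zero] at hzi
      exact zero_ne_one hzi
    -- normalisation
    obtain ⟨z', hz'⟩ : ∃ z' : Fin (n + 1) → ℂ, z' = fun k => (z i)⁻¹ * z k := ⟨_, rfl⟩
    have hz'n : ∀ k, ‖z' k‖ ≤ 1 := fun k => by
      rw [hz', norm_mul, norm_inv, hzi, inv_one, one_mul]
      exact hz1 k
    have hz'i : z' i = 1 := by
      rw [hz']
      exact inv_mul_cancel₀ hzi0
    have hz'r : w.IsReal → ∀ k, (z' k).im = 0 := by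
      intro hw k
      have h1 : ((z i).re : ℂ) = z i := Complex.ext (by simp) (by simp [hzr hw i])
      have h2 : ((z k).re : ℂ) = z k := Complex.ext (by simp) (by simp [hzr hw k])
      rw [hz']
      show ((z i)⁻¹ * z k).im = 0
      rw [← h1, ← h2, ← Complex.ofReal_inv, ← Complex.ofReal_mul]
      exact Complex.ofReal_im _
    have hz'0 : F (fun t => sg w (A t)) z' = 0 := by
      rw [hz', F_scale, hz0, mul_zero]
    have hz'D : ∀ j, ‖D (fun t => sg w (A t)) z' j‖ ≤ bet * H := by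
      intro j
      by_contra hj
      push Not at hj
      refine hng ⟨z', ⟨hz'r, hz'n, i, by rw [hz'i, norm_one]⟩, by rw [hz'0, norm_zero], j, hj.le⟩
    obtain ⟨y, hyN, hyz⟩ := hNnet i z' hz'r hz'n hz'i
    have hAn : ∀ t, ‖sg w (A t)‖ ≤ cK K * H := fun t => norm_sg_le_of_crd (hA t) w
    have hyy : (fun k => z' k + (y k - z' k)) = y := by funext k; ring
    have hz'2 : ∀ k, ‖z' k‖ ≤ 2 := fun k => (hz'n k).trans (by norm_num)
    have hbH : 0 ≤ bet * (H : ℝ) := by positivity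
    rw [mem_coe]
    refine mem_biUnion.mpr ⟨i, mem_univ _, mem_biUnion.mpr ⟨y, hyN, ?_⟩⟩
    refine mem_filter.mpr ⟨Fintype.mem_piFinset.mpr fun t => hBfm _ (hA t), hA, ?_, fun j => ?_⟩
    · have h1 := F_taylor (fun t => sg w (A t)) z' (fun k => y k - z' k) (cK K * H) 2 (2 * bet)
        (by norm_num) (by positivity) (by linarith) hAn hz'2 hyz
      rw [hyy, hz'0, sub_zero] at h1
      have h2 : ‖∑ j, D (fun t => sg w (A t)) z' j * (y j - z' j)‖ ≤
          ((n : ℝ) + 1) * ((bet * H) * (2 * bet)) := by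
        calc ‖∑ j, D (fun t => sg w (A t)) z' j * (y j - z' j)‖
            ≤ ∑ j, ‖D (fun t => sg w (A t)) z' j * (y j - z' j)‖ := norm_sum_le _ _
          _ ≤ ∑ _j : Fin (n + 1), (bet * H) * (2 * bet) := by
              refine Finset.sum_le_sum fun j _ => ?_
              rw [norm_mul]
              exact mul_le_mul (hz'D j) (hyz j) (norm_nonneg _) hbH
          _ = ((n : ℝ) + 1) * ((bet * H) * (2 * bet)) := by
              rw [Finset.sum_const, Finset.card_univ, Fintype.card_fin, nsmul_eq_mul]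
              push_cast
              ring
      have h3 : F (fun t => sg w (A t)) y = (F (fun t => sg w (A t)) y -
          ∑ j, D (fun t => sg w (A t)) z' j * (y j - z' j)) +
          ∑ j, D (fun t => sg w (A t)) z' j * (y j - z' j) := by ring
      rw [h3]
      refine (norm_add_le _ _).trans ?_
      have h4 : bet * (bet * (H : ℝ)) ≤ 1 * (bet * H) := mul_le_mul_of_nonneg_right hb1 hbH
      have h5 : NN n d * 4 ^ d * (cK K * H) * 2 ^ d * (2 * bet) ^ 2 =
          (4 * NN n d * 4 ^ d * 2 ^ d * cK K) * (bet * (bet * H)) := by ring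
      have h6 : ((n : ℝ) + 1) * ((bet * H) * (2 * bet)) =
          (2 * ((n : ℝ) + 1)) * (bet * (bet * H)) := by ring
      have h7 : (4 * NN n d * 4 ^ d * 2 ^ d * cK K) * (bet * (bet * (H : ℝ))) ≤
          (4 * NN n d * 4 ^ d * 2 ^ d * cK K) * (1 * (bet * H)) :=
        mul_le_mul_of_nonneg_left h4 (by positivity)
      have h8 : (2 * ((n : ℝ) + 1)) * (bet * (bet * (H : ℝ))) ≤
          (2 * ((n : ℝ) + 1)) * (1 * (bet * H)) :=
        mul_le_mul_of_nonneg_left h4 (by positivity)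
      have h9 : wd = (4 * NN n d * 4 ^ d * 2 ^ d * cK K) * (1 * (bet * H)) +
          (2 * ((n : ℝ) + 1)) * (1 * (bet * H)) +
          (2 * NN n d * d * 4 ^ d * 2 ^ d * cK K + 1) * (bet * H) := by
        rw [hwd, hC5]
        ring
      have h10 : 0 ≤ (2 * (NN n d : ℝ) * d * 4 ^ d * 2 ^ d * cK K + 1) * (bet * H) := by
        positivity
      linarith
    · have h1 := D_taylor (fun t => sg w (A t)) z' (fun k => y k - z' k) j (cK K * H) 2 (2 * bet)
        (by norm_num) (by positivity) (by linarith) hAn hz'2 hyz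
      rw [hyy] at h1
      have h3 : D (fun t => sg w (A t)) y j = (D (fun t => sg w (A t)) y j -
          D (fun t => sg w (A t)) z' j) + D (fun t => sg w (A t)) z' j := by ring
      rw [h3]
      refine (norm_add_le _ _).trans ?_
      have h2 := hz'D j
      have h5 : NN n d * d * 4 ^ d * (cK K * H) * 2 ^ d * (2 * bet) =
          (2 * NN n d * d * 4 ^ d * 2 ^ d * cK K) * (bet * H) := by ring
      have h9 : wd = (2 * NN n d * d * 4 ^ d * 2 ^ d * cK K) * (bet * H) + bet * H +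
          (4 * NN n d * 4 ^ d * 2 ^ d * cK K + 2 * ((n : ℝ) + 1)) * (bet * H) := by
        rw [hwd, hC5]
        ring
      have h10 : 0 ≤ (4 * (NN n d : ℝ) * 4 ^ d * 2 ^ d * cK K + 2 * ((n : ℝ) + 1)) *
          (bet * H) := by positivity
      linarith
  have hncard := Set.ncard_le_ncard hsub (Finset.finite_toSet U)
  rw [Set.ncard_coe_finset] at hncard
  have hU : (U.card : ℝ) ≤ ∑ i : Fin (n + 1), ∑ y ∈ N i, ((SS y).card : ℝ) := by
    have h1 : U.card ≤ ∑ i : Fin (n + 1), ∑ y ∈ N i, (SS y).card :=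
      Finset.card_biUnion_le.trans (Finset.sum_le_sum fun i _ => Finset.card_biUnion_le)
    exact_mod_cast h1
  have hncard' : (Set.ncard {A : Idx n d → 𝓞 K | A ∈ BoxK K n d H ∧
      LocI w (fun t => sg w (A t)) ∧ ¬ GoodI w 0 (bet * H) (fun t => sg w (A t))} : ℝ) ≤
      (U.card : ℝ) := by exact_mod_cast hncard
  refine hncard'.trans (hU.trans ?_)
  have hM : (0 : ℝ) ≤ C6 ^ (n + 1) * (bet ^ w.mult) ^ (n + 1) *
    (2 * (H : ℝ) + 1) ^ (mK K * NN n d) := by positivity
  calc ∑ i : Fin (n + 1), ∑ y ∈ N i, ((SS y).card : ℝ)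
      ≤ ∑ i : Fin (n + 1), ∑ _y ∈ N i, C6 ^ (n + 1) * (bet ^ w.mult) ^ (n + 1) *
          (2 * (H : ℝ) + 1) ^ (mK K * NN n d) :=
        Finset.sum_le_sum fun i _ => Finset.sum_le_sum fun y hy => hSS i y hy
    _ = ∑ i : Fin (n + 1), ((N i).card : ℝ) * (C6 ^ (n + 1) * (bet ^ w.mult) ^ (n + 1) *
          (2 * (H : ℝ) + 1) ^ (mK K * NN n d)) := by
        refine Finset.sum_congr rfl fun i _ => ?_
        rw [Finset.sum_const, nsmul_eq_mul]
    _ ≤ ∑ _i : Fin (n + 1), ((3 / bet) ^ w.mult) ^ n * (C6 ^ (n + 1) *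
          (bet ^ w.mult) ^ (n + 1) * (2 * (H : ℝ) + 1) ^ (mK K * NN n d)) :=
        Finset.sum_le_sum fun i _ => mul_le_mul_of_nonneg_right (hNcard i) hM
    _ = C7 * bet ^ w.mult * (2 * (H : ℝ) + 1) ^ (mK K * NN n d) := by
        rw [Finset.sum_const, Finset.card_univ, Fintype.card_fin, nsmul_eq_mul]
        have h1 : ((3 / bet) ^ w.mult) ^ n * (bet ^ w.mult) ^ (n + 1) =
            (3 ^ w.mult) ^ n * bet ^ w.mult := by
          rw [div_pow, div_pow, pow_succ (bet ^ w.mult) n]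
          field_simp
        have h2 : ((3 / bet) ^ w.mult) ^ n * (C6 ^ (n + 1) *
            (bet ^ w.mult) ^ (n + 1) * (2 * (H : ℝ) + 1) ^ (mK K * NN n d)) =
            (((3 / bet) ^ w.mult) ^ n * (bet ^ w.mult) ^ (n + 1)) * C6 ^ (n + 1) *
              (2 * (H : ℝ) + 1) ^ (mK K * NN n d) := by ring
        rw [h2, h1, hC7]
        push_cast
        ring
    _ ≤ eps * (2 * (H : ℝ) + 1) ^ (mK K * NN n d) := by
        refine mul_le_mul_of_nonneg_right ?_ (by positivity)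
        have h1 : bet ^ w.mult ≤ bet := pow_le_of_le_one hb.le hb1 InfinitePlace.mult_pos.ne'
        exact (mul_le_mul_of_nonneg_left h1 hC70.le).trans hbe

end NFHP
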