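import Pool.Agent.Lib.MP_e426f4_ag.N.Equi

/-! # Forms without a good point at a prime are few -/

set_option linter.unusedSectionVars false

namespace NFHP

open NumberField GenHP Finset Filter Topology

variable {K : Type} [Field K] [NumberField K] {n d : ℕ}

/-! ### finite rings -/

section finring
variable {R : Type} [CommRing R]

/-- the exponent vector `(d-1) e_i + e_j` -/
private def pexE (hd : 1 ≤ d) (i j : Fin (n + 1)) : Idx n d :=
  ⟨fun l => (if l = i then d - 1 else 0) + (if l = j then 1 else 0), by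
    rw [Finset.sum_add_distrib]
    simp
    omega⟩

private theorem pexE_inj (hd : 1 ≤ d) (i : Fin (n + 1)) : Function.Injective (pexE hd i) := by
  intro j j' h
  have h1 := congrArg (fun t : Idx n d => t.1 j) h
  simp only [pexE, if_true] at h1
  by_contra hne
  rw [if_neg hne] at h1
  omega

private theorem pex_mon (hd : 1 ≤ d) (i : Fin (n + 1)) (x : Fin (n + 1) → R) (hx : x i = 1) :
    mon x (pexE hd i i).1 = 1 := by
  unfold mon
  refine Finset.prod_eq_one fun l _ => ?_
  by_cases hl : l = i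
  · rw [hl, hx, one_pow]
  · simp [pexE, hl]

private theorem pex_dmon_ne (hd : 1 ≤ d) (i j k : Fin (n + 1)) (x : Fin (n + 1) → R)
    (hk : k ≠ i) (hj : k ≠ j) : dmon x k (pexE hd i j).1 = 0 := by
  unfold dmon
  have : (pexE hd i j).1 k = 0 := by simp [pexE, hk, hj]
  rw [this]
  simp

private theorem pex_dmon_eq (hd : 1 ≤ d) (i k : Fin (n + 1)) (x : Fin (n + 1) → R)
    (hk : k ≠ i) (hx : x i = 1) : dmon x k (pexE hd i k).1 = 1 := by
  unfold dmon
  have h1 : (pexE hd i k).1 k = 1 := by simp [pexE, hk]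
  rw [h1, Nat.cast_one, one_mul]
  refine Finset.prod_eq_one fun l _ => ?_
  by_cases hl : l = i
  · rw [hl, hx, one_pow]
  · by_cases hl2 : l = k
    · rw [if_pos hl2, hl2, h1]
      simp
    · rw [if_neg hl2]
      simp [pexE, hl, hl2]

/-- the kernel is small: uniqueness -/
private theorem pex_unique (hd : 1 ≤ d) (i : Fin (n + 1)) (x : Fin (n + 1) → R) (hx : x i = 1)
    (b : Fin (n + 1) → R) (B : Idx n d → R) (hB : ∀ t, B t = ∑ j, if t = pexE hd i j then b j else 0)
    (hF : F B x = 0) (hD : ∀ j, D B x j = 0) : b = 0 := by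
  classical
  have hsum : ∀ g : Idx n d → R, ∑ t, B t * g t = ∑ j, b j * g (pexE hd i j) := by
    intro g
    simp only [hB, Finset.sum_mul]
    rw [Finset.sum_comm]
    refine Finset.sum_congr rfl fun j _ => ?_
    rw [Finset.sum_eq_single (pexE hd i j)]
    · rw [if_pos rfl]
    · intro t _ ht
      rw [if_neg ht, zero_mul]
    · intro h; exact absurd (Finset.mem_univ _) h
  have h1 : ∀ k, k ≠ i → b k = 0 := by
    intro k hk
    have h2 := hD k
    unfold D at h2
    rw [hsum, Finset.sum_eq_single k] at h2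
    · rwa [pex_dmon_eq hd i k x hk hx, mul_one] at h2
    · intro j _ hj
      rw [pex_dmon_ne hd i j k x hk (Ne.symm hj), mul_zero]
    · intro h; exact absurd (Finset.mem_univ _) h
  have h2 : b i = 0 := by
    have h3 := hF
    unfold F at h3
    rw [hsum, Finset.sum_eq_single i] at h3
    · rwa [pex_mon hd i x hx, mul_one] at h3
    · intro j _ hj
      rw [h1 j hj, zero_mul]
    · intro h; exact absurd (Finset.mem_univ _) h
  funext k
  by_cases hk : k = i
  · rw [hk]; exact h2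
  · exact h1 k hk

private theorem pex_ker_card [Fintype R] (hd : 1 ≤ d) (i : Fin (n + 1)) (x : Fin (n + 1) → R)
    (hx : x i = 1) :
    Set.ncard {A : Idx n d → R | F A x = 0 ∧ ∀ j, D A x j = 0} * Fintype.card R ^ (n + 1) ≤
      Fintype.card R ^ NN n d := by
  classical
  set S : Set (Idx n d → R) := {A | F A x = 0 ∧ ∀ j, D A x j = 0} with hS
  have hSf : S.Finite := Set.toFinite S
  let Ψ : (Idx n d → R) × (Fin (n + 1) → R) → (Idx n d → R) := fun p t =>
    p.1 t + ∑ j, if t = pexE hd i j then p.2 j else 0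
  have hinj : Set.InjOn Ψ (S ×ˢ (Set.univ : Set (Fin (n + 1) → R))) := by
    rintro ⟨A, c⟩ ⟨hA, -⟩ ⟨A', c'⟩ ⟨hA', -⟩ h
    have hA1 : F A x = 0 ∧ ∀ j, D A x j = 0 := hA
    have hA2 : F A' x = 0 ∧ ∀ j, D A' x j = 0 := hA'
    have hB : ∀ t, (fun t => A t - A' t) t = ∑ j, if t = pexE hd i j then (c' - c) j else 0 := by
      intro t
      have h1 := congrFun h t
      simp only [Ψ] at h1
      have h2 : ∑ j, (if t = pexE hd i j then (c' - c) j else 0) =
          (∑ j, if t = pexE hd i j then c' j else 0) - ∑ j, if t = pexE hd i j then c j else 0 := by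
        rw [← Finset.sum_sub_distrib]
        refine Finset.sum_congr rfl fun j _ => ?_
        split_ifs
        · rfl
        · rw [sub_zero]
      rw [h2]
      show A t - A' t = _
      linear_combination h1
    have hF0 : F (fun t => A t - A' t) x = 0 := by
      have : F (fun t => A t - A' t) x = F A x - F A' x := by
        simp only [F, sub_mul, Finset.sum_sub_distrib]
      rw [this, hA1.1, hA2.1, sub_zero]
    have hD0 : ∀ j, D (fun t => A t - A' t) x j = 0 := by
      intro j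
      have : D (fun t => A t - A' t) x j = D A x j - D A' x j := by
        simp only [D, sub_mul, Finset.sum_sub_distrib]
      rw [this, hA1.2 j, hA2.2 j, sub_zero]
    have hb := pex_unique hd i x hx (c' - c) (fun t => A t - A' t) hB hF0 hD0
    have hcc : c' = c := sub_eq_zero.mp hb
    have hAA : A = A' := by
      funext t
      have h1 := hB t
      rw [hb] at h1
      simp only [Pi.zero_apply, ite_self, Finset.sum_const_zero] at h1
      exact sub_eq_zero.mp h1
    rw [hAA, hcc]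
  have h1 : (S ×ˢ (Set.univ : Set (Fin (n + 1) → R))).ncard ≤
      (Set.univ : Set (Idx n d → R)).ncard :=
    Set.ncard_le_ncard_of_injOn Ψ (fun _ _ => Set.mem_univ _) hinj (Set.toFinite _)
  rw [Set.ncard_prod, Set.ncard_univ, Set.ncard_univ, Nat.card_eq_fintype_card,
    Nat.card_eq_fintype_card, Fintype.card_fun, Fintype.card_fun, Fintype.card_fin] at h1
  exact h1

private theorem pex_card_z [Fintype R] (i : Fin (n + 1)) :
    Set.ncard {z : Fin (n + 1) → R | z i = 1} ≤ Fintype.card R ^ n := by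
  classical
  have h1 := Set.ncard_le_ncard_of_injOn (s := {z : Fin (n + 1) → R | z i = 1})
    (t := (Set.univ : Set (Fin n → R))) (fun z k => z (i.succAbove k)) (fun _ _ => Set.mem_univ _)
    (by
      intro z hz z' hz' h
      have hz1 : z i = 1 := hz
      have hz2 : z' i = 1 := hz'
      funext l
      rcases eq_or_ne l i with hl | hl
      · rw [hl, hz1, hz2]
      · obtain ⟨k, rfl⟩ := Fin.exists_succAbove_eq hl
        exact congrFun h k) (Set.toFinite _)
  rwa [Set.ncard_univ, Nat.card_eq_fintype_card, Fintype.card_fun, Fintype.card_fin] at h1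

/-- forms over a finite ring with a singular zero -/
private theorem pex_card [Fintype R] (hd : 1 ≤ d) :
    Set.ncard {A : Idx n d → R | ∃ z : Fin (n + 1) → R, (∃ i, IsUnit (z i)) ∧ F A z = 0 ∧
      ∀ j, D A z j = 0} * Fintype.card R ≤ (n + 1) * Fintype.card R ^ NN n d := by
  classical
  set q := Fintype.card R with hq
  have hq0 : 0 < q := Fintype.card_pos_iff.mpr ⟨0⟩
  set S : Set (Idx n d → R) := {A | ∃ z : Fin (n + 1) → R, (∃ i, IsUnit (z i)) ∧ F A z = 0 ∧
      ∀ j, D A z j = 0} with hS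
  set Z : Fin (n + 1) → Finset (Fin (n + 1) → R) := fun i =>
    (Finset.univ : Finset (Fin (n + 1) → R)).filter fun z => z i = 1 with hZ
  have hZc : ∀ i, (Z i).card ≤ q ^ n := by
    intro i
    have h1 := pex_card_z (R := R) (n := n) i
    have h2 : {z : Fin (n + 1) → R | z i = 1} = ((Z i : Finset _) : Set (Fin (n + 1) → R)) := by
      ext z; simp [hZ]
    rwa [h2, Set.ncard_coe_finset] at h1
  have hsub : S ⊆ ⋃ i ∈ (Finset.univ : Finset (Fin (n + 1))), ⋃ z ∈ Z i,
      {A : Idx n d → R | F A z = 0 ∧ ∀ j, D A z j = 0} := by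
    rintro A ⟨z, ⟨i, hi⟩, hF, hD⟩
    obtain ⟨u, hu⟩ := hi
    simp only [Set.mem_iUnion, Finset.mem_univ, exists_true_left]
    refine ⟨i, fun l => (↑u⁻¹ : R) * z l, ?_, ?_, ?_⟩
    · simp only [hZ, Finset.mem_filter, Finset.mem_univ, true_and]
      rw [← hu, Units.inv_mul]
    · rw [F_scale, hF, mul_zero]
    · intro j
      rw [D_scale, hD j, mul_zero]
  have h1 : S.ncard ≤ ∑ i : Fin (n + 1), ∑ z ∈ Z i,
      Set.ncard {A : Idx n d → R | F A z = 0 ∧ ∀ j, D A z j = 0} := by
    refine (Set.ncard_le_ncard hsub (Set.toFinite _)).trans ?_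
    refine (Finset.set_ncard_biUnion_le _ _).trans ?_
    exact Finset.sum_le_sum fun i _ => Finset.set_ncard_biUnion_le _ _
  have h2 : ∀ i : Fin (n + 1), (∑ z ∈ Z i,
      Set.ncard {A : Idx n d → R | F A z = 0 ∧ ∀ j, D A z j = 0}) * q ^ (n + 1) ≤
      q ^ n * q ^ NN n d := by
    intro i
    rw [Finset.sum_mul]
    refine (Finset.sum_le_sum (g := fun _ => q ^ NN n d) fun z hz => ?_).trans ?_
    · have hz1 : z i = 1 := by simpa [hZ] using hz
      exact pex_ker_card hd i z hz1
    · rw [Finset.sum_const, smul_eq_mul]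
      exact Nat.mul_le_mul_right _ (hZc i)
  have h3 : S.ncard * q ^ (n + 1) ≤ (n + 1) * (q ^ n * q ^ NN n d) := by
    calc S.ncard * q ^ (n + 1) ≤ (∑ i : Fin (n + 1), ∑ z ∈ Z i,
          Set.ncard {A : Idx n d → R | F A z = 0 ∧ ∀ j, D A z j = 0}) * q ^ (n + 1) :=
          Nat.mul_le_mul_right _ h1
      _ ≤ ∑ _i : Fin (n + 1), q ^ n * q ^ NN n d := by
          rw [Finset.sum_mul]
          exact Finset.sum_le_sum fun i _ => h2 i
      _ = _ := by rw [Finset.sum_const, Finset.card_univ, Fintype.card_fin, smul_eq_mul]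
  have h4 : q ^ n * (S.ncard * q) ≤ q ^ n * ((n + 1) * q ^ NN n d) := by
    calc q ^ n * (S.ncard * q) = S.ncard * q ^ (n + 1) := by ring
      _ ≤ _ := h3
      _ = _ := by ring
  exact Nat.le_of_mul_le_mul_left h4 (pow_pos hq0 n)

end finring

theorem padic_exc (hn : 1 ≤ n) (hd : 1 ≤ d) (P : Ideal (𝓞 K)) (hP : P.IsMaximal) :
    ∃ C : ℝ, 0 < C ∧ ∀ a : ℕ, 1 ≤ a → ∀ᶠ H : ℕ in atTop,
      (Set.ncard {A : Idx n d → 𝓞 K | A ∈ BoxK K n d H ∧ LocP P A ∧ ¬ GoodP P a A} : ℝ) ≤
        C / (Ideal.absNorm P : ℝ) ^ a * (2 * H + 1) ^ (mK K * NN n d) := by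
  classical
  have hP0 : P ≠ ⊥ := Ring.ne_bot_of_isMaximal_of_not_isField hP (RingOfIntegers.not_isField K)
  refine ⟨2 * ((n : ℝ) + 1), by positivity, fun a ha => ?_⟩
  have hb : P ^ a ≠ ⊥ := by
    rw [← Ideal.zero_eq_bot] at hP0 ⊢
    exact pow_ne_zero _ hP0
  have hfin : Finite (𝓞 K ⧸ P ^ a) := Ideal.finiteQuotientOfFreeOfNeBot _ hb
  haveI : Fintype (𝓞 K ⧸ P ^ a) := Fintype.ofFinite _
  set S : Set (Idx n d → 𝓞 K ⧸ P ^ a) := {A | ∃ z : Fin (n + 1) → 𝓞 K ⧸ P ^ a,
    (∃ i, IsUnit (z i)) ∧ F A z = 0 ∧ ∀ j, D A z j = 0} with hS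
  have hcard := pex_card (R := 𝓞 K ⧸ P ^ a) (n := n) (d := d) hd
  rw [← hS] at hcard
  have hq : Fintype.card (𝓞 K ⧸ P ^ a) = Ideal.absNorm P ^ a := by
    rw [← map_pow, Ideal.absNorm_apply, Submodule.cardQuot_apply, Nat.card_eq_fintype_card]
  have hN : 0 < Ideal.absNorm P := absNorm_pos hP0
  have hNR : (0 : ℝ) < Ideal.absNorm P := by exact_mod_cast hN
  filter_upwards [box_classes_le (n := n) (d := d) (P ^ a) hb S] with H hH
  have hsub : {A : Idx n d → 𝓞 K | A ∈ BoxK K n d H ∧ LocP P A ∧ ¬ GoodP P a A} ⊆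
      {A : Idx n d → 𝓞 K | A ∈ BoxK K n d H ∧
        (fun t => Ideal.Quotient.mk (P ^ a) (A t)) ∈ S} := by
    rintro A ⟨hA, hloc, hgood⟩
    refine ⟨hA, ?_⟩
    obtain ⟨z, ⟨i, hi⟩, hz⟩ := hloc (2 * a)
    have hD : ∀ j, D A z j ∈ P ^ a := by
      by_contra hcon
      push Not at hcon
      exact hgood ⟨z, ⟨i, hi⟩, hz, hcon⟩
    refine ⟨fun l => Ideal.Quotient.mk (P ^ a) (z l), ⟨i, ?_⟩, ?_, ?_⟩
    · have hcop : IsCoprime (P ^ a) (Ideal.span {z i}) := by
        apply IsCoprime.pow_left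
        rw [Ideal.isCoprime_iff_sup_eq]
        by_contra hne
        have h1 : P ⊔ Ideal.span {z i} = P := (hP.eq_of_le hne le_sup_left).symm
        apply hi
        rw [← h1]
        exact Ideal.mem_sup_right (Ideal.mem_span_singleton_self _)
      obtain ⟨u, hu, v, hv, huv⟩ := Ideal.isCoprime_iff_exists.mp hcop
      obtain ⟨c, rfl⟩ := Ideal.mem_span_singleton'.mp hv
      refine IsUnit.of_mul_eq_one (Ideal.Quotient.mk (P ^ a) c) ?_
      rw [← map_mul, ← map_one (Ideal.Quotient.mk (P ^ a)), Ideal.Quotient.eq]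
      have : z i * c - 1 = -u := by linear_combination huv
      rw [this]
      exact neg_mem hu
    · rw [F_map, Ideal.Quotient.eq_zero_iff_mem]
      exact Ideal.pow_le_pow_right (by omega) hz
    · intro j
      rw [D_map, Ideal.Quotient.eq_zero_iff_mem]
      exact hD j
  have h1 : (Set.ncard {A : Idx n d → 𝓞 K | A ∈ BoxK K n d H ∧ LocP P A ∧ ¬ GoodP P a A} : ℝ) ≤
      (Set.ncard {A : Idx n d → 𝓞 K | A ∈ BoxK K n d H ∧
        (fun t => Ideal.Quotient.mk (P ^ a) (A t)) ∈ S} : ℝ) := by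
    exact_mod_cast Set.ncard_le_ncard hsub ((BoxK_finite (H : ℝ)).subset fun A hA => hA.1)
  refine h1.trans (hH.trans ?_)
  rw [map_pow, Nat.cast_pow]
  refine mul_le_mul_of_nonneg_right ?_ (by positivity)
  have h2 : (S.ncard : ℝ) * (Ideal.absNorm P : ℝ) ^ a ≤
      ((n : ℝ) + 1) * ((Ideal.absNorm P : ℝ) ^ a) ^ NN n d := by
    rw [hq] at hcard
    exact_mod_cast hcard
  rw [div_le_div_iff₀ (by positivity) (by positivity)]
  nlinarith

end NFHP
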