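import Pool.Agent.Lib.MP_e426f4_ag.N.Sg
import Pool.Agent.Lib.MP_e426f4_ag.N.Ideals
import Pool.Agent.Lib.MP_e426f4_ag.N.ClassThm
import Pool.Agent.Lib.MP_e426f4_ag.N.PadicExc
import Pool.Agent.Lib.MP_e426f4_ag.N.InfExc

/-! Module GL: global assembly. -/

set_option linter.unusedSectionVars false

namespace NFHP

open NumberField GenHP Finset Filter Topology

variable {K : Type} [Field K] [NumberField K] {n d : ℕ}

/-- the centre of the cell `a` -/
private noncomputable def glC (R : ℕ) (a : Idx n d → IK K → Fin R) : Idx n d → IK K → ℝ :=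
  fun t j => -1 + (2 * (a t j : ℝ) + 1) / R

/-- the nonsoluble forms of a class -/
private def glS (R Q : ℕ) (a : Idx n d → IK K → Fin R) (b : Idx n d → IK K → Fin Q) (H : ℕ) :
    Set (Idx n d → 𝓞 K) :=
  {A | (∀ t j, |(crd (A t) j : ℝ) - H * glC R a t j| ≤ 1 / R * H) ∧
    (∀ t j, (Q : ℤ) ∣ crd (A t) j - ((b t j : ℕ) : ℤ)) ∧ ¬ Soluble A}

/-- the class has a witness -/
private def glW (w k R Q : ℕ) (bet : ℝ) (a : Idx n d → IK K → Fin R)
    (b : Idx n d → IK K → Fin Q) : Prop :=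
  ∃ (H : ℕ) (A : Idx n d → 𝓞 K), 1 ≤ H ∧ A ∈ BoxK K n d H ∧
    (∀ t j, |(crd (A t) j : ℝ) - H * glC R a t j| ≤ 1 / R * H) ∧
    (∀ t j, (Q : ℤ) ∣ crd (A t) j - ((b t j : ℕ) : ℤ)) ∧
    (∀ w', GoodI w' 0 (bet * H) (fun t => sg w' (A t))) ∧
    (∀ P : Ideal (𝓞 K), P.IsMaximal → (primorial w : 𝓞 K) ∈ P →
        GoodP P (k * vW (primorial w) P) A)

private theorem gl_cell (H R : ℕ) (hH : 1 ≤ H) (hR : 1 ≤ R) (z : ℝ) (hz : |z| ≤ H) :
    ∃ a : Fin R, |z - H * (-1 + (2 * (a : ℝ) + 1) / R)| ≤ 1 / R * H := by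
  have hH0 : (0 : ℝ) < H := by exact_mod_cast hH
  have hR0 : (0 : ℝ) < R := by exact_mod_cast hR
  rw [abs_le] at hz
  set t : ℝ := (z / H + 1) * R / 2 with ht
  have ht0 : 0 ≤ t := by
    have : -1 ≤ z / H := by rw [le_div_iff₀ hH0]; linarith
    rw [ht]
    have : 0 ≤ z / H + 1 := by linarith
    positivity
  have ht1 : t ≤ R := by
    have h1 : z / H ≤ 1 := by rw [div_le_iff₀ hH0]; linarith
    rw [ht]
    nlinarith
  have hkey : ∀ a : ℝ, |t - (a + 1 / 2)| ≤ 1 / 2 → |z - H * (-1 + (2 * a + 1) / R)| ≤ 1 / R * H := by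
    intro a ha
    have e : z - H * (-1 + (2 * a + 1) / R) = (2 * H / R) * (t - (a + 1 / 2)) := by
      rw [ht]
      field_simp
      ring
    rw [e, abs_mul, abs_of_pos (by positivity : 0 < 2 * (H : ℝ) / R)]
    calc 2 * (H : ℝ) / R * |t - (a + 1 / 2)| ≤ 2 * (H : ℝ) / R * (1 / 2) :=
          mul_le_mul_of_nonneg_left ha (by positivity)
      _ = 1 / R * H := by ring
  rcases lt_or_ge t R with hlt | hge
  · refine ⟨⟨⌊t⌋₊, (Nat.floor_lt ht0).mpr hlt⟩, hkey _ ?_⟩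
    have h1 := Nat.floor_le ht0
    have h2 := Nat.lt_floor_add_one t
    simp only
    rw [abs_le]
    constructor <;> linarith
  · have htR : t = R := le_antisymm ht1 hge
    refine ⟨⟨R - 1, by omega⟩, hkey _ ?_⟩
    simp only
    rw [Nat.cast_sub hR, htR, abs_le]
    push_cast
    constructor <;> linarith

private theorem gl_finite (X : ℝ) :
    {A : Idx n d → 𝓞 K | ∀ t j, |(crd (A t) j : ℝ)| ≤ X}.Finite := by
  classical
  have h1 : Set.Finite {c : Idx n d → IK K → ℤ | ∀ t j, |((c t j : ℤ) : ℝ)| ≤ X} := by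
    refine (Set.Finite.pi' fun _ : Idx n d => Set.Finite.pi' fun _ : IK K =>
      Set.finite_Icc (-⌊X⌋) ⌊X⌋).subset ?_
    intro c hc t j
    have h3 := hc t j
    rw [abs_le] at h3
    refine ⟨?_, Int.le_floor.2 h3.2⟩
    have h4 : (-(c t j) : ℤ) ≤ ⌊X⌋ := by
      apply Int.le_floor.2
      push_cast
      linarith [h3.1]
    linarith
  refine Set.Finite.of_finite_image (f := fun A : Idx n d → 𝓞 K => fun t j => crd (A t) j)
    (h1.subset ?_) ?_
  · rintro _ ⟨a, ha, rfl⟩ t j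
    exact ha t j
  · intro a _ b _ h
    funext t
    exact crd_ext fun j => congrFun (congrFun h t) j

private theorem gl_S_finite (R Q : ℕ) (a : Idx n d → IK K → Fin R) (b : Idx n d → IK K → Fin Q)
    (H : ℕ) : (glS R Q a b H).Finite := by
  refine (gl_finite (K := K) (n := n) (d := d)
    (∑ t, ∑ j, |(H : ℝ) * glC R a t j| + 1 / R * H)).subset ?_
  intro A hA t j
  have h1 := hA.1 t j
  have h2 : |(H : ℝ) * glC R a t j| ≤ ∑ t, ∑ j, |(H : ℝ) * glC R a t j| := by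
    refine le_trans ?_ (Finset.single_le_sum (f := fun i => ∑ m, |(H : ℝ) * glC R a i m|)
      (fun _ _ => Finset.sum_nonneg fun _ _ => abs_nonneg _) (Finset.mem_univ t))
    exact Finset.single_le_sum (f := fun m => |(H : ℝ) * glC R a t m|) (fun _ _ => abs_nonneg _)
      (Finset.mem_univ j)
  calc |(crd (A t) j : ℝ)| = |H * glC R a t j + ((crd (A t) j : ℝ) - H * glC R a t j)| := by
        ring_nf
    _ ≤ |(H : ℝ) * glC R a t j| + |(crd (A t) j : ℝ) - H * glC R a t j| := abs_add_le _ _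
    _ ≤ _ := add_le_add h2 h1

private theorem gl_class (w k R : ℕ) (hk : 1 ≤ k) (hR : 1 ≤ R) (eps bet : ℝ) (rho0 : ℝ)
    (hrho0 : 0 ≤ rho0)
    (hcl : ∀ rho : ℝ, 0 < rho → rho ≤ rho0 → ∀ k : ℕ, 1 ≤ k →
      ∀ A0 : Idx n d → 𝓞 K,
      (∀ P : Ideal (𝓞 K), P.IsMaximal → (primorial w : 𝓞 K) ∈ P →
        GoodP P (k * vW (primorial w) P) A0) →
      ∀ (AC Ainf : Idx n d → IK K → ℝ), (∀ t j, |Ainf t j| ≤ 1) →
      (∀ t j, |AC t j - Ainf t j| ≤ rho) →
      (∀ w', GoodI w' rho0 bet (fun t => lam (Ainf t) w')) →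
      ∀ᶠ H : ℝ in atTop,
        (Set.ncard {A : Idx n d → 𝓞 K | (∀ t j, |(crd (A t) j : ℝ) - H * AC t j| ≤ rho * H) ∧
          (∀ t, (((primorial w) ^ (2 * k) : ℕ) : 𝓞 K) ∣ A t - A0 t) ∧ ¬ Soluble A} : ℝ) ≤
          eps * (2 * rho * H / ((primorial w : ℝ)) ^ (2 * k)) ^ (mK K * NN n d))
    (hrho : (1 : ℝ) / R ≤ rho0) (a : Idx n d → IK K → Fin R)
    (b : Idx n d → IK K → Fin (primorial w ^ (2 * k)))
    (hW : glW w k R (primorial w ^ (2 * k)) bet a b) :
    ∀ᶠ H : ℕ in atTop, ((glS R (primorial w ^ (2 * k)) a b H).ncard : ℝ) ≤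
      eps * (2 * (1 / R) * H / (primorial w : ℝ) ^ (2 * k)) ^ (mK K * NN n d) := by
  obtain ⟨H0, A, hH0, hbox, hcell, hres, hgI, hp⟩ := hW
  have hR0 : (0 : ℝ) < R := by exact_mod_cast hR
  have hH0' : (0 : ℝ) < H0 := by exact_mod_cast hH0
  have h := hcl (1 / R) (by positivity) hrho k hk A hp (glC R a)
    (fun t j => (H0 : ℝ)⁻¹ * (crd (A t) j : ℝ)) ?_ ?_ ?_
  · refine (tendsto_natCast_atTop_atTop.eventually h).mono fun H hH => ?_
    refine le_trans ?_ hH
    have heq : glS R (primorial w ^ (2 * k)) a b H =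
        {A' : Idx n d → 𝓞 K | (∀ t j, |(crd (A' t) j : ℝ) - (H : ℝ) * glC R a t j| ≤
          1 / R * (H : ℝ)) ∧
          (∀ t, (((primorial w) ^ (2 * k) : ℕ) : 𝓞 K) ∣ A' t - A t) ∧ ¬ Soluble A'} := by
      ext A'
      unfold glS
      refine and_congr_right fun _ => and_congr_left fun _ => forall_congr' fun t => ?_
      rw [natCast_dvd_iff]
      refine forall_congr' fun j => ?_
      have h1 := hres t j
      rw [crd_sub]
      constructor
      · intro h2
        have := dvd_sub h2 h1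
        simpa using this
      · intro h2
        have := dvd_add h2 h1
        simpa using this
    rw [heq]
  · intro t j
    have h2 : |(crd (A t) j : ℝ)| ≤ H0 := hbox t j
    rw [abs_mul, abs_inv, abs_of_pos hH0', inv_mul_le_iff₀ hH0', mul_one]
    exact h2
  · intro t j
    have h1 := hcell t j
    have e1 : glC R a t j - (H0 : ℝ)⁻¹ * (crd (A t) j : ℝ) =
        -((H0 : ℝ)⁻¹ * ((crd (A t) j : ℝ) - H0 * glC R a t j)) := by
      field_simp
      ring
    rw [e1, abs_neg, abs_mul, abs_inv, abs_of_pos hH0', inv_mul_le_iff₀ hH0']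
    linarith
  · intro w'
    obtain ⟨z, hz, hF, j, hD⟩ := hgI w'
    have hlam : (fun t => lam (fun j => (H0 : ℝ)⁻¹ * (crd (A t) j : ℝ)) w') =
        fun t => ((H0 : ℂ))⁻¹ * sg w' (A t) := by
      funext t
      rw [lam_smul, lam_crd]
      push_cast
      rfl
    have hnorm : ‖((H0 : ℂ))⁻¹‖ = (H0 : ℝ)⁻¹ := by
      rw [norm_inv, Complex.norm_natCast]
    rw [hlam]
    refine ⟨z, hz, ?_, j, ?_⟩
    · rw [F_smul, norm_mul]
      have h1 : ‖F (fun t => sg w' (A t)) z‖ = 0 := le_antisymm hF (norm_nonneg _)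
      rw [h1, mul_zero]
      exact hrho0
    · rw [D_smul, norm_mul, hnorm, le_inv_mul_iff₀ hH0']
      linarith

theorem exceptional_small (hn : 3 ≤ n) (hd : 2 ≤ d) (hdn : d ≤ n) (eps : ℝ) (he : 0 < eps) :
    ∀ᶠ H : ℕ in atTop,
      (Set.ncard {A : Idx n d → 𝓞 K | A ∈ BoxK K n d H ∧ ELSe A ∧ ¬ Soluble A} : ℝ) ≤
        eps * (2 * H + 1) ^ (mK K * NN n d) := by
  classical
  set M : ℝ := (Fintype.card (InfinitePlace K) : ℝ) with hM
  have hM0 : 0 ≤ M := Nat.cast_nonneg _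
  have he4 : 0 < eps / 4 := by positivity
  -- w
  obtain ⟨w1, hw1⟩ := class_thm K n d hn hd hdn (eps / 4) he4
  set w : ℕ := max 2 w1 with hw
  have hw2 : 2 ≤ w := le_max_left _ _
  have hww : w1 ≤ w := le_max_right _ _
  -- bet
  have hinf : ∀ w' : InfinitePlace K, ∃ bet : ℝ, 0 < bet ∧ bet ≤ 1 ∧ ∀ᶠ H : ℕ in atTop,
      (Set.ncard {A : Idx n d → 𝓞 K | A ∈ BoxK K n d H ∧ LocI w' (fun t => sg w' (A t)) ∧
        ¬ GoodI w' 0 (bet * H) (fun t => sg w' (A t))} : ℝ) ≤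
        (eps / (4 * (M + 1))) * (2 * H + 1) ^ (mK K * NN n d) := fun w' =>
    inf_exc (by omega) (by omega) w' _ (by positivity)
  choose betf hbf0 hbf1 hbf using hinf
  obtain ⟨bet, hb, hb1, hbm⟩ : ∃ bet : ℝ, 0 < bet ∧ bet ≤ 1 ∧ ∀ w', bet ≤ betf w' := by
    obtain ⟨v, -, hv⟩ := Finset.exists_min_image (univ : Finset (InfinitePlace K)) betf
      ⟨Classical.arbitrary _, mem_univ _⟩
    exact ⟨betf v, hbf0 v, hbf1 v, fun w' => hv w' (mem_univ _)⟩
  obtain ⟨rho0, hrho0, hrho01, hcl⟩ := hw1 w hww hw2 bet hb hb1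
  -- R
  obtain ⟨R, hR, hRrho⟩ : ∃ R : ℕ, 1 ≤ R ∧ (1 : ℝ) / R ≤ rho0 := by
    obtain ⟨m, hm⟩ := exists_nat_one_div_lt hrho0
    refine ⟨m + 1, by omega, ?_⟩
    push_cast
    exact hm.le
  have hR0 : (0 : ℝ) < R := by exact_mod_cast hR
  -- the primes dividing `primorial w`
  have hprim0 : (primorial w : 𝓞 K) ≠ 0 := by
    exact_mod_cast (primorial_pos w).ne'
  have hspan0 : Ideal.span {(primorial w : 𝓞 K)} ≠ ⊥ := by
    rw [Ne, Ideal.span_singleton_eq_bot]
    exact hprim0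
  have hPfin : {P : Ideal (𝓞 K) | P.IsMaximal ∧ (primorial w : 𝓞 K) ∈ P}.Finite := by
    refine (finite_ideals (K := K) (Ideal.absNorm (Ideal.span {(primorial w : 𝓞 K)}))).subset ?_
    rintro P ⟨-, hPw⟩
    have hle : Ideal.span {(primorial w : 𝓞 K)} ≤ P := (Ideal.span_singleton_le_iff_mem P).2 hPw
    refine ⟨?_, ?_⟩
    · rintro rfl
      exact hspan0 (le_bot_iff.1 hle)
    · exact Nat.le_of_dvd (absNorm_pos hspan0) (Ideal.absNorm_dvd_absNorm_of_le hle)
  set Pr : Finset (Ideal (𝓞 K)) := hPfin.toFinset with hPr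
  have hPrm : ∀ P, P ∈ Pr ↔ P.IsMaximal ∧ (primorial w : 𝓞 K) ∈ P := fun P =>
    Set.Finite.mem_toFinset _
  have hpad : ∀ P : Ideal (𝓞 K), ∃ C : ℝ, 0 < C ∧ (P.IsMaximal → ∀ a : ℕ, 1 ≤ a →
      ∀ᶠ H : ℕ in atTop,
      (Set.ncard {A : Idx n d → 𝓞 K | A ∈ BoxK K n d H ∧ LocP P A ∧ ¬ GoodP P a A} : ℝ) ≤
        C / (Ideal.absNorm P : ℝ) ^ a * (2 * H + 1) ^ (mK K * NN n d)) := by
    intro P
    by_cases hP : P.IsMaximal
    · obtain ⟨C, hC, h⟩ := padic_exc (n := n) (d := d) (by omega) (by omega) P hP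
      exact ⟨C, hC, fun _ => h⟩
    · exact ⟨1, one_pos, fun h => absurd h hP⟩
  choose Cf hCf0 hCf using hpad
  set CS : ℝ := ∑ P ∈ Pr, Cf P with hCS
  have hCS0 : 0 ≤ CS := Finset.sum_nonneg fun P _ => (hCf0 P).le
  -- k
  obtain ⟨k, hk, hkw⟩ : ∃ k : ℕ, 1 ≤ k ∧ CS / 2 ^ k ≤ eps / 4 := by
    obtain ⟨m, hm⟩ := exists_pow_lt_of_lt_one
      (show 0 < eps / (4 * (CS + 1)) by positivity)
      (show (1 / 2 : ℝ) < 1 by norm_num)
    refine ⟨m + 1, by omega, ?_⟩
    rw [div_pow, one_pow, lt_div_iff₀ (by positivity)] at hm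
    have h3 : CS / 2 ^ (m + 1) ≤ (1 : ℝ) / 2 ^ m * (4 * (CS + 1)) / 4 := by
      have h4 : (1 : ℝ) / 2 ^ m * (4 * (CS + 1)) / 4 = (CS + 1) / 2 ^ m := by ring
      rw [h4, pow_succ]
      have h5 : CS / (2 ^ m * 2) = (CS / 2) / 2 ^ m := by
        field_simp
      rw [h5]
      apply div_le_div_of_nonneg_right _ (by positivity)
      linarith
    linarith
  set Q : ℕ := primorial w ^ (2 * k) with hQ
  have hQpos : 0 < Q := pow_pos (primorial_pos w) _
  have hQ0 : (0 : ℝ) < Q := by exact_mod_cast hQpos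
  have hQcast : (primorial w : ℝ) ^ (2 * k) = Q := by rw [hQ]; push_cast; rfl
  -- exponents at the primes
  have hnorm2 : ∀ P ∈ Pr, (2 : ℝ) ≤ Ideal.absNorm P := by
    intro P hP
    have hPm := ((hPrm P).1 hP).1
    have hP0 : P ≠ ⊥ := by
      rintro rfl
      exact hspan0 (le_bot_iff.1 ((Ideal.span_singleton_le_iff_mem _).2 ((hPrm _).1 hP).2))
    have h1 := absNorm_pos hP0
    have h2 : Ideal.absNorm P ≠ 1 := by
      intro h
      rw [Ideal.absNorm_eq_one_iff] at h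
      exact hPm.ne_top h
    have h3 : 2 ≤ Ideal.absNorm P := by omega
    exact_mod_cast h3
  have hv1 : ∀ P ∈ Pr, 1 ≤ vW (primorial w) P := by
    intro P hP
    unfold vW
    apply multiplicity_pos_of_dvd
    rw [Ideal.dvd_span_singleton]
    exact ((hPrm P).1 hP).2
  -- eventual bounds
  have h1 : ∀ᶠ H : ℕ in atTop, ∀ ab : (Idx n d → IK K → Fin R) × (Idx n d → IK K → Fin Q),
      glW w k R Q bet ab.1 ab.2 →
      ((glS R Q ab.1 ab.2 H).ncard : ℝ) ≤ eps / 4 * (2 * (1 / R) * H / Q) ^ (mK K * NN n d) := by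
    rw [Filter.eventually_all]
    intro ab
    by_cases hW : glW w k R Q bet ab.1 ab.2
    · have := gl_class w k R hk hR (eps / 4) bet rho0 hrho0.le hcl hRrho ab.1 ab.2 hW
      rw [hQcast] at this
      exact this.mono fun H hH _ => hH
    · exact Filter.Eventually.of_forall fun H h => absurd h hW
  have h2 : ∀ᶠ H : ℕ in atTop, ∀ w' : InfinitePlace K,
      (Set.ncard {A : Idx n d → 𝓞 K | A ∈ BoxK K n d H ∧ LocI w' (fun t => sg w' (A t)) ∧
        ¬ GoodI w' 0 (betf w' * H) (fun t => sg w' (A t))} : ℝ) ≤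
        (eps / (4 * (M + 1))) * (2 * H + 1) ^ (mK K * NN n d) := by
    rw [Filter.eventually_all]
    exact hbf
  have h3 : ∀ᶠ H : ℕ in atTop, ∀ P ∈ Pr,
      (Set.ncard {A : Idx n d → 𝓞 K | A ∈ BoxK K n d H ∧ LocP P A ∧
        ¬ GoodP P (k * vW (primorial w) P) A} : ℝ) ≤
        Cf P / (Ideal.absNorm P : ℝ) ^ (k * vW (primorial w) P) *
          (2 * H + 1) ^ (mK K * NN n d) := by
    rw [Filter.eventually_all_finset]
    intro P hP
    exact hCf P ((hPrm P).1 hP).1 _ (Nat.mul_pos hk (hv1 P hP))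
  filter_upwards [h1, h2, h3, Filter.eventually_ge_atTop 1] with H h1 h2 h3 hH
  have hbfin : (BoxK K n d H).Finite := gl_finite (H : ℝ)
  have hbm' : ∀ A, A ∈ hbfin.toFinset ↔ A ∈ BoxK K n d H := fun A => Set.Finite.mem_toFinset _
  -- the finsets
  set E : Finset (Idx n d → 𝓞 K) := hbfin.toFinset.filter (fun A => ELSe A ∧ ¬ Soluble A) with hE
  set EI : InfinitePlace K → Finset (Idx n d → 𝓞 K) := fun w' => hbfin.toFinset.filter (fun A =>
      LocI w' (fun t => sg w' (A t)) ∧ ¬ GoodI w' 0 (betf w' * H) (fun t => sg w' (A t))) with hEI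
  set EP : Ideal (𝓞 K) → Finset (Idx n d → 𝓞 K) := fun P => hbfin.toFinset.filter (fun A =>
      LocP P A ∧ ¬ GoodP P (k * vW (primorial w) P) A) with hEP
  set GW : Finset ((Idx n d → IK K → Fin R) × (Idx n d → IK K → Fin Q)) :=
    Finset.univ.filter (fun ab => glW w k R Q bet ab.1 ab.2) with hGW
  have hfin : ∀ ab : (Idx n d → IK K → Fin R) × (Idx n d → IK K → Fin Q),
    (glS R Q ab.1 ab.2 H).Finite := fun ab => gl_S_finite R Q ab.1 ab.2 H
  have hsub : E ⊆ (GW.biUnion fun ab => (hfin ab).toFinset) ∪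
      ((univ : Finset (InfinitePlace K)).biUnion EI) ∪ (Pr.biUnion EP) := by
    intro A hA
    rw [hE, Finset.mem_filter, hbm'] at hA
    obtain ⟨hAbox, ⟨hpad0, hinf0⟩, hns⟩ := hA
    by_cases hr' : ∃ w', A ∈ EI w'
    · obtain ⟨w', hw'⟩ := hr'
      exact Finset.mem_union_left _ (Finset.mem_union_right _
        (Finset.mem_biUnion.mpr ⟨w', mem_univ _, hw'⟩))
    by_cases hpp : ∃ P ∈ Pr, A ∈ EP P
    · exact Finset.mem_union_right _ (Finset.mem_biUnion.mpr hpp)
    refine Finset.mem_union_left _ (Finset.mem_union_left _ ?_)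
    -- the cell
    choose a ha using fun t j => gl_cell H R hH hR (crd (A t) j : ℝ) (hAbox t j)
    have hbex : ∀ t j, ∃ b : Fin Q, (Q : ℤ) ∣ crd (A t) j - ((b : ℕ) : ℤ) := by
      intro t j
      have hQz : (0 : ℤ) < Q := by exact_mod_cast hQpos
      have h0 : 0 ≤ crd (A t) j % Q := Int.emod_nonneg _ hQz.ne'
      have h1 : crd (A t) j % Q < Q := Int.emod_lt_of_pos _ hQz
      refine ⟨⟨(crd (A t) j % Q).toNat, by omega⟩, ?_⟩
      simp only
      rw [Int.toNat_of_nonneg h0]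
      exact Int.dvd_self_sub_emod
    choose b hb' using hbex
    refine Finset.mem_biUnion.mpr ⟨(a, b), ?_, ?_⟩
    · rw [hGW, Finset.mem_filter]
      refine ⟨Finset.mem_univ _, H, A, hH, hAbox, ha, hb', ?_, ?_⟩
      · intro w'
        have h4 : GoodI w' 0 (betf w' * H) (fun t => sg w' (A t)) := by
          by_contra hcon
          exact hr' ⟨w', Finset.mem_filter.mpr ⟨(hbm' A).2 hAbox, hinf0 w', hcon⟩⟩
        obtain ⟨z, hz, hF, j, hj⟩ := h4
        refine ⟨z, hz, hF, j, le_trans ?_ hj⟩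
        exact mul_le_mul_of_nonneg_right (hbm w') (Nat.cast_nonneg _)
      · intro P hP hPw
        by_contra hcon
        exact hpp ⟨P, (hPrm P).2 ⟨hP, hPw⟩, Finset.mem_filter.mpr ⟨(hbm' A).2 hAbox,
          hpad0 P hP, hcon⟩⟩
    · rw [Set.Finite.mem_toFinset]
      exact ⟨ha, hb', hns⟩
  have hcardE : Set.ncard {A : Idx n d → 𝓞 K | A ∈ BoxK K n d H ∧ ELSe A ∧ ¬ Soluble A} =
      E.card := by
    rw [← Set.ncard_coe_finset]
    congr 1
    ext A
    rw [Finset.mem_coe, hE, Finset.mem_filter, hbm']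
    rfl
  have hpos : 0 ≤ (2 * (H : ℝ) + 1) ^ (mK K * NN n d) := by positivity
  have hcardI : ∀ w', ((EI w').card : ℝ) ≤
      (eps / (4 * (M + 1))) * (2 * H + 1) ^ (mK K * NN n d) := by
    intro w'
    refine le_trans (le_of_eq ?_) (h2 w')
    rw [← Set.ncard_coe_finset]
    congr 2
    ext A
    rw [Finset.mem_coe, hEI]
    simp only [Finset.mem_filter, hbm']
    rfl
  have hcardP : ∀ P ∈ Pr, ((EP P).card : ℝ) ≤ Cf P / (2 : ℝ) ^ k *
      (2 * H + 1) ^ (mK K * NN n d) := by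
    intro P hP
    have h4 := h3 P hP
    have h5 : ((EP P).card : ℝ) = (Set.ncard {A : Idx n d → 𝓞 K | A ∈ BoxK K n d H ∧
        LocP P A ∧ ¬ GoodP P (k * vW (primorial w) P) A} : ℝ) := by
      rw [← Set.ncard_coe_finset]
      congr 2
      ext A
      rw [Finset.mem_coe, hEP]
      simp only [Finset.mem_filter, hbm']
      rfl
    rw [h5]
    refine h4.trans (mul_le_mul_of_nonneg_right ?_ hpos)
    apply div_le_div_of_nonneg_left (hCf0 P).le (by positivity)
    calc (2 : ℝ) ^ k ≤ (2 : ℝ) ^ (k * vW (primorial w) P) :=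
          pow_le_pow_right₀ (by norm_num) (Nat.le_mul_of_pos_right k (hv1 P hP))
      _ ≤ (Ideal.absNorm P : ℝ) ^ (k * vW (primorial w) P) :=
          pow_le_pow_left₀ (by norm_num) (hnorm2 P hP) _
  have hcardS : ∀ ab ∈ GW, (((hfin ab).toFinset).card : ℝ) ≤
      eps / 4 * (2 * (1 / R) * H / Q) ^ (mK K * NN n d) := by
    intro ab hab
    rw [← Set.ncard_eq_toFinset_card _ (hfin ab)]
    exact h1 ab (Finset.mem_filter.mp hab).2
  rw [hcardE]
  have hcS : ∀ M : ℕ, Fintype.card (Idx n d → IK K → Fin M) = M ^ (mK K * NN n d) := by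
    intro M
    rw [Fintype.card_fun, Fintype.card_fun, Fintype.card_fin, card_IK, ← pow_mul]
    rfl
  have hGWcard : (GW.card : ℝ) ≤ (R : ℝ) ^ (mK K * NN n d) * (Q : ℝ) ^ (mK K * NN n d) := by
    have h6 : GW.card ≤ R ^ (mK K * NN n d) * Q ^ (mK K * NN n d) := by
      refine (Finset.card_le_univ _).trans (le_of_eq ?_)
      rw [Fintype.card_prod, hcS, hcS]
    exact_mod_cast h6
  have hsumS : ((GW.biUnion fun ab => (hfin ab).toFinset).card : ℝ) ≤
      eps / 4 * (2 * H + 1) ^ (mK K * NN n d) := by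
    calc ((GW.biUnion fun ab => (hfin ab).toFinset).card : ℝ)
        ≤ ∑ ab ∈ GW, (((hfin ab).toFinset).card : ℝ) := by exact_mod_cast Finset.card_biUnion_le
      _ ≤ ∑ ab ∈ GW, (eps / 4 * (2 * (1 / R) * H / Q) ^ (mK K * NN n d) : ℝ) :=
          Finset.sum_le_sum hcardS
      _ = (GW.card : ℝ) * (eps / 4 * (2 * (1 / R) * H / Q) ^ (mK K * NN n d)) := by
          rw [Finset.sum_const, nsmul_eq_mul]
      _ ≤ ((R : ℝ) ^ (mK K * NN n d) * (Q : ℝ) ^ (mK K * NN n d)) *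
            (eps / 4 * (2 * (1 / R) * H / Q) ^ (mK K * NN n d)) :=
          mul_le_mul_of_nonneg_right hGWcard (by positivity)
      _ = eps / 4 * (2 * H) ^ (mK K * NN n d) := by
          have h7 : (2 * (H : ℝ)) = R * Q * (2 * (1 / R) * H / Q) := by
            field_simp
          rw [h7, mul_pow, mul_pow]
          ring
      _ ≤ eps / 4 * (2 * H + 1) ^ (mK K * NN n d) := by
          refine mul_le_mul_of_nonneg_left ?_ (by positivity)
          exact pow_le_pow_left₀ (by positivity) (by linarith) _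
  have hsumI : (((univ : Finset (InfinitePlace K)).biUnion EI).card : ℝ) ≤
      eps / 4 * (2 * H + 1) ^ (mK K * NN n d) := by
    calc (((univ : Finset (InfinitePlace K)).biUnion EI).card : ℝ) ≤
        ∑ w' : InfinitePlace K, ((EI w').card : ℝ) := by
          exact_mod_cast Finset.card_biUnion_le
      _ ≤ ∑ _w' : InfinitePlace K, (eps / (4 * (M + 1))) * (2 * H + 1) ^ (mK K * NN n d) :=
          Finset.sum_le_sum fun w' _ => hcardI w'
      _ = M * ((eps / (4 * (M + 1))) * (2 * H + 1) ^ (mK K * NN n d)) := by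
          rw [Finset.sum_const, Finset.card_univ, nsmul_eq_mul]
      _ = (M * (eps / (4 * (M + 1)))) * (2 * H + 1) ^ (mK K * NN n d) := by ring
      _ ≤ eps / 4 * (2 * H + 1) ^ (mK K * NN n d) := by
          apply mul_le_mul_of_nonneg_right _ hpos
          rw [mul_div_assoc', div_le_div_iff₀ (by positivity) (by positivity)]
          nlinarith
  have hsumP : ((Pr.biUnion EP).card : ℝ) ≤ eps / 4 * (2 * H + 1) ^ (mK K * NN n d) := by
    calc ((Pr.biUnion EP).card : ℝ) ≤ ∑ P ∈ Pr, ((EP P).card : ℝ) := by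
          exact_mod_cast Finset.card_biUnion_le
      _ ≤ ∑ P ∈ Pr, (Cf P / (2 : ℝ) ^ k * (2 * H + 1) ^ (mK K * NN n d) : ℝ) :=
          Finset.sum_le_sum hcardP
      _ = CS / 2 ^ k * (2 * H + 1) ^ (mK K * NN n d) := by
          rw [← Finset.sum_mul, ← Finset.sum_div]
      _ ≤ eps / 4 * (2 * H + 1) ^ (mK K * NN n d) := mul_le_mul_of_nonneg_right hkw hpos
  have hfinal : (E.card : ℝ) ≤ ((GW.biUnion fun ab => (hfin ab).toFinset).card : ℝ) +
      (((univ : Finset (InfinitePlace K)).biUnion EI).card : ℝ) +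
      ((Pr.biUnion EP).card : ℝ) := by
    have h7 : E.card ≤ (GW.biUnion fun ab => (hfin ab).toFinset).card +
        ((univ : Finset (InfinitePlace K)).biUnion EI).card + (Pr.biUnion EP).card := by
      refine (Finset.card_le_card hsub).trans ((Finset.card_union_le _ _).trans ?_)
      exact Nat.add_le_add_right (Finset.card_union_le _ _) _
    exact_mod_cast h7
  have hX : 0 ≤ eps * (2 * (H : ℝ) + 1) ^ (mK K * NN n d) := mul_nonneg he.le hpos
  linarith

end NFHP
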