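import Pool.Agent.Lib.MP_e426f4_ag.N.Const
import Pool.Agent.Lib.MP_e426f4_ag.M.AlgInd
import Pool.Agent.Lib.MP_e426f4_ag.M.SmoothAlg

/-! Module NF-SM: smooth forms are dense and smoothness is an open condition. -/

set_option linter.unusedSectionVars false

namespace NFHP

open NumberField GenHP Finset Filter Topology

/-- reduction to one block -/
private theorem smooth_of_one_block {n d : ℕ} (a : Idx n d → ℝ)
    (h : RSmooth (ι := Unit) (n := fun _ => n) (d := fun _ => d) fun t => a (t ()))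
    (z : Fin (n + 1) → ℂ) (hz : z ≠ 0) : ∃ j, D (fun t => ((a t : ℝ) : ℂ)) z j ≠ 0 := by
  classical
  obtain ⟨b, hb⟩ := Function.ne_iff.mp hz
  obtain ⟨⟨u, j⟩, hj⟩ := h (fun v => z v.2) (fun _ => ⟨b, hb⟩)
  refine ⟨j, fun h0 => hj ?_⟩
  rw [← h0]
  unfold MD Dg D
  refine Fintype.sum_equiv (Equiv.funUnique Unit (Idx n d)) _ _ fun t => ?_
  have e1 : dmon (fun v : MVar (fun _ : Unit => n) => z v.2) ⟨u, j⟩ (mex t) =
      dmon z j (t ()).1 := by
    unfold dmon
    congr 1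
    rw [Fintype.prod_sigma]
    rw [Fintype.prod_unique]
    refine Finset.prod_congr rfl fun i _ => ?_
    have : ((⟨default, i⟩ : MVar (fun _ : Unit => n)) = ⟨u, j⟩) ↔ i = j := by
      constructor
      · intro h
        have := congrArg (fun v : MVar (fun _ : Unit => n) => v.2) h
        exact this
      · rintro rfl
        rfl
    by_cases hij : i = j
    · rw [if_pos (this.mpr hij), if_pos hij]
      rfl
    · rw [if_neg fun hh => hij (this.mp hh), if_neg hij]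
      rfl
  rw [e1]
  rfl

private theorem dmon_le_one {n d : ℕ} (z : Fin (n + 1) → ℂ) (hz : ∀ i, ‖z i‖ ≤ 1)
    (j : Fin (n + 1)) (t : Idx n d) : ‖dmon z j t.1‖ ≤ (d : ℝ) := by
  unfold dmon
  rw [norm_mul, Complex.norm_natCast, norm_prod]
  have h1 : ∏ i, ‖z i ^ (if i = j then t.1 i - 1 else t.1 i)‖ ≤ 1 := by
    refine Finset.prod_le_one (fun i _ => norm_nonneg _) fun i _ => ?_
    rw [norm_pow]
    exact pow_le_one₀ (norm_nonneg _) (hz i)
  have h2 : t.1 j ≤ d :=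
    (Finset.single_le_sum (f := fun v => t.1 v) (fun _ _ => Nat.zero_le _)
      (Finset.mem_univ j)).trans t.2.le
  calc (t.1 j : ℝ) * ∏ i, ‖z i ^ (if i = j then t.1 i - 1 else t.1 i)‖
      ≤ (t.1 j : ℝ) * 1 := mul_le_mul_of_nonneg_left h1 (Nat.cast_nonneg _)
    _ ≤ (d : ℝ) := by
        rw [mul_one]
        exact_mod_cast h2

private theorem D_scale' {n d : ℕ} (A : Idx n d → ℂ) (z : Fin (n + 1) → ℂ) (c : ℂ)
    (j : Fin (n + 1)) : D A (fun i => c * z i) j = c ^ (d - 1) * D A z j := by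
  unfold D
  rw [Finset.mul_sum]
  refine Finset.sum_congr rfl fun t _ => ?_
  unfold dmon
  by_cases h0 : t.1 j = 0
  · rw [h0]
    simp
  · simp only [mul_pow, Finset.prod_mul_distrib]
    have h1 : ∏ i, c ^ (if i = j then t.1 i - 1 else t.1 i) = c ^ (d - 1) := by
      rw [Finset.prod_pow_eq_pow_sum]
      congr 1
      have h2 : ∑ i, t.1 i = d := t.2
      rw [← Finset.add_sum_erase _ _ (Finset.mem_univ j)] at h2
      rw [← Finset.add_sum_erase _ _ (Finset.mem_univ j), if_pos rfl]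
      have h3 : ∑ i ∈ univ.erase j, (if i = j then t.1 i - 1 else t.1 i) =
          ∑ i ∈ univ.erase j, t.1 i :=
        Finset.sum_congr rfl fun i hi => if_neg (Finset.ne_of_mem_erase hi)
      rw [h3]
      omega
    rw [h1]
    ring

/-- smoothness is an open condition -/
private theorem smooth_open {n d : ℕ} (a : Idx n d → ℂ)
    (ha : ∀ z : Fin (n + 1) → ℂ, z ≠ 0 → ∃ j, D a z j ≠ 0) :
    ∃ r : ℝ, 0 < r ∧ ∀ A : Idx n d → ℂ, (∀ t, ‖A t - a t‖ ≤ r) →
      ∀ z : Fin (n + 1) → ℂ, z ≠ 0 → ∃ j, D A z j ≠ 0 := by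
  classical
  let K : Set (Fin (n + 1) → ℂ) := {z | (∀ v, ‖z v‖ ≤ 1) ∧ ∃ i, ‖z i‖ = 1}
  have hKc : IsCompact K := by
    refine Metric.isCompact_of_isClosed_isBounded ?_ ?_
    · have h1 : K = {z : Fin (n + 1) → ℂ | ∀ v, ‖z v‖ ≤ 1} ∩
          ⋃ i : Fin (n + 1), {z : Fin (n + 1) → ℂ | ‖z i‖ = 1} := by
        ext z
        simp [K]
      rw [h1]
      refine IsClosed.inter ?_ (isClosed_iUnion_of_finite fun a => ?_)
      · have : {z : Fin (n + 1) → ℂ | ∀ v, ‖z v‖ ≤ 1} =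
            ⋂ v, {z : Fin (n + 1) → ℂ | ‖z v‖ ≤ 1} := by
          ext z
          simp
        rw [this]
        exact isClosed_iInter fun v => isClosed_le (by fun_prop) continuous_const
      · exact isClosed_eq (by fun_prop) continuous_const
    · refine (Metric.isBounded_closedBall (x := (0 : Fin (n + 1) → ℂ)) (r := 1)).subset ?_
      intro z hz
      rw [mem_closedBall_zero_iff]
      exact (pi_norm_le_iff_of_nonneg zero_le_one).2 hz.1
  have hKne : K.Nonempty := ⟨fun _ => 1, fun v => by simp, 0, by simp⟩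
  have hcont : ∀ (C : Idx n d → ℂ) (v : Fin (n + 1)),
      Continuous fun z : Fin (n + 1) → ℂ => D C z v := by
    intro C v
    unfold D dmon
    fun_prop
  obtain ⟨z0, hz0, hmin⟩ := hKc.exists_isMinOn hKne (f := fun z => ∑ v, ‖D a z v‖)
    (continuous_finsetSum _ fun v _ => (hcont _ v).norm).continuousOn
  have hKBNZ : ∀ z ∈ K, z ≠ 0 := by
    rintro z ⟨-, i, hi⟩ h
    rw [h, Pi.zero_apply, norm_zero] at hi
    exact zero_ne_one hi
  obtain ⟨m, hm⟩ : ∃ m : ℝ, m = ∑ v, ‖D a z0 v‖ := ⟨_, rfl⟩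
  have hm0 : 0 < m := by
    obtain ⟨v, hv⟩ := ha z0 (hKBNZ z0 hz0)
    rw [hm]
    exact Finset.sum_pos' (fun _ _ => norm_nonneg _) ⟨v, Finset.mem_univ _, norm_pos_iff.2 hv⟩
  obtain ⟨c, hc⟩ : ∃ c : ℝ, c = ((n : ℝ) + 1) * (NN n d * d) := ⟨_, rfl⟩
  have hc0 : 0 ≤ c := by rw [hc]; positivity
  refine ⟨m / (2 * (c + 1)), by positivity, fun A' hA' => ?_⟩
  obtain ⟨δ, hδ⟩ : ∃ δ : ℝ, δ = m / (2 * (c + 1)) := ⟨_, rfl⟩
  rw [← hδ] at hA'
  have hδ0 : 0 < δ := by rw [hδ]; positivity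
  have hδc : c * δ < m := by
    rw [hδ, mul_div_assoc', div_lt_iff₀ (by positivity)]
    nlinarith
  -- smoothness on `K`
  have hK' : ∀ z ∈ K, ∃ v, D A' z v ≠ 0 := by
    intro z hz
    by_contra hcon
    push Not at hcon
    have h1 : m ≤ ∑ v, ‖D a z v‖ := by
      rw [hm]
      exact hmin hz
    have h2 : ∀ v, ‖D a z v‖ ≤ NN n d * d * δ := by
      intro v
      have h3 : D a z v = ∑ t : Idx n d, (a t - A' t) * dmon z v t.1 := by
        have h4 := hcon v
        unfold D at h4 ⊢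
        simp only [sub_mul, Finset.sum_sub_distrib]
        rw [h4, sub_zero]
      rw [h3]
      refine (norm_sum_le _ _).trans ?_
      have h5 : ∀ t ∈ (univ : Finset (Idx n d)),
          ‖(a t - A' t) * dmon z v t.1‖ ≤ δ * d := by
        intro t _
        rw [norm_mul]
        refine mul_le_mul ?_ (dmon_le_one z hz.1 v t) (norm_nonneg _) hδ0.le
        rw [norm_sub_rev]
        exact hA' t
      refine (Finset.sum_le_card_nsmul _ _ _ h5).trans (le_of_eq ?_)
      rw [nsmul_eq_mul, Finset.card_univ]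
      unfold NN
      ring
    have h3 := Finset.sum_le_card_nsmul (univ : Finset (Fin (n + 1))) _ _ (fun v _ => h2 v)
    rw [nsmul_eq_mul, Finset.card_univ, Fintype.card_fin] at h3
    have h4 : ((n + 1 : ℕ) : ℝ) * (NN n d * d * δ) = c * δ := by
      rw [hc]
      push_cast
      ring
    rw [h4] at h3
    linarith
  intro z hz
  -- scaling
  obtain ⟨τ, hτ⟩ : ∃ a, ∀ b, ‖z b‖ ≤ ‖z a‖ := Finite.exists_max fun a => ‖z a‖
  have hpos : 0 < ‖z τ‖ := by
    obtain ⟨a, ha⟩ := Function.ne_iff.mp hz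
    exact lt_of_lt_of_le (norm_pos_iff.2 ha) (hτ a)
  obtain ⟨k, hk⟩ : ∃ k : ℂ, k = (((‖z τ‖)⁻¹ : ℝ) : ℂ) := ⟨_, rfl⟩
  have hkn : ‖k‖ = (‖z τ‖)⁻¹ := by
    rw [hk, Complex.norm_real, Real.norm_eq_abs, abs_of_pos (inv_pos.2 hpos)]
  have hzK : (fun u : Fin (n + 1) => k * z u) ∈ K := by
    constructor
    · intro a
      simp only
      rw [norm_mul, hkn, inv_mul_le_iff₀ hpos, mul_one]
      exact hτ a
    · refine ⟨τ, ?_⟩
      simp only
      rw [norm_mul, hkn, inv_mul_cancel₀ hpos.ne']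
  obtain ⟨v, hv⟩ := hK' _ hzK
  refine ⟨v, fun h => hv ?_⟩
  rw [D_scale', h, mul_zero]

set_option linter.unusedVariables false in
theorem exists_smooth (n d : ℕ) (hn : 1 ≤ n) (hd : 1 ≤ d) (t0 : Idx n d) (e : ℝ) (he : 0 < e) :
    ∃ a : Idx n d → ℝ, (∀ t, |a t - (if t = t0 then 1 / 2 else 0)| ≤ e) ∧
      ∃ r : ℝ, 0 < r ∧ ∀ A : Idx n d → ℂ, (∀ t, ‖A t - a t‖ ≤ r) →
        ∀ z : Fin (n + 1) → ℂ, z ≠ 0 → ∃ j, D A z j ≠ 0 := by
  classical
  obtain ⟨a, ha1, ha2⟩ := exists_algInd_near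
    (fun t : Idx n d => if t = t0 then (1 : ℝ) / 2 else 0) e he
  refine ⟨a, ha2, ?_⟩
  have h1 : RSmooth (ι := Unit) (n := fun _ => n) (d := fun _ => d) fun t => a (t ()) := by
    refine smooth_of_algInd (fun _ => hd) _ ?_
    exact ha1.comp (Equiv.funUnique Unit (Idx n d)) (Equiv.funUnique Unit (Idx n d)).injective
  exact smooth_open (fun t => ((a t : ℝ) : ℂ)) (smooth_of_one_block a h1)

end NFHP
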