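import Pool.Agent.Lib.MP_e426f4_ag.N.Const

/-! Module NF-SK: smoothness over the algebraic closure. -/

set_option linter.unusedSectionVars false

namespace NFHP

open NumberField GenHP Finset Filter Topology

variable {K : Type} [Field K] [NumberField K] {n d : ℕ}

/-- smoothness -/
def SmoothK (A : Idx n d → 𝓞 K) : Prop :=
  ∀ z : Fin (n + 1) → AlgebraicClosure K, z ≠ 0 →
    ∃ j, D (fun t => algebraMap (𝓞 K) (AlgebraicClosure K) (A t)) z j ≠ 0

theorem smoothK_of_embedding (A : Idx n d → 𝓞 K) (w : InfinitePlace K)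
    (h : ∀ z : Fin (n + 1) → ℂ, z ≠ 0 → ∃ j, D (fun t => sg w (A t)) z j ≠ 0) : SmoothK A := by
  intro z hz
  let _ : Algebra K ℂ := w.embedding.toAlgebra
  let φ : AlgebraicClosure K →ₐ[K] ℂ := IsAlgClosed.lift
  have hφ : ∀ a : 𝓞 K, φ (algebraMap (𝓞 K) (AlgebraicClosure K) a) = sg w a := by
    intro a
    rw [IsScalarTower.algebraMap_apply (𝓞 K) K (AlgebraicClosure K), φ.commutes]
    rfl
  have hz' : (fun i => φ (z i)) ≠ 0 := by
    intro h0
    apply hz
    funext i
    have h1 := congrFun h0 i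
    exact (map_eq_zero_iff φ φ.toRingHom.injective).mp h1
  obtain ⟨j, hj⟩ := h _ hz'
  refine ⟨j, fun h0 => hj ?_⟩
  have h1 := D_map (φ : AlgebraicClosure K →+* ℂ)
    (fun t => algebraMap (𝓞 K) (AlgebraicClosure K) (A t)) z j
  rw [h0, map_zero] at h1
  rw [← h1]
  congr 1
  funext t
  exact (hφ (A t)).symm

end NFHP
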