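import Pool.Agent.Lib.MP_e426f4_ag.N.ClassThm
import Pool.Agent.Lib.MP_e426f4_ag.N.SmoothForm
import Pool.Agent.Lib.MP_e426f4_ag.N.SmoothK
import Pool.Agent.Lib.MP_e426f4_ag.N.CardCl
import Pool.Agent.Lib.MP_e426f4_ag.N.CubeCount
import Pool.Agent.Lib.MP_e426f4_ag.N.AlgCplx

/-! Module NF-PP: a positive proportion of the forms is smooth and soluble. -/

set_option linter.unusedSectionVars false
set_option linter.unusedVariables false

namespace NFHP

open NumberField GenHP Finset Filter Topology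

variable {K : Type} [Field K] [NumberField K] {n d : ℕ}

section PP

/-- the exponent vector of `x_0 ^ (d - 1) * x_j` -/
private def ppI (n d : ℕ) (hd : 1 ≤ d) (j1 : Fin (n + 1)) : Idx n d :=
  ⟨fun j => (if j = 0 then d - 1 else 0) + (if j = j1 then 1 else 0), by
    rw [Finset.sum_add_distrib, Finset.sum_ite_eq' univ (0 : Fin (n + 1)) fun _ => d - 1,
      Finset.sum_ite_eq' univ j1 fun _ => 1]
    simp only [mem_univ, if_true]
    omega⟩

/-- the form `c * x_0 ^ (d - 1) * x_j` -/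
private def ppA {R : Type*} [CommRing R] (n d : ℕ) (hd : 1 ≤ d) (j1 : Fin (n + 1)) (c : R) :
    Idx n d → R := fun t => if t = ppI n d hd j1 then c else 0

/-- the point `e_0` -/
private def ppX (R : Type*) [CommRing R] (n : ℕ) : Fin (n + 1) → R := fun i => if i = 0 then 1 else 0

private theorem pp_F {R : Type*} [CommRing R] (hd : 1 ≤ d) (j1 : Fin (n + 1)) (hj : j1 ≠ 0) (c : R) :
    F (ppA n d hd j1 c) (ppX R n) = 0 := by
  unfold F
  refine Finset.sum_eq_zero fun t _ => ?_
  unfold ppA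
  split_ifs with h
  · have h0 : mon (ppX R n) (ppI n d hd j1).1 = 0 := by
      unfold mon
      refine Finset.prod_eq_zero (Finset.mem_univ j1) ?_
      simp only [ppX, ppI, if_neg hj, if_true]
      exact zero_pow (by norm_num)
    rw [h, h0, mul_zero]
  · rw [zero_mul]

private theorem pp_D {R : Type*} [CommRing R] (hd : 1 ≤ d) (j1 : Fin (n + 1)) (hj : j1 ≠ 0) (c : R) :
    D (ppA n d hd j1 c) (ppX R n) j1 = c := by
  unfold D
  rw [Finset.sum_eq_single (ppI n d hd j1)]
  · have h1 : ppA n d hd j1 c (ppI n d hd j1) = c := by simp [ppA]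
    rw [h1]
    unfold dmon
    have h2 : (∏ k : Fin (n + 1), (ppX R n k) ^ (if k = j1 then
        (ppI n d hd j1).1 k - 1 else (ppI n d hd j1).1 k)) = 1 := by
      refine Finset.prod_eq_one fun k _ => ?_
      by_cases hk : k = 0
      · subst hk
        simp [ppX]
      · by_cases hk2 : k = j1
        · subst hk2
          simp [ppX, ppI, hj]
        · simp [ppX, ppI, hk, hk2]
    rw [h2]
    simp [ppI, hj]
  · intro b _ hb
    simp [ppA, hb]
  · intro h
    exact absurd (Finset.mem_univ _) h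

private theorem pp_goodP (hd : 1 ≤ d) (j1 : Fin (n + 1)) (hj : j1 ≠ 0) (P : Ideal (𝓞 K))
    (hP : P.IsMaximal) (W : ℕ) (hW : (W : 𝓞 K) ∈ P) :
    GoodP P (1 * vW W P) (ppA n d hd j1 (1 : 𝓞 K)) := by
  have h1 : (1 : 𝓞 K) ∉ P := fun h => hP.ne_top ((Ideal.eq_top_iff_one P).mpr h)
  refine ⟨ppX (𝓞 K) n, ⟨0, by simpa [ppX] using h1⟩, ?_, j1, ?_⟩
  · rw [pp_F hd j1 hj]
    exact Ideal.zero_mem _
  · rw [pp_D hd j1 hj, one_mul]
    intro h
    have h2 : vW W P ≠ 0 := by
      unfold vW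
      rw [multiplicity_ne_zero, Ideal.dvd_span_singleton]
      exact hW
    exact h1 (Ideal.pow_le_self h2 h)

private theorem F_sub' (A B : Idx n d → ℂ) (x : Fin (n + 1) → ℂ) :
    F (fun t => A t - B t) x = F A x - F B x := by
  simp only [F, sub_mul, Finset.sum_sub_distrib]

private theorem D_sub' (A B : Idx n d → ℂ) (x : Fin (n + 1) → ℂ) (j : Fin (n + 1)) :
    D (fun t => A t - B t) x j = D A x j - D B x j := by
  simp only [D, sub_mul, Finset.sum_sub_distrib]

/-- coordinates of the number `1` -/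
private noncomputable def ppOne (K : Type) [Field K] [NumberField K] (j : IK K) : ℝ :=
  (crd (1 : 𝓞 K) j : ℝ)

private theorem lam_ppOne (w : InfinitePlace K) : lam (ppOne K) w = 1 := by
  unfold ppOne
  rw [lam_crd, map_one]

private theorem ppOne_le (j : IK K) : |ppOne K j| ≤ cK K := by
  unfold ppOne
  have h := crd_le_of_norm_sg (a := (1 : 𝓞 K)) (R := 1) (fun w => by rw [map_one, norm_one]) j
  rwa [mul_one] at h

end PP

theorem pos_prop (hn : 3 ≤ n) (hd : 2 ≤ d) (hdn : d ≤ n) : ∃ c : ℝ, 0 < c ∧ ∀ᶠ H : ℕ in atTop,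
    c * (2 * H + 1) ^ (mK K * NN n d) ≤
      (Set.ncard {A : Idx n d → 𝓞 K | A ∈ BoxK K n d H ∧ SmoothK A ∧ Soluble A} : ℝ) := by
  classical
  have hd1 : 1 ≤ d := by omega
  have hn1 : 1 ≤ n := by omega
  have hcK := cK_pos (K := K)
  have hcK1 := one_le_cK (K := K)
  obtain ⟨j1, hj1⟩ : ∃ j1 : Fin (n + 1), j1 ≠ 0 := ⟨⟨1, by omega⟩, by
    intro h
    have := congrArg Fin.val h
    simp at this⟩
  obtain ⟨w1, hclass⟩ := class_thm K n d hn hd hdn (1 / 4) (by norm_num)
  obtain ⟨W, hW⟩ : ∃ W : ℕ, W = max w1 2 := ⟨_, rfl⟩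
  have hbet : 0 < 1 / (4 * cK K) := by positivity
  have hbet1 : 1 / (4 * cK K) ≤ 1 := by
    rw [div_le_one (by positivity)]
    linarith
  obtain ⟨rho0, hrho0, hrho01, hclass⟩ := hclass W (by rw [hW]; exact le_max_left _ _)
    (by rw [hW]; exact le_max_right _ _) (1 / (4 * cK K)) hbet hbet1
  -- the centre
  obtain ⟨M, hM⟩ : ∃ M : ℝ, M = NN n d * d + NN n d + 1 := ⟨_, rfl⟩
  have hMp : 1 ≤ M := by
    rw [hM]
    have : (0 : ℝ) ≤ NN n d * d + NN n d := by positivity
    linarith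
  obtain ⟨dl, hdl⟩ : ∃ dl : ℝ, dl = min (1 / 8) (rho0 / (4 * M)) := ⟨_, rfl⟩
  have hdl0 : 0 < dl := by rw [hdl]; exact lt_min (by norm_num) (by positivity)
  have hdl1 : dl ≤ 1 / 8 := by rw [hdl]; exact min_le_left _ _
  have hdl2 : dl * (4 * M) ≤ rho0 := by
    have : dl ≤ rho0 / (4 * M) := by rw [hdl]; exact min_le_right _ _
    rwa [le_div_iff₀ (by positivity)] at this
  obtain ⟨a, ha, r, hr, hsm⟩ := exists_smooth n d hn1 hd1 (ppI n d hd1 j1) dl hdl0
  have ha1 : ∀ t, |a t| ≤ 5 / 8 := by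
    intro t
    have h1 := ha t
    have h2 : |(if t = ppI n d hd1 j1 then (1 / 2 : ℝ) else 0)| ≤ 1 / 2 := by
      split_ifs
      · rw [abs_of_pos (by norm_num)]
      · rw [abs_zero]
        norm_num
    have h3 : a t = (a t - if t = ppI n d hd1 j1 then (1 / 2 : ℝ) else 0) +
        if t = ppI n d hd1 j1 then (1 / 2 : ℝ) else 0 := by ring
    rw [h3]
    refine (abs_add_le _ _).trans ?_
    linarith
  obtain ⟨Ainf, hAinf⟩ : ∃ Ainf : Idx n d → IK K → ℝ,
      Ainf = fun t j => a t / cK K * ppOne K j := ⟨_, rfl⟩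
  have hlam : ∀ t w, lam (Ainf t) w = (a t : ℂ) / (cK K : ℂ) := by
    intro t w
    rw [hAinf]
    show lam (fun j => a t / cK K * ppOne K j) w = _
    rw [lam_smul, lam_ppOne]
    push_cast
    ring
  have hAle : ∀ t j, |Ainf t j| ≤ 5 / 8 := by
    intro t j
    rw [hAinf]
    show |a t / cK K * ppOne K j| ≤ 5 / 8
    rw [abs_mul, abs_div, abs_of_pos hcK]
    calc |a t| / cK K * |ppOne K j| ≤ |a t| / cK K * cK K :=
          mul_le_mul_of_nonneg_left (ppOne_le j) (by positivity)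
      _ = |a t| := by field_simp
      _ ≤ 5 / 8 := ha1 t
  -- the values at the base point
  have hcKne : (cK K : ℂ) ≠ 0 := by exact_mod_cast hcK.ne'
  have he1 : ∀ i, ‖ppX ℂ n i‖ ≤ 1 := by
    intro i
    unfold ppX
    split_ifs <;> simp
  obtain ⟨S, hS⟩ : ∃ S : Idx n d → ℂ, S = ppA n d hd1 j1 ((1 / 2 : ℂ) / (cK K : ℂ)) := ⟨_, rfl⟩
  have hdiff : ∀ t w, ‖lam (Ainf t) w - S t‖ ≤ dl := by
    intro t w
    have h1 : lam (Ainf t) w - S t =
        ((a t - (if t = ppI n d hd1 j1 then 1 / 2 else 0) : ℝ) : ℂ) / (cK K : ℂ) := by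
      rw [hlam, hS]
      unfold ppA
      split_ifs <;> push_cast <;> ring
    rw [h1, norm_div, Complex.norm_real, Complex.norm_real, Real.norm_eq_abs, Real.norm_eq_abs,
      abs_of_pos hcK]
    calc _ ≤ dl / cK K := div_le_div_of_nonneg_right (ha t) hcK.le
      _ ≤ dl := div_le_self hdl0.le hcK1
  have hFS : F S (ppX ℂ n) = 0 := by rw [hS]; exact pp_F hd1 j1 hj1 _
  have hDS : D S (ppX ℂ n) j1 = (1 / 2 : ℂ) / (cK K : ℂ) := by rw [hS]; exact pp_D hd1 j1 hj1 _
  have hNM0 : (0 : ℝ) ≤ NN n d := by positivity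
  have hNMd : (0 : ℝ) ≤ NN n d * d := by positivity
  have hGI : ∀ w', GoodI w' rho0 (1 / (4 * cK K)) (fun t => lam (Ainf t) w') := by
    intro w'
    refine ⟨ppX ℂ n, ⟨fun _ i => ?_, he1, 0, by simp [ppX]⟩, ?_, j1, ?_⟩
    · unfold ppX
      split_ifs <;> simp
    · have h1 := F_norm_le (fun t => lam (Ainf t) w' - S t) (ppX ℂ n) dl 1 le_rfl
        (fun t => hdiff t w') he1
      rw [F_sub', hFS, sub_zero, one_pow, mul_one] at h1
      refine h1.trans ?_
      nlinarith
    · have h1 := D_norm_le (fun t => lam (Ainf t) w' * cK K - S t * cK K) (ppX ℂ n) j1 dl 1 le_rfl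
        (fun t => by
          have h2 : lam (Ainf t) w' * cK K - S t * cK K =
              ((a t - (if t = ppI n d hd1 j1 then 1 / 2 else 0) : ℝ) : ℂ) := by
            rw [hlam, hS]
            unfold ppA
            split_ifs <;> field_simp <;> push_cast <;> ring
          rw [h2, Complex.norm_real, Real.norm_eq_abs]
          exact ha t) he1
      have h3 : D (fun t => lam (Ainf t) w' * cK K - S t * cK K) (ppX ℂ n) j1 =
          cK K * D (fun t => lam (Ainf t) w') (ppX ℂ n) j1 - 1 / 2 := by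
        have h4 : (fun t => lam (Ainf t) w' * cK K - S t * cK K) =
            fun t => (fun t => (cK K : ℂ) * lam (Ainf t) w') t - (fun t => (cK K : ℂ) * S t) t := by
          funext t
          ring
        rw [h4, D_sub', D_smul, D_smul, hDS]
        field_simp
      rw [h3, one_pow, mul_one] at h1
      have h5 : (1 / 2 : ℝ) ≤ ‖(cK K : ℂ) * D (fun t => lam (Ainf t) w') (ppX ℂ n) j1‖ +
          ‖(cK K : ℂ) * D (fun t => lam (Ainf t) w') (ppX ℂ n) j1 - 1 / 2‖ := by
        have h6 := norm_sub_le ((cK K : ℂ) * D (fun t => lam (Ainf t) w') (ppX ℂ n) j1)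
          ((cK K : ℂ) * D (fun t => lam (Ainf t) w') (ppX ℂ n) j1 - 1 / 2)
        rw [sub_sub_cancel] at h6
        have h7 : ‖(1 / 2 : ℂ)‖ = 1 / 2 := by
          rw [norm_div, norm_one, Complex.norm_ofNat]
        rw [h7] at h6
        exact h6
      have h8 : NN n d * d * dl ≤ 1 / 4 := by nlinarith
      have h9 : 1 / 4 ≤ cK K * ‖D (fun t => lam (Ainf t) w') (ppX ℂ n) j1‖ := by
        rw [norm_mul, Complex.norm_real, Real.norm_eq_abs, abs_of_pos hcK] at h5
        linarith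
      rw [div_le_iff₀ (by positivity)]
      linarith
  -- the class
  obtain ⟨rho, hrho⟩ : ∃ rho : ℝ, rho = min rho0 (min (1 / 4) (r / (cK K * cK K))) := ⟨_, rfl⟩
  have hr0 : 0 < rho := by
    rw [hrho]
    exact lt_min hrho0 (lt_min (by norm_num) (by positivity))
  have hr1 : rho ≤ rho0 := by rw [hrho]; exact min_le_left _ _
  have hr2 : rho ≤ 1 / 4 := by rw [hrho]; exact (min_le_right _ _).trans (min_le_left _ _)
  have hr3 : cK K * cK K * rho ≤ r := by
    have : rho ≤ r / (cK K * cK K) := by rw [hrho]; exact (min_le_right _ _).trans (min_le_right _ _)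
    rw [le_div_iff₀ (by positivity)] at this
    linarith
  have hprim : 0 < primorial W := primorial_pos W
  obtain ⟨A0, hA0⟩ : ∃ A0 : Idx n d → 𝓞 K, A0 = ppA n d hd1 j1 (1 : 𝓞 K) := ⟨_, rfl⟩
  have hN := hclass rho hr0 hr1 1 le_rfl A0 (fun P hP hPW => by
    rw [hA0]
    exact pp_goodP hd1 j1 hj1 P hP _ hPW) Ainf Ainf (fun t j => (hAle t j).trans (by norm_num))
    (fun t j => by rw [sub_self, abs_zero]; exact hr0.le) hGI
  set p : Par K n d :=
    { Ainf := Ainf
      AC := Ainf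
      xi := 0
      h := 0
      u := 0
      kap := 1
      rho := rho
      vg := 1
      W := primorial W
      Q := primorial W ^ (2 * 1)
      P := ⊤
      A0 := A0
      x0 := 0 } with hp
  have hQ : 0 < p.Q := pow_pos hprim _
  have hcard := tendsto_natCast_atTop_atTop.eventually
    (card_Cl p hQ rho (1 / 2) hr0 (by norm_num))
  have hN' := tendsto_natCast_atTop_atTop.eventually hN
  have hQr : (p.Q : ℝ) = (primorial W : ℝ) ^ (2 * 1) := by
    rw [hp]
    push_cast
    rfl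
  refine ⟨(1 / 4) * (2 * rho / (3 * (primorial W : ℝ) ^ (2 * 1))) ^ (mK K * NN n d),
    by positivity, ?_⟩
  filter_upwards [hN', hcard, eventually_ge_atTop 1] with H h1 h2 h3
  obtain ⟨h4, _⟩ := h2
  unfold Par.XR at h4
  rw [hQr] at h4
  have hH1 : (1 : ℝ) ≤ H := by exact_mod_cast h3
  have hH0 : (0 : ℝ) < H := by linarith
  set X : ℝ := (2 * rho * H / (primorial W : ℝ) ^ (2 * 1)) ^ (mK K * NN n d) with hX
  have hX0 : 0 ≤ X := by positivity
  set N : Set (Idx n d → 𝓞 K) := {A : Idx n d → 𝓞 K |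
      (∀ t j, |(crd (A t) j : ℝ) - H * Ainf t j| ≤ rho * H) ∧
      (∀ t, (((primorial W) ^ (2 * 1) : ℕ) : 𝓞 K) ∣ A t - A0 t) ∧ ¬ Soluble A} with hNdef
  set S : Set (Idx n d → 𝓞 K) :=
    {A : Idx n d → 𝓞 K | A ∈ BoxK K n d H ∧ SmoothK A ∧ Soluble A} with hS'
  have hsub : p.Cl rho H ⊆ N ∪ S := by
    rintro A ⟨hA, hA'⟩
    by_cases hsol : Soluble A
    · right
      refine ⟨?_, ?_, hsol⟩
      · intro t j
        have h6 : |(crd (A t) j : ℝ) - H * Ainf t j| ≤ rho * H := hA t j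
        have h7 : |(H : ℝ) * Ainf t j| ≤ H * (5 / 8) := by
          rw [abs_mul, abs_of_nonneg hH0.le]
          exact mul_le_mul_of_nonneg_left (hAle t j) hH0.le
        have h9 : (crd (A t) j : ℝ) = ((crd (A t) j : ℝ) - H * Ainf t j) + H * Ainf t j := by ring
        rw [h9]
        refine (abs_add_le _ _).trans ?_
        nlinarith
      · -- smooth
        obtain ⟨w⟩ : Nonempty (InfinitePlace K) := inferInstance
        refine smoothK_of_embedding A w fun z hz => ?_
        obtain ⟨j, hj⟩ := hsm (fun t => ((cK K / H : ℝ) : ℂ) * sg w (A t)) (fun t => by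
          have h6 : ((cK K / H : ℝ) : ℂ) * sg w (A t) - a t =
              ((cK K / H : ℝ) : ℂ) * lam (fun j => (crd (A t) j : ℝ) - H * Ainf t j) w := by
            rw [lam_sub, lam_crd, lam_smul, hlam]
            push_cast
            have : (H : ℂ) ≠ 0 := by exact_mod_cast hH0.ne'
            field_simp
          rw [h6, norm_mul, Complex.norm_real, Real.norm_eq_abs, abs_of_pos (by positivity)]
          have h7 := norm_lam_le (fun j => (crd (A t) j : ℝ) - H * Ainf t j) (rho * H)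
            (fun j => hA t j) w
          calc cK K / H * ‖lam (fun j => (crd (A t) j : ℝ) - H * Ainf t j) w‖
              ≤ cK K / H * (cK K * (rho * H)) := mul_le_mul_of_nonneg_left h7 (by positivity)
            _ = cK K * cK K * rho := by field_simp
            _ ≤ r := hr3) z hz
        refine ⟨j, fun h0 => hj ?_⟩
        rw [D_smul, h0, mul_zero]
    · left
      exact ⟨hA, hA', hsol⟩
  have hSfin : S.Finite := (BoxK_finite (H : ℝ)).subset fun A hA => hA.1
  have hNfin : N.Finite := by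
    refine (Cl_finite p rho H).subset ?_
    rintro A ⟨hA, hA', _⟩
    exact ⟨hA, hA'⟩
  have hle : ((p.Cl rho H).ncard : ℝ) ≤ (N.ncard : ℝ) + (S.ncard : ℝ) := by
    have h5 := Set.ncard_le_ncard hsub (hNfin.union hSfin)
    have h6 := Set.ncard_union_le N S
    exact_mod_cast h5.trans h6
  have h1' : (N.ncard : ℝ) ≤ 1 / 4 * X := h1
  have h4' : (1 - 1 / 2) * X ≤ ((p.Cl rho H).ncard : ℝ) := h4
  have hSX : 1 / 4 * X ≤ (S.ncard : ℝ) := by linarith
  refine le_trans ?_ hSX
  have h5 : (2 * (H : ℝ) + 1) ^ (mK K * NN n d) ≤ (3 * H) ^ (mK K * NN n d) :=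
    pow_le_pow_left₀ (by positivity) (by linarith) _
  have h6 : (2 * rho / (3 * (primorial W : ℝ) ^ (2 * 1))) ^ (mK K * NN n d) *
      (3 * (H : ℝ)) ^ (mK K * NN n d) = X := by
    rw [hX, ← mul_pow]
    congr 1
    field_simp
  calc (1 / 4) * (2 * rho / (3 * (primorial W : ℝ) ^ (2 * 1))) ^ (mK K * NN n d) *
        (2 * (H : ℝ) + 1) ^ (mK K * NN n d)
      ≤ (1 / 4) * (2 * rho / (3 * (primorial W : ℝ) ^ (2 * 1))) ^ (mK K * NN n d) *
        (3 * H) ^ (mK K * NN n d) :=
        mul_le_mul_of_nonneg_left h5 (by positivity)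
    _ = 1 / 4 * ((2 * rho / (3 * (primorial W : ℝ) ^ (2 * 1))) ^ (mK K * NN n d) *
        (3 * (H : ℝ)) ^ (mK K * NN n d)) := by
        ring
    _ = 1 / 4 * X := by rw [h6]

end NFHP
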