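import Pool.Agent.Lib.MP_e426f4_ag.N.Const
import Pool.Agent.Lib.MP_e426f4_ag.N.CubeCount
import Pool.Agent.Lib.MP_e426f4_ag.N.Global
import Pool.Agent.Lib.MP_e426f4_ag.N.PosProp
import Pool.Agent.Lib.MP_e426f4_ag.N.SmoothK
import Pool.Agent.Lib.MP_e426f4_ag.N.Els

/-! Module HO: the final count in the house ordering. -/

set_option linter.unusedSectionVars false

namespace NFHP

open NumberField GenHP Finset Filter Topology

variable {K : Type} [Field K] [NumberField K] {n d : ℕ}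

/-- all absolute values of all coefficients are at most `H` -/
def House (K : Type) [Field K] [NumberField K] (n d : ℕ) (H : ℝ) : Set (Idx n d → 𝓞 K) :=
  {A | ∀ t w, ‖sg w (A t)‖ ≤ H}

private theorem ho_sub_box (H : ℝ) : House K n d H ⊆ BoxK K n d (cK K * H) := by
  intro A hA t j
  exact crd_le_of_norm_sg (hA t) j

private theorem ho_box_mono {H H' : ℝ} (h : H ≤ H') : BoxK K n d H ⊆ BoxK K n d H' := by
  intro A hA t j
  exact (hA t j).trans h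

private theorem ho_box_sub {H H' : ℝ} (h : cK K * H' ≤ H) : BoxK K n d H' ⊆ House K n d H := by
  intro A hA t w
  exact (norm_sg_le_of_crd (hA t) w).trans h

theorem house_final (hn : 3 ≤ n) (hd : 2 ≤ d) (hdn : d ≤ n) :
    (∀ H : ℝ, (House K n d H).Finite) ∧
    (∃ c : ℝ, 0 < c ∧ ∀ᶠ H : ℕ in atTop, c * ((House K n d H).ncard : ℝ) ≤
      (Set.ncard {A : Idx n d → 𝓞 K | A ∈ House K n d H ∧ SmoothK A ∧ Soluble A} : ℝ)) ∧
    (∀ eps : ℝ, 0 < eps → ∀ᶠ H : ℕ in atTop,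
      (Set.ncard {A : Idx n d → 𝓞 K | A ∈ House K n d H ∧ ELS A ∧ ¬ Soluble A} : ℝ) ≤
        eps * ((House K n d H).ncard : ℝ)) := by
  have hfin : ∀ H : ℝ, (House K n d H).Finite := fun H =>
    (BoxK_finite (cK K * H)).subset (ho_sub_box H)
  have hc1 : 1 ≤ cK K := one_le_cK
  have hc0 : 0 < cK K := cK_pos
  set c := cK K with hc
  set Mx : ℕ := mK K * NN n d with hMx
  set C : ℝ := (2 * c + 3) * c with hC
  have hC0 : 0 < C := by positivity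
  -- the radii
  have hlow : Tendsto (fun H : ℕ => ⌊(H : ℝ) / c⌋₊) atTop atTop :=
    tendsto_nat_floor_atTop.comp (tendsto_natCast_atTop_atTop.atTop_div_const hc0)
  have hup : Tendsto (fun H : ℕ => ⌈c * (H : ℝ)⌉₊) atTop atTop :=
    tendsto_nat_ceil_atTop.comp (tendsto_natCast_atTop_atTop.const_mul_atTop hc0)
  have hratio : ∀ H : ℕ, 1 ≤ H →
      (2 * (⌈c * (H : ℝ)⌉₊ : ℝ) + 1) ≤ C * (2 * (⌊(H : ℝ) / c⌋₊ : ℝ) + 1) := by
    intro H hH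
    have hH1 : (1 : ℝ) ≤ H := by exact_mod_cast hH
    have h1 : (⌈c * (H : ℝ)⌉₊ : ℝ) < c * H + 1 := Nat.ceil_lt_add_one (by positivity)
    have h2 : (H : ℝ) / c < (⌊(H : ℝ) / c⌋₊ : ℝ) + 1 := Nat.lt_floor_add_one _
    have h3 : (0 : ℝ) ≤ (⌊(H : ℝ) / c⌋₊ : ℝ) := Nat.cast_nonneg _
    have h4 : (H : ℝ) / c ≤ 2 * (⌊(H : ℝ) / c⌋₊ : ℝ) + 1 := by linarith
    calc 2 * (⌈c * (H : ℝ)⌉₊ : ℝ) + 1 ≤ (2 * c + 3) * H := by nlinarith
      _ = C * ((H : ℝ) / c) := by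
          rw [hC]
          field_simp
      _ ≤ _ := mul_le_mul_of_nonneg_left h4 hC0.le
  have hratio' : ∀ H : ℕ, 1 ≤ H →
      (2 * (⌈c * (H : ℝ)⌉₊ : ℝ) + 1) ^ Mx ≤ C ^ Mx * (2 * (⌊(H : ℝ) / c⌋₊ : ℝ) + 1) ^ Mx := by
    intro H hH
    rw [← mul_pow]
    exact pow_le_pow_left₀ (by positivity) (hratio H hH) _
  have hbox : ∀ R : ℕ, ((BoxK K n d R).ncard : ℝ) = (2 * (R : ℝ) + 1) ^ Mx := by
    intro R
    rw [card_BoxK]
    push_cast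
    rfl
  have hsub1 : ∀ H : ℕ, House K n d H ⊆ BoxK K n d (⌈c * (H : ℝ)⌉₊ : ℕ) := fun H =>
    (ho_sub_box (H : ℝ)).trans (ho_box_mono (Nat.le_ceil _))
  have hsub2 : ∀ H : ℕ, BoxK K n d (⌊(H : ℝ) / c⌋₊ : ℕ) ⊆ House K n d H := fun H => by
    apply ho_box_sub
    have h1 : (⌊(H : ℝ) / c⌋₊ : ℝ) ≤ (H : ℝ) / c := Nat.floor_le (by positivity)
    calc cK K * (⌊(H : ℝ) / c⌋₊ : ℝ) ≤ c * ((H : ℝ) / c) := mul_le_mul_of_nonneg_left h1 hc0.le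
      _ = H := by field_simp
  refine ⟨hfin, ?_, ?_⟩
  · obtain ⟨c', hc', hpp⟩ := pos_prop (K := K) (n := n) (d := d) hn hd hdn
    refine ⟨c' / C ^ Mx, by positivity, ?_⟩
    filter_upwards [hlow.eventually hpp, eventually_ge_atTop 1] with H h1 hH
    have h2 : ((House K n d H).ncard : ℝ) ≤ (2 * (⌈c * (H : ℝ)⌉₊ : ℝ) + 1) ^ Mx := by
      rw [← hbox]
      exact_mod_cast Set.ncard_le_ncard (hsub1 H) (BoxK_finite _)
    have h3 : (Set.ncard {A : Idx n d → 𝓞 K | A ∈ BoxK K n d (⌊(H : ℝ) / c⌋₊ : ℕ) ∧ SmoothK A ∧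
        Soluble A} : ℝ) ≤
        (Set.ncard {A : Idx n d → 𝓞 K | A ∈ House K n d H ∧ SmoothK A ∧ Soluble A} : ℝ) := by
      have h4 : {A : Idx n d → 𝓞 K | A ∈ BoxK K n d (⌊(H : ℝ) / c⌋₊ : ℕ) ∧ SmoothK A ∧
          Soluble A} ⊆ {A : Idx n d → 𝓞 K | A ∈ House K n d H ∧ SmoothK A ∧ Soluble A} :=
        fun A hA => ⟨hsub2 H hA.1, hA.2⟩
      exact_mod_cast Set.ncard_le_ncard h4 ((hfin H).subset fun A hA => hA.1)
    calc c' / C ^ Mx * ((House K n d H).ncard : ℝ) ≤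
        c' / C ^ Mx * (C ^ Mx * (2 * (⌊(H : ℝ) / c⌋₊ : ℝ) + 1) ^ Mx) :=
          mul_le_mul_of_nonneg_left (h2.trans (hratio' H hH)) (by positivity)
      _ = c' * (2 * (⌊(H : ℝ) / c⌋₊ : ℝ) + 1) ^ Mx := by
          field_simp
      _ ≤ _ := h1
      _ ≤ _ := h3
  · intro eps heps
    have h0 := exceptional_small (K := K) (n := n) (d := d) hn hd hdn (eps / C ^ Mx)
      (by positivity)
    filter_upwards [hup.eventually h0, eventually_ge_atTop 1] with H h1 hH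
    have h2 : (Set.ncard {A : Idx n d → 𝓞 K | A ∈ House K n d H ∧ ELS A ∧ ¬ Soluble A} : ℝ) ≤
        (Set.ncard {A : Idx n d → 𝓞 K | A ∈ BoxK K n d (⌈c * (H : ℝ)⌉₊ : ℕ) ∧ ELSe A ∧
          ¬ Soluble A} : ℝ) := by
      have h4 : {A : Idx n d → 𝓞 K | A ∈ House K n d H ∧ ELS A ∧ ¬ Soluble A} ⊆
          {A : Idx n d → 𝓞 K | A ∈ BoxK K n d (⌈c * (H : ℝ)⌉₊ : ℕ) ∧ ELSe A ∧
            ¬ Soluble A} := fun A hA => ⟨hsub1 H hA.1, ELSe_of_ELS A hA.2.1, hA.2.2⟩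
      exact_mod_cast Set.ncard_le_ncard h4 ((BoxK_finite _).subset fun A hA => hA.1)
    have h3 : (2 * (⌊(H : ℝ) / c⌋₊ : ℝ) + 1) ^ Mx ≤ ((House K n d H).ncard : ℝ) := by
      rw [← hbox]
      exact_mod_cast Set.ncard_le_ncard (hsub2 H) (hfin H)
    calc _ ≤ _ := h2
      _ ≤ eps / C ^ Mx * (2 * (⌈c * (H : ℝ)⌉₊ : ℝ) + 1) ^ Mx := h1
      _ ≤ eps / C ^ Mx * (C ^ Mx * (2 * (⌊(H : ℝ) / c⌋₊ : ℝ) + 1) ^ Mx) :=
          mul_le_mul_of_nonneg_left (hratio' H hH) (by positivity)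
      _ = eps * (2 * (⌊(H : ℝ) / c⌋₊ : ℝ) + 1) ^ Mx := by
          field_simp
      _ ≤ eps * ((House K n d H).ncard : ℝ) := mul_le_mul_of_nonneg_left h3 heps.le

end NFHP
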