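import Pool.Agent.Lib.MP_e426f4_ag.N.AlgCplx
import Pool.Agent.Lib.MP_e426f4_ag.G.Heights

/-! Module NF-LW: bounds for levels. -/

set_option linter.unusedSectionVars false
set_option linter.unusedVariables false

namespace NFHP

open NumberField GenHP Finset Filter Topology

variable {K : Type} [Field K] [NumberField K] {n d : ℕ}

/-- constant of the translation over one point -/
noncomputable def c4 (K : Type) [Field K] [NumberField K] (n d : ℕ) : ℝ :=
  2 ^ d * cK K ^ 2 * cG K n d + 1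

/-- constant of the translation over two points -/
noncomputable def c5 (K : Type) [Field K] [NumberField K] (n d : ℕ) : ℝ :=
  c3 n d * cK K ^ 2 * cG K n d + 1

theorem norm_le_of_VIn (p : Par K n d) {eps bet k0 : ℝ} {w : ℕ} (hp : p.Valid eps bet k0 w)
    (R : ℝ) (s : 𝓞 K) (hs : VIn p.gam R s) (w' : InfinitePlace K) :
    ‖sg w' s‖ ≤ cG K n d * cK K * R := by
  obtain ⟨r, hr, hrw⟩ := hs
  rw [hrw w', norm_mul]
  have h1 := gam_le p hp w'
  have h2 := norm_lam_le r R hr w'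
  have h3 : 0 ≤ cG K n d := (norm_nonneg _).trans h1
  calc ‖p.gam w'‖ * ‖lam r w'‖ ≤ cG K n d * (cK K * R) :=
        mul_le_mul h1 h2 (norm_nonneg _) h3
    _ = _ := by ring

/-- the size of the levels tends to infinity -/
theorem level_tendsto (n d : ℕ) (hn : 3 ≤ n) (hd : 2 ≤ d) (hdn : d ≤ n) (th : ℝ) (hth : 0 < th) :
    Tendsto (fun H : ℝ => th * H * (Bf n d H : ℝ) ^ d) atTop atTop := by
  have h1 : Tendsto (fun H : ℝ => th * H) atTop atTop := tendsto_id.const_mul_atTop hth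
  have h2 : Tendsto (fun H : ℝ => (Bf n d H : ℝ)) atTop atTop :=
    tendsto_natCast_atTop_atTop.comp (Bf_atTop n d hn hd hdn)
  have h3 : Tendsto (fun H : ℝ => (Bf n d H : ℝ) ^ d) atTop atTop :=
    (tendsto_pow_atTop (by omega)).comp h2
  exact h1.atTop_mul_atTop₀ h3

theorem Lev_asymp (p : Par K n d) {eps bet k0 : ℝ} {w : ℕ} (hp : p.Valid eps bet k0 w)
    (th : ℝ) (hth : 0 < th) (q : Ideal (𝓞 K)) (hq : q ≠ ⊥) (e : ℝ) (he : 0 < e) :
    ∀ᶠ H : ℝ in atTop,
      (1 - e) * (p.vg * (th * H * (Bf n d H : ℝ) ^ d) ^ mK K / Ideal.absNorm q) ≤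
        (p.Lev th q H : ℝ) ∧
      (p.Lev th q H : ℝ) ≤
        (1 + e) * (p.vg * (th * H * (Bf n d H : ℝ) ^ d) ^ mK K / Ideal.absNorm q) := by
  have hT := level_tendsto n d hp.n_ge hp.d_ge hp.d_le th hth
  have hlim := (hp.vg_lim q hq).comp hT
  have hN : (0 : ℝ) < Ideal.absNorm q := by exact_mod_cast absNorm_pos hq
  have hv : 0 < p.vg / Ideal.absNorm q := div_pos hp.vg_pos hN
  have h1 := hlim.eventually (Ioo_mem_nhds
    (show (1 - e) * (p.vg / Ideal.absNorm q) < p.vg / Ideal.absNorm q by nlinarith)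
    (show p.vg / Ideal.absNorm q < (1 + e) * (p.vg / Ideal.absNorm q) by nlinarith))
  filter_upwards [h1, hT.eventually_gt_atTop 0] with H hH hR
  obtain ⟨h2, h3⟩ := hH
  simp only [Function.comp_apply] at h2 h3
  have hRm : 0 < (th * H * (Bf n d H : ℝ) ^ d) ^ mK K := pow_pos hR _
  rw [lt_div_iff₀ hRm] at h2
  rw [div_lt_iff₀ hRm] at h3
  unfold Par.Lev
  constructor
  · refine le_trans (le_of_eq ?_) h2.le
    ring
  · refine h3.le.trans (le_of_eq ?_)
    ring

end NFHP
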