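import Mathlib

/-! Module NF-ZF: zeros of nearly affine maps. -/

namespace NFHP

open Finset Filter Topology

/-- NF-ZF (ZeroFind.lean): zeros of nearly affine maps -/
theorem exists_zero_near (phi : ℂ → ℂ) (g : ℂ) (kap del : ℝ) (hkap : 0 < kap) (hdel : 0 < del)
    (hdel1 : del ≤ 1 / 4) (hg : g ≠ 0)
    (h1 : ∀ z z' : ℂ, ‖z‖ ≤ kap → ‖z'‖ ≤ kap →
      ‖phi z - phi z' - g * (z - z')‖ ≤ del * ‖g‖ * ‖z - z'‖)
    (h0 : ‖phi 0‖ ≤ ‖g‖ * kap / 2) :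
    ∃ z0 : ℂ, ‖z0‖ ≤ 2 * ‖phi 0‖ / ‖g‖ ∧ phi z0 = 0 ∧
      (∀ z : ℂ, ‖z‖ ≤ kap → phi z = 0 → z = z0) := by
  have hg0 : 0 < ‖g‖ := norm_pos_iff.mpr hg
  set r0 : ℝ := 2 * ‖phi 0‖ / ‖g‖ with hr0
  have hr00 : 0 ≤ r0 := by positivity
  have hr0k : r0 ≤ kap := by
    rw [hr0, div_le_iff₀ hg0]
    linarith
  set f : ℂ → ℂ := fun z => z - phi z / g with hf
  have hcon : ∀ z z' : ℂ, ‖z‖ ≤ kap → ‖z'‖ ≤ kap → ‖f z - f z'‖ ≤ 1 / 4 * ‖z - z'‖ := by
    intro z z' hz hz'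
    have e : f z - f z' = -((phi z - phi z' - g * (z - z')) / g) := by
      simp only [hf]
      field_simp
      ring
    rw [e, norm_neg, norm_div, div_le_iff₀ hg0]
    calc _ ≤ del * ‖g‖ * ‖z - z'‖ := h1 z z' hz hz'
      _ ≤ 1 / 4 * ‖g‖ * ‖z - z'‖ := by gcongr
      _ = _ := by ring
  have hf0 : ‖f 0‖ = r0 / 2 := by
    simp only [hf, zero_sub, norm_neg, norm_div, hr0]
    ring
  set s : Set ℂ := Metric.closedBall 0 r0 with hs
  have hmem : ∀ z, z ∈ s ↔ ‖z‖ ≤ r0 := by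
    intro z
    rw [hs, mem_closedBall_zero_iff]
  have hmaps : Set.MapsTo f s s := by
    intro z hz
    rw [hmem] at hz ⊢
    have h2 := hcon z 0 (hz.trans hr0k) (by rw [norm_zero]; exact hkap.le)
    rw [sub_zero] at h2
    have h3 : ‖f z‖ ≤ ‖f z - f 0‖ + ‖f 0‖ := by
      have := norm_add_le (f z - f 0) (f 0)
      rwa [sub_add_cancel] at this
    rw [hf0] at h3
    linarith
  have hcw : ContractingWith (1 / 4 : NNReal) (hmaps.restrict f s s) := by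
    refine ⟨by rw [← NNReal.coe_lt_coe]; norm_num, ?_⟩
    refine LipschitzWith.of_dist_le_mul fun a b => ?_
    rw [Subtype.dist_eq, Subtype.dist_eq, dist_eq_norm, dist_eq_norm]
    have h2 := hcon a b (((hmem _).1 a.2).trans hr0k) (((hmem _).1 b.2).trans hr0k)
    have h3 : ((1 / 4 : NNReal) : ℝ) = 1 / 4 := by norm_num
    rw [h3]
    exact h2
  obtain ⟨z0, hz0, hfix, -⟩ := ContractingWith.exists_fixedPoint' (x := (0 : ℂ)) Metric.isClosed_closedBall.isComplete hmaps hcw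
    (by rw [hmem, norm_zero]; exact hr00) (edist_ne_top _ _)
  have hz0' := (hmem z0).1 hz0
  have hphi : phi z0 = 0 := by
    have h2 : z0 - phi z0 / g = z0 := hfix
    have h3 : phi z0 / g = 0 := by
      have := sub_eq_self.mp h2
      exact this
    rcases div_eq_zero_iff.mp h3 with h4 | h4
    · exact h4
    · exact absurd h4 hg
  refine ⟨z0, hz0', hphi, ?_⟩
  intro z hz hpz
  have h2 := h1 z z0 hz (hz0'.trans hr0k)
  rw [hpz, hphi, sub_zero, zero_sub, norm_neg, norm_mul] at h2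
  have h3 : ‖z - z0‖ ≤ 1 / 4 * ‖z - z0‖ := by
    refine le_of_mul_le_mul_left ?_ hg0
    calc ‖g‖ * ‖z - z0‖ ≤ del * ‖g‖ * ‖z - z0‖ := h2
      _ ≤ 1 / 4 * ‖g‖ * ‖z - z0‖ := by gcongr
      _ = _ := by ring
  have h4 : ‖z - z0‖ = 0 := by
    have := norm_nonneg (z - z0)
    linarith
  exact sub_eq_zero.mp (norm_eq_zero.mp h4)

end NFHP
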