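import Pool.Agent.Lib.MP_e426f4_ag.N.CubeCount
import Pool.Agent.Lib.MP_e426f4_ag.N.ZeroFind

/-! Module NF-RC2: counting along a line. -/

namespace NFHP

open NumberField GenHP Finset Filter Topology

variable {K : Type} [Field K] [NumberField K] {n d : ℕ}

private theorem radius (N : ℕ) (eps : ℝ) (he : 0 < eps) (he1 : eps ≤ 1) :
    ∃ e0 : ℝ, 0 < e0 ∧ e0 ≤ 1 / 2 ∧ (1 + e0) ^ N ≤ 1 + eps ∧ 1 - eps ≤ (1 - e0) ^ N := by
  set e0 : ℝ := eps / (2 * ((N : ℝ) + 1)) with he0
  have hN : (0 : ℝ) ≤ N := Nat.cast_nonneg N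
  have hpos : 0 < e0 := by positivity
  have hle : e0 ≤ eps / 2 := by
    rw [he0]
    apply div_le_div_of_nonneg_left he.le (by norm_num)
    linarith
  have hNe : (N : ℝ) * e0 ≤ eps / 2 := by
    rw [he0, mul_div_assoc', div_le_div_iff₀ (by positivity) (by norm_num)]
    nlinarith
  refine ⟨e0, hpos, by linarith, ?_, ?_⟩
  · have h1 : (1 + e0) ^ N ≤ Real.exp (N * e0) := by
      rw [Real.exp_nat_mul]
      apply pow_le_pow_left₀ (by linarith)
      rw [add_comm]
      exact Real.add_one_le_exp e0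
    have h2 : Real.exp (N * e0) ≤ 1 + 2 * (N * e0) := by
      have h0 : 0 ≤ (N : ℝ) * e0 := by positivity
      have h3 := Real.exp_bound' (x := N * e0) h0 (by linarith) (n := 2) (by norm_num)
      have h4 : ∑ i ∈ Finset.range 2, (N * e0) ^ i / (Nat.factorial i : ℝ) = 1 + N * e0 := by
        rw [Finset.sum_range_succ, Finset.sum_range_one]
        simp
      rw [h4] at h3
      have h5 : (N * e0) ^ 2 * ((2 : ℕ) + 1) / ((Nat.factorial 2 : ℝ) * ((2 : ℕ) : ℝ)) =
          3 / 4 * (N * e0) ^ 2 := by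
        norm_num [Nat.factorial]
        ring
      rw [h5] at h3
      nlinarith
    linarith
  · have h1 := one_add_mul_le_pow (a := -e0) (by linarith) N
    have h2 : (1 - e0) ^ N = (1 + -e0) ^ N := by rw [sub_eq_add_neg]
    rw [h2]
    linarith

private theorem abs_tri (x y : ℝ) : |y| ≤ |x| + |x - y| := by
  have h1 := abs_add_le x (y - x)
  rw [add_sub_cancel, abs_sub_comm y x] at h1
  exact h1

private theorem shrink (N x t D : ℝ) (del : ℝ) (hd4 : del ≤ 1 / 4) (hN : N ≤ x + D)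
    (hD : D ≤ del * N) (hx : x ≤ t) (hN0 : 0 ≤ N) : N ≤ 2 * t := by
  have h5 : del * N ≤ 1 / 4 * N := mul_le_mul_of_nonneg_right hd4 hN0
  linarith

/-- NF-RC2 (LineCount.lean): counting along a line -/
theorem line_count (K : Type) [Field K] [NumberField K] (eps : ℝ) (he : 0 < eps) (he1 : eps ≤ 1) :
    ∃ del : ℝ, 0 < del ∧ del ≤ 1 / 4 ∧ ∀ kap : ℝ, 0 < kap → ∀ th : ℝ, 0 < th → th ≤ kap / 4 →
    ∀ b : Ideal (𝓞 K), b ≠ ⊥ → ∃ B0 : ℕ, ∀ B : ℕ, B0 ≤ B →
    ∀ (g : InfinitePlace K → ℂ) (phi : InfinitePlace K → ℂ → ℂ), RV g → (∀ w, g w ≠ 0) →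
    (∀ w : InfinitePlace K, w.IsReal → ∀ z : ℂ,
      phi w ((starRingEnd ℂ) z) = (starRingEnd ℂ) (phi w z)) →
    (∀ w z z', ‖z‖ ≤ 2 * cK K * kap → ‖z'‖ ≤ 2 * cK K * kap →
      ‖phi w z - phi w z' - g w * (z - z')‖ ≤ del * ‖g w‖ * ‖z - z'‖) →
    (∀ w, ‖phi w 0‖ ≤ ‖g w‖ * kap / (4 * cK K)) →
    ∀ (c : IK K → ℝ) (r : 𝓞 K),
      (1 - eps) * ((2 * th * B) ^ mK K / Ideal.absNorm b) ≤
        (Set.ncard {a : 𝓞 K | a - r ∈ b ∧ (∀ j, |(crd a j : ℝ) - B * c j| ≤ kap * B) ∧
          ∃ v : IK K → ℝ, (∀ j, |v j| ≤ th) ∧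
            ∀ w, phi w (sg w a / B - lam c w) = g w * lam v w} : ℝ) ∧
      (Set.ncard {a : 𝓞 K | a - r ∈ b ∧ (∀ j, |(crd a j : ℝ) - B * c j| ≤ kap * B) ∧
          ∃ v : IK K → ℝ, (∀ j, |v j| ≤ th) ∧
            ∀ w, phi w (sg w a / B - lam c w) = g w * lam v w} : ℝ) ≤
        (1 + eps) * ((2 * th * B) ^ mK K / Ideal.absNorm b) := by
  have hk1 : 1 ≤ cK K := one_le_cK
  have hk0 : 0 < cK K := cK_pos
  have hsq1 : 1 - eps ≤ (1 - eps / 4) * (1 - eps / 4) := by nlinarith
  have hsq2 : (1 + eps / 4) * (1 + eps / 4) ≤ 1 + eps := by nlinarith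
  obtain ⟨e0, he0, he02, hup, hlo⟩ := radius (mK K) (eps / 4) (by linarith) (by linarith)
  set k : ℝ := cK K with hk
  set del : ℝ := e0 / (2 * k ^ 2) with hdel
  have hdpos : 0 < del := by positivity
  have hde : 2 * k ^ 2 * del = e0 := by
    rw [hdel]
    field_simp
  have hd4 : del ≤ 1 / 4 := by
    have h1 : 2 * del ≤ 2 * k ^ 2 * del := by
      have : 1 ≤ k ^ 2 := one_le_pow₀ hk1
      nlinarith
    linarith
  refine ⟨del, hdpos, hd4, ?_⟩
  intro kap hkap th hth hth4 b hb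
  have hkk : k * kap ≤ 2 * k * kap := by
    have : 0 < k * kap := mul_pos hk0 hkap
    linarith
  have hsm : kap / (2 * k) ≤ 2 * k * kap := by
    rw [div_le_iff₀ (by positivity)]
    have : 1 ≤ k ^ 2 := one_le_pow₀ hk1
    nlinarith
  obtain ⟨R0, hR0, hcc⟩ := cube_count (K := K) b hb (eps / 4) (by linarith)
  set thl : ℝ := th * (1 - e0) with hthl
  set thu : ℝ := th * (1 + e0) with hthu
  have hthl0 : 0 < thl := by
    rw [hthl]
    apply mul_pos hth
    linarith
  have hlu : thl ≤ thu := by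
    rw [hthl, hthu]
    nlinarith
  refine ⟨⌈R0 / thl⌉₊ + 1, ?_⟩
  intro B hB g phi hRg hg0 hconj hlin hphi0 c r
  have hBpos : (0 : ℝ) < B := by
    have : 0 < B := by omega
    exact_mod_cast this
  have hBl : R0 ≤ thl * B := by
    have h1 : R0 / thl ≤ (B : ℝ) := by
      refine (Nat.le_ceil _).trans ?_
      have : ⌈R0 / thl⌉₊ ≤ B := by omega
      exact_mod_cast this
    rw [div_le_iff₀ hthl0] at h1
    linarith
  have hBu : R0 ≤ thu * B := hBl.trans (mul_le_mul_of_nonneg_right hlu hBpos.le)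
  -- the zero
  have hz : ∀ w, ∃ z0 : ℂ, ‖z0‖ ≤ kap / (2 * k) ∧ phi w z0 = 0 ∧
      (∀ z : ℂ, ‖z‖ ≤ kap / (2 * k) → phi w z = 0 → z = z0) := by
    intro w
    have hgw : 0 < ‖g w‖ := norm_pos_iff.mpr (hg0 w)
    obtain ⟨z0, h1, h2, h3⟩ := exists_zero_near (phi w) (g w) (kap / (2 * k)) del (by positivity)
      hdpos hd4 (hg0 w) (fun z z' hz hz' => hlin w z z' (hz.trans hsm) (hz'.trans hsm)) (by
        refine (hphi0 w).trans (le_of_eq ?_)
        field_simp
        ring)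
    refine ⟨z0, h1.trans ?_, h2, h3⟩
    rw [div_le_iff₀ hgw]
    have := hphi0 w
    have h4 : kap / (2 * k) * ‖g w‖ = 2 * (‖g w‖ * kap / (4 * k)) := by
      field_simp
      ring
    rw [h4]
    linarith
  choose z0 hz0 hz0' hz0u using hz
  have hRz : RV z0 := by
    intro w hw
    have h1 : (starRingEnd ℂ) (z0 w) = z0 w := by
      apply hz0u w
      · rw [RCLike.norm_conj]
        exact hz0 w
      · rw [hconj w hw, hz0' w, map_zero]
    have h2 := congrArg Complex.im h1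
    rw [Complex.conj_im] at h2
    linarith
  obtain ⟨v0, hv0⟩ := exists_lam hRz
  have hv0b : ∀ j, |v0 j| ≤ kap / 2 := by
    intro j
    have h1 := abs_le_of_lam v0 (kap / (2 * k)) (fun w => by rw [hv0]; exact hz0 w) j
    refine h1.trans (le_of_eq ?_)
    rw [← hk]
    field_simp
  -- coordinates
  have hlamu : ∀ (a : 𝓞 K) (w : InfinitePlace K),
      lam (fun j => (crd a j : ℝ) / B - c j) w = sg w a / B - lam c w := by
    intro a w
    rw [lam_sub]
    congr 1
    have h1 := lam_smul ((B : ℝ)⁻¹) (fun j => (crd a j : ℝ)) w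
    rw [lam_crd] at h1
    have h2 : (fun j => (crd a j : ℝ) / B) = fun j => (B : ℝ)⁻¹ * (crd a j : ℝ) := by
      funext j
      ring
    rw [h2, h1]
    push_cast
    ring
  have hlamy : ∀ (a : 𝓞 K) (w : InfinitePlace K),
      lam (fun j => (crd a j : ℝ) / B - c j - v0 j) w = (sg w a / B - lam c w) - z0 w := by
    intro a w
    rw [lam_sub (fun j => (crd a j : ℝ) / B - c j) v0, hlamu, hv0]
  have hscale : ∀ (a : 𝓞 K) (j : IK K) (t : ℝ), |(crd a j : ℝ) / B - c j| ≤ t ↔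
      |(crd a j : ℝ) - B * c j| ≤ t * B := by
    intro a j t
    have h1 : (crd a j : ℝ) - B * c j = ((crd a j : ℝ) / B - c j) * B := by
      field_simp
    rw [h1, abs_mul, abs_of_pos hBpos, mul_le_mul_iff_left₀ hBpos]
  have hscale2 : ∀ (a : 𝓞 K) (j : IK K) (t : ℝ), |(crd a j : ℝ) / B - c j - v0 j| ≤ t ↔
      |(crd a j : ℝ) - B * (c j + v0 j)| ≤ t * B := by
    intro a j t
    have h1 : (crd a j : ℝ) - B * (c j + v0 j) = ((crd a j : ℝ) / B - c j - v0 j) * B := by
      field_simp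
      ring
    rw [h1, abs_mul, abs_of_pos hBpos, mul_le_mul_iff_left₀ hBpos]
  have hz0big : ∀ w, ‖z0 w‖ ≤ 2 * k * kap := fun w => (hz0 w).trans hsm
  -- the two inclusions
  set S := {a : 𝓞 K | a - r ∈ b ∧ (∀ j, |(crd a j : ℝ) - B * c j| ≤ kap * B) ∧
          ∃ v : IK K → ℝ, (∀ j, |v j| ≤ th) ∧
            ∀ w, phi w (sg w a / B - lam c w) = g w * lam v w} with hS
  have hupper : S ⊆ {a : 𝓞 K | a - r ∈ b ∧
      ∀ j, |(crd a j : ℝ) - B * (c j + v0 j)| ≤ thu * B} := by
    rintro a ⟨ha1, ha2, v, hv1, hv2⟩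
    refine ⟨ha1, fun j => ?_⟩
    rw [← hscale2]
    have hu : ∀ w, ‖sg w a / B - lam c w‖ ≤ 2 * k * kap := by
      intro w
      rw [← hlamu]
      exact (norm_lam_le _ kap (fun j => (hscale a j kap).mpr (ha2 j)) w).trans hkk
    -- the difference
    have hdiff : ∀ w, ‖lam v w - ((sg w a / B - lam c w) - z0 w)‖ ≤
        del * ‖(sg w a / B - lam c w) - z0 w‖ := by
      intro w
      have hgw : 0 < ‖g w‖ := norm_pos_iff.mpr (hg0 w)
      have h1 := hlin w (sg w a / B - lam c w) (z0 w) (hu w) (hz0big w)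
      rw [hv2 w, hz0' w, sub_zero, ← mul_sub, norm_mul] at h1
      have h2 : del * ‖g w‖ * ‖(sg w a / B - lam c w) - z0 w‖ =
          ‖g w‖ * (del * ‖(sg w a / B - lam c w) - z0 w‖) := by ring
      rw [h2] at h1
      exact le_of_mul_le_mul_left h1 hgw
    have hy : ∀ w, ‖(sg w a / B - lam c w) - z0 w‖ ≤ 2 * k * th := by
      intro w
      have h1 := hdiff w
      have h2 := norm_lam_le v th hv1 w
      have h3 : ‖(sg w a / B - lam c w) - z0 w‖ ≤
          ‖lam v w‖ + ‖lam v w - ((sg w a / B - lam c w) - z0 w)‖ := by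
        have h4 := norm_sub_norm_le ((sg w a / B - lam c w) - z0 w) (lam v w)
        rw [norm_sub_rev ((sg w a / B - lam c w) - z0 w) (lam v w)] at h4
        linarith
      have h5 := shrink _ _ _ _ del hd4 h3 h1 h2 (norm_nonneg _)
      rw [← hk] at h5
      rw [mul_assoc]
      exact h5
    have hvy : |v j - ((crd a j : ℝ) / B - c j - v0 j)| ≤ k * (del * (2 * k * th)) := by
      refine abs_le_of_lam (fun j => v j - ((crd a j : ℝ) / B - c j - v0 j)) _ (fun w => ?_) j
      rw [lam_sub v (fun j => (crd a j : ℝ) / B - c j - v0 j), hlamy]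
      exact (hdiff w).trans (mul_le_mul_of_nonneg_left (hy w) hdpos.le)
    have h6 : k * (del * (2 * k * th)) = th * e0 := by
      rw [← hde]
      ring
    rw [h6] at hvy
    have h7 := abs_tri (v j) ((crd a j : ℝ) / B - c j - v0 j)
    have h8 : thu = th + th * e0 := by rw [hthu]; ring
    rw [h8]
    exact h7.trans (add_le_add (hv1 j) hvy)
  have hlower : {a : 𝓞 K | a - r ∈ b ∧
      ∀ j, |(crd a j : ℝ) - B * (c j + v0 j)| ≤ thl * B} ⊆ S := by
    rintro a ⟨ha1, ha2⟩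
    have ha3 : ∀ j, |(crd a j : ℝ) / B - c j - v0 j| ≤ thl := fun j =>
      (hscale2 a j thl).mpr (ha2 j)
    have hthlth : thl ≤ th := by
      rw [hthl]
      nlinarith
    have ha4 : ∀ j, |(crd a j : ℝ) / B - c j| ≤ kap := by
      intro j
      have h1 := ha3 j
      have h2 := hv0b j
      have h3 := abs_add_le ((crd a j : ℝ) / B - c j - v0 j) (v0 j)
      rw [sub_add_cancel] at h3
      linarith
    refine ⟨ha1, fun j => (hscale a j kap).mp (ha4 j), ?_⟩
    have hu : ∀ w, ‖sg w a / B - lam c w‖ ≤ 2 * k * kap := by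
      intro w
      rw [← hlamu]
      exact (norm_lam_le _ kap ha4 w).trans hkk
    have hRV : RV fun w => phi w (sg w a / B - lam c w) / g w := by
      refine RV_div ?_ hRg
      intro w hw
      have h1 : (starRingEnd ℂ) (sg w a / B - lam c w) = sg w a / B - lam c w := by
        rw [← hlamu]
        exact Complex.conj_eq_iff_im.mpr (RV_lam _ w hw)
      have h2 := hconj w hw (sg w a / B - lam c w)
      rw [h1] at h2
      exact Complex.conj_eq_iff_im.mp h2.symm
    obtain ⟨v, hv⟩ := exists_lam hRV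
    refine ⟨v, fun j => ?_, fun w => ?_⟩
    · have hdiff : ∀ w, ‖lam v w - ((sg w a / B - lam c w) - z0 w)‖ ≤
          del * ‖(sg w a / B - lam c w) - z0 w‖ := by
        intro w
        have hgw : 0 < ‖g w‖ := norm_pos_iff.mpr (hg0 w)
        have h1 := hlin w (sg w a / B - lam c w) (z0 w) (hu w) (hz0big w)
        have h3 : phi w (sg w a / B - lam c w) = g w * lam v w := by
          rw [hv]
          exact (mul_div_cancel₀ _ (hg0 w)).symm
        rw [h3, hz0' w, sub_zero, ← mul_sub, norm_mul] at h1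
        have h2 : del * ‖g w‖ * ‖(sg w a / B - lam c w) - z0 w‖ =
            ‖g w‖ * (del * ‖(sg w a / B - lam c w) - z0 w‖) := by ring
        rw [h2] at h1
        exact le_of_mul_le_mul_left h1 hgw
      have hy : ∀ w, ‖(sg w a / B - lam c w) - z0 w‖ ≤ k * th := by
        intro w
        rw [← hlamy]
        exact norm_lam_le _ th (fun j => (ha3 j).trans hthlth) w
      have hvy : |v j - ((crd a j : ℝ) / B - c j - v0 j)| ≤ k * (del * (k * th)) := by
        refine abs_le_of_lam (fun j => v j - ((crd a j : ℝ) / B - c j - v0 j)) _ (fun w => ?_) j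
        rw [lam_sub v (fun j => (crd a j : ℝ) / B - c j - v0 j), hlamy]
        exact (hdiff w).trans (mul_le_mul_of_nonneg_left (hy w) hdpos.le)
      have h6 : k * (del * (k * th)) = th * (e0 / 2) := by
        rw [← hde]
        ring
      rw [h6] at hvy
      have h7 := abs_tri ((crd a j : ℝ) / B - c j - v0 j) (v j)
      rw [abs_sub_comm] at hvy
      have h8 : thl + th * (e0 / 2) ≤ th := by
        rw [hthl]
        have h9 : 0 < th * e0 := mul_pos hth he0
        linarith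
      exact (h7.trans (add_le_add (ha3 j) hvy)).trans h8
    · rw [hv]
      exact (mul_div_cancel₀ _ (hg0 w)).symm
  -- counting
  obtain ⟨hf1, hl1, -⟩ := hcc (thl * B) hBl (fun j => B * (c j + v0 j)) r
  obtain ⟨hf2, -, hu2⟩ := hcc (thu * B) hBu (fun j => B * (c j + v0 j)) r
  have hNb : (0 : ℝ) < Ideal.absNorm b := by exact_mod_cast absNorm_pos hb
  have hSf : S.Finite := hf2.subset hupper
  have hX : 0 ≤ (2 * th * B) ^ mK K / (Ideal.absNorm b : ℝ) := by positivity
  constructor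
  · have h1 : ((Set.ncard {a : 𝓞 K | a - r ∈ b ∧
      ∀ j, |(crd a j : ℝ) - B * (c j + v0 j)| ≤ thl * B} : ℕ) : ℝ) ≤ (S.ncard : ℝ) := by
      exact_mod_cast Set.ncard_le_ncard hlower hSf
    refine le_trans ?_ (hl1.trans h1)
    have h2 : (2 * (thl * B)) ^ mK K / (Ideal.absNorm b : ℝ) =
        (1 - e0) ^ mK K * ((2 * th * B) ^ mK K / (Ideal.absNorm b : ℝ)) := by
      rw [hthl, ← mul_div_assoc, ← mul_pow]
      congr 2
      ring
    rw [h2, ← mul_assoc]
    apply mul_le_mul_of_nonneg_right _ hX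
    have h3 : (1 - eps / 4) * (1 - eps / 4) ≤ (1 - eps / 4) * (1 - e0) ^ mK K :=
      mul_le_mul_of_nonneg_left hlo (by linarith)
    have h4 : 1 - eps ≤ (1 - eps / 4) * (1 - eps / 4) := hsq1
    exact h4.trans h3
  · have h1 : (S.ncard : ℝ) ≤ ((Set.ncard {a : 𝓞 K | a - r ∈ b ∧
      ∀ j, |(crd a j : ℝ) - B * (c j + v0 j)| ≤ thu * B} : ℕ) : ℝ) := by
      exact_mod_cast Set.ncard_le_ncard hupper hf2
    refine (h1.trans hu2).trans ?_
    have h2 : (2 * (thu * B)) ^ mK K / (Ideal.absNorm b : ℝ) =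
        (1 + e0) ^ mK K * ((2 * th * B) ^ mK K / (Ideal.absNorm b : ℝ)) := by
      rw [hthu, ← mul_div_assoc, ← mul_pow]
      congr 2
      ring
    rw [h2, ← mul_assoc]
    apply mul_le_mul_of_nonneg_right _ hX
    have h3 : (1 + eps / 4) * (1 + e0) ^ mK K ≤ (1 + eps / 4) * (1 + eps / 4) :=
      mul_le_mul_of_nonneg_left hup (by linarith)
    exact h3.trans hsq2

end NFHP
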