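import Pool.Agent.Lib.MP_e426f4_ag.N.Lat
import Pool.Agent.Lib.MP_e426f4_ag.N.CoordControlC

/-! Module NF-NG1: points which are not well-rounded are orthogonal to a short vector. -/

namespace NFHP

open NumberField GenHP Finset Filter Topology

variable {K : Type} [Field K] [NumberField K] {n d : ℕ}

/-- If no `k` elements of a family of vectors are independent, its span has dimension less
than `k`. -/
private theorem ng1_finrank_lt {m : ℕ} (S : Set (Fin m → ℂ)) (k : ℕ)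
    (h : ∀ l : Fin k → Fin m → ℂ, (∀ i, l i ∈ S) → ¬ LinearIndependent ℂ l) :
    Module.finrank ℂ (Submodule.span ℂ S) < k := by
  by_contra hcon
  push Not at hcon
  obtain ⟨b, hbS, hbspan, hbli⟩ := exists_linearIndependent ℂ S
  have hfin : Finite b := hbli.finite
  have : Fintype b := Fintype.ofFinite b
  have hcard : Fintype.card b = Module.finrank ℂ (Submodule.span ℂ S) := by
    rw [← hbspan]
    exact (finrank_span_set_eq_card hbli).symm ▸ (by simp)
  have h3 : k ≤ Fintype.card b := by omega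
  obtain ⟨f⟩ : Nonempty (Fin k ↪ b) := by
    apply Function.Embedding.nonempty_of_card_le
    simpa using h3
  exact h (fun i => (f i : Fin m → ℂ)) (fun i => hbS (f i).2) (hbli.comp f f.injective)

private theorem ng1_indep {k : ℕ} (w : InfinitePlace K) (l : Fin k → Fin (n + 1) → 𝓞 K)
    (h : LinearIndependent ℂ (fun (k : Fin k) (i : Fin (n + 1)) => sg w (l k i))) :
    LinearIndependent K (fun (k : Fin k) (i : Fin (n + 1)) => ((l k i : 𝓞 K) : K)) := by
  rw [Fintype.linearIndependent_iff] at h ⊢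
  intro c hc k
  have h1 := h (fun k => w.embedding (c k)) (by
    funext i
    have h0 := congrFun hc i
    simp only [Finset.sum_apply, Pi.smul_apply, smul_eq_mul, Pi.zero_apply] at h0 ⊢
    have h2 := congrArg w.embedding h0
    rw [map_sum, map_zero] at h2
    simp only [map_mul] at h2
    exact h2) k
  exact (map_eq_zero_iff _ w.embedding.injective).1 h1

/-- the cell of an integer at the place `w` -/
private noncomputable def ng1Cell (w : InfinitePlace K) (Y : ℝ) (a : 𝓞 K) : ℤ × ℤ :=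
  (⌊(sg w a).re / Y⌋, ⌊(sg w a).im / Y⌋)

open Classical in
private noncomputable def ng1Cells (w : InfinitePlace K) (g : ℕ) : Finset (ℤ × ℤ) :=
  Finset.Icc (-(g : ℤ)) (g : ℤ) ×ˢ (if w.IsReal then {0} else Finset.Icc (-(g : ℤ)) (g : ℤ))

private theorem ng1_card_cells (w : InfinitePlace K) (g : ℕ) :
    (ng1Cells w g).card = (2 * g + 1) ^ w.mult := by
  unfold ng1Cells
  rw [Finset.card_product]
  have e : (Finset.Icc (-(g : ℤ)) (g : ℤ)).card = 2 * g + 1 := by
    rw [Int.card_Icc]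
    omega
  by_cases hw : w.IsReal
  · rw [if_pos hw, Finset.card_singleton, mul_one, e, InfinitePlace.mult, if_pos hw, pow_one]
  · rw [if_neg hw, e, InfinitePlace.mult, if_neg hw, pow_two]

private theorem ng1_floor_mem (x Y X : ℝ) (hY : 0 < Y) (hx : |x| ≤ X) (g : ℕ)
    (hg : X ≤ g * Y) : ⌊x / Y⌋ ∈ Finset.Icc (-(g : ℤ)) (g : ℤ) := by
  have h1 : |x / Y| ≤ g := by
    rw [abs_div, abs_of_pos hY, div_le_iff₀ hY]
    exact hx.trans hg
  rw [abs_le] at h1
  rw [Finset.mem_Icc]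
  constructor
  · rw [Int.le_floor]
    push_cast
    exact h1.1
  · have := (Int.floor_le (x / Y)).trans h1.2
    exact_mod_cast this

private theorem ng1_cell_mem (w : InfinitePlace K) (Y X : ℝ) (hY : 0 < Y) (g : ℕ)
    (hg : X ≤ g * Y) (a : 𝓞 K) (ha : ‖sg w a‖ ≤ X) : ng1Cell w Y a ∈ ng1Cells w g := by
  unfold ng1Cells ng1Cell
  rw [Finset.mem_product]
  refine ⟨ng1_floor_mem _ _ X hY ((Complex.abs_re_le_norm _).trans ha) _ hg, ?_⟩
  by_cases hw : w.IsReal
  · rw [if_pos hw, Finset.mem_singleton]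
    have h0 : (sg w a).im = 0 := RV_sg a w hw
    show ⌊(sg w a).im / Y⌋ = _
    rw [h0, zero_div, Int.floor_zero]
  · rw [if_neg hw]
    exact ng1_floor_mem _ _ X hY ((Complex.abs_im_le_norm _).trans ha) _ hg

private theorem ng1_floor_div_sub (x y Y : ℝ) (hY : 0 < Y) (h : ⌊x / Y⌋ = ⌊y / Y⌋) :
    |x - y| ≤ Y := by
  have h1 := Int.floor_le (x / Y)
  have h2 := Int.lt_floor_add_one (x / Y)
  have h3 := Int.floor_le (y / Y)
  have h4 := Int.lt_floor_add_one (y / Y)
  rw [h] at h1 h2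
  have h5 : |x / Y - y / Y| ≤ 1 := by
    rw [abs_le]
    constructor <;> linarith
  rw [← sub_div, abs_div, abs_of_pos hY, div_le_one hY] at h5
  exact h5

private theorem ng1_cell_diff (w : InfinitePlace K) (Y : ℝ) (hY : 0 < Y) (a a' : 𝓞 K)
    (h : ng1Cell w Y a = ng1Cell w Y a') : ‖sg w (a - a')‖ ≤ 2 * Y := by
  unfold ng1Cell at h
  rw [Prod.mk.injEq] at h
  have h2 := ng1_floor_div_sub _ _ _ hY h.1
  have h3 := ng1_floor_div_sub _ _ _ hY h.2
  rw [map_sub]
  calc ‖sg w a - sg w a'‖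
      ≤ |(sg w a - sg w a').re| + |(sg w a - sg w a').im| :=
        Complex.norm_le_abs_re_add_abs_im _
    _ ≤ Y + Y := by
        rw [Complex.sub_re, Complex.sub_im]
        exact add_le_add h2 h3
    _ = 2 * Y := by ring

/-- integers of size at most `X` -/
private def ng1S (K : Type) [Field K] [NumberField K] (X : ℝ) : Set (𝓞 K) :=
  {a | ∀ w : InfinitePlace K, ‖sg w a‖ ≤ X}

private theorem ng1_upper (K : Type) [Field K] [NumberField K] : ∃ C : ℝ, 1 ≤ C ∧
    ∀ X : ℝ, 0 < X → (ng1S K X).Finite ∧ ((ng1S K X).ncard : ℝ) ≤ C * (X ^ mK K + 1) := by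
  obtain ⟨C, hC, h⟩ := lat_upper K
  refine ⟨C, hC, fun X hX => ?_⟩
  have h1 := h ⊤ top_ne_bot (fun _ => X) (fun _ => hX) (fun _ => 0)
  have e : {a : 𝓞 K | a ∈ (⊤ : Ideal (𝓞 K)) ∧ ∀ w, ‖sg w a - 0‖ ≤ X} = ng1S K X := by
    ext a
    simp [ng1S]
  rw [e, np_const, Ideal.absNorm_top, Nat.cast_one, div_one] at h1
  exact h1

private theorem ng1_lower (K : Type) [Field K] [NumberField K] : ∃ c : ℝ, 0 < c ∧
    ∀ X : ℝ, 0 < X → c * X ^ mK K ≤ ((ng1S K X).ncard : ℝ) := by
  obtain ⟨c, hc, h⟩ := lat_lower K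
  refine ⟨c, hc, fun X hX => ?_⟩
  have h1 := h ⊤ top_ne_bot (fun _ => X) (fun _ => hX)
  have e : {a : 𝓞 K | a ∈ (⊤ : Ideal (𝓞 K)) ∧ ∀ w, ‖sg w a‖ ≤ X} = ng1S K X := by
    ext a
    simp [ng1S]
  rw [e, np_const, Ideal.absNorm_top, Nat.cast_one, div_one] at h1
  exact h1

/-- NF-NG1 (NotGood.lean) -/
theorem short_of_not_good (K : Type) [Field K] [NumberField K] (n : ℕ) (hn : 2 ≤ n) :
    ∃ C R1 : ℝ, 0 < C ∧ 1 ≤ R1 ∧ ∀ R : ℝ, R1 ≤ R →
    ∀ B : ℕ, 1 ≤ B → ∀ x : Fin (n + 1) → 𝓞 K, x ∈ Bx n (2 * (B : ℝ)) → ¬ Good R B x →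
    ∃ l : Fin (n + 1) → 𝓞 K, l ≠ 0 ∧ ∑ i, l i * x i = 0 ∧
      ∀ i w, ‖sg w (l i)‖ * R ^ (1 / ((n : ℝ) - 1)) ≤ C * (B : ℝ) ^ (1 / (n : ℝ)) := by
  classical
  obtain ⟨C1, hC1, hup⟩ := ng1_upper K
  obtain ⟨c, hc, hlow⟩ := ng1_lower K
  obtain ⟨m, hm⟩ : ∃ m : ℕ, m = mK K := ⟨_, rfl⟩
  have hm1 : 1 ≤ m := by rw [hm]; exact mK_pos
  rw [← hm] at hup hlow
  have hn0 : (0 : ℝ) ≤ n := Nat.cast_nonneg n
  have hn2 : (2 : ℝ) ≤ n := by exact_mod_cast hn
  have hnne : (n : ℝ) ≠ 0 := by positivity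
  obtain ⟨c2, hc2⟩ : ∃ c2 : ℝ, c2 = c ^ (n + 1) / (2 ^ (m * (n + 1)) * (2 * C1) * ((n : ℝ) + 1) ^ m) :=
    ⟨_, rfl⟩
  have hC10 : 0 < C1 := by linarith
  have hc20 : 0 < c2 := by rw [hc2]; positivity
  obtain ⟨k3, hk3⟩ : ∃ k3 : ℝ, k3 = min 1 (c2 / 2) := ⟨_, rfl⟩
  have hk30 : 0 < k3 := by rw [hk3]; exact lt_min one_pos (by positivity)
  have hk31 : k3 ≤ 1 := by rw [hk3]; exact min_le_left _ _
  have hk32 : k3 ≤ c2 / 2 := by rw [hk3]; exact min_le_right _ _
  refine ⟨((n : ℝ) + 1) ^ (n + 1) * (6 / k3), 3 / k3, by positivity, ?_, ?_⟩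
  · rw [le_div_iff₀ hk30]
    linarith
  intro R hR B hB x hx h
  obtain ⟨β, hβ⟩ : ∃ β : ℝ, β = (B : ℝ) ^ (1 / (n : ℝ)) := ⟨_, rfl⟩
  have hB1 : (1 : ℝ) ≤ B := by exact_mod_cast hB
  have hβ0 : 0 < β := by rw [hβ]; positivity
  have hβ1 : 1 ≤ β := by rw [hβ]; exact Real.one_le_rpow hB1 (by positivity)
  have hβn : β ^ n = B := by
    rw [hβ, ← Real.rpow_natCast, ← Real.rpow_mul (by positivity)]
    rw [one_div, inv_mul_cancel₀ hnne, Real.rpow_one]
  have hR3 : 3 ≤ R := by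
    refine le_trans ?_ hR
    rw [le_div_iff₀ hk30]
    linarith
  have hR0 : 0 < R := by linarith
  obtain ⟨s, hs⟩ : ∃ s : ℝ, s = R ^ (1 / ((n : ℝ) - 1)) := ⟨_, rfl⟩
  have hs1 : 1 ≤ s := by
    rw [hs]
    apply Real.one_le_rpow (by linarith)
    apply div_nonneg zero_le_one
    linarith
  have hs0 : 0 < s := by linarith
  have hsn1 : s ^ (n - 1) = R := by
    rw [hs, ← Real.rpow_natCast, ← Real.rpow_mul hR0.le, Nat.cast_sub (by omega), Nat.cast_one,
      one_div, inv_mul_cancel₀ (by linarith), Real.rpow_one]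
  have hsn : s ^ n = R * s := by
    calc s ^ n = s ^ (n - 1 + 1) := by congr 1; omega
      _ = R * s := by rw [pow_succ, hsn1]
  have hsnR : R ≤ s ^ n := by
    rw [hsn]
    nlinarith
  -- the number of cells
  obtain ⟨g, hg⟩ : ∃ g : ℕ, g = ⌊k3 / 3 * s ^ n⌋₊ := ⟨_, rfl⟩
  have hgle : (g : ℝ) ≤ k3 / 3 * s ^ n := by
    rw [hg]; exact Nat.floor_le (by positivity)
  have hggt : k3 / 3 * s ^ n < (g : ℝ) + 1 := by rw [hg]; exact Nat.lt_floor_add_one _
  have hq1 : 1 ≤ k3 / 3 * s ^ n := by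
    have h1 : 3 / k3 ≤ s ^ n := hR.trans hsnR
    rw [div_le_iff₀ hk30] at h1
    linarith
  have hg0 : 0 < g := by
    rw [hg]
    exact Nat.floor_pos.2 hq1
  have hg1 : (1 : ℝ) ≤ g := by exact_mod_cast hg0
  have hg12 : k3 / 6 * s ^ n ≤ (g : ℝ) := by
    have : k3 / 6 * s ^ n = k3 / 3 * s ^ n / 2 := by ring
    rw [this]
    linarith
  have h2g : 2 * (g : ℝ) + 1 ≤ k3 * s ^ n := by linarith
  obtain ⟨μ, hμ⟩ : ∃ μ : ℝ, μ = R * β := ⟨_, rfl⟩
  have hμ0 : 0 < μ := by rw [hμ]; positivity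
  have hμ1 : 1 ≤ μ := by rw [hμ]; nlinarith
  have hμn : μ ^ n = R ^ n * B := by rw [hμ, mul_pow, hβn]
  -- first pigeonhole
  obtain ⟨hT0fin, -⟩ := hup (μ / 2) (by positivity)
  have hT0low := hlow (μ / 2) (by positivity)
  obtain ⟨T0, hT0⟩ : ∃ T0 : Finset (𝓞 K), T0 = hT0fin.toFinset := ⟨_, rfl⟩
  have hT0m : ∀ a, a ∈ T0 ↔ a ∈ ng1S K (μ / 2) := fun a => by rw [hT0, Set.Finite.mem_toFinset]
  have hT0c : c * (μ / 2) ^ m ≤ (T0.card : ℝ) := by
    rw [hT0, ← Set.ncard_eq_toFinset_card _ hT0fin]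
    exact hT0low
  have hX1 : 1 ≤ ((n : ℝ) + 1) * μ * B := by
    have : 1 ≤ ((n : ℝ) + 1) * μ := by nlinarith
    nlinarith
  obtain ⟨hTfin, hTup⟩ := hup (((n : ℝ) + 1) * μ * B) (by linarith)
  obtain ⟨T, hT⟩ : ∃ T : Finset (𝓞 K), T = hTfin.toFinset := ⟨_, rfl⟩
  have hTm : ∀ a, a ∈ T ↔ a ∈ ng1S K (((n : ℝ) + 1) * μ * B) := fun a => by
    rw [hT, Set.Finite.mem_toFinset]
  have hTc : (T.card : ℝ) ≤ 2 * C1 * (((n : ℝ) + 1) * μ * B) ^ m := by
    rw [hT, ← Set.ncard_eq_toFinset_card _ hTfin]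
    refine hTup.trans ?_
    have h1 : 1 ≤ (((n : ℝ) + 1) * μ * B) ^ m := one_le_pow₀ hX1
    nlinarith
  let L0 : Finset (Fin (n + 1) → 𝓞 K) := Fintype.piFinset fun _ => T0
  have hL0card : L0.card = T0.card ^ (n + 1) := by
    simp only [L0, Fintype.card_piFinset, Finset.prod_const, Finset.card_univ, Fintype.card_fin]
  have hL0 : ∀ l ∈ L0, ∀ i w, ‖sg w (l i)‖ ≤ μ / 2 := by
    intro l hl i w
    have := (Fintype.mem_piFinset.1 hl) i
    rw [hT0m] at this
    exact this w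
  have hmap : ∀ l ∈ L0, (∑ i, l i * x i) ∈ T := by
    intro l hl
    rw [hTm]
    intro w
    rw [map_sum]
    calc ‖∑ i, sg w (l i * x i)‖ ≤ ∑ i, ‖sg w (l i * x i)‖ := norm_sum_le _ _
      _ ≤ ∑ _i : Fin (n + 1), μ / 2 * (2 * B) := by
          refine Finset.sum_le_sum fun i _ => ?_
          rw [map_mul, norm_mul]
          exact mul_le_mul (hL0 l hl i w) (hx i w) (norm_nonneg _) (by positivity)
      _ = ((n : ℝ) + 1) * μ * B := by
          simp only [Finset.sum_const, Finset.card_univ, Fintype.card_fin, nsmul_eq_mul]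
          push_cast
          ring
  have hcount : T.card * (2 * g + 1) ^ (m * (n - 1)) < L0.card := by
    rw [hL0card]
    have h1 : ((T.card * (2 * g + 1) ^ (m * (n - 1)) : ℕ) : ℝ) < ((T0.card ^ (n + 1) : ℕ) : ℝ) := by
      push_cast
      have h2 : (2 * (g : ℝ) + 1) ^ (m * (n - 1)) ≤ c2 / 2 * R ^ (m * n) := by
        calc (2 * (g : ℝ) + 1) ^ (m * (n - 1)) ≤ (k3 * s ^ n) ^ (m * (n - 1)) :=
              pow_le_pow_left₀ (by positivity) h2g _
          _ = k3 ^ (m * (n - 1)) * R ^ (m * n) := by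
              rw [mul_pow, ← hsn1, ← pow_mul, ← pow_mul]
              congr 2
              ring
          _ ≤ c2 / 2 * R ^ (m * n) := by
              refine mul_le_mul_of_nonneg_right ?_ (by positivity)
              have h3 : 1 ≤ m * (n - 1) := Nat.mul_pos hm1 (by omega)
              calc k3 ^ (m * (n - 1)) ≤ k3 ^ 1 := pow_le_pow_of_le_one hk30.le hk31 h3
                _ = k3 := pow_one _
                _ ≤ c2 / 2 := hk32
      have h3 : (c * (μ / 2) ^ m) ^ (n + 1) ≤ (T0.card : ℝ) ^ (n + 1) :=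
        pow_le_pow_left₀ (by positivity) hT0c _
      have h4 : 0 < (c * (μ / 2) ^ m) ^ (n + 1) := by positivity
      have h5 : (2 * C1 * (((n : ℝ) + 1) * μ * B) ^ m) * (c2 / 2 * R ^ (m * n)) =
          (c * (μ / 2) ^ m) ^ (n + 1) / 2 := by
        have e1 : R ^ (m * n) * (B : ℝ) ^ m = μ ^ (n * m) := by
          rw [pow_mul μ, hμn, mul_pow, ← pow_mul, mul_comm m n]
        have e2 : (c * (μ / 2) ^ m) ^ (n + 1) = c ^ (n + 1) * (μ ^ (n * m) * μ ^ m) / 2 ^ (m * (n + 1)) := by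
          rw [mul_pow, ← pow_mul, div_pow, ← pow_add]
          rw [show n * m + m = m * (n + 1) by ring]
          ring
        rw [e2, ← e1, hc2, mul_pow, mul_pow]
        field_simp
      calc (T.card : ℝ) * (2 * (g : ℝ) + 1) ^ (m * (n - 1)) ≤
            (2 * C1 * (((n : ℝ) + 1) * μ * B) ^ m) * (c2 / 2 * R ^ (m * n)) :=
            mul_le_mul hTc h2 (by positivity) (by positivity)
        _ = (c * (μ / 2) ^ m) ^ (n + 1) / 2 := h5
        _ < (c * (μ / 2) ^ m) ^ (n + 1) := by linarith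
        _ ≤ _ := h3
    exact_mod_cast h1
  obtain ⟨y, -, hy⟩ := Finset.exists_lt_card_fiber_of_mul_lt_card_of_maps_to hmap hcount
  let L : Finset (Fin (n + 1) → 𝓞 K) := L0.filter fun l => ∑ i, l i * x i = y
  have hLcard : (2 * g + 1) ^ (m * (n - 1)) < L.card := hy
  have hL : ∀ l ∈ L, l ∈ L0 ∧ ∑ i, l i * x i = y := fun l hl => Finset.mem_filter.1 hl
  obtain ⟨l0, hl0⟩ : ∃ l0, l0 ∈ L := by
    apply Finset.card_pos.1
    omega
  -- span of the differences
  let S : InfinitePlace K → Set (Fin (n + 1) → ℂ) := fun w =>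
    {v | ∃ l ∈ L, v = fun i => sg w (l i - l0 i)}
  have hS : ∀ w, ∀ l : Fin n → Fin (n + 1) → ℂ, (∀ k, l k ∈ S w) → ¬ LinearIndependent ℂ l := by
    intro w l hl hli
    choose mm hmm hml using hl
    apply h
    refine ⟨fun k i => mm k i - l0 i, ?_, ?_, ?_⟩
    · apply ng1_indep w
      have : l = (fun k : Fin n => fun i => sg w (mm k i - l0 i)) := by
        funext k
        exact hml k
      rw [← this]
      exact hli
    · intro k
      have h1 := (hL _ (hmm k)).2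
      have h2 := (hL _ hl0).2
      have h3 : ∑ i, (mm k i - l0 i) * x i = ∑ i, mm k i * x i - ∑ i, l0 i * x i := by
        rw [← Finset.sum_sub_distrib]
        exact Finset.sum_congr rfl fun i _ => by ring
      rw [h3, h1, h2, sub_self]
    · intro k i w'
      rw [← hβ, ← hμ]
      have h1 := hL0 _ (hL _ (hmm k)).1 i w'
      have h2 := hL0 _ (hL _ hl0).1 i w'
      rw [map_sub]
      calc ‖sg w' (mm k i) - sg w' (l0 i)‖ ≤ ‖sg w' (mm k i)‖ + ‖sg w' (l0 i)‖ := norm_sub_le _ _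
        _ ≤ μ := by linarith
  have hctrl := fun w => coord_controlC (Submodule.span ℂ (S w))
  choose J hJcard hJ using hctrl
  have hJn : ∀ w, (J w).card ≤ n - 1 := by
    intro w
    have h1 := ng1_finrank_lt (S w) n (hS w)
    have h2 := hJcard w
    omega
  -- second pigeonhole
  obtain ⟨Y, hY⟩ : ∃ Y : ℝ, Y = μ / 2 / g := ⟨_, rfl⟩
  have hY0 : 0 < Y := by rw [hY]; positivity
  have hgY : μ / 2 ≤ g * Y := by
    rw [hY]
    have : (g : ℝ) ≠ 0 := by positivity
    field_simp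
    exact le_refl _
  let f : (Fin (n + 1) → 𝓞 K) → (InfinitePlace K → Fin (n + 1) → ℤ × ℤ) := fun l w j =>
    if j ∈ J w then ng1Cell w Y (l j) else 0
  let cells : Finset (InfinitePlace K → Fin (n + 1) → ℤ × ℤ) :=
    Fintype.piFinset fun w => Fintype.piFinset fun j => if j ∈ J w then ng1Cells w g else {0}
  have hf : ∀ l ∈ L, f l ∈ cells := by
    intro l hl
    simp only [cells, f]
    rw [Fintype.mem_piFinset]
    intro w
    rw [Fintype.mem_piFinset]
    intro j
    by_cases hj : j ∈ J w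
    · rw [if_pos hj, if_pos hj]
      exact ng1_cell_mem w Y (μ / 2) hY0 g hgY (l j) (hL0 _ (hL _ hl).1 j w)
    · rw [if_neg hj, if_neg hj]
      exact Finset.mem_singleton_self _
  have hcard2 : cells.card < L.card := by
    refine lt_of_le_of_lt ?_ hLcard
    simp only [cells]
    rw [Fintype.card_piFinset]
    calc ∏ w : InfinitePlace K, (Fintype.piFinset fun j => if j ∈ J w then ng1Cells w g else {0}).card
        ≤ ∏ w : InfinitePlace K, ((2 * g + 1) ^ (n - 1)) ^ w.mult := by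
          refine Finset.prod_le_prod' fun w _ => ?_
          rw [Fintype.card_piFinset]
          have e1 : ∀ j : Fin (n + 1), (if j ∈ J w then ng1Cells w g else {0}).card =
              if j ∈ J w then (2 * g + 1) ^ w.mult else 1 := by
            intro j
            by_cases hj : j ∈ J w
            · rw [if_pos hj, if_pos hj, ng1_card_cells]
            · rw [if_neg hj, if_neg hj, Finset.card_singleton]
          simp only [e1]
          rw [Finset.prod_ite, Finset.prod_const, Finset.prod_const_one, mul_one]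
          have e2 : (Finset.univ.filter fun j => j ∈ J w) = J w := by
            ext j
            simp
          rw [e2, ← pow_mul, ← pow_mul]
          refine Nat.pow_le_pow_right (by omega) ?_
          rw [mul_comm]
          exact Nat.mul_le_mul_right _ (hJn w)
      _ = (2 * g + 1) ^ (m * (n - 1)) := by
          rw [Finset.prod_pow_eq_pow_sum, sum_mult, ← pow_mul, hm, mul_comm (n - 1)]
  obtain ⟨l, hl, l', hl', hne, hfl⟩ := Finset.exists_ne_map_eq_of_card_lt_of_maps_to hcard2 hf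
  refine ⟨fun i => l i - l' i, ?_, ?_, ?_⟩
  · intro h0
    apply hne
    funext i
    have := congrFun h0 i
    simp only [Pi.zero_apply] at this
    exact sub_eq_zero.1 this
  · have h3 : ∑ i, (l i - l' i) * x i = ∑ i, l i * x i - ∑ i, l' i * x i := by
      rw [← Finset.sum_sub_distrib]
      exact Finset.sum_congr rfl fun i _ => by ring
    rw [h3, (hL _ hl).2, (hL _ hl').2, sub_self]
  · intro i w
    -- the difference lies in the span
    have hmem : (fun i => sg w (l i - l' i)) ∈ Submodule.span ℂ (S w) := by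
      have h1 : (fun i => sg w (l i - l0 i)) ∈ Submodule.span ℂ (S w) :=
        Submodule.subset_span ⟨l, hl, rfl⟩
      have h2 : (fun i => sg w (l' i - l0 i)) ∈ Submodule.span ℂ (S w) :=
        Submodule.subset_span ⟨l', hl', rfl⟩
      have h3 := Submodule.sub_mem _ h1 h2
      have h4 : (fun i => sg w (l i - l' i)) =
          (fun i => sg w (l i - l0 i)) - (fun i => sg w (l' i - l0 i)) := by
        funext i
        simp only [Pi.sub_apply]
        rw [← map_sub]
        congr 1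
        ring
      rw [h4]
      exact h3
    have hM : ∀ j ∈ J w, ‖sg w (l j - l' j)‖ ≤ 2 * Y := by
      intro j hj
      have h1 := congrFun (congrFun hfl w) j
      simp only [f] at h1
      rw [if_pos hj, if_pos hj] at h1
      exact ng1_cell_diff w Y hY0 _ _ h1
    have h1 := hJ w _ hmem (2 * Y) (by positivity) hM i
    rw [Fintype.card_fin] at h1
    rw [← hβ, ← hs]
    have h2 : 2 * Y * s ≤ 6 / k3 * β := by
      rw [hY, hμ]
      have e1 : 2 * (R * β / 2 / (g : ℝ)) * s = R * s * β / g := by ring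
      rw [e1, div_le_iff₀ (by positivity), ← hsn]
      have e2 : s ^ n ≤ 6 / k3 * g := by
        rw [div_mul_eq_mul_div, le_div_iff₀ hk30]
        linarith
      calc s ^ n * β ≤ 6 / k3 * g * β := mul_le_mul_of_nonneg_right e2 hβ0.le
        _ = 6 / k3 * β * g := by ring
    calc ‖sg w (l i - l' i)‖ * s ≤ (((n + 1 : ℕ) : ℝ) ^ (n + 1) * (2 * Y)) * s :=
          mul_le_mul_of_nonneg_right h1 hs0.le
      _ = ((n : ℝ) + 1) ^ (n + 1) * (2 * Y * s) := by push_cast; ring
      _ ≤ ((n : ℝ) + 1) ^ (n + 1) * (6 / k3 * β) :=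
          mul_le_mul_of_nonneg_left h2 (by positivity)
      _ = _ := by ring

end NFHP
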