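import Pool.Agent.Lib.MP_e426f4_ag.N.Crude
import Pool.Agent.Lib.MP_e426f4_ag.N.SumBad
import Pool.Agent.Lib.MP_e426f4_ag.N.CubeCount
import Pool.Agent.Lib.MP_e426f4_ag.N.CardCl
import Pool.Agent.Lib.MP_e426f4_ag.N.Points
import Pool.Agent.Lib.MP_e426f4_ag.G.Heights

/-! Module NF-S2B: bad pairs of points contribute little to the second moment. -/

namespace NFHP

open NumberField GenHP Finset Filter Topology

variable {K : Type} [Field K] [NumberField K] {n d : ℕ}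

theorem s2b_Cl_norm_le (p : Par K n d) {eps bet k0 : ℝ} {w : ℕ} (hp : p.Valid eps bet k0 w)
    (H : ℝ) (hH : 0 ≤ H) (A : Idx n d → 𝓞 K) (hA : A ∈ p.Cl p.rho H) (t : Idx n d)
    (w' : InfinitePlace K) : ‖sg w' (A t)‖ ≤ cK K * (3 * H) := by
  refine norm_sg_le_of_crd (fun j => ?_) w'
  have h1 := hA.1 t j
  have h2 := hp.AC_near t j
  have h3 := hp.Ainf_le t j
  have h4 := hp.rho_le
  have h5 : |p.AC t j| ≤ 1 + p.rho := by
    calc |p.AC t j| = |(p.AC t j - p.Ainf t j) + p.Ainf t j| := by ring_nf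
      _ ≤ |p.AC t j - p.Ainf t j| + |p.Ainf t j| := abs_add_le _ _
      _ ≤ 1 + p.rho := by linarith
  calc |(crd (A t) j : ℝ)| = |((crd (A t) j : ℝ) - H * p.AC t j) + H * p.AC t j| := by ring_nf
    _ ≤ |(crd (A t) j : ℝ) - H * p.AC t j| + |H * p.AC t j| := abs_add_le _ _
    _ ≤ p.rho * H + H * (1 + p.rho) := by
        rw [abs_mul, abs_of_nonneg hH]
        exact add_le_add h1 (mul_le_mul_of_nonneg_left h5 hH)
    _ ≤ 3 * H := by nlinarith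

theorem s2b_TBad_finite (p : Par K n d) (R : ℝ) (G : ℕ) (tau H : ℝ) :
    (p.TBad R G tau H).Finite := by
  refine ((Cl_finite p p.rho H).prod ((GG_finite p R (Bf n d H)).prod
    (GG_finite p R (Bf n d H)))).subset ?_
  rintro ⟨A, x, y⟩ ⟨hA, hx, hy, _⟩
  exact ⟨hA, hx, hy⟩

/-- number of points in the box -/
theorem s2b_card_Bx (K : Type) [Field K] [NumberField K] (n : ℕ) : ∃ C : ℝ, 0 < C ∧
    ∀ B : ℕ, 1 ≤ B → ((Bx n (2 * (B : ℝ)) : Set (Fin (n + 1) → 𝓞 K)).ncard : ℝ) ≤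
      C * (B : ℝ) ^ (mK K * (n + 1)) := by
  obtain ⟨C, hC, h⟩ := lat_upper_vec K
  refine ⟨(C * (2 ^ mK K + 1)) ^ (n + 1), by positivity, fun B hB => ?_⟩
  have hB1 : (1 : ℝ) ≤ B := by exact_mod_cast hB
  have h1 := (h (Fin (n + 1)) ⊤ top_ne_bot (fun _ => 2 * (B : ℝ)) (fun _ => by positivity)
    fun _ _ => 0).2
  have e : {a : Fin (n + 1) → 𝓞 K | (∀ i, a i ∈ (⊤ : Ideal (𝓞 K))) ∧
      ∀ i w, ‖sg w (a i) - (0 : ℂ)‖ ≤ 2 * (B : ℝ)} = Bx n (2 * (B : ℝ)) := by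
    ext x
    simp only [Set.mem_ofPred_eq, Submodule.mem_top, implies_true, true_and, sub_zero, Bx]
  rw [e, np_const, Ideal.absNorm_top, Nat.cast_one, div_one, Fintype.card_fin] at h1
  refine h1.trans ?_
  have h2 : (1 : ℝ) ≤ (B : ℝ) ^ mK K := one_le_pow₀ hB1
  have h3 : C * ((2 * (B : ℝ)) ^ mK K + 1) ≤ C * (2 ^ mK K + 1) * (B : ℝ) ^ mK K := by
    rw [mul_pow, mul_assoc]
    refine mul_le_mul_of_nonneg_left ?_ (by linarith)
    nlinarith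
  calc (C * ((2 * (B : ℝ)) ^ mK K + 1)) ^ (n + 1)
      ≤ (C * (2 ^ mK K + 1) * (B : ℝ) ^ mK K) ^ (n + 1) :=
        pow_le_pow_left₀ (by positivity) h3 _
    _ = _ := by rw [mul_pow, ← pow_mul]

theorem s2b_count (p : Par K n d) {eps bet k0 : ℝ} {w : ℕ} (hp : p.Valid eps bet k0 w) (R : ℝ)
    (hR : 1 ≤ R) (C : ℝ) (hC : 0 < C) (E : ℕ → ℝ) (hE : ∀ G, 0 ≤ E G)
    (hsum : ∀ (R : ℝ), 1 ≤ R → ∀ B : ℕ, 1 ≤ B → ∀ x : Fin (n + 1) → 𝓞 K, Prim x →
      x ∈ Bx n (2 * (B : ℝ)) → (∀ w, ∃ i, (B : ℝ) / 2 ≤ ‖sg w (x i)‖) → Good R B x →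
      ∀ G : ℕ, 1 ≤ G → ∀ tau : ℝ, 0 < tau → tau ≤ 1 →
      ∀ S : Finset (Fin (n + 1) → 𝓞 K),
      (∀ y ∈ S, y ∈ Bx n (2 * (B : ℝ)) ∧ mgI x y ≠ ⊥ ∧ BadPr G tau B x y) →
        ∑ y ∈ S, (mgN x y : ℝ) / np (fun w => dl w x y) ≤
          C * R ^ (mK K * n) * (E G + tau) * (B : ℝ) ^ (mK K * (n - 1)))
    (D : ℝ) (hD : 0 < D)
    (hcr : ∀ (B : ℕ), 1 ≤ B → ∀ x y : Fin (n + 1) → 𝓞 K, Prim x → Prim y →
      ∀ mu : ℝ, 1 ≤ mu → Ortho mu x → Ortho mu y →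
      (∀ w, ∃ i, (B : ℝ) / 2 ≤ ‖sg w (x i)‖ ∧ (B : ℝ) / 2 ≤ ‖sg w (y i)‖) →
      x ∈ Bx n (2 * (B : ℝ)) → y ∈ Bx n (2 * (B : ℝ)) → mgI x y ≠ ⊥ →
      ∀ H : ℝ, 1 ≤ H → 2 * c2 K n d * mu ^ 2 ≤ H → 2 * c1 K n d * mu ≤ H →
        {A : Idx n d → 𝓞 K | (∀ m w, ‖sg w (A m)‖ ≤ H) ∧ F A x = 0 ∧ F A y = 0}.Finite ∧
        (Set.ncard {A : Idx n d → 𝓞 K | (∀ m w, ‖sg w (A m)‖ ≤ H) ∧ F A x = 0 ∧ F A y = 0} : ℝ) ≤
          D * H ^ (mK K * NN n d) * mgN x y /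
            np (fun w => H ^ 2 * (B : ℝ) ^ (2 * d - 2) * dl w x y))
    (T : ℝ) (hT : 0 < T)
    (hbx : ∀ B : ℕ, 1 ≤ B → ((Bx n (2 * (B : ℝ)) : Set (Fin (n + 1) → 𝓞 K)).ncard : ℝ) ≤
      T * (B : ℝ) ^ (mK K * (n + 1)))
    (G : ℕ) (hG : 1 ≤ G) (tau : ℝ) (ht : 0 < tau) (ht1 : tau ≤ 1) (H : ℝ) (hH : 1 ≤ H)
    (hB : 1 ≤ Bf n d H)
    (h1 : 2 * c2 K n d * (R * (Bf n d H : ℝ) ^ (1 / (n : ℝ))) ^ 2 ≤ H)
    (h2 : 2 * c1 K n d * (R * (Bf n d H : ℝ) ^ (1 / (n : ℝ))) ≤ H) :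
    ((p.TBad R G tau H).ncard : ℝ) ≤
      (T * D * (cK K * 3) ^ (mK K * NN n d) * C * R ^ (mK K * n)) *
        (E G + tau) * (H ^ (mK K * NN n d) * (((Bf n d H : ℝ) ^ (n + 1 - d) / H) ^ 2) ^ mK K) := by
  classical
  set B := Bf n d H with hBdef
  obtain ⟨hb1, hb2⟩ := mem_XX_bounds p hp B
  have hB1 : (1 : ℝ) ≤ B := by exact_mod_cast hB
  have hmu : 1 ≤ R * (B : ℝ) ^ (1 / (n : ℝ)) := by
    have : (1 : ℝ) ≤ (B : ℝ) ^ (1 / (n : ℝ)) := Real.one_le_rpow hB1 (by positivity)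
    nlinarith
  have hcK := one_le_cK (K := K)
  set H' : ℝ := cK K * (3 * H) with hH'
  have hHH' : H ≤ H' := by
    rw [hH']
    nlinarith
  set GF : Finset (Fin (n + 1) → 𝓞 K) := (GG_finite p R B).toFinset with hGF
  set S : Finset ((Idx n d → 𝓞 K) × (Fin (n + 1) → 𝓞 K) × (Fin (n + 1) → 𝓞 K)) :=
    (s2b_TBad_finite p R G tau H).toFinset with hS
  set cst : ℝ := D * H' ^ (mK K * NN n d) / (H' ^ 2 * (B : ℝ) ^ (2 * d - 2)) ^ mK K with hcst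
  have hH'0 : 0 < H' := by linarith
  have hcst0 : 0 ≤ cst := by positivity
  set U : Finset ((Fin (n + 1) → 𝓞 K) × (Fin (n + 1) → 𝓞 K)) := (GF ×ˢ GF).filter
    (fun b => mgI b.1 b.2 ≠ ⊥ ∧ BadPr G tau B b.1 b.2) with hU
  have hmemS : ∀ q, q ∈ S ↔ q ∈ p.TBad R G tau H := fun q => by simp [hS]
  have hmemGF : ∀ x, x ∈ GF ↔ x ∈ p.GG R B := fun x => by simp [hGF]
  have hmap : ∀ q ∈ S, (q.2.1, q.2.2) ∈ U := by
    intro q hq
    rw [hmemS] at hq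
    obtain ⟨_, hx, hy, _, _, hne, hbad⟩ := hq
    rw [hU, Finset.mem_filter, Finset.mem_product, hmemGF, hmemGF]
    exact ⟨⟨hx, hy⟩, mgI_ne_bot_of_mem_GG p hp R B hB _ _ hx hy hne, hbad⟩
  have hcard : (S.card : ℝ) ≤ ∑ b ∈ U, cst * ((mgN b.1 b.2 : ℝ) / np (fun w => dl w b.1 b.2)) := by
    rw [Finset.card_eq_sum_card_fiberwise (f := fun q => (q.2.1, q.2.2)) (t := U)
      (fun q hq => hmap q hq)]
    push_cast
    refine Finset.sum_le_sum fun b hb => ?_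
    rw [hU, Finset.mem_filter, Finset.mem_product, hmemGF, hmemGF] at hb
    obtain ⟨⟨hx, hy⟩, hne, _⟩ := hb
    have hcp := hcr B hB b.1 b.2 hx.2.1 hy.2.1 (R * (B : ℝ) ^ (1 / (n : ℝ))) hmu hx.2.2 hy.2.2
      (fun w' => by
        obtain ⟨i, hi⟩ := hb2 w'
        exact ⟨i, hi _ hx.1, hi _ hy.1⟩) (hb1 _ hx.1) (hb1 _ hy.1) hne H' (by linarith)
      (by linarith) (by linarith)
    have hcp' : (Set.ncard {A : Idx n d → 𝓞 K | (∀ m w, ‖sg w (A m)‖ ≤ H') ∧ F A b.1 = 0 ∧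
        F A b.2 = 0} : ℝ) ≤ cst * ((mgN b.1 b.2 : ℝ) / np (fun w => dl w b.1 b.2)) := by
      refine hcp.2.trans (le_of_eq ?_)
      have e1 : np (fun w => H' ^ 2 * (B : ℝ) ^ (2 * d - 2) * dl w b.1 b.2) =
          (H' ^ 2 * (B : ℝ) ^ (2 * d - 2)) ^ mK K * np (fun w => dl w b.1 b.2) := by
        rw [np_mul (fun _ => H' ^ 2 * (B : ℝ) ^ (2 * d - 2)) fun w => dl w b.1 b.2, np_const]
      rw [hcst, e1, div_mul_div_comm]
    refine le_trans ?_ hcp'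
    rw [Set.ncard_eq_toFinset_card _ hcp.1]
    refine Nat.cast_le.mpr (Finset.card_le_card_of_injOn
      (fun q : (Idx n d → 𝓞 K) × (Fin (n + 1) → 𝓞 K) × (Fin (n + 1) → 𝓞 K) => q.1)
      (fun q hq => by
        simp only [Finset.coe_filter, Set.mem_ofPred_eq, hmemS] at hq
        obtain ⟨hq, hqb⟩ := hq
        simp only [Set.Finite.coe_toFinset, Set.mem_ofPred_eq]
        obtain ⟨hA, _, _, hF1, hF2, _, _⟩ := hq
        rw [← hqb]
        exact ⟨fun m w' => s2b_Cl_norm_le p hp H (by linarith) _ hA m w', hF1, hF2⟩)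
      (fun q hq q' hq' h => by
        simp only [Finset.coe_filter, Set.mem_ofPred_eq, hmemS] at hq hq'
        have e := hq.2.trans hq'.2.symm
        simp only [Prod.mk.injEq] at e
        exact Prod.ext h (Prod.ext e.1 e.2)))
  have hsumT : ∑ b ∈ U, cst * ((mgN b.1 b.2 : ℝ) / np (fun w => dl w b.1 b.2)) ≤ ∑ _x ∈ GF, cst *
      (C * R ^ (mK K * n) * (E G + tau) * (B : ℝ) ^ (mK K * (n - 1))) := by
    rw [hU, Finset.sum_filter, Finset.sum_product]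
    refine Finset.sum_le_sum fun x hx => ?_
    have hx' : x ∈ p.GG R B := (hmemGF x).1 hx
    have hsb := hsum R hR B hB x hx'.2.1 (hb1 _ hx'.1) (fun w' => by
        obtain ⟨i, hi⟩ := hb2 w'
        exact ⟨i, hi _ hx'.1⟩) hx'.2.2 G hG tau ht ht1
      (GF.filter fun y => mgI x y ≠ ⊥ ∧ BadPr G tau B x y) (fun y hy => by
        rw [Finset.mem_filter, hmemGF] at hy
        exact ⟨hb1 _ hy.1.1, hy.2.1, hy.2.2⟩)
    rw [← Finset.sum_filter, ← Finset.mul_sum]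
    exact mul_le_mul_of_nonneg_left hsb hcst0
  have hGFc : (GF.card : ℝ) ≤ T * (B : ℝ) ^ (mK K * (n + 1)) := by
    refine le_trans ?_ (hbx B hB)
    rw [← Set.ncard_coe_finset]
    refine Nat.cast_le.mpr (Set.ncard_le_ncard (fun x hx => ?_) (Bx_finite _))
    exact hb1 _ ((hmemGF x).1 hx).1
  rw [Set.ncard_eq_toFinset_card _ (s2b_TBad_finite p R G tau H)]
  refine (hcard.trans hsumT).trans ?_
  rw [Finset.sum_const, nsmul_eq_mul]
  have hEt : 0 ≤ E G + tau := add_nonneg (hE G) ht.le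
  have hpos : (0 : ℝ) ≤ cst * (C * R ^ (mK K * n) * (E G + tau) * (B : ℝ) ^ (mK K * (n - 1))) := by
    positivity
  refine (mul_le_mul_of_nonneg_right hGFc hpos).trans ?_
  have hBne : (B : ℝ) ≠ 0 := by positivity
  have hHne : H ≠ 0 := by positivity
  have hd := hp.d_ge
  have hdn := hp.d_le
  have hn := hp.n_ge
  have e1 : (B : ℝ) ^ (mK K * (n + 1)) * (B : ℝ) ^ (mK K * (n - 1)) =
      ((B : ℝ) ^ (2 * d - 2)) ^ mK K * (((B : ℝ) ^ (n + 1 - d)) ^ 2) ^ mK K := by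
    rw [← pow_mul, ← pow_mul, ← pow_mul, ← pow_add, ← pow_add]
    congr 1
    have h3 : (n + 1) + (n - 1) = (2 * d - 2) + (n + 1 - d) * 2 := by omega
    rw [← mul_add, h3]
    ring
  have e2 : cst ≤ D * ((cK K * 3) ^ (mK K * NN n d) * H ^ (mK K * NN n d)) /
      (H ^ 2 * (B : ℝ) ^ (2 * d - 2)) ^ mK K := by
    rw [hcst]
    have e3 : H' ^ (mK K * NN n d) = (cK K * 3) ^ (mK K * NN n d) * H ^ (mK K * NN n d) := by
      rw [hH', ← mul_pow]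
      congr 1
      ring
    rw [e3]
    refine div_le_div_of_nonneg_left (by positivity) (by positivity) ?_
    refine pow_le_pow_left₀ (by positivity) ?_ _
    exact mul_le_mul_of_nonneg_right (pow_le_pow_left₀ (by positivity) hHH' 2) (by positivity)
  calc T * (B : ℝ) ^ (mK K * (n + 1)) *
        (cst * (C * R ^ (mK K * n) * (E G + tau) * (B : ℝ) ^ (mK K * (n - 1))))
      ≤ T * (B : ℝ) ^ (mK K * (n + 1)) *
        (D * ((cK K * 3) ^ (mK K * NN n d) * H ^ (mK K * NN n d)) /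
          (H ^ 2 * (B : ℝ) ^ (2 * d - 2)) ^ mK K *
          (C * R ^ (mK K * n) * (E G + tau) * (B : ℝ) ^ (mK K * (n - 1)))) := by
        refine mul_le_mul_of_nonneg_left ?_ (by positivity)
        exact mul_le_mul_of_nonneg_right e2 (by positivity)
    _ = (T * D * (cK K * 3) ^ (mK K * NN n d) * C * R ^ (mK K * n)) *
        (E G + tau) * H ^ (mK K * NN n d) * ((B : ℝ) ^ (mK K * (n + 1)) *
          (B : ℝ) ^ (mK K * (n - 1))) / (H ^ 2 * (B : ℝ) ^ (2 * d - 2)) ^ mK K := by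
        ring
    _ = _ := by
        rw [e1, mul_pow (H ^ 2), div_pow, div_pow]
        have h3 : ((B : ℝ) ^ (2 * d - 2)) ^ mK K ≠ 0 := pow_ne_zero _ (pow_ne_zero _ hBne)
        have h4 : (H ^ 2) ^ mK K ≠ 0 := pow_ne_zero _ (pow_ne_zero _ hHne)
        field_simp

theorem S2_bad (p : Par K n d) {eps bet k0 : ℝ} {w : ℕ} (hp : p.Valid eps bet k0 w) (R : ℝ)
    (hR : 1 ≤ R) :
    ∃ (G : ℕ) (tau : ℝ), 1 ≤ G ∧ 0 < tau ∧ tau ≤ 1 ∧ ∀ᶠ H : ℝ in atTop,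
      ((p.TBad R G tau H).ncard : ℝ) ≤ eps * p.TT H ^ 2 * p.XR p.rho H := by
  have hQ : (0 : ℝ) < p.Q := by exact_mod_cast hp.Q_pos
  have hP : (0 : ℝ) < Ideal.absNorm p.P := by exact_mod_cast absNorm_pos hp.P_ne
  have hvg := hp.vg_pos
  have hkap := hp.kap_pos
  have hrho := hp.rho_pos
  have heps := hp.eps_pos
  obtain ⟨C, E, hC, hE0, hE, hsum⟩ := sum_bad K n hp.n_ge
  obtain ⟨D, hD, hcr⟩ := crude_pair K n d hp.d_ge
  obtain ⟨T, hT, hbx⟩ := s2b_card_Bx K n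
  set c2' : ℝ := ((2 * p.kap ^ 2) ^ (mK K * n) * 2 ^ mK K * (p.Q : ℝ) ^ mK K /
    ((Ideal.absNorm p.P : ℝ) ^ (n + 1) * p.vg)) ^ 2 *
    (2 * p.rho / p.Q) ^ (mK K * NN n d) with hc2
  have hc2pos : 0 < c2' := by positivity
  have hcK := cK_pos (K := K)
  set C1 : ℝ := T * D * (cK K * 3) ^ (mK K * NN n d) * C * R ^ (mK K * n) with hC1
  have hC1pos : 0 < C1 := by positivity
  set δ : ℝ := eps * c2' / (2 * C1) with hδ
  have hδpos : 0 < δ := by positivity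
  obtain ⟨G0, hG0, hG1⟩ := ((hE0.eventually (ge_mem_nhds hδpos)).and
    (eventually_ge_atTop 1)).exists
  set tau : ℝ := min 1 δ with htau
  have htpos : 0 < tau := lt_min one_pos hδpos
  have ht1 : tau ≤ 1 := min_le_left _ _
  refine ⟨G0, tau, hG1, htpos, ht1, ?_⟩
  have hkey : C1 * (E G0 + tau) ≤ eps * c2' := by
    have e1 : E G0 ≤ δ := hG0
    have e2 : tau ≤ δ := min_le_right _ _
    calc C1 * (E G0 + tau) ≤ C1 * (δ + δ) :=
          mul_le_mul_of_nonneg_left (add_le_add e1 e2) hC1pos.le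
      _ = eps * c2' := by rw [hδ]; field_simp; ring
  have hn := hp.n_ge
  have hnpos : (0 : ℝ) < n := by
    have : 0 < n := by omega
    exact_mod_cast this
  have hc1 : 0 ≤ c1 K n d := by unfold c1; positivity
  have hc2n : 0 ≤ c2 K n d := by unfold c2; positivity
  filter_upwards [(Bf_atTop n d hp.n_ge hp.d_ge hp.d_le).eventually_ge_atTop 1,
    eventually_ge_atTop (1 : ℝ), Bf_small n d hp.n_ge hp.d_ge hp.d_le (2 * c2 K n d * R ^ 2),
    Bf_small n d hp.n_ge hp.d_ge hp.d_le (2 * c1 K n d * R)]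
    with H hB hH hs1 hs2
  have hB1 : (1 : ℝ) ≤ Bf n d H := by exact_mod_cast hB
  have hpow : ((Bf n d H : ℝ) ^ (1 / (n : ℝ))) ^ 2 = (Bf n d H : ℝ) ^ (2 / (n : ℝ)) := by
    rw [← Real.rpow_natCast, ← Real.rpow_mul (by positivity)]
    congr 1
    push_cast
    ring
  have hpow2 : (Bf n d H : ℝ) ^ (1 / (n : ℝ)) ≤ (Bf n d H : ℝ) ^ (2 / (n : ℝ)) := by
    refine Real.rpow_le_rpow_of_exponent_le hB1 ?_
    exact div_le_div_of_nonneg_right (by norm_num) hnpos.le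
  have hcount := s2b_count p hp R hR C hC E hE hsum D hD hcr T hT hbx G0 hG1 tau htpos ht1 H hH hB
    (by rw [mul_pow, hpow, ← mul_assoc]; exact hs1)
    (by
      have : 2 * c1 K n d * (R * (Bf n d H : ℝ) ^ (1 / (n : ℝ))) ≤
          2 * c1 K n d * R * (Bf n d H : ℝ) ^ (2 / (n : ℝ)) := by
        rw [← mul_assoc]
        exact mul_le_mul_of_nonneg_left hpow2 (by positivity)
      linarith)
  refine hcount.trans ?_
  calc C1 * (E G0 + tau) *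
        (H ^ (mK K * NN n d) * (((Bf n d H : ℝ) ^ (n + 1 - d) / H) ^ 2) ^ mK K)
      ≤ (eps * c2') *
        (H ^ (mK K * NN n d) * (((Bf n d H : ℝ) ^ (n + 1 - d) / H) ^ 2) ^ mK K) :=
        mul_le_mul_of_nonneg_right hkey (by positivity)
    _ = eps * p.TT H ^ 2 * p.XR p.rho H := by
        have hHne : H ≠ 0 := by positivity
        have hBne : (Bf n d H : ℝ) ≠ 0 := by positivity
        have hd := hp.d_ge
        have hdn := hp.d_le
        have e0 : (Bf n d H : ℝ) ^ (mK K * n) * (Bf n d H : ℝ) ^ mK K =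
            ((Bf n d H : ℝ) ^ d) ^ mK K * ((Bf n d H : ℝ) ^ (n + 1 - d)) ^ mK K := by
          rw [← pow_mul, ← pow_mul, ← pow_add, ← pow_add]
          congr 1
          rw [← add_mul, ← Nat.mul_succ, mul_comm]
          congr 1
          omega
        have e1 : p.TT H = ((2 * p.kap ^ 2) ^ (mK K * n) * 2 ^ mK K * (p.Q : ℝ) ^ mK K /
            ((Ideal.absNorm p.P : ℝ) ^ (n + 1) * p.vg)) *
            ((Bf n d H : ℝ) ^ (n + 1 - d) / H) ^ mK K := by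
          have g1 : (2 * p.kap ^ 2 * (Bf n d H : ℝ)) ^ (mK K * n) =
              (2 * p.kap ^ 2) ^ (mK K * n) * (Bf n d H : ℝ) ^ (mK K * n) := mul_pow _ _ _
          have g2 : (2 * (Bf n d H : ℝ)) ^ mK K = 2 ^ mK K * (Bf n d H : ℝ) ^ mK K :=
            mul_pow _ _ _
          have g3 : (H * (Bf n d H : ℝ) ^ d) ^ mK K = H ^ mK K * ((Bf n d H : ℝ) ^ d) ^ mK K :=
            mul_pow _ _ _
          rw [Par.TT, g1, g2, g3, div_pow]
          have h3 : (((Bf n d H : ℝ)) ^ d) ^ mK K ≠ 0 := pow_ne_zero _ (pow_ne_zero _ hBne)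
          have h4 : H ^ mK K ≠ 0 := pow_ne_zero _ hHne
          have h5 : (Ideal.absNorm p.P : ℝ) ^ (n + 1) ≠ 0 := by positivity
          rw [div_mul_div_comm, div_eq_div_iff (by positivity) (by positivity)]
          calc (2 * p.kap ^ 2) ^ (mK K * n) * (Bf n d H : ℝ) ^ (mK K * n) *
                (2 ^ mK K * (Bf n d H : ℝ) ^ mK K) * (p.Q : ℝ) ^ mK K *
                ((Ideal.absNorm p.P : ℝ) ^ (n + 1) * p.vg * H ^ mK K)
              = (2 * p.kap ^ 2) ^ (mK K * n) * 2 ^ mK K * (p.Q : ℝ) ^ mK K *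
                ((Bf n d H : ℝ) ^ (mK K * n) * (Bf n d H : ℝ) ^ mK K) *
                ((Ideal.absNorm p.P : ℝ) ^ (n + 1) * p.vg * H ^ mK K) := by ring
            _ = _ := by
              rw [e0]
              ring
        have e2 : p.XR p.rho H = (2 * p.rho / p.Q) ^ (mK K * NN n d) * H ^ (mK K * NN n d) := by
          rw [Par.XR, ← mul_pow]
          congr 1
          ring
        rw [hc2, e1, e2]
        ring

end NFHP
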