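import Pool.Agent.Lib.MP_e426f4_ag.N.ShortTwo
import Pool.Agent.Lib.MP_e426f4_ag.N.Points
import Pool.Agent.Lib.MP_e426f4_ag.N.LevelW
import Pool.Agent.Lib.MP_e426f4_ag.N.CardCl
import Pool.Agent.Lib.MP_e426f4_ag.G.Heights

/-! Module NF-TP: translation inequality for pairs of points. -/

set_option linter.unusedSectionVars false
set_option linter.unusedVariables false

namespace NFHP

open NumberField GenHP Finset Filter Topology

variable {K : Type} [Field K] [NumberField K] {n d : ℕ}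

/-- the part of an ideal which is coprime to `W` -/
private theorem cofactorI (W G : ℕ) (hW : 0 < W) (I : Ideal (𝓞 K)) (hI : I ≠ ⊥)
    (hIG : Ideal.absNorm I ≤ G) :
    ∃ q : Ideal (𝓞 K), q ≠ ⊥ ∧ I ≤ q ∧ Ideal.absNorm q ≤ G ∧
      IsCoprime q (Ideal.span {(W : 𝓞 K)}) ∧ ∀ a ∈ q, (W : 𝓞 K) ^ G * a ∈ I := by
  have hW0 : (W : 𝓞 K) ≠ 0 := by exact_mod_cast hW.ne'
  set g : Ideal (𝓞 K) := I ⊔ Ideal.span {(W : 𝓞 K) ^ G} with hg
  have hgI : g ∣ I := Ideal.dvd_iff_le.mpr le_sup_left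
  have hgW : g ∣ Ideal.span {(W : 𝓞 K) ^ G} := Ideal.dvd_iff_le.mpr le_sup_right
  obtain ⟨q, hq⟩ := hgI
  have hg0 : g ≠ ⊥ := fun h => hI (by rw [hq, h, Ideal.bot_mul])
  have hq0 : q ≠ ⊥ := fun h => hI (by rw [hq, h, Ideal.mul_bot])
  have hIq : I ≤ q := by
    rw [hq]
    exact Ideal.mul_le_right
  have hqn : Ideal.absNorm q ≤ G :=
    (Nat.le_of_dvd (absNorm_pos hI) (Ideal.absNorm_dvd_absNorm_of_le hIq)).trans hIG
  refine ⟨q, hq0, hIq, hqn, ?_, ?_⟩
  · by_contra hne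
    rw [Ideal.isCoprime_iff_sup_eq] at hne
    obtain ⟨P, hP, hPle⟩ := Ideal.exists_le_maximal _ hne
    have hPq : P ∣ q := Ideal.dvd_iff_le.mpr (le_sup_left.trans hPle)
    have hPW : P ∣ Ideal.span {(W : 𝓞 K)} := Ideal.dvd_iff_le.mpr (le_sup_right.trans hPle)
    have hP0 : P ≠ ⊥ := by
      rintro rfl
      have := Ideal.dvd_iff_le.mp hPW
      rw [le_bot_iff, Ideal.span_singleton_eq_bot] at this
      exact hW0 this
    have hPp : Prime P := Ideal.prime_of_isPrime hP0 hP.isPrime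
    have hfin : FiniteMultiplicity P I := FiniteMultiplicity.of_prime_left hPp hI
    obtain ⟨J, hJ, hPJ⟩ := hfin.exists_eq_pow_mul_and_not_dvd
    set e := multiplicity P I with he
    -- e < G
    have hN2 : 2 ≤ Ideal.absNorm P := by
      have h1 : Ideal.absNorm P ≠ 1 := fun h => hP.ne_top (Ideal.absNorm_eq_one_iff.mp h)
      have h2 : 0 < Ideal.absNorm P := absNorm_pos hP0
      omega
    have he1 : e < G := by
      have h1 : e < 2 ^ e := Nat.lt_two_pow_self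
      have h2 : 2 ^ e ≤ Ideal.absNorm P ^ e := Nat.pow_le_pow_left hN2 e
      have h3 : Ideal.absNorm P ^ e ≤ Ideal.absNorm I := by
        refine Nat.le_of_dvd (absNorm_pos hI) ?_
        rw [← map_pow]
        exact Ideal.absNorm_dvd_absNorm_of_le (by rw [hJ]; exact Ideal.mul_le_left)
      omega
    have h1 : P ^ e ∣ g := by
      rw [hg]
      rw [Ideal.dvd_iff_le]
      refine sup_le ?_ ?_
      · rw [hJ]; exact Ideal.mul_le_left
      · rw [← Ideal.dvd_iff_le, ← Ideal.span_singleton_pow]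
        exact (pow_dvd_pow P he1.le).trans (pow_dvd_pow_of_dvd hPW G)
    have h2 : P ^ e * P ∣ P ^ e * J := by
      rw [← hJ, hq]
      exact mul_dvd_mul h1 hPq
    have h3 : P ∣ J := (mul_dvd_mul_iff_left (pow_ne_zero e hP0)).mp h2
    exact hPJ h3
  · intro a ha
    rw [hq]
    exact Ideal.mul_mem_mul (by rw [hg]; exact Ideal.mem_sup_right (Ideal.mem_span_singleton_self _)) ha

theorem trans_pair (p : Par K n d) {eps bet k0 : ℝ} {w : ℕ} (hp : p.Valid eps bet k0 w) (R : ℝ)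
    (hR : 1 ≤ R) (G : ℕ) (hG : 1 ≤ G) (tau : ℝ) (ht : 0 < tau) (ht1 : tau ≤ 1) (th : ℝ)
    (hth : 0 < th) (s : ℕ) (hs : p.Q * p.W ^ G ∣ p.W ^ s) :
    ∀ᶠ H : ℝ in atTop, ∀ x y : Fin (n + 1) → 𝓞 K, x ∈ p.GG R (Bf n d H) →
      y ∈ p.GG R (Bf n d H) → x ≠ y → ¬ BadPr G tau (Bf n d H) x y →
      ∃ q : Ideal (𝓞 K), q ≠ ⊥ ∧ mgI x y ≤ q ∧ Ideal.absNorm q ≤ G ∧
        IsCoprime q (Ideal.span {(p.W : 𝓞 K)}) ∧
        (p.Lev th (Ideal.span {(p.W : 𝓞 K) ^ s} * q) H : ℝ) *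
          (Set.ncard {A | A ∈ p.Cl p.rho H ∧ F A x = 0 ∧ F A y = 0} : ℝ) ≤
          (Set.ncard {A | A ∈ p.Cl (p.rho + c5 K n d * (th / tau)) H ∧ F A x = 0 ∧
            (p.W : 𝓞 K) ^ s ∣ F A y ∧
            VIn p.gam (th * H * (Bf n d H : ℝ) ^ d) (F A y)} : ℝ) := by
  have hn3 := hp.n_ge
  have hd2 := hp.d_ge
  have hQpos : (0 : ℝ) < p.Q := by exact_mod_cast hp.Q_pos
  have hWpos : 0 < p.W := hp.W_pos
  have hnpos : (0 : ℝ) < n := by
    have : 0 < n := by omega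
    exact_mod_cast this
  have hcK := cK_pos (K := K)
  have hcG : 0 ≤ cG K n d := by
    unfold cG
    positivity
  have hc3 : 0 ≤ c3 n d := by
    unfold c3
    positivity
  have hsmall := Bf_small n d hp.n_ge hp.d_ge hp.d_le
    (cK K * c2 K n d * p.Q * R ^ 2 * tau / th)
  have hBH := (Bf_atTop n d hp.n_ge hp.d_ge hp.d_le).eventually_ge_atTop 1
  filter_upwards [hsmall, hBH, Filter.eventually_gt_atTop 0] with H h1 hBpos hHpos
  intro x y hx hy hxy hbad
  set B := Bf n d H with hB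
  have hBpos' : (0 : ℝ) < B := by
    have : 0 < B := by omega
    exact_mod_cast this
  have hB1 : (1 : ℝ) ≤ B := by exact_mod_cast hBpos
  have hmg : mgI x y ≠ ⊥ := mgI_ne_bot_of_mem_GG p hp R B hBpos x y hx hy hxy
  unfold BadPr at hbad
  push Not at hbad
  obtain ⟨hmG, hdl⟩ := hbad
  obtain ⟨q, hq0, hqm, hqG, hqW, hqmem⟩ := cofactorI p.W G hWpos (mgI x y) hmg hmG
  refine ⟨q, hq0, hqm, hqG, hqW, ?_⟩
  obtain ⟨hbx1, hbx2⟩ := mem_XX_bounds p hp B
  have hmu1 : 1 ≤ R * (B : ℝ) ^ (1 / (n : ℝ)) := by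
    have : 1 ≤ (B : ℝ) ^ (1 / (n : ℝ)) := Real.one_le_rpow hB1 (by positivity)
    nlinarith
  have hBd : (B : ℝ) ^ d = (B : ℝ) ^ (d - 2) * (B : ℝ) ^ 2 := by
    rw [← pow_add]
    congr 1
    omega
  have hmu : (R * (B : ℝ) ^ (1 / (n : ℝ))) ^ 2 = R ^ 2 * (B : ℝ) ^ (2 / (n : ℝ)) := by
    rw [mul_pow]
    congr 1
    rw [← Real.rpow_natCast ((B : ℝ) ^ (1 / (n : ℝ))) 2, ← Real.rpow_mul hBpos'.le]
    congr 1
    push_cast
    ring
  obtain ⟨u, hu⟩ := hs
  -- translation vectors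
  have hex : ∀ l : 𝓞 K, l ∈ Ideal.span {(p.W : 𝓞 K) ^ s} * q →
      VIn p.gam (th * H * (B : ℝ) ^ d) l → ∃ t : Idx n d → 𝓞 K, F t x = 0 ∧ F t y = l ∧
      (∀ m, (p.Q : 𝓞 K) ∣ t m) ∧ ∀ m j, |(crd (t m) j : ℝ)| ≤ c5 K n d * (th / tau) * H := by
    intro l hl hlV
    obtain ⟨a, haq, hal⟩ := Ideal.mem_span_singleton_mul.mp hl
    have hWs : (p.W : 𝓞 K) ^ s = (p.Q : 𝓞 K) * ((p.W : 𝓞 K) ^ G * u) := by
      have : ((p.W ^ s : ℕ) : 𝓞 K) = ((p.Q * p.W ^ G * u : ℕ) : 𝓞 K) := by rw [hu]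
      push_cast at this
      rw [this]
      ring
    have hlQ : l = (p.Q : 𝓞 K) * ((u : 𝓞 K) * ((p.W : 𝓞 K) ^ G * a)) := by
      rw [← hal, hWs]
      ring
    have hmem : (u : 𝓞 K) * ((p.W : 𝓞 K) ^ G * a) ∈ mgI x y :=
      Ideal.mul_mem_left _ _ (hqmem a haq)
    obtain ⟨t, ht0, hts, htb⟩ := short_pair hd2 B hBpos x y hx.2.1 hy.2.1
      (R * (B : ℝ) ^ (1 / (n : ℝ))) hmu1 hx.2.2 hy.2.2
      (fun w' => by
        obtain ⟨i, hi⟩ := hbx2 w'
        exact ⟨i, hi x hx.1, hi y hy.1⟩) (hbx1 x hx.1) (hbx1 y hy.1) hmg _ hmem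
    refine ⟨fun m => (p.Q : 𝓞 K) * t m, ?_, ?_, fun m => Dvd.intro _ rfl, ?_⟩
    · rw [F_smul, ht0, mul_zero]
    · rw [F_smul, hts, hlQ]
    · intro m j
      have hkey : ∀ w', ‖sg w' ((p.Q : 𝓞 K) * t m)‖ ≤
          c3 n d * (cG K n d * cK K) * (th / tau) * H + th / tau * H / cK K := by
        intro w'
        have h5 := htb m w'
        rw [hmu] at h5
        have hdlw : tau * (B : ℝ) ^ 2 ≤ dl w' x y := hdl w'
        have hdlpos : 0 < dl w' x y := lt_of_lt_of_le (by positivity) hdlw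
        have hlw := norm_le_of_VIn p hp _ l hlV w'
        rw [map_mul, norm_mul, sg_natCast, Complex.norm_natCast]
        set v : 𝓞 K := (u : 𝓞 K) * ((p.W : 𝓞 K) ^ G * a) with hv
        have hlv : ‖sg w' l‖ = p.Q * ‖sg w' v‖ := by
          rw [hlQ, map_mul, norm_mul, sg_natCast, Complex.norm_natCast]
        have h6 : (p.Q : ℝ) * ‖sg w' (t m)‖ ≤ p.Q * (c3 n d * ‖sg w' v‖ /
            ((B : ℝ) ^ (d - 2) * dl w' x y) + c2 K n d * (R ^ 2 * (B : ℝ) ^ (2 / (n : ℝ)))) :=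
          mul_le_mul_of_nonneg_left h5 hQpos.le
        refine h6.trans ?_
        have h8 : (p.Q : ℝ) * (c3 n d * ‖sg w' v‖ / ((B : ℝ) ^ (d - 2) * dl w' x y)) ≤
            c3 n d * (cG K n d * cK K) * (th / tau) * H := by
          have : (p.Q : ℝ) * (c3 n d * ‖sg w' v‖ / ((B : ℝ) ^ (d - 2) * dl w' x y)) =
              c3 n d * ‖sg w' l‖ / ((B : ℝ) ^ (d - 2) * dl w' x y) := by
            rw [hlv]; ring
          rw [this]
          rw [div_le_iff₀ (by positivity)]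
          calc c3 n d * ‖sg w' l‖ ≤
              c3 n d * (cG K n d * cK K * (th * H * (B : ℝ) ^ d)) :=
                mul_le_mul_of_nonneg_left hlw hc3
            _ = c3 n d * (cG K n d * cK K) * (th / tau) * H *
                ((B : ℝ) ^ (d - 2) * (tau * (B : ℝ) ^ 2)) := by
                rw [hBd]
                field_simp
            _ ≤ c3 n d * (cG K n d * cK K) * (th / tau) * H *
                ((B : ℝ) ^ (d - 2) * dl w' x y) := by
                apply mul_le_mul_of_nonneg_left _ (by positivity)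
                apply mul_le_mul_of_nonneg_left hdlw (by positivity)
        have h9 : (p.Q : ℝ) * (c2 K n d * (R ^ 2 * (B : ℝ) ^ (2 / (n : ℝ)))) ≤
            th / tau * H / cK K := by
          have h10 : (cK K * c2 K n d * p.Q * R ^ 2 * tau / th) * (B : ℝ) ^ (2 / (n : ℝ)) *
              (th / tau / cK K) ≤ H * (th / tau / cK K) :=
            mul_le_mul_of_nonneg_right h1 (by positivity)
          have h11 : (cK K * c2 K n d * p.Q * R ^ 2 * tau / th) * (B : ℝ) ^ (2 / (n : ℝ)) *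
              (th / tau / cK K) =
              (p.Q : ℝ) * (c2 K n d * (R ^ 2 * (B : ℝ) ^ (2 / (n : ℝ)))) := by
            field_simp
          rw [h11] at h10
          calc _ ≤ H * (th / tau / cK K) := h10
            _ = _ := by ring
        rw [mul_add]
        exact add_le_add h8 h9
      refine (crd_le_of_norm_sg hkey j).trans (le_of_eq ?_)
      unfold c5
      field_simp
  choose! T hT using hex
  set Lv : Set (𝓞 K) := {l : 𝓞 K | l ∈ Ideal.span {(p.W : 𝓞 K) ^ s} * q ∧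
    VIn p.gam (th * H * (B : ℝ) ^ d) l} with hLv
  set S1 : Set (Idx n d → 𝓞 K) := {A | A ∈ p.Cl p.rho H ∧ F A x = 0 ∧ F A y = 0} with hS1
  set S2 : Set (Idx n d → 𝓞 K) := {A | A ∈ p.Cl (p.rho + c5 K n d * (th / tau)) H ∧
    F A x = 0 ∧ (p.W : 𝓞 K) ^ s ∣ F A y ∧ VIn p.gam (th * H * (B : ℝ) ^ d) (F A y)} with hS2
  have hS2fin : S2.Finite := (Cl_finite p _ H).subset fun A hA => hA.1
  have hcard : (Lv ×ˢ S1).ncard ≤ S2.ncard := by
    refine Set.ncard_le_ncard_of_injOn (fun a => fun m => a.2 m + T a.1 m) ?_ ?_ hS2fin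
    · rintro ⟨l, A⟩ ⟨hl, hA⟩
      obtain ⟨hT1, hT2, hT3, hT4⟩ := hT l hl.1 hl.2
      have hFy : F (fun m => A m + T l m) y = l := by rw [F_add, hA.2.2, hT2, zero_add]
      refine ⟨⟨?_, ?_⟩, ?_, ?_, ?_⟩
      · intro m j
        have ha := hA.1.1 m j
        have hb := hT4 m j
        show |(crd (A m + T l m) j : ℝ) - H * p.AC m j| ≤ _
        rw [crd_add]
        push_cast
        have : (crd (A m) j : ℝ) + crd (T l m) j - H * p.AC m j =
            ((crd (A m) j : ℝ) - H * p.AC m j) + crd (T l m) j := by ring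
        rw [this]
        calc |((crd (A m) j : ℝ) - H * p.AC m j) + crd (T l m) j|
            ≤ |(crd (A m) j : ℝ) - H * p.AC m j| + |(crd (T l m) j : ℝ)| := abs_add_le _ _
          _ ≤ p.rho * H + c5 K n d * (th / tau) * H := add_le_add ha hb
          _ = (p.rho + c5 K n d * (th / tau)) * H := by ring
      · intro m
        have ha := hA.1.2 m
        show (p.Q : 𝓞 K) ∣ A m + T l m - p.A0 m
        have : A m + T l m - p.A0 m = (A m - p.A0 m) + T l m := by ring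
        rw [this]
        exact dvd_add ha (hT3 m)
      · show F (fun m => A m + T l m) x = 0
        rw [F_add, hA.2.1, hT1, add_zero]
      · show (p.W : 𝓞 K) ^ s ∣ F (fun m => A m + T l m) y
        rw [hFy]
        obtain ⟨a, -, hal⟩ := Ideal.mem_span_singleton_mul.mp hl.1
        exact ⟨a, hal.symm⟩
      · show VIn p.gam (th * H * (B : ℝ) ^ d) (F (fun m => A m + T l m) y)
        rw [hFy]
        exact hl.2
    · rintro ⟨l, A⟩ ⟨hl, hA⟩ ⟨l', A'⟩ ⟨hl', hA'⟩ heq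
      simp only at heq hA hA' hl hl'
      have h5 : F (fun m => A m + T l m) y = F (fun m => A' m + T l' m) y := by rw [heq]
      rw [F_add, F_add, hA.2.2, hA'.2.2, (hT l hl.1 hl.2).2.1, (hT l' hl'.1 hl'.2).2.1,
        zero_add, zero_add] at h5
      subst h5
      have : A = A' := by
        funext m
        have := congrFun heq m
        exact add_right_cancel this
      rw [this]
  rw [Set.ncard_prod] at hcard
  have : (Lv.ncard : ℝ) * (S1.ncard : ℝ) ≤ S2.ncard := by exact_mod_cast hcard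
  exact this

end NFHP
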