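import Pool.Agent.Lib.MP_e426f4_ag.N.Defs
import Pool.Agent.Lib.MP_e426f4_ag.N.Sg
import Pool.Agent.Lib.MP_e426f4_ag.N.Const
import Pool.Agent.Lib.MP_e426f4_ag.G.Heights
import Pool.Agent.Lib.MP_e426f4_ag.N.AlgCplx
import Pool.Agent.Lib.MP_e426f4_ag.N.Ideals
import Pool.Agent.Lib.MP_e426f4_ag.N.Minors
import Pool.Agent.Lib.MP_e426f4_ag.N.CardCl
import Pool.Agent.Lib.MP_e426f4_ag.N.Points
import Pool.Agent.Lib.MP_e426f4_ag.N.LevelW
import Pool.Agent.Lib.MP_e426f4_ag.N.NLoc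
import Pool.Agent.Lib.MP_e426f4_ag.N.FirstUpper
import Pool.Agent.Lib.MP_e426f4_ag.N.TransPair

/-! Main pairs of points. -/

namespace NFHP

open NumberField GenHP Finset Filter Topology

variable {K : Type} [Field K] [NumberField K] {n d : ℕ}

private theorem n2m_count {α β ι : Type*} (C0 C1 : Finset α) (GF : Finset β) (e l : α → β → Prop)
    (dv : ι → β → β → Prop) (good : β → β → Prop) [∀ A x, Decidable (e A x)]
    [∀ A x, Decidable (l A x)] [∀ q x y, Decidable (dv q x y)]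
    [∀ x y, Decidable (good x y)] (QQ : Finset ι) (N : ι → ℝ) (hN : ∀ q, 0 ≤ N q)
    (c : ℝ) (hc : 0 ≤ c) (b : ι → ℝ)
    (h1 : ∀ x ∈ GF, ∀ y ∈ GF, good x y → ∃ q ∈ QQ, dv q x y ∧
      ((C0.filter (fun A => e A x ∧ e A y)).card : ℝ) ≤
        c * N q * ((C1.filter (fun A => e A x ∧ l A y)).card : ℝ))
    (h2 : ∀ A ∈ C1, ∀ x ∈ GF, e A x → ∀ q ∈ QQ,
      ((GF.filter (fun y => dv q x y ∧ l A y)).card : ℝ) ≤ b q) :
    (((C0 ×ˢ (GF ×ˢ GF)).filter
      (fun t => e t.1 t.2.1 ∧ e t.1 t.2.2 ∧ good t.2.1 t.2.2)).card : ℝ) ≤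
      c * (∑ q ∈ QQ, N q * b q) * (((C1 ×ˢ GF).filter (fun p => e p.1 p.2)).card : ℝ) := by
  have e1 : (((C0 ×ˢ (GF ×ˢ GF)).filter
      (fun t => e t.1 t.2.1 ∧ e t.1 t.2.2 ∧ good t.2.1 t.2.2)).card : ℝ) =
      ∑ x ∈ GF, ∑ y ∈ GF, if good x y then
        ((C0.filter (fun A => e A x ∧ e A y)).card : ℝ) else 0 := by
    rw [Finset.card_filter]
    push_cast
    rw [Finset.sum_product, Finset.sum_comm, Finset.sum_product]
    refine Finset.sum_congr rfl fun x _ => Finset.sum_congr rfl fun y _ => ?_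
    by_cases hg : good x y
    · rw [if_pos hg, Finset.card_filter]
      push_cast
      refine Finset.sum_congr rfl fun A _ => ?_
      simp only [hg, and_true]
    · rw [if_neg hg]
      refine Finset.sum_eq_zero fun A _ => ?_
      simp only [hg, and_false, if_false]
  have e2 : ∀ x ∈ GF, ∀ y ∈ GF, (if good x y then
        ((C0.filter (fun A => e A x ∧ e A y)).card : ℝ) else 0) ≤
      ∑ q ∈ QQ, ∑ A ∈ C1, c * N q * (if (e A x) then (if (dv q x y ∧ l A y) then 1 else 0) else 0) := by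
    intro x hx y hy
    have hnn : ∀ q ∈ QQ, 0 ≤ ∑ A ∈ C1, c * N q *
        (if (e A x) then (if (dv q x y ∧ l A y) then 1 else 0) else 0) := by
      intro q _
      refine Finset.sum_nonneg fun A _ => ?_
      refine mul_nonneg (mul_nonneg hc (hN q)) ?_
      split_ifs <;> norm_num
    by_cases hg : good x y
    · rw [if_pos hg]
      obtain ⟨q, hq, hqm, hle⟩ := h1 x hx y hy hg
      refine hle.trans ?_
      refine le_trans (le_of_eq ?_) (Finset.single_le_sum hnn hq)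
      rw [Finset.card_filter, ← Finset.mul_sum]
      push_cast
      congr 1
      refine Finset.sum_congr rfl fun A _ => ?_
      by_cases h3 : e A x <;> by_cases h4 : l A y <;> simp [h3, h4, hqm]
    · rw [if_neg hg]
      exact Finset.sum_nonneg hnn
  rw [e1]
  refine (Finset.sum_le_sum fun x hx => Finset.sum_le_sum fun y hy => e2 x hx y hy).trans ?_
  have e3 : ∑ x ∈ GF, ∑ y ∈ GF, ∑ q ∈ QQ, ∑ A ∈ C1, c * N q *
        (if (e A x) then (if (dv q x y ∧ l A y) then (1 : ℝ) else 0) else 0) =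
      ∑ q ∈ QQ, ∑ A ∈ C1, ∑ x ∈ GF, c * N q * (if (e A x) then
        ((GF.filter (fun y => dv q x y ∧ l A y)).card : ℝ) else 0) := by
    have e4 : ∀ x ∈ GF, (∑ y ∈ GF, ∑ q ∈ QQ, ∑ A ∈ C1, c * N q *
        (if (e A x) then (if (dv q x y ∧ l A y) then (1 : ℝ) else 0) else 0)) =
        ∑ q ∈ QQ, ∑ A ∈ C1, c * N q * (if (e A x) then
        ((GF.filter (fun y => dv q x y ∧ l A y)).card : ℝ) else 0) := by
      intro x _
      rw [Finset.sum_comm]
      refine Finset.sum_congr rfl fun q _ => ?_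
      rw [Finset.sum_comm]
      refine Finset.sum_congr rfl fun A _ => ?_
      rw [← Finset.mul_sum]
      congr 1
      by_cases h3 : e A x
      · simp only [h3, if_true]
        rw [Finset.card_filter]
        push_cast
        rfl
      · simp only [h3, if_false, Finset.sum_const_zero]
    rw [Finset.sum_congr rfl e4, Finset.sum_comm]
    refine Finset.sum_congr rfl fun q _ => ?_
    rw [Finset.sum_comm]
  rw [e3]
  have e5 : ∀ q ∈ QQ, ∑ A ∈ C1, ∑ x ∈ GF, c * N q * (if (e A x) then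
        ((GF.filter (fun y => dv q x y ∧ l A y)).card : ℝ) else 0) ≤
      c * (N q * b q) * (((C1 ×ˢ GF).filter (fun p => e p.1 p.2)).card : ℝ) := by
    intro q hq
    rw [Finset.card_filter]
    push_cast
    rw [Finset.sum_product, Finset.mul_sum]
    refine Finset.sum_le_sum fun A hA => ?_
    rw [Finset.mul_sum]
    refine Finset.sum_le_sum fun x hx => ?_
    by_cases h3 : e A x
    · rw [if_pos h3, if_pos h3, mul_one, ← mul_assoc]
      exact mul_le_mul_of_nonneg_left (h2 A hA x hx h3 q hq) (mul_nonneg hc (hN q))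
    · rw [if_neg h3, if_neg h3, mul_zero, mul_zero]
  refine (Finset.sum_le_sum e5).trans (le_of_eq ?_)
  rw [← Finset.sum_mul, ← Finset.mul_sum]

private theorem n2m_norm (p : Par K n d) {eps bet k0 : ℝ} {w : ℕ} (hp : p.Valid eps bet k0 w)
    (q : Ideal (𝓞 K)) (hq0 : q ≠ ⊥) (hq1 : q ≠ ⊤)
    (hqW : IsCoprime q (Ideal.span {(p.W : 𝓞 K)})) : w < Ideal.absNorm q := by
  obtain ⟨P, hP, hqP⟩ := Ideal.exists_le_maximal q hq1
  have hP0 : P ≠ ⊥ := fun h => hq0 (le_bot_iff.1 (h ▸ hqP))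
  have hmem : ((Ideal.absNorm q : ℕ) : 𝓞 K) ∈ P := hqP (Ideal.absNorm_mem q)
  have hNq : Ideal.absNorm q ≠ 0 := (absNorm_pos hq0).ne'
  have hNq1 : Ideal.absNorm q ≠ 1 := fun h => hq1 (Ideal.absNorm_eq_one_iff.1 h)
  -- a prime factor of the norm lies in P
  have hex : ∃ l : ℕ, l.Prime ∧ l ∣ Ideal.absNorm q ∧ ((l : ℕ) : 𝓞 K) ∈ P := by
    by_contra hcon
    push Not at hcon
    have h1 : ∀ m : ℕ, m ∣ Ideal.absNorm q → ((m : ℕ) : 𝓞 K) ∉ P := by
      intro m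
      induction m using Nat.recOnMul with
      | zero => intro h _; exact hNq (zero_dvd_iff.1 h)
      | one => intro _ h; exact hP.ne_top ((Ideal.eq_top_iff_one P).2 (by simpa using h))
      | prime l hl => intro h; exact hcon l hl h
      | mul a b ha hb =>
        intro h hab
        rw [Nat.cast_mul] at hab
        rcases hP.isPrime.mem_or_mem hab with h2 | h2
        · exact ha ((Dvd.intro _ rfl).trans h) h2
        · exact hb ((Dvd.intro_left _ rfl).trans h) h2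
    exact h1 _ dvd_rfl hmem
  obtain ⟨l, hl, hlq, hlP⟩ := hex
  have hlw : w < l := by
    by_contra hcon
    have h1 : l ∣ p.W := (hp.W_primes l hl).2 (by omega)
    have h2 : ((p.W : ℕ) : 𝓞 K) ∈ P := by
      obtain ⟨m, hm⟩ := h1
      rw [hm, Nat.cast_mul]
      exact Ideal.mul_mem_right _ _ hlP
    have h3 : q ⊔ Ideal.span {(p.W : 𝓞 K)} ≤ P :=
      sup_le hqP ((Ideal.span_singleton_le_iff_mem P).2 h2)
    rw [Ideal.isCoprime_iff_sup_eq.1 hqW] at h3
    exact hP.ne_top (top_le_iff.1 h3)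
  exact hlw.trans_le (Nat.le_of_dvd (Nat.pos_of_ne_zero hNq) hlq)

private theorem n2m_sum (p : Par K n d) {eps bet k0 : ℝ} {w : ℕ} (hp : p.Valid eps bet k0 w)
    (E : ℝ) (hE : ∀ S : Finset (Ideal (𝓞 K)), (∀ I ∈ S, w < Ideal.absNorm I) →
      ∑ I ∈ S, 1 / (Ideal.absNorm I : ℝ) ^ 2 ≤ E)
    (QQ : Finset (Ideal (𝓞 K)))
    (hQQ : ∀ q ∈ QQ, q ≠ ⊥ ∧ IsCoprime q (Ideal.span {(p.W : 𝓞 K)})) :
    ∑ q ∈ QQ, (1 : ℝ) / (Ideal.absNorm q : ℝ) ^ 2 ≤ 1 + E := by
  classical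
  have h1 : QQ ⊆ insert ⊤ (QQ.erase ⊤) := by
    intro q hq
    rw [Finset.mem_insert, Finset.mem_erase]
    tauto
  refine (Finset.sum_le_sum_of_subset_of_nonneg h1 fun q _ _ => by positivity).trans ?_
  rw [Finset.sum_insert (Finset.notMem_erase _ _)]
  refine add_le_add ?_ (hE _ fun q hq => ?_)
  · simp [Ideal.absNorm_top]
  · rw [Finset.mem_erase] at hq
    exact n2m_norm p hp q (hQQ q hq.2).1 hq.1 (hQQ q hq.2).2

private theorem n2m_num (e v : ℝ) (N : ℕ) (hN : 0 < N) (he : 0 < e) (he1 : e ≤ 1 / 10)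
    (hv : 0 ≤ v) :
    (1 + 2 * e) * (1 + e) * (1 + v) * ((1 + 8 * e) * (1 + e / N) ^ N) ≤
      1 + 40 * e + 5 * v := by
  have hNr : (0 : ℝ) < N := by exact_mod_cast hN
  have h1 : (1 + e / N) ^ N ≤ 1 + e + e ^ 2 := by
    have h2 : 1 + e / N ≤ Real.exp (e / N) := by
      have := Real.add_one_le_exp (e / N)
      linarith
    have h3 : (1 + e / N) ^ N ≤ Real.exp (e / N) ^ N := pow_le_pow_left₀ (by positivity) h2 N
    rw [← Real.exp_nat_mul] at h3
    have h4 : (N : ℝ) * (e / N) = e := by field_simp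
    rw [h4] at h3
    have h5 := Real.abs_exp_sub_one_sub_id_le (x := e) (by rw [abs_of_pos he]; linarith)
    rw [abs_le] at h5
    linarith
  have h2 : (1 + 8 * e) * (1 + e / N) ^ N ≤ 1 + 10 * e := by
    calc (1 + 8 * e) * (1 + e / N) ^ N ≤ (1 + 8 * e) * (1 + e + e ^ 2) :=
          mul_le_mul_of_nonneg_left h1 (by positivity)
      _ ≤ 1 + 10 * e := by nlinarith [mul_pos he he, mul_nonneg (mul_nonneg he.le he.le) he.le]
  have h3 : (1 + 2 * e) * (1 + e) ≤ 1 + 32 / 10 * e := by nlinarith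
  have h4 : (1 + 2 * e) * (1 + e) * (1 + v) ≤ (1 + 32 / 10 * e) * (1 + v) :=
    mul_le_mul_of_nonneg_right h3 (by positivity)
  have h5 : (1 + 32 / 10 * e) * (1 + 10 * e) ≤ 1 + 165 / 10 * e := by nlinarith
  have h6 : 1 + 165 / 10 * e ≤ 5 := by linarith
  calc _ ≤ (1 + 32 / 10 * e) * (1 + v) * (1 + 10 * e) :=
        mul_le_mul h4 h2 (by positivity) (by positivity)
    _ = (1 + 32 / 10 * e) * (1 + 10 * e) * (1 + v) := by ring
    _ ≤ (1 + 165 / 10 * e) * (1 + v) := mul_le_mul_of_nonneg_right h5 (by positivity)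
    _ = 1 + 165 / 10 * e + (1 + 165 / 10 * e) * v := by ring
    _ ≤ 1 + 165 / 10 * e + 5 * v := by
        have := mul_le_mul_of_nonneg_right h6 hv
        linarith
    _ ≤ 1 + 40 * e + 5 * v := by linarith

/-- representatives of the classes modulo an ideal -/
private theorem n2m_reps (q : Ideal (𝓞 K)) (hq : q ≠ ⊥) :
    ∃ L : Finset (𝓞 K), L.card ≤ Ideal.absNorm q ∧ ∀ a : 𝓞 K, ∃ l ∈ L, a - l ∈ q := by
  classical
  have : Finite (𝓞 K ⧸ q) := Ideal.finiteQuotientOfFreeOfNeBot q hq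
  have : Fintype (𝓞 K ⧸ q) := Fintype.ofFinite _
  refine ⟨Finset.univ.image (fun c : 𝓞 K ⧸ q => Quotient.out c), ?_, fun a => ?_⟩
  · refine Finset.card_image_le.trans (le_of_eq ?_)
    rw [Finset.card_univ, ← Nat.card_eq_fintype_card]
    rfl
  · refine ⟨Quotient.out (Ideal.Quotient.mk q a), Finset.mem_image_of_mem _ (Finset.mem_univ _), ?_⟩
    rw [← Ideal.Quotient.eq]
    exact (Quotient.out_eq (Ideal.Quotient.mk q a)).symm

theorem S2_main (p : Par K n d) {eps bet k0 : ℝ} {w : ℕ} (hp : p.Valid eps bet k0 w)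
    (E : ℝ) (hE : ∀ S : Finset (Ideal (𝓞 K)), (∀ I ∈ S, w < Ideal.absNorm I) →
      ∑ I ∈ S, 1 / (Ideal.absNorm I : ℝ) ^ 2 ≤ E)
    (R : ℝ) (hR : 1 ≤ R) (G : ℕ) (hG : 1 ≤ G) (tau : ℝ) (ht : 0 < tau) (ht1 : tau ≤ 1) :
    ∀ᶠ H : ℝ in atTop,
      ((p.TMain R G tau H).ncard : ℝ) ≤
        (1 + 40 * eps + 5 * E) * p.TT H ^ 2 * p.XR p.rho H := by
  classical
  have hE0 : 0 ≤ E := by simpa using hE ∅ (by simp)
  have he := hp.eps_pos
  have he1 := hp.eps_le
  have hkap := hp.kap_pos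
  have hrho := hp.rho_pos
  have hrho1 := hp.rho_le
  have hW := hp.W_pos
  have hQ := hp.Q_pos
  have hvg := hp.vg_pos
  have hPn : 0 < Ideal.absNorm p.P := absNorm_pos hp.P_ne
  have hWr : (0 : ℝ) < p.W := by exact_mod_cast hW
  have hQr : (0 : ℝ) < p.Q := by exact_mod_cast hQ
  have hPr : (0 : ℝ) < (Ideal.absNorm p.P : ℝ) := by exact_mod_cast hPn
  have hm0 : 0 < mK K := mK_pos
  have hN0 : 0 < mK K * NN n d := Nat.mul_pos hm0 (NN_pos n d)
  set N : ℕ := mK K * NN n d with hNdef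
  have hNr : (0 : ℝ) < N := by exact_mod_cast hN0
  have hN1 : (1 : ℝ) ≤ N := by exact_mod_cast hN0
  have hn3 := hp.n_ge
  have hd2 := hp.d_ge
  have hdn := hp.d_le
  have hcK : 1 ≤ cK K := one_le_cK
  have hcG : 0 ≤ cG K n d := by
    unfold cG
    positivity
  have hc3 : 0 ≤ c3 n d := by
    unfold c3
    positivity
  have hc5 : 0 < c5 K n d := by
    unfold c5
    positivity
  obtain ⟨s0, hs0⟩ := hp.hens.2.1
  obtain ⟨th, hth, hth2, hth3⟩ : ∃ th : ℝ, 0 < th ∧ th ≤ p.kap / 4 ∧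
      th ≤ eps * p.rho * tau / (c5 K n d * N) :=
    ⟨min (p.kap / 4) (eps * p.rho * tau / (c5 K n d * N)), lt_min (by positivity) (by positivity),
      min_le_left _ _, min_le_right _ _⟩
  set s : ℕ := s0 + G with hs
  have hsG : p.Q * p.W ^ G ∣ p.W ^ s := by
    rw [hs, pow_add, ← hs0]
  have hsQ : p.Q ∣ p.W ^ s := (Dvd.intro _ rfl).trans hsG
  set r1 : ℝ := p.rho + c5 K n d * (th / tau) with hr1
  have hr1a : p.rho ≤ r1 := by
    have : 0 ≤ c5 K n d * (th / tau) := by positivity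
    linarith
  have hr1b : r1 ≤ p.rho * (1 + eps / N) := by
    have h1 : c5 K n d * (th / tau) ≤ eps * p.rho / N := by
      rw [mul_div_assoc', div_le_div_iff₀ ht hNr]
      rw [le_div_iff₀ (by positivity)] at hth3
      linarith
    have h2 : p.rho * (1 + eps / N) = p.rho + eps * p.rho / N := by ring
    rw [hr1, h2]
    linarith
  have hr1c : r1 ≤ 3 / 2 * p.rho := by
    have h1 : eps / N ≤ 1 / 2 := by
      rw [div_le_iff₀ hNr]
      linarith
    have h2 : p.rho * (1 + eps / N) ≤ 3 / 2 * p.rho := by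
      have := mul_le_mul_of_nonneg_left h1 hrho.le
      linarith
    linarith
  set QQ : Finset (Ideal (𝓞 K)) := (finite_ideals (K := K) G).toFinset.filter
    (fun q => IsCoprime q (Ideal.span {(p.W : 𝓞 K)})) with hQQ
  have hmemQQ : ∀ q, q ∈ QQ ↔ (q ≠ ⊥ ∧ Ideal.absNorm q ≤ G) ∧
      IsCoprime q (Ideal.span {(p.W : 𝓞 K)}) := by
    intro q
    rw [hQQ, Finset.mem_filter, Set.Finite.mem_toFinset]
    rfl
  set T' : ℕ → ℝ := fun B => Vol K n p.kap th B * (p.Q : ℝ) ^ mK K /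
          ((Ideal.absNorm p.P : ℝ) ^ (n + 1) * ((p.W : ℝ) ^ s) ^ mK K)
    with hT'
  -- uniform version of the local count
  obtain ⟨B0, hB0⟩ : ∃ B0 : ℕ, ∀ q ∈ QQ, ∀ B : ℕ, B0 ≤ B → ∀ H : ℝ, 0 < H →
      ∀ A : Idx n d → 𝓞 K,
      (∀ t j, |(crd (A t) j : ℝ) - H * p.Ainf t j| ≤ 3 * p.rho * H) →
      (∀ t, (p.Q : 𝓞 K) ∣ A t - p.A0 t) → ∀ r : Fin (n + 1) → 𝓞 K,
      (Set.ncard {x : Fin (n + 1) → 𝓞 K | x ∈ p.XX B ∧ (p.W : 𝓞 K) ^ s ∣ F A x ∧
          VIn p.gam (th * H * (B : ℝ) ^ d) (F A x) ∧ ∀ i, x i - r i ∈ q} : ℝ) ≤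
        (1 + eps) * T' B / (Ideal.absNorm q : ℝ) ^ (n + 1) := by
    have h1 : ∀ q : Ideal (𝓞 K), ∃ B0 : ℕ, q ∈ QQ → ∀ B : ℕ, B0 ≤ B → ∀ H : ℝ, 0 < H →
      ∀ A : Idx n d → 𝓞 K,
      (∀ t j, |(crd (A t) j : ℝ) - H * p.Ainf t j| ≤ 3 * p.rho * H) →
      (∀ t, (p.Q : 𝓞 K) ∣ A t - p.A0 t) → ∀ r : Fin (n + 1) → 𝓞 K,
      (Set.ncard {x : Fin (n + 1) → 𝓞 K | x ∈ p.XX B ∧ (p.W : 𝓞 K) ^ s ∣ F A x ∧
          VIn p.gam (th * H * (B : ℝ) ^ d) (F A x) ∧ ∀ i, x i - r i ∈ q} : ℝ) ≤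
        (1 + eps) * T' B / (Ideal.absNorm q : ℝ) ^ (n + 1) := by
      intro q
      by_cases hq : q ∈ QQ
      · have hq' := (hmemQQ q).1 hq
        obtain ⟨B0, h⟩ := nloc p hp th hth hth2 s hsQ q hq'.1.1 hq'.2
        exact ⟨B0, fun _ B hB H hH A h1 h2 r => (h B hB H hH A h1 h2 r).2⟩
      · exact ⟨0, fun h => absurd h hq⟩
    choose f hf using h1
    refine ⟨QQ.sup f, fun q hq B hB => hf q hq B ((Finset.le_sup hq).trans hB)⟩
  have hWs : (0 : ℝ) < (p.W : ℝ) ^ s := by positivity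
  have hWK : (p.W : 𝓞 K) ≠ 0 := by exact_mod_cast hW.ne'
  have hWsI : Ideal.span {(p.W : 𝓞 K) ^ s} ≠ ⊥ := by
    rw [Ne, Ideal.span_singleton_eq_bot]
    exact pow_ne_zero s hWK
  have hWsN : (Ideal.absNorm (Ideal.span {(p.W : 𝓞 K) ^ s}) : ℝ) = ((p.W : ℝ) ^ s) ^ mK K := by
    have h1 : Ideal.absNorm (Ideal.span {(p.W : 𝓞 K) ^ s}) = (p.W ^ s) ^ mK K := by
      have h2 : ((p.W : 𝓞 K) ^ s) = ((p.W ^ s : ℕ) : 𝓞 K) := by push_cast; rfl
      rw [h2, Ideal.absNorm_span_natCast, RingOfIntegers.rank]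
      rfl
    rw [h1]
    push_cast
    rfl
  have hev1 : ∀ᶠ H : ℝ in atTop, max B0 1 ≤ Bf n d H :=
    (Bf_atTop n d hn3 hd2 hdn).eventually_ge_atTop _
  have hev2 : ∀ᶠ H : ℝ in atTop, ∀ q ∈ QQ,
      (1 - eps) * (p.vg * (th * H * (Bf n d H : ℝ) ^ d) ^ mK K /
        Ideal.absNorm (Ideal.span {(p.W : 𝓞 K) ^ s} * q)) ≤
        (p.Lev th (Ideal.span {(p.W : 𝓞 K) ^ s} * q) H : ℝ) := by
    rw [Filter.eventually_all_finset]
    intro q hq
    have hq' := (hmemQQ q).1 hq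
    filter_upwards [Lev_asymp p hp th hth (Ideal.span {(p.W : 𝓞 K) ^ s} * q)
      (mul_ne_zero hWsI hq'.1.1) eps he] with H hH
    exact hH.1
  filter_upwards [trans_pair p hp R hR G hG tau ht ht1 th hth s hsG,
    S1_upper p hp R hR r1 hr1a hr1c, hev1, hev2,
    eventually_ge_atTop (1 : ℝ)] with H hTP hS1 hB1 hLev hHr
  have hH0 : (0 : ℝ) < H := by linarith
  have hBB0 : B0 ≤ Bf n d H := (le_max_left _ _).trans hB1
  have hB1' : (1 : ℝ) ≤ Bf n d H := by exact_mod_cast (le_max_right _ _).trans hB1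
  set B := Bf n d H with hB
  have hBpos : (0 : ℝ) < B := by linarith
  set c : ℝ := (1 + 2 * eps) * (((p.W : ℝ) ^ s) ^ mK K /
    (p.vg * (th * H * (B : ℝ) ^ d) ^ mK K)) with hc
  have hc0 : 0 < c := by positivity
  -- finsets
  set C0 := (Cl_finite p p.rho H).toFinset with hC0
  set C1 := (Cl_finite p r1 H).toFinset with hC1
  set GF := (GG_finite p R B).toFinset with hGF
  have key := n2m_count C0 C1 GF (fun A x => F A x = 0)
    (fun A y => (p.W : 𝓞 K) ^ s ∣ F A y ∧ VIn p.gam (th * H * (B : ℝ) ^ d) (F A y))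
    (fun q x y => mgI x y ≤ q) (fun x y => x ≠ y ∧ ¬ BadPr G tau B x y) QQ
    (fun q => (Ideal.absNorm q : ℝ)) (fun q => Nat.cast_nonneg _) c hc0.le
    (fun q => (Ideal.absNorm q : ℝ) * ((1 + eps) * T' B / (Ideal.absNorm q : ℝ) ^ (n + 1))) ?_ ?_
  rotate_left
  · -- transference
    intro x hx y hy hg
    rw [hGF, Set.Finite.mem_toFinset] at hx hy
    obtain ⟨q, hq0, hqm, hqG, hqW, hle⟩ := hTP x y hx hy hg.1 hg.2
    have hqQ : q ∈ QQ := (hmemQQ q).2 ⟨⟨hq0, hqG⟩, hqW⟩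
    refine ⟨q, hqQ, hqm, ?_⟩
    have e1 : (Set.ncard {A | A ∈ p.Cl p.rho H ∧ F A x = 0 ∧ F A y = 0} : ℝ) =
        ((C0.filter (fun A => F A x = 0 ∧ F A y = 0)).card : ℝ) := by
      rw [← Set.ncard_coe_finset]
      congr 2
      ext A
      simp only [Finset.coe_filter, Set.mem_ofPred_eq, hC0, Set.Finite.mem_toFinset]
    have e2 : (Set.ncard {A | A ∈ p.Cl (p.rho + c5 K n d * (th / tau)) H ∧ F A x = 0 ∧
            (p.W : 𝓞 K) ^ s ∣ F A y ∧
            VIn p.gam (th * H * (B : ℝ) ^ d) (F A y)} : ℝ) =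
        ((C1.filter (fun A => F A x = 0 ∧ ((p.W : 𝓞 K) ^ s ∣ F A y ∧
          VIn p.gam (th * H * (B : ℝ) ^ d) (F A y)))).card : ℝ) := by
      rw [← Set.ncard_coe_finset]
      congr 2
      ext A
      simp only [Finset.coe_filter, Set.mem_ofPred_eq, hC1, Set.Finite.mem_toFinset, hr1]
    rw [e1, e2] at hle
    have hqr : (0 : ℝ) < (Ideal.absNorm q : ℝ) := by exact_mod_cast absNorm_pos hq0
    have hR0 : (0 : ℝ) ≤ ((C0.filter (fun A => F A x = 0 ∧ F A y = 0)).card : ℝ) :=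
      Nat.cast_nonneg _
    have hlev := hLev q hqQ
    rw [map_mul, Nat.cast_mul, hWsN] at hlev
    set Y : ℝ := p.vg * (th * H * (B : ℝ) ^ d) ^ mK K /
      (((p.W : ℝ) ^ s) ^ mK K * (Ideal.absNorm q : ℝ)) with hY
    have hY0 : 0 < Y := by positivity
    have h1 : Y * ((C0.filter (fun A => F A x = 0 ∧ F A y = 0)).card : ℝ) ≤
        (1 + 2 * eps) * ((C1.filter (fun A => F A x = 0 ∧ ((p.W : 𝓞 K) ^ s ∣ F A y ∧
          VIn p.gam (th * H * (B : ℝ) ^ d) (F A y)))).card : ℝ) := by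
      have h2 : Y ≤ (1 + 2 * eps) * (p.Lev th (Ideal.span {(p.W : 𝓞 K) ^ s} * q) H : ℝ) := by
        have h21 : 1 ≤ (1 + 2 * eps) * (1 - eps) := by nlinarith
        calc Y ≤ (1 + 2 * eps) * (1 - eps) * Y := le_mul_of_one_le_left hY0.le h21
          _ = (1 + 2 * eps) * ((1 - eps) * Y) := by ring
          _ ≤ _ := mul_le_mul_of_nonneg_left hlev (by positivity)
      calc _ ≤ (1 + 2 * eps) * (p.Lev th (Ideal.span {(p.W : 𝓞 K) ^ s} * q) H : ℝ) *
            ((C0.filter (fun A => F A x = 0 ∧ F A y = 0)).card : ℝ) :=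
            mul_le_mul_of_nonneg_right h2 hR0
        _ = (1 + 2 * eps) * ((p.Lev th (Ideal.span {(p.W : 𝓞 K) ^ s} * q) H : ℝ) *
            ((C0.filter (fun A => F A x = 0 ∧ F A y = 0)).card : ℝ)) := by ring
        _ ≤ _ := mul_le_mul_of_nonneg_left hle (by positivity)
    have h3 : c * (Ideal.absNorm q : ℝ) = (1 + 2 * eps) / Y := by
      rw [hc, hY]
      field_simp
    rw [h3, div_mul_eq_mul_div, le_div_iff₀ hY0]
    linarith
  · -- local count
    intro A hA x hx hAx q hq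
    rw [hGF, Set.Finite.mem_toFinset] at hx
    rw [hC1, Set.Finite.mem_toFinset] at hA
    have hq' := (hmemQQ q).1 hq
    have hAinf : ∀ t j, |(crd (A t) j : ℝ) - H * p.Ainf t j| ≤ 3 * p.rho * H := by
      intro t j
      have h1 := hA.1 t j
      have h2 := hp.AC_near t j
      calc |(crd (A t) j : ℝ) - H * p.Ainf t j| =
            |((crd (A t) j : ℝ) - H * p.AC t j) + H * (p.AC t j - p.Ainf t j)| := by
            ring_nf
        _ ≤ |(crd (A t) j : ℝ) - H * p.AC t j| + |(H : ℝ) * (p.AC t j - p.Ainf t j)| :=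
            abs_add_le _ _
        _ = |(crd (A t) j : ℝ) - H * p.AC t j| + H * |p.AC t j - p.Ainf t j| := by
            rw [abs_mul, abs_of_pos hH0]
        _ ≤ r1 * H + H * p.rho := add_le_add h1 (mul_le_mul_of_nonneg_left h2 hH0.le)
        _ ≤ 3 * p.rho * H := by nlinarith
    obtain ⟨L, hLc, hLr⟩ := n2m_reps q hq'.1.1
    set Sl : 𝓞 K → Finset (Fin (n + 1) → 𝓞 K) := fun l => (XX_finite p B).toFinset.filter
      (fun y => (p.W : 𝓞 K) ^ s ∣ F A y ∧ VIn p.gam (th * H * (B : ℝ) ^ d) (F A y) ∧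
        ∀ i, y i - l * x i ∈ q) with hSl
    have hcov : GF.filter (fun y => mgI x y ≤ q ∧ ((p.W : 𝓞 K) ^ s ∣ F A y ∧
        VIn p.gam (th * H * (B : ℝ) ^ d) (F A y))) ⊆ L.biUnion Sl := by
      intro y hy
      rw [Finset.mem_filter, hGF, Set.Finite.mem_toFinset] at hy
      obtain ⟨l, hl⟩ := exists_mod x y hx.2.1 q hy.2.1
      obtain ⟨l', hl', hll⟩ := hLr l
      rw [Finset.mem_biUnion]
      refine ⟨l', hl', ?_⟩
      rw [hSl]
      simp only [Finset.mem_filter, Set.Finite.mem_toFinset]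
      refine ⟨hy.1.1, hy.2.2.1, hy.2.2.2, fun i => ?_⟩
      have h4 : y i - l' * x i = (y i - l * x i) + (l - l') * x i := by ring
      rw [h4]
      exact q.add_mem (hl i) (q.mul_mem_right _ hll)
    have hcard : ∀ l ∈ L, ((Sl l).card : ℝ) ≤
        (1 + eps) * T' B / (Ideal.absNorm q : ℝ) ^ (n + 1) := by
      intro l _
      have h1 := hB0 q hq B hBB0 H hH0 A hAinf hA.2 (fun i => l * x i)
      refine le_trans (le_of_eq ?_) h1
      rw [← Set.ncard_coe_finset]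
      congr 2
      ext y
      simp only [hSl, Finset.coe_filter, Set.mem_ofPred_eq, Set.Finite.mem_toFinset]
    have hT0 : 0 ≤ (1 + eps) * T' B / (Ideal.absNorm q : ℝ) ^ (n + 1) := by
      simp only [hT', Vol]
      positivity
    calc ((GF.filter (fun y => mgI x y ≤ q ∧ ((p.W : 𝓞 K) ^ s ∣ F A y ∧
        VIn p.gam (th * H * (B : ℝ) ^ d) (F A y)))).card : ℝ) ≤
        ((L.biUnion Sl).card : ℝ) := by exact_mod_cast Finset.card_le_card hcov
      _ ≤ ∑ l ∈ L, ((Sl l).card : ℝ) := by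
        have := Finset.card_biUnion_le (s := L) (t := Sl)
        exact_mod_cast this
      _ ≤ ∑ l ∈ L, (1 + eps) * T' B / (Ideal.absNorm q : ℝ) ^ (n + 1) :=
        Finset.sum_le_sum hcard
      _ = L.card * ((1 + eps) * T' B / (Ideal.absNorm q : ℝ) ^ (n + 1)) := by
        rw [Finset.sum_const, nsmul_eq_mul]
      _ ≤ (Ideal.absNorm q : ℝ) * ((1 + eps) * T' B / (Ideal.absNorm q : ℝ) ^ (n + 1)) := by
        refine mul_le_mul_of_nonneg_right ?_ hT0
        exact_mod_cast hLc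
  -- final computation
  have eL : ((p.TMain R G tau H).ncard : ℝ) = (((C0 ×ˢ (GF ×ˢ GF)).filter
      (fun t => F t.1 t.2.1 = 0 ∧ F t.1 t.2.2 = 0 ∧ (t.2.1 ≠ t.2.2 ∧
        ¬ BadPr G tau B t.2.1 t.2.2))).card : ℝ) := by
    rw [← Set.ncard_coe_finset]
    congr 2
    ext t
    simp only [Par.TMain, Finset.coe_filter, Finset.mem_product, Set.mem_ofPred_eq, hC0, hGF,
      Set.Finite.mem_toFinset]
    tauto
  have eR : ((p.Pairs r1 R H).ncard : ℝ) =
      (((C1 ×ˢ GF).filter (fun t => F t.1 t.2 = 0)).card : ℝ) := by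
    rw [← Set.ncard_coe_finset]
    congr 2
    ext t
    simp only [Par.Pairs, Finset.coe_filter, Finset.mem_product, Set.mem_ofPred_eq, hC1, hGF,
      Set.Finite.mem_toFinset]
    tauto
  rw [eL]
  refine key.trans ?_
  rw [← eR]
  have hT'nn : 0 ≤ T' B := by
    simp only [hT', Vol]
    positivity
  have hsum : ∑ q ∈ QQ, (Ideal.absNorm q : ℝ) * ((Ideal.absNorm q : ℝ) *
      ((1 + eps) * T' B / (Ideal.absNorm q : ℝ) ^ (n + 1))) ≤
      (1 + eps) * T' B * (1 + E) := by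
    have h1 : ∀ q ∈ QQ, (Ideal.absNorm q : ℝ) * ((Ideal.absNorm q : ℝ) *
        ((1 + eps) * T' B / (Ideal.absNorm q : ℝ) ^ (n + 1))) ≤
        (1 + eps) * T' B * (1 / (Ideal.absNorm q : ℝ) ^ 2) := by
      intro q hq
      have hq' := (hmemQQ q).1 hq
      have hq1 : (1 : ℝ) ≤ (Ideal.absNorm q : ℝ) := by exact_mod_cast absNorm_pos hq'.1.1
      have hq0 : (0 : ℝ) < (Ideal.absNorm q : ℝ) := by linarith
      have h2 : (Ideal.absNorm q : ℝ) ^ 4 ≤ (Ideal.absNorm q : ℝ) ^ (n + 1) :=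
        pow_le_pow_right₀ hq1 (by omega)
      have h3 : (Ideal.absNorm q : ℝ) * ((Ideal.absNorm q : ℝ) *
          ((1 + eps) * T' B / (Ideal.absNorm q : ℝ) ^ (n + 1))) =
          (1 + eps) * T' B * ((Ideal.absNorm q : ℝ) ^ 2 / (Ideal.absNorm q : ℝ) ^ (n + 1)) := by
        ring
      rw [h3]
      refine mul_le_mul_of_nonneg_left ?_ (by positivity)
      rw [div_le_div_iff₀ (by positivity) (by positivity)]
      calc (Ideal.absNorm q : ℝ) ^ 2 * (Ideal.absNorm q : ℝ) ^ 2 = (Ideal.absNorm q : ℝ) ^ 4 := by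
            ring
        _ ≤ (Ideal.absNorm q : ℝ) ^ (n + 1) := h2
        _ = 1 * (Ideal.absNorm q : ℝ) ^ (n + 1) := (one_mul _).symm
    refine (Finset.sum_le_sum h1).trans ?_
    rw [← Finset.mul_sum]
    refine mul_le_mul_of_nonneg_left (n2m_sum p hp E hE QQ fun q hq => ?_) (by positivity)
    exact ⟨((hmemQQ q).1 hq).1.1, ((hmemQQ q).1 hq).2⟩
  have hcT : c * T' B = (1 + 2 * eps) * p.TT H := by
    simp only [hc, hT', Vol, Par.TT, ← hB]
    have e1 : (2 * th * (B : ℝ)) ^ mK K = th ^ mK K * (2 * (B : ℝ)) ^ mK K := by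
      rw [← mul_pow]
      congr 1
      ring
    have e2 : (th * H * (B : ℝ) ^ d) ^ mK K = th ^ mK K * (H * (B : ℝ) ^ d) ^ mK K := by
      rw [← mul_pow]
      congr 1
      ring
    rw [e1, e2]
    have h1 : th ^ mK K ≠ 0 := (by positivity : (0 : ℝ) < th ^ mK K).ne'
    have h2 : (H * (B : ℝ) ^ d) ^ mK K ≠ 0 := (by positivity : (0 : ℝ) < (H * (B : ℝ) ^ d) ^ mK K).ne'
    have h3 : ((p.W : ℝ) ^ s) ^ mK K ≠ 0 := (by positivity : (0 : ℝ) < ((p.W : ℝ) ^ s) ^ mK K).ne'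
    generalize th ^ mK K = a1 at h1
    generalize (H * (B : ℝ) ^ d) ^ mK K = a2 at h2
    generalize ((p.W : ℝ) ^ s) ^ mK K = a3 at h3
    field_simp
  have hTT0 : 0 ≤ p.TT H := by
    simp only [Par.TT]
    positivity
  have hX : p.XR r1 H ≤ (1 + eps / N) ^ N * p.XR p.rho H := by
    simp only [Par.XR]
    rw [← hNdef, ← mul_pow]
    refine pow_le_pow_left₀ (by positivity) ?_ N
    rw [mul_div_assoc', div_le_div_iff_of_pos_right hQr]
    nlinarith
  have hXn0 : 0 ≤ p.XR p.rho H := by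
    simp only [Par.XR]
    positivity
  have hPb : ((p.Pairs r1 R H).ncard : ℝ) ≤
      (1 + 8 * eps) * (1 + eps / N) ^ N * (p.TT H * p.XR p.rho H) := by
    refine hS1.trans ?_
    calc (1 + 8 * eps) * p.TT H * p.XR r1 H ≤
        (1 + 8 * eps) * p.TT H * ((1 + eps / N) ^ N * p.XR p.rho H) :=
          mul_le_mul_of_nonneg_left hX (by positivity)
      _ = _ := by ring
  have hP0 : (0 : ℝ) ≤ ((p.Pairs r1 R H).ncard : ℝ) := Nat.cast_nonneg _
  calc c * (∑ q ∈ QQ, (Ideal.absNorm q : ℝ) * ((Ideal.absNorm q : ℝ) *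
        ((1 + eps) * T' B / (Ideal.absNorm q : ℝ) ^ (n + 1)))) *
        ((p.Pairs r1 R H).ncard : ℝ) ≤
      c * ((1 + eps) * T' B * (1 + E)) * ((p.Pairs r1 R H).ncard : ℝ) :=
        mul_le_mul_of_nonneg_right (mul_le_mul_of_nonneg_left hsum hc0.le) hP0
    _ = (c * T' B) * ((1 + eps) * (1 + E)) * ((p.Pairs r1 R H).ncard : ℝ) := by ring
    _ = (1 + 2 * eps) * p.TT H * ((1 + eps) * (1 + E)) * ((p.Pairs r1 R H).ncard : ℝ) := by
        rw [hcT]
    _ ≤ (1 + 2 * eps) * p.TT H * ((1 + eps) * (1 + E)) *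
        ((1 + 8 * eps) * (1 + eps / N) ^ N * (p.TT H * p.XR p.rho H)) :=
        mul_le_mul_of_nonneg_left hPb (by positivity)
    _ = ((1 + 2 * eps) * (1 + eps) * (1 + E) * ((1 + 8 * eps) * (1 + eps / N) ^ N)) *
        (p.TT H ^ 2 * p.XR p.rho H) := by ring
    _ ≤ (1 + 40 * eps + 5 * E) * (p.TT H ^ 2 * p.XR p.rho H) :=
        mul_le_mul_of_nonneg_right (n2m_num eps E N hN0 he he1 hE0) (by positivity)
    _ = (1 + 40 * eps + 5 * E) * p.TT H ^ 2 * p.XR p.rho H := by ring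

end NFHP
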