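import Pool.Agent.Lib.MP_e426f4_ag.N.Const
import Pool.Agent.Lib.MP_e426f4_ag.G.Heights

/-! Module NF-CT0: the expected number of points tends to infinity. -/

set_option linter.unusedSectionVars false
set_option linter.unusedVariables false

namespace NFHP

open NumberField GenHP Finset Filter Topology

variable {K : Type} [Field K] [NumberField K] {n d : ℕ}

theorem TT_atTop (p : Par K n d) {eps bet k0 : ℝ} {w : ℕ} (hp : p.Valid eps bet k0 w) :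
    Tendsto (fun H : ℝ => p.TT H) atTop atTop := by
  have hdn := hp.d_le
  have hkap := hp.kap_pos
  have hvg := hp.vg_pos
  have hQ : (0 : ℝ) < p.Q := by exact_mod_cast hp.Q_pos
  have hP : (0 : ℝ) < Ideal.absNorm p.P := by exact_mod_cast absNorm_pos hp.P_ne
  obtain ⟨c, hc⟩ : ∃ c : ℝ, c = (2 * p.kap ^ 2) ^ (mK K * n) * 2 ^ mK K * (p.Q : ℝ) ^ mK K /
      ((Ideal.absNorm p.P : ℝ) ^ (n + 1) * p.vg) := ⟨_, rfl⟩
  have hc0 : 0 < c := by rw [hc]; positivity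
  have h1 : Tendsto (fun H : ℝ => c * ((Bf n d H : ℝ) ^ (n + 1 - d) / H) ^ mK K) atTop atTop :=
    ((tendsto_pow_atTop mK_pos.ne').comp (Bf_tendsto n d hp.n_ge hp.d_ge hp.d_le)).const_mul_atTop hc0
  refine h1.congr' ?_
  have h2 := (Bf_atTop n d hp.n_ge hp.d_ge hp.d_le).eventually_ge_atTop 1
  filter_upwards [h2, eventually_gt_atTop (0 : ℝ)] with H hB hH
  have hB0 : (0 : ℝ) < Bf n d H := by exact_mod_cast hB
  have hB0' : (Bf n d H : ℝ) ≠ 0 := hB0.ne'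
  have e1 : (Bf n d H : ℝ) ^ (n + 1) = (Bf n d H : ℝ) ^ (n + 1 - d) * (Bf n d H : ℝ) ^ d := by
    rw [← pow_add]
    congr 1
    omega
  have e2 : (Bf n d H : ℝ) ^ (mK K * n) * (Bf n d H : ℝ) ^ mK K =
      ((Bf n d H : ℝ) ^ (n + 1 - d)) ^ mK K * ((Bf n d H : ℝ) ^ d) ^ mK K := by
    rw [← mul_pow, ← e1, ← pow_mul, ← pow_add]
    congr 1
    ring
  unfold Par.TT
  rw [hc, mul_pow (2 * p.kap ^ 2) (Bf n d H : ℝ) (mK K * n), mul_pow 2 (Bf n d H : ℝ) (mK K),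
    mul_pow H _ (mK K), div_pow]
  have e3 : (2 * p.kap ^ 2) ^ (mK K * n) * (Bf n d H : ℝ) ^ (mK K * n) *
      (2 ^ mK K * (Bf n d H : ℝ) ^ mK K) * (p.Q : ℝ) ^ mK K =
      (2 * p.kap ^ 2) ^ (mK K * n) * 2 ^ mK K * (p.Q : ℝ) ^ mK K *
        (((Bf n d H : ℝ) ^ (n + 1 - d)) ^ mK K * ((Bf n d H : ℝ) ^ d) ^ mK K) := by
    rw [← e2]
    ring
  rw [e3]
  have e4 : ((Bf n d H : ℝ) ^ d) ^ mK K ≠ 0 := by positivity
  have e5 : H ^ mK K ≠ 0 := by positivity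
  field_simp

end NFHP
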