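import Pool.Agent.Lib.MP_e426f4_ag.N.Const

/-! Module NF-SPa: linear independence over `ℂ`, and the space orthogonal to a point. -/

set_option linter.unusedSectionVars false

namespace NFHP

open NumberField GenHP Finset Filter Topology

variable {K : Type} [Field K] [NumberField K] {n d : ℕ}

/-- NF-SPa: transfer of linear independence -/
theorem linearIndependent_sg {m : ℕ} (l : Fin m → Fin (n + 1) → 𝓞 K)
    (hl : LinearIndependent K (fun k : Fin m => fun i : Fin (n + 1) => ((l k i : 𝓞 K) : K)))
    (w : InfinitePlace K) :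
    LinearIndependent ℂ (fun k : Fin m => fun i : Fin (n + 1) => sg w (l k i)) := by
  classical
  set v : Fin m → Fin (n + 1) → K := fun k i => ((l k i : 𝓞 K) : K) with hv
  have hker : LinearMap.ker (Fintype.linearCombination K v) = ⊥ := by
    rw [LinearMap.ker_eq_bot']
    intro c hc
    rw [Fintype.linearCombination_apply] at hc
    funext k
    exact (Fintype.linearIndependent_iff.mp hl) c hc k
  obtain ⟨g, hg⟩ := LinearMap.exists_leftInverse_of_injective _ hker
  set N : Fin (n + 1) → Fin m → K := fun i k => g (Pi.single i 1) k with hN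
  have hgv : ∀ k, g (v k) = Pi.single k 1 := by
    intro k
    have h1 : Fintype.linearCombination K v (Pi.single k 1) = v k := by
      rw [Fintype.linearCombination_apply_single, one_smul]
    have h2 := congrArg (fun f => f (Pi.single k (1 : K))) hg
    simp only [LinearMap.comp_apply, LinearMap.id_apply] at h2
    rw [h1] at h2
    exact h2
  have hone : ∀ k k' : Fin m, ∑ i, v k i * N i k' = if k' = k then 1 else 0 := by
    intro k k'
    have h1 : v k = ∑ i, v k i • (Pi.single i (1 : K) : Fin (n + 1) → K) := by
      funext j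
      simp [Finset.sum_apply, Pi.single_apply]
    have h2 : g (v k) k' = ∑ i, v k i * N i k' := by
      conv_lhs => rw [h1]
      rw [map_sum, Finset.sum_apply]
      refine Finset.sum_congr rfl fun i _ => ?_
      rw [map_smul, Pi.smul_apply, smul_eq_mul]
    rw [← h2, hgv, Pi.single_apply]
  have hone' : ∀ k k' : Fin m, ∑ i, sg w (l k i) * w.embedding (N i k') =
      if k' = k then 1 else 0 := by
    intro k k'
    have h1 := congrArg w.embedding (hone k k')
    rw [map_sum] at h1
    simp only [map_mul] at h1
    have h2 : ∀ i, w.embedding (v k i) = sg w (l k i) := fun i => rfl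
    simp only [h2] at h1
    rw [h1]
    split_ifs
    · exact map_one _
    · exact map_zero _
  rw [Fintype.linearIndependent_iff]
  intro c hc k'
  have h1 : ∑ i, (∑ k, c k • (fun i : Fin (n + 1) => sg w (l k i))) i * w.embedding (N i k') = 0 := by
    rw [hc]
    simp
  have h2 : ∑ i, (∑ k, c k • (fun i : Fin (n + 1) => sg w (l k i))) i * w.embedding (N i k') =
      ∑ k, c k * ∑ i, sg w (l k i) * w.embedding (N i k') := by
    simp only [Finset.sum_apply, Pi.smul_apply, smul_eq_mul, Finset.sum_mul, Finset.mul_sum]
    rw [Finset.sum_comm]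
    refine Finset.sum_congr rfl fun k _ => Finset.sum_congr rfl fun i _ => by ring
  rw [h2] at h1
  simp only [hone'] at h1
  simpa using h1

/-- NF-SPa -/
theorem mem_span_of_orthoC (x : Fin (n + 1) → ℂ) (hx : x ≠ 0) (l : Fin n → Fin (n + 1) → ℂ)
    (hl : LinearIndependent ℂ l) (hlx : ∀ k, ∑ i, l k i * x i = 0) (u : Fin (n + 1) → ℂ)
    (hu : ∑ i, u i * x i = 0) : u ∈ Submodule.span ℂ (Set.range l) := by
  set φ : (Fin (n + 1) → ℂ) →ₗ[ℂ] ℂ :=
    { toFun := fun u => ∑ i, u i * x i
      map_add' := fun u v => by
        rw [← Finset.sum_add_distrib]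
        exact Finset.sum_congr rfl fun i _ => by rw [Pi.add_apply]; ring
      map_smul' := fun c u => by
        rw [RingHom.id_apply, smul_eq_mul, Finset.mul_sum]
        exact Finset.sum_congr rfl fun i _ => by rw [Pi.smul_apply, smul_eq_mul]; ring } with hφ
  have hle : Submodule.span ℂ (Set.range l) ≤ LinearMap.ker φ := by
    rw [Submodule.span_le]
    rintro _ ⟨k, rfl⟩
    exact hlx k
  have hsurj : LinearMap.range φ = ⊤ := by
    rw [LinearMap.range_eq_top]
    obtain ⟨j, hj⟩ := Function.ne_iff.mp hx
    rw [Pi.zero_apply] at hj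
    intro c
    refine ⟨Pi.single j (c / x j), ?_⟩
    show ∑ i, (Pi.single j (c / x j) : Fin (n + 1) → ℂ) i * x i = c
    rw [Finset.sum_eq_single j]
    · rw [Pi.single_eq_same]
      field_simp
    · intro i _ hi
      rw [Pi.single_eq_of_ne hi, zero_mul]
    · simp
  have h1 := φ.finrank_range_add_finrank_ker
  rw [hsurj, finrank_top, Module.finrank_self, Module.finrank_fin_fun] at h1
  have h2 : Module.finrank ℂ (Submodule.span ℂ (Set.range l)) = n := by
    rw [finrank_span_eq_card hl]
    simp
  have heq := Submodule.eq_of_le_of_finrank_eq hle (by omega)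
  rw [heq]
  exact hu

end NFHP
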